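import Pool.Agent.H6F.Stm
import Pool.Agent.N748.MG.TMA

set_option autoImplicit false

/-! (ONE) truncated moments of shifts. -/

namespace Pool.Agent.H6F.ONE

open Filter MeasureTheory Topology Complex
open Pool.Agent.N748.MG Pool.Agent.N748.MJ

lemma F_nn (k V d u : ℝ) : 0 ≤ F k V d u := by
  unfold F
  split_ifs
  · exact Real.rpow_nonneg (norm_nonneg _) _
  · exact le_rfl

lemma F_le {k V d : ℝ} (hd : 0 < d) (hk : 0 ≤ k) (u : ℝ) : F k V d u ≤ (2 * d) ^ (-(2 * k * V)) := by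
  have h2 : 0 < 2 * d := by positivity
  unfold F
  split_ifs with h
  · calc mz d u ^ (2 * k) ≤ ((2 * d) ^ (-V)) ^ (2 * k) :=
          Real.rpow_le_rpow (norm_nonneg _) h (by positivity)
      _ = (2 * d) ^ (-(2 * k * V)) := by
          rw [← Real.rpow_mul h2.le]
          congr 1
          ring
  · exact (Real.rpow_pos_of_pos h2 _).le

lemma F_meas {k V d : ℝ} (hd : d ≤ 1 / 16) : Measurable (F k V d) := by
  have h := (TMA.cont hd).measurable
  unfold F
  exact Measurable.ite (measurableSet_le h measurable_const) (h.pow_const _) measurable_const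

/-- a shift of a bounded function -/
lemma shift {g : ℝ → ℝ} {B T x : ℝ} (hg : Measurable g) (h0 : ∀ u, 0 ≤ g u) (hB : ∀ u, g u ≤ B) (hx : 0 ≤ x) :
    |(∫ t in (0:ℝ)..T, g (t + x)) - ∫ t in (0:ℝ)..T, g t| ≤ x * B := by
  have hi : ∀ a b : ℝ, IntervalIntegrable g volume a b := by
    intro a b
    rw [intervalIntegrable_iff]
    refine Measure.integrableOn_of_bounded (M := B) (by
      rw [Set.uIoc, Real.volume_Ioc]; exact ENNReal.ofReal_ne_top) hg.aestronglyMeasurable ?_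
    refine Eventually.of_forall fun t => ?_
    rw [Real.norm_of_nonneg (h0 t)]
    exact hB t
  have e1 : (∫ t in (0:ℝ)..T, g (t + x)) = ∫ t in x..(T + x), g t := by
    rw [intervalIntegral.integral_comp_add_right (fun t => g t), zero_add]
  have e2 : (∫ t in x..(T + x), g t) - ∫ t in (0:ℝ)..T, g t =
      (∫ t in T..(T + x), g t) - ∫ t in (0:ℝ)..x, g t := by
    have a1 := intervalIntegral.integral_add_adjacent_intervals (hi 0 x) (hi x (T + x))
    have a2 := intervalIntegral.integral_add_adjacent_intervals (hi 0 T) (hi T (T + x))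
    linarith
  have b1 : ∀ a : ℝ, 0 ≤ ∫ t in a..(a + x), g t := fun a =>
    intervalIntegral.integral_nonneg (by linarith) fun u _ => h0 u
  have b2 : ∀ a : ℝ, ∫ t in a..(a + x), g t ≤ x * B := by
    intro a
    have := intervalIntegral.integral_mono_on (a := a) (b := a + x) (by linarith) (hi a (a + x))
      (intervalIntegrable_const (c := B)) fun u _ => hB u
    rw [intervalIntegral.integral_const, smul_eq_mul] at this
    linarith
  have c1 := b1 T
  have c2 := b2 T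
  have c3 := b1 0
  have c4 := b2 0
  rw [zero_add] at c3 c4
  rw [e1, e2, abs_le]
  constructor <;> linarith

lemma ML_eq {k V d T : ℝ} (hd : d ≤ 1 / 16) (hT : 0 < T) :
    ML k ((2 * d) ^ (-V)) d T = (1 / T) * ∫ t in (0:ℝ)..T, F k V d t := by
  unfold ML
  congr 1
  have hm : MeasurableSet {t : ℝ | mz d t ≤ (2 * d) ^ (-V)} :=
    measurableSet_le (TMA.cont hd).measurable measurable_const
  have e1 : {t : ℝ | t ∈ Set.Icc 0 T ∧ mz d t ≤ (2 * d) ^ (-V)} =
      Set.Icc 0 T ∩ {t : ℝ | mz d t ≤ (2 * d) ^ (-V)} := rfl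
  rw [e1, ← setIntegral_indicator hm, intervalIntegral.integral_of_le hT.le, integral_Icc_eq_integral_Ioc]
  refine setIntegral_congr_fun measurableSet_Ioc fun t _ => ?_
  simp only [Set.indicator, Set.mem_setOf_eq, F]

theorem t (h : S_TM1) (h' : S_APOS) : S_ONE := by
  intro d hd k V ε hk hkV hε
  obtain ⟨ha, -⟩ := h' k
  have hV : 0 < V := hk.trans hkV
  have g1 := h d hd k V hk hkV
  rw [Metric.tendsto_nhds] at g1
  have g2 := g1 (ε / 2 * (aC (k : ℂ)).re) (by positivity)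
  have g3 := (Ev.win (D := 2 * k * V) (c := 1) (e := 1 / 4) one_pos (by norm_num)).app hd
  have g4 := (Ev.of_le (d := 1 / 16) (by norm_num)).app hd
  have g5 : ∀ᶠ T : ℝ in atTop, T ^ (-(1 / 4 : ℝ)) ≤ ε / 2 * (aC (k : ℂ)).re :=
    (tendsto_rpow_neg_atTop (by norm_num : (0:ℝ) < 1 / 4)).eventually_le_const (by positivity)
  filter_upwards [g2, g3, g4, g5, hd.pos, eventually_gt_atTop 0] with T g2 g3 g4 g5 g6 hT x hx0 hx1
  set δ : ℝ := d T with hδ
  have h2 : 0 < 2 * δ := by positivity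
  set a : ℝ := (aC (k : ℂ)).re with ha'
  rw [ML_eq g4 hT, Real.dist_eq] at g2
  have hs := shift (T := T) (F_meas (k := k) (V := V) g4) (F_nn k V δ) (F_le g6 hk.le) hx0
  set I : ℝ := ∫ t in (0:ℝ)..T, F k V δ t
  set J : ℝ := ∫ t in (0:ℝ)..T, F k V δ (t + x)
  have hN : (2 * δ) ^ (-(2 * k * V)) ≤ T ^ (1 / 4 : ℝ) := by
    have := Real.rpow_le_rpow_of_nonpos g6 (by linarith : δ ≤ 2 * δ) (by
      have : 0 < 2 * k * V := by positivity
      linarith : -(2 * k * V) ≤ 0)
    linarith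
  have hP : 0 < (2 * δ) ^ (k ^ 2) := Real.rpow_pos_of_pos h2 _
  have hP1 : (2 * δ) ^ (k ^ 2) ≤ 1 := Real.rpow_le_one h2.le (by linarith) (by positivity)
  have hQ : (2 * δ) ^ (-(k ^ 2)) = ((2 * δ) ^ (k ^ 2))⁻¹ := Real.rpow_neg h2.le _
  set P : ℝ := (2 * δ) ^ (k ^ 2)
  have hM : M k δ = a * P⁻¹ := by
    unfold M
    rw [hQ]
  have hM0 : P * M k δ = a := by
    rw [hM]
    field_simp
  have hMa : a ≤ M k δ := by
    rw [hM]
    have : 1 ≤ P⁻¹ := (one_le_inv₀ hP).2 hP1
    nlinarith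
  have k1 : |1 / T * I - M k δ| ≤ ε / 2 * M k δ := by
    have e : P * (1 / T * I) - a = P * (1 / T * I - M k δ) := by
      rw [mul_sub, hM0]
    rw [e, abs_mul, abs_of_pos hP] at g2
    have g2' := g2.le
    rw [← hM0] at g2'
    have : P * |1 / T * I - M k δ| ≤ P * (ε / 2 * M k δ) := by
      calc _ ≤ _ := g2'
        _ = _ := by ring
    exact le_of_mul_le_mul_left this hP
  have k2 : |1 / T * J - 1 / T * I| ≤ ε / 2 * M k δ := by
    rw [← mul_sub, abs_mul, abs_of_pos (by positivity : 0 < 1 / T)]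
    have q1 : x * (2 * δ) ^ (-(2 * k * V)) ≤ T ^ ((1:ℝ) / 2) * T ^ (1 / 4 : ℝ) :=
      mul_le_mul hx1 hN (Real.rpow_nonneg h2.le _) (Real.rpow_nonneg hT.le _)
    have q2 : 1 / T * (T ^ ((1:ℝ) / 2) * T ^ (1 / 4 : ℝ)) = T ^ (-(1 / 4 : ℝ)) := by
      rw [← Real.rpow_add hT, one_div, ← Real.rpow_neg_one T, ← Real.rpow_add hT]
      norm_num
    calc 1 / T * |J - I| ≤ 1 / T * (T ^ ((1:ℝ) / 2) * T ^ (1 / 4 : ℝ)) :=
          mul_le_mul_of_nonneg_left (hs.trans q1) (by positivity)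
      _ = T ^ (-(1 / 4 : ℝ)) := q2
      _ ≤ ε / 2 * a := g5
      _ ≤ ε / 2 * M k δ := mul_le_mul_of_nonneg_left hMa (by positivity)
  calc |1 / T * J - M k δ| = |(1 / T * J - 1 / T * I) + (1 / T * I - M k δ)| := by ring_nf
    _ ≤ |1 / T * J - 1 / T * I| + |1 / T * I - M k δ| := abs_add_le _ _
    _ ≤ ε * M k δ := by linarith

end Pool.Agent.H6F.ONE
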