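import Pool.Agent.H6F.Stm2
import Pool.Agent.H6F.ONE

set_option autoImplicit false

/-! (BAR1) the barrier is typical under the tilt (helper98). -/

namespace Pool.Agent.H6F.BAR1

open Filter MeasureTheory Topology Complex
open Pool.Agent.N748.MG Pool.Agent.N748.MJ

lemma yb_pos {b d t : ℝ} (hd : 0 < d) : 0 < yb b d t :=
  lt_of_lt_of_le (by positivity) (le_max_left _ _)

lemma yb_cont {b d : ℝ} (hb : 0 < b) (hd : d ≤ 1 / 16) : Continuous (yb b d) := by
  have h := TMA.cont hd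
  unfold yb
  exact continuous_const.max (h.rpow_const (fun _ => Or.inr (by positivity)))

lemma yb_le {b d t : ℝ} (hd : 0 ≤ d) : yb b d t ≤ 2 * d + mz d t ^ (2 * b) := by
  unfold yb
  have := Real.rpow_nonneg (TMA.mz_nn d t) (2 * b)
  exact max_le (by linarith) (by linarith)

lemma G_pos {d v : ℝ} (hd : 0 < d) : 0 < G d v := by
  unfold G
  have := abs_nonneg v
  linarith

lemma G_cont {d s : ℝ} (hd : 0 < d) : Continuous fun v => G d v ^ s := by
  have h : Continuous fun v => G d v := by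
    unfold G
    fun_prop
  exact h.rpow_const fun v => Or.inl (G_pos hd).ne'

lemma G_int {d w s : ℝ} (hd : 0 < d) (hw : 0 < w) (hs : 0 ≤ s) (hs2 : s ≤ 1 / 2) :
    ∫ v in (-w)..w, G d v ^ (-s) ≤ 4 * w * w ^ (-s) := by
  have hc : Continuous fun v => G d v ^ (-s) := G_cont hd
  have e1 : ∫ v in (-w)..w, G d v ^ (-s) = (∫ v in (-w)..0, G d v ^ (-s)) + ∫ v in (0:ℝ)..w, G d v ^ (-s) :=
    (intervalIntegral.integral_add_adjacent_intervals (hc.intervalIntegrable _ _)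
      (hc.intervalIntegrable _ _)).symm
  have e2 : (∫ v in (-w)..0, G d v ^ (-s)) = ∫ v in (0:ℝ)..w, G d v ^ (-s) := by
    have := intervalIntegral.integral_comp_neg (a := 0) (b := w) (fun v => G d v ^ (-s))
    rw [neg_zero] at this
    rw [← this]
    congr 1
    ext v
    unfold G
    rw [abs_neg]
  have e3 : ∫ v in (0:ℝ)..w, G d v ^ (-s) ≤ ∫ v in (0:ℝ)..w, v ^ (-s) := by
    refine intervalIntegral.integral_mono_on_of_le_Ioo hw.le (hc.intervalIntegrable _ _)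
      (intervalIntegral.intervalIntegrable_rpow' (by linarith)) fun v hv => ?_
    refine Real.rpow_le_rpow_of_nonpos hv.1 ?_ (by linarith)
    unfold G
    have := le_abs_self v
    linarith
  have e4 : ∫ v in (0:ℝ)..w, v ^ (-s) = w ^ (-s + 1) / (-s + 1) := by
    rw [integral_rpow (Or.inl (by linarith)), Real.zero_rpow (by linarith), sub_zero]
  have e5 : w ^ (-s + 1) = w * w ^ (-s) := by
    rw [Real.rpow_add hw, Real.rpow_one, mul_comm]
  have h0 : 0 < w ^ (-s) := Real.rpow_pos_of_pos hw _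
  have e6 : w ^ (-s + 1) / (-s + 1) ≤ 2 * (w * w ^ (-s)) := by
    rw [e5, div_le_iff₀ (by linarith)]
    have : 0 < w * w ^ (-s) := by positivity
    nlinarith
  rw [e1, e2]
  linarith

/-- elementary inequality -/
lemma pw_le {z b l : ℝ} (hz : 0 ≤ z) (hb : 0 < b) (hb1 : b ≤ 1) (hl : 0 < l) :
    z ^ (2 * b) ≤ 1 + l⁻¹ + l * z ^ 4 := by
  have h1 : z ^ 2 ≤ l⁻¹ + l * z ^ 4 := by
    have h2 : 0 ≤ l⁻¹ * (1 - l * z ^ 2) ^ 2 := by positivity
    have h3 : l⁻¹ * (1 - l * z ^ 2) ^ 2 = l⁻¹ + l * z ^ 4 - 2 * z ^ 2 := by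
      field_simp
      ring
    have := sq_nonneg z
    linarith
  rcases le_total z 1 with h | h
  · have h4 : z ^ (2 * b) ≤ 1 := Real.rpow_le_one hz h (by positivity)
    have h5 : 0 ≤ l⁻¹ + l * z ^ 4 := by positivity
    linarith
  · have h4 : z ^ (2 * b) ≤ z ^ (2:ℝ) := Real.rpow_le_rpow_of_exponent_le h (by linarith)
    rw [Real.rpow_two] at h4
    linarith

/-- off the good set -/
lemma off {b δ T h E CF : ℝ} {S : Set ℝ} (hb : 0 < b) (hb1 : b ≤ 1) (hδ : 0 < δ) (hδ1 : δ ≤ 1 / 16) (hT : 0 < T)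
    (hE : 4 ≤ E) (hCF : 0 < CF) (hS : MeasurableSet S)
    (hv : volume (Set.Icc 0 T \ S) ≤ ENNReal.ofReal (δ ^ (2 * E) * T))
    (h4 : ∫ t in (0:ℝ)..T, mz δ (t + h) ^ 4 ≤ CF * (T * (1 / δ) ^ 4)) :
    ∫ t in Set.Icc 0 T \ S, mz δ (t + h) ^ (2 * b) ≤ (2 + CF) * T * δ ^ (E - 4) := by
  have hc : Continuous fun t => mz δ (t + h) := (TMA.cont hδ1).comp (continuous_id.add continuous_const)
  have hR : MeasurableSet (Set.Icc 0 T \ S) := measurableSet_Icc.diff hS
  have hi4 : IntegrableOn (fun t => mz δ (t + h) ^ 4) (Set.Icc 0 T) :=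
    (hc.pow 4).continuousOn.integrableOn_compact isCompact_Icc
  have hi2 : IntegrableOn (fun t => mz δ (t + h) ^ (2 * b)) (Set.Icc 0 T) :=
    (hc.rpow_const (fun _ => Or.inr (by positivity))).continuousOn.integrableOn_compact isCompact_Icc
  have hfin : volume (Set.Icc 0 T \ S) ≠ ⊤ := ne_top_of_le_ne_top ENNReal.ofReal_ne_top hv
  set l : ℝ := δ ^ E with hl
  have hl0 : 0 < l := Real.rpow_pos_of_pos hδ _
  have hsub : Set.Icc 0 T \ S ⊆ Set.Icc 0 T := Set.sdiff_subset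
  have i1 : IntegrableOn (fun _ : ℝ => (1 + l⁻¹ : ℝ)) (Set.Icc 0 T \ S) := by
    rw [integrableOn_const_iff]
    exact Or.inr (lt_top_iff_ne_top.2 hfin)
  have i2 : IntegrableOn (fun t => l * mz δ (t + h) ^ 4) (Set.Icc 0 T \ S) := (hi4.mono_set hsub).const_mul l
  have s1 : ∫ t in Set.Icc 0 T \ S, mz δ (t + h) ^ (2 * b) ≤
      ∫ t in Set.Icc 0 T \ S, ((1 + l⁻¹) + l * mz δ (t + h) ^ 4) :=
    setIntegral_mono_on (hi2.mono_set hsub) (i1.add i2) hR fun t _ =>
      pw_le (TMA.mz_nn _ _) hb hb1 hl0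
  have s2 : ∫ t in Set.Icc 0 T \ S, ((1 + l⁻¹) + l * mz δ (t + h) ^ 4) =
      (∫ t in Set.Icc 0 T \ S, (1 + l⁻¹ : ℝ)) + ∫ t in Set.Icc 0 T \ S, l * mz δ (t + h) ^ 4 :=
    integral_add i1 i2
  have s3 : ∫ t in Set.Icc 0 T \ S, (1 + l⁻¹ : ℝ) ≤ (1 + l⁻¹) * (δ ^ (2 * E) * T) := by
    rw [setIntegral_const, smul_eq_mul, mul_comm]
    refine mul_le_mul_of_nonneg_left ?_ (by positivity)
    exact ENNReal.toReal_le_of_le_ofReal (by positivity) hv
  have s4 : ∫ t in Set.Icc 0 T \ S, l * mz δ (t + h) ^ 4 ≤ l * (CF * (T * (1 / δ) ^ 4)) := by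
    rw [integral_const_mul]
    refine mul_le_mul_of_nonneg_left ?_ hl0.le
    rw [intervalIntegral.integral_of_le hT.le, ← integral_Icc_eq_integral_Ioc] at h4
    refine le_trans ?_ h4
    exact setIntegral_mono_set hi4 (Eventually.of_forall fun t => by
      show 0 ≤ mz δ (t + h) ^ 4
      have := TMA.mz_nn δ (t + h)
      positivity) (HasSubset.Subset.eventuallyLE hsub)
  have p1 : δ ^ (2 * E) = l * l := by
    rw [hl, ← Real.rpow_add hδ]
    congr 1
    ring
  have p2 : (1 / δ) ^ 4 = δ ^ (-4 : ℝ) := by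
    rw [Real.rpow_neg hδ.le, one_div, inv_pow]
    congr 1
    norm_cast
  have p3 : l * δ ^ (-4 : ℝ) = δ ^ (E - 4) := by
    rw [hl, ← Real.rpow_add hδ]
    congr 1
  have p4 : l ≤ δ ^ (E - 4) := Real.rpow_le_rpow_of_exponent_ge hδ (by linarith) (by linarith)
  have p5 : l ≤ 1 := Real.rpow_le_one hδ.le (by linarith) (by linarith)
  have p6 : (1 + l⁻¹) * (δ ^ (2 * E) * T) = (l * l + l) * T := by
    rw [p1]
    field_simp
  have p7 : (l * l + l) * T ≤ 2 * T * δ ^ (E - 4) := by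
    have : l * l + l ≤ 2 * δ ^ (E - 4) := by nlinarith
    nlinarith
  have p8 : l * (CF * (T * (1 / δ) ^ 4)) = CF * T * δ ^ (E - 4) := by
    rw [p2, ← p3]
    ring
  rw [p8] at s4
  rw [p6] at s3
  nlinarith

lemma prodG {δ k b x v : ℝ} (hδ : 0 < δ) :
    ∏ j : Fin 2, ∏ l : Fin 2, G δ ((![x, x + v] : Fin 2 → ℝ) j - (![x, x + v] : Fin 2 → ℝ) l) ^
      (-((![k, b] : Fin 2 → ℝ) j * (![k, b] : Fin 2 → ℝ) l)) =
    (2 * δ) ^ (-(k ^ 2 + b ^ 2)) * G δ v ^ (-(2 * k * b)) := by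
  have h2 : 0 < 2 * δ := by positivity
  have hG := G_pos (v := v) hδ
  simp only [Fin.prod_univ_two, Matrix.cons_val_zero, Matrix.cons_val_one]
  have e0 : ∀ a : ℝ, G δ (a - a) = 2 * δ := by
    intro a
    simp [G]
  have e1 : G δ (x - (x + v)) = G δ v := by
    unfold G
    rw [show x - (x + v) = -v by ring, abs_neg]
  have e2 : G δ (x + v - x) = G δ v := by
    unfold G
    rw [show x + v - x = v by ring]
  rw [e0, e0, e1, e2, show -(k ^ 2 + b ^ 2) = -(k * k) + -(b * b) by ring,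
    show -(2 * k * b) = -(k * b) + -(b * k) by ring, Real.rpow_add h2, Real.rpow_add hG]
  ring

/-- the inner mean value -/
lemma Q_le {k V b δ T x v CF CJ a : ℝ} {S : Set ℝ} (hk : 0 < k) (hV : 0 < V) (hb : 0 < b) (hb1 : b ≤ 1)
    (hδ : 0 < δ) (hδ1 : δ ≤ 1 / 16) (hT : 0 < T) (hCF : 0 < CF)
    (hS : MeasurableSet S) (hST : S ⊆ Set.Icc 0 T)
    (hv : volume (Set.Icc 0 T \ S) ≤ ENNReal.ofReal (δ ^ (2 * (2 * k * V + 4)) * T))
    (hI : IntegrableOn (fun t => ∏ j : Fin 2, mz δ (t + (![x, x + v] : Fin 2 → ℝ) j) ^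
      (2 * (![k, b] : Fin 2 → ℝ) j)) S)
    (hJ : ∫ t in S, ∏ j : Fin 2, mz δ (t + (![x, x + v] : Fin 2 → ℝ) j) ^ (2 * (![k, b] : Fin 2 → ℝ) j) ≤
      CJ * T * ∏ j : Fin 2, ∏ l : Fin 2, G δ ((![x, x + v] : Fin 2 → ℝ) j - (![x, x + v] : Fin 2 → ℝ) l) ^
      (-((![k, b] : Fin 2 → ℝ) j * (![k, b] : Fin 2 → ℝ) l)))
    (h4 : ∫ t in (0:ℝ)..T, mz δ (t + (x + v)) ^ 4 ≤ CF * (T * (1 / δ) ^ 4))
    (h1 : ∫ t in (0:ℝ)..T, F k V δ (t + x) ≤ a * T * (2 * δ) ^ (-(k ^ 2))) :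
    ∫ t in (0:ℝ)..T, F k V δ (t + x) * yb b δ (t + x + v) ≤
      T * (CJ * (2 * δ) ^ (-(k ^ 2 + b ^ 2)) * G δ v ^ (-(2 * k * b)) + (a + 2 + CF) * (2 * δ) ^ (-(k ^ 2))) := by
  have h2 : 0 < 2 * δ := by positivity
  rw [prodG hδ] at hJ
  have hcy : Continuous fun t => yb b δ (t + x + v) := (yb_cont hb hδ1).comp (by fun_prop)
  have hcz : Continuous fun t => mz δ (t + (x + v)) ^ (2 * b) :=
    ((TMA.cont hδ1).comp (continuous_id.add continuous_const)).rpow_const (fun _ => Or.inr (by positivity))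
  have hFm : Measurable fun t => F k V δ (t + x) := (ONE.F_meas hδ1).comp (measurable_id.add_const x)
  have hF0 : ∀ t, 0 ≤ F k V δ t := ONE.F_nn k V δ
  have hFB : ∀ t, F k V δ t ≤ (2 * δ) ^ (-(2 * k * V)) := fun t => ONE.F_le hδ hk.le t
  have hbd : ∀ g : ℝ → ℝ, Continuous g → IntegrableOn (fun t => F k V δ (t + x) * g t) (Set.Icc 0 T) := by
    intro g hg
    have := hg.continuousOn.integrableOn_compact (μ := volume) (isCompact_Icc (a := (0:ℝ)) (b := T))
    refine Integrable.bdd_mul (c := (2 * δ) ^ (-(2 * k * V))) this hFm.aestronglyMeasurable ?_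
    refine Eventually.of_forall fun t => ?_
    rw [Real.norm_of_nonneg (hF0 _)]
    exact hFB _
  have iF : IntegrableOn (fun t => F k V δ (t + x)) (Set.Icc 0 T) := by
    have := hbd (fun _ => 1) continuous_const
    simpa using this
  have iz := hbd _ hcz
  have iy := hbd _ hcy
  rw [intervalIntegral.integral_of_le hT.le, ← integral_Icc_eq_integral_Ioc] at h1 ⊢
  have s1 : ∫ t in Set.Icc 0 T, F k V δ (t + x) * yb b δ (t + x + v) ≤
      ∫ t in Set.Icc 0 T, (2 * δ * F k V δ (t + x) + F k V δ (t + x) * mz δ (t + (x + v)) ^ (2 * b)) := by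
    refine setIntegral_mono_on iy ((iF.const_mul (2 * δ)).add iz) measurableSet_Icc fun t _ => ?_
    have e : t + x + v = t + (x + v) := by ring
    have := mul_le_mul_of_nonneg_left (yb_le (b := b) (t := t + x + v) hδ.le) (hF0 (t + x))
    rw [e] at this ⊢
    linarith
  have s2 : ∫ t in Set.Icc 0 T, (2 * δ * F k V δ (t + x) + F k V δ (t + x) * mz δ (t + (x + v)) ^ (2 * b)) =
      2 * δ * (∫ t in Set.Icc 0 T, F k V δ (t + x)) +
        ∫ t in Set.Icc 0 T, F k V δ (t + x) * mz δ (t + (x + v)) ^ (2 * b) := by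
    rw [integral_add (iF.const_mul (2 * δ)) iz, integral_const_mul]
  have s3 : ∫ t in Set.Icc 0 T, F k V δ (t + x) * mz δ (t + (x + v)) ^ (2 * b) =
      (∫ t in S, F k V δ (t + x) * mz δ (t + (x + v)) ^ (2 * b)) +
        ∫ t in Set.Icc 0 T \ S, F k V δ (t + x) * mz δ (t + (x + v)) ^ (2 * b) := by
    have := setIntegral_union (μ := volume) (f := fun t => F k V δ (t + x) * mz δ (t + (x + v)) ^ (2 * b))
      (Set.disjoint_sdiff_right (s := S) (t := Set.Icc (0:ℝ) T)) (measurableSet_Icc.diff hS)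
      (iz.mono_set hST) (iz.mono_set Set.sdiff_subset)
    rw [← this, Set.union_sdiff_cancel hST]
  have s4 : ∫ t in S, F k V δ (t + x) * mz δ (t + (x + v)) ^ (2 * b) ≤
      CJ * T * ((2 * δ) ^ (-(k ^ 2 + b ^ 2)) * G δ v ^ (-(2 * k * b))) := by
    refine le_trans ?_ hJ
    refine setIntegral_mono_on (iz.mono_set hST) hI hS fun t _ => ?_
    simp only [Fin.prod_univ_two, Matrix.cons_val_zero, Matrix.cons_val_one]
    refine mul_le_mul_of_nonneg_right ?_ (Real.rpow_nonneg (TMA.mz_nn _ _) _)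
    unfold F
    split_ifs
    · exact le_rfl
    · exact Real.rpow_nonneg (TMA.mz_nn _ _) _
  have s5 : ∫ t in Set.Icc 0 T \ S, F k V δ (t + x) * mz δ (t + (x + v)) ^ (2 * b) ≤
      (2 * δ) ^ (-(2 * k * V)) * ((2 + CF) * T * δ ^ (2 * k * V)) := by
    have o := off hb hb1 hδ hδ1 hT (by nlinarith [mul_pos hk hV] : 4 ≤ 2 * k * V + 4) hCF hS hv h4
    rw [show 2 * k * V + 4 - 4 = 2 * k * V by ring] at o
    have hz0 : IntegrableOn (fun t => mz δ (t + (x + v)) ^ (2 * b)) (Set.Icc 0 T \ S) :=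
      (hcz.continuousOn.integrableOn_compact isCompact_Icc).mono_set Set.sdiff_subset
    calc _ ≤ ∫ t in Set.Icc 0 T \ S, (2 * δ) ^ (-(2 * k * V)) * mz δ (t + (x + v)) ^ (2 * b) :=
          setIntegral_mono_on (iz.mono_set Set.sdiff_subset) (hz0.const_mul _) (measurableSet_Icc.diff hS)
            fun t _ => mul_le_mul_of_nonneg_right (hFB _) (Real.rpow_nonneg (TMA.mz_nn _ _) _)
      _ = (2 * δ) ^ (-(2 * k * V)) * ∫ t in Set.Icc 0 T \ S, mz δ (t + (x + v)) ^ (2 * b) := integral_const_mul _ _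
      _ ≤ _ := mul_le_mul_of_nonneg_left o (Real.rpow_nonneg h2.le _)
  have q1 : (2 * δ) ^ (-(2 * k * V)) * δ ^ (2 * k * V) ≤ 1 := by
    rw [Real.rpow_neg h2.le, inv_mul_le_iff₀ (Real.rpow_pos_of_pos h2 _), mul_one]
    exact Real.rpow_le_rpow hδ.le (by linarith) (by positivity)
  have q2 : 1 ≤ (2 * δ) ^ (-(k ^ 2)) := by
    rw [Real.rpow_neg h2.le]
    exact (one_le_inv₀ (Real.rpow_pos_of_pos h2 _)).2 (Real.rpow_le_one h2.le (by linarith) (by positivity))
  have s5' : (2 * δ) ^ (-(2 * k * V)) * ((2 + CF) * T * δ ^ (2 * k * V)) ≤ (2 + CF) * T * (2 * δ) ^ (-(k ^ 2)) := by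
    calc _ = (2 + CF) * T * ((2 * δ) ^ (-(2 * k * V)) * δ ^ (2 * k * V)) := by ring
      _ ≤ (2 + CF) * T * 1 := mul_le_mul_of_nonneg_left q1 (by positivity)
      _ ≤ _ := mul_le_mul_of_nonneg_left q2 (by positivity)
  have s6 : 2 * δ * (∫ t in Set.Icc 0 T, F k V δ (t + x)) ≤ a * T * (2 * δ) ^ (-(k ^ 2)) := by
    have hn : 0 ≤ ∫ t in Set.Icc 0 T, F k V δ (t + x) := integral_nonneg fun t => hF0 _
    nlinarith
  calc _ ≤ _ := s1
    _ = _ := s2
    _ ≤ T * (CJ * (2 * δ) ^ (-(k ^ 2 + b ^ 2)) * G δ v ^ (-(2 * k * b)) + (a + 2 + CF) * (2 * δ) ^ (-(k ^ 2))) := by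
        rw [s3]
        nlinarith

theorem t (h1 : S_JMU) (h2 : S_FOUR) (h3 : S_ONE) : S_BAR1 := by
  intro d hd k V b u η hk hV hb hb1 hkb hu0 hu1 hη
  obtain ⟨CF, hCF, hF⟩ := h2
  obtain ⟨CJ, hCJ, hJ⟩ := h1 d hd 2 (max k b) (2 * (2 * k * V + 4)) (lt_max_of_lt_left hk) (by positivity)
  have hO := h3 d hd k (max V (k + 1)) 1 hk (lt_max_of_lt_right (by linarith)) one_pos
  set a : ℝ := 2 * |(aC (k : ℂ)).re| with ha
  have ha0 : 0 ≤ a := by positivity
  set K : ℝ := 2 * CJ + (a + 2 + CF) with hK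
  have g1 := (Ev.small (C := K * 2 ^ (η / 2)) (c := η / 2) (e := 1) (by positivity) one_pos).app hd
  have g2 := (Ev.of_le (d := 1 / 16) (by norm_num)).app hd
  have g3 := (Ev.lam (2 ^ 17)).app hd
  filter_upwards [hF, hJ, hO, g1, g2, g3, hd.pos, eventually_ge_atTop (16:ℝ)] with T hF hJ hO g1 g2 g3 hδ hT x hx0 hx1
  set δ : ℝ := d T with hδd
  have hT0 : 0 < T := by linarith
  have h2δ : 0 < 2 * δ := by positivity
  set w : ℝ := (2 * δ) ^ u with hw
  have hw0 : 0 < w := Real.rpow_pos_of_pos h2δ _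
  have hw1 : w ≤ 1 := Real.rpow_le_one h2δ.le (by linarith) hu0
  have hX0 : 0 < X k b u η δ := Real.rpow_pos_of_pos h2δ _
  -- powers of T
  have hTq : 2 ≤ T ^ ((1:ℝ) / 4) := by
    have h16 : (16:ℝ) ^ ((1:ℝ) / 4) = 2 := by
      rw [show (16:ℝ) = 2 ^ (4:ℝ) by norm_num, ← Real.rpow_mul (by norm_num)]
      norm_num
    rw [← h16]
    exact Real.rpow_le_rpow (by norm_num) hT (by norm_num)
  have hTs : T ^ ((1:ℝ) / 2) = T ^ ((1:ℝ) / 4) * T ^ ((1:ℝ) / 4) := by
    rw [← Real.rpow_add hT0]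
    norm_num
  have hx2 : x + 1 ≤ T ^ ((1:ℝ) / 2) := by
    rw [hTs]
    nlinarith
  have hlog : 2 ^ 17 / Real.log T ≤ δ := by
    have hl := log_inv_ge hδ g2
    have hlT : 0 < Real.log T := Real.log_pos (by linarith)
    rw [div_le_iff₀ hlT]
    nlinarith
  -- the first moment
  have hM : ∫ t in (0:ℝ)..T, F k V δ (t + x) ≤ a * T * (2 * δ) ^ (-(k ^ 2)) := by
    have o := (abs_le.1 (hO x hx0 (by linarith))).2
    have hmono : ∫ t in (0:ℝ)..T, F k V δ (t + x) ≤ ∫ t in (0:ℝ)..T, F k (max V (k + 1)) δ (t + x) := by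
      have hint : ∀ V' : ℝ, IntervalIntegrable (fun t => F k V' δ (t + x)) volume 0 T := by
        intro V'
        rw [intervalIntegrable_iff]
        refine Measure.integrableOn_of_bounded (M := (2 * δ) ^ (-(2 * k * V'))) (by
          rw [Set.uIoc, Real.volume_Ioc]; exact ENNReal.ofReal_ne_top)
          ((ONE.F_meas g2).comp (measurable_id.add_const x)).aestronglyMeasurable ?_
        refine Eventually.of_forall fun t => ?_
        rw [Real.norm_of_nonneg (ONE.F_nn _ _ _ _)]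
        exact ONE.F_le hδ hk.le _
      refine intervalIntegral.integral_mono_on hT0.le (hint _) (hint _) fun t _ => ?_
      unfold F
      have hle : (2 * δ) ^ (-V) ≤ (2 * δ) ^ (-(max V (k + 1))) :=
        Real.rpow_le_rpow_of_exponent_ge h2δ (by linarith) (neg_le_neg (le_max_left _ _))
      split_ifs with c1 c2 c2
      · exact le_rfl
      · exact absurd (c1.trans hle) c2
      · exact Real.rpow_nonneg (TMA.mz_nn _ _) _
      · exact le_rfl
    set J := ∫ t in (0:ℝ)..T, F k (max V (k + 1)) δ (t + x) with hJdef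
    have hM2 : 1 / T * J ≤ 2 * M k δ := by linarith
    have hMa : 2 * M k δ ≤ a * (2 * δ) ^ (-(k ^ 2)) := by
      unfold M
      rw [ha]
      have hp : 0 < (2 * δ) ^ (-(k ^ 2)) := Real.rpow_pos_of_pos h2δ _
      nlinarith [le_abs_self (aC (k : ℂ)).re]
    have : J ≤ T * (a * (2 * δ) ^ (-(k ^ 2))) := by
      have h := hM2.trans hMa
      rw [one_div, inv_mul_le_iff₀ hT0] at h
      exact h
    calc _ ≤ J := hmono
      _ ≤ T * (a * (2 * δ) ^ (-(k ^ 2))) := this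
      _ = _ := by ring
  -- the inner bound
  have hQ : ∀ v ∈ Set.Ioc (-w) w, ∫ t in (0:ℝ)..T, F k V δ (t + x) * yb b δ (t + x + v) ≤
      T * (CJ * (2 * δ) ^ (-(k ^ 2 + b ^ 2)) * G δ v ^ (-(2 * k * b)) + (a + 2 + CF) * (2 * δ) ^ (-(k ^ 2))) := by
    intro v hv
    have hv1 : |v| ≤ 1 := abs_le.2 ⟨by linarith [hv.1], by linarith [hv.2]⟩
    have hxv : |x + v| ≤ T ^ ((1:ℝ) / 2) := by
      rw [abs_le] at hv1 ⊢
      constructor <;> linarith [hv1.1, hv1.2]
    have hxx : |x| ≤ T ^ ((1:ℝ) / 2) := by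
      rw [abs_of_nonneg hx0]
      linarith
    obtain ⟨S, hS, hST, hSv, -, hSb⟩ := hJ (![x, x + v]) (by
      intro j
      fin_cases j
      · simpa using hxx
      · simpa using hxv) (by
      intro j l
      fin_cases j <;> fin_cases l
      · simp
      · simp only [Fin.zero_eta, Fin.isValue, Matrix.cons_val_zero, Fin.mk_one, Matrix.cons_val_one]
        rw [show x - (x + v) = -v by ring, abs_neg]
        linarith
      · simp only [Fin.zero_eta, Fin.isValue, Matrix.cons_val_zero, Fin.mk_one, Matrix.cons_val_one]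
        rw [show x + v - x = v by ring]
        linarith
      · simp)
    obtain ⟨hI, hJ'⟩ := hSb (![k, b]) (by
      intro j
      fin_cases j
      · simp [abs_of_pos hk]
      · simp [abs_of_pos hb])
    exact Q_le hk hV hb hb1 hδ g2 hT0 hCF hS hST hSv hI hJ' (hF δ (x + v) hlog g2 hxv) hM
  -- Fubini
  set μ : Measure ℝ := volume.restrict (Set.Ioc 0 T) with hμ
  set ν : Measure ℝ := volume.restrict (Set.Ioc (-w) w) with hν
  haveI : IsFiniteMeasure μ := ⟨by rw [hμ, Measure.restrict_apply_univ]; exact measure_Ioc_lt_top⟩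
  haveI : IsFiniteMeasure ν := ⟨by rw [hν, Measure.restrict_apply_univ]; exact measure_Ioc_lt_top⟩
  have hcy := yb_cont hb g2
  obtain ⟨B, hB⟩ := (isCompact_Icc (a := x - 1) (b := T + x + 1)).exists_bound_of_continuousOn hcy.continuousOn
  have hprod : Integrable (Function.uncurry fun t v : ℝ => F k V δ (t + x) * yb b δ (t + x + v)) (μ.prod ν) := by
    refine Integrable.of_bound (C := (2 * δ) ^ (-(2 * k * V)) * B) ?_ ?_
    · refine Measurable.aestronglyMeasurable ?_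
      refine Measurable.mul ?_ ?_
      · exact (ONE.F_meas g2).comp (measurable_fst.add_const x)
      · exact hcy.measurable.comp ((measurable_fst.add_const x).add measurable_snd)
    · rw [hμ, hν, Measure.prod_restrict]
      refine ae_restrict_of_forall_mem (measurableSet_Ioc.prod measurableSet_Ioc) ?_
      rintro ⟨t, v⟩ ⟨ht, hv⟩
      simp only [Function.uncurry]
      rw [norm_mul, Real.norm_of_nonneg (ONE.F_nn _ _ _ _)]
      refine mul_le_mul (ONE.F_le hδ hk.le _) (hB _ ?_) (norm_nonneg _) (Real.rpow_nonneg h2δ.le _)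
      constructor
      · have := ht.1; have := hv.1; simp only at *; linarith
      · have := ht.2; have := hv.2; simp only at *; linarith
  have hleft := hprod.integral_prod_left
  simp only [Function.uncurry] at hleft
  have hswap := integral_integral_swap hprod
  have hA : ∀ t : ℝ, A b u δ (t + x) = 1 / (2 * w) * ∫ v, yb b δ (t + x + v) ∂ν := by
    intro t
    unfold A
    rw [intervalIntegral.integral_of_le (by linarith : -(2 * δ) ^ u ≤ (2 * δ) ^ u)]
  have hA0 : ∀ t : ℝ, 0 ≤ A b u δ (t + x) := by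
    intro t
    rw [hA]
    exact mul_nonneg (by positivity) (integral_nonneg fun v => (yb_pos hδ).le)
  have r1 : ∫ t in (0:ℝ)..T, (if A b u δ (t + x) ≤ X k b u η δ then 0 else F k V δ (t + x)) ≤
      ∫ t, (X k b u η δ)⁻¹ * (1 / (2 * w)) * ∫ v, F k V δ (t + x) * yb b δ (t + x + v) ∂ν ∂μ := by
    rw [intervalIntegral.integral_of_le hT0.le]
    refine integral_mono_of_nonneg (Eventually.of_forall fun t => ?_) (hleft.const_mul _)
      (Eventually.of_forall fun t => ?_)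
    · show 0 ≤ (if A b u δ (t + x) ≤ X k b u η δ then 0 else F k V δ (t + x))
      split_ifs
      · exact le_rfl
      · exact ONE.F_nn _ _ _ _
    · show (if A b u δ (t + x) ≤ X k b u η δ then 0 else F k V δ (t + x)) ≤
        (X k b u η δ)⁻¹ * (1 / (2 * w)) * ∫ v, F k V δ (t + x) * yb b δ (t + x + v) ∂ν
      have e : (X k b u η δ)⁻¹ * (1 / (2 * w)) * (∫ v, F k V δ (t + x) * yb b δ (t + x + v) ∂ν) =
          (X k b u η δ)⁻¹ * A b u δ (t + x) * F k V δ (t + x) := by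
        rw [integral_const_mul, hA]
        ring
      rw [e]
      have hFn := ONE.F_nn k V δ (t + x)
      split_ifs with c
      · have := hA0 t
        positivity
      · have : 1 ≤ (X k b u η δ)⁻¹ * A b u δ (t + x) := by
          rw [← div_eq_inv_mul, one_le_div hX0]
          exact (not_le.1 c).le
        nlinarith
  have r2 : ∫ t, (X k b u η δ)⁻¹ * (1 / (2 * w)) * ∫ v, F k V δ (t + x) * yb b δ (t + x + v) ∂ν ∂μ =
      (X k b u η δ)⁻¹ * (1 / (2 * w)) * ∫ v, ∫ t, F k V δ (t + x) * yb b δ (t + x + v) ∂μ ∂ν := by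
    rw [integral_const_mul, hswap]
  have hGc : Continuous fun v => G δ v ^ (-(2 * k * b)) := G_cont hδ
  have r3 : ∫ v, ∫ t, F k V δ (t + x) * yb b δ (t + x + v) ∂μ ∂ν ≤
      ∫ v in (-w)..w, T * (CJ * (2 * δ) ^ (-(k ^ 2 + b ^ 2)) * G δ v ^ (-(2 * k * b)) +
        (a + 2 + CF) * (2 * δ) ^ (-(k ^ 2))) := by
    rw [intervalIntegral.integral_of_le (by linarith : -w ≤ w), hν]
    refine integral_mono_of_nonneg (Eventually.of_forall fun v => ?_) ?_ ?_
    · exact integral_nonneg fun t => mul_nonneg (ONE.F_nn _ _ _ _) (yb_pos hδ).le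
    · exact ((Continuous.integrableOn_Icc (by fun_prop)).mono_set Set.Ioc_subset_Icc_self)
    · refine ae_restrict_of_forall_mem measurableSet_Ioc fun v hv => ?_
      have := hQ v hv
      rw [intervalIntegral.integral_of_le hT0.le] at this
      exact this
  have r4 : ∫ v in (-w)..w, T * (CJ * (2 * δ) ^ (-(k ^ 2 + b ^ 2)) * G δ v ^ (-(2 * k * b)) +
        (a + 2 + CF) * (2 * δ) ^ (-(k ^ 2))) =
      T * (CJ * (2 * δ) ^ (-(k ^ 2 + b ^ 2)) * (∫ v in (-w)..w, G δ v ^ (-(2 * k * b))) +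
        (a + 2 + CF) * (2 * δ) ^ (-(k ^ 2)) * (2 * w)) := by
    rw [intervalIntegral.integral_const_mul, intervalIntegral.integral_add
      ((hGc.const_mul _).intervalIntegrable _ _) (continuous_const.intervalIntegrable _ _),
      intervalIntegral.integral_const_mul, intervalIntegral.integral_const, smul_eq_mul]
    ring
  have r5 : ∫ v in (-w)..w, G δ v ^ (-(2 * k * b)) ≤ 4 * w * w ^ (-(2 * k * b)) :=
    G_int hδ hw0 (by positivity) (by linarith)
  -- collecting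
  set P : ℝ := (2 * δ) ^ (-(k ^ 2)) with hP
  have hP0 : 0 < P := Real.rpow_pos_of_pos h2δ _
  have e1 : (X k b u η δ)⁻¹ * ((2 * δ) ^ (-(k ^ 2 + b ^ 2)) * w ^ (-(2 * k * b))) = P * (2 * δ) ^ η := by
    unfold X
    rw [hw, hP, ← Real.rpow_mul h2δ.le, ← Real.rpow_neg h2δ.le, ← Real.rpow_add h2δ, ← Real.rpow_add h2δ,
      ← Real.rpow_add h2δ]
    congr 1
    ring
  have e2 : (X k b u η δ)⁻¹ ≤ (2 * δ) ^ η := by
    unfold X
    rw [← Real.rpow_neg h2δ.le]
    refine Real.rpow_le_rpow_of_exponent_ge h2δ (by linarith) ?_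
    have : 0 ≤ 2 * k * b * u := by positivity
    nlinarith [sq_nonneg b]
  have hXi : 0 < (X k b u η δ)⁻¹ := inv_pos.2 hX0
  have hη0 : 0 < (2 * δ) ^ η := Real.rpow_pos_of_pos h2δ _
  have e3 : (1 / T) * (∫ t in (0:ℝ)..T, (if A b u δ (t + x) ≤ X k b u η δ then 0 else F k V δ (t + x))) ≤
      K * (P * (2 * δ) ^ η) := by
    have hr := (r1.trans_eq r2).trans (mul_le_mul_of_nonneg_left (r3.trans_eq r4) (by positivity))
    have hc : (X k b u η δ)⁻¹ * (1 / (2 * w)) *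
        (T * (CJ * (2 * δ) ^ (-(k ^ 2 + b ^ 2)) * (∫ v in (-w)..w, G δ v ^ (-(2 * k * b))) +
        (a + 2 + CF) * P * (2 * w))) ≤ T * (K * (P * (2 * δ) ^ η)) := by
      have hq0 : 0 < (2 * δ) ^ (-(k ^ 2 + b ^ 2)) := Real.rpow_pos_of_pos h2δ _
      calc _ ≤ (X k b u η δ)⁻¹ * (1 / (2 * w)) *
        (T * (CJ * (2 * δ) ^ (-(k ^ 2 + b ^ 2)) * (4 * w * w ^ (-(2 * k * b))) +
        (a + 2 + CF) * P * (2 * w))) := by
            gcongr
        _ = T * (2 * CJ * ((X k b u η δ)⁻¹ * ((2 * δ) ^ (-(k ^ 2 + b ^ 2)) * w ^ (-(2 * k * b)))) +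
            (a + 2 + CF) * P * (X k b u η δ)⁻¹) := by
            field_simp
            ring
        _ ≤ T * (2 * CJ * (P * (2 * δ) ^ η) + (a + 2 + CF) * P * (2 * δ) ^ η) := by
            rw [e1]
            gcongr
        _ = _ := by
            rw [hK]
            ring
    have := hr.trans hc
    rw [one_div, inv_mul_le_iff₀ hT0]
    exact this
  refine e3.trans ?_
  have e4 : (2 * δ) ^ η = (2 * δ) ^ (η / 2) * (2 * δ) ^ (η / 2) := by
    rw [← Real.rpow_add h2δ]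
    congr 1
    ring
  have e5 : K * (2 * δ) ^ (η / 2) ≤ 1 := by
    rw [Real.mul_rpow (by norm_num) hδ.le]
    linarith
  have e6 : (2 * δ) ^ (-(k ^ 2) + η / 2) = P * (2 * δ) ^ (η / 2) := Real.rpow_add h2δ _ _
  rw [e6, e4]
  have hp : 0 < P * (2 * δ) ^ (η / 2) := mul_pos hP0 (Real.rpow_pos_of_pos h2δ _)
  calc K * (P * ((2 * δ) ^ (η / 2) * (2 * δ) ^ (η / 2))) = (K * (2 * δ) ^ (η / 2)) * (P * (2 * δ) ^ (η / 2)) := by ring
    _ ≤ 1 * (P * (2 * δ) ^ (η / 2)) := mul_le_mul_of_nonneg_right e5 hp.le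
    _ = _ := one_mul _

end Pool.Agent.H6F.BAR1
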