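import Pool.Agent.H6F.Stm2
import Pool.Agent.N748.MG.TMA

set_option autoImplicit false

/-!
# Project H6F, stub BAR2 (helper73): the pair correlation below the barrier
-/

namespace Pool.Agent.H6F.BAR2

open Filter MeasureTheory Topology Complex
open Pool.Agent.N748.MG Pool.Agent.N748.MJ Pool.Agent.H6F

lemma F_nn (k V d u : ℝ) : 0 ≤ F k V d u := by
  unfold F
  split_ifs
  · exact Real.rpow_nonneg (norm_nonneg _) _
  · exact le_rfl

lemma F_le {k V d : ℝ} (hk : 0 ≤ k) (hd : 0 < d) (u : ℝ) : F k V d u ≤ ((2 * d) ^ (-V)) ^ (2 * k) := by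
  unfold F
  split_ifs with h
  · exact Real.rpow_le_rpow (norm_nonneg _) h (by linarith)
  · exact Real.rpow_nonneg (Real.rpow_nonneg (by linarith) _) _

lemma F_meas {k V d : ℝ} (hd : d ≤ 1 / 16) : Measurable (F k V d) := by
  have h1 : Measurable fun u : ℝ => mz d u := (TMA.cont hd).measurable
  unfold F
  exact Measurable.ite (measurableSet_le h1 measurable_const) (h1.pow_const _) measurable_const

lemma yb_meas {b d : ℝ} (hd : d ≤ 1 / 16) : Measurable (yb b d) := by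
  have h1 : Measurable fun u : ℝ => mz d u := (TMA.cont hd).measurable
  unfold yb
  exact measurable_const.max (h1.pow_const _)

lemma yb_ge (b d t : ℝ) : 2 * d ≤ yb b d t := le_max_left _ _

theorem core {k V b u d x y T X0 Q : ℝ} {m : ℕ} (hk : 0 < k) (hd0 : 0 < d) (hd1 : d ≤ 1 / 16) (hT : 0 < T)
    (hX : 0 < X0) (P : (Fin m → ℝ) → ℝ)
    (hP : IntegrableOn P (Set.univ.pi fun _ => Set.Icc (-(2 * d) ^ u) ((2 * d) ^ u)))
    (hA : ∀ t, A b u d t ≤ X0 → 1 ≤ X0 ^ m * ((1 / (2 * (2 * d) ^ u)) ^ m *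
      ∫ v in Set.univ.pi (fun _ : Fin m => Set.Icc (-(2 * d) ^ u) ((2 * d) ^ u)), ∏ i, (yb b d (t + v i))⁻¹))
    (hB : ∀ v ∈ Set.univ.pi (fun _ : Fin m => Set.Icc (-(2 * d) ^ u) ((2 * d) ^ u)),
      (1 / T) * (∫ t in (0:ℝ)..T, F k V d (t + x) * F k V d (t + y) * ∏ i, (yb b d (t + x + v i))⁻¹) ≤ Q * P v) :
    (1 / T) * (∫ t in (0:ℝ)..T, (if A b u d (t + x) ≤ X0 then F k V d (t + x) * F k V d (t + y) else 0)) ≤
      X0 ^ m * ((1 / (2 * (2 * d) ^ u)) ^ m *
        (Q * ∫ v in Set.univ.pi (fun _ : Fin m => Set.Icc (-(2 * d) ^ u) ((2 * d) ^ u)), P v)) := by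
  classical
  set w : ℝ := (2 * d) ^ u with hw
  have hw0 : 0 < w := Real.rpow_pos_of_pos (by linarith) _
  set box : Set (Fin m → ℝ) := Set.univ.pi (fun _ : Fin m => Set.Icc (-w) w) with hbox
  have hboxm : MeasurableSet box := MeasurableSet.univ_pi fun _ => measurableSet_Icc
  have hboxf : volume box < ⊤ := by
    rw [hbox, volume_pi_pi]
    exact ENNReal.prod_lt_top fun i _ => by simp
  haveI : IsFiniteMeasure ((volume : Measure (Fin m → ℝ)).restrict box) := ⟨by simpa using hboxf⟩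
  set K : ℝ := X0 ^ m * (1 / (2 * w)) ^ m with hK
  have hK0 : 0 ≤ K := by positivity
  set Φ : ℝ → (Fin m → ℝ) → ℝ := fun t v =>
    F k V d (t + x) * F k V d (t + y) * ∏ i, (yb b d (t + x + v i))⁻¹ with hΦ
  set B : ℝ := ((2 * d) ^ (-V)) ^ (2 * k) with hBdef
  have hyb0 : ∀ s, 0 < yb b d s := fun s => lt_of_lt_of_le (by linarith) (yb_ge b d s)
  have hΦ0 : ∀ t v, 0 ≤ Φ t v := fun t v =>
    mul_nonneg (mul_nonneg (F_nn _ _ _ _) (F_nn _ _ _ _)) (Finset.prod_nonneg fun i _ => inv_nonneg.2 (hyb0 _).le)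
  have hB0 : 0 ≤ B := Real.rpow_nonneg (Real.rpow_nonneg (by linarith) _) _
  have hΦB : ∀ t v, Φ t v ≤ B * B * ((2 * d)⁻¹) ^ m := by
    intro t v
    refine mul_le_mul (mul_le_mul (F_le hk.le hd0 _) (F_le hk.le hd0 _) (F_nn _ _ _ _) hB0) ?_
      (Finset.prod_nonneg fun i _ => inv_nonneg.2 (hyb0 _).le) (mul_nonneg hB0 hB0)
    calc ∏ i, (yb b d (t + x + v i))⁻¹ ≤ ∏ _i : Fin m, (2 * d)⁻¹ :=
          Finset.prod_le_prod (fun i _ => inv_nonneg.2 (hyb0 _).le)
            (fun i _ => inv_anti₀ (by linarith) (yb_ge b d _))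
      _ = ((2 * d)⁻¹) ^ m := by simp
  have hΦm : Measurable (Function.uncurry Φ) := by
    have hF := F_meas (k := k) (V := V) hd1
    have hy := yb_meas (b := b) hd1
    refine ((hF.comp (measurable_fst.add_const x)).mul (hF.comp (measurable_fst.add_const y))).mul ?_
    refine Finset.measurable_fun_prod _ fun i _ => ?_
    exact (hy.comp ((measurable_fst.add_const x).add ((measurable_pi_apply i).comp measurable_snd))).inv
  have hint : Integrable (Function.uncurry Φ)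
      ((volume.restrict (Set.Ioc 0 T)).prod ((volume : Measure (Fin m → ℝ)).restrict box)) := by
    refine Integrable.of_bound hΦm.aestronglyMeasurable (B * B * ((2 * d)⁻¹) ^ m) (Eventually.of_forall fun p => ?_)
    show ‖Φ p.1 p.2‖ ≤ _
    rw [Real.norm_of_nonneg (hΦ0 p.1 p.2)]
    exact hΦB p.1 p.2
  have i1 : Integrable (fun t => ∫ v in box, Φ t v) (volume.restrict (Set.Ioc 0 T)) := hint.integral_prod_left
  have i2 : Integrable (fun v => ∫ t in Set.Ioc 0 T, Φ t v) ((volume : Measure (Fin m → ℝ)).restrict box) :=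
    hint.integral_prod_right
  have s1 : (∫ t in (0:ℝ)..T, (if A b u d (t + x) ≤ X0 then F k V d (t + x) * F k V d (t + y) else 0)) ≤
      K * ∫ v in box, ∫ t in Set.Ioc 0 T, Φ t v := by
    rw [intervalIntegral.integral_of_le hT.le]
    have : ∫ v in box, ∫ t in Set.Ioc 0 T, Φ t v = ∫ t in Set.Ioc 0 T, ∫ v in box, Φ t v :=
      (integral_integral_swap hint).symm
    rw [this, ← integral_const_mul]
    refine integral_mono_of_nonneg (Eventually.of_forall fun t => ?_) (i1.const_mul K) (Eventually.of_forall fun t => ?_)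
    · show (0:ℝ) ≤ if _ then _ else _
      split_ifs
      · exact mul_nonneg (F_nn _ _ _ _) (F_nn _ _ _ _)
      · exact le_rfl
    · show (if _ then _ else _) ≤ K * ∫ v in box, Φ t v
      split_ifs with hc
      · have h5 := hA (t + x) hc
        have h6 : ∫ v in box, Φ t v = F k V d (t + x) * F k V d (t + y) *
            ∫ v in box, ∏ i, (yb b d (t + x + v i))⁻¹ := by
          rw [← integral_const_mul]
        rw [h6]
        have h7 : 0 ≤ F k V d (t + x) * F k V d (t + y) := mul_nonneg (F_nn _ _ _ _) (F_nn _ _ _ _)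
        calc F k V d (t + x) * F k V d (t + y) = F k V d (t + x) * F k V d (t + y) * 1 := (mul_one _).symm
          _ ≤ F k V d (t + x) * F k V d (t + y) * (X0 ^ m * ((1 / (2 * w)) ^ m *
              ∫ v in box, ∏ i, (yb b d (t + x + v i))⁻¹)) := mul_le_mul_of_nonneg_left h5 h7
          _ = _ := by rw [hK]; ring
      · exact mul_nonneg hK0 (integral_nonneg fun v => hΦ0 t v)
  have s2 : ∫ v in box, ∫ t in Set.Ioc 0 T, Φ t v ≤ ∫ v in box, T * (Q * P v) := by
    refine setIntegral_mono_on i2 ((hP.const_mul Q).const_mul T) hboxm fun v hv => ?_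
    have h5 := hB v hv
    rw [intervalIntegral.integral_of_le hT.le, one_div, inv_mul_le_iff₀ hT] at h5
    exact h5
  calc (1 / T) * (∫ t in (0:ℝ)..T, (if A b u d (t + x) ≤ X0 then F k V d (t + x) * F k V d (t + y) else 0))
      ≤ (1 / T) * (K * ∫ v in box, T * (Q * P v)) :=
        mul_le_mul_of_nonneg_left (s1.trans (mul_le_mul_of_nonneg_left s2 hK0)) (by positivity)
    _ = X0 ^ m * ((1 / (2 * w)) ^ m * (Q * ∫ v in box, P v)) := by
        rw [integral_const_mul, integral_const_mul, hK]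
        field_simp

theorem t (h1 : S_BAR2A) (h2 : S_BAR2B) (h3 : S_STAR) : S_BAR2 := by
  intro d hd k V u η m hk hV hu0 hu1 hη hm hkm
  have hm0 : (0:ℝ) < m := by exact_mod_cast (by omega : 0 < m)
  have hm1 : (1:ℝ) ≤ m := by exact_mod_cast hm
  have hb0 : 0 < k / m := div_pos hk hm0
  have hγ : (k / m) ^ 2 * m < 1 := by
    have : (k / m) ^ 2 * m = k ^ 2 / m := by field_simp
    rw [this, div_lt_one hm0]
    exact hkm
  obtain ⟨C1, hC1, e1⟩ := h2 d hd k V u m hk hV hu0 hu1 hm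
  obtain ⟨C2, hC2, e2⟩ := h3 m ((k / m) ^ 2) hm (sq_nonneg _) hγ
  refine ⟨C1 * C2, mul_pos hC1 hC2, ?_⟩
  have hs : ∀ᶠ T : ℝ in atTop, d T < 1 / 16 := hd.t0.eventually_lt_const (by norm_num)
  filter_upwards [e1, hd.pos, hs, eventually_gt_atTop (1:ℝ)] with T e1 hd0 hd1 hT x y hx0 hx1 hy0 hy1 hxy
  set δ : ℝ := d T with hδ
  have h2d : 0 < 2 * δ := by linarith
  have h2d1 : 2 * δ ≤ 1 := by linarith
  have hw0 : 0 < (2 * δ) ^ u := Real.rpow_pos_of_pos h2d _
  have hw1 : (2 * δ) ^ u ≤ 1 := Real.rpow_le_one h2d.le h2d1 hu0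
  have hX0 : 0 < X k (k / m) u η δ := Real.rpow_pos_of_pos h2d _
  obtain ⟨j1, j2⟩ := e2 δ ((2 * δ) ^ u) hd0 hw0 hw1
  have hG0 : 0 < G δ (y - x) := by unfold G; positivity
  set Q : ℝ := C1 * (2 * δ) ^ (-(2 * k ^ 2 + k ^ 2 / m - 4 * k ^ 2 * u)) * G δ (y - x) ^ (-(2 * k ^ 2)) with hQ
  have hQ0 : 0 ≤ Q := by positivity
  have hc := core (k := k) (V := V) (b := k / m) (u := u) (d := δ) (x := x) (y := y) (T := T)
    (X0 := X k (k / m) u η δ) (Q := Q) (m := m) hk hd0 hd1.le (by linarith) hX0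
    (fun v => ∏ i, ∏ j, (if i = j then 1 else G δ (v i - v j) ^ (-((k / m) ^ 2)))) j1
    (fun t ht => h1 (k / m) u δ t _ m hb0 hu0 hd0 hd1.le hX0 ht)
    (fun v hv => e1 x y v hx0 hx1 hy0 hy1 hxy fun i => abs_le.2 (hv i (Set.mem_univ i)))
  refine hc.trans ?_
  set J : ℝ := ∫ v in Set.univ.pi (fun _ : Fin m => Set.Icc (-(2 * δ) ^ u) ((2 * δ) ^ u)),
    ∏ i, ∏ j, (if i = j then 1 else G δ (v i - v j) ^ (-((k / m) ^ 2))) with hJ
  have p1 : X k (k / m) u η δ ^ m = (2 * δ) ^ (-(k ^ 2 / m + 2 * k ^ 2 * u + m * η)) := by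
    unfold X
    rw [← Real.rpow_natCast, ← Real.rpow_mul h2d.le]
    congr 1
    field_simp
  have p2 : ((2 * δ) ^ u) ^ (-((k / m) ^ 2 * m * (m - 1))) ≤ (2 * δ) ^ (-(k ^ 2 * u)) := by
    rw [← Real.rpow_mul h2d.le]
    refine Real.rpow_le_rpow_of_exponent_ge h2d h2d1 ?_
    have h7 : (k / m) ^ 2 * m * (m - 1) ≤ k ^ 2 := by
      have : (k / m) ^ 2 * m * (m - 1) = k ^ 2 * ((m - 1) / m) := by field_simp
      rw [this]
      have h8 : ((m:ℝ) - 1) / m ≤ 1 := by rw [div_le_one hm0]; linarith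
      nlinarith [sq_nonneg k]
    nlinarith
  calc X k (k / m) u η δ ^ m * ((1 / (2 * (2 * δ) ^ u)) ^ m * (Q * J))
      = X k (k / m) u η δ ^ m * Q * ((1 / (2 * (2 * δ) ^ u)) ^ m * J) := by ring
    _ ≤ X k (k / m) u η δ ^ m * Q * (C2 * (2 * δ) ^ (-(k ^ 2 * u))) :=
        mul_le_mul_of_nonneg_left (j2.trans (mul_le_mul_of_nonneg_left p2 hC2.le)) (by positivity)
    _ = C1 * C2 * ((2 * δ) ^ (-(k ^ 2 / m + 2 * k ^ 2 * u + m * η)) *
          (2 * δ) ^ (-(2 * k ^ 2 + k ^ 2 / m - 4 * k ^ 2 * u)) * (2 * δ) ^ (-(k ^ 2 * u))) *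
          G δ (y - x) ^ (-(2 * k ^ 2)) := by rw [p1, hQ]; ring
    _ = C1 * C2 * (2 * δ) ^ (-(2 * k ^ 2 - k ^ 2 * u + 2 * k ^ 2 / m + m * η)) * G δ (y - x) ^ (-(2 * k ^ 2)) := by
        rw [← Real.rpow_add h2d, ← Real.rpow_add h2d]
        congr 3
        ring

end Pool.Agent.H6F.BAR2
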