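import Pool.Agent.H6F.Stm2

set_option autoImplicit false

/-!
# H6F, part BAR2A (helper67): negative moments of the window average
-/

namespace Pool.Agent.H6F.BAR2A

open Filter MeasureTheory Topology Complex
open Pool.Agent.N748.MG Pool.Agent.N748.MJ

lemma pw_ne_one {δ : ℝ} (h0 : δ ≤ 1 / 16) (t : ℝ) : pw δ t ≠ 1 := by
  intro h
  have h1 := congrArg Complex.re h
  unfold pw at h1
  simp at h1
  linarith

lemma cont {δ : ℝ} (h0 : δ ≤ 1 / 16) : Continuous fun t : ℝ => mz δ t := by
  have : Continuous fun t : ℝ => riemannZeta (pw δ t) := by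
    rw [continuous_iff_continuousAt]
    intro t
    have h1 : ContinuousAt riemannZeta (pw δ t) :=
      (differentiableAt_riemannZeta (pw_ne_one h0 t)).continuousAt
    have h2 : Continuous (pw δ) := by
      unfold pw
      fun_prop
    exact ContinuousAt.comp (f := fun t : ℝ => pw δ t) h1 h2.continuousAt
  exact this.norm

/-- the mean of the inverse is at least the inverse of the mean -/
lemma mean_inv {w : ℝ} (hw : 0 < w) {g : ℝ → ℝ} (hg : Continuous g) (hp : ∀ x, 0 < g x) :
    1 ≤ ((1 / (2 * w)) * ∫ v in (-w)..w, g v) * ((1 / (2 * w)) * ∫ v in (-w)..w, (g v)⁻¹) := by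
  have hgi : Continuous fun x => (g x)⁻¹ := hg.inv₀ fun x => (hp x).ne'
  set a : ℝ := ∫ v in (-w)..w, g v with ha
  set r : ℝ := ∫ v in (-w)..w, (g v)⁻¹ with hr
  have hlt : -w < w := by linarith
  have ha0 : 0 < a := by
    rw [ha]
    exact intervalIntegral.intervalIntegral_pos_of_pos_on (hg.intervalIntegrable _ _)
      (fun x _ => hp x) hlt
  -- `s g + g⁻¹ / s ≥ 2`
  have key : ∀ s : ℝ, 0 < s → 2 * (2 * w) ≤ s * a + s⁻¹ * r := by
    intro s hs
    have h1 : ∫ v in (-w)..w, (2 : ℝ) ≤ ∫ v in (-w)..w, (s * g v + s⁻¹ * (g v)⁻¹) := by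
      refine intervalIntegral.integral_mono_on hlt.le (continuous_const.intervalIntegrable _ _)
        (((continuous_const.mul hg).add (continuous_const.mul hgi)).intervalIntegrable _ _) ?_
      intro x _
      have h2 : 0 < s * g x := mul_pos hs (hp x)
      have h3 : s⁻¹ * (g x)⁻¹ = (s * g x)⁻¹ := by rw [mul_inv]
      rw [h3]
      have h4 : 0 ≤ (s * g x - 1) ^ 2 * (s * g x)⁻¹ := by positivity
      have h5 : (s * g x - 1) ^ 2 * (s * g x)⁻¹ = s * g x + (s * g x)⁻¹ - 2 := by
        obtain ⟨y, hy⟩ : ∃ y, y = s * g x := ⟨_, rfl⟩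
        rw [← hy] at h2 ⊢
        have hy0 : y ≠ 0 := h2.ne'
        field_simp
        ring
      linarith
    have i1 : IntervalIntegrable (fun v => s * g v) volume (-w) w :=
      (continuous_const.mul hg).intervalIntegrable _ _
    have i2 : IntervalIntegrable (fun v => s⁻¹ * (g v)⁻¹) volume (-w) w :=
      (continuous_const.mul hgi).intervalIntegrable _ _
    rw [intervalIntegral.integral_const, intervalIntegral.integral_add i1 i2,
      intervalIntegral.integral_const_mul, intervalIntegral.integral_const_mul, smul_eq_mul] at h1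
    have h6 : (w - -w) * 2 = 2 * (2 * w) := by ring
    rw [h6] at h1
    exact h1
  have h7 := key (2 * w / a) (by positivity)
  have h8 : (2 * w / a) * a = 2 * w := by field_simp
  have h9 : (2 * w / a)⁻¹ * r = a * r / (2 * w) := by
    rw [inv_div]
    ring
  rw [h8, h9] at h7
  have h10 : 2 * w ≤ a * r / (2 * w) := by linarith
  have h11 : (1 / (2 * w)) * a * ((1 / (2 * w)) * r) = (a * r / (2 * w)) / (2 * w) := by
    field_simp
  rw [h11, le_div_iff₀ (by positivity), one_mul]
  exact h10

/-- the power of an integral -/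
lemma pow_box (m : ℕ) {w : ℝ} (hw : 0 < w) (g : ℝ → ℝ) :
    (∫ x in (-w)..w, g x) ^ m =
      ∫ v in Set.univ.pi (fun _ : Fin m => Set.Icc (-w) w), ∏ i, g (v i) := by
  rw [volume_pi, Measure.restrict_pi_pi, integral_fintype_prod_eq_pow (fun x => g x),
    Fintype.card_fin, intervalIntegral.integral_of_le (by linarith), integral_Icc_eq_integral_Ioc]

/-- **BAR2A.** -/
theorem t : Pool.Agent.H6F.S_BAR2A := by
  intro b u d t X₀ m hb hu hd hd' hX hA
  have hw : 0 < (2 * d) ^ u := Real.rpow_pos_of_pos (by linarith) _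
  set w : ℝ := (2 * d) ^ u with hwd
  have hc : Continuous fun v : ℝ => yb b d (t + v) := by
    unfold yb
    refine continuous_const.max ?_
    have h1 : Continuous fun v : ℝ => mz d (t + v) :=
      (cont hd').comp (continuous_const.add continuous_id)
    exact h1.rpow_const fun x => Or.inr (by linarith)
  have hp : ∀ v : ℝ, 0 < yb b d (t + v) := fun v =>
    lt_of_lt_of_le (by linarith) (le_max_left _ _)
  have h1 := mean_inv hw hc hp
  have hr0 : 0 ≤ (1 / (2 * w)) * ∫ v in (-w)..w, (yb b d (t + v))⁻¹ := by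
    refine mul_nonneg (by positivity) ?_
    exact intervalIntegral.integral_nonneg (by linarith) fun v _ => (inv_pos.2 (hp v)).le
  have h2 : 1 ≤ X₀ * ((1 / (2 * w)) * ∫ v in (-w)..w, (yb b d (t + v))⁻¹) := by
    refine h1.trans ?_
    exact mul_le_mul_of_nonneg_right hA hr0
  have h3 := one_le_pow₀ (n := m) h2
  rw [mul_pow, mul_pow, pow_box m hw] at h3
  exact h3

end Pool.Agent.H6F.BAR2A
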