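import Pool.Agent.H6F.Stm2
import Pool.Agent.N748.MG.TMA

set_option autoImplicit false

namespace Pool.Agent.H6F.BAR2B

open Filter MeasureTheory Topology Complex
open Pool.Agent.N748.MG Pool.Agent.N748.MJ

lemma mz_nn (d u : ℝ) : 0 ≤ mz d u := norm_nonneg _

lemma F_nn (k V d u : ℝ) : 0 ≤ F k V d u := by
  unfold F
  split_ifs
  · exact Real.rpow_nonneg (mz_nn d u) _
  · exact le_rfl

lemma F_le_pow (k V d u : ℝ) : F k V d u ≤ mz d u ^ (2 * k) := by
  unfold F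
  split_ifs
  · exact le_rfl
  · exact Real.rpow_nonneg (mz_nn d u) _

lemma F_meas {k V d : ℝ} (hd : d ≤ 1 / 16) : Measurable (F k V d) := by
  have hc : Continuous (mz d) := TMA.cont hd
  unfold F
  refine Measurable.ite (measurableSet_le hc.measurable measurable_const) ?_ measurable_const
  exact hc.measurable.pow_const _

lemma F_le {k V d : ℝ} (hd : 0 < d) (hk : 0 ≤ k) (u : ℝ) : F k V d u ≤ (2 * d) ^ (-(2 * k * V)) := by
  have h2 : 0 < 2 * d := by positivity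
  unfold F
  split_ifs with h
  · calc mz d u ^ (2 * k) ≤ ((2 * d) ^ (-V)) ^ (2 * k) :=
          Real.rpow_le_rpow (norm_nonneg _) h (by positivity)
      _ = (2 * d) ^ (-(2 * k * V)) := by
          rw [← Real.rpow_mul h2.le]
          congr 1
          ring
  · exact (Real.rpow_pos_of_pos h2 _).le

lemma yb_meas {b d : ℝ} (hd : d ≤ 1 / 16) : Measurable (yb b d) := by
  have hc : Continuous (mz d) := TMA.cont hd
  unfold yb
  exact measurable_const.max (hc.measurable.pow_const _)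

lemma yb_ge (b d t : ℝ) : 2 * d ≤ yb b d t := le_max_left _ _

lemma yb_inv_le {b d t : ℝ} (hd : 0 < d) : (yb b d t)⁻¹ ≤ (2 * d)⁻¹ :=
  inv_anti₀ (by positivity) (yb_ge b d t)

lemma yb_inv_nn {b d t : ℝ} (hd : 0 < d) : 0 ≤ (yb b d t)⁻¹ :=
  inv_nonneg.2 ((by positivity : (0:ℝ) ≤ 2 * d).trans (yb_ge b d t))

lemma yb_inv_le_pow {b d t : ℝ} (hz : 0 < mz d t) : (yb b d t)⁻¹ ≤ mz d t ^ (2 * (-b)) := by
  have h1 : mz d t ^ (2 * (-b)) = (mz d t ^ (2 * b))⁻¹ := by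
    rw [← Real.rpow_neg hz.le]
    congr 1
    ring
  rw [h1]
  exact inv_anti₀ (Real.rpow_pos_of_pos hz _) (le_max_right _ _)

lemma G_pos {d h : ℝ} (hd : 0 < d) : 0 < G d h := by
  unfold G
  positivity

lemma G_neg (d h : ℝ) : G d (-h) = G d h := by
  unfold G
  rw [abs_neg]

lemma G_zero (d : ℝ) : G d 0 = 2 * d := by
  unfold G
  rw [abs_zero, add_zero]

/-- the product over the `m + 2` points -/
lemma prods {d k β x y : ℝ} (hd : 0 < d) (m : ℕ) (v : Fin m → ℝ) :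
    ∏ j, ∏ l, G d ((Fin.cons x (Fin.cons y (fun i => x + v i)) : Fin (m + 2) → ℝ) j -
        (Fin.cons x (Fin.cons y (fun i => x + v i)) : Fin (m + 2) → ℝ) l) ^
        (-((Fin.cons k (Fin.cons k (fun _ => -β)) : Fin (m + 2) → ℝ) j *
          (Fin.cons k (Fin.cons k (fun _ => -β)) : Fin (m + 2) → ℝ) l)) =
      (2 * d) ^ (-(2 * k ^ 2)) * G d (y - x) ^ (-(2 * k ^ 2)) *
      (∏ i, (G d (v i) ^ (2 * (k * β)) * G d (x + v i - y) ^ (2 * (k * β)))) *
      (∏ _i : Fin m, (2 * d) ^ (-(β ^ 2))) * ∏ i, ∏ j, (if i = j then 1 else G d (v i - v j) ^ (-(β ^ 2))) := by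
  have hg : ∀ h, 0 < G d h := fun h => G_pos hd
  simp only [Fin.prod_univ_succ, Fin.cons_zero, Fin.cons_succ, sub_self, G_zero]
  have e1 : G d (x - y) = G d (y - x) := by rw [← G_neg]; congr 1; ring
  have e2 : ∀ i, G d (x - (x + v i)) = G d (v i) := fun i => by rw [← G_neg]; congr 1; ring
  have e3 : ∀ i, G d (y - (x + v i)) = G d (x + v i - y) := fun i => by rw [← G_neg]; congr 1; ring
  have e4 : ∀ i, G d (x + v i - x) = G d (v i) := fun i => by congr 1; ring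
  have e5 : ∀ i j, G d (x + v i - (x + v j)) = G d (v i - v j) := fun i j => by congr 1; ring
  simp only [e1, e2, e3, e4, e5]
  have e6 : ∀ i : Fin m, ∏ j, G d (v i - v j) ^ (-(-β * -β)) =
      (2 * d) ^ (-(β ^ 2)) * ∏ j, (if i = j then 1 else G d (v i - v j) ^ (-(β ^ 2))) := by
    intro i
    have : ∀ j, G d (v i - v j) ^ (-(-β * -β)) = (if i = j then (2 * d) ^ (-(β ^ 2)) else 1) *
        (if i = j then 1 else G d (v i - v j) ^ (-(β ^ 2))) := by
      intro j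
      have hb : -(-β * -β) = -(β ^ 2) := by ring
      rw [hb]
      split_ifs with h
      · rw [h, sub_self, G_zero, mul_one]
      · rw [one_mul]
    rw [Finset.prod_congr rfl fun j _ => this j, Finset.prod_mul_distrib, Finset.prod_ite_eq]
    simp
  simp only [e6, Finset.prod_mul_distrib]
  have q1 : (2 * d) ^ (-(2 * k ^ 2)) = (2 * d) ^ (-(k * k)) * (2 * d) ^ (-(k * k)) := by
    rw [← Real.rpow_add (by positivity)]
    congr 1
    ring
  have q2 : G d (y - x) ^ (-(2 * k ^ 2)) = G d (y - x) ^ (-(k * k)) * G d (y - x) ^ (-(k * k)) := by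
    rw [← Real.rpow_add (hg _)]
    congr 1
    ring
  have q3 : ∀ h, G d h ^ (2 * (k * β)) = G d h ^ (-(k * -β)) * G d h ^ (-(-β * k)) := by
    intro h
    rw [← Real.rpow_add (hg _)]
    congr 1
    ring
  simp only [q1, q2, q3, Finset.prod_mul_distrib]
  ring

theorem t (h : S_JMU) : S_BAR2B := by
  intro d hA k V u m hk hV hu0 hu1 hm
  have hm0 : (0:ℝ) < m := by exact_mod_cast hm
  have hm1 : (1:ℝ) ≤ m := by exact_mod_cast hm
  obtain ⟨β, hβ⟩ : ∃ β : ℝ, β = k / m := ⟨_, rfl⟩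
  have hβ0 : 0 < β := by rw [hβ]; positivity
  have hβk : β ≤ k := by rw [hβ]; exact div_le_self hk.le hm1
  have hβm : β * m = k := by rw [hβ]; field_simp
  obtain ⟨D, hD⟩ : ∃ D : ℝ, D = 4 * k * V + m + 4 * k ^ 2 := ⟨_, rfl⟩
  have hD0 : 0 < D := by rw [hD]; positivity
  obtain ⟨C, hC, hev⟩ := h d hA (m + 2) k D hk hD0
  refine ⟨C * 3 ^ (4 * k ^ 2) + 4 ^ (2 * k ^ 2), by positivity, ?_⟩
  filter_upwards [hev, hA.pos, hA.t0.eventually (gt_mem_nhds (show (0:ℝ) < 1 / 16 by norm_num)),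
    eventually_ge_atTop 16] with T hT hd0 hd16 hT16 x y v hx0 hx1 hy0 hy1 hxy hv
  have hT0 : 0 < T := by linarith
  obtain ⟨δ, hδ⟩ : ∃ δ : ℝ, δ = d T := ⟨_, rfl⟩
  rw [← hδ] at hd0 hd16 hxy hv hT ⊢
  have h20 : 0 < 2 * δ := by linarith
  have h21 : 2 * δ ≤ 1 := by linarith
  obtain ⟨w, hw⟩ : ∃ w : ℝ, w = (2 * δ) ^ u := ⟨_, rfl⟩
  rw [← hw] at hxy hv
  have hw0 : 0 < w := by rw [hw]; exact Real.rpow_pos_of_pos h20 _
  have hw1 : w ≤ 1 := by rw [hw]; exact Real.rpow_le_one h20.le h21 hu0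
  have h2w : 2 * δ ≤ w := by
    rw [hw]
    calc 2 * δ = (2 * δ) ^ (1:ℝ) := (Real.rpow_one _).symm
      _ ≤ (2 * δ) ^ u := Real.rpow_le_rpow_of_exponent_ge h20 h21 hu1
  -- the shifts
  have hT4 : 2 ≤ T ^ ((1:ℝ) / 4) := by
    calc (2:ℝ) = 16 ^ ((1:ℝ) / 4) := by
          rw [show (16:ℝ) = 2 ^ (4:ℝ) by norm_num, ← Real.rpow_mul (by norm_num)]
          norm_num
      _ ≤ T ^ ((1:ℝ) / 4) := Real.rpow_le_rpow (by norm_num) hT16 (by norm_num)
  have hT2 : T ^ ((1:ℝ) / 2) = T ^ ((1:ℝ) / 4) * T ^ ((1:ℝ) / 4) := by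
    rw [← Real.rpow_add hT0]
    norm_num
  have hT3 : T ^ ((1:ℝ) / 4) + 1 ≤ T ^ ((1:ℝ) / 2) := by
    rw [hT2]
    nlinarith
  obtain ⟨hh, hhd⟩ : ∃ hh : Fin (m + 2) → ℝ, hh = Fin.cons x (Fin.cons y (fun i => x + v i)) := ⟨_, rfl⟩
  obtain ⟨bb, hbd⟩ : ∃ bb : Fin (m + 2) → ℝ, bb = Fin.cons k (Fin.cons k (fun _ => -β)) := ⟨_, rfl⟩
  have a1 : ∀ j, |hh j| ≤ T ^ ((1:ℝ) / 2) := by
    intro j
    rw [hhd]
    refine Fin.cases ?_ (fun j => Fin.cases ?_ (fun j => ?_) j) j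
    · rw [Fin.cons_zero, abs_of_nonneg hx0]
      linarith
    · rw [Fin.cons_succ, Fin.cons_zero, abs_of_nonneg hy0]
      linarith
    · rw [Fin.cons_succ, Fin.cons_succ]
      have := abs_le.1 (hv j)
      rw [abs_le]
      constructor <;> linarith [this.1, this.2]
  have a2 : ∀ j l, |hh j - hh l| ≤ 2 := by
    have hxy' := abs_le.1 hxy
    intro j l
    rw [hhd]
    refine Fin.cases ?_ (fun j => Fin.cases ?_ (fun j => ?_) j) j
    · refine Fin.cases ?_ (fun l => Fin.cases ?_ (fun l => ?_) l) l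
      · simp
      · rw [Fin.cons_succ, Fin.cons_zero, Fin.cons_zero, abs_le]
        constructor <;> linarith [hxy'.1, hxy'.2]
      · have := abs_le.1 (hv l)
        rw [Fin.cons_succ, Fin.cons_succ, Fin.cons_zero, abs_le]
        constructor <;> linarith [this.1, this.2]
    · refine Fin.cases ?_ (fun l => Fin.cases ?_ (fun l => ?_) l) l
      · rw [Fin.cons_succ, Fin.cons_zero, Fin.cons_zero, abs_le]
        constructor <;> linarith [hxy'.1, hxy'.2]
      · simp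
      · have := abs_le.1 (hv l)
        rw [Fin.cons_succ, Fin.cons_succ, Fin.cons_succ, Fin.cons_zero, abs_le]
        constructor <;> linarith [this.1, this.2, hxy'.1, hxy'.2]
    · have h1 := abs_le.1 (hv j)
      refine Fin.cases ?_ (fun l => Fin.cases ?_ (fun l => ?_) l) l
      · rw [Fin.cons_succ, Fin.cons_succ, Fin.cons_zero, abs_le]
        constructor <;> linarith [h1.1, h1.2]
      · rw [Fin.cons_succ, Fin.cons_succ, Fin.cons_succ, Fin.cons_zero, abs_le]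
        constructor <;> linarith [h1.1, h1.2, hxy'.1, hxy'.2]
      · have h2 := abs_le.1 (hv l)
        rw [Fin.cons_succ, Fin.cons_succ, Fin.cons_succ, Fin.cons_succ, abs_le]
        constructor <;> linarith [h1.1, h1.2, h2.1, h2.2]
  have a3 : ∀ j, |bb j| ≤ k := by
    intro j
    rw [hbd]
    refine Fin.cases ?_ (fun j => Fin.cases ?_ (fun j => ?_) j) j
    · rw [Fin.cons_zero, abs_of_pos hk]
    · rw [Fin.cons_succ, Fin.cons_zero, abs_of_pos hk]
    · rw [Fin.cons_succ, Fin.cons_succ, abs_neg, abs_of_pos hβ0]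
      exact hβk
  obtain ⟨S, hSm, hSs, hSv, hSp, hSb⟩ := hT hh a1 a2
  obtain ⟨hSi, hSI⟩ := hSb bb a3
  -- the integrand
  obtain ⟨g, hg⟩ : ∃ g : ℝ → ℝ, g = fun t => F k V δ (t + x) * F k V δ (t + y) * ∏ i, (yb β δ (t + x + v i))⁻¹ :=
    ⟨_, rfl⟩
  have g_nn : ∀ t, 0 ≤ g t := by
    intro t
    rw [hg]
    exact mul_nonneg (mul_nonneg (F_nn _ _ _ _) (F_nn _ _ _ _)) (Finset.prod_nonneg fun i _ => yb_inv_nn hd0)
  obtain ⟨Bd, hBd⟩ : ∃ Bd : ℝ, Bd = (2 * δ) ^ (-(4 * k * V + m)) := ⟨_, rfl⟩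
  have hBd0 : 0 < Bd := by rw [hBd]; exact Real.rpow_pos_of_pos h20 _
  have g_le : ∀ t, g t ≤ Bd := by
    intro t
    rw [hg, hBd]
    have e1 : (2 * δ) ^ (-(4 * k * V + m)) = (2 * δ) ^ (-(2 * k * V)) * (2 * δ) ^ (-(2 * k * V)) *
        ∏ i : Fin m, (2 * δ)⁻¹ := by
      rw [Finset.prod_const, Finset.card_univ, Fintype.card_fin, ← Real.rpow_add h20, ← Real.rpow_neg_one,
        ← Real.rpow_natCast _ m, ← Real.rpow_mul h20.le, ← Real.rpow_add h20]
      congr 1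
      ring
    rw [e1]
    refine mul_le_mul (mul_le_mul (F_le hd0 hk.le _) (F_le hd0 hk.le _) (F_nn _ _ _ _) (Real.rpow_nonneg h20.le _))
      (Finset.prod_le_prod (fun i _ => yb_inv_nn hd0) fun i _ => yb_inv_le hd0)
      (Finset.prod_nonneg fun i _ => yb_inv_nn hd0) ?_
    exact mul_nonneg (Real.rpow_nonneg h20.le _) (Real.rpow_nonneg h20.le _)
  have g_meas : Measurable g := by
    rw [hg]
    refine (((F_meas hd16.le).comp (measurable_id.add_const x)).mul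
      ((F_meas hd16.le).comp (measurable_id.add_const y))).mul ?_
    refine Finset.measurable_fun_prod _ fun i _ => ?_
    exact ((yb_meas hd16.le).comp ((measurable_id.add_const x).add_const (v i))).inv
  have g_int : ∀ s : Set ℝ, s ⊆ Set.Icc 0 T → IntegrableOn g s := by
    intro s hs
    have : IntegrableOn g (Set.Icc 0 T) := by
      refine Measure.integrableOn_of_bounded (M := Bd) (by simp) g_meas.aestronglyMeasurable ?_
      refine Eventually.of_forall fun t => ?_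
      rw [Real.norm_of_nonneg (g_nn t)]
      exact g_le t
    exact this.mono_set hs
  -- on S
  have b1 : ∫ t in S, g t ≤ C * T * ∏ j, ∏ l, G δ (hh j - hh l) ^ (-(bb j * bb l)) := by
    refine le_trans (setIntegral_mono_on (g_int S hSs) hSi hSm fun t ht => ?_) hSI
    have hz := hSp t ht
    rw [hg, hhd, hbd]
    rw [hhd] at hz
    simp only [Fin.prod_univ_succ, Fin.cons_zero, Fin.cons_succ]
    rw [mul_assoc]
    have hz2 : ∀ i, 0 < mz δ (t + (x + v i)) := by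
      intro i
      have := hz i.succ.succ
      rw [Fin.cons_succ, Fin.cons_succ] at this
      exact this
    refine mul_le_mul (F_le_pow _ _ _ _) (mul_le_mul (F_le_pow _ _ _ _) ?_ ?_ ?_) ?_ ?_
    · refine Finset.prod_le_prod (fun i _ => yb_inv_nn hd0) fun i _ => ?_
      rw [add_assoc]
      exact yb_inv_le_pow (hz2 i)
    · exact Finset.prod_nonneg fun i _ => yb_inv_nn hd0
    · exact Real.rpow_nonneg (mz_nn _ _) _
    · exact mul_nonneg (F_nn _ _ _ _) (Finset.prod_nonneg fun i _ => yb_inv_nn hd0)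
    · exact Real.rpow_nonneg (mz_nn _ _) _
  -- off S
  have hdD : 0 ≤ δ ^ D * T := mul_nonneg (Real.rpow_nonneg hd0.le _) hT0.le
  have b2 : ∫ t in Set.Icc 0 T \ S, g t ≤ Bd * (δ ^ D * T) := by
    have hm' : MeasurableSet (Set.Icc 0 T \ S) := measurableSet_Icc.diff hSm
    have hfin : volume (Set.Icc 0 T \ S) ≠ ⊤ := ne_top_of_le_ne_top ENNReal.ofReal_ne_top hSv
    have c1 : ∫ t in Set.Icc 0 T \ S, g t ≤ ∫ t in Set.Icc 0 T \ S, Bd := by
      refine setIntegral_mono_on (g_int _ Set.sdiff_subset) ?_ hm' fun t _ => g_le t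
      exact integrableOn_const hfin
    rw [setIntegral_const, smul_eq_mul, mul_comm] at c1
    refine c1.trans (mul_le_mul_of_nonneg_left ?_ hBd0.le)
    exact ENNReal.toReal_le_of_le_ofReal hdD hSv
  have b3 : ∫ t in (0:ℝ)..T, g t = (∫ t in S, g t) + ∫ t in Set.Icc 0 T \ S, g t := by
    rw [intervalIntegral.integral_of_le hT0.le, ← integral_Icc_eq_integral_Ioc, add_comm]
    have := setIntegral_union (μ := volume) (f := g) (s := Set.Icc 0 T \ S) (t := S) Set.disjoint_sdiff_left hSm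
      (g_int _ Set.sdiff_subset) (g_int _ hSs)
    rw [← this, Set.sdiff_union_of_subset hSs]
  -- the factors
  obtain ⟨P, hP⟩ : ∃ P : ℝ, P = ∏ i, ∏ j, (if i = j then 1 else G δ (v i - v j) ^ (-(β ^ 2))) := ⟨_, rfl⟩
  obtain ⟨Gp, hGp⟩ : ∃ Gp : ℝ, Gp = G δ (y - x) ^ (-(2 * k ^ 2)) := ⟨_, rfl⟩
  obtain ⟨E, hE⟩ : ∃ E : ℝ, E = (2 * δ) ^ (-(2 * k ^ 2 + k ^ 2 / m - 4 * k ^ 2 * u)) := ⟨_, rfl⟩
  have hGg : ∀ h, 0 < G δ h := fun h => G_pos hd0
  have hGp0 : 0 < Gp := by rw [hGp]; exact Real.rpow_pos_of_pos (hGg _) _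
  have hE0 : 0 < E := by rw [hE]; exact Real.rpow_pos_of_pos h20 _
  have hP0 : 0 < P := by
    rw [hP]
    refine Finset.prod_pos fun i _ => Finset.prod_pos fun j _ => ?_
    split_ifs
    · exact one_pos
    · exact Real.rpow_pos_of_pos (hGg _) _
  have c1 : ∏ j, ∏ l, G δ (hh j - hh l) ^ (-(bb j * bb l)) ≤ 3 ^ (4 * k ^ 2) * (E * Gp * P) := by
    rw [hhd, hbd, prods hd0, ← hP, ← hGp]
    have e1 : ∏ i, (G δ (v i) ^ (2 * (k * β)) * G δ (x + v i - y) ^ (2 * (k * β))) ≤ (3 * w) ^ (4 * k ^ 2) := by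
      have e2 : (3 * w) ^ (4 * k ^ 2) = ∏ i : Fin m, ((3 * w) ^ (2 * (k * β)) * (3 * w) ^ (2 * (k * β))) := by
        rw [Finset.prod_const, Finset.card_univ, Fintype.card_fin, ← Real.rpow_add (by positivity),
          ← Real.rpow_natCast _ m, ← Real.rpow_mul (by positivity)]
        congr 1
        have : (2 * (k * β) + 2 * (k * β)) * m = 4 * (k * (β * m)) := by ring
        rw [this, hβm]
        ring
      rw [e2]
      refine Finset.prod_le_prod (fun i _ => mul_nonneg (Real.rpow_nonneg (hGg _).le _)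
        (Real.rpow_nonneg (hGg _).le _)) fun i _ => ?_
      have f1 : G δ (v i) ≤ 3 * w := by
        unfold G
        linarith [hv i]
      have f2 : G δ (x + v i - y) ≤ 3 * w := by
        unfold G
        have : |x + v i - y| ≤ |v i| + |y - x| := by
          calc |x + v i - y| = |v i - (y - x)| := by congr 1; ring
            _ ≤ |v i| + |y - x| := abs_sub _ _
        linarith [hv i]
      exact mul_le_mul (Real.rpow_le_rpow (hGg _).le f1 (by positivity))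
        (Real.rpow_le_rpow (hGg _).le f2 (by positivity)) (Real.rpow_nonneg (hGg _).le _) (by positivity)
    have e3 : ∏ i : Fin m, (2 * δ) ^ (-(β ^ 2)) = (2 * δ) ^ (-(k ^ 2 / m)) := by
      rw [Finset.prod_const, Finset.card_univ, Fintype.card_fin, ← Real.rpow_natCast _ m, ← Real.rpow_mul h20.le]
      congr 1
      rw [hβ]
      field_simp
    have e4 : (3 * w) ^ (4 * k ^ 2) = 3 ^ (4 * k ^ 2) * (2 * δ) ^ (u * (4 * k ^ 2)) := by
      rw [Real.mul_rpow (by norm_num) hw0.le, hw, ← Real.rpow_mul h20.le]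
    have e5 : E = (2 * δ) ^ (-(2 * k ^ 2)) * (2 * δ) ^ (u * (4 * k ^ 2)) * (2 * δ) ^ (-(k ^ 2 / m)) := by
      rw [hE, ← Real.rpow_add h20, ← Real.rpow_add h20]
      congr 1
      ring
    rw [e3]
    rw [e4] at e1
    have p1 : 0 < (2 * δ) ^ (-(2 * k ^ 2)) := Real.rpow_pos_of_pos h20 _
    have p2 : 0 < (2 * δ) ^ (-(k ^ 2 / m)) := Real.rpow_pos_of_pos h20 _
    calc (2 * δ) ^ (-(2 * k ^ 2)) * Gp * (∏ i, (G δ (v i) ^ (2 * (k * β)) * G δ (x + v i - y) ^ (2 * (k * β)))) *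
          (2 * δ) ^ (-(k ^ 2 / m)) * P
        ≤ (2 * δ) ^ (-(2 * k ^ 2)) * Gp * (3 ^ (4 * k ^ 2) * (2 * δ) ^ (u * (4 * k ^ 2))) *
          (2 * δ) ^ (-(k ^ 2 / m)) * P := by
          gcongr
      _ = 3 ^ (4 * k ^ 2) * (E * Gp * P) := by
          rw [e5]
          ring
  have c2 : Bd * (δ ^ D * T) ≤ 4 ^ (2 * k ^ 2) * (E * Gp * P) * T := by
    have f1 : δ ^ D ≤ (2 * δ) ^ D := Real.rpow_le_rpow hd0.le (by linarith) hD0.le
    have f2 : Bd * (2 * δ) ^ D = (2 * δ) ^ (4 * k ^ 2) := by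
      rw [hBd, ← Real.rpow_add h20, hD]
      congr 1
      ring
    have f3 : (2 * δ) ^ (4 * k ^ 2) ≤ E := by
      rw [hE]
      refine Real.rpow_le_rpow_of_exponent_ge h20 h21 ?_
      have : 0 ≤ k ^ 2 / m := by positivity
      have : k ^ 2 * u ≤ k ^ 2 * 1 := mul_le_mul_of_nonneg_left hu1 (by positivity)
      have : 0 ≤ k ^ 2 := by positivity
      linarith
    have f4 : (4:ℝ) ^ (-(k ^ 2)) ≤ Gp := by
      rw [hGp]
      have q1 : G δ (y - x) ≤ 2 := by unfold G; linarith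
      calc (4:ℝ) ^ (-(k ^ 2)) = 2 ^ (-(2 * k ^ 2)) := by
            rw [show (4:ℝ) = 2 ^ (2:ℝ) by norm_num, ← Real.rpow_mul (by norm_num)]
            congr 1
            ring
        _ ≤ G δ (y - x) ^ (-(2 * k ^ 2)) := Real.rpow_le_rpow_of_nonpos (hGg _) q1 (by
            have : 0 ≤ k ^ 2 := by positivity
            linarith)
    have f5 : (4:ℝ) ^ (-(k ^ 2)) ≤ P := by
      rw [hP]
      have q2 : (4:ℝ) ^ (-(k ^ 2)) = ∏ i : Fin m, ∏ j : Fin m, (4:ℝ) ^ (-(β ^ 2)) := by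
        rw [Finset.prod_const, Finset.prod_const, Finset.card_univ, Fintype.card_fin, ← Real.rpow_natCast _ m,
          ← Real.rpow_natCast _ m, ← Real.rpow_mul (by positivity), ← Real.rpow_mul (by positivity)]
        congr 1
        rw [hβ]
        field_simp
      rw [q2]
      refine Finset.prod_le_prod (fun i _ => Finset.prod_nonneg fun j _ => by positivity) fun i _ =>
        Finset.prod_le_prod (fun j _ => by positivity) fun j _ => ?_
      split_ifs
      · exact Real.rpow_le_one_of_one_le_of_nonpos (by norm_num) (by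
          have : 0 ≤ β ^ 2 := by positivity
          linarith)
      · refine Real.rpow_le_rpow_of_nonpos (hGg _) ?_ (by
          have : 0 ≤ β ^ 2 := by positivity
          linarith)
        unfold G
        have : |v i - v j| ≤ |v i| + |v j| := abs_sub _ _
        linarith [hv i, hv j]
    have f6 : (4:ℝ) ^ (2 * k ^ 2) * (4 ^ (-(k ^ 2)) * 4 ^ (-(k ^ 2))) = 1 := by
      rw [← Real.rpow_add (by norm_num), ← Real.rpow_add (by norm_num)]
      rw [show 2 * k ^ 2 + (-(k ^ 2) + -(k ^ 2)) = 0 by ring, Real.rpow_zero]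
    have f7 : (2 * δ) ^ (4 * k ^ 2) ≤ 4 ^ (2 * k ^ 2) * (E * Gp * P) := by
      calc (2 * δ) ^ (4 * k ^ 2) = (4:ℝ) ^ (2 * k ^ 2) * ((2 * δ) ^ (4 * k ^ 2) * 4 ^ (-(k ^ 2)) * 4 ^ (-(k ^ 2))) := by
            rw [mul_assoc ((2 * δ) ^ (4 * k ^ 2)), ← mul_assoc, mul_comm ((4:ℝ) ^ (2 * k ^ 2)), mul_assoc, f6, mul_one]
        _ ≤ 4 ^ (2 * k ^ 2) * (E * Gp * P) := by
            gcongr
    calc Bd * (δ ^ D * T) ≤ Bd * ((2 * δ) ^ D * T) := by gcongr
      _ = (2 * δ) ^ (4 * k ^ 2) * T := by rw [← f2]; ring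
      _ ≤ 4 ^ (2 * k ^ 2) * (E * Gp * P) * T := by gcongr
  have hfin : ∫ t in (0:ℝ)..T, g t ≤ T * ((C * 3 ^ (4 * k ^ 2) + 4 ^ (2 * k ^ 2)) * (E * Gp * P)) := by
    rw [b3]
    have := mul_le_mul_of_nonneg_left c1 (by positivity : 0 ≤ C * T)
    linarith
  have hg' : ∀ t, F k V δ (t + x) * F k V δ (t + y) * ∏ i, (yb β δ (t + x + v i))⁻¹ = g t := by
    intro t
    rw [hg]
  simp only [← hβ, hg']
  rw [← hE, ← hGp, ← hP]
  calc 1 / T * ∫ t in (0:ℝ)..T, g t
      ≤ 1 / T * (T * ((C * 3 ^ (4 * k ^ 2) + 4 ^ (2 * k ^ 2)) * (E * Gp * P))) :=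
        mul_le_mul_of_nonneg_left hfin (by positivity)
    _ = (C * 3 ^ (4 * k ^ 2) + 4 ^ (2 * k ^ 2)) * E * Gp * P := by
        field_simp

end Pool.Agent.H6F.BAR2B
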