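import Pool.Agent.H6F.Stm

/-!
Project H6F (helper6): stub CONVO, the coefficients of `ζ(s)^k ζ(s+ih)^k` as a Dirichlet convolution.
-/

set_option autoImplicit false

namespace Pool.Agent.H6F.CONVO

open Finset Complex
open Pool.Agent.N748.MG Pool.Agent.N748.MJ

theorem lC_zero (s : ℂ) : lC s 0 = 1 := by simp [lC]

theorem dS_one (s : ℂ) : dS s 1 = 1 := by simp [dS]

theorem dS_mul (s : ℂ) {a b : ℕ} (hab : Nat.Coprime a b) : dS s (a * b) = dS s a * dS s b := by
  unfold dS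
  rw [Nat.Coprime.primeFactors_mul hab, Finset.prod_union hab.disjoint_primeFactors]
  congr 1
  · refine Finset.prod_congr rfl fun p hp => ?_
    rw [Nat.factorization_eq_of_coprime_left hab (Nat.mem_primeFactors_iff_mem_primeFactorsList.1 hp)]
  · refine Finset.prod_congr rfl fun p hp => ?_
    rw [Nat.factorization_eq_of_coprime_right hab (Nat.mem_primeFactors_iff_mem_primeFactorsList.1 hp)]

theorem dS_prime_pow (s : ℂ) {p : ℕ} (hp : p.Prime) (k : ℕ) : dS s (p ^ k) = lC s k := by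
  unfold dS
  rcases Nat.eq_zero_or_pos k with rfl | hk
  · simp [lC_zero]
  · rw [Nat.primeFactors_prime_pow hk.ne' hp, Finset.prod_singleton, hp.factorization_pow]
    simp

variable {m : ℕ}

theorem lV_zero (s : Fin m → ℂ) (h : Fin m → ℝ) (q : ℕ) : lV s h q 0 = 1 := by
  unfold lV
  rw [Finset.piAntidiag_zero, Finset.sum_singleton]
  refine Finset.prod_eq_one fun j _ => ?_
  simp [lC_zero]

theorem dV_one (s : Fin m → ℂ) (h : Fin m → ℝ) : dV s h 1 = 1 := by simp [dV]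

theorem dV_mul (s : Fin m → ℂ) (h : Fin m → ℝ) {a b : ℕ} (hab : Nat.Coprime a b) :
    dV s h (a * b) = dV s h a * dV s h b := by
  unfold dV
  rw [Nat.Coprime.primeFactors_mul hab, Finset.prod_union hab.disjoint_primeFactors]
  congr 1
  · refine Finset.prod_congr rfl fun p hp => ?_
    rw [Nat.factorization_eq_of_coprime_left hab (Nat.mem_primeFactors_iff_mem_primeFactorsList.1 hp)]
  · refine Finset.prod_congr rfl fun p hp => ?_
    rw [Nat.factorization_eq_of_coprime_right hab (Nat.mem_primeFactors_iff_mem_primeFactorsList.1 hp)]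

theorem dV_prime_pow (s : Fin m → ℂ) (h : Fin m → ℝ) {p : ℕ} (hp : p.Prime) (k : ℕ) :
    dV s h (p ^ k) = lV s h p k := by
  unfold dV
  rcases Nat.eq_zero_or_pos k with rfl | hk
  · simp [lV_zero]
  · rw [Nat.primeFactors_prime_pow hk.ne' hp, Finset.prod_singleton, hp.factorization_pow]
    simp

/-- the first factor -/
noncomputable def f1 (k : ℝ) : ArithmeticFunction ℂ := ⟨fun n => if n = 0 then 0 else dS (k : ℂ) n, by simp⟩

/-- the second factor -/
noncomputable def f2 (k h : ℝ) : ArithmeticFunction ℂ :=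
  ⟨fun n => if n = 0 then 0 else dS (k : ℂ) n * (n : ℂ) ^ (-((h : ℂ) * I)), by simp⟩

/-- the left side -/
noncomputable def g (k h : ℝ) : ArithmeticFunction ℂ :=
  ⟨fun n => if n = 0 then 0 else dV (fun _ : Fin 2 => (k : ℂ)) ![0, h] n, by simp⟩

theorem f1_apply (k : ℝ) {n : ℕ} (hn : n ≠ 0) : f1 k n = dS (k : ℂ) n := by
  simp [f1, hn]

theorem f2_apply (k h : ℝ) {n : ℕ} (hn : n ≠ 0) : f2 k h n = dS (k : ℂ) n * (n : ℂ) ^ (-((h : ℂ) * I)) := by
  simp [f2, hn]

theorem g_apply (k h : ℝ) {n : ℕ} (hn : n ≠ 0) : g k h n = dV (fun _ : Fin 2 => (k : ℂ)) ![0, h] n := by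
  simp [g, hn]

theorem f1_mult (k : ℝ) : (f1 k).IsMultiplicative := by
  rw [ArithmeticFunction.IsMultiplicative.iff_ne_zero]
  refine ⟨by rw [f1_apply k one_ne_zero, dS_one], fun {a b} ha hb hab => ?_⟩
  rw [f1_apply k ha, f1_apply k hb, f1_apply k (mul_ne_zero ha hb), dS_mul _ hab]

theorem f2_mult (k h : ℝ) : (f2 k h).IsMultiplicative := by
  rw [ArithmeticFunction.IsMultiplicative.iff_ne_zero]
  refine ⟨by rw [f2_apply k h one_ne_zero, dS_one]; simp, fun {a b} ha hb hab => ?_⟩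
  rw [f2_apply k h ha, f2_apply k h hb, f2_apply k h (mul_ne_zero ha hb), dS_mul _ hab, Nat.cast_mul,
    Complex.natCast_mul_natCast_cpow]
  ring

theorem g_mult (k h : ℝ) : (g k h).IsMultiplicative := by
  rw [ArithmeticFunction.IsMultiplicative.iff_ne_zero]
  refine ⟨by rw [g_apply k h one_ne_zero, dV_one], fun {a b} ha hb hab => ?_⟩
  rw [g_apply k h ha, g_apply k h hb, g_apply k h (mul_ne_zero ha hb), dV_mul _ _ hab]

theorem sum_antidiag {M : Type*} [AddCommMonoid M] (r : ℕ) (F : ℕ → ℕ → M) :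
    ∑ μ ∈ Finset.piAntidiag (Finset.univ : Finset (Fin 2)) r, F (μ 0) (μ 1) =
      ∑ x ∈ Finset.HasAntidiagonal.antidiagonal r, F x.1 x.2 := by
  rw [Finset.piAntidiag_univ_fin_eq_antidiagonalTuple, Finset.Nat.antidiagonalTuple_two, Finset.sum_map]
  rfl

theorem lV_two (k h : ℝ) {p : ℕ} (hp : p.Prime) (r : ℕ) :
    lV (fun _ : Fin 2 => (k : ℂ)) ![0, h] p r =
      ∑ x ∈ Finset.HasAntidiagonal.antidiagonal r, dS (k : ℂ) (p ^ x.1) * (dS (k : ℂ) (p ^ x.2) * ((p ^ x.2 : ℕ) : ℂ) ^ (-((h : ℂ) * I))) := by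
  unfold lV
  rw [← sum_antidiag r fun a b => dS (k : ℂ) (p ^ a) * (dS (k : ℂ) (p ^ b) * ((p ^ b : ℕ) : ℂ) ^ (-((h : ℂ) * I)))]
  refine Finset.sum_congr rfl fun μ _ => ?_
  rw [Fin.prod_univ_two, dS_prime_pow _ hp, dS_prime_pow _ hp]
  have h2 : ((p ^ μ 1 : ℕ) : ℂ) ^ (-((h : ℂ) * I)) = (p : ℂ) ^ (-((μ 1 * h : ℝ) * I)) := by
    rw [Nat.cast_pow, ← Complex.natCast_cpow_natCast_mul]
    congr 1
    push_cast
    ring
  rw [h2]
  simp

theorem t : S_CONVO := by
  intro k h n hn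
  have key : g k h = f1 k * f2 k h := by
    rw [ArithmeticFunction.IsMultiplicative.eq_iff_eq_on_prime_powers _ (g_mult k h) _
      ((f1_mult k).mul (f2_mult k h))]
    intro p i hp
    have hpi : p ^ i ≠ 0 := pow_ne_zero _ hp.ne_zero
    have hR : (f1 k * f2 k h) (p ^ i) = ∑ x ∈ Finset.range (i + 1), f1 k (p ^ x) * f2 k h (p ^ i / p ^ x) := by
      rw [ArithmeticFunction.mul_apply, Nat.sum_divisorsAntidiagonal (fun a b => f1 k a * f2 k h b),
        Nat.sum_divisors_prime_pow hp]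
    rw [g_apply k h hpi, dV_prime_pow _ _ hp, lV_two k h hp, hR,
      Finset.Nat.sum_antidiagonal_eq_sum_range_succ_mk]
    refine Finset.sum_congr rfl fun x hx => ?_
    have hx' : x ≤ i := Nat.lt_succ_iff.1 (Finset.mem_range.1 hx)
    rw [Nat.pow_div hx' hp.pos, f1_apply k (pow_ne_zero _ hp.ne_zero), f2_apply k h (pow_ne_zero _ hp.ne_zero)]
  have h1 := congrArg (fun f : ArithmeticFunction ℂ => f n) key
  rw [g_apply k h hn, ArithmeticFunction.mul_apply] at h1
  rw [h1]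
  unfold cv
  refine Finset.sum_congr rfl fun q hq => ?_
  have hq1 := Nat.ne_zero_of_mem_divisorsAntidiagonal hq
  rw [f1_apply k hq1.1, f2_apply k h hq1.2]

end Pool.Agent.H6F.CONVO
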