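import Pool.Agent.H6F.Stm

set_option autoImplicit false

/-!
# The diagonal series near the critical line (stub DASY)
-/

namespace Pool.Agent.H6F.DASY

open Filter MeasureTheory Topology Complex
open Pool.Agent.N748.MG Pool.Agent.N748.MJ

lemma zl_neg (d u : ℝ) : zl d (-u) = zl d u := by
  unfold zl
  have h := riemannZeta_conj (1 + 2 * (d : ℂ) + (u : ℂ) * I)
  have e : (starRingEnd ℂ) (1 + 2 * (d : ℂ) + (u : ℂ) * I) = 1 + 2 * (d : ℂ) + ((-u : ℝ) : ℂ) * I := by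
    apply Complex.ext
    · simp
    · simp
  rw [← e, h, RCLike.norm_conj]

lemma cj_real {m : ℕ} (k : ℝ) : cj (fun _ : Fin m => (k : ℂ)) = fun _ => (k : ℂ) := by
  funext j
  simp [cj, Complex.conj_ofReal]

/-- the real part of the logarithm -/
lemma exp_re (h3 : S_LZB) {δ : ℝ} (h0 : 0 < δ) (h1 : δ ≤ 1 / 16) (u : ℝ) :
    Real.exp ((LZ (1 + 2 * δ) u).re) = zl δ u := by
  have h := (h3 δ h0 h1 u).2
  unfold zl
  rw [← Complex.norm_exp, h]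
  congr 2
  push_cast
  ring

lemma zl_pos (h3 : S_LZB) {δ : ℝ} (h0 : 0 < δ) (h1 : δ ≤ 1 / 16) (u : ℝ) : 0 < zl δ u := by
  rw [← exp_re h3 h0 h1 u]
  exact Real.exp_pos _

lemma exp_mul_re (h3 : S_LZB) {δ : ℝ} (h0 : 0 < δ) (h1 : δ ≤ 1 / 16) (u a : ℝ) :
    Real.exp (a * (LZ (1 + 2 * δ) u).re) = zl δ u ^ a := by
  rw [← exp_re h3 h0 h1 u, ← Real.exp_mul]
  congr 1
  ring

/-- the series is real -/
lemma ser (c : ℕ → ℂ) (δ : ℝ) :
    (∑' n : ℕ, c n * (starRingEnd ℂ) (c n) * (((n:ℝ) ^ (-(1 + 2 * δ)) : ℝ) : ℂ)) =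
      ((∑' n : ℕ, ‖c n‖ ^ 2 * (n:ℝ) ^ (-(1 + 2 * δ)) : ℝ) : ℂ) := by
  rw [Complex.ofReal_tsum]
  refine tsum_congr fun n => ?_
  rw [Complex.mul_conj, Complex.normSq_eq_norm_sq]
  push_cast
  ring

lemma key {E D a P : ℝ} {z : ℂ} (hz : ‖z‖ = P⁻¹) (hP : 0 < P) (hD : 0 ≤ D) (h : ‖z * (D : ℂ) - (a : ℂ)‖ ≤ E) :
    a ≤ D / P + E ∧ D / P ≤ |a| + E := by
  have h1 : ‖z * (D : ℂ)‖ = D / P := by
    rw [norm_mul, hz, Complex.norm_real, Real.norm_of_nonneg hD]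
    field_simp
  have h2 : ‖(a : ℂ)‖ = |a| := by rw [Complex.norm_real, Real.norm_eq_abs]
  constructor
  · have h3 : ‖(a : ℂ)‖ ≤ ‖z * (D : ℂ)‖ + ‖z * (D : ℂ) - (a : ℂ)‖ := by
      have : (a : ℂ) = z * (D : ℂ) - (z * (D : ℂ) - (a : ℂ)) := by ring
      calc ‖(a : ℂ)‖ = ‖z * (D : ℂ) - (z * (D : ℂ) - (a : ℂ))‖ := by rw [← this]
        _ ≤ _ := norm_sub_le _ _
    rw [h1, h2] at h3
    linarith [le_abs_self a]
  · have h3 : ‖z * (D : ℂ)‖ ≤ ‖(a : ℂ)‖ + ‖z * (D : ℂ) - (a : ℂ)‖ := by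
      calc ‖z * (D : ℂ)‖ = ‖(a : ℂ) + (z * (D : ℂ) - (a : ℂ))‖ := by congr 1; ring
        _ ≤ _ := norm_add_le _ _
    rw [h1, h2] at h3
    linarith

lemma zpow0 (δ : ℝ) (h : 0 < δ) : ((0 : ℕ) : ℝ) ^ (-(1 + 2 * δ)) = 0 := by
  rw [Nat.cast_zero, Real.zero_rpow]
  linarith

lemma dV_one (k : ℝ) (n : ℕ) : dV (fun _ : Fin 1 => (k : ℂ)) (fun _ => 0) n = dS (k : ℂ) n := by
  unfold dV dS
  refine Finset.prod_congr rfl fun p _ => ?_
  unfold lV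
  have e : Finset.piAntidiag (Finset.univ : Finset (Fin 1)) (n.factorization p) = {fun _ => n.factorization p} := by
    ext μ
    simp only [Finset.mem_piAntidiag, Finset.univ_unique, Finset.sum_singleton, Finset.mem_singleton]
    constructor
    · rintro ⟨h, -⟩
      funext i
      rw [← h, Subsingleton.elim i default]
    · intro h
      rw [h]
      exact ⟨rfl, fun i _ => Subsingleton.elim _ _⟩
  rw [e]
  simp

theorem t (h1 : S_DIA2V) (h2 : S_POSV) (h3 : S_LZB) (h4 : S_AV0) (h5 : S_CONVO) (h6 : S_APOS) : S_DASY := by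
  intro k ε hk hε
  obtain ⟨c, C, hc, -, hcC⟩ := h2 2 k hk.le
  have ha := (h6 k).1
  set ε1 : ℝ := ε / (1 + ε) with hε1
  have hε1p : 0 < ε1 := by positivity
  obtain ⟨δ1, hδ1, H1⟩ := h1 2 k hk.le (ε1 * c) (by positivity)
  obtain ⟨δ2, hδ2, H2⟩ := h1 1 k hk.le (ε * (aC (k : ℂ)).re) (by positivity)
  have hev : ∀ᶠ δ : ℝ in 𝓝[>] 0, δ ∈ Set.Ioo (0 : ℝ) (min (1 / 16) (min δ1 δ2)) :=
    Ioo_mem_nhdsGT (by positivity)
  filter_upwards [hev] with δ hδ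
  have hδ0 : 0 < δ := hδ.1
  have hδ16 : δ ≤ 1 / 16 := hδ.2.le.trans (min_le_left _ _)
  have hδ1' : δ ≤ δ1 := hδ.2.le.trans ((min_le_right _ _).trans (min_le_left _ _))
  have hδ2' : δ ≤ δ2 := hδ.2.le.trans ((min_le_right _ _).trans (min_le_right _ _))
  have hkn : ‖(k : ℂ)‖ ≤ k := by rw [Complex.norm_real, Real.norm_of_nonneg hk.le]
  constructor
  · intro h
    have H := H1 δ hδ0 hδ1' (fun _ => (k : ℂ)) (fun _ => (k : ℂ)) ![0, h] (fun _ => hkn) (fun _ => hkn)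
    rw [cj_real, ser] at H
    obtain ⟨a, hca, haV⟩ := (hcC ![0, h]).2 (fun _ => k) (fun _ => by rw [abs_of_pos hk])
    have haR : aR k h = a := by
      unfold aR
      rw [haV, Complex.ofReal_re]
    have hser : (∑' n : ℕ, ‖dV (fun _ : Fin 2 => (k : ℂ)) ![0, h] n‖ ^ 2 * (n:ℝ) ^ (-(1 + 2 * δ))) =
        ∑' n : ℕ, ‖cv k h n‖ ^ 2 * (n:ℝ) ^ (-(1 + 2 * δ)) := by
      refine tsum_congr fun n => ?_
      by_cases hn : n = 0
      · subst hn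
        rw [zpow0 δ hδ0, mul_zero, mul_zero]
      · rw [h5 k h n hn]
    rw [hser, haV] at H
    set D : ℝ := ∑' n : ℕ, ‖cv k h n‖ ^ 2 * (n:ℝ) ^ (-(1 + 2 * δ)) with hD
    have hD0 : 0 ≤ D := tsum_nonneg fun n => by positivity
    set P : ℝ := zl δ 0 ^ (2 * k ^ 2) * zl δ h ^ (2 * k ^ 2) with hP
    have hz0 := zl_pos h3 hδ0 hδ16 0
    have hzh := zl_pos h3 hδ0 hδ16 h
    have hP0 : 0 < P := by positivity
    have hLM : ‖Complex.exp (-(LM (fun _ : Fin 2 => (k : ℂ)) (fun _ => (k : ℂ)) ![0, h] δ))‖ = P⁻¹ := by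
      rw [Complex.norm_exp, Complex.neg_re, Real.exp_neg]
      congr 1
      unfold LM
      simp only [Fin.sum_univ_two, Matrix.cons_val_zero, Matrix.cons_val_one, sub_self, sub_zero, zero_sub]
      rw [show ((k : ℂ) * (k : ℂ) * LZ (1 + 2 * δ) 0 + (k : ℂ) * (k : ℂ) * LZ (1 + 2 * δ) (-h) +
        ((k : ℂ) * (k : ℂ) * LZ (1 + 2 * δ) h + (k : ℂ) * (k : ℂ) * LZ (1 + 2 * δ) 0)).re =
        (2 * k ^ 2) * (LZ (1 + 2 * δ) 0).re + (k ^ 2 * (LZ (1 + 2 * δ) (-h)).re + k ^ 2 * (LZ (1 + 2 * δ) h).re) by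
          rw [← Complex.ofReal_mul]
          simp only [Complex.add_re, Complex.re_ofReal_mul]
          ring]
      rw [Real.exp_add, Real.exp_add, exp_mul_re h3 hδ0 hδ16, exp_mul_re h3 hδ0 hδ16, exp_mul_re h3 hδ0 hδ16, zl_neg,
        ← Real.rpow_add hzh, hP]
      congr 2
      ring
    have hk1 := (key hLM hP0 hD0 H).1
    -- conclusion
    have h7 : a * (1 - ε1) ≤ D / P := by
      have : ε1 * c ≤ ε1 * a := mul_le_mul_of_nonneg_left hca hε1p.le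
      nlinarith
    have h8 : 1 - ε1 = 1 / (1 + ε) := by
      rw [hε1]
      field_simp
      ring
    rw [h8, mul_one_div, div_le_iff₀ (by positivity)] at h7
    unfold R
    rw [haR, mul_assoc, ← hP]
    calc a * P ≤ (D / P * (1 + ε)) * P := mul_le_mul_of_nonneg_right h7 hP0.le
      _ = (1 + ε) * D := by field_simp
  · have H := H2 δ hδ0 hδ2' (fun _ => (k : ℂ)) (fun _ => (k : ℂ)) (fun _ => 0) (fun _ => hkn) (fun _ => hkn)
    rw [cj_real, ser, h4 1 _ _ rfl] at H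
    have hser : (∑' n : ℕ, ‖dV (fun _ : Fin 1 => (k : ℂ)) (fun _ => 0) n‖ ^ 2 * (n:ℝ) ^ (-(1 + 2 * δ))) =
        ∑' n : ℕ, ‖dS (k : ℂ) n‖ ^ 2 * (n:ℝ) ^ (-(1 + 2 * δ)) := by
      refine tsum_congr fun n => ?_
      rw [dV_one]
    rw [hser] at H
    have hsum : (∑ _j : Fin 1, (k : ℂ)) = (k : ℂ) := by simp
    rw [hsum, (h6 k).2] at H
    set D : ℝ := ∑' n : ℕ, ‖dS (k : ℂ) n‖ ^ 2 * (n:ℝ) ^ (-(1 + 2 * δ)) with hD
    have hD0 : 0 ≤ D := tsum_nonneg fun n => by positivity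
    have hz0 := zl_pos h3 hδ0 hδ16 0
    set P : ℝ := zl δ 0 ^ (k ^ 2) with hP
    have hP0 : 0 < P := by positivity
    have hLM : ‖Complex.exp (-(LM (fun _ : Fin 1 => (k : ℂ)) (fun _ => (k : ℂ)) (fun _ => 0) δ))‖ = P⁻¹ := by
      rw [Complex.norm_exp, Complex.neg_re, Real.exp_neg]
      congr 1
      unfold LM
      simp only [Finset.univ_unique, Finset.sum_singleton, sub_self]
      rw [show ((k : ℂ) * (k : ℂ) * LZ (1 + 2 * δ) 0).re = k ^ 2 * (LZ (1 + 2 * δ) 0).re by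
          rw [← Complex.ofReal_mul, Complex.re_ofReal_mul]
          ring]
      rw [exp_mul_re h3 hδ0 hδ16]
    have hk1 := (key hLM hP0 hD0 H).2
    rw [abs_of_pos ha, div_le_iff₀ hP0] at hk1
    calc D ≤ ((aC (k : ℂ)).re + ε * (aC (k : ℂ)).re) * P := hk1
      _ = (1 + ε) * ((aC (k : ℂ)).re * P) := by ring

end Pool.Agent.H6F.DASY
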