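import Pool.Agent.H6F.Stm
import Pool.Agent.N748.MG.DIA1

set_option autoImplicit false

/-! DB: the fourth powers of the divisor coefficients. -/

namespace Pool.Agent.H6F.DB

open Finset Filter Topology Complex
open Pool.Agent.N748.MG Pool.Agent.N748.MG.DIA1

/-- the terms -/
noncomputable def g4 (s : ℂ) (η : ℝ) (n : ℕ) : ℝ := ‖dS s n‖ ^ 4 * (n : ℝ) ^ (-(1 + η))

lemma g4_nonneg (s : ℂ) (η : ℝ) (n : ℕ) : 0 ≤ g4 s η n := by unfold g4; positivity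

lemma g4_one (s : ℂ) (η : ℝ) : g4 s η 1 = 1 := by simp [g4, dS_one]

lemma g4_zero (s : ℂ) {η : ℝ} (hη : 0 < η) : g4 s η 0 = 0 := by
  unfold g4
  rw [Nat.cast_zero, Real.zero_rpow (by linarith), mul_zero]

lemma g4_mul (s : ℂ) {η : ℝ} {m n : ℕ} (h : Nat.Coprime m n) :
    g4 s η (m * n) = g4 s η m * g4 s η n := by
  unfold g4
  rw [dS_mul s h, norm_mul]
  push_cast
  rw [Real.mul_rpow (by positivity) (by positivity)]
  ring

lemma g4_pow (s : ℂ) (η : ℝ) {p : ℕ} (hp : p.Prime) (m : ℕ) :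
    g4 s η (p ^ m) = ‖lC s m‖ ^ 4 * ((p : ℝ) ^ (-(1 + η))) ^ m := by
  unfold g4
  rw [dS_pow s hp, pow_rpow]

/-- the dominating series -/
noncomputable def w4 (k m : ℕ) : ℝ := ((m : ℝ) + 1) ^ (4 * k) * (1 / 2 : ℝ) ^ m

lemma w4_nonneg (k m : ℕ) : 0 ≤ w4 k m := by unfold w4; positivity

lemma w4_summable (k : ℕ) : Summable (w4 k) := by
  have h1 := summable_pow_mul_geometric_of_norm_lt_one (R := ℝ) (4 * k) (r := 1 / 2)
    (by rw [Real.norm_eq_abs, abs_of_pos (by norm_num)]; norm_num)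
  have h2 := (summable_nat_add_iff 1).2 h1
  have h3 := h2.mul_left (2 : ℝ)
  refine h3.congr fun m => ?_
  unfold w4
  push_cast
  rw [pow_succ (1 / 2 : ℝ) m]
  ring

lemma g4_le_w4 {s : ℂ} {k : ℕ} (hs : ‖s‖ ≤ k) {η : ℝ} (hη : 0 < η) {p : ℕ} (hp : p.Prime)
    (m : ℕ) : g4 s η (p ^ m) ≤ w4 k m := by
  rw [g4_pow s η hp, w4]
  have h1 := pow_le_pow_left₀ (norm_nonneg _) (lC_norm hs m) 4
  have h2 : ((p : ℝ) ^ (-(1 + η))) ^ m ≤ (1 / 2 : ℝ) ^ m :=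
    pow_le_pow_left₀ (by positivity) ((x_lt hp hη).trans (inv_le_half hp)) m
  calc ‖lC s m‖ ^ 4 * ((p : ℝ) ^ (-(1 + η))) ^ m
      ≤ (((m : ℝ) + 1) ^ k) ^ 4 * (1 / 2 : ℝ) ^ m := by gcongr
    _ = ((m : ℝ) + 1) ^ (4 * k) * (1 / 2 : ℝ) ^ m := by
        rw [← pow_mul, mul_comm k 4]

lemma g4_summable_p {s : ℂ} {k : ℕ} (hs : ‖s‖ ≤ k) {η : ℝ} (hη : 0 < η) {p : ℕ} (hp : p.Prime) :
    Summable fun m : ℕ => ‖g4 s η (p ^ m)‖ := by
  refine Summable.of_nonneg_of_le (fun _ => norm_nonneg _) (fun m => ?_) (w4_summable k)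
  rw [Real.norm_of_nonneg (g4_nonneg _ _ _)]
  exact g4_le_w4 hs hη hp m

/-- the constant -/
noncomputable def c0 (k : ℕ) : ℝ := ∑' m, w4 k m

lemma c0_nonneg (k : ℕ) : 0 ≤ c0 k := tsum_nonneg (w4_nonneg k)

lemma local_bound4 {s : ℂ} {k : ℕ} (hs : ‖s‖ ≤ k) {η : ℝ} (hη : 0 < η) {p : ℕ} (hp : p.Prime) :
    ∑' m : ℕ, g4 s η (p ^ m) ≤ Real.exp (16 ^ k * (p : ℝ) ^ (-(1 + η)) +
      4 * c0 k * (p : ℝ) ^ (-(1 + (1 : ℝ)))) := by
  have hS : Summable fun m : ℕ => g4 s η (p ^ m) := (g4_summable_p hs hη hp).of_norm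
  have hp0 : (0 : ℝ) < p := by exact_mod_cast hp.pos
  have h1 := hS.sum_add_tsum_nat_add 2
  rw [sum_range_succ, sum_range_succ, sum_range_zero, zero_add, pow_zero, g4_one] at h1
  have h2 : g4 s η (p ^ 1) ≤ 16 ^ k * (p : ℝ) ^ (-(1 + η)) := by
    rw [g4_pow s η hp, pow_one]
    have h3 := pow_le_pow_left₀ (norm_nonneg _) (lC_norm hs 1) 4
    have h4 : ((((1 : ℕ) : ℝ) + 1) ^ k) ^ 4 = 16 ^ k := by
      rw [← pow_mul, mul_comm, pow_mul]; norm_num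
    rw [h4] at h3
    gcongr
  have hu : (p : ℝ) ^ (-(1 + (1 : ℝ))) = (p : ℝ)⁻¹ ^ 2 := by
    rw [show -(1 + (1 : ℝ)) = -((2 : ℕ) : ℝ) by norm_num, Real.rpow_neg hp0.le, Real.rpow_natCast,
      inv_pow]
  have h3 : ∀ m : ℕ, g4 s η (p ^ (m + 2)) ≤ 4 * (p : ℝ) ^ (-(1 + (1 : ℝ))) * w4 k (m + 2) := by
    intro m
    rw [g4_pow s η hp, w4, hu]
    have h4 := pow_le_pow_left₀ (norm_nonneg _) (lC_norm hs (m + 2)) 4
    have h5 : ((p : ℝ) ^ (-(1 + η))) ^ (m + 2) ≤ (p : ℝ)⁻¹ ^ 2 * (1 / 2 : ℝ) ^ m := by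
      calc ((p : ℝ) ^ (-(1 + η))) ^ (m + 2) ≤ ((p : ℝ)⁻¹) ^ (m + 2) :=
            pow_le_pow_left₀ (by positivity) (x_lt hp hη) _
        _ = (p : ℝ)⁻¹ ^ 2 * (p : ℝ)⁻¹ ^ m := by rw [← pow_add]; congr 1; omega
        _ ≤ (p : ℝ)⁻¹ ^ 2 * (1 / 2 : ℝ) ^ m := by
            have := pow_le_pow_left₀ (by positivity) (inv_le_half hp) m
            gcongr
    calc ‖lC s (m + 2)‖ ^ 4 * ((p : ℝ) ^ (-(1 + η))) ^ (m + 2)
        ≤ ((((m + 2 : ℕ) : ℝ) + 1) ^ k) ^ 4 *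
            ((p : ℝ)⁻¹ ^ 2 * (1 / 2 : ℝ) ^ m) := by gcongr
      _ = 4 * (p : ℝ)⁻¹ ^ 2 * ((((m + 2 : ℕ) : ℝ) + 1) ^ (4 * k) * (1 / 2 : ℝ) ^ (m + 2)) := by
          rw [← pow_mul, mul_comm k 4, pow_add (1 / 2 : ℝ) m 2]
          ring
  have h4 : ∑' m : ℕ, g4 s η (p ^ (m + 2)) ≤ 4 * c0 k * (p : ℝ) ^ (-(1 + (1 : ℝ))) := by
    have hw := (summable_nat_add_iff 2).2 (w4_summable k)
    have h5 : ∑' m : ℕ, w4 k (m + 2) ≤ c0 k := by
      have h6 := (w4_summable k).sum_add_tsum_nat_add 2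
      have h7 : 0 ≤ ∑ m ∈ range 2, w4 k m := sum_nonneg fun m _ => w4_nonneg k m
      unfold c0
      linarith
    calc ∑' m : ℕ, g4 s η (p ^ (m + 2)) ≤ ∑' m : ℕ, 4 * (p : ℝ) ^ (-(1 + (1 : ℝ))) * w4 k (m + 2) :=
          Summable.tsum_le_tsum h3 ((summable_nat_add_iff 2).2 hS) (hw.mul_left _)
      _ = 4 * (p : ℝ) ^ (-(1 + (1 : ℝ))) * ∑' m : ℕ, w4 k (m + 2) := tsum_mul_left
      _ ≤ 4 * (p : ℝ) ^ (-(1 + (1 : ℝ))) * c0 k := by gcongr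
      _ = _ := by ring
  have key : ∀ a b A B : ℝ, a ≤ A → b ≤ B → 1 + a + b ≤ Real.exp (A + B) := by
    intro a b A B ha hb
    have := Real.add_one_le_exp (A + B)
    linarith
  rw [← h1]
  exact key _ _ _ _ h2 h4

/-- the bound of the partial sums -/
lemma g4_sum {s : ℂ} {k : ℕ} (hs : ‖s‖ ≤ k) {η : ℝ} (hη : 0 < η) (hη1 : η ≤ 1) (N : ℕ) :
    ∑ n ∈ range N, g4 s η n ≤ Real.exp (8 * c0 k) * (2 / η) ^ ((16 : ℝ) ^ k) := by
  have hE := (EulerProduct.summable_and_hasSum_smoothNumbers_prod_primesBelow_tsum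
    (f := g4 s η) (g4_one s η) (fun h => g4_mul s h) (fun hp => g4_summable_p hs hη hp) N).2
  have h1 : ∑ n ∈ range N, g4 s η n ≤ ∏ p ∈ N.primesBelow, ∑' m : ℕ, g4 s η (p ^ m) := by
    have h2 : ∑ n ∈ range N, g4 s η n = ∑ n ∈ (range N).filter (fun n => n ≠ 0), g4 s η n := by
      rw [sum_filter]
      refine sum_congr rfl fun n _ => ?_
      split_ifs with h
      · rfl
      · push Not at h
        rw [h, g4_zero s hη]
    have h3 : ∀ n ∈ (range N).filter (fun n => n ≠ 0), n ∈ N.smoothNumbers := by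
      intro n hn
      rw [mem_filter, mem_range] at hn
      rw [Nat.mem_smoothNumbers']
      intro p _ hpn
      exact (Nat.le_of_dvd (Nat.pos_of_ne_zero hn.2) hpn).trans_lt hn.1
    classical
    rw [h2, ← sum_subtype_of_mem (g4 s η) h3]
    exact sum_le_hasSum _ (fun n _ => g4_nonneg s η n) hE
  refine h1.trans ?_
  have h2 : ∏ p ∈ N.primesBelow, ∑' m : ℕ, g4 s η (p ^ m) ≤
      ∏ p ∈ N.primesBelow, Real.exp (16 ^ k * (p : ℝ) ^ (-(1 + η)) +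
      4 * c0 k * (p : ℝ) ^ (-(1 + (1 : ℝ)))) := by
    apply Finset.prod_le_prod
    · intro p _
      exact tsum_nonneg fun m => g4_nonneg _ _ _
    · intro p hp
      exact local_bound4 hs hη (Nat.prime_of_mem_primesBelow hp)
  refine h2.trans ?_
  rw [← Real.exp_sum, sum_add_distrib, ← mul_sum, ← mul_sum]
  have h3 : ∑ p ∈ N.primesBelow, (p : ℝ) ^ (-(1 + (1 : ℝ))) ≤ 2 := by
    calc ∑ p ∈ N.primesBelow, (p : ℝ) ^ (-(1 + (1 : ℝ))) ≤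
          ∑ n ∈ range N, (n : ℝ) ^ (-(1 + (1 : ℝ))) := by
          apply sum_le_sum_of_subset_of_nonneg
          · exact filter_subset _ _
          · intro n _ _; positivity
      _ ≤ 1 + 1 / 1 := zeta_sum one_pos N
      _ = 2 := by norm_num
  have h4 := exp_primes hη N
  have h5 : 1 + 1 / η ≤ 2 / η := by
    rw [le_div_iff₀ hη, add_mul, one_div, inv_mul_cancel₀ hη.ne']
    linarith
  have hc : (0 : ℝ) ≤ 16 ^ k := by positivity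
  rw [Real.exp_add]
  have h6 : Real.exp (16 ^ k * ∑ p ∈ N.primesBelow, (p : ℝ) ^ (-(1 + η))) ≤
      (2 / η) ^ ((16 : ℝ) ^ k) := by
    rw [mul_comm, Real.exp_mul]
    exact Real.rpow_le_rpow (Real.exp_pos _).le (h4.trans h5) hc
  have h7 : Real.exp (4 * c0 k * ∑ p ∈ N.primesBelow, (p : ℝ) ^ (-(1 + (1 : ℝ)))) ≤
      Real.exp (8 * c0 k) := by
    apply Real.exp_le_exp.2
    have := mul_le_mul_of_nonneg_left h3 (show 0 ≤ 4 * c0 k from mul_nonneg (by norm_num) (c0_nonneg k))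
    linarith
  calc _ ≤ (2 / η) ^ ((16 : ℝ) ^ k) * Real.exp (8 * c0 k) :=
        mul_le_mul h6 h7 (Real.exp_pos _).le (by positivity)
    _ = _ := by ring

theorem t : Pool.Agent.H6F.S_DB := by
  intro k hk
  obtain ⟨K, hK⟩ := exists_nat_ge k
  have hs : ‖(k : ℂ)‖ ≤ (K : ℝ) := by
    rw [Complex.norm_real, Real.norm_of_nonneg hk.le]
    exact hK
  refine ⟨(16 : ℝ) ^ K, Real.exp (8 * c0 K) * (2 : ℝ) ^ ((16 : ℝ) ^ K), by positivity,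
    by positivity, fun δ hδ hδ1 => ?_⟩
  refine ⟨summable_of_sum_range_le (g4_nonneg (k : ℂ) δ) (g4_sum hs hδ hδ1), ?_⟩
  refine (Real.tsum_le_of_sum_range_le (g4_nonneg (k : ℂ) δ) (g4_sum hs hδ hδ1)).trans
    (le_of_eq ?_)
  rw [Real.div_rpow (by norm_num) hδ.le, Real.rpow_neg hδ.le, div_eq_mul_inv, mul_assoc]

end Pool.Agent.H6F.DB
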