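import Pool.Agent.H6F.Stm

/-!
# Stub DIAG of project H6F: the mean value over the shift of the diagonal series
-/

set_option autoImplicit false

namespace Pool.Agent.H6F.DIAG

open Filter MeasureTheory Topology Complex Finset
open Pool.Agent.N748.MG Pool.Agent.N748.MJ

/-! ### the coefficients -/

noncomputable def lr (k : ℝ) (m : ℕ) : ℝ := ∏ i ∈ range m, (k + i) / ((i : ℝ) + 1)

theorem lC_eq (k : ℝ) (m : ℕ) : lC (k : ℂ) m = ((lr k m : ℝ) : ℂ) := by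
  simp [lC, lr]

theorem lr_succ (k : ℝ) (m : ℕ) : lr k (m + 1) = lr k m * ((k + m) / ((m : ℝ) + 1)) := by
  unfold lr
  rw [Finset.prod_range_succ]

theorem lr_zero (k : ℝ) : lr k 0 = 1 := by simp [lr]

theorem lr_pos {k : ℝ} (hk : 0 < k) (m : ℕ) : 0 < lr k m :=
  Finset.prod_pos fun i _ => by positivity

theorem lr_mono {k K : ℝ} (hk : 0 < k) (h : k ≤ K) (m : ℕ) : lr k m ≤ lr K m :=
  Finset.prod_le_prod (fun i _ => by positivity) fun i _ => by gcongr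

theorem one_le_lr {K : ℝ} (h : 1 ≤ K) (m : ℕ) : 1 ≤ lr K m := by
  induction m with
  | zero => rw [lr_zero]
  | succ m ih =>
    rw [lr_succ]
    have h1 : 1 ≤ (K + m) / ((m : ℝ) + 1) := by
      rw [le_div_iff₀ (by positivity)]
      linarith
    calc (1 : ℝ) = 1 * 1 := by ring
      _ ≤ _ := mul_le_mul ih h1 zero_le_one (by linarith)

theorem lr_add {K : ℝ} (h : 1 ≤ K) (i j : ℕ) : lr K (i + j) ≤ lr K i * lr K j := by
  have hK : 0 < K := by linarith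
  induction j with
  | zero => rw [lr_zero, mul_one, add_zero]
  | succ j ih =>
    rw [← add_assoc, lr_succ, lr_succ, ← mul_assoc]
    apply mul_le_mul ih _ (by positivity) (mul_pos (lr_pos hK i) (lr_pos hK j)).le
    rw [div_le_div_iff₀ (by positivity) (by positivity)]
    push_cast
    have : 0 ≤ (K - 1) * (i : ℝ) := mul_nonneg (by linarith) (by positivity)
    nlinarith

noncomputable def w (k : ℝ) (n : ℕ) : ℝ := ∏ p ∈ n.primeFactors, lr k (n.factorization p)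

theorem dS_eq (k : ℝ) (n : ℕ) : dS (k : ℂ) n = ((w k n : ℝ) : ℂ) := by
  unfold dS w
  push_cast
  exact Finset.prod_congr rfl fun p _ => lC_eq k _

theorem w_pos {k : ℝ} (hk : 0 < k) (n : ℕ) : 0 < w k n := Finset.prod_pos fun p _ => lr_pos hk _

theorem norm_dS {k : ℝ} (hk : 0 < k) (n : ℕ) : ‖dS (k : ℂ) n‖ = w k n := by
  rw [dS_eq, Complex.norm_real, Real.norm_of_nonneg (w_pos hk n).le]

theorem w_mono {k K : ℝ} (hk : 0 < k) (h : k ≤ K) (n : ℕ) : w k n ≤ w K n :=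
  Finset.prod_le_prod (fun p _ => (lr_pos hk _).le) fun p _ => lr_mono hk h _

theorem one_le_w {K : ℝ} (h : 1 ≤ K) (n : ℕ) : 1 ≤ w K n := by
  unfold w
  have : ∏ p ∈ n.primeFactors, (1 : ℝ) ≤ ∏ p ∈ n.primeFactors, lr K (n.factorization p) :=
    Finset.prod_le_prod (fun p _ => zero_le_one) fun p _ => one_le_lr h _
  simpa using this

theorem w_eq {K : ℝ} (n : ℕ) (S : Finset ℕ) (hS : n.primeFactors ⊆ S) :
    w K n = ∏ p ∈ S, lr K (n.factorization p) := by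
  unfold w
  apply Finset.prod_subset hS
  intro p _ hp
  have : n.factorization p = 0 := by
    rw [← Finsupp.notMem_support_iff]
    exact hp
  rw [this, lr_zero]

theorem w_mul {K : ℝ} (h : 1 ≤ K) {m n : ℕ} (hm : m ≠ 0) (hn : n ≠ 0) :
    w K (m * n) ≤ w K m * w K n := by
  have hK : 0 < K := by linarith
  rw [w_eq (m * n) (m.primeFactors ∪ n.primeFactors) (by rw [Nat.primeFactors_mul hm hn]),
    w_eq m (m.primeFactors ∪ n.primeFactors) Finset.subset_union_left,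
    w_eq n (m.primeFactors ∪ n.primeFactors) Finset.subset_union_right, ← Finset.prod_mul_distrib]
  apply Finset.prod_le_prod (fun p _ => (lr_pos hK _).le)
  intro p _
  rw [Nat.factorization_mul hm hn]
  exact lr_add h _ _

/-! ### the square of the absolute value -/

theorem cv_eq (k h : ℝ) (n : ℕ) : cv k h n = ∑ q ∈ n.divisorsAntidiagonal,
    (((w k q.1 * w k q.2 : ℝ) : ℂ) * Complex.exp (((-(h * Real.log q.2) : ℝ) : ℂ) * I)) := by
  unfold cv
  apply Finset.sum_congr rfl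
  intro q hq
  have h2 : q.2 ≠ 0 := by
    have := (Nat.mem_divisorsAntidiagonal.1 hq)
    intro h0
    rw [h0] at this
    exact this.2 (by rw [← this.1, mul_zero])
  rw [dS_eq, dS_eq, Complex.cpow_def_of_ne_zero (by exact_mod_cast h2)]
  push_cast
  rw [← mul_assoc]
  congr 2
  rw [← Complex.natCast_log]
  ring

theorem cv_sq (k h : ℝ) (n : ℕ) : ‖cv k h n‖ ^ 2 = ∑ q ∈ n.divisorsAntidiagonal,
    ∑ r ∈ n.divisorsAntidiagonal, (w k q.1 * w k q.2) * (w k r.1 * w k r.2) *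
      Real.cos (h * (Real.log q.2 - Real.log r.2)) := by
  rw [Complex.sq_norm, Complex.normSq_apply]
  have hre : (cv k h n).re = ∑ q ∈ n.divisorsAntidiagonal,
      (w k q.1 * w k q.2) * Real.cos (h * Real.log q.2) := by
    rw [cv_eq, Complex.re_sum]
    apply Finset.sum_congr rfl
    intro q _
    rw [Complex.re_ofReal_mul, Complex.exp_ofReal_mul_I_re, Real.cos_neg]
  have him : (cv k h n).im = -∑ q ∈ n.divisorsAntidiagonal,
      (w k q.1 * w k q.2) * Real.sin (h * Real.log q.2) := by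
    rw [cv_eq, Complex.im_sum, ← Finset.sum_neg_distrib]
    apply Finset.sum_congr rfl
    intro q _
    rw [Complex.im_ofReal_mul, Complex.exp_ofReal_mul_I_im, Real.sin_neg]
    ring
  rw [hre, him, neg_mul_neg, Finset.sum_mul_sum, Finset.sum_mul_sum, ← Finset.sum_add_distrib]
  apply Finset.sum_congr rfl
  intro q _
  rw [← Finset.sum_add_distrib]
  apply Finset.sum_congr rfl
  intro r _
  rw [mul_sub, Real.cos_sub]
  ring

theorem int_cos (H x ω : ℝ) (hω : ω ≠ 0) :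
    ∫ y in (0:ℝ)..H, Real.cos ((y - x) * ω) ≤ 2 / |ω| := by
  have h1 : ∀ y, HasDerivAt (fun y : ℝ => Real.sin ((y - x) * ω) / ω) (Real.cos ((y - x) * ω)) y := by
    intro y
    have h2 : HasDerivAt (fun y : ℝ => (y - x) * ω) ω y := by
      simpa using ((hasDerivAt_id y).sub_const x).mul_const ω
    have h3 := (h2.sin).div_const ω
    have e : Real.cos ((y - x) * ω) * ω / ω = Real.cos ((y - x) * ω) := by
      field_simp
    rwa [e] at h3
  rw [intervalIntegral.integral_eq_sub_of_hasDerivAt (fun y _ => h1 y)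
    ((by fun_prop : Continuous fun y : ℝ => Real.cos ((y - x) * ω)).intervalIntegrable _ _)]
  have h4 : |Real.sin ((H - x) * ω) / ω| ≤ 1 / |ω| := by
    rw [abs_div]
    exact div_le_div_of_nonneg_right (Real.abs_sin_le_one _) (abs_nonneg _)
  have h5 : |Real.sin ((0 - x) * ω) / ω| ≤ 1 / |ω| := by
    rw [abs_div]
    exact div_le_div_of_nonneg_right (Real.abs_sin_le_one _) (abs_nonneg _)
  have h6 := (abs_le.1 h4).2
  have h7 := (abs_le.1 h5).1
  have e : 2 / |ω| = 1 / |ω| + 1 / |ω| := by ring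
  linarith

/-- the kernel -/
noncomputable def kap (H : ℝ) (b c : ℕ) : ℝ :=
  if b = c then H else 2 / |Real.log b - Real.log c|

theorem kap_nonneg {H : ℝ} (hH : 0 < H) (b c : ℕ) : 0 ≤ kap H b c := by
  unfold kap
  split_ifs
  · exact hH.le
  · positivity

theorem int_cv (k H x : ℝ) (hk : 0 < k) (n : ℕ) :
    ∫ y in (0:ℝ)..H, ‖cv k (y - x) n‖ ^ 2 ≤ ∑ q ∈ n.divisorsAntidiagonal,
    ∑ r ∈ n.divisorsAntidiagonal, (w k q.1 * w k q.2) * (w k r.1 * w k r.2) * kap H q.2 r.2 := by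
  simp_rw [cv_sq]
  rw [intervalIntegral.integral_finset_sum]
  swap
  · intro q _
    exact (by fun_prop : Continuous _).intervalIntegrable _ _
  apply Finset.sum_le_sum
  intro q hq
  rw [intervalIntegral.integral_finset_sum]
  swap
  · intro q _
    exact (by fun_prop : Continuous _).intervalIntegrable _ _
  apply Finset.sum_le_sum
  intro r hr
  rw [intervalIntegral.integral_const_mul]
  apply mul_le_mul_of_nonneg_left _
    (mul_pos (mul_pos (w_pos hk _) (w_pos hk _)) (mul_pos (w_pos hk _) (w_pos hk _))).le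
  unfold kap
  have hq2 : q.2 ≠ 0 := by
    have := (Nat.mem_divisorsAntidiagonal.1 hq)
    intro h0
    rw [h0] at this
    exact this.2 (by rw [← this.1, mul_zero])
  have hr2 : r.2 ≠ 0 := by
    have := (Nat.mem_divisorsAntidiagonal.1 hr)
    intro h0
    rw [h0] at this
    exact this.2 (by rw [← this.1, mul_zero])
  split_ifs with h
  · rw [h]
    simp
  · apply int_cos
    intro h0
    apply h
    have h1 : Real.log (q.2 : ℝ) = Real.log (r.2 : ℝ) := by linarith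
    have h2 := Real.log_injOn_pos (by simpa using Nat.pos_of_ne_zero hq2 : (q.2 : ℝ) ∈ Set.Ioi 0)
      (by simpa using Nat.pos_of_ne_zero hr2 : (r.2 : ℝ) ∈ Set.Ioi 0) h1
    exact_mod_cast h2

/-! ### sums of extended nonnegative numbers -/

theorem sum_eq_tsum {α : Type} [DecidableEq α] (s : Finset α) (φ : α → ENNReal) :
    ∑ q ∈ s, φ q = ∑' q, if q ∈ s then φ q else 0 := by
  rw [tsum_eq_sum (s := s)]
  · apply Finset.sum_congr rfl
    intro q hq
    rw [if_pos hq]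
  · intro q hq
    rw [if_neg hq]

theorem fib (φ : ℕ × ℕ → ENNReal) :
    ∑' n : ℕ, ∑ q ∈ n.divisorsAntidiagonal, φ q ≤ ∑' q, φ q := by
  simp_rw [sum_eq_tsum]
  rw [ENNReal.tsum_comm]
  apply ENNReal.tsum_le_tsum
  intro q
  rw [tsum_eq_single (q.1 * q.2)]
  · split_ifs
    · exact le_rfl
    · exact bot_le
  · intro n hn
    rw [if_neg]
    intro h
    exact hn (Nat.mem_divisorsAntidiagonal.1 h).1.symm

/-- the condition of the quadruples -/
def Cond (z : ℕ × ℕ × ℕ × ℕ) : Prop :=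
  0 < z.1 ∧ 0 < z.2.1 ∧ 0 < z.2.2.1 ∧ 0 < z.2.2.2 ∧ z.1 * z.2.1 = z.2.2.1 * z.2.2.2 ∧
      z.2.1 ≠ z.2.2.2

open Classical in
theorem fib2 (f : ℕ → ℕ → ℕ → ℕ → ENNReal) :
    ∑' n : ℕ, ∑ q ∈ n.divisorsAntidiagonal, ∑ r ∈ n.divisorsAntidiagonal,
      (if q.2 ≠ r.2 then f q.1 q.2 r.1 r.2 else 0) ≤
    ∑' z : {z : ℕ × ℕ × ℕ × ℕ // Cond z}, f z.1.1 z.1.2.1 z.1.2.2.1 z.1.2.2.2 := by
  have h1 : ∀ n : ℕ, ∑ q ∈ n.divisorsAntidiagonal, ∑ r ∈ n.divisorsAntidiagonal,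
      (if q.2 ≠ r.2 then f q.1 q.2 r.1 r.2 else 0) =
      ∑' p : (ℕ × ℕ) × (ℕ × ℕ), if p ∈ n.divisorsAntidiagonal ×ˢ n.divisorsAntidiagonal then
        (if p.1.2 ≠ p.2.2 then f p.1.1 p.1.2 p.2.1 p.2.2 else 0) else 0 := by
    intro n
    rw [← sum_eq_tsum, Finset.sum_product]
  simp_rw [h1]
  rw [ENNReal.tsum_comm]
  have h2 : ∀ p : (ℕ × ℕ) × (ℕ × ℕ),
      ∑' n : ℕ, (if p ∈ n.divisorsAntidiagonal ×ˢ n.divisorsAntidiagonal then
        (if p.1.2 ≠ p.2.2 then f p.1.1 p.1.2 p.2.1 p.2.2 else 0) else 0) ≤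
      (fun z : ℕ × ℕ × ℕ × ℕ => Set.indicator {z | Cond z}
        (fun z => f z.1 z.2.1 z.2.2.1 z.2.2.2) z) (Equiv.prodAssoc ℕ ℕ (ℕ × ℕ) p) := by
    rintro ⟨⟨a, b⟩, ⟨a', b'⟩⟩
    rw [tsum_eq_single (a * b)]
    · simp only [Equiv.prodAssoc_apply]
      split_ifs with h3 h4
      · rw [Set.indicator_of_mem]
        rw [Finset.mem_product, Nat.mem_divisorsAntidiagonal, Nat.mem_divisorsAntidiagonal] at h3
        obtain ⟨⟨_, h5⟩, h6, _⟩ := h3
        simp only at h5 h6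
        have ha : a ≠ 0 := fun h => h5 (by rw [h, zero_mul])
        have hb : b ≠ 0 := fun h => h5 (by rw [h, mul_zero])
        have ha' : a' ≠ 0 := fun h => h5 (by rw [← h6, h, zero_mul])
        have hb' : b' ≠ 0 := fun h => h5 (by rw [← h6, h, mul_zero])
        exact ⟨Nat.pos_of_ne_zero ha, Nat.pos_of_ne_zero hb, Nat.pos_of_ne_zero ha',
          Nat.pos_of_ne_zero hb', h6.symm, h4⟩
      · exact bot_le
      · exact bot_le
    · intro n hn
      rw [if_neg]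
      intro h
      rw [Finset.mem_product, Nat.mem_divisorsAntidiagonal] at h
      exact hn h.1.1.symm
  refine (ENNReal.tsum_le_tsum h2).trans ?_
  rw [(Equiv.prodAssoc ℕ ℕ (ℕ × ℕ)).tsum_eq (fun z : ℕ × ℕ × ℕ × ℕ => Set.indicator {z | Cond z}
        (fun z => f z.1 z.2.1 z.2.2.1 z.2.2.2) z)]
  rw [← _root_.tsum_subtype {z | Cond z} (fun z => f z.1 z.2.1 z.2.2.1 z.2.2.2)]
  exact le_rfl

/-! ### the majorant -/

noncomputable def zr (δ : ℝ) (n : ℕ) : ℝ := (n : ℝ) ^ (-(1 + δ))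

noncomputable def vr (K δ : ℝ) (n : ℕ) : ℝ := w K n ^ 4 * (n : ℝ) ^ (-(1 + δ))

theorem zr_nonneg (δ : ℝ) (n : ℕ) : 0 ≤ zr δ n := Real.rpow_nonneg (Nat.cast_nonneg n) _

theorem vr_nonneg (K δ : ℝ) (n : ℕ) : 0 ≤ vr K δ n :=
  mul_nonneg (by positivity) (Real.rpow_nonneg (Nat.cast_nonneg n) _)

theorem zr_zero {δ : ℝ} (hδ : 0 < δ) : zr δ 0 = 0 := by
  unfold zr
  rw [Nat.cast_zero, Real.zero_rpow (by linarith)]

theorem zr_le_vr {K : ℝ} (hK : 1 ≤ K) (δ : ℝ) (n : ℕ) : zr δ n ≤ vr K δ n := by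
  unfold zr vr
  have h1 : 1 ≤ w K n ^ 4 := one_le_pow₀ (one_le_w hK n)
  have h2 : 0 ≤ (n : ℝ) ^ (-(1 + δ)) := Real.rpow_nonneg (Nat.cast_nonneg n) _
  nlinarith

/-- the bound of a pair -/
noncomputable def Pr (K δ : ℝ) (x y : ℕ) : ℝ :=
  (vr K δ x + vr K δ y) * (zr δ (y - x) + zr δ (x - y)) + vr K δ y * zr δ x + vr K δ x * zr δ y

theorem Pr_nonneg (K δ : ℝ) (x y : ℕ) : 0 ≤ Pr K δ x y := by
  unfold Pr
  have := vr_nonneg K δ x
  have := vr_nonneg K δ y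
  have := zr_nonneg δ (y - x)
  have := zr_nonneg δ (x - y)
  have := zr_nonneg δ x
  have := zr_nonneg δ y
  positivity

theorem real_core {X Y D δ : ℝ} (hX : 1 ≤ X) (hD : 1 ≤ D) (hY : Y = X + D) (hδ : 0 < δ) :
    (X * Y) ^ (-(1 + 2 * δ)) / (Real.log Y - Real.log X) ≤ X ^ (-(1 + δ)) * D ^ (-(1 + δ)) ∧
    (X * Y) ^ (-(1 + 2 * δ)) / (Real.log Y - Real.log X) ≤
      Y ^ (-(1 + δ)) * (X ^ (-(1 + δ)) + D ^ (-(1 + δ))) := by
  have hX0 : 0 < X := by linarith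
  have hD0 : 0 < D := by linarith
  have hY0 : 0 < Y := by linarith
  have hY1 : 1 ≤ Y := by linarith
  have hlog : D / Y ≤ Real.log Y - Real.log X := by
    rw [← Real.log_div hY0.ne' hX0.ne']
    have h1 := Real.one_sub_inv_le_log_of_pos (div_pos hY0 hX0)
    have h2 : 1 - (Y / X)⁻¹ = D / Y := by
      rw [hY]
      have : X + D ≠ 0 := by linarith
      field_simp
      ring
    linarith
  have hDY : 0 < D / Y := div_pos hD0 hY0
  have hE : (X * Y) ^ (-(1 + 2 * δ)) / (Real.log Y - Real.log X) ≤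
      X ^ (-(1 + 2 * δ)) * Y ^ (-(2 * δ)) * D⁻¹ := by
    have h1 : (X * Y) ^ (-(1 + 2 * δ)) / (Real.log Y - Real.log X) ≤
        (X * Y) ^ (-(1 + 2 * δ)) / (D / Y) :=
      div_le_div_of_nonneg_left (Real.rpow_nonneg (by positivity) _) hDY hlog
    refine h1.trans (le_of_eq ?_)
    rw [Real.mul_rpow hX0.le hY0.le, div_div_eq_mul_div]
    have h2 : Y ^ (-(1 + 2 * δ)) * Y = Y ^ (-(2 * δ)) := by
      rw [← Real.rpow_add_one hY0.ne']
      congr 1
      ring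
    rw [mul_assoc, h2]
    rfl
  constructor
  · refine hE.trans ?_
    have h1 : X ^ (-(1 + 2 * δ)) ≤ X ^ (-(1 + δ)) :=
      Real.rpow_le_rpow_of_exponent_le hX (by linarith)
    have h2 : Y ^ (-(2 * δ)) ≤ D ^ (-δ) :=
      (Real.rpow_le_rpow_of_exponent_le hY1 (by linarith)).trans
        (Real.rpow_le_rpow_of_nonpos hD0 (by linarith) (by linarith))
    have h3 : D ^ (-(1 + δ)) = D ^ (-δ) * D⁻¹ := by
      rw [← Real.rpow_neg_one, ← Real.rpow_add hD0]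
      congr 1
      ring
    rw [h3, ← mul_assoc]
    apply mul_le_mul_of_nonneg_right _ (inv_pos.2 hD0).le
    exact mul_le_mul h1 h2 (Real.rpow_nonneg hY0.le _) (Real.rpow_nonneg hX0.le _)
  · refine hE.trans ?_
    have h1 : X ^ (-(1 + 2 * δ)) ≤ X⁻¹ := by
      rw [← Real.rpow_neg_one]
      exact Real.rpow_le_rpow_of_exponent_le hX (by linarith)
    have h2 : X ^ (-(1 + 2 * δ)) * Y ^ (-(2 * δ)) * D⁻¹ ≤ X⁻¹ * Y ^ (-(2 * δ)) * D⁻¹ := by
      apply mul_le_mul_of_nonneg_right _ (inv_pos.2 hD0).le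
      exact mul_le_mul_of_nonneg_right h1 (Real.rpow_nonneg hY0.le _)
    refine h2.trans ?_
    have h3 : X⁻¹ * Y ^ (-(2 * δ)) * D⁻¹ = Y ^ (-(1 + δ)) * (Y ^ (-δ) * (X⁻¹ + D⁻¹)) := by
      have h4 : Y ^ (-(2 * δ)) = Y ^ (-(1 + δ)) * Y ^ (-δ) * Y := by
        rw [← Real.rpow_add hY0, ← Real.rpow_add_one hY0.ne']
        congr 1
        ring
      rw [h4]
      have h5 : Y * (X⁻¹ * D⁻¹) = X⁻¹ + D⁻¹ := by
        rw [hY]
        field_simp
        ring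
      rw [← h5]
      ring
    rw [h3]
    apply mul_le_mul_of_nonneg_left _ (Real.rpow_nonneg hY0.le _)
    rw [mul_add]
    apply add_le_add
    · have h4 : X ^ (-(1 + δ)) = X ^ (-δ) * X⁻¹ := by
        rw [← Real.rpow_neg_one, ← Real.rpow_add hX0]
        congr 1
        ring
      rw [h4]
      apply mul_le_mul_of_nonneg_right _ (inv_pos.2 hX0).le
      exact Real.rpow_le_rpow_of_nonpos hX0 (by linarith) (by linarith)
    · have h4 : D ^ (-(1 + δ)) = D ^ (-δ) * D⁻¹ := by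
        rw [← Real.rpow_neg_one, ← Real.rpow_add hD0]
        congr 1
        ring
      rw [h4]
      apply mul_le_mul_of_nonneg_right _ (inv_pos.2 hD0).le
      exact Real.rpow_le_rpow_of_nonpos hD0 (by linarith) (by linarith)

theorem pair_lt {K δ : ℝ} (hδ : 0 < δ) {x y : ℕ} (hx : 0 < x) (hxy : x < y) :
    w K x ^ 2 * w K y ^ 2 * (((x : ℝ) * y) ^ (-(1 + 2 * δ)) / |Real.log x - Real.log y|) ≤
      Pr K δ x y := by
  have hX : (1 : ℝ) ≤ x := by exact_mod_cast hx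
  have hD : (1 : ℝ) ≤ ((y - x : ℕ) : ℝ) := by
    have : 1 ≤ y - x := by omega
    exact_mod_cast this
  have hY : (y : ℝ) = x + ((y - x : ℕ) : ℝ) := by
    rw [Nat.cast_sub hxy.le]
    ring
  obtain ⟨h1, h2⟩ := real_core hX hD hY hδ
  have hlog : |Real.log x - Real.log y| = Real.log y - Real.log x := by
    rw [abs_sub_comm, abs_of_nonneg]
    have : Real.log (x : ℝ) ≤ Real.log (y : ℝ) :=
      Real.log_le_log (by positivity) (by exact_mod_cast hxy.le)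
    linarith
  rw [hlog]
  set E := ((x : ℝ) * y) ^ (-(1 + 2 * δ)) / (Real.log y - Real.log x) with hE
  have hE0 : 0 ≤ E := by
    rw [hE, ← hlog]
    exact div_nonneg (Real.rpow_nonneg (by positivity) _) (abs_nonneg _)
  have h3 : w K x ^ 2 * w K y ^ 2 ≤ w K x ^ 4 + w K y ^ 4 := by
    nlinarith [sq_nonneg (w K x ^ 2 - w K y ^ 2), sq_nonneg (w K x ^ 2), sq_nonneg (w K y ^ 2)]
  have hx4 : 0 ≤ w K x ^ 4 := by positivity
  have hy4 : 0 ≤ w K y ^ 4 := by positivity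
  calc w K x ^ 2 * w K y ^ 2 * E ≤ (w K x ^ 4 + w K y ^ 4) * E := mul_le_mul_of_nonneg_right h3 hE0
    _ = w K x ^ 4 * E + w K y ^ 4 * E := by ring
    _ ≤ w K x ^ 4 * ((x : ℝ) ^ (-(1 + δ)) * ((y - x : ℕ) : ℝ) ^ (-(1 + δ))) +
        w K y ^ 4 * ((y : ℝ) ^ (-(1 + δ)) * ((x : ℝ) ^ (-(1 + δ)) + ((y - x : ℕ) : ℝ) ^ (-(1 + δ)))) :=
        add_le_add (mul_le_mul_of_nonneg_left h1 hx4) (mul_le_mul_of_nonneg_left h2 hy4)
    _ = vr K δ x * zr δ (y - x) + vr K δ y * zr δ (y - x) + vr K δ y * zr δ x := by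
        unfold vr zr
        ring
    _ ≤ Pr K δ x y := by
        unfold Pr
        have := vr_nonneg K δ x
        have := vr_nonneg K δ y
        have := zr_nonneg δ (y - x)
        have := zr_nonneg δ (x - y)
        have := zr_nonneg δ x
        have := zr_nonneg δ y
        have h5 : 0 ≤ (vr K δ x + vr K δ y) * zr δ (x - y) := by positivity
        have h6 : 0 ≤ vr K δ x * zr δ y := by positivity
        nlinarith

theorem pair {K δ : ℝ} (hδ : 0 < δ) {x y : ℕ} (hx : 0 < x) (hy : 0 < y) (hxy : x ≠ y) :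
    w K x ^ 2 * w K y ^ 2 * (((x : ℝ) * y) ^ (-(1 + 2 * δ)) / |Real.log x - Real.log y|) ≤
      Pr K δ x y := by
  rcases lt_or_gt_of_ne hxy with h | h
  · exact pair_lt hδ hx h
  · have h1 := pair_lt (K := K) hδ hy h
    have e : Pr K δ y x = Pr K δ x y := by
      unfold Pr
      ring
    rw [e, mul_comm (w K y ^ 2), mul_comm (y : ℝ), abs_sub_comm] at h1
    exact h1

/-- the terms -/
noncomputable def ff (k δ : ℝ) (a b a' b' : ℕ) : ℝ :=
  (w k a * w k b) * (w k a' * w k b') * (((a * b : ℕ) : ℝ) ^ (-(1 + 2 * δ))) *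
    (2 / |Real.log b - Real.log b'|)

theorem sq_le {K δ : ℝ} (hK : 1 ≤ K) (hδ : 0 < δ) {m : ℕ} (hm : 0 < m) :
    w K m ^ 2 * (m : ℝ) ^ (-(1 + 2 * δ)) ≤ vr K δ m := by
  unfold vr
  have h1 := one_le_w hK m
  have h2 : w K m ^ 2 ≤ w K m ^ 4 := pow_le_pow_right₀ h1 (by norm_num)
  have hm1 : (1 : ℝ) ≤ m := by exact_mod_cast hm
  exact mul_le_mul h2 (Real.rpow_le_rpow_of_exponent_le hm1 (by linarith))
    (Real.rpow_nonneg (by positivity) _) (by positivity)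

theorem ff_le {k K δ : ℝ} (hk : 0 < k) (hkK : k ≤ K) (hK : 1 ≤ K) (hδ : 0 < δ) {g m x y : ℕ}
    (hg : 0 < g) (hm : 0 < m) (hx : 0 < x) (hy : 0 < y) (hxy : x ≠ y) :
    ff k δ (m * y) (g * x) (m * x) (g * y) ≤ 2 * (vr K δ g * (vr K δ m * Pr K δ x y)) := by
  have hb : ∀ {a b : ℕ}, 0 < a → 0 < b → w k (a * b) ≤ w K a * w K b := fun {a b} ha hb =>
    (w_mono hk hkK _).trans (w_mul hK ha.ne' hb.ne')
  have hK0 : 0 < K := by linarith
  have e1 : |Real.log ((g * x : ℕ) : ℝ) - Real.log ((g * y : ℕ) : ℝ)| = |Real.log x - Real.log y| := by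
    push_cast
    rw [Real.log_mul (by positivity) (by positivity), Real.log_mul (by positivity) (by positivity)]
    congr 1
    ring
  have e2 : ((m * y * (g * x) : ℕ) : ℝ) ^ (-(1 + 2 * δ)) =
      (m : ℝ) ^ (-(1 + 2 * δ)) * (g : ℝ) ^ (-(1 + 2 * δ)) * ((x : ℝ) * y) ^ (-(1 + 2 * δ)) := by
    push_cast
    rw [← Real.mul_rpow (by positivity) (by positivity),
      ← Real.mul_rpow (by positivity) (by positivity)]
    congr 1
    ring
  unfold ff
  rw [e1, e2]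
  have hW : (w k (m * y) * w k (g * x)) * (w k (m * x) * w k (g * y)) ≤
      ((w K m * w K y) * (w K g * w K x)) * ((w K m * w K x) * (w K g * w K y)) := by
    have p1 := w_pos hK0 m
    have p2 := w_pos hK0 g
    have p3 := w_pos hK0 x
    have p4 := w_pos hK0 y
    have q1 := w_pos hk (m * y)
    have q2 := w_pos hk (g * x)
    have q3 := w_pos hk (m * x)
    have q4 := w_pos hk (g * y)
    apply mul_le_mul _ _ (by positivity) (by positivity)
    · exact mul_le_mul (hb hm hy) (hb hg hx) q2.le (by positivity)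
    · exact mul_le_mul (hb hm hx) (hb hg hy) q4.le (by positivity)
  have h1 := sq_le hK hδ hm
  have h2 := sq_le hK hδ hg
  have h3 := pair (K := K) hδ hx hy hxy
  have n1 : 0 ≤ (m : ℝ) ^ (-(1 + 2 * δ)) := Real.rpow_nonneg (by positivity) _
  have n2 : 0 ≤ (g : ℝ) ^ (-(1 + 2 * δ)) := Real.rpow_nonneg (by positivity) _
  have n3 : 0 ≤ ((x : ℝ) * y) ^ (-(1 + 2 * δ)) := Real.rpow_nonneg (by positivity) _
  have n4 : 0 ≤ 2 / |Real.log x - Real.log y| := by positivity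
  calc (w k (m * y) * w k (g * x)) * (w k (m * x) * w k (g * y)) *
        ((m : ℝ) ^ (-(1 + 2 * δ)) * (g : ℝ) ^ (-(1 + 2 * δ)) * ((x : ℝ) * y) ^ (-(1 + 2 * δ))) *
        (2 / |Real.log x - Real.log y|)
      ≤ ((w K m * w K y) * (w K g * w K x)) * ((w K m * w K x) * (w K g * w K y)) *
        ((m : ℝ) ^ (-(1 + 2 * δ)) * (g : ℝ) ^ (-(1 + 2 * δ)) * ((x : ℝ) * y) ^ (-(1 + 2 * δ))) *
        (2 / |Real.log x - Real.log y|) := by
        apply mul_le_mul_of_nonneg_right _ n4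
        exact mul_le_mul_of_nonneg_right hW (by positivity)
    _ = 2 * ((w K g ^ 2 * (g : ℝ) ^ (-(1 + 2 * δ))) * ((w K m ^ 2 * (m : ℝ) ^ (-(1 + 2 * δ))) *
        (w K x ^ 2 * w K y ^ 2 * (((x : ℝ) * y) ^ (-(1 + 2 * δ)) / |Real.log x - Real.log y|)))) := by
        ring
    _ ≤ 2 * (vr K δ g * (vr K δ m * Pr K δ x y)) := by
        apply mul_le_mul_of_nonneg_left _ (by norm_num)
        apply mul_le_mul h2 _ (by positivity) (vr_nonneg _ _ _)
        exact mul_le_mul h1 h3 (by positivity) (vr_nonneg _ _ _)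

/-! ### the sums of the majorant -/

noncomputable def ze (δ : ℝ) (n : ℕ) : ENNReal := ENNReal.ofReal (zr δ n)

noncomputable def ve (K δ : ℝ) (n : ℕ) : ENNReal := ENNReal.ofReal (vr K δ n)

theorem ze_zero {δ : ℝ} (hδ : 0 < δ) : ze δ 0 = 0 := by
  unfold ze
  rw [zr_zero hδ, ENNReal.ofReal_zero]

theorem sum_ze_left {δ : ℝ} (hδ : 0 < δ) (x : ℕ) : ∑' y : ℕ, ze δ (y - x) ≤ ∑' j, ze δ j := by
  have h1 : ∀ y : ℕ, ze δ (y - x) ≤ ∑' j, if y = x + j then ze δ j else 0 := by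
    intro y
    rcases Nat.lt_or_ge y x with h | h
    · rw [Nat.sub_eq_zero_of_le h.le, ze_zero hδ]
      exact bot_le
    · have h2 := ENNReal.le_tsum (f := fun j => if y = x + j then ze δ j else 0) (y - x)
      rwa [if_pos (by omega)] at h2
  refine (ENNReal.tsum_le_tsum h1).trans ?_
  rw [ENNReal.tsum_comm]
  apply ENNReal.tsum_le_tsum
  intro j
  rw [tsum_ite_eq]

theorem sum_ze_right {δ : ℝ} (hδ : 0 < δ) (x : ℕ) : ∑' y : ℕ, ze δ (x - y) ≤ ∑' j, ze δ j := by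
  have h1 : ∀ y : ℕ, ze δ (x - y) ≤ ∑' j, if y + j = x then ze δ j else 0 := by
    intro y
    rcases Nat.lt_or_ge x y with h | h
    · rw [Nat.sub_eq_zero_of_le h.le, ze_zero hδ]
      exact bot_le
    · have h2 := ENNReal.le_tsum (f := fun j => if y + j = x then ze δ j else 0) (x - y)
      rwa [if_pos (by omega)] at h2
  refine (ENNReal.tsum_le_tsum h1).trans ?_
  rw [ENNReal.tsum_comm]
  apply ENNReal.tsum_le_tsum
  intro j
  rw [tsum_eq_single (x - j)]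
  · split_ifs
    · exact le_rfl
    · exact bot_le
  · intro y hy
    rw [if_neg]
    omega

theorem Pr_ofReal (K δ : ℝ) (x y : ℕ) : ENNReal.ofReal (Pr K δ x y) =
    (ve K δ x * ze δ (y - x) + ve K δ x * ze δ (x - y)) +
    (ze δ (y - x) * ve K δ y + ze δ (x - y) * ve K δ y) +
    (ze δ x * ve K δ y + ve K δ x * ze δ y) := by
  unfold Pr ve ze
  have a1 := vr_nonneg K δ x
  have a2 := vr_nonneg K δ y
  have a3 := zr_nonneg δ (y - x)
  have a4 := zr_nonneg δ (x - y)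
  have a5 := zr_nonneg δ x
  have a6 := zr_nonneg δ y
  rw [ENNReal.ofReal_add (by positivity) (by positivity),
    ENNReal.ofReal_add (by positivity) (by positivity), ENNReal.ofReal_mul (by positivity),
    ENNReal.ofReal_add a1 a2, ENNReal.ofReal_add a3 a4, ENNReal.ofReal_mul a2,
    ENNReal.ofReal_mul a1]
  ring

theorem sum_Pr {K δ : ℝ} (hδ : 0 < δ) :
    ∑' x : ℕ, ∑' y : ℕ, ENNReal.ofReal (Pr K δ x y) ≤
      6 * ((∑' n, ve K δ n) * ∑' n, ze δ n) := by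
  simp_rw [Pr_ofReal, ENNReal.tsum_add]
  set V := ∑' n, ve K δ n with hV
  set Z := ∑' n, ze δ n with hZ
  have s1 : ∑' x : ℕ, ∑' y : ℕ, ve K δ x * ze δ (y - x) ≤ V * Z := by
    simp_rw [ENNReal.tsum_mul_left]
    rw [← ENNReal.tsum_mul_right]
    exact ENNReal.tsum_le_tsum fun x => mul_le_mul_right (sum_ze_left hδ x) _
  have s2 : ∑' x : ℕ, ∑' y : ℕ, ve K δ x * ze δ (x - y) ≤ V * Z := by
    simp_rw [ENNReal.tsum_mul_left]
    rw [← ENNReal.tsum_mul_right]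
    exact ENNReal.tsum_le_tsum fun x => mul_le_mul_right (sum_ze_right hδ x) _
  have s3 : ∑' x : ℕ, ∑' y : ℕ, ze δ (y - x) * ve K δ y ≤ V * Z := by
    rw [ENNReal.tsum_comm]
    simp_rw [ENNReal.tsum_mul_right]
    rw [mul_comm V, ← ENNReal.tsum_mul_left]
    exact ENNReal.tsum_le_tsum fun y => mul_le_mul_left (sum_ze_right hδ y) _
  have s4 : ∑' x : ℕ, ∑' y : ℕ, ze δ (x - y) * ve K δ y ≤ V * Z := by
    rw [ENNReal.tsum_comm]
    simp_rw [ENNReal.tsum_mul_right]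
    rw [mul_comm V, ← ENNReal.tsum_mul_left]
    exact ENNReal.tsum_le_tsum fun y => mul_le_mul_left (sum_ze_left hδ y) _
  have s5 : ∑' x : ℕ, ∑' y : ℕ, ze δ x * ve K δ y ≤ V * Z := by
    simp_rw [ENNReal.tsum_mul_left]
    rw [ENNReal.tsum_mul_right, mul_comm]
  have s6 : ∑' x : ℕ, ∑' y : ℕ, ve K δ x * ze δ y ≤ V * Z := by
    simp_rw [ENNReal.tsum_mul_left]
    rw [ENNReal.tsum_mul_right]
  calc _ ≤ (V * Z + V * Z) + (V * Z + V * Z) + (V * Z + V * Z) :=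
        add_le_add (add_le_add (add_le_add s1 s2) (add_le_add s3 s4)) (add_le_add s5 s6)
    _ = 6 * (V * Z) := by ring

theorem sum_off (h' : S_GCDP) {k K δ : ℝ} (hk : 0 < k) (hkK : k ≤ K) (hK : 1 ≤ K) (hδ : 0 < δ) :
    ∑' z : {z : ℕ × ℕ × ℕ × ℕ // Cond z},
      ENNReal.ofReal (ff k δ z.1.1 z.1.2.1 z.1.2.2.1 z.1.2.2.2) ≤
    12 * (∑' n, ve K δ n) ^ 4 := by
  set V := ∑' n, ve K δ n with hV
  have hZV : ∑' n, ze δ n ≤ V :=
    ENNReal.tsum_le_tsum fun n => ENNReal.ofReal_le_ofReal (zr_le_vr hK δ n)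
  refine (h' fun a b a' b' => ENNReal.ofReal (ff k δ a b a' b')).trans ?_
  have h1 : ∀ r : {r : ℕ × ℕ × ℕ × ℕ // 0 < r.1 ∧ 0 < r.2.1 ∧ 0 < r.2.2.1 ∧ 0 < r.2.2.2 ∧
      r.2.2.1 ≠ r.2.2.2}, ENNReal.ofReal (ff k δ (r.1.2.1 * r.1.2.2.2) (r.1.1 * r.1.2.2.1)
        (r.1.2.1 * r.1.2.2.1) (r.1.1 * r.1.2.2.2)) ≤
      (fun r : ℕ × ℕ × ℕ × ℕ => 2 * (ve K δ r.1 * (ve K δ r.2.1 *
        ENNReal.ofReal (Pr K δ r.2.2.1 r.2.2.2)))) r.1 := by
    rintro ⟨⟨g, m, x, y⟩, hg, hm, hx, hy, hxy⟩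
    simp only at hg hm hx hy hxy ⊢
    refine (ENNReal.ofReal_le_ofReal (ff_le hk hkK hK hδ hg hm hx hy hxy)).trans (le_of_eq ?_)
    unfold ve
    rw [ENNReal.ofReal_mul (by norm_num), ENNReal.ofReal_mul (vr_nonneg _ _ _),
      ENNReal.ofReal_mul (vr_nonneg _ _ _)]
    norm_num
  refine (ENNReal.tsum_le_tsum h1).trans ?_
  refine (ENNReal.tsum_comp_le_tsum_of_injective Subtype.val_injective
    (fun r : ℕ × ℕ × ℕ × ℕ => 2 * (ve K δ r.1 * (ve K δ r.2.1 *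
        ENNReal.ofReal (Pr K δ r.2.2.1 r.2.2.2))))).trans ?_
  rw [ENNReal.tsum_mul_left]
  have h2 : ∑' r : ℕ × ℕ × ℕ × ℕ, ve K δ r.1 * (ve K δ r.2.1 *
      ENNReal.ofReal (Pr K δ r.2.2.1 r.2.2.2)) =
      V * (V * ∑' x : ℕ, ∑' y : ℕ, ENNReal.ofReal (Pr K δ x y)) := by
    rw [ENNReal.tsum_prod (f := fun g (r : ℕ × ℕ × ℕ) => ve K δ g * (ve K δ r.1 *
      ENNReal.ofReal (Pr K δ r.2.1 r.2.2)))]
    simp_rw [ENNReal.tsum_mul_left]
    rw [ENNReal.tsum_mul_right]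
    congr 1
    rw [ENNReal.tsum_prod (f := fun m (r : ℕ × ℕ) => ve K δ m *
      ENNReal.ofReal (Pr K δ r.1 r.2))]
    simp_rw [ENNReal.tsum_mul_left]
    rw [ENNReal.tsum_mul_right]
    congr 1
    rw [ENNReal.tsum_prod (f := fun x y => ENNReal.ofReal (Pr K δ x y))]
  rw [h2]
  calc 2 * (V * (V * ∑' x : ℕ, ∑' y : ℕ, ENNReal.ofReal (Pr K δ x y)))
      ≤ 2 * (V * (V * (6 * (V * V)))) := by
        gcongr
        exact (sum_Pr hδ).trans (by gcongr)
    _ = 12 * V ^ 4 := by ring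

/-! ### the inner integral -/

noncomputable def ue (k δ : ℝ) (n : ℕ) : ENNReal :=
  ENNReal.ofReal (w k n ^ 2 * (n : ℝ) ^ (-(1 + 2 * δ)))

theorem term_le {k δ H : ℝ} (hk : 0 < k) (hH : 0 < H) (n : ℕ) :
    ENNReal.ofReal ((∑ q ∈ n.divisorsAntidiagonal, ∑ r ∈ n.divisorsAntidiagonal,
      (w k q.1 * w k q.2) * (w k r.1 * w k r.2) * kap H q.2 r.2) * (n : ℝ) ^ (-(1 + 2 * δ))) ≤
    ∑ q ∈ n.divisorsAntidiagonal, ENNReal.ofReal H * (ue k δ q.1 * ue k δ q.2) +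
    ∑ q ∈ n.divisorsAntidiagonal, ∑ r ∈ n.divisorsAntidiagonal,
      (if q.2 ≠ r.2 then ENNReal.ofReal (ff k δ q.1 q.2 r.1 r.2) else 0) := by
  have hn : 0 ≤ (n : ℝ) ^ (-(1 + 2 * δ)) := Real.rpow_nonneg (Nat.cast_nonneg n) _
  have hw : ∀ n, 0 < w k n := w_pos hk
  have hterm : ∀ q r : ℕ × ℕ, 0 ≤ (w k q.1 * w k q.2) * (w k r.1 * w k r.2) * kap H q.2 r.2 :=
    fun q r => mul_nonneg (mul_pos (mul_pos (hw _) (hw _)) (mul_pos (hw _) (hw _))).le
      (kap_nonneg hH _ _)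
  rw [Finset.sum_mul, ENNReal.ofReal_sum_of_nonneg, ← Finset.sum_add_distrib]
  swap
  · intro q _
    exact mul_nonneg (Finset.sum_nonneg fun r _ => hterm q r) hn
  apply Finset.sum_le_sum
  intro q hq
  rw [Finset.sum_mul, ENNReal.ofReal_sum_of_nonneg]
  swap
  · intro r _
    exact mul_nonneg (hterm q r) hn
  have hqn := (Nat.mem_divisorsAntidiagonal.1 hq)
  have hq1 : q.1 ≠ 0 := fun h => hqn.2 (by rw [← hqn.1, h, zero_mul])
  have hq2 : q.2 ≠ 0 := fun h => hqn.2 (by rw [← hqn.1, h, mul_zero])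
  have e1 : ENNReal.ofReal H * (ue k δ q.1 * ue k δ q.2) =
      ∑ r ∈ n.divisorsAntidiagonal, if r = q then
        ENNReal.ofReal H * (ue k δ q.1 * ue k δ q.2) else 0 := by
    rw [Finset.sum_ite_eq', if_pos hq]
  rw [e1, ← Finset.sum_add_distrib]
  apply Finset.sum_le_sum
  intro r hr
  have hrn := (Nat.mem_divisorsAntidiagonal.1 hr)
  by_cases h : q.2 = r.2
  · have hrq : r = q := by
      have h1 : r.1 * r.2 = q.1 * q.2 := by rw [hrn.1, hqn.1]
      rw [← h] at h1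
      have h2 := Nat.eq_of_mul_eq_mul_right (Nat.pos_of_ne_zero hq2) h1
      exact Prod.ext h2 h.symm
    subst hrq
    rw [if_pos rfl, if_neg (by simp), add_zero]
    unfold ue kap
    rw [if_pos rfl, ← ENNReal.ofReal_mul (by positivity), ← ENNReal.ofReal_mul hH.le]
    apply ENNReal.ofReal_le_ofReal
    apply le_of_eq
    rw [← hqn.1]
    push_cast
    rw [Real.mul_rpow (by positivity) (by positivity)]
    ring
  · rw [if_pos h]
    refine le_trans ?_ le_add_self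
    apply ENNReal.ofReal_le_ofReal
    unfold ff kap
    rw [if_neg h, hqn.1]
    apply le_of_eq
    ring

theorem cont_cv (k x : ℝ) (n : ℕ) : Continuous fun y : ℝ => ‖cv k (y - x) n‖ ^ 2 := by
  simp_rw [cv_sq]
  fun_prop

theorem inner_ofReal (h' : S_GCDP) {k K δ H x : ℝ} (hk : 0 < k) (hkK : k ≤ K) (hK : 1 ≤ K)
    (hδ : 0 < δ) (hH : 0 < H) :
    ENNReal.ofReal (∫ y in (0:ℝ)..H, ∑' n : ℕ, ‖cv k (y - x) n‖ ^ 2 * (n:ℝ) ^ (-(1 + 2 * δ))) ≤
      ENNReal.ofReal H * (∑' n, ue k δ n) ^ 2 + 12 * (∑' n, ve K δ n) ^ 4 := by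
  have hnn : ∀ (y : ℝ) (n : ℕ), 0 ≤ ‖cv k (y - x) n‖ ^ 2 * (n:ℝ) ^ (-(1 + 2 * δ)) := fun y n =>
    mul_nonneg (by positivity) (Real.rpow_nonneg (Nat.cast_nonneg n) _)
  rw [intervalIntegral.integral_of_le hH.le]
  by_cases hint : Integrable (fun y : ℝ => ∑' n : ℕ, ‖cv k (y - x) n‖ ^ 2 *
      (n:ℝ) ^ (-(1 + 2 * δ))) (volume.restrict (Set.Ioc 0 H))
  swap
  · rw [integral_undef hint, ENNReal.ofReal_zero]
    exact bot_le
  rw [ofReal_integral_eq_lintegral_ofReal hint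
    (Filter.Eventually.of_forall fun y => tsum_nonneg fun n => hnn y n)]
  have h1 : ∀ y : ℝ, ENNReal.ofReal (∑' n : ℕ, ‖cv k (y - x) n‖ ^ 2 * (n:ℝ) ^ (-(1 + 2 * δ))) ≤
      ∑' n : ℕ, ENNReal.ofReal (‖cv k (y - x) n‖ ^ 2 * (n:ℝ) ^ (-(1 + 2 * δ))) := by
    intro y
    by_cases hs : Summable fun n : ℕ => ‖cv k (y - x) n‖ ^ 2 * (n:ℝ) ^ (-(1 + 2 * δ))
    · rw [ENNReal.ofReal_tsum_of_nonneg (hnn y) hs]
    · rw [tsum_eq_zero_of_not_summable hs, ENNReal.ofReal_zero]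
      exact bot_le
  refine (lintegral_mono h1).trans ?_
  rw [lintegral_tsum]
  swap
  · intro n
    exact (((cont_cv k x n).mul continuous_const).measurable.ennreal_ofReal).aemeasurable
  have h2 : ∀ n : ℕ, ∫⁻ y in Set.Ioc 0 H, ENNReal.ofReal (‖cv k (y - x) n‖ ^ 2 *
      (n:ℝ) ^ (-(1 + 2 * δ))) ≤
      ∑ q ∈ n.divisorsAntidiagonal, ENNReal.ofReal H * (ue k δ q.1 * ue k δ q.2) +
      ∑ q ∈ n.divisorsAntidiagonal, ∑ r ∈ n.divisorsAntidiagonal,
        (if q.2 ≠ r.2 then ENNReal.ofReal (ff k δ q.1 q.2 r.1 r.2) else 0) := by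
    intro n
    have hc : Continuous fun y : ℝ => ‖cv k (y - x) n‖ ^ 2 * (n:ℝ) ^ (-(1 + 2 * δ)) :=
      (cont_cv k x n).mul continuous_const
    rw [← ofReal_integral_eq_lintegral_ofReal
      (hc.integrableOn_Ioc) (Filter.Eventually.of_forall fun y => hnn y n),
      ← intervalIntegral.integral_of_le hH.le, intervalIntegral.integral_mul_const]
    refine le_trans (ENNReal.ofReal_le_ofReal ?_) (term_le hk hH n)
    exact mul_le_mul_of_nonneg_right (int_cv k H x hk n) (Real.rpow_nonneg (Nat.cast_nonneg n) _)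
  refine (ENNReal.tsum_le_tsum h2).trans ?_
  rw [ENNReal.tsum_add]
  apply add_le_add
  · refine (fib _).trans ?_
    rw [ENNReal.tsum_mul_left, ENNReal.tsum_prod (f := fun a b => ue k δ a * ue k δ b)]
    simp_rw [ENNReal.tsum_mul_left]
    rw [ENNReal.tsum_mul_right, sq]
  · refine (fib2 fun a b a' b' => ENNReal.ofReal (ff k δ a b a' b')).trans ?_
    exact sum_off h' hk hkK hK hδ

/-! ### the theorem -/

theorem t (h : S_DB) (h' : S_GCDP) : S_DIAG := by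
  intro k hk
  have hK : (1 : ℝ) ≤ k + 1 := by linarith
  have hkK : k ≤ k + 1 := by linarith
  have hK0 : (0 : ℝ) < k + 1 := by linarith
  obtain ⟨B0, C0, hB0, hC0, hDB⟩ := h (k + 1) hK0
  refine ⟨4 * B0, 12 * C0 ^ 4, by positivity, by positivity, fun δ H hδ hδ1 hH => ?_⟩
  obtain ⟨hsum, hle⟩ := hDB δ hδ (by linarith)
  simp_rw [norm_dS hK0] at hsum hle
  set Y := ∑' n : ℕ, w (k + 1) n ^ 4 * (n:ℝ) ^ (-(1 + δ)) with hY
  have hV : ∑' n, ve (k + 1) δ n = ENNReal.ofReal Y := by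
    have e := ENNReal.ofReal_tsum_of_nonneg (f := vr (k + 1) δ)
      (fun n => vr_nonneg (k + 1) δ n) hsum
    exact e.symm
  have hY0 : 0 ≤ Y := tsum_nonneg fun n => vr_nonneg (k + 1) δ n
  have hun : ∀ n : ℕ, 0 ≤ w k n ^ 2 * (n : ℝ) ^ (-(1 + 2 * δ)) := fun n =>
    mul_nonneg (by positivity) (Real.rpow_nonneg (Nat.cast_nonneg n) _)
  have hus : Summable fun n : ℕ => w k n ^ 2 * (n : ℝ) ^ (-(1 + 2 * δ)) := by
    refine Summable.of_nonneg_of_le hun (fun n => ?_) hsum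
    rcases Nat.eq_zero_or_pos n with rfl | hn
    · rw [Nat.cast_zero, Real.zero_rpow (by linarith), Real.zero_rpow (by linarith)]
      simp
    · refine le_trans ?_ (sq_le hK hδ hn)
      apply mul_le_mul_of_nonneg_right _ (Real.rpow_nonneg (Nat.cast_nonneg n) _)
      exact pow_le_pow_left₀ (w_pos hk n).le (w_mono hk hkK n) 2
  set D := ∑' n : ℕ, w k n ^ 2 * (n : ℝ) ^ (-(1 + 2 * δ)) with hD
  have hU : ∑' n, ue k δ n = ENNReal.ofReal D := by
    rw [hD, ENNReal.ofReal_tsum_of_nonneg hun hus]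
    rfl
  have hD0 : 0 ≤ D := tsum_nonneg hun
  have hDn : ∑' n : ℕ, ‖dS (k : ℂ) n‖ ^ 2 * (n:ℝ) ^ (-(1 + 2 * δ)) = D := by
    simp_rw [norm_dS hk]
    rw [hD]
  have hinner : ∀ x : ℝ, ∫ y in (0:ℝ)..H, ∑' n : ℕ, ‖cv k (y - x) n‖ ^ 2 *
      (n:ℝ) ^ (-(1 + 2 * δ)) ≤ H * D ^ 2 + 12 * Y ^ 4 := by
    intro x
    have h1 := inner_ofReal (x := x) h' hk hkK hK hδ hH
    rw [hV, hU, ← ENNReal.ofReal_pow hD0, ← ENNReal.ofReal_pow hY0, ← ENNReal.ofReal_mul hH.le] at h1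
    have h2 : (12 : ENNReal) * ENNReal.ofReal (Y ^ 4) = ENNReal.ofReal (12 * Y ^ 4) := by
      rw [ENNReal.ofReal_mul (by norm_num)]
      norm_num
    rw [h2, ← ENNReal.ofReal_add (by positivity) (by positivity)] at h1
    exact (ENNReal.ofReal_le_ofReal_iff (by positivity)).1 h1
  have hnonneg : ∀ x : ℝ, 0 ≤ ∫ y in (0:ℝ)..H, ∑' n : ℕ, ‖cv k (y - x) n‖ ^ 2 *
      (n:ℝ) ^ (-(1 + 2 * δ)) := by
    intro x
    apply intervalIntegral.integral_nonneg hH.le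
    intro y _
    exact tsum_nonneg fun n => mul_nonneg (by positivity) (Real.rpow_nonneg (Nat.cast_nonneg n) _)
  have houter : ∫ x in (0:ℝ)..H, ∫ y in (0:ℝ)..H, ∑' n : ℕ, ‖cv k (y - x) n‖ ^ 2 *
      (n:ℝ) ^ (-(1 + 2 * δ)) ≤ (H * D ^ 2 + 12 * Y ^ 4) * H := by
    have h1 := intervalIntegral.norm_integral_le_of_norm_le_const (a := 0) (b := H)
      (f := fun x : ℝ => ∫ y in (0:ℝ)..H, ∑' n : ℕ, ‖cv k (y - x) n‖ ^ 2 *
        (n:ℝ) ^ (-(1 + 2 * δ))) (C := H * D ^ 2 + 12 * Y ^ 4)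
      (fun x _ => by
        rw [Real.norm_of_nonneg (hnonneg x)]
        exact hinner x)
    rw [sub_zero, abs_of_pos hH] at h1
    exact (Real.le_norm_self _).trans h1
  rw [hDn]
  have h3 : (1 / H ^ 2) * ((H * D ^ 2 + 12 * Y ^ 4) * H) = D ^ 2 + 12 * Y ^ 4 / H := by
    field_simp
  have h4 : Y ^ 4 ≤ C0 ^ 4 * δ ^ (-(4 * B0)) := by
    have h5 : Y ^ 4 ≤ (C0 * δ ^ (-B0)) ^ 4 := pow_le_pow_left₀ hY0 hle 4
    rw [mul_pow] at h5
    have h6 : (δ ^ (-B0)) ^ 4 = δ ^ (-(4 * B0)) := by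
      rw [← Real.rpow_natCast, ← Real.rpow_mul hδ.le]
      congr 1
      push_cast
      ring
    rwa [h6] at h5
  calc _ ≤ (1 / H ^ 2) * ((H * D ^ 2 + 12 * Y ^ 4) * H) :=
        mul_le_mul_of_nonneg_left houter (by positivity)
    _ = D ^ 2 + 12 * Y ^ 4 / H := h3
    _ ≤ D ^ 2 + 12 * C0 ^ 4 * δ ^ (-(4 * B0)) / H := by
        apply add_le_add le_rfl
        apply div_le_div_of_nonneg_right _ hH.le
        rw [mul_assoc]
        exact mul_le_mul_of_nonneg_left h4 (by norm_num)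

end Pool.Agent.H6F.DIAG
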