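import Pool.Agent.H6F.Stm

set_option autoImplicit false

namespace Pool.Agent.H6F.EXPO

lemma key {k θ u : ℝ} (hk : 0 < k) (hθ : 1 ≤ θ) (h0 : 0 ≤ u) (h1 : u ≤ 1) :
    2 * k ^ 2 + θ - (4 * (k - k / (1 + u)) * k + 2 * (k / (1 + u)) ^ 2 * (1 + u) - u) =
      ((1 - u) * (θ - u) + 2 * (1 + θ - k ^ 2) * u) / (1 + u) := by
  have h2 : (0:ℝ) < 1 + u := by linarith
  field_simp
  ring

lemma low {θ κ u : ℝ} (hθ : 1 ≤ θ) (hκ : 0 < κ) (h0 : 0 ≤ u) (h1 : u ≤ 1) :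
    2 * min (1 / 16) (κ / 4) ≤ ((1 - u) * (θ - u) + 2 * κ * u) / (1 + u) := by
  have h2 : (0:ℝ) < 1 + u := by linarith
  rw [le_div_iff₀ h2]
  have e1 : (1 - u) ^ 2 ≤ (1 - u) * (θ - u) := by
    rw [sq]
    exact mul_le_mul_of_nonneg_left (by linarith) (by linarith)
  have hm1 : min (1 / 16) (κ / 4) ≤ 1 / 16 := min_le_left _ _
  have hm2 : min (1 / 16) (κ / 4) ≤ κ / 4 := min_le_right _ _
  have hm0 : 0 < min (1 / 16) (κ / 4) := by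
    apply lt_min
    · norm_num
    · linarith
  have e3 : 2 * min (1 / 16) (κ / 4) * (1 + u) ≤ 4 * min (1 / 16) (κ / 4) := by nlinarith
  rcases le_total u (1 / 2) with h | h
  · have : (1 / 4 : ℝ) ≤ (1 - u) ^ 2 := by nlinarith
    have h3 : 0 ≤ 2 * κ * u := by positivity
    linarith
  · have : κ ≤ 2 * κ * u := by nlinarith
    have h3 : 0 ≤ (1 - u) ^ 2 := sq_nonneg _
    linarith

theorem t : S_EXPO := by
  intro k θ hk hθ hkθ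
  obtain ⟨κ, hκ⟩ : ∃ κ, κ = 1 + θ - k ^ 2 := ⟨_, rfl⟩
  have hκ0 : 0 < κ := by rw [hκ]; linarith
  obtain ⟨δ, hδ⟩ : ∃ δ : ℝ, δ = min (1 / 16) (κ / 4) := ⟨_, rfl⟩
  have hδ0 : 0 < δ := by
    rw [hδ]
    apply lt_min
    · norm_num
    · linarith
  obtain ⟨n, hn⟩ := exists_nat_gt (4 * k ^ 2 / δ)
  have hn0 : 0 < (n:ℝ) := lt_of_le_of_lt (by positivity) hn
  refine ⟨δ, hδ0, k + δ / (8 * k), by linarith [show 0 < δ / (8 * k) by positivity], n, by exact_mod_cast hn0, ?_⟩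
  intro i hi
  have hi' : (i:ℝ) ≤ n := by exact_mod_cast hi
  obtain ⟨u, hu⟩ : ∃ u : ℝ, u = (i:ℝ) / n := ⟨_, rfl⟩
  have hu0 : 0 ≤ u := by rw [hu]; positivity
  have hu1 : u ≤ 1 := by rw [hu, div_le_one hn0]; exact hi'
  have e1 : ((i:ℝ) + 1) / n = u + 1 / n := by rw [hu]; ring
  rw [e1, ← hu]
  obtain ⟨c, hc⟩ : ∃ c : ℝ, c = k / (1 + u) := ⟨_, rfl⟩
  have h2 : (0:ℝ) < 1 + u := by linarith
  have hc0 : 0 < c := by rw [hc]; positivity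
  have hck : c ≤ k := by rw [hc, div_le_iff₀ h2]; nlinarith
  have h3 := key (k := k) (θ := θ) hk hθ hu0 hu1
  have h4 := low hθ hκ0 hu0 hu1
  rw [← hκ] at h3
  rw [← h3, ← hδ] at h4
  rw [← hc] at h4 ⊢
  have h5 : 4 * (k - c) * (δ / (8 * k)) ≤ δ / 2 := by
    have : 4 * (k - c) * (δ / (8 * k)) ≤ 4 * k * (δ / (8 * k)) :=
      mul_le_mul_of_nonneg_right (by linarith) (by positivity)
    refine this.trans (le_of_eq ?_)
    field_simp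
    ring
  have h6 : 2 * c ^ 2 * (1 / n) ≤ δ / 2 := by
    have h7 : c ^ 2 ≤ k ^ 2 := pow_le_pow_left₀ hc0.le hck 2
    have h8 : 4 * k ^ 2 < δ * n := by
      rw [div_lt_iff₀ hδ0] at hn
      linarith
    rw [mul_one_div, div_le_iff₀ hn0]
    nlinarith
  nlinarith

end Pool.Agent.H6F.EXPO
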