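import Pool.Agent.H6F.Stm

set_option autoImplicit false

/-!
# Stub FAR (helper13)
-/

namespace Pool.Agent.H6F.FAR

open Filter MeasureTheory Topology Complex
open Pool.Agent.N748.MG Pool.Agent.N748.MJ

/-! ### the diagonal series is continuous in the shift -/

lemma lC_two (m : ℕ) : lC 2 m = (m : ℂ) + 1 := by
  induction m with
  | zero => simp [lC]
  | succ m ih =>
    unfold lC at ih ⊢
    rw [Finset.prod_range_succ, ih]
    have h : (m : ℂ) + 1 ≠ 0 := by exact_mod_cast Nat.succ_ne_zero m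
    push_cast
    field_simp
    ring

lemma dS_two {n : ℕ} (hn : n ≠ 0) : ‖dS ((2 : ℝ) : ℂ) n‖ = (n.divisors.card : ℝ) := by
  have h1 : dS ((2 : ℝ) : ℂ) n = (n.divisors.card : ℂ) := by
    unfold dS
    rw [Nat.card_divisors hn]
    push_cast
    refine Finset.prod_congr rfl fun p _ => ?_
    rw [lC_two]
  rw [h1, Complex.norm_natCast]

/-- the majorant -/
noncomputable def g (k : ℝ) (n : ℕ) : ℝ := (n.divisors.card : ℝ) * ‖dS (k : ℂ) n‖ ^ 2

lemma g_nonneg (k : ℝ) (n : ℕ) : 0 ≤ g k n := by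
  unfold g
  positivity

lemma g_summable (hDB : S_DB) {k δ : ℝ} (hk : 0 < k) (hδ : 0 < δ) (hδ' : δ ≤ 1) :
    LSeriesSummable (fun n => ((g k n : ℝ) : ℂ)) ((1 + δ : ℝ) : ℂ) := by
  obtain ⟨B1, C1, _, _, h1⟩ := hDB k hk
  obtain ⟨B2, C2, _, _, h2⟩ := hDB 2 (by norm_num)
  have h3 := (h1 δ hδ hδ').1
  have h4 := (h2 δ hδ hδ').1
  unfold LSeriesSummable
  refine Summable.of_norm_bounded (h3.add h4) fun n => ?_
  rcases eq_or_ne n 0 with rfl | hn
  · rw [LSeries.term_zero, norm_zero]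
    positivity
  have hn0 : (0 : ℝ) < n := by exact_mod_cast Nat.pos_of_ne_zero hn
  rw [LSeries.term_of_ne_zero hn, norm_div, norm_natCast_cpow_of_pos (Nat.pos_of_ne_zero hn), ofReal_re,
    norm_real, Real.norm_of_nonneg (g_nonneg k n), div_eq_mul_inv, ← Real.rpow_neg hn0.le, ← add_mul]
  refine mul_le_mul_of_nonneg_right ?_ (Real.rpow_nonneg hn0.le _)
  rw [dS_two hn]
  unfold g
  have h5 : (1 : ℝ) ≤ (n.divisors.card : ℝ) := by
    exact_mod_cast Finset.card_pos.mpr ⟨1, Nat.one_mem_divisors.mpr hn⟩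
  set τ : ℝ := (n.divisors.card : ℝ)
  set w : ℝ := ‖dS (k : ℂ) n‖
  have h6 : τ ^ 2 ≤ τ ^ 4 := pow_le_pow_right₀ h5 (by norm_num)
  nlinarith [sq_nonneg (τ - w ^ 2)]

lemma cv_bound (k h : ℝ) (n : ℕ) :
    ‖cv k h n‖ ^ 2 ≤ ∑ q ∈ n.divisorsAntidiagonal, g k q.1 * g k q.2 := by
  have h1 : ‖cv k h n‖ ≤ ∑ q ∈ n.divisorsAntidiagonal, ‖dS (k : ℂ) q.1‖ * ‖dS (k : ℂ) q.2‖ := by
    unfold cv
    refine (norm_sum_le _ _).trans (Finset.sum_le_sum fun q hq => ?_)
    rw [Nat.mem_divisorsAntidiagonal] at hq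
    have h2 : 0 < q.2 := Nat.pos_of_ne_zero fun h => hq.2 (by rw [← hq.1, h, mul_zero])
    rw [norm_mul, norm_mul, norm_natCast_cpow_of_pos h2]
    simp
  have h2 : (∑ q ∈ n.divisorsAntidiagonal, ‖dS (k : ℂ) q.1‖ * ‖dS (k : ℂ) q.2‖) ^ 2 ≤
      (n.divisorsAntidiagonal.card : ℝ) *
        ∑ q ∈ n.divisorsAntidiagonal, (‖dS (k : ℂ) q.1‖ * ‖dS (k : ℂ) q.2‖) ^ 2 := sq_sum_le_card_mul_sum_sq
  refine (pow_le_pow_left₀ (norm_nonneg _) h1 2).trans (h2.trans ?_)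
  rw [Finset.mul_sum]
  refine Finset.sum_le_sum fun q hq => ?_
  rw [Nat.mem_divisorsAntidiagonal] at hq
  have h3' : n.divisorsAntidiagonal.card ≤ n.divisors.card := by
    refine Finset.card_le_card_of_injOn Prod.fst (fun x hx => ?_) fun x hx y hy hxy => ?_
    · rw [Finset.mem_coe, Nat.mem_divisorsAntidiagonal] at hx
      rw [Finset.mem_coe, Nat.mem_divisors]
      exact ⟨⟨x.2, hx.1.symm⟩, hx.2⟩
    · rw [Finset.mem_coe, Nat.mem_divisorsAntidiagonal] at hx hy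
      have h5 : 0 < x.1 := Nat.pos_of_ne_zero fun h => hx.2 (by rw [← hx.1, h, zero_mul])
      refine Prod.ext hxy (Nat.eq_of_mul_eq_mul_left h5 ?_)
      rw [hx.1, hxy, hy.1]
  have h3 : n.divisorsAntidiagonal.card ≤ q.1.divisors.card * q.2.divisors.card := by
    refine h3'.trans ?_
    rw [← hq.1, Nat.divisors_mul]
    exact Finset.card_mul_le
  have h4 : (n.divisorsAntidiagonal.card : ℝ) ≤ (q.1.divisors.card : ℝ) * (q.2.divisors.card : ℝ) := by
    exact_mod_cast h3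
  unfold g
  calc (n.divisorsAntidiagonal.card : ℝ) * (‖dS (k : ℂ) q.1‖ * ‖dS (k : ℂ) q.2‖) ^ 2 ≤
        ((q.1.divisors.card : ℝ) * (q.2.divisors.card : ℝ)) * (‖dS (k : ℂ) q.1‖ * ‖dS (k : ℂ) q.2‖) ^ 2 :=
        mul_le_mul_of_nonneg_right h4 (by positivity)
    _ = _ := by ring

/-- the diagonal series -/
noncomputable def DD (k δ h : ℝ) : ℝ := ∑' n : ℕ, ‖cv k h n‖ ^ 2 * (n:ℝ) ^ (-(1 + 2 * δ))

lemma DD_nonneg (k δ h : ℝ) : 0 ≤ DD k δ h := tsum_nonneg fun n => by positivity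

lemma cv_cont (k : ℝ) (n : ℕ) : Continuous fun h : ℝ => cv k h n := by
  unfold cv
  refine continuous_finsetSum _ fun q hq => ?_
  rw [Nat.mem_divisorsAntidiagonal] at hq
  have h2 : ((q.2 : ℕ) : ℂ) ≠ 0 := by
    intro h
    have h3 : q.2 = 0 := by exact_mod_cast h
    exact hq.2 (by rw [← hq.1, h3, mul_zero])
  refine continuous_const.mul (continuous_const.mul ?_)
  refine Continuous.const_cpow ?_ (Or.inl h2)
  fun_prop

lemma DD_cont (hDB : S_DB) {k δ : ℝ} (hk : 0 < k) (hδ : 0 < δ) (hδ' : δ ≤ 1 / 2) : Continuous (DD k δ) := by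
  have h1 := g_summable hDB hk (by linarith : 0 < 2 * δ) (by linarith)
  have h2 : Summable fun n => ‖LSeries.term (LSeries.convolution (fun n => ((g k n : ℝ) : ℂ)) (fun n => ((g k n : ℝ) : ℂ)))
      ((1 + 2 * δ : ℝ) : ℂ) n‖ := (h1.convolution h1).norm
  unfold DD
  refine continuous_tsum (fun n => ((cv_cont k n).norm.pow 2).mul continuous_const) h2 fun n h => ?_
  rw [Real.norm_of_nonneg (by positivity)]
  rcases eq_or_ne n 0 with rfl | hn
  · have h3 : cv k h 0 = 0 := by simp [cv]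
    rw [h3, LSeries.term_zero]
    simp
  have hn0 : (0 : ℝ) < n := by exact_mod_cast Nat.pos_of_ne_zero hn
  have h4 : (LSeries.convolution (fun n => ((g k n : ℝ) : ℂ)) (fun n => ((g k n : ℝ) : ℂ))) n =
      ((∑ q ∈ n.divisorsAntidiagonal, g k q.1 * g k q.2 : ℝ) : ℂ) := by
    rw [LSeries.convolution_def]
    push_cast
    rfl
  rw [LSeries.term_of_ne_zero hn, norm_div, norm_natCast_cpow_of_pos (Nat.pos_of_ne_zero hn), ofReal_re, h4,
    norm_real, Real.norm_of_nonneg (Finset.sum_nonneg fun q _ => mul_nonneg (g_nonneg _ _) (g_nonneg _ _)),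
    div_eq_mul_inv, ← Real.rpow_neg hn0.le]
  exact mul_le_mul_of_nonneg_right (cv_bound k h n) (Real.rpow_nonneg hn0.le _)

/-! ### comparison of double integrals -/

lemma dbl {H : ℝ} (hH : 0 < H) {G D : ℝ → ℝ → ℝ} (hG0 : ∀ x y, 0 ≤ G x y) (hD : Continuous (Function.uncurry D))
    (h : ∀ x ∈ Set.Ioc 0 H, ∀ y ∈ Set.Ioc 0 H, G x y ≤ D x y) :
    ∫ x in (0:ℝ)..H, ∫ y in (0:ℝ)..H, G x y ≤ ∫ x in (0:ℝ)..H, ∫ y in (0:ℝ)..H, D x y := by
  have h1 : Continuous fun x => ∫ y in (0:ℝ)..H, D x y :=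
    intervalIntegral.continuous_parametric_intervalIntegral_of_continuous' hD 0 H
  have h2 : ∀ x ∈ Set.Ioc 0 H, (∫ y in (0:ℝ)..H, G x y) ≤ ∫ y in (0:ℝ)..H, D x y := by
    intro x hx
    have h3 : Continuous (D x) := hD.comp (Continuous.prodMk_right x)
    rw [intervalIntegral.integral_of_le hH.le, intervalIntegral.integral_of_le hH.le]
    refine integral_mono_of_nonneg (Eventually.of_forall fun y => hG0 x y) ?_ ?_
    · exact (h3.integrableOn_Icc).mono_set Set.Ioc_subset_Icc_self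
    · exact ae_restrict_of_forall_mem measurableSet_Ioc fun y hy => h x hx y hy
  rw [intervalIntegral.integral_of_le hH.le, intervalIntegral.integral_of_le hH.le]
  refine integral_mono_of_nonneg (Eventually.of_forall fun x => ?_) ?_ ?_
  · exact intervalIntegral.integral_nonneg hH.le fun y _ => hG0 x y
  · exact (h1.integrableOn_Icc).mono_set Set.Ioc_subset_Icc_self
  · exact ae_restrict_of_forall_mem measurableSet_Ioc h2

/-! ### the residue -/

lemma zl_res : Tendsto (fun δ : ℝ => 2 * δ * zl δ 0) (𝓝[>] 0) (𝓝 1) := by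
  have h1 : Tendsto (fun δ : ℝ => ((1 + 2 * δ : ℝ) : ℂ)) (𝓝[>] 0) (𝓝[≠] 1) := by
    rw [tendsto_nhdsWithin_iff]
    constructor
    · have h2 : Continuous fun δ : ℝ => ((1 + 2 * δ : ℝ) : ℂ) := by fun_prop
      have h3 := (h2.tendsto 0).mono_left (nhdsWithin_le_nhds (s := Set.Ioi (0:ℝ)))
      simpa using h3
    · filter_upwards [self_mem_nhdsWithin] with δ hδ
      rw [Set.mem_compl_iff, Set.mem_singleton_iff]
      intro h
      have h2 : (1 + 2 * δ : ℝ) = 1 := by exact_mod_cast h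
      have h3 : (0 : ℝ) < δ := hδ
      linarith
  have h2 := (riemannZeta_residue_one.comp h1).norm
  rw [norm_one] at h2
  refine h2.congr' ?_
  filter_upwards [self_mem_nhdsWithin] with δ hδ
  have h3 : (0 : ℝ) < δ := hδ
  show ‖(((1 + 2 * δ : ℝ) : ℂ) - 1) * riemannZeta ((1 + 2 * δ : ℝ) : ℂ)‖ = 2 * δ * zl δ 0
  rw [norm_mul]
  have h4 : (((1 + 2 * δ : ℝ) : ℂ) - 1) = ((2 * δ : ℝ) : ℂ) := by
    push_cast
    ring
  rw [h4, norm_real, Real.norm_of_nonneg (by linarith)]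
  unfold zl
  congr 3
  push_cast
  ring

lemma L_top : Tendsto (fun d : ℝ => 1 / (2 * d)) (𝓝[>] 0) atTop := by
  have h1 : Tendsto (fun d : ℝ => 2 * d) (𝓝[>] 0) (𝓝[>] 0) := by
    rw [tendsto_nhdsWithin_iff]
    constructor
    · have h2 : Continuous fun d : ℝ => 2 * d := by fun_prop
      have h3 := (h2.tendsto 0).mono_left (nhdsWithin_le_nhds (s := Set.Ioi (0:ℝ)))
      simpa using h3
    · filter_upwards [self_mem_nhdsWithin] with d hd
      have : (0 : ℝ) < d := hd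
      exact Set.mem_Ioi.mpr (by linarith)
  have h2 := tendsto_inv_nhdsGT_zero (𝕜 := ℝ) |>.comp h1
  exact h2.congr fun d => by simp [one_div]

lemma e12_tendsto : Tendsto e12 (𝓝[>] 0) (𝓝[>] 0) := by
  have h1 : Tendsto (fun d : ℝ => Real.log (1 / (2 * d)) ^ 12) (𝓝[>] 0) atTop :=
    (tendsto_pow_atTop (by norm_num)).comp (Real.tendsto_log_atTop.comp L_top)
  have h2 := tendsto_inv_atTop_nhdsGT_zero.comp h1
  exact h2.congr fun d => by simp [e12, one_div]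

/-- the last term is small -/
lemma small (B C θ η : ℝ) (hθ : 0 < θ) (hη : 0 < η) : ∀ᶠ d : ℝ in 𝓝[>] 0,
    C * e12 d ^ (-B) / (2 * d) ^ (-θ) ≤ η := by
  have h1 : Tendsto (fun x : ℝ => Real.log x ^ (12 * B) / x ^ θ) atTop (𝓝 0) :=
    (isLittleO_log_rpow_rpow_atTop (12 * B) hθ).tendsto_div_nhds_zero
  have h2 : Tendsto (fun d : ℝ => C * (Real.log (1 / (2 * d)) ^ (12 * B) / (1 / (2 * d)) ^ θ)) (𝓝[>] 0) (𝓝 (C * 0)) :=
    (h1.comp L_top).const_mul C
  rw [mul_zero] at h2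
  have h3 := h2.eventually (eventually_lt_nhds hη)
  have h4 := L_top.eventually (eventually_gt_atTop 1)
  filter_upwards [h3, h4, self_mem_nhdsWithin] with d h5 h6 h7
  have hd : (0 : ℝ) < d := h7
  have hd2 : (0 : ℝ) < 2 * d := by linarith
  have hL : 0 < Real.log (1 / (2 * d)) := Real.log_pos h6
  refine le_trans (le_of_eq ?_) h5.le
  unfold e12
  rw [mul_div_assoc]
  congr 1
  congr 1
  · rw [one_div, Real.inv_rpow (by positivity), ← Real.rpow_neg (by positivity), neg_neg, ← Real.rpow_natCast,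
      ← Real.rpow_mul hL.le]
    norm_num
  · rw [one_div, Real.inv_rpow hd2.le, Real.rpow_neg hd2.le]

/-- **FAR** -/
theorem t (h1 : S_ZCMP) (h2 : S_DIAG) (h3 : S_DASY) (h4 : S_APOS) (h5 : S_POSV) (h6 : S_DB) : S_FAR := by
  intro k θ ε hk hθ hε
  -- the choice of `η`
  obtain ⟨η, hη, hη1⟩ : ∃ η : ℝ, 0 < η ∧ (1 + η) ^ (2 * k ^ 2 + 4) + (1 + η) ^ (2 * k ^ 2 + 2) * η ≤ 1 + ε := by
    have hc : ContinuousAt (fun η : ℝ => (1 + η) ^ (2 * k ^ 2 + 4) + (1 + η) ^ (2 * k ^ 2 + 2) * η) 0 := by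
      have c1 : ∀ s : ℝ, ContinuousAt (fun η : ℝ => (1 + η) ^ s) 0 := fun s =>
        ContinuousAt.rpow_const (by fun_prop) (Or.inl (by norm_num))
      exact (c1 _).add ((c1 _).mul continuousAt_id)
    have hc0 : (fun η : ℝ => (1 + η) ^ (2 * k ^ 2 + 4) + (1 + η) ^ (2 * k ^ 2 + 2) * η) 0 = 1 := by simp
    have h7 : Tendsto (fun η : ℝ => (1 + η) ^ (2 * k ^ 2 + 4) + (1 + η) ^ (2 * k ^ 2 + 2) * η) (𝓝[>] 0) (𝓝 1) := by
      have := hc.tendsto.mono_left (nhdsWithin_le_nhds (s := Set.Ioi (0:ℝ)))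
      simpa using this
    have h8 := (h7.eventually (eventually_lt_nhds (by linarith : (1:ℝ) < 1 + ε))).and self_mem_nhdsWithin
    obtain ⟨η, h9, h10⟩ := h8.exists
    exact ⟨η, h10, h9.le⟩
  set a : ℝ := (aC (k : ℂ)).re with ha
  have ha0 : 0 < a := (h4 k).1
  have haR : ∀ h, 0 ≤ aR k h := by
    intro h
    obtain ⟨c, C, hc, _, h7⟩ := h5 2 |k| (abs_nonneg k)
    obtain ⟨b, hb, h8⟩ := (h7 ![0, h]).2 (fun _ => k) (fun _ => le_rfl)
    unfold aR
    rw [h8, ofReal_re]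
    linarith
  obtain ⟨B, C, hB, hC, hdiag⟩ := h2 k hk
  have e1 := e12_tendsto.eventually (h3 k η hk hη)
  have e2 := h1 θ hθ η hη
  have e3 := small B C θ (η * a ^ 2) hθ (by positivity)
  have e4 := e12_tendsto.eventually (eventually_mem_nhdsWithin)
  have e5 : ∀ᶠ d : ℝ in 𝓝[>] 0, e12 d < 1 / 16 := by
    have := e12_tendsto.mono_right (nhdsWithin_le_nhds (s := Set.Ioi (0:ℝ)))
    exact this.eventually (eventually_lt_nhds (by norm_num))
  have e6 : ∀ᶠ d : ℝ in 𝓝[>] 0, (2 * d * zl d 0) ^ (2 * k ^ 2) < 1 + η := by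
    have h7 : Tendsto (fun d : ℝ => (2 * d * zl d 0) ^ (2 * k ^ 2)) (𝓝[>] 0) (𝓝 (1 ^ (2 * k ^ 2))) :=
      zl_res.rpow_const (Or.inl one_ne_zero)
    rw [Real.one_rpow] at h7
    exact h7.eventually (eventually_lt_nhds (by linarith))
  have e7 : ∀ᶠ d : ℝ in 𝓝[>] 0, 1 ≤ zl (e12 d) 0 := by
    have h7 := (zl_res.comp e12_tendsto).eventually (eventually_gt_nhds (by norm_num : (1:ℝ) / 2 < 1))
    filter_upwards [h7, e4, e5] with d h8 h9 h10
    have h11 : 0 < e12 d := h9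
    have h12 : 1 / 2 < 2 * e12 d * zl (e12 d) 0 := h8
    by_contra hcon
    have h13 := not_le.mp hcon
    nlinarith
  filter_upwards [e1, e2, e3, e4, e5, e6, e7, self_mem_nhdsWithin] with d e1 e2 e3 e4 e5 e6 e7 hd
  have hd0 : (0 : ℝ) < d := hd
  have hd2 : (0 : ℝ) < 2 * d := by linarith
  set e : ℝ := e12 d with he
  have he0 : 0 < e := e4
  set H : ℝ := (2 * d) ^ (-θ) with hH
  have hH0 : 0 < H := Real.rpow_pos_of_pos hd2 _
  obtain ⟨e1a, e1b⟩ := e1
  set z0 : ℝ := zl d 0 with hz0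
  set ze : ℝ := zl e 0 with hze
  have hz00 : 0 ≤ z0 := norm_nonneg _
  have hze0 : 0 < ze := by linarith
  set κ : ℝ := 2 * k ^ 2 with hκ
  have hκ0 : 0 < κ := by positivity
  have hη' : (0 : ℝ) < 1 + η := by linarith
  set K : ℝ := (1 + η) ^ κ * (1 + η) * (z0 ^ κ / ze ^ κ) with hK
  have hzeκ : 0 < ze ^ κ := Real.rpow_pos_of_pos hze0 _
  have hz0κ : 0 ≤ z0 ^ κ := Real.rpow_nonneg hz00 _
  have hK0 : 0 ≤ K := by
    rw [hK]
    positivity
  have hRn : ∀ h δ, 0 ≤ R k h δ := by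
    intro h δ
    unfold R
    have := haR h
    have h7 : 0 ≤ zl δ 0 := norm_nonneg _
    have h8 : 0 ≤ zl δ h := norm_nonneg _
    positivity
  -- pointwise comparison
  have hpt : ∀ x ∈ Set.Ioc 0 H, ∀ y ∈ Set.Ioc 0 H, (if 1 ≤ |y - x| then R k (y - x) d else 0) ≤ K * DD k e (y - x) := by
    intro x hx y hy
    split_ifs with h7
    · have h8 : |y - x| ≤ H := by
        rw [abs_le]
        constructor <;> linarith [hx.1, hx.2, hy.1, hy.2]
      have h9 := e2 (y - x) h7 h8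
      have h10 := e1a (y - x)
      have h11 : zl d (y - x) ^ κ ≤ (1 + η) ^ κ * zl e (y - x) ^ κ := by
        have hzn : 0 ≤ zl e (y - x) := norm_nonneg _
        rw [← Real.mul_rpow hη'.le hzn]
        exact Real.rpow_le_rpow (norm_nonneg _) h9 hκ0.le
      have h12 : R k (y - x) d ≤ (1 + η) ^ κ * (z0 ^ κ / ze ^ κ) * R k (y - x) e := by
        unfold R
        rw [← hκ, ← hz0, ← hze]
        have h13 : aR k (y - x) * z0 ^ κ * zl d (y - x) ^ κ ≤
            aR k (y - x) * z0 ^ κ * ((1 + η) ^ κ * zl e (y - x) ^ κ) :=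
          mul_le_mul_of_nonneg_left h11 (mul_nonneg (haR _) hz0κ)
        refine h13.trans (le_of_eq ?_)
        field_simp
      refine h12.trans ?_
      have h13 : (1 + η) ^ κ * (z0 ^ κ / ze ^ κ) * R k (y - x) e ≤
          (1 + η) ^ κ * (z0 ^ κ / ze ^ κ) * ((1 + η) * DD k e (y - x)) :=
        mul_le_mul_of_nonneg_left h10 (by positivity)
      refine h13.trans (le_of_eq ?_)
      rw [hK]
      ring
    · exact mul_nonneg hK0 (DD_nonneg _ _ _)
  have hDc := DD_cont h6 hk he0 (by linarith : e ≤ 1 / 2)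
  have hint := dbl hH0 (G := fun x y => if 1 ≤ |y - x| then R k (y - x) d else 0)
    (D := fun x y => K * DD k e (y - x)) (fun x y => by
      split_ifs
      · exact hRn _ _
      · exact le_rfl) (by
      have : Continuous fun p : ℝ × ℝ => K * DD k e (p.2 - p.1) := continuous_const.mul (hDc.comp (by fun_prop))
      exact this) hpt
  have hdg := hdiag e H he0 e5.le hH0
  have hS : (∑' n : ℕ, ‖dS (k : ℂ) n‖ ^ 2 * (n:ℝ) ^ (-(1 + 2 * e))) ^ 2 ≤ (1 + η) ^ 2 * a ^ 2 * ze ^ κ := by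
    have h7 : 0 ≤ ∑' n : ℕ, ‖dS (k : ℂ) n‖ ^ 2 * (n:ℝ) ^ (-(1 + 2 * e)) := tsum_nonneg fun n => by positivity
    refine (pow_le_pow_left₀ h7 e1b 2).trans (le_of_eq ?_)
    have h8 : ze ^ κ = (ze ^ (k ^ 2)) ^ 2 := by
      rw [hκ, mul_comm, Real.rpow_mul hze0.le]
      norm_num
    rw [h8]
    ring
  have hfin : (1 / H ^ 2) * (∫ x in (0:ℝ)..H, ∫ y in (0:ℝ)..H, K * DD k e (y - x)) ≤
      K * ((1 + η) ^ 2 * a ^ 2 * ze ^ κ + η * a ^ 2) := by
    have h7 : ∫ x in (0:ℝ)..H, ∫ y in (0:ℝ)..H, K * DD k e (y - x) =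
        K * ∫ x in (0:ℝ)..H, ∫ y in (0:ℝ)..H, DD k e (y - x) := by
      rw [← intervalIntegral.integral_const_mul]
      refine intervalIntegral.integral_congr fun x _ => ?_
      rw [intervalIntegral.integral_const_mul]
    rw [h7, mul_left_comm]
    refine mul_le_mul_of_nonneg_left ?_ hK0
    refine hdg.trans (add_le_add hS ?_)
    exact e3
  have hmain : K * ((1 + η) ^ 2 * a ^ 2 * ze ^ κ + η * a ^ 2) ≤ (1 + ε) * M k d ^ 2 := by
    have h7 : z0 ^ κ ≤ (1 + η) * (2 * d) ^ (-κ) := by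
      rw [Real.mul_rpow hd2.le hz00] at e6
      rw [Real.rpow_neg hd2.le, ← div_eq_mul_inv, le_div_iff₀ (Real.rpow_pos_of_pos hd2 _)]
      linarith
    have h8 : M k d ^ 2 = a ^ 2 * (2 * d) ^ (-κ) := by
      unfold M
      rw [← ha, mul_pow]
      congr 1
      rw [← Real.rpow_natCast, ← Real.rpow_mul hd2.le]
      congr 1
      rw [hκ]
      push_cast
      ring
    have h9 : 1 ≤ ze ^ κ := Real.one_le_rpow e7 hκ0.le
    have h10 : K * ((1 + η) ^ 2 * a ^ 2 * ze ^ κ + η * a ^ 2) ≤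
        (1 + η) ^ κ * (1 + η) * z0 ^ κ * ((1 + η) ^ 2 * a ^ 2 + η * a ^ 2) := by
      have h11 : K * ((1 + η) ^ 2 * a ^ 2 * ze ^ κ + η * a ^ 2) =
          (1 + η) ^ κ * (1 + η) * z0 ^ κ * ((1 + η) ^ 2 * a ^ 2 + η * a ^ 2 / ze ^ κ) := by
        rw [hK]
        field_simp
      rw [h11]
      have h12 : η * a ^ 2 / ze ^ κ ≤ η * a ^ 2 := div_le_self (by positivity) h9
      refine mul_le_mul_of_nonneg_left (by linarith) (by positivity)
    refine h10.trans ?_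
    have h11 : (1 + η) ^ κ * (1 + η) * z0 ^ κ * ((1 + η) ^ 2 * a ^ 2 + η * a ^ 2) ≤
        (1 + η) ^ κ * (1 + η) * ((1 + η) * (2 * d) ^ (-κ)) * ((1 + η) ^ 2 * a ^ 2 + η * a ^ 2) := by
      refine mul_le_mul_of_nonneg_right (mul_le_mul_of_nonneg_left h7 (by positivity)) (by positivity)
    refine h11.trans ?_
    rw [h8]
    have h12 : (1 + η) ^ κ * (1 + η) * ((1 + η) * (2 * d) ^ (-κ)) * ((1 + η) ^ 2 * a ^ 2 + η * a ^ 2) =
        ((1 + η) ^ (κ + 4) + (1 + η) ^ (κ + 2) * η) * (a ^ 2 * (2 * d) ^ (-κ)) := by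
      rw [Real.rpow_add hη', Real.rpow_add hη']
      have h13 : (1 + η) ^ (4 : ℝ) = (1 + η) ^ 4 := by exact_mod_cast Real.rpow_natCast (1 + η) 4
      have h14 : (1 + η) ^ (2 : ℝ) = (1 + η) ^ 2 := by exact_mod_cast Real.rpow_natCast (1 + η) 2
      rw [h13, h14]
      ring
    rw [h12]
    exact mul_le_mul_of_nonneg_right hη1 (by positivity)
  refine le_trans (mul_le_mul_of_nonneg_left hint (by positivity)) (hfin.trans hmain)

end Pool.Agent.H6F.FAR
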