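import Pool.Agent.H6F.Stm

/-!
Project H6F, stub FUB (helper33): Fubini's theorem for averages of a bounded measurable function over
short intervals.
-/

set_option autoImplicit false

open Filter MeasureTheory Topology Set

namespace Pool.Agent.H6F.FUB

lemma swap {μ ν : Measure ℝ} [IsFiniteMeasure μ] [IsFiniteMeasure ν] {f : ℝ → ℝ → ℝ} {C : ℝ}
    (hf : Measurable (Function.uncurry f)) (hC : ∀ t x, ‖f t x‖ ≤ C) :
    ∫ t, ∫ x, f t x ∂ν ∂μ = ∫ x, ∫ t, f t x ∂μ ∂ν :=
  integral_integral_swap (Integrable.of_bound hf.aestronglyMeasurable C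
    (Eventually.of_forall fun z => hC z.1 z.2))

theorem t : S_FUB := by
  intro g B T H hg hB hT hH
  have hB0 : 0 ≤ B := (hB 0).1.trans (hB 0).2
  set μ : Measure ℝ := volume.restrict (Ioc 0 T) with hμ
  set ν : Measure ℝ := volume.restrict (Ioc 0 H) with hν
  haveI : IsFiniteMeasure μ := ⟨by rw [hμ, Measure.restrict_apply_univ]; exact measure_Ioc_lt_top⟩
  haveI : IsFiniteMeasure ν := ⟨by rw [hν, Measure.restrict_apply_univ]; exact measure_Ioc_lt_top⟩
  have eT : ∀ f : ℝ → ℝ, ∫ t in (0:ℝ)..T, f t = ∫ t, f t ∂μ := fun f =>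
    intervalIntegral.integral_of_le hT.le
  have eH : ∀ f : ℝ → ℝ, ∫ t in (0:ℝ)..H, f t = ∫ t, f t ∂ν := fun f =>
    intervalIntegral.integral_of_le hH.le
  have hn : ∀ u, ‖g u‖ ≤ B := fun u => by
    rw [Real.norm_of_nonneg (hB u).1]
    exact (hB u).2
  have e1 : ∀ t : ℝ, ∫ u in t..(t + H), g u = ∫ x, g (t + x) ∂ν := by
    intro t
    rw [← eH, intervalIntegral.integral_comp_add_left (fun u => g u) t, add_zero]
  have hm2 : Measurable (Function.uncurry fun t x : ℝ => g (t + x)) :=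
    hg.comp (measurable_fst.add measurable_snd)
  have hG : Measurable fun t : ℝ => ∫ x, g (t + x) ∂ν :=
    (hm2.stronglyMeasurable.integral_prod_right).measurable
  obtain ⟨C, hC⟩ : ∃ C : ℝ, ∀ t : ℝ, ‖∫ x, g (t + x) ∂ν‖ ≤ C := by
    refine ⟨B * ν.real univ, fun t => ?_⟩
    exact norm_integral_le_of_norm_le_const (Eventually.of_forall fun x => hn (t + x))
  have hC0 : 0 ≤ C := (norm_nonneg _).trans (hC 0)
  constructor
  · simp only [e1, eT, eH, integral_const_mul]
    rw [swap hm2 (C := B) fun t x => hn _]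
    ring
  · simp only [e1, eT, eH, mul_pow, integral_const_mul]
    have h1 : ∀ t : ℝ, (∫ x, g (t + x) ∂ν) ^ 2 = ∫ x, g (t + x) * (∫ y, g (t + y) ∂ν) ∂ν := by
      intro t
      rw [integral_mul_const, sq]
    have h2 : ∫ t, (∫ x, g (t + x) ∂ν) ^ 2 ∂μ =
        ∫ x, ∫ t, g (t + x) * (∫ y, g (t + y) ∂ν) ∂μ ∂ν := by
      simp only [h1]
      refine swap (C := B * C) (hm2.mul (hG.comp measurable_fst)) fun t x => ?_
      rw [norm_mul]
      exact mul_le_mul (hn _) (hC t) (norm_nonneg _) hB0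
    have h3 : ∀ x : ℝ, ∫ t, g (t + x) * (∫ y, g (t + y) ∂ν) ∂μ =
        ∫ y, ∫ t, g (t + x) * g (t + y) ∂μ ∂ν := by
      intro x
      simp only [← integral_const_mul]
      refine swap (C := B * B) ((hg.comp (measurable_fst.add_const x)).mul hm2) fun t y => ?_
      rw [norm_mul]
      exact mul_le_mul (hn _) (hn _) (norm_nonneg _) hB0
    rw [h2]
    simp only [h3]
    ring

end Pool.Agent.H6F.FUB
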