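import Pool.Agent.H6F.Stm

set_option autoImplicit false

namespace Pool.Agent.H6F.GCDP

/-- the parametrisation of the solutions of `a b = a' b'` -/
theorem par (a b a' b' : ℕ) (ha : 0 < a) (hb : 0 < b) (ha' : 0 < a') (hb' : 0 < b') (h : a * b = a' * b')
    (hne : b ≠ b') : ∃ r : ℕ × ℕ × ℕ × ℕ, (0 < r.1 ∧ 0 < r.2.1 ∧ 0 < r.2.2.1 ∧ 0 < r.2.2.2 ∧ r.2.2.1 ≠ r.2.2.2) ∧
      a = r.2.1 * r.2.2.2 ∧ b = r.1 * r.2.2.1 ∧ a' = r.2.1 * r.2.2.1 ∧ b' = r.1 * r.2.2.2 := by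
  obtain ⟨g, β, β', hg, hco, hβ, hβ'⟩ := Nat.exists_coprime' (m := b) (n := b') (Nat.gcd_pos_of_pos_left b' hb)
  have hβ0 : 0 < β := by
    rcases Nat.eq_zero_or_pos β with h0 | h0
    · rw [hβ, h0] at hb; simp at hb
    · exact h0
  have hβ'0 : 0 < β' := by
    rcases Nat.eq_zero_or_pos β' with h0 | h0
    · rw [hβ', h0] at hb'; simp at hb'
    · exact h0
  have h1 : a * β = a' * β' := by
    have : (a * β) * g = (a' * β') * g := by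
      calc (a * β) * g = a * (β * g) := by ring
        _ = a * b := by rw [← hβ]
        _ = a' * b' := h
        _ = a' * (β' * g) := by rw [← hβ']
        _ = (a' * β') * g := by ring
    exact Nat.eq_of_mul_eq_mul_right hg this
  have h2 : β' ∣ a := by
    have : β' ∣ a * β := ⟨a', by rw [h1]; ring⟩
    exact (Nat.Coprime.dvd_of_dvd_mul_right hco.symm this)
  obtain ⟨m, hm⟩ := h2
  have hm0 : 0 < m := by
    rcases Nat.eq_zero_or_pos m with h0 | h0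
    · rw [hm, h0] at ha; simp at ha
    · exact h0
  have h3 : a' = m * β := by
    have : a' * β' = (m * β) * β' := by
      rw [← h1, hm]; ring
    exact Nat.eq_of_mul_eq_mul_right hβ'0 this
  refine ⟨(g, m, β, β'), ⟨hg, hm0, hβ0, hβ'0, ?_⟩, ?_, ?_, h3, ?_⟩
  · intro hb2
    apply hne
    change β = β' at hb2
    rw [hβ, hβ', hb2]
  · show a = m * β'
    rw [hm]; ring
  · show b = g * β
    rw [hβ]; ring
  · show b' = g * β'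
    rw [hβ']; ring

theorem t : Pool.Agent.H6F.S_GCDP := by
  intro f
  choose φ hφ using fun q : {q : ℕ × ℕ × ℕ × ℕ // 0 < q.1 ∧ 0 < q.2.1 ∧ 0 < q.2.2.1 ∧ 0 < q.2.2.2 ∧
      q.1 * q.2.1 = q.2.2.1 * q.2.2.2 ∧ q.2.1 ≠ q.2.2.2} =>
    par q.1.1 q.1.2.1 q.1.2.2.1 q.1.2.2.2 q.2.1 q.2.2.1 q.2.2.2.1 q.2.2.2.2.1 q.2.2.2.2.2.1 q.2.2.2.2.2.2
  have hinj : Function.Injective (fun q => (⟨φ q, (hφ q).1⟩ :
      {r : ℕ × ℕ × ℕ × ℕ // 0 < r.1 ∧ 0 < r.2.1 ∧ 0 < r.2.2.1 ∧ 0 < r.2.2.2 ∧ r.2.2.1 ≠ r.2.2.2})) := by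
    intro q q' hqq
    have he : φ q = φ q' := congrArg Subtype.val hqq
    obtain ⟨h1, h2, h3, h4⟩ := (hφ q).2
    obtain ⟨k1, k2, k3, k4⟩ := (hφ q').2
    rw [← he] at k1 k2 k3 k4
    apply Subtype.ext
    refine Prod.ext ?_ (Prod.ext ?_ (Prod.ext ?_ ?_))
    · rw [h1, k1]
    · rw [h2, k2]
    · rw [h3, k3]
    · rw [h4, k4]
  refine le_trans (le_of_eq ?_) (ENNReal.tsum_comp_le_tsum_of_injective hinj
    (fun r => f (r.1.2.1 * r.1.2.2.2) (r.1.1 * r.1.2.2.1) (r.1.2.1 * r.1.2.2.1) (r.1.1 * r.1.2.2.2)))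
  refine tsum_congr fun q => ?_
  obtain ⟨h1, h2, h3, h4⟩ := (hφ q).2
  show f q.1.1 q.1.2.1 q.1.2.2.1 q.1.2.2.2 = f ((φ q).2.1 * (φ q).2.2.2) ((φ q).1 * (φ q).2.2.1)
    ((φ q).2.1 * (φ q).2.2.1) ((φ q).1 * (φ q).2.2.2)
  rw [← h1, ← h2, ← h3, ← h4]

end Pool.Agent.H6F.GCDP
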