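import Pool.Agent.H6F.Stm
import Pool.Agent.H6Z.Mm2

set_option autoImplicit false

namespace Pool.Agent.H6F.NEARP

open Filter MeasureTheory Topology Complex
open Pool.Agent.N748.MG Pool.Agent.N748.MJ

lemma mz_nn (d u : ℝ) : 0 ≤ mz d u := norm_nonneg _

lemma F_nn (k V d u : ℝ) : 0 ≤ F k V d u := by
  unfold F
  split_ifs
  · exact Real.rpow_nonneg (mz_nn d u) _
  · exact le_rfl

lemma F_meas {k V d : ℝ} (hd : d ≤ 1 / 16) : Measurable (F k V d) := by
  have hc : Continuous (mz d) := TMA.cont hd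
  unfold F
  refine Measurable.ite (measurableSet_le hc.measurable measurable_const) ?_ measurable_const
  exact hc.measurable.pow_const _

lemma F_le {k V d : ℝ} (hk : 0 < k) (hd0 : 0 < d) (u : ℝ) : F k V d u ≤ ((2 * d) ^ (-V)) ^ (2 * k) := by
  unfold F
  split_ifs with h
  · exact Real.rpow_le_rpow (mz_nn d u) h (by linarith)
  · positivity

lemma F_int {k V d : ℝ} (hk : 0 < k) (hd0 : 0 < d) (hd : d ≤ 1 / 16) {k' V' : ℝ} (hk' : 0 < k') (x y T : ℝ) :
    IntervalIntegrable (fun t => F k V d (t + x) * F k' V' d (t + y)) volume 0 T := by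
  have hm : Measurable fun t => F k V d (t + x) * F k' V' d (t + y) :=
    ((F_meas hd).comp (measurable_id.add_const x)).mul ((F_meas hd).comp (measurable_id.add_const y))
  have h20 : 0 < 2 * d := by linarith
  have hB : ∀ t, ‖F k V d (t + x) * F k' V' d (t + y)‖ ≤ ((2 * d) ^ (-V)) ^ (2 * k) * ((2 * d) ^ (-V')) ^ (2 * k') := by
    intro t
    rw [Real.norm_of_nonneg (mul_nonneg (F_nn _ _ _ _) (F_nn _ _ _ _))]
    exact mul_le_mul (F_le hk hd0 _) (F_le hk' hd0 _) (F_nn _ _ _ _) (by positivity)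
  rw [intervalIntegrable_iff]
  refine Measure.integrableOn_of_bounded (M := ((2 * d) ^ (-V)) ^ (2 * k) * ((2 * d) ^ (-V')) ^ (2 * k')) ?_ hm.aestronglyMeasurable ?_
  · simp
  · exact Eventually.of_forall hB

lemma F_tilt {k V c V' d : ℝ} (hc : 0 < c) (hck : c ≤ k) (hVV : V ≤ V') (hd0 : 0 < d) (hd : d ≤ 1 / 16) (u : ℝ) :
    F k V d u ≤ (2 * d) ^ (-(2 * (k - c) * V)) * F c V' d u := by
  have h20 : 0 < 2 * d := by linarith
  have h21 : 2 * d ≤ 1 := by linarith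
  have hP : 0 ≤ (2 * d) ^ (-(2 * (k - c) * V)) := (Real.rpow_pos_of_pos h20 _).le
  by_cases h : mz d u ≤ (2 * d) ^ (-V)
  · have h' : mz d u ≤ (2 * d) ^ (-V') :=
      h.trans (Real.rpow_le_rpow_of_exponent_ge h20 h21 (by linarith))
    unfold F
    rw [if_pos h, if_pos h']
    have e1 : mz d u ^ (2 * k) = mz d u ^ (2 * (k - c)) * mz d u ^ (2 * c) := by
      rw [← Real.rpow_add_of_nonneg (mz_nn d u) (by linarith) (by linarith)]
      congr 1
      ring
    rw [e1]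
    refine mul_le_mul_of_nonneg_right ?_ (Real.rpow_nonneg (mz_nn d u) _)
    calc mz d u ^ (2 * (k - c)) ≤ ((2 * d) ^ (-V)) ^ (2 * (k - c)) :=
          Real.rpow_le_rpow (mz_nn d u) h (by linarith)
      _ = (2 * d) ^ (-(2 * (k - c) * V)) := by
          rw [← Real.rpow_mul h20.le]
          congr 1
          ring
  · have : F k V d u = 0 := by unfold F; rw [if_neg h]
    rw [this]
    exact mul_nonneg hP (F_nn _ _ _ _)

theorem t (hU : S_UNI) (hP : S_POSV) : S_NEARP := by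
  intro d hA k V c hc hck hV
  obtain ⟨c0, C0, -, hC0, hpos⟩ := hP 2 c hc.le
  obtain ⟨C1, hC1, hzl⟩ := Pool.Agent.H6Z.Mm.zl_bd 1
  obtain ⟨V', hV'⟩ : ∃ V' : ℝ, V' = max V (2 * c + 1) := ⟨_, rfl⟩
  have hVV : V ≤ V' := by rw [hV']; exact le_max_left _ _
  have h2c : 2 * c < V' := by
    have : 2 * c + 1 ≤ V' := by rw [hV']; exact le_max_right _ _
    linarith
  have hev := hU d hA c V' 1 hc h2c one_pos
  refine ⟨2 * C0 * C1 ^ (2 * c ^ 2) * C1 ^ (2 * c ^ 2), by positivity, ?_⟩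
  filter_upwards [hev, hA.pos, hA.t0.eventually (gt_mem_nhds (show (0:ℝ) < 1 / 16 by norm_num)),
    eventually_gt_atTop 0] with T hT hdT hdT16 hT0 x y hx hy hxy
  have h20 : 0 < 2 * d T := by linarith
  have h21 : 2 * d T ≤ 1 := by linarith
  have hk : 0 < k := lt_of_lt_of_le hc hck
  have hTx := hT x y hx hy
  obtain ⟨P, hPd⟩ : ∃ P : ℝ, P = (2 * d T) ^ (-(2 * (k - c) * V)) := ⟨_, rfl⟩
  have hP0 : 0 < P := by rw [hPd]; exact Real.rpow_pos_of_pos h20 _
  have h1 : ∫ t in (0:ℝ)..T, F k V (d T) (t + x) * F k V (d T) (t + y) ≤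
      P ^ 2 * ∫ t in (0:ℝ)..T, F c V' (d T) (t + x) * F c V' (d T) (t + y) := by
    rw [← intervalIntegral.integral_const_mul]
    refine intervalIntegral.integral_mono_on hT0.le (F_int hk hdT hdT16.le hk x y T)
      ((F_int hc hdT hdT16.le hc x y T).const_mul _) fun t _ => ?_
    have a1 := F_tilt (k := k) (V := V) hc hck hVV hdT hdT16.le (t + x)
    have a2 := F_tilt (k := k) (V := V) hc hck hVV hdT hdT16.le (t + y)
    rw [← hPd] at a1 a2
    calc F k V (d T) (t + x) * F k V (d T) (t + y) ≤ (P * F c V' (d T) (t + x)) * (P * F c V' (d T) (t + y)) :=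
          mul_le_mul a1 a2 (F_nn _ _ _ _) (mul_nonneg hP0.le (F_nn _ _ _ _))
      _ = _ := by ring
  have h2 : (1 / T) * (∫ t in (0:ℝ)..T, F k V (d T) (t + x) * F k V (d T) (t + y)) ≤
      P ^ 2 * (2 * R c (y - x) (d T)) := by
    calc (1 / T) * (∫ t in (0:ℝ)..T, F k V (d T) (t + x) * F k V (d T) (t + y))
        ≤ (1 / T) * (P ^ 2 * ∫ t in (0:ℝ)..T, F c V' (d T) (t + x) * F c V' (d T) (t + y)) :=
          mul_le_mul_of_nonneg_left h1 (by positivity)
      _ = P ^ 2 * ((1 / T) * ∫ t in (0:ℝ)..T, F c V' (d T) (t + x) * F c V' (d T) (t + y)) := by ring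
      _ ≤ P ^ 2 * (2 * R c (y - x) (d T)) := by
          refine mul_le_mul_of_nonneg_left ?_ (by positivity)
          refine hTx.trans (le_of_eq ?_)
          ring
  have haR : aR c (y - x) ≤ C0 := by
    unfold aR
    refine (Complex.re_le_norm _).trans ((hpos _).1 _ _ ?_ ?_) <;> intro j <;>
      rw [Complex.norm_real, Real.norm_of_nonneg hc.le]
  have hzn : ∀ u : ℝ, 0 ≤ zl (d T) u := fun u => norm_nonneg _
  have hz : ∀ u : ℝ, |u| ≤ 1 → zl (d T) u ≤ C1 * (2 * d T) ^ (-1 : ℝ) ∧ (u ≠ 0 → zl (d T) u ≤ C1 * |u| ^ (-1 : ℝ)) := by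
    intro u hu
    have hb := hzl (d T) u hdT.le hdT16.le hu (Or.inl hdT.ne')
    have e0 : Pool.Agent.H6Z.Mm.zl (d T) u = zl (d T) u := rfl
    rw [e0] at hb
    have hn1 := Pool.Agent.H6Z.Mm.norm_ge_d (d T) u
    have hn2 := Pool.Agent.H6Z.Mm.norm_ge_u (d T) u
    rw [abs_of_pos h20] at hn1
    constructor
    · rw [Real.rpow_neg_one, ← div_eq_mul_inv, le_div_iff₀ h20]
      have := mul_le_mul_of_nonneg_right hn1 (hzn u)
      linarith
    · intro hu0
      have hua : 0 < |u| := abs_pos.2 hu0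
      rw [Real.rpow_neg_one, ← div_eq_mul_inv, le_div_iff₀ hua]
      have := mul_le_mul_of_nonneg_right hn2 (hzn u)
      linarith
  have hc2 : 0 ≤ 2 * c ^ 2 := by positivity
  have hz0 : zl (d T) 0 ^ (2 * c ^ 2) ≤ C1 ^ (2 * c ^ 2) * (2 * d T) ^ (-(2 * c ^ 2)) := by
    have h3 := (hz 0 (by simp)).1
    calc zl (d T) 0 ^ (2 * c ^ 2) ≤ (C1 * (2 * d T) ^ (-1 : ℝ)) ^ (2 * c ^ 2) :=
          Real.rpow_le_rpow (hzn 0) h3 hc2
      _ = C1 ^ (2 * c ^ 2) * (2 * d T) ^ (-(2 * c ^ 2)) := by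
          rw [Real.mul_rpow (by linarith) (by positivity), ← Real.rpow_mul h20.le]
          congr 2
          ring
  have hPP : P ^ 2 = (2 * d T) ^ (-(4 * (k - c) * V)) := by
    rw [hPd, ← Real.rpow_natCast, ← Real.rpow_mul h20.le]
    congr 1
    push_cast
    ring
  have hR : ∀ Z : ℝ, 0 ≤ Z → zl (d T) (y - x) ^ (2 * c ^ 2) ≤ Z →
      P ^ 2 * (2 * R c (y - x) (d T)) ≤ (2 * C0 * C1 ^ (2 * c ^ 2)) * ((2 * d T) ^ (-(4 * (k - c) * V)) *
        (2 * d T) ^ (-(2 * c ^ 2))) * Z := by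
    intro Z hZ hZz
    unfold R
    rw [hPP]
    have q1 : aR c (y - x) * zl (d T) 0 ^ (2 * c ^ 2) ≤ C0 * (C1 ^ (2 * c ^ 2) * (2 * d T) ^ (-(2 * c ^ 2))) := by
      refine mul_le_mul haR hz0 (Real.rpow_nonneg (hzn 0) _) hC0.le
    have q2 : aR c (y - x) * zl (d T) 0 ^ (2 * c ^ 2) * zl (d T) (y - x) ^ (2 * c ^ 2) ≤
        C0 * (C1 ^ (2 * c ^ 2) * (2 * d T) ^ (-(2 * c ^ 2))) * Z :=
      mul_le_mul q1 hZz (Real.rpow_nonneg (hzn _) _) (by positivity)
    calc (2 * d T) ^ (-(4 * (k - c) * V)) * (2 * (aR c (y - x) * zl (d T) 0 ^ (2 * c ^ 2) * zl (d T) (y - x) ^ (2 * c ^ 2)))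
        ≤ (2 * d T) ^ (-(4 * (k - c) * V)) * (2 * (C0 * (C1 ^ (2 * c ^ 2) * (2 * d T) ^ (-(2 * c ^ 2))) * Z)) := by
          refine mul_le_mul_of_nonneg_left ?_ (Real.rpow_nonneg h20.le _)
          linarith
      _ = _ := by ring
  constructor
  · refine h2.trans ((hR (C1 ^ (2 * c ^ 2) * (2 * d T) ^ (-(2 * c ^ 2))) (by positivity) ?_).trans (le_of_eq ?_))
    · have h3 := (hz (y - x) hxy).1
      calc zl (d T) (y - x) ^ (2 * c ^ 2) ≤ (C1 * (2 * d T) ^ (-1 : ℝ)) ^ (2 * c ^ 2) :=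
            Real.rpow_le_rpow (hzn _) h3 hc2
        _ = C1 ^ (2 * c ^ 2) * (2 * d T) ^ (-(2 * c ^ 2)) := by
            rw [Real.mul_rpow (by linarith) (by positivity), ← Real.rpow_mul h20.le]
            congr 2
            ring
    · have e1 : (2 * d T) ^ (-(4 * (k - c) * V + 4 * c ^ 2)) = (2 * d T) ^ (-(4 * (k - c) * V)) *
          (2 * d T) ^ (-(2 * c ^ 2)) * (2 * d T) ^ (-(2 * c ^ 2)) := by
        rw [← Real.rpow_add h20, ← Real.rpow_add h20]
        congr 1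
        ring
      rw [e1]
      ring
  · intro hne
    have hu0 : y - x ≠ 0 := sub_ne_zero.2 (Ne.symm hne)
    have hua : 0 < |y - x| := abs_pos.2 hu0
    refine h2.trans ((hR (C1 ^ (2 * c ^ 2) * |y - x| ^ (-(2 * c ^ 2))) (by positivity) ?_).trans (le_of_eq ?_))
    · have h3 := (hz (y - x) hxy).2 hu0
      calc zl (d T) (y - x) ^ (2 * c ^ 2) ≤ (C1 * |y - x| ^ (-1 : ℝ)) ^ (2 * c ^ 2) :=
            Real.rpow_le_rpow (hzn _) h3 hc2
        _ = C1 ^ (2 * c ^ 2) * |y - x| ^ (-(2 * c ^ 2)) := by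
            rw [Real.mul_rpow (by linarith) (by positivity), ← Real.rpow_mul hua.le]
            congr 2
            ring
    · have e1 : (2 * d T) ^ (-(4 * (k - c) * V + 2 * c ^ 2)) = (2 * d T) ^ (-(4 * (k - c) * V)) *
          (2 * d T) ^ (-(2 * c ^ 2)) := by
        rw [← Real.rpow_add h20]
        congr 1
        ring
      rw [e1]
      ring

end Pool.Agent.H6F.NEARP
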