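import Pool.Agent.H6F.Stm
import Pool.Agent.N748.MG.Ev
import Pool.Agent.N748.MG.TMA

set_option autoImplicit false

/-! Project H6F, stub SUB: the subcritical truncated moments with a shift. Author: helper27. -/

namespace Pool.Agent.H6F.SUB

open Filter MeasureTheory Topology Complex
open Pool.Agent.N748.MG Pool.Agent.N748.MJ

lemma F_nn (k V d u : ℝ) : 0 ≤ F k V d u := by
  unfold F
  split_ifs
  · exact Real.rpow_nonneg (norm_nonneg _) _
  · exact le_rfl

lemma F_le {k V d u : ℝ} (hk : 0 < k) (hd : 0 < d) : F k V d u ≤ (2 * d) ^ (-(2 * k * V)) := by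
  have h0 : (0:ℝ) < 2 * d := by positivity
  unfold F
  split_ifs with h
  · calc mz d u ^ (2 * k) ≤ ((2 * d) ^ (-V)) ^ (2 * k) :=
          Real.rpow_le_rpow (norm_nonneg _) h (by positivity)
      _ = (2 * d) ^ (-(2 * k * V)) := by
          rw [← Real.rpow_mul h0.le]
          ring_nf
  · positivity

lemma F_meas {k V d : ℝ} (hd : d ≤ 1 / 16) : Measurable (F k V d) := by
  unfold F
  exact Measurable.ite (measurableSet_le (TMA.cont hd).measurable measurable_const)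
    ((TMA.cont hd).measurable.pow_const _) measurable_const

lemma F_int {k V d : ℝ} (hk : 0 < k) (hd0 : 0 < d) (hd : d ≤ 1 / 16) (a b : ℝ) :
    IntervalIntegrable (F k V d) volume a b := by
  refine (intervalIntegrable_const (c := (2 * d) ^ (-(2 * k * V)))).mono_fun'
    (F_meas hd).aestronglyMeasurable (Eventually.of_forall fun u => ?_)
  show ‖F k V d u‖ ≤ _
  rw [Real.norm_of_nonneg (F_nn k V d u)]
  exact F_le hk hd0

lemma ML_eq {k V d T : ℝ} (hd : d ≤ 1 / 16) (hT : 0 < T) :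
    ML k ((2 * d) ^ (-V)) d T = (1 / T) * ∫ t in (0:ℝ)..T, F k V d t := by
  unfold ML
  congr 1
  have hS : MeasurableSet {t : ℝ | mz d t ≤ (2 * d) ^ (-V)} :=
    measurableSet_le (TMA.cont hd).measurable measurable_const
  have e1 : {t : ℝ | t ∈ Set.Icc 0 T ∧ mz d t ≤ (2 * d) ^ (-V)} =
      Set.Icc 0 T ∩ {t : ℝ | mz d t ≤ (2 * d) ^ (-V)} := rfl
  rw [e1, ← setIntegral_indicator hS, integral_Icc_eq_integral_Ioc,
    intervalIntegral.integral_of_le hT.le]
  refine setIntegral_congr_fun measurableSet_Ioc fun t _ => ?_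
  show Set.indicator _ _ t = F k V d t
  unfold F
  by_cases h : mz d t ≤ (2 * d) ^ (-V)
  · rw [Set.indicator_of_mem (show t ∈ {t : ℝ | mz d t ≤ (2 * d) ^ (-V)} from h), if_pos h]
  · rw [Set.indicator_of_notMem (show t ∉ {t : ℝ | mz d t ≤ (2 * d) ^ (-V)} from h), if_neg h]

/-- the shift costs little -/
lemma shift {k V d T x : ℝ} (hk : 0 < k) (hd0 : 0 < d) (hd : d ≤ 1 / 16) (_hT : 0 < T) (hx : 0 ≤ x) :
    ∫ t in (0:ℝ)..T, F k V d (t + x) ≤
      (∫ t in (0:ℝ)..T, F k V d t) + x * (2 * d) ^ (-(2 * k * V)) := by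
  have e1 : ∫ t in (0:ℝ)..T, F k V d (t + x) = ∫ t in x..(T + x), F k V d t := by
    rw [intervalIntegral.integral_comp_add_right (fun t => F k V d t) x, zero_add]
  have e2 := intervalIntegral.integral_add_adjacent_intervals (F_int (V := V) hk hd0 hd 0 x)
    (F_int (V := V) hk hd0 hd x (T + x))
  have e3 := intervalIntegral.integral_add_adjacent_intervals (F_int (V := V) hk hd0 hd 0 T)
    (F_int (V := V) hk hd0 hd T (T + x))
  have e4 : 0 ≤ ∫ t in (0:ℝ)..x, F k V d t :=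
    intervalIntegral.integral_nonneg hx fun u _ => F_nn k V d u
  have e5 : ∫ t in T..(T + x), F k V d t ≤ x * (2 * d) ^ (-(2 * k * V)) := by
    calc ∫ t in T..(T + x), F k V d t ≤ ∫ t in T..(T + x), (2 * d) ^ (-(2 * k * V)) :=
          intervalIntegral.integral_mono_on (by linarith) (F_int hk hd0 hd _ _)
            intervalIntegrable_const fun u _ => F_le hk hd0
      _ = x * (2 * d) ^ (-(2 * k * V)) := by
          rw [intervalIntegral.integral_const, smul_eq_mul]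
          ring
  rw [e1]
  linarith

theorem t (h : S_TM3) (_ : S_APOS) : S_SUB := by
  intro d hd k V hV hVk
  have hk : 0 < k := hV.trans hVk
  obtain ⟨c, hc⟩ : ∃ c : ℝ, c = (aC V).re / (2 * (k - V)) := ⟨_, rfl⟩
  have h1 := h d hd k V hk hVk
  rw [← hc] at h1
  have g1 := h1.eventually_le_const (show c < c + 1 by linarith)
  have g2 : ∀ᶠ T : ℝ in atTop, d T ≤ Real.exp (-(2 * (|c| + 1)) ^ 2) / 2 :=
    hd.t0.eventually_le_const (by positivity)
  have g3 := (Ev.win (D := V ^ 2) (c := 1 / 2) (e := 1 / 2) (by norm_num) (by norm_num)).app hd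
  have g4 := (Ev.of_le (d := 1 / 16) (by norm_num)).app hd
  filter_upwards [g1, g2, g3, g4, hd.pos, eventually_gt_atTop 0] with T g1 g2 g3 g4 g5 hT x hx0 hx
  obtain ⟨δ, hδ⟩ : ∃ δ : ℝ, δ = d T := ⟨_, rfl⟩
  rw [← hδ] at g1 g2 g3 g4 g5 ⊢
  have h2δ : (0:ℝ) < 2 * δ := by positivity
  obtain ⟨P, hP⟩ : ∃ P : ℝ, P = (2 * δ) ^ (V ^ 2) := ⟨_, rfl⟩
  obtain ⟨B, hB⟩ : ∃ B : ℝ, B = (2 * δ) ^ (-(2 * k * V)) := ⟨_, rfl⟩
  obtain ⟨Q, hQ⟩ : ∃ Q : ℝ, Q = (2 * δ) ^ (2 * k * V - V ^ 2) := ⟨_, rfl⟩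
  have hP0 : 0 < P := by rw [hP]; positivity
  have hB0 : 0 < B := by rw [hB]; positivity
  have hQ0 : 0 < Q := by rw [hQ]; positivity
  have hPB : (2 * δ) ^ (V ^ 2 - 2 * k * V) = P * B := by
    rw [hP, hB, ← Real.rpow_add h2δ]
    ring_nf
  have hQPB : Q * (P * B) = 1 := by
    rw [← hPB, hQ, ← Real.rpow_add h2δ]
    ring_nf
    exact Real.rpow_zero _
  -- the square root is large
  have hL : 2 * (|c| + 1) ≤ Real.sqrt (Real.pi * Real.log (1 / (2 * δ))) := by
    refine Real.le_sqrt_of_sq_le ?_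
    have e1 : (2 * (|c| + 1)) ^ 2 ≤ Real.log (1 / (2 * δ)) := by
      rw [one_div, Real.log_inv, le_neg, ← Real.log_exp (-(2 * (|c| + 1)) ^ 2)]
      exact Real.log_le_log h2δ (by linarith)
    have e2 : (0:ℝ) ≤ Real.log (1 / (2 * δ)) := (sq_nonneg _).trans e1
    nlinarith [Real.pi_gt_three]
  rw [← hQ] at g1
  have hML0 : 0 ≤ ML k ((2 * δ) ^ (-V)) δ T := by
    rw [ML_eq g4 hT]
    exact mul_nonneg (by positivity) (intervalIntegral.integral_nonneg hT.le fun u _ => F_nn k V δ u)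
  have hQM : Q * ML k ((2 * δ) ^ (-V)) δ T ≤ 1 / 2 := by
    have e0 : 0 ≤ Q * ML k ((2 * δ) ^ (-V)) δ T := mul_nonneg hQ0.le hML0
    have e1 := mul_le_mul_of_nonneg_right hL e0
    have e2 : c ≤ |c| := le_abs_self c
    have e3 : 0 < |c| + 1 := by positivity
    nlinarith
  have hM2 : ML k ((2 * δ) ^ (-V)) δ T ≤ 1 / 2 * (P * B) := by
    have e1 := mul_le_mul_of_nonneg_right hQM (mul_nonneg hP0.le hB0.le)
    calc ML k ((2 * δ) ^ (-V)) δ T = Q * ML k ((2 * δ) ^ (-V)) δ T * (P * B) := by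
          rw [mul_comm Q, mul_assoc, hQPB, mul_one]
      _ ≤ 1 / 2 * (P * B) := e1
  -- the shift
  have hs := shift (V := V) hk g5 g4 hT hx0
  rw [← hB] at hs
  obtain ⟨s, hsd⟩ : ∃ s : ℝ, s = T ^ ((1:ℝ) / 2) := ⟨_, rfl⟩
  have hs0 : 0 < s := by rw [hsd]; positivity
  have hss : s * s = T := by
    rw [hsd, ← Real.rpow_add hT]
    norm_num
  rw [← hsd] at g3 hx
  have hPs : 1 ≤ 1 / 2 * s * P := by
    have e1 : (2 * δ) ^ (-V ^ 2) ≤ δ ^ (-V ^ 2) := by
      have e2 : δ ≤ 2 * δ := by linarith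
      exact Real.rpow_le_rpow_of_nonpos g5 e2 (by nlinarith [sq_nonneg V])
    have e2 : (2 * δ) ^ (-V ^ 2) * P = 1 := by
      rw [hP, ← Real.rpow_add h2δ]
      simp
    have e3 := mul_le_mul_of_nonneg_right (e1.trans g3) hP0.le
    rwa [e2] at e3
  have hxB : (1 / T) * (x * B) ≤ 1 / 2 * (P * B) := by
    rw [one_div_mul_eq_div, div_le_iff₀ hT, ← hss]
    have e1 : x * B ≤ s * B := mul_le_mul_of_nonneg_right hx hB0.le
    have e2 : s * B * 1 ≤ s * B * (1 / 2 * s * P) :=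
      mul_le_mul_of_nonneg_left hPs (mul_nonneg hs0.le hB0.le)
    nlinarith
  rw [hPB]
  have e1 : (1 / T) * ∫ t in (0:ℝ)..T, F k V δ (t + x) ≤
      (1 / T) * (∫ t in (0:ℝ)..T, F k V δ t) + (1 / T) * (x * B) := by
    rw [← mul_add]
    exact mul_le_mul_of_nonneg_left hs (by positivity)
  rw [ML_eq g4 hT] at hM2
  linarith

end Pool.Agent.H6F.SUB
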