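import Pool.Agent.H6F.Stm
import Pool.Agent.N748.MG.Ev
import Pool.Agent.N748.MG.TMA

set_option autoImplicit false

/-! (SUP): the maximum over a short interval, upper bound off a small set. -/

namespace Pool.Agent.H6F.SUP

open Filter MeasureTheory Topology Complex Set
open Pool.Agent.N748.MG Pool.Agent.N748.MJ

lemma zeta_meas : Measurable riemannZeta := by
  refine measurable_of_continuousOn_compl_singleton 1 ?_
  intro s hs
  exact (differentiableAt_riemannZeta hs).continuousAt.continuousWithinAt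

lemma mz_meas : Measurable fun p : ℝ × ℝ => mz p.1 p.2 := by
  have h1 : Measurable fun p : ℝ × ℝ => pw p.1 p.2 := by
    unfold pw
    fun_prop
  exact (zeta_meas.comp h1).norm

/-- the cut square -/
noncomputable def g (m σ v : ℝ) : ℝ := if m / 2 < mz σ v then mz σ v ^ 2 else 0

lemma g_nn (m σ v : ℝ) : 0 ≤ g m σ v := by
  unfold g
  split_ifs
  · positivity
  · exact le_rfl

lemma g_meas (m : ℝ) : Measurable fun p : ℝ × ℝ => g m p.1 p.2 := by
  unfold g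
  exact Measurable.ite (measurableSet_lt measurable_const mz_meas) (mz_meas.pow_const 2) measurable_const

lemma g_le (m σ v : ℝ) : g m σ v ≤ mz σ v ^ 2 := by
  unfold g
  split_ifs
  · exact le_rfl
  · positivity

lemma g_int (m σ T : ℝ) (hσ : σ ≤ 1 / 16) : IntegrableOn (fun v => g m σ v) (Ioc 0 (2 * T)) := by
  have h1 : IntegrableOn (fun v => mz σ v ^ 2) (Icc 0 (2 * T)) :=
    ((TMA.cont hσ).pow 2).continuousOn.integrableOn_compact isCompact_Icc
  have h2 : IntegrableOn (fun v => mz σ v ^ 2) (Ioc 0 (2 * T)) := h1.mono_set Ioc_subset_Icc_self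
  refine Integrable.mono' h2 ?_ ?_
  · exact ((g_meas m).comp (measurable_const.prodMk measurable_id)).aestronglyMeasurable
  · refine Eventually.of_forall fun v => ?_
    rw [Real.norm_of_nonneg (g_nn m σ v)]
    exact g_le m σ v

/-- the key inequality -/
lemma key (h : S_SUPA) (d m H T A : ℝ) (hd : 0 < d) (hd2 : d ≤ 1 / 24) (hm : 0 < m) (hH : 0 ≤ H)
    (hHT : H + 1 ≤ T)
    (hB : ∀ x : ℝ, 1 / 2 ≤ x → x ≤ 3 / 2 → ∫ v in (0:ℝ)..(2 * T), g m (x * d) v ≤ A) :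
    ENNReal.ofReal ((1 / 2) * d ^ 2 * m ^ 2) *
      volume {t : ℝ | 3 ≤ t ∧ t ≤ T ∧ ∃ u : ℝ, t ≤ u ∧ u ≤ t + H ∧ m < mz d u} ≤
      ENNReal.ofReal A * ENNReal.ofReal d * ENNReal.ofReal (H + 2) := by
  have hT : 0 < T := by linarith
  set c : ENNReal := ENNReal.ofReal ((1 / 2) * d ^ 2 * m ^ 2) with hc
  set G : ℝ × ℝ → ENNReal := fun p => ‖g m p.1 p.2‖ₑ with hG
  have hGm : Measurable G := (g_meas m).enorm
  set μ : Measure (ℝ × ℝ) :=
    ((volume : Measure ℝ).restrict (Ioc (d / 2) (3 * d / 2))).prod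
      ((volume : Measure ℝ).restrict (Ioc 0 (2 * T))) with hμ
  have hK : Measurable fun q : ℝ × (ℝ × ℝ) =>
      if q.1 - 1 < q.2.2 ∧ q.2.2 ≤ q.1 + H + 1 then G q.2 else 0 := by
    refine Measurable.ite ?_ (hGm.comp measurable_snd) measurable_const
    have m1 : MeasurableSet {q : ℝ × (ℝ × ℝ) | q.1 - 1 < q.2.2} := measurableSet_lt (by fun_prop) (by fun_prop)
    have m2 : MeasurableSet {q : ℝ × (ℝ × ℝ) | q.2.2 ≤ q.1 + H + 1} :=
      measurableSet_le (by fun_prop) (by fun_prop)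
    exact m1.inter m2
  set Φ : ℝ → ENNReal := fun t => ∫⁻ p, (if t - 1 < p.2 ∧ p.2 ≤ t + H + 1 then G p else 0) ∂μ with hΦ
  have hΦm : Measurable Φ := Measurable.lintegral_prod_right' (ν := μ) hK
  -- step A
  have hA : {t : ℝ | 3 ≤ t ∧ t ≤ T ∧ ∃ u : ℝ, t ≤ u ∧ u ≤ t + H ∧ m < mz d u} ⊆ {t | c ≤ Φ t} := by
    rintro t ⟨ht3, htT, u, hu1, hu2, hu3⟩
    have h1 := h d m u hd (by linarith) (by linarith) hm hu3
    have h2 : c ≤ ‖∫ σ in (d / 2)..(3 * d / 2), ∫ v in (u - 1)..(u + 1), g m σ v‖ₑ := by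
      rw [hc, ← ofReal_norm]
      exact ENNReal.ofReal_le_ofReal (h1.trans (le_abs_self _))
    refine h2.trans ?_
    have hΦt : Φ t = ∫⁻ σ in Ioc (d / 2) (3 * d / 2), ∫⁻ v in Ioc 0 (2 * T),
        (if t - 1 < v ∧ v ≤ t + H + 1 then G (σ, v) else 0) := by
      rw [hΦ]
      show ∫⁻ p, (if t - 1 < p.2 ∧ p.2 ≤ t + H + 1 then G p else 0) ∂μ = _
      rw [hμ, lintegral_prod]
      exact (hK.comp (measurable_const.prodMk measurable_id)).aemeasurable
    rw [hΦt, intervalIntegral.integral_of_le (by linarith)]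
    refine (enorm_integral_le_lintegral_enorm _).trans (lintegral_mono fun σ => ?_)
    show ‖∫ v in (u - 1)..(u + 1), g m σ v‖ₑ ≤ _
    rw [intervalIntegral.integral_of_le (by linarith)]
    refine (enorm_integral_le_lintegral_enorm _).trans ?_
    calc ∫⁻ v in Ioc (u - 1) (u + 1), ‖g m σ v‖ₑ
        = ∫⁻ v in Ioc (u - 1) (u + 1), (if t - 1 < v ∧ v ≤ t + H + 1 then G (σ, v) else 0) := by
          refine setLIntegral_congr_fun measurableSet_Ioc fun v hv => ?_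
          have h3 : t - 1 < v ∧ v ≤ t + H + 1 := ⟨by linarith [hv.1], by linarith [hv.2]⟩
          show ‖g m σ v‖ₑ = if t - 1 < v ∧ v ≤ t + H + 1 then G (σ, v) else 0
          rw [if_pos h3]
      _ ≤ _ := lintegral_mono_set (Ioc_subset_Ioc (by linarith) (by linarith))
  -- step B
  have hMarkov : c * volume {t | c ≤ Φ t} ≤ ∫⁻ t, Φ t := mul_meas_ge_le_lintegral hΦm c
  have hstep : c * volume {t : ℝ | 3 ≤ t ∧ t ≤ T ∧ ∃ u : ℝ, t ≤ u ∧ u ≤ t + H ∧ m < mz d u} ≤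
      ∫⁻ t, Φ t := (mul_le_mul_right (measure_mono hA) c).trans hMarkov
  refine hstep.trans ?_
  -- step C
  have hC : ∫⁻ t, Φ t = ∫⁻ p, G p * ENNReal.ofReal (H + 2) ∂μ := by
    rw [hΦ]
    show ∫⁻ t, ∫⁻ p, (if t - 1 < p.2 ∧ p.2 ≤ t + H + 1 then G p else 0) ∂μ = _
    rw [lintegral_lintegral_swap (f := fun (t : ℝ) (p : ℝ × ℝ) =>
      if t - 1 < p.2 ∧ p.2 ≤ t + H + 1 then G p else 0) hK.aemeasurable]
    refine lintegral_congr fun p => ?_
    have e1 : (fun t : ℝ => if t - 1 < p.2 ∧ p.2 ≤ t + H + 1 then G p else 0) =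
        (Ico (p.2 - H - 1) (p.2 + 1)).indicator fun _ => G p := by
      funext t
      by_cases h3 : t - 1 < p.2 ∧ p.2 ≤ t + H + 1
      · rw [if_pos h3, indicator_of_mem]
        exact ⟨by linarith [h3.2], by linarith [h3.1]⟩
      · rw [if_neg h3, indicator_of_notMem]
        rintro ⟨h4, h5⟩
        exact h3 ⟨by linarith, by linarith⟩
    rw [e1, lintegral_indicator_const measurableSet_Ico, Real.volume_Ico]
    congr 2
    ring
  rw [hC, lintegral_mul_const _ hGm]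
  refine mul_le_mul_left ?_ _
  -- step D
  rw [hμ, lintegral_prod _ hGm.aemeasurable]
  have hD : ∀ σ ∈ Ioc (d / 2) (3 * d / 2), ∫⁻ v in Ioc 0 (2 * T), G (σ, v) ≤ ENNReal.ofReal A := by
    intro σ hσ
    have h1 : σ ≤ 1 / 16 := by linarith [hσ.2]
    have h2 := hB (σ / d) (by rw [le_div_iff₀ hd]; linarith [hσ.1]) (by rw [div_le_iff₀ hd]; linarith [hσ.2])
    rw [div_mul_cancel₀ _ hd.ne', intervalIntegral.integral_of_le (by linarith)] at h2
    refine le_trans (le_of_eq ?_) (ENNReal.ofReal_le_ofReal h2)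
    rw [ofReal_integral_eq_lintegral_ofReal (g_int m σ T h1) (Eventually.of_forall fun v => g_nn m σ v)]
    refine lintegral_congr fun v => ?_
    show ‖g m σ v‖ₑ = _
    rw [← ofReal_norm, Real.norm_of_nonneg (g_nn m σ v)]
  calc ∫⁻ σ in Ioc (d / 2) (3 * d / 2), ∫⁻ v in Ioc 0 (2 * T), G (σ, v)
      ≤ ∫⁻ σ in Ioc (d / 2) (3 * d / 2), ENNReal.ofReal A :=
        setLIntegral_mono measurable_const hD
    _ = ENNReal.ofReal A * ENNReal.ofReal d := by
        rw [setLIntegral_const, Real.volume_Ioc]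
        congr 2
        ring

theorem t (h : S_SUPA) (h' : S_SUPB) : S_SUP := by
  intro d hd V θ ε hθ hV0 hV hε
  have hV1 : 1 < V := by nlinarith
  set η : ℝ := (V ^ 2 - 1 - θ) / 2 with hη
  have hη0 : 0 < η := by rw [hη]; linarith
  -- the size conditions
  have hsize : ∀ᶠ T : ℝ in atTop, (24 * 2 ^ η) * (d T) ^ η ≤ ε :=
    (Ev.small (C := 24 * 2 ^ η) (c := η) (e := ε) hη0 hε).app hd
  have hwin : ∀ᶠ T : ℝ in atTop, (d T) ^ (-θ) ≤ (1 / 4) * T ^ ((1:ℝ) / 2) :=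
    (Ev.win (D := θ) (c := 1 / 4) (e := 1 / 2) (by norm_num) (by norm_num)).app hd
  have hTl : ∀ᶠ T : ℝ in atTop, 6 / ε ≤ T := eventually_ge_atTop _
  filter_upwards [h' d hd V η hV1 hη0, hd.pos, hd.t0.eventually_le_const (show (0:ℝ) < 1 / 24 by norm_num),
    hsize, hwin, hTl, eventually_ge_atTop (4:ℝ)] with T hB hd0 hd24 hsz hw hT6 hT4
  have hT0 : 0 < T := by linarith
  set δ : ℝ := d T with hδ
  set D : ℝ := 2 * δ with hDD
  have hD0 : 0 < D := by rw [hDD]; linarith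
  have hD1 : D ≤ 1 := by rw [hDD]; linarith
  set m : ℝ := D ^ (-V) with hm
  have hm0 : 0 < m := Real.rpow_pos_of_pos hD0 _
  set H : ℝ := D ^ (-θ) with hH
  have hH1 : 1 ≤ H := Real.one_le_rpow_of_pos_of_le_one_of_nonpos hD0 hD1 (by linarith)
  have hHT : H + 1 ≤ T := by
    have h1 : H ≤ δ ^ (-θ) := by
      rw [hH]
      exact Real.rpow_le_rpow_of_nonpos hd0 (by rw [hDD]; linarith) (by linarith)
    have h2 : T ^ ((1:ℝ) / 2) ≤ T := by
      calc T ^ ((1:ℝ) / 2) ≤ T ^ (1:ℝ) := Real.rpow_le_rpow_of_exponent_le (by linarith) (by norm_num)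
        _ = T := Real.rpow_one T
    linarith
  have hk := key h δ m H T (T * D ^ (V ^ 2 - 2 * V - η)) hd0 hd24 hm0 (by linarith) hHT
    (fun x hx1 hx2 => hB x hx1 hx2)
  set B : Set ℝ := {t : ℝ | 3 ≤ t ∧ t ≤ T ∧ ∃ u : ℝ, t ≤ u ∧ u ≤ t + H ∧ m < mz δ u} with hBd
  set A : ℝ := T * D ^ (V ^ 2 - 2 * V - η) with hA
  have hA0 : 0 ≤ A := by positivity
  have hc0 : 0 < (1 / 2) * δ ^ 2 * m ^ 2 := by positivity
  -- the real inequality
  have hreal : A * δ * (H + 2) ≤ (ε / 2 * T) * ((1 / 2) * δ ^ 2 * m ^ 2) := by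
    have e1 : D ^ (V ^ 2 - 2 * V - η) = D ^ η * D * D ^ θ * D ^ (-(2 * V)) := by
      have e0 : V ^ 2 - 2 * V - η = η + 1 + θ + (-(2 * V)) := by rw [hη]; ring
      rw [e0, Real.rpow_add hD0, Real.rpow_add hD0, Real.rpow_add hD0, Real.rpow_one]
    have e2 : m ^ 2 = D ^ (-(2 * V)) := by
      rw [hm, ← Real.rpow_natCast, ← Real.rpow_mul hD0.le]
      congr 1
      push_cast
      ring
    have e3 : D ^ θ * H = 1 := by
      rw [hH, ← Real.rpow_add hD0, add_neg_cancel, Real.rpow_zero]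
    have e4 : D ^ θ * (H + 2) ≤ 3 := by
      have h0 : 0 < D ^ θ := Real.rpow_pos_of_pos hD0 _
      nlinarith
    have e5 : 24 * D ^ η ≤ ε := by
      rw [hDD, Real.mul_rpow (by norm_num) hd0.le]
      linarith
    have hm2 : 0 < D ^ (-(2 * V)) := Real.rpow_pos_of_pos hD0 _
    have hDη : 0 < D ^ η := Real.rpow_pos_of_pos hD0 _
    rw [hA, e1, e2]
    calc T * (D ^ η * D * D ^ θ * D ^ (-(2 * V))) * δ * (H + 2)
        = (T * D ^ η * D * D ^ (-(2 * V)) * δ) * (D ^ θ * (H + 2)) := by ring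
      _ ≤ (T * D ^ η * D * D ^ (-(2 * V)) * δ) * 3 := mul_le_mul_of_nonneg_left e4 (by positivity)
      _ = (24 * D ^ η) * (T * D ^ (-(2 * V)) * δ ^ 2 / 4) := by rw [hDD]; ring
      _ ≤ ε * (T * D ^ (-(2 * V)) * δ ^ 2 / 4) := mul_le_mul_of_nonneg_right e5 (by positivity)
      _ = (ε / 2 * T) * ((1 / 2) * δ ^ 2 * D ^ (-(2 * V))) := by ring
  have hvol : volume B ≤ ENNReal.ofReal (ε / 2 * T) := by
    have h1 : ENNReal.ofReal ((1 / 2) * δ ^ 2 * m ^ 2) * volume B ≤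
        ENNReal.ofReal ((1 / 2) * δ ^ 2 * m ^ 2) * ENNReal.ofReal (ε / 2 * T) := by
      refine hk.trans ?_
      rw [← ENNReal.ofReal_mul hA0, ← ENNReal.ofReal_mul (by positivity), ← ENNReal.ofReal_mul hc0.le]
      refine ENNReal.ofReal_le_ofReal (hreal.trans (le_of_eq ?_))
      ring
    exact (ENNReal.mul_le_mul_iff_right (ENNReal.ofReal_pos.mpr hc0).ne' ENNReal.ofReal_ne_top).mp h1
  have hsub : {t : ℝ | 0 ≤ t ∧ t ≤ T ∧ ∃ u : ℝ, t ≤ u ∧ u ≤ t + H ∧ m < mz δ u} ⊆ Icc 0 3 ∪ B := by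
    rintro t ⟨h1, h2, h3⟩
    by_cases h4 : t ≤ 3
    · exact Or.inl ⟨h1, h4⟩
    · exact Or.inr ⟨(not_le.mp h4).le, h2, h3⟩
  calc volume {t : ℝ | 0 ≤ t ∧ t ≤ T ∧ ∃ u : ℝ, t ≤ u ∧ u ≤ t + H ∧ m < mz δ u}
      ≤ volume (Icc (0:ℝ) 3) + volume B := (measure_mono hsub).trans (measure_union_le _ _)
    _ ≤ ENNReal.ofReal 3 + ENNReal.ofReal (ε / 2 * T) := by
        refine add_le_add (le_of_eq ?_) hvol
        rw [Real.volume_Icc]
        norm_num
    _ = ENNReal.ofReal (3 + ε / 2 * T) := (ENNReal.ofReal_add (by norm_num) (by positivity)).symm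
    _ ≤ ENNReal.ofReal (ε * T) := by
        refine ENNReal.ofReal_le_ofReal ?_
        have h6 : 6 ≤ T * ε := by rwa [div_le_iff₀ hε] at hT6
        linarith

end Pool.Agent.H6F.SUP
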