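import Pool.Agent.H6F.Stm

set_option autoImplicit false

namespace Pool.Agent.H6F.SUPA

open Filter MeasureTheory Topology Complex Set
open Pool.Agent.N748.MG Pool.Agent.N748.MJ

/-- circle mean value inequality -/
theorem circ (c : ℂ) (ρ : ℝ) (hρ : 0 ≤ ρ) (hd : ∀ z ∈ Metric.closedBall c ρ, z ≠ 1) :
    2 * Real.pi * ‖riemannZeta c‖ ^ 2 ≤
      ∫ θ in (-Real.pi)..Real.pi, ‖riemannZeta (c + ρ * exp (θ * I))‖ ^ 2 := by
  have hdf : DiffContOnCl ℂ (fun z => riemannZeta z ^ 2) (Metric.ball c |ρ|) := by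
    rw [abs_of_nonneg hρ]
    refine DifferentiableOn.diffContOnCl ?_
    intro z hz
    have hz' : z ∈ Metric.closedBall c ρ := Metric.closure_ball_subset_closedBall hz
    exact ((differentiableAt_riemannZeta (hd z hz')).pow 2).differentiableWithinAt
  have h1 := hdf.circleAverage
  rw [Real.circleAverage_def] at h1
  have h2 : (2 * Real.pi : ℝ) • (riemannZeta c ^ 2) = ∫ θ in (0:ℝ)..2 * Real.pi, (fun z => riemannZeta z ^ 2) (circleMap c ρ θ) := by
    rw [← h1, smul_smul, mul_inv_cancel₀ (by positivity), one_smul]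
  have h3 : 2 * Real.pi * ‖riemannZeta c‖ ^ 2 = ‖(2 * Real.pi : ℝ) • (riemannZeta c ^ 2)‖ := by
    rw [norm_smul, norm_pow, Real.norm_of_nonneg (by positivity)]
  rw [h3, h2]
  have h4 : ‖∫ θ in (0:ℝ)..2 * Real.pi, (fun z => riemannZeta z ^ 2) (circleMap c ρ θ)‖ ≤
      ∫ θ in (0:ℝ)..2 * Real.pi, ‖(fun z => riemannZeta z ^ 2) (circleMap c ρ θ)‖ :=
    intervalIntegral.norm_integral_le_integral_norm (by positivity)
  refine h4.trans (le_of_eq ?_)
  have hper : Function.Periodic (fun θ : ℝ => ‖(fun z => riemannZeta z ^ 2) (circleMap c ρ θ)‖) (2 * Real.pi) := by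
    intro θ
    simp only
    rw [periodic_circleMap c ρ θ]
  have h5 := hper.intervalIntegral_add_eq 0 (-Real.pi)
  rw [zero_add, show -Real.pi + 2 * Real.pi = Real.pi by ring] at h5
  rw [h5]
  refine intervalIntegral.integral_congr fun θ _ => ?_
  simp only [circleMap, norm_pow]


/-- the integrand in polar coordinates -/
noncomputable def PH (c : ℂ) (K : ℝ) (p : ℝ × ℝ) : ℝ := p.1 * (‖riemannZeta (c + p.1 * exp (p.2 * I))‖ ^ 2 - K)

theorem PH_cont (c : ℂ) (K r : ℝ) (hr : 0 ≤ r) (hd : ∀ z ∈ Metric.closedBall c r, z ≠ 1) :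
    ContinuousOn (PH c K) (Icc 0 r ×ˢ Icc (-Real.pi) Real.pi) := by
  unfold PH
  refine ContinuousOn.mul continuousOn_fst (ContinuousOn.sub (ContinuousOn.pow (ContinuousOn.norm ?_) 2) continuousOn_const)
  intro p hp
  have h1 : c + p.1 * exp (p.2 * I) ≠ 1 := by
    refine hd _ ?_
    rw [Metric.mem_closedBall, dist_eq_norm, add_sub_cancel_left, norm_mul, norm_exp_ofReal_mul_I, mul_one, norm_real,
      Real.norm_of_nonneg hp.1.1]
    exact hp.1.2
  have h2 : ContinuousAt riemannZeta (c + p.1 * exp (p.2 * I)) := (differentiableAt_riemannZeta h1).continuousAt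
  have h3 : Continuous fun p : ℝ × ℝ => c + p.1 * exp (p.2 * I) := by fun_prop
  exact (ContinuousAt.comp (f := fun p : ℝ × ℝ => c + p.1 * exp (p.2 * I)) h2 h3.continuousAt).continuousWithinAt

theorem PH_int (c : ℂ) (K r : ℝ) (hr : 0 ≤ r) (hd : ∀ z ∈ Metric.closedBall c r, z ≠ 1) :
    IntegrableOn (PH c K) (Ioo 0 r ×ˢ Ioo (-Real.pi) Real.pi) (volume : Measure (ℝ × ℝ)) :=
  ((PH_cont c K r hr hd).integrableOn_compact (isCompact_Icc.prod isCompact_Icc)).mono_set
    (prod_mono Ioo_subset_Icc_self Ioo_subset_Icc_self)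

theorem PH_ge (c : ℂ) (K r : ℝ) (hr : 0 < r) (hd : ∀ z ∈ Metric.closedBall c r, z ≠ 1) :
    Real.pi * r ^ 2 * (‖riemannZeta c‖ ^ 2 - K) ≤ ∫ p in Ioo 0 r ×ˢ Ioo (-Real.pi) Real.pi, PH c K p := by
  have hi := PH_int c K r hr.le hd
  rw [Measure.volume_eq_prod] at hi ⊢
  rw [setIntegral_prod _ hi]
  have hi' : Integrable (fun x => ∫ y in Ioo (-Real.pi) Real.pi, PH c K (x, y)) (volume.restrict (Ioo 0 r)) := by
    rw [IntegrableOn, ← Measure.prod_restrict] at hi
    exact hi.integral_prod_left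
  have h1 : ∀ x ∈ Ioo 0 r, x * (2 * Real.pi * (‖riemannZeta c‖ ^ 2 - K)) ≤ ∫ y in Ioo (-Real.pi) Real.pi, PH c K (x, y) := by
    intro x hx
    have hd' : ∀ z ∈ Metric.closedBall c x, z ≠ 1 := fun z hz => hd z (Metric.closedBall_subset_closedBall hx.2.le hz)
    have h2 := circ c x hx.1.le hd'
    have hcont : Continuous fun θ : ℝ => ‖riemannZeta (c + x * exp (θ * I))‖ ^ 2 := by
      refine (Continuous.norm ?_).pow 2
      refine continuous_iff_continuousAt.mpr fun θ => ?_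
      have h1 : c + x * exp (θ * I) ≠ 1 := by
        refine hd' _ ?_
        rw [Metric.mem_closedBall, dist_eq_norm, add_sub_cancel_left, norm_mul, norm_exp_ofReal_mul_I, mul_one, norm_real,
          Real.norm_of_nonneg hx.1.le]
      have h2 : ContinuousAt riemannZeta (c + x * exp (θ * I)) := (differentiableAt_riemannZeta h1).continuousAt
      have h3 : Continuous fun θ : ℝ => c + x * exp (θ * I) := by fun_prop
      exact ContinuousAt.comp (f := fun θ : ℝ => c + x * exp (θ * I)) h2 h3.continuousAt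
    have h3 : ∫ y in Ioo (-Real.pi) Real.pi, PH c K (x, y) =
        x * ((∫ θ in (-Real.pi)..Real.pi, ‖riemannZeta (c + x * exp (θ * I))‖ ^ 2) - 2 * Real.pi * K) := by
      rw [← integral_Ioc_eq_integral_Ioo, ← intervalIntegral.integral_of_le (by linarith [Real.pi_pos])]
      simp only [PH]
      rw [intervalIntegral.integral_const_mul, intervalIntegral.integral_sub (hcont.intervalIntegrable _ _)
        (continuous_const.intervalIntegrable _ _), intervalIntegral.integral_const]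
      simp only [smul_eq_mul]
      ring
    rw [h3]
    refine mul_le_mul_of_nonneg_left ?_ hx.1.le
    linarith
  have h2 : ∫ x in Ioo 0 r, x * (2 * Real.pi * (‖riemannZeta c‖ ^ 2 - K)) ≤
      ∫ x in Ioo 0 r, ∫ y in Ioo (-Real.pi) Real.pi, PH c K (x, y) := by
    refine setIntegral_mono_on ?_ hi' measurableSet_Ioo h1
    exact ((continuous_id.mul continuous_const).integrableOn_Icc (a := 0) (b := r)).mono_set Ioo_subset_Icc_self
  refine le_trans (le_of_eq ?_) h2
  rw [← integral_Ioc_eq_integral_Ioo, ← intervalIntegral.integral_of_le hr.le, intervalIntegral.integral_mul_const,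
    integral_id]
  ring

/-- the disc integral in Cartesian coordinates -/
theorem disc (c : ℂ) (K r : ℝ) (hr : 0 < r) (hd : ∀ z ∈ Metric.closedBall c r, z ≠ 1) :
    Real.pi * r ^ 2 * (‖riemannZeta c‖ ^ 2 - K) ≤
      ∫ p : ℝ × ℝ, (if p.1 ^ 2 + p.2 ^ 2 < r ^ 2 then ‖riemannZeta (c + p.1 + p.2 * I)‖ ^ 2 - K else 0) := by
  refine (PH_ge c K r hr hd).trans (le_of_eq ?_)
  rw [← integral_comp_polarCoord_symm, polarCoord_target]
  have hsub : Ioo 0 r ×ˢ Ioo (-Real.pi) Real.pi ⊆ Ioi (0:ℝ) ×ˢ Ioo (-Real.pi) Real.pi :=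
    prod_mono (fun x hx => hx.1) subset_rfl
  have key : ∀ p : ℝ × ℝ, (polarCoord.symm p).1 ^ 2 + (polarCoord.symm p).2 ^ 2 = p.1 ^ 2 := by
    intro p
    simp only [polarCoord_symm_apply]
    have := Real.cos_sq_add_sin_sq p.2
    calc (p.1 * Real.cos p.2) ^ 2 + (p.1 * Real.sin p.2) ^ 2 = p.1 ^ 2 * (Real.cos p.2 ^ 2 + Real.sin p.2 ^ 2) := by ring
      _ = p.1 ^ 2 := by rw [this, mul_one]
  have hval : ∀ p : ℝ × ℝ, c + ((polarCoord.symm p).1 : ℂ) + ((polarCoord.symm p).2 : ℂ) * I = c + p.1 * exp (p.2 * I) := by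
    intro p
    simp only [polarCoord_symm_apply]
    rw [exp_mul_I]
    push_cast
    ring
  refine Eq.trans ?_ (setIntegral_eq_of_subset_of_forall_sdiff_eq_zero (measurableSet_Ioi.prod measurableSet_Ioo) hsub
    (fun p hp => ?_)).symm
  · refine setIntegral_congr_fun (measurableSet_Ioo.prod measurableSet_Ioo) fun p hp => ?_
    have h1 : p.1 ^ 2 < r ^ 2 := pow_lt_pow_left₀ hp.1.2 hp.1.1.le two_ne_zero
    simp only [key, hval, h1, if_true, smul_eq_mul, PH]
  · have h1 : ¬ p.1 ^ 2 < r ^ 2 := by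
      intro h
      refine hp.2 ⟨⟨hp.1.1, ?_⟩, hp.1.2⟩
      exact lt_of_pow_lt_pow_left₀ 2 hr.le h
    simp only [key, h1, if_false, smul_zero]

/-- the integrand on the rectangle -/
theorem rect_int (m d u : ℝ) (hu : 2 ≤ u) :
    IntegrableOn (fun p : ℝ × ℝ => if m / 2 < mz p.1 p.2 then mz p.1 p.2 ^ 2 else 0)
      (Icc (d / 2) (3 * d / 2) ×ˢ Icc (u - 1) (u + 1)) volume := by
  have hc : ContinuousOn (fun p : ℝ × ℝ => mz p.1 p.2) (Icc (d / 2) (3 * d / 2) ×ˢ Icc (u - 1) (u + 1)) := by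
    intro p hp
    unfold mz pw
    have h1 : (1 / 2 + (p.1 : ℂ) + p.2 * I) ≠ 1 := by
      intro h
      have := congrArg Complex.im h
      simp at this
      have h2 := hp.2.1
      linarith
    have h2 : ContinuousAt riemannZeta (1 / 2 + (p.1 : ℂ) + p.2 * I) := (differentiableAt_riemannZeta h1).continuousAt
    have h3 : Continuous fun p : ℝ × ℝ => (1 / 2 + (p.1 : ℂ) + p.2 * I) := by fun_prop
    exact (ContinuousAt.comp (f := fun p : ℝ × ℝ => (1 / 2 + (p.1 : ℂ) + p.2 * I)) h2 h3.continuousAt).norm.continuousWithinAt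
  have hR : MeasurableSet (Icc (d / 2) (3 * d / 2) ×ˢ Icc (u - 1) (u + 1)) := measurableSet_Icc.prod measurableSet_Icc
  have hi : IntegrableOn (fun p : ℝ × ℝ => mz p.1 p.2 ^ 2) (Icc (d / 2) (3 * d / 2) ×ˢ Icc (u - 1) (u + 1)) volume :=
    (hc.pow 2).integrableOn_compact (isCompact_Icc.prod isCompact_Icc)
  refine Integrable.mono' hi ?_ (Eventually.of_forall fun p => ?_)
  · have hm : AEMeasurable (fun p : ℝ × ℝ => mz p.1 p.2) (volume.restrict (Icc (d / 2) (3 * d / 2) ×ˢ Icc (u - 1) (u + 1))) :=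
      hc.aemeasurable hR
    have hm2 : Measurable fun x : ℝ => if m / 2 < x then x ^ 2 else 0 :=
      Measurable.ite measurableSet_Ioi (measurable_id.pow_const 2) measurable_const
    exact (hm2.comp_aemeasurable hm).aestronglyMeasurable
  · split_ifs
    · rw [Real.norm_of_nonneg (by positivity)]
    · simp only [norm_zero]
      positivity

theorem t : Pool.Agent.H6F.S_SUPA := by
  intro d m u hd hd1 hu hm hmz
  set c : ℂ := 1 / 2 + (d : ℂ) + u * I with hc
  have hdisc : ∀ z ∈ Metric.closedBall c (d / 2), z ≠ 1 := by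
    intro z hz h
    rw [Metric.mem_closedBall, dist_eq_norm, h] at hz
    have h1 := (Complex.abs_im_le_norm (1 - c)).trans hz
    rw [hc] at h1
    simp at h1
    have h2 := (le_abs_self u).trans h1
    linarith
  have h1 := disc c (m ^ 2 / 4) (d / 2) (by linarith) hdisc
  have hmc : m < ‖riemannZeta c‖ := hmz
  have h2 : (1 / 2) * d ^ 2 * m ^ 2 ≤ Real.pi * (d / 2) ^ 2 * (‖riemannZeta c‖ ^ 2 - m ^ 2 / 4) := by
    have h3 : m ^ 2 ≤ ‖riemannZeta c‖ ^ 2 := pow_le_pow_left₀ hm.le hmc.le 2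
    have h4 := Real.pi_gt_three
    have h5 : (3 / 4) * m ^ 2 ≤ ‖riemannZeta c‖ ^ 2 - m ^ 2 / 4 := by linarith
    calc (1 / 2) * d ^ 2 * m ^ 2 ≤ 3 * (d / 2) ^ 2 * ((3 / 4) * m ^ 2) := by nlinarith [mul_pos (pow_pos hd 2) (pow_pos hm 2)]
      _ ≤ Real.pi * (d / 2) ^ 2 * ((3 / 4) * m ^ 2) := by
          refine mul_le_mul_of_nonneg_right (mul_le_mul_of_nonneg_right h4.le (by positivity)) (by positivity)
      _ ≤ _ := mul_le_mul_of_nonneg_left h5 (by positivity)
  refine h2.trans (h1.trans ?_)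
  -- translate
  rw [← integral_add_right_eq_self (fun p : ℝ × ℝ => (if p.1 ^ 2 + p.2 ^ 2 < (d / 2) ^ 2 then
    ‖riemannZeta (c + p.1 + p.2 * I)‖ ^ 2 - m ^ 2 / 4 else 0)) (-d, -u)]
  have hR : MeasurableSet (Icc (d / 2) (3 * d / 2) ×ˢ Icc (u - 1) (u + 1)) := measurableSet_Icc.prod measurableSet_Icc
  have hI := rect_int m d u hu
  have hrhs : ∫ σ in (d / 2)..(3 * d / 2), ∫ v in (u - 1)..(u + 1), (if m / 2 < mz σ v then mz σ v ^ 2 else 0) =
      ∫ p : ℝ × ℝ, (Icc (d / 2) (3 * d / 2) ×ˢ Icc (u - 1) (u + 1)).indicator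
        (fun p : ℝ × ℝ => if m / 2 < mz p.1 p.2 then mz p.1 p.2 ^ 2 else 0) p := by
    rw [integral_indicator hR]
    rw [Measure.volume_eq_prod] at hI ⊢
    rw [setIntegral_prod _ hI, intervalIntegral.integral_of_le (by linarith), integral_Icc_eq_integral_Ioc]
    refine setIntegral_congr_fun measurableSet_Ioc fun σ _ => ?_
    simp only
    rw [intervalIntegral.integral_of_le (by linarith), integral_Icc_eq_integral_Ioc]
  rw [hrhs]
  have hnn : ∀ p : ℝ × ℝ, 0 ≤ (Icc (d / 2) (3 * d / 2) ×ˢ Icc (u - 1) (u + 1)).indicator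
        (fun p : ℝ × ℝ => if m / 2 < mz p.1 p.2 then mz p.1 p.2 ^ 2 else 0) p := by
    intro p
    refine indicator_nonneg (fun q _ => ?_) p
    split_ifs
    · positivity
    · exact le_rfl
  by_cases hf : Integrable (fun x : ℝ × ℝ => (fun p : ℝ × ℝ => (if p.1 ^ 2 + p.2 ^ 2 < (d / 2) ^ 2 then
    ‖riemannZeta (c + p.1 + p.2 * I)‖ ^ 2 - m ^ 2 / 4 else 0)) (x + (-d, -u)))
  swap
  · rw [integral_undef hf]
    exact integral_nonneg hnn
  refine integral_mono hf ((integrable_indicator_iff hR).mpr hI) fun x => ?_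
  simp only [Prod.fst_add, Prod.snd_add]
  split_ifs with hx
  · have ha : (x.1 + -d) ^ 2 < (d / 2) ^ 2 := by nlinarith [sq_nonneg (x.2 + -u)]
    have hb : (x.2 + -u) ^ 2 < (d / 2) ^ 2 := by nlinarith [sq_nonneg (x.1 + -d)]
    have ha' := abs_lt_of_sq_lt_sq' ha (by linarith)
    have hb' := abs_lt_of_sq_lt_sq' hb (by linarith)
    have hxR : x ∈ Icc (d / 2) (3 * d / 2) ×ˢ Icc (u - 1) (u + 1) :=
      ⟨⟨by linarith [ha'.1], by linarith [ha'.2]⟩, ⟨by linarith [hb'.1], by linarith [hb'.2]⟩⟩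
    rw [indicator_of_mem hxR]
    have hz : ‖riemannZeta (c + ((x.1 + -d : ℝ) : ℂ) + ((x.2 + -u : ℝ) : ℂ) * I)‖ = mz x.1 x.2 := by
      unfold mz pw
      congr 2
      rw [hc]
      push_cast
      ring
    rw [hz]
    split_ifs with h5
    · nlinarith [sq_nonneg m]
    · have h6 : mz x.1 x.2 ≤ m / 2 := not_lt.mp h5
      have h7 : 0 ≤ mz x.1 x.2 := norm_nonneg _
      nlinarith
  · exact hnn x

end Pool.Agent.H6F.SUPA
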