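import Pool.Agent.H6F.Stm
import Pool.Agent.N748.MG.TMA

set_option autoImplicit false

/-!
# Stub SUPB (helper13)
-/

namespace Pool.Agent.H6F.SUPB

open Filter MeasureTheory Topology Complex
open Pool.Agent.N748.MG Pool.Agent.N748.MJ

lemma pt {c c' z V : ℝ} (hV : 1 < V) (hc : 0 < c) (hc' : 0 < c') (hz : 0 ≤ z) :
    (if c < z then z ^ 2 else 0) ≤
      c ^ (-(2 * V - 2)) * (if z ≤ c' then z ^ (2 * V) else 0) + (c' ^ 2)⁻¹ * z ^ 4 := by
  have h1 : 0 ≤ c ^ (-(2 * V - 2)) := Real.rpow_nonneg hc.le _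
  have h2 : 0 ≤ z ^ (2 * V) := Real.rpow_nonneg hz _
  split_ifs with h3 h4 h4
  · have hz0 : 0 < z := hc.trans h3
    have h5 : z ^ (-(2 * V - 2)) ≤ c ^ (-(2 * V - 2)) :=
      Real.rpow_le_rpow_of_nonpos hc h3.le (by linarith)
    have h6 : z ^ 2 = z ^ (-(2 * V - 2)) * z ^ (2 * V) := by
      rw [← Real.rpow_add hz0]
      have : -(2 * V - 2) + 2 * V = ((2 : ℕ) : ℝ) := by push_cast; ring
      rw [this, Real.rpow_natCast]
    have h7 := mul_le_mul_of_nonneg_right h5 h2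
    rw [← h6] at h7
    have h8 : 0 ≤ (c' ^ 2)⁻¹ * z ^ 4 := by positivity
    linarith
  · have h5 : c' ≤ z := (not_le.mp h4).le
    have h6 : z ^ 2 ≤ (c' ^ 2)⁻¹ * z ^ 4 := by
      rw [inv_mul_eq_div, le_div_iff₀ (by positivity)]
      have h7 : c' ^ 2 ≤ z ^ 2 := pow_le_pow_left₀ hc'.le h5 2
      nlinarith [sq_nonneg z]
    linarith
  · positivity
  · positivity

lemma int_bd {δ S c c' V : ℝ} (hδ : δ ≤ 1 / 16) (hS : 0 < S) (hV : 1 < V) (hc : 0 < c) (hc' : 0 < c') :
    ∫ v in (0:ℝ)..S, (if c < mz δ v then mz δ v ^ 2 else 0) ≤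
      c ^ (-(2 * V - 2)) * (S * ML V c' δ S) + (c' ^ 2)⁻¹ * ∫ v in (0:ℝ)..S, mz δ v ^ 4 := by
  have hcont := TMA.cont hδ
  have hm : Measurable fun v : ℝ => (if mz δ v ≤ c' then mz δ v ^ (2 * V) else 0) :=
    Measurable.ite (measurableSet_le hcont.measurable measurable_const) (hcont.measurable.pow_const _) measurable_const
  have hz : ∀ v, 0 ≤ mz δ v := fun v => norm_nonneg _
  have hi1 : IntegrableOn (fun v : ℝ => (if mz δ v ≤ c' then mz δ v ^ (2 * V) else 0)) (Set.Ioc 0 S) := by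
    refine Measure.integrableOn_of_bounded (M := c' ^ (2 * V)) ?_ hm.aestronglyMeasurable ?_
    · exact measure_Ioc_lt_top.ne
    · refine Eventually.of_forall fun v => ?_
      split_ifs with h
      · rw [Real.norm_of_nonneg (Real.rpow_nonneg (hz v) _)]
        exact Real.rpow_le_rpow (hz v) h (by linarith)
      · rw [norm_zero]
        exact Real.rpow_nonneg hc'.le _
  have hi2 : IntegrableOn (fun v : ℝ => mz δ v ^ 4) (Set.Ioc 0 S) :=
    ((hcont.pow 4).integrableOn_Icc).mono_set Set.Ioc_subset_Icc_self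
  have hML : S * ML V c' δ S = ∫ v in Set.Ioc 0 S, (if mz δ v ≤ c' then mz δ v ^ (2 * V) else 0) := by
    unfold ML
    rw [← mul_assoc, mul_one_div_cancel hS.ne', one_mul]
    have h1 : {t : ℝ | t ∈ Set.Icc 0 S ∧ mz δ t ≤ c'} = Set.Icc 0 S ∩ {t | mz δ t ≤ c'} := rfl
    have h2 : MeasurableSet {t : ℝ | mz δ t ≤ c'} := measurableSet_le hcont.measurable measurable_const
    rw [h1, ← setIntegral_indicator h2, integral_Icc_eq_integral_Ioc]
    refine integral_congr_ae (Eventually.of_forall fun v => ?_)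
    simp only [Set.indicator, Set.mem_ofPred_eq]
  rw [hML, intervalIntegral.integral_of_le hS.le, intervalIntegral.integral_of_le hS.le, ← integral_const_mul,
    ← integral_const_mul, ← integral_add (hi1.const_mul _) (hi2.const_mul _)]
  refine integral_mono_of_nonneg (Eventually.of_forall fun v => ?_)
    ((hi1.const_mul _).add (hi2.const_mul _)) (Eventually.of_forall fun v => pt hV hc hc' (hz v))
  dsimp only
  split_ifs
  · positivity
  · exact le_rfl

lemma ad {d x : ℝ → ℝ} (hd : Ad d) (hx : ∀ T, 1 / 2 ≤ x T ∧ x T ≤ 3 / 2) : Ad fun S => x (S / 2) * d (S / 2) := by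
  have hS : Tendsto (fun S : ℝ => S / 2) atTop atTop := tendsto_id.atTop_div_const (by norm_num)
  have h1 : ∀ᶠ S : ℝ in atTop, 0 < d (S / 2) := hS.eventually hd.pos
  have h2 : Tendsto (fun S : ℝ => d (S / 2)) atTop (𝓝 0) := hd.t0.comp hS
  refine ⟨?_, ?_, ?_⟩
  · filter_upwards [h1] with S h
    have := (hx (S / 2)).1
    positivity
  · have h3 : Tendsto (fun S : ℝ => 3 / 2 * d (S / 2)) atTop (𝓝 0) := by
      simpa using h2.const_mul (3 / 2)
    refine tendsto_of_tendsto_of_tendsto_of_le_of_le' tendsto_const_nhds h3 ?_ ?_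
    · filter_upwards [h1] with S h
      have := (hx (S / 2)).1
      positivity
    · filter_upwards [h1] with S h
      exact mul_le_mul_of_nonneg_right (hx (S / 2)).2 h.le
  · have h3 : Tendsto (fun S : ℝ => (1 / 8) * (d (S / 2) * Real.log (S / 2) / Real.log (1 / d (S / 2)) ^ 2)) atTop atTop :=
      (hd.tL.comp hS).const_mul_atTop (by norm_num)
    refine tendsto_atTop_mono' _ ?_ h3
    have h4 := h2.eventually (eventually_lt_nhds (by norm_num : (0:ℝ) < 1 / 4))
    filter_upwards [h1, h4, eventually_ge_atTop (2:ℝ)] with S h5 h6 h7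
    set e := d (S / 2) with he
    obtain ⟨h8, h9⟩ := hx (S / 2)
    set y := x (S / 2) with hy
    have hy0 : 0 < y := by linarith
    have hl1 : 0 < Real.log (1 / (y * e)) := by
      refine Real.log_pos ?_
      rw [lt_div_iff₀ (by positivity)]
      nlinarith
    have hl2 : Real.log (1 / (y * e)) ≤ 2 * Real.log (1 / e) := by
      have h10 : Real.log (1 / (y * e)) ≤ Real.log ((1 / e) ^ 2) := by
        refine Real.log_le_log (by positivity) ?_
        rw [div_pow, one_pow, div_le_div_iff₀ (by positivity) (by positivity)]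
        nlinarith
      rwa [Real.log_pow] at h10
    have hl3 : 0 < Real.log (1 / e) := by linarith
    have hl4 : 0 ≤ Real.log (S / 2) := Real.log_nonneg (by linarith)
    have hl5 : Real.log (S / 2) ≤ Real.log S := Real.log_le_log (by linarith) (by linarith)
    have hsq : Real.log (1 / (y * e)) ^ 2 ≤ 4 * Real.log (1 / e) ^ 2 := by nlinarith
    rw [mul_div_assoc', div_le_div_iff₀ (by positivity) (by positivity)]
    have hA : 1 / 8 * (e * Real.log (S / 2)) * Real.log (1 / (y * e)) ^ 2 ≤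
        1 / 8 * (e * Real.log (S / 2)) * (4 * Real.log (1 / e) ^ 2) :=
      mul_le_mul_of_nonneg_left hsq (by positivity)
    refine hA.trans ?_
    have hB : 1 / 2 * (e * Real.log (S / 2)) ≤ y * e * Real.log S := by
      calc 1 / 2 * (e * Real.log (S / 2)) ≤ y * (e * Real.log (S / 2)) :=
            mul_le_mul_of_nonneg_right h8 (by positivity)
        _ ≤ y * (e * Real.log S) := by gcongr
        _ = _ := by ring
    have hC := mul_le_mul_of_nonneg_right hB (sq_nonneg (Real.log (1 / e)))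
    refine le_trans (le_of_eq ?_) hC
    ring

theorem t (h : S_TM1) (h' : S_FOUR) : S_SUPB := by
  classical
  intro d hd V η hV hη
  by_contra hcon
  rw [not_eventually] at hcon
  set P : ℝ → ℝ → Prop := fun T x => 1 / 2 ≤ x ∧ x ≤ 3 / 2 ∧
    ¬ (∫ v in (0:ℝ)..(2 * T), (if (2 * d T) ^ (-V) / 2 < mz (x * d T) v then mz (x * d T) v ^ 2 else 0) ≤
      T * (2 * d T) ^ (V ^ 2 - 2 * V - η)) with hP
  have hfr : ∃ᶠ T : ℝ in atTop, ∃ x, P T x := by
    refine hcon.mono fun T hT => ?_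
    by_contra hno
    apply hT
    intro x hx1 hx2
    by_contra hb
    exact hno ⟨x, hx1, hx2, hb⟩
  obtain ⟨x, hx, hxP⟩ : ∃ x : ℝ → ℝ, (∀ T, 1 / 2 ≤ x T ∧ x T ≤ 3 / 2) ∧ ∀ T, (∃ y, P T y) → P T (x T) := by
    refine ⟨fun T => if hT : ∃ y, P T y then hT.choose else 1, fun T => ?_, fun T hT => ?_⟩
    · by_cases hT : ∃ y, P T y
      · simp only [hT, dif_pos]
        exact ⟨hT.choose_spec.1, hT.choose_spec.2.1⟩
      · simp only [hT, dif_neg, not_false_eq_true]
        norm_num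
    · simp only [hT, dif_pos]
      exact hT.choose_spec
  have hAd := ad hd hx
  set V' : ℝ := V ^ 2 + V + 3 with hV'
  have hVV' : V < V' := by nlinarith
  have hT2 : Tendsto (fun T : ℝ => 2 * T) atTop atTop := tendsto_id.const_mul_atTop (by norm_num)
  set A : ℝ := |(aC (V : ℂ)).re| + 1 with hA
  have hA0 : 0 < A := by positivity
  have e1 := hT2.eventually ((h _ hAd V V' (by linarith) hVV').eventually
    (eventually_lt_nhds (by linarith [le_abs_self (aC (V : ℂ)).re] : (aC (V : ℂ)).re < A)))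
  obtain ⟨C, hC, hF⟩ := h'
  have e2 := hT2.eventually hF
  have e3 := hT2.eventually (hAd.tL.eventually (eventually_ge_atTop (2 ^ 17)))
  have e4 : ∀ᶠ T : ℝ in atTop, d T < 1 / 32 := hd.t0.eventually (eventually_lt_nhds (by norm_num))
  have e5 : ∀ᶠ T : ℝ in atTop, (2 * A * 2 ^ (2 * V - 2 + V ^ 2) + 32 * C * 2 ^ (2 * V' - 4)) * (2 * d T) ^ η < 1 := by
    have h1 : Tendsto (fun T : ℝ => 2 * d T) atTop (𝓝 0) := by simpa using hd.t0.const_mul 2
    have h2 := (h1.rpow_const (p := η) (Or.inr hη.le)).const_mul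
      (2 * A * 2 ^ (2 * V - 2 + V ^ 2) + 32 * C * 2 ^ (2 * V' - 4))
    rw [Real.zero_rpow hη.ne', mul_zero] at h2
    exact h2.eventually (eventually_lt_nhds one_pos)
  obtain ⟨T, hTP, e1, e2, e3, e4, e5, e6, e7⟩ :=
    (hfr.and_eventually (e1.and (e2.and (e3.and (e4.and (e5.and (hd.pos.and (eventually_ge_atTop (1:ℝ)))))))))
      |>.exists
  obtain ⟨hx1, hx2⟩ := hx T
  have hb := (hxP T hTP).2.2
  apply hb
  have h2T : 2 * T / 2 = T := by ring
  rw [h2T] at e1 e3
  set D : ℝ := 2 * d T with hD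
  have hD0 : 0 < D := by linarith
  have hD1 : D ≤ 1 := by linarith
  set y : ℝ := x T with hy
  set δ : ℝ := y * d T with hδ
  have hδ0 : 0 < δ := by positivity
  have hδ1 : δ ≤ 1 / 16 := by nlinarith
  have hTpos : (0:ℝ) < 2 * T := by linarith
  have h2δ : 2 * δ = y * D := by rw [hδ, hD]; ring
  have h2δ0 : 0 < 2 * δ := by linarith
  set c : ℝ := D ^ (-V) / 2 with hc
  have hc0 : 0 < c := by positivity
  set c' : ℝ := (2 * δ) ^ (-V') with hc'
  have hc'0 : 0 < c' := Real.rpow_pos_of_pos h2δ0 _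
  -- the fourth moment
  have hF4 : ∫ v in (0:ℝ)..(2 * T), mz δ v ^ 4 ≤ C * (2 * T * (1 / δ) ^ 4) := by
    have h1 : 2 ^ 17 / Real.log (2 * T) ≤ δ := by
      have hl : 0 < Real.log (2 * T) := Real.log_pos (by linarith)
      have hl2 := log_inv_ge hδ0 hδ1
      rw [div_le_iff₀ hl]
      rw [le_div_iff₀ (by positivity)] at e3
      have hl3 : 1 ≤ Real.log (1 / δ) ^ 2 := one_le_pow₀ hl2
      linarith
    have h2 := e2 δ 0 h1 hδ1 (by rw [abs_zero]; positivity)
    simpa using h2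
  have hML : ML V c' δ (2 * T) ≤ A * (2 * δ) ^ (-(V ^ 2)) := by
    rw [Real.rpow_neg h2δ0.le, ← div_eq_mul_inv, le_div_iff₀ (Real.rpow_pos_of_pos h2δ0 _), mul_comm]
    exact e1.le
  have hint := int_bd (V := V) hδ1 hTpos hV hc0 hc'0
  refine hint.trans ?_
  have hcn : 0 ≤ c ^ (-(2 * V - 2)) := Real.rpow_nonneg hc0.le _
  -- the first term
  have t1 : c ^ (-(2 * V - 2)) * (2 * T * ML V c' δ (2 * T)) ≤
      T * (2 * A * 2 ^ (2 * V - 2 + V ^ 2)) * D ^ (V ^ 2 - 2 * V) := by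
    have s1 : c ^ (-(2 * V - 2)) = D ^ (V * (2 * V - 2)) * 2 ^ (2 * V - 2) := by
      rw [hc, Real.div_rpow (Real.rpow_nonneg hD0.le _) (by norm_num), ← Real.rpow_mul hD0.le,
        Real.rpow_neg (by norm_num : (0:ℝ) ≤ 2), div_inv_eq_mul]
      congr 2
      ring
    have s2 : (2 * δ) ^ (-(V ^ 2)) ≤ D ^ (-(V ^ 2)) * 2 ^ (V ^ 2) := by
      have s3 : (2 * δ) ^ (-(V ^ 2)) ≤ (D / 2) ^ (-(V ^ 2)) := by
        refine Real.rpow_le_rpow_of_nonpos (by positivity) ?_ (by nlinarith)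
        nlinarith
      refine s3.trans (le_of_eq ?_)
      rw [Real.div_rpow hD0.le (by norm_num), Real.rpow_neg (by norm_num : (0:ℝ) ≤ 2), div_inv_eq_mul]
    calc c ^ (-(2 * V - 2)) * (2 * T * ML V c' δ (2 * T)) ≤
          c ^ (-(2 * V - 2)) * (2 * T * (A * (D ^ (-(V ^ 2)) * 2 ^ (V ^ 2)))) := by
          refine mul_le_mul_of_nonneg_left (mul_le_mul_of_nonneg_left (hML.trans ?_) hTpos.le) hcn
          exact mul_le_mul_of_nonneg_left s2 hA0.le
      _ = T * (2 * A * (2 ^ (2 * V - 2) * 2 ^ (V ^ 2))) * (D ^ (V * (2 * V - 2)) * D ^ (-(V ^ 2))) := by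
          rw [s1]
          ring
      _ = _ := by
          rw [← Real.rpow_add (by norm_num : (0:ℝ) < 2), ← Real.rpow_add hD0]
          congr 2
          ring
  -- the second term
  have t2 : (c' ^ 2)⁻¹ * ∫ v in (0:ℝ)..(2 * T), mz δ v ^ 4 ≤
      T * (32 * C * 2 ^ (2 * V' - 4)) * D ^ (V ^ 2 - 2 * V) := by
    have s1 : (c' ^ 2)⁻¹ = (2 * δ) ^ (2 * V') := by
      rw [hc', ← Real.rpow_natCast, ← Real.rpow_mul h2δ0.le, ← Real.rpow_neg h2δ0.le]
      congr 1
      push_cast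
      ring
    have s2 : (1 / δ) ^ 4 = 16 * (2 * δ) ^ (-4 : ℝ) := by
      have : (2 * δ) ^ (-4 : ℝ) = ((2 * δ) ^ 4)⁻¹ := by
        rw [Real.rpow_neg h2δ0.le]
        congr 1
        exact_mod_cast Real.rpow_natCast (2 * δ) 4
      rw [this]
      field_simp
      norm_num
    have s3 : (2 * δ) ^ (2 * V' - 4) ≤ 2 ^ (2 * V' - 4) * D ^ (V ^ 2 - 2 * V) := by
      have hexp : 0 ≤ 2 * V' - 4 := by nlinarith
      calc (2 * δ) ^ (2 * V' - 4) ≤ (2 * D) ^ (2 * V' - 4) := by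
            refine Real.rpow_le_rpow h2δ0.le ?_ hexp
            rw [h2δ]
            nlinarith
        _ = 2 ^ (2 * V' - 4) * D ^ (2 * V' - 4) := Real.mul_rpow (by norm_num) hD0.le
        _ ≤ _ := by
            refine mul_le_mul_of_nonneg_left ?_ (by positivity)
            exact Real.rpow_le_rpow_of_exponent_ge hD0 hD1 (by nlinarith)
    have hcc : 0 ≤ (c' ^ 2)⁻¹ := by positivity
    calc (c' ^ 2)⁻¹ * ∫ v in (0:ℝ)..(2 * T), mz δ v ^ 4 ≤ (c' ^ 2)⁻¹ * (C * (2 * T * (1 / δ) ^ 4)) :=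
          mul_le_mul_of_nonneg_left hF4 hcc
      _ = T * (32 * C) * ((2 * δ) ^ (2 * V') * (2 * δ) ^ (-4 : ℝ)) := by
          rw [s1, s2]
          ring
      _ = T * (32 * C) * (2 * δ) ^ (2 * V' - 4) := by
          rw [← Real.rpow_add h2δ0]
          congr 2
      _ ≤ T * (32 * C) * (2 ^ (2 * V' - 4) * D ^ (V ^ 2 - 2 * V)) :=
          mul_le_mul_of_nonneg_left s3 (by positivity)
      _ = _ := by ring
  refine (add_le_add t1 t2).trans ?_
  have hfin : D ^ (V ^ 2 - 2 * V) = D ^ η * D ^ (V ^ 2 - 2 * V - η) := by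
    rw [← Real.rpow_add hD0]
    congr 1
    ring
  rw [← add_mul, ← mul_add, hfin]
  calc T * (2 * A * 2 ^ (2 * V - 2 + V ^ 2) + 32 * C * 2 ^ (2 * V' - 4)) * (D ^ η * D ^ (V ^ 2 - 2 * V - η)) =
        ((2 * A * 2 ^ (2 * V - 2 + V ^ 2) + 32 * C * 2 ^ (2 * V' - 4)) * D ^ η) * (T * D ^ (V ^ 2 - 2 * V - η)) := by
        ring
    _ ≤ 1 * (T * D ^ (V ^ 2 - 2 * V - η)) := mul_le_mul_of_nonneg_right e5.le (by positivity)
    _ = _ := one_mul _

end Pool.Agent.H6F.SUPB
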