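import Pool.Agent.H6F.Stm
import Pool.Agent.N748.MG.TMA

set_option autoImplicit false

/-! (UNI): uniform upper bound of the pair correlation. -/

namespace Pool.Agent.H6F.UNI

open Finset Filter MeasureTheory Topology Complex
open Pool.Agent.N748.MG Pool.Agent.N748.MJ Pool.Agent.H6F

lemma lV_shift {m : ℕ} (s : Fin m → ℂ) (h : Fin m → ℝ) (a : ℝ) {q : ℕ} (hq : q ≠ 0) (k : ℕ) :
    lV s (fun j => h j + a) q k = lV s h q k * (q : ℂ) ^ (-((k * a : ℝ) * I)) := by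
  unfold lV
  rw [Finset.sum_mul]
  refine Finset.sum_congr rfl fun μ hμ => ?_
  have hq' : (q : ℂ) ≠ 0 := by exact_mod_cast hq
  have hs : ∑ j, μ j = k := (Finset.mem_piAntidiag.1 hμ).1
  have h1 : ∀ j, lC (s j) (μ j) * (q : ℂ) ^ (-((μ j * (h j + a) : ℝ) * I)) =
      (lC (s j) (μ j) * (q : ℂ) ^ (-((μ j * h j : ℝ) * I))) * (q : ℂ) ^ (-((μ j * a : ℝ) * I)) := by
    intro j
    rw [mul_assoc, ← Complex.cpow_add _ _ hq']
    congr 2
    push_cast
    ring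
  rw [Finset.prod_congr rfl fun j _ => h1 j, Finset.prod_mul_distrib]
  congr 1
  have h2 : ∀ j, (q : ℂ) ^ (-((μ j * a : ℝ) * I)) = ((q : ℂ) ^ (-((a : ℝ) * I))) ^ (μ j) := by
    intro j
    rw [← Complex.cpow_nat_mul]
    congr 1
    push_cast
    ring
  rw [Finset.prod_congr rfl fun j _ => h2 j, Finset.prod_pow_eq_pow_sum, hs, ← Complex.cpow_nat_mul]
  congr 1
  push_cast
  ring

lemma norm_one {q : ℕ} (hq : q ≠ 0) (a : ℝ) : ‖(q : ℂ) ^ (-((a : ℝ) * I))‖ = 1 := by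
  have h0 : (0:ℝ) < q := by exact_mod_cast Nat.pos_of_ne_zero hq
  have : ((q : ℕ) : ℂ) = ((q : ℝ) : ℂ) := by push_cast; rfl
  rw [this, Complex.norm_cpow_eq_rpow_re_of_pos h0]
  simp

lemma gV_shift {m : ℕ} (s r : Fin m → ℂ) (h : Fin m → ℝ) (a δ : ℝ) {p : ℕ} (hp : p ≠ 0) :
    gV s r (fun j => h j + a) δ p = gV s r h δ p := by
  unfold gV
  congr 1
  · refine Finset.prod_congr rfl fun j _ => Finset.prod_congr rfl fun l _ => ?_
    have : (h j + a) - (h l + a) = h j - h l := by ring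
    rw [this]
  · refine tsum_congr fun k => ?_
    rw [lV_shift _ _ _ hp, lV_shift _ _ _ hp, map_mul]
    have h1 : (p : ℂ) ^ (-((k * a : ℝ) * I)) * (starRingEnd ℂ) ((p : ℂ) ^ (-((k * a : ℝ) * I))) = 1 := by
      rw [Complex.mul_conj, Complex.normSq_eq_norm_sq, norm_one hp]
      simp
    calc _ = lV s h p k * (starRingEnd ℂ) (lV (cj r) h p k) *
          ((p : ℂ) ^ (-((k * a : ℝ) * I)) * (starRingEnd ℂ) ((p : ℂ) ^ (-((k * a : ℝ) * I)))) *
          (((p:ℝ) ^ (-(1 + 2 * δ)) : ℝ) : ℂ) ^ k := by ring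
      _ = _ := by rw [h1, mul_one]

lemma aV_shift {m : ℕ} (s r : Fin m → ℂ) (h : Fin m → ℝ) (a : ℝ) :
    aV s r (fun j => h j + a) = aV s r h := by
  unfold aV
  exact tprod_congr fun p => gV_shift s r h a 0 p.2.ne_zero

lemma aV_pair (c x y : ℝ) :
    aV (fun _ : Fin 2 => (c : ℂ)) (fun _ => (c : ℂ)) ![x, y] =
      aV (fun _ : Fin 2 => (c : ℂ)) (fun _ => (c : ℂ)) ![0, y - x] := by
  rw [← aV_shift _ _ ![0, y - x] x]
  congr 1
  funext j
  fin_cases j <;> simp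

lemma zl_neg (d h : ℝ) : zl d (-h) = zl d h := by
  unfold zl
  have : (1 + 2 * (d:ℂ) + ((-h : ℝ):ℂ) * I) = (starRingEnd ℂ) (1 + 2 * (d:ℂ) + (h:ℂ) * I) := by
    simp [Complex.conj_ofReal, Complex.conj_ofNat]
  rw [this, riemannZeta_conj, Complex.norm_conj]

lemma zl_pos {d : ℝ} (hd : 0 < d) (h : ℝ) : 0 < zl d h := by
  unfold zl
  rw [norm_pos_iff]
  apply riemannZeta_ne_zero_of_one_lt_re
  simp
  exact hd

lemma den_eq (c x y d : ℝ) (hd : 0 < d) :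
    (aV (fun _ : Fin 2 => (c : ℂ)) (fun _ => (c : ℂ)) ![x, y]).re *
      ∏ j : Fin 2, ∏ l : Fin 2, ‖riemannZeta (((1 + 2 * d : ℝ) : ℂ) + ((![x, y] j - ![x, y] l : ℝ) : ℂ) * I)‖ ^ (c * c) =
      R c (y - x) d := by
  have h0 : ∀ u : ℝ, ‖riemannZeta (((1 + 2 * d : ℝ) : ℂ) + ((u : ℝ) : ℂ) * I)‖ = zl d u := by
    intro u
    unfold zl
    push_cast
    rfl
  have e1 : zl d (x - y) = zl d (y - x) := by
    rw [← zl_neg]; congr 1; ring
  simp only [h0, Fin.prod_univ_two, Matrix.cons_val_zero, Matrix.cons_val_one, sub_self]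
  unfold R aR
  rw [aV_pair, e1]
  have h1 : (zl d 0) ^ (2 * c ^ 2) = (zl d 0) ^ (c * c) * (zl d 0) ^ (c * c) := by
    rw [← Real.rpow_add (zl_pos hd 0)]; congr 1; ring
  have h2 : (zl d (y - x)) ^ (2 * c ^ 2) = (zl d (y - x)) ^ (c * c) * (zl d (y - x)) ^ (c * c) := by
    rw [← Real.rpow_add (zl_pos hd _)]; congr 1; ring
  rw [h1, h2]
  ring

lemma R_pos (hP : S_POSV) {c : ℝ} (hc : 0 < c) (h : ℝ) {d : ℝ} (hd : 0 < d) : 0 < R c h d := by
  obtain ⟨c0, C, h0, hC, H⟩ := hP 2 c hc.le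
  obtain ⟨a, ha, ha'⟩ := (H ![0, h]).2 (fun _ => c) (fun _ => by rw [abs_of_pos hc])
  unfold R aR
  rw [ha', Complex.ofReal_re]
  have := zl_pos hd 0
  have := zl_pos hd h
  have : 0 < a := lt_of_lt_of_le h0 ha
  positivity

lemma num_eq (c V d T x y : ℝ) (hd : d ≤ 1 / 16) (hT : 0 ≤ T) :
    ∫ t in {t : ℝ | t ∈ Set.Icc 0 T ∧ ∀ j : Fin 2, mz d (t + ![x, y] j) ≤ (2 * d) ^ (-V)},
      ∏ j : Fin 2, mz d (t + ![x, y] j) ^ (2 * c) =
    ∫ t in (0:ℝ)..T, F c V d (t + x) * F c V d (t + y) := by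
  have hcont := TMA.cont hd
  have hm : MeasurableSet {t : ℝ | mz d (t + x) ≤ (2 * d) ^ (-V) ∧ mz d (t + y) ≤ (2 * d) ^ (-V)} := by
    apply MeasurableSet.inter
    · exact (isClosed_le (hcont.comp (continuous_id.add continuous_const)) continuous_const).measurableSet
    · exact (isClosed_le (hcont.comp (continuous_id.add continuous_const)) continuous_const).measurableSet
  have hset : {t : ℝ | t ∈ Set.Icc 0 T ∧ ∀ j : Fin 2, mz d (t + ![x, y] j) ≤ (2 * d) ^ (-V)} =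
      Set.Icc 0 T ∩ {t : ℝ | mz d (t + x) ≤ (2 * d) ^ (-V) ∧ mz d (t + y) ≤ (2 * d) ^ (-V)} := by
    ext t
    simp [Fin.forall_fin_two]
  rw [hset, ← setIntegral_indicator hm, intervalIntegral.integral_of_le hT, integral_Icc_eq_integral_Ioc]
  congr 1
  funext t
  by_cases h1 : mz d (t + x) ≤ (2 * d) ^ (-V) <;> by_cases h2 : mz d (t + y) ≤ (2 * d) ^ (-V) <;>
    simp [Set.indicator, F, h1, h2, Fin.prod_univ_two]

theorem t (h : S_SM) (h' : S_POSV) : S_UNI := by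
  intro d hd c V ε hc hV hε
  by_contra hcon
  rw [Filter.not_eventually] at hcon
  -- the bad shifts
  let P : ℝ → ℝ × ℝ → Prop := fun T q => |q.1| ≤ T ^ ((1:ℝ) / 2) ∧ |q.2| ≤ T ^ ((1:ℝ) / 2) ∧
    ¬ ((1 / T) * (∫ t in (0:ℝ)..T, F c V (d T) (t + q.1) * F c V (d T) (t + q.2)) ≤ (1 + ε) * R c (q.2 - q.1) (d T))
  classical
  let g : ℝ → ℝ × ℝ := fun T => if H : ∃ q, P T q then H.choose else (0, 0)
  have hg1 : ∀ T, (∃ q, P T q) → P T (g T) := by
    intro T H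
    simp only [g, dif_pos H]
    exact H.choose_spec
  have hg2 : ∀ T : ℝ, 0 ≤ T → |(g T).1| ≤ T ^ ((1:ℝ) / 2) ∧ |(g T).2| ≤ T ^ ((1:ℝ) / 2) := by
    intro T hT
    by_cases H : ∃ q, P T q
    · exact ⟨(hg1 T H).1, (hg1 T H).2.1⟩
    · simp only [g, dif_neg H, abs_zero]
      exact ⟨Real.rpow_nonneg hT _, Real.rpow_nonneg hT _⟩
  have hsm := h d hd 2 (fun _ => c) V (fun _ => hc) (by simp; linarith) (fun T => ![(g T).1, (g T).2]) (by
    filter_upwards [eventually_ge_atTop (0:ℝ)] with T hT j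
    have := hg2 T hT
    fin_cases j
    · exact this.1
    · exact this.2)
  have hd16 : ∀ᶠ T : ℝ in atTop, d T ≤ 1 / 16 := by
    have := hd.t0.eventually (gt_mem_nhds (show (0:ℝ) < 1 / 16 by norm_num))
    filter_upwards [this] with T hT using hT.le
  have hlt := hsm.eventually (gt_mem_nhds (show (1:ℝ) < 1 + ε by linarith))
  refine hcon ?_
  filter_upwards [hlt, hd.pos, hd16, eventually_gt_atTop (0:ℝ)] with T h1 h2 h3 h4
  intro hall
  apply hall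
  intro x y hx hy
  by_contra hxy
  have hP : P T (g T) := hg1 T ⟨(x, y), hx, hy, hxy⟩
  apply hP.2.2
  rw [num_eq c V (d T) T _ _ h3 h4.le, den_eq c _ _ (d T) h2, div_lt_iff₀ (R_pos h' hc _ h2)] at h1
  exact h1.le

end Pool.Agent.H6F.UNI
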