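import Pool.Agent.H6F.Stm
import Pool.Agent.H379R2.SW2

/-! **ZCMP** (project H6F, helper6; written by helper95): comparison of `ζ(1+2d+ih)` and `ζ(1+2e+ih)`. -/

set_option autoImplicit false

namespace Pool.Agent.H6F.ZCMP

open Complex Filter Topology Finset
open Pool.Agent.H379R2.SW
open Pool.Agent.H6F

theorem g_lim {s : ℂ} (hs : 1 < s.re) :
    Tendsto (fun n : ℕ => (((n : ℝ)) : ℂ) ^ (1 - s) / (1 - s)) atTop (𝓝 0) := by
  rw [tendsto_zero_iff_norm_tendsto_zero]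
  have h1 : Tendsto (fun n : ℕ => ((n : ℝ)) ^ (-(s.re - 1)) / ‖1 - s‖) atTop (𝓝 0) := by
    have h2 := (tendsto_rpow_neg_atTop (y := s.re - 1) (by linarith)).comp
      (tendsto_natCast_atTop_atTop (R := ℝ))
    have h3 := h2.div_const ‖1 - s‖
    rw [zero_div] at h3
    exact h3
  refine h1.congr' ?_
  filter_upwards [eventually_ge_atTop 1] with n hn
  have hn' : (0 : ℝ) < n := by exact_mod_cast hn
  rw [norm_div, norm_cpow_eq_rpow_re_of_pos hn']
  congr 2
  simp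

theorem zeta_tail {s : ℂ} (hs : 1 < s.re) {M : ℕ} (_hM : 1 ≤ M) :
    ‖riemannZeta s - (∑ n ∈ range M, (((n : ℝ) + 1 : ℝ) : ℂ) ^ (-s) -
      ((((M + 1 : ℕ) : ℝ)) : ℂ) ^ (1 - s) / (1 - s))‖ ≤ 8 * ‖s‖ / (M + 1) := by
  set a : ℕ → ℂ := fun n => (((n : ℝ) + 1 : ℝ) : ℂ) ^ (-s) with ha
  have hsumm : Summable a := by
    have h1 : Summable (fun n : ℕ => 1 / (n : ℂ) ^ s) := Complex.summable_one_div_nat_cpow.mpr hs
    have h2 := (summable_nat_add_iff 1).mpr h1
    refine h2.congr (fun n => ?_)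
    simp only [ha]
    rw [cpow_neg]
    push_cast
    simp
  have hz : riemannZeta s = ∑' n, a n := by
    rw [zeta_eq_tsum_one_div_nat_add_one_cpow hs]
    refine tsum_congr (fun n => ?_)
    simp only [ha]
    rw [cpow_neg]
    push_cast
    simp
  set g : ℕ → ℂ := fun n => ((n : ℝ) : ℂ) ^ (1 - s) / (1 - s) with hg
  have e0 : riemannZeta s - (∑ n ∈ range M, a n - g (M + 1)) = ∑' n, a (n + M) + g (M + 1) - 0 := by
    rw [hz, ← hsumm.sum_add_tsum_nat_add M]
    ring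
  have hs2 := (summable_nat_add_iff M).mpr hsumm
  have hlim : Tendsto (fun K : ℕ => ∑ n ∈ range K, a (n + M) + g (M + 1) - g (K + M + 1)) atTop
      (𝓝 (∑' n, a (n + M) + g (M + 1) - 0)) := by
    refine (hs2.hasSum.tendsto_sum_nat.add_const _).sub ?_
    have h1 := (g_lim hs).comp (tendsto_add_atTop_nat (M + 1))
    refine h1.congr fun K => ?_
    simp only [hg, Function.comp]
    rw [show K + (M + 1) = K + M + 1 by ring]
  change ‖riemannZeta s - (∑ n ∈ range M, a n - g (M + 1))‖ ≤ _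
  rw [e0]
  refine le_of_tendsto hlim.norm (Eventually.of_forall (fun K => ?_))
  have h1 : ∑ n ∈ range K, a (n + M) = (g (K + M + 1) - g (M + 1)) -
      ∑ n ∈ range K, ((g (n + M + 1 + 1) - g (n + M + 1)) - a (n + M)) := by
    rw [sum_sub_distrib]
    have : ∑ n ∈ range K, (g (n + M + 1 + 1) - g (n + M + 1)) = g (K + M + 1) - g (M + 1) := by
      have h2 := Finset.sum_range_sub (fun n => g (n + M + 1)) K
      simp only [zero_add] at h2
      rw [← h2]
      apply sum_congr rfl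
      intro n _
      rw [show n + 1 + M + 1 = n + M + 1 + 1 by ring]
    rw [this]
    ring
  rw [h1]
  have e1 : g (K + M + 1) - g (M + 1) - ∑ n ∈ range K, ((g (n + M + 1 + 1) - g (n + M + 1)) - a (n + M)) +
      g (M + 1) - g (K + M + 1) = -∑ n ∈ range K, ((g (n + M + 1 + 1) - g (n + M + 1)) - a (n + M)) := by
    ring
  rw [e1, norm_neg]
  calc _ ≤ ∑ n ∈ range K, ‖s‖ * ((n + (M + 1) : ℕ) : ℝ) ^ (-(1 : ℝ) - 1) := by
        refine norm_sum_le_of_le _ (fun n _ => ?_)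
        have h4 := integral_step (n := n + M + 1) (by omega) hs
        have h5 : ‖s‖ * ((n + M + 1 : ℕ) : ℝ) ^ (-s.re - 1) ≤
            ‖s‖ * ((n + (M + 1) : ℕ) : ℝ) ^ (-(1 : ℝ) - 1) := by
          apply mul_le_mul_of_nonneg_left _ (norm_nonneg s)
          rw [show n + (M + 1) = n + M + 1 by ring]
          apply Real.rpow_le_rpow_of_exponent_le _ (by linarith)
          push_cast
          have : (0 : ℝ) ≤ (n : ℝ) + M := by positivity
          linarith
        refine le_trans (le_of_eq ?_) (h4.trans h5)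
        congr 1
        simp only [hg, ha]
        push_cast
        rfl
    _ = ‖s‖ * ∑ n ∈ range K, ((n + (M + 1) : ℕ) : ℝ) ^ (-(1 : ℝ) - 1) := by rw [mul_sum]
    _ ≤ ‖s‖ * (8 * ((M + 1 : ℕ) : ℝ) ^ (-(1 : ℝ))) := by
        apply mul_le_mul_of_nonneg_left (sum_tail (a := 1) (by norm_num) le_rfl (by omega) K) (norm_nonneg _)
    _ = 8 * ‖s‖ / (M + 1) := by
        rw [Real.rpow_neg_one]
        push_cast
        ring

theorem rpow_diff {m x y : ℝ} (hm : 1 ≤ m) (hx : 0 < x) (hxy : x ≤ y) :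
    |m ^ (-x) - m ^ (-y)| ≤ y * Real.log m := by
  have hm0 : 0 < m := by linarith
  have hl : 0 ≤ Real.log m := Real.log_nonneg hm
  have h1 : m ^ (-y) = m ^ (-x) * Real.exp (-((y - x) * Real.log m)) := by
    rw [Real.rpow_def_of_pos hm0, Real.rpow_def_of_pos hm0, ← Real.exp_add]
    congr 1
    ring
  have h2 : 0 ≤ (y - x) * Real.log m := mul_nonneg (by linarith) hl
  have h3 : Real.exp (-((y - x) * Real.log m)) ≤ 1 := Real.exp_le_one_iff.2 (by linarith)
  have h4 : 1 - (y - x) * Real.log m ≤ Real.exp (-((y - x) * Real.log m)) := by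
    have := Real.add_one_le_exp (-((y - x) * Real.log m))
    linarith
  have h5 : m ^ (-x) ≤ 1 := Real.rpow_le_one_of_one_le_of_nonpos hm (by linarith)
  have h6 : 0 ≤ m ^ (-x) := Real.rpow_nonneg hm0.le _
  rw [h1]
  have e : m ^ (-x) - m ^ (-x) * Real.exp (-((y - x) * Real.log m)) =
      m ^ (-x) * (1 - Real.exp (-((y - x) * Real.log m))) := by ring
  rw [e, abs_of_nonneg (mul_nonneg h6 (by linarith))]
  calc m ^ (-x) * (1 - Real.exp (-((y - x) * Real.log m))) ≤ 1 * ((y - x) * Real.log m) := by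
        apply mul_le_mul h5 (by linarith) (by linarith) zero_le_one
    _ ≤ y * Real.log m := by
        rw [one_mul]
        exact mul_le_mul_of_nonneg_right (by linarith) hl

theorem re_s (x h : ℝ) : ((1 : ℂ) + x + h * I).re = 1 + x := by simp

theorem norm_s {x h : ℝ} (hx : 0 < x) (hx1 : x ≤ 1) (hh : 1 ≤ |h|) : ‖(1 : ℂ) + x + h * I‖ ≤ 3 * |h| := by
  have h1 := Complex.norm_le_abs_re_add_abs_im ((1 : ℂ) + x + h * I)
  have h2 : ((1 : ℂ) + x + h * I).im = h := by simp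
  rw [re_s, h2, abs_of_pos (by linarith)] at h1
  linarith

theorem norm_s1 (x h : ℝ) : |h| ≤ ‖1 - ((1 : ℂ) + x + h * I)‖ := by
  have h1 := Complex.abs_im_le_norm (1 - ((1 : ℂ) + x + h * I))
  have h2 : (1 - ((1 : ℂ) + x + h * I)).im = -h := by simp
  rw [h2, abs_neg] at h1
  exact h1

theorem harm (M : ℕ) (hM : 1 ≤ M) : ∑ n ∈ range M, ((n : ℝ) + 1)⁻¹ ≤ 1 + Real.log (M + 1) := by
  have h1 : ∑ n ∈ range M, ((n : ℝ) + 1)⁻¹ = ((harmonic M : ℚ) : ℝ) := by
    rw [harmonic]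
    push_cast
    rfl
  rw [h1]
  have h2 := harmonic_le_one_add_log M
  have hM0 : (0 : ℝ) < M := by exact_mod_cast hM
  have h3 : Real.log M ≤ Real.log (M + 1) := Real.log_le_log hM0 (by linarith)
  linarith

theorem cpow_diff2 {m x y h c : ℝ} (hm : 1 ≤ m) (hx : 0 < x) (hxy : x ≤ y) :
    ‖(m : ℂ) ^ (-((c : ℂ) + x + h * I)) - (m : ℂ) ^ (-((c : ℂ) + y + h * I))‖ ≤ m ^ (-c) * (y * Real.log m) := by
  have hm0 : 0 < m := by linarith
  have hmc : (m : ℂ) ≠ 0 := by exact_mod_cast hm0.ne'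
  have h1 : ∀ w : ℝ, (m : ℂ) ^ (-((c : ℂ) + w + h * I)) = (m : ℂ) ^ (-((c : ℂ) + h * I)) * ((m ^ (-w) : ℝ) : ℂ) := by
    intro w
    rw [Complex.ofReal_cpow hm0.le, ← Complex.cpow_add _ _ hmc]
    congr 1
    push_cast
    ring
  rw [h1, h1, ← mul_sub, norm_mul, ← Complex.ofReal_sub, Complex.norm_real, norm_cpow_eq_rpow_re_of_pos hm0]
  have h2 : (-((c : ℂ) + h * I)).re = -c := by simp
  rw [h2]
  apply mul_le_mul_of_nonneg_left _ (Real.rpow_nonneg hm0.le _)
  exact rpow_diff hm hx hxy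

theorem diff_le {x y h : ℝ} (hx : 0 < x) (hxy : x ≤ y) (hy : y ≤ 1) (hh : 1 ≤ |h|) {M : ℕ} (hM : 1 ≤ M) :
    ‖riemannZeta (1 + x + h * I) - riemannZeta (1 + y + h * I)‖ ≤
      2 * y * (1 + Real.log (M + 1)) ^ 2 + y + 48 * |h| / (M + 1) := by
  set s : ℂ := 1 + x + h * I with hs
  set s' : ℂ := 1 + y + h * I with hs'
  have hM0 : (0 : ℝ) < (M : ℝ) + 1 := by positivity
  have hM1 : (1 : ℝ) ≤ (M : ℝ) + 1 := by
    have : (0 : ℝ) ≤ M := Nat.cast_nonneg _
    linarith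
  have hlM : 0 ≤ Real.log (M + 1) := Real.log_nonneg hM1
  have hy0 : 0 < y := by linarith
  have t1 := zeta_tail (s := s) (by rw [hs, re_s]; linarith) hM
  have t2 := zeta_tail (s := s') (by rw [hs', re_s]; linarith) hM
  have n1 : ‖s‖ ≤ 3 * |h| := norm_s hx (by linarith) hh
  have n2 : ‖s'‖ ≤ 3 * |h| := norm_s hy0 hy hh
  have m1 : |h| ≤ ‖1 - s‖ := norm_s1 x h
  have m2 : |h| ≤ ‖1 - s'‖ := norm_s1 y h
  have u1 : 8 * ‖s‖ / (M + 1) ≤ 24 * |h| / (M + 1) := by
    apply div_le_div_of_nonneg_right _ hM0.le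
    linarith
  have u2 : 8 * ‖s'‖ / (M + 1) ≤ 24 * |h| / (M + 1) := by
    apply div_le_div_of_nonneg_right _ hM0.le
    linarith
  have hA : ‖∑ n ∈ range M, (((n : ℝ) + 1 : ℝ) : ℂ) ^ (-s) - ∑ n ∈ range M, (((n : ℝ) + 1 : ℝ) : ℂ) ^ (-s')‖ ≤
      y * (1 + Real.log (M + 1)) ^ 2 := by
    rw [← sum_sub_distrib]
    calc _ ≤ ∑ n ∈ range M, ((n : ℝ) + 1)⁻¹ * (y * Real.log (M + 1)) := by
          refine norm_sum_le_of_le _ (fun n hn => ?_)
          rw [mem_range] at hn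
          have hn0 : (0 : ℝ) ≤ n := Nat.cast_nonneg _
          have h1 := cpow_diff2 (m := (n : ℝ) + 1) (x := x) (y := y) (h := h) (c := 1) (by linarith) hx hxy
          rw [Real.rpow_neg_one, Complex.ofReal_one] at h1
          refine h1.trans ?_
          apply mul_le_mul_of_nonneg_left _ (by positivity)
          apply mul_le_mul_of_nonneg_left _ hy0.le
          apply Real.log_le_log (by linarith)
          have : (n : ℝ) < M := by exact_mod_cast hn
          linarith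
      _ = (∑ n ∈ range M, ((n : ℝ) + 1)⁻¹) * (y * Real.log (M + 1)) := by rw [sum_mul]
      _ ≤ (1 + Real.log (M + 1)) * (y * Real.log (M + 1)) :=
          mul_le_mul_of_nonneg_right (harm M hM) (mul_nonneg hy0.le hlM)
      _ ≤ y * (1 + Real.log (M + 1)) ^ 2 := by
          have : y * (1 + Real.log (M + 1)) ^ 2 - (1 + Real.log (M + 1)) * (y * Real.log (M + 1)) =
            y * (1 + Real.log (M + 1)) := by ring
          have h2 : 0 ≤ y * (1 + Real.log (M + 1)) := by positivity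
          linarith
  have hB : ‖((((M + 1 : ℕ) : ℝ)) : ℂ) ^ (1 - s) / (1 - s) - ((((M + 1 : ℕ) : ℝ)) : ℂ) ^ (1 - s') / (1 - s')‖ ≤
      y * Real.log (M + 1) + y := by
    have hm : (1 : ℝ) ≤ ((M + 1 : ℕ) : ℝ) := by push_cast; exact hM1
    have e1 : (1 : ℂ) - s = -(((0 : ℝ) : ℂ) + x + h * I) := by rw [hs]; push_cast; ring
    have e2 : (1 : ℂ) - s' = -(((0 : ℝ) : ℂ) + y + h * I) := by rw [hs']; push_cast; ring
    have h1 := cpow_diff2 (m := ((M + 1 : ℕ) : ℝ)) (x := x) (y := y) (h := h) (c := 0) hm hx hxy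
    rw [← e1, ← e2, neg_zero, Real.rpow_zero, one_mul] at h1
    have z1 : (1 : ℂ) - s ≠ 0 := by
      intro h0
      rw [h0, norm_zero] at m1
      linarith
    have z2 : (1 : ℂ) - s' ≠ 0 := by
      intro h0
      rw [h0, norm_zero] at m2
      linarith
    set P : ℂ := ((((M + 1 : ℕ) : ℝ)) : ℂ) ^ (1 - s) with hP
    set P' : ℂ := ((((M + 1 : ℕ) : ℝ)) : ℂ) ^ (1 - s') with hP'
    have hP'1 : ‖P'‖ ≤ 1 := by
      rw [hP', norm_cpow_eq_rpow_re_of_pos (by linarith)]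
      apply Real.rpow_le_one_of_one_le_of_nonpos hm
      rw [hs']
      simp
      exact hy0.le
    have e3 : P / (1 - s) - P' / (1 - s') = (P - P') / (1 - s) + P' * ((s - s') / ((1 - s) * (1 - s'))) := by
      field_simp
      ring
    rw [e3]
    refine (norm_add_le _ _).trans ?_
    apply add_le_add
    · rw [norm_div]
      have h2 : ‖P - P'‖ / ‖1 - s‖ ≤ ‖P - P'‖ / 1 :=
        div_le_div_of_nonneg_left (norm_nonneg _) one_pos (by linarith)
      rw [div_one] at h2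
      refine h2.trans (h1.trans (le_of_eq ?_))
      push_cast
      rfl
    · rw [norm_mul, norm_div, norm_mul]
      have h3 : ‖s - s'‖ ≤ y := by
        have : s - s' = ((x - y : ℝ) : ℂ) := by rw [hs, hs']; push_cast; ring
        rw [this, Complex.norm_real, Real.norm_eq_abs, abs_sub_comm, abs_of_nonneg (by linarith)]
        linarith
      have h4 : (1 : ℝ) ≤ ‖1 - s‖ * ‖1 - s'‖ := by nlinarith
      have h5 : ‖s - s'‖ / (‖1 - s‖ * ‖1 - s'‖) ≤ y := by
        rw [div_le_iff₀ (by linarith)]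
        nlinarith
      calc ‖P'‖ * (‖s - s'‖ / (‖1 - s‖ * ‖1 - s'‖)) ≤ 1 * y := by
            apply mul_le_mul hP'1 h5 (by positivity) zero_le_one
        _ = y := one_mul _
  set Z := riemannZeta s with hZ
  set Z' := riemannZeta s' with hZ'
  set A := ∑ n ∈ range M, (((n : ℝ) + 1 : ℝ) : ℂ) ^ (-s) with hAA
  set A' := ∑ n ∈ range M, (((n : ℝ) + 1 : ℝ) : ℂ) ^ (-s') with hAA'
  set G := ((((M + 1 : ℕ) : ℝ)) : ℂ) ^ (1 - s) / (1 - s) with hG
  set G' := ((((M + 1 : ℕ) : ℝ)) : ℂ) ^ (1 - s') / (1 - s') with hG'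
  have e4 : Z - Z' = (Z - (A - G)) - (Z' - (A' - G')) + (A - A') - (G - G') := by ring
  rw [e4]
  have v1 := norm_sub_le ((Z - (A - G)) - (Z' - (A' - G')) + (A - A')) (G - G')
  have v2 := norm_add_le ((Z - (A - G)) - (Z' - (A' - G'))) (A - A')
  have v3 := norm_sub_le (Z - (A - G)) (Z' - (A' - G'))
  have v4 : y * Real.log (M + 1) ≤ y * (1 + Real.log (M + 1)) ^ 2 := by
    apply mul_le_mul_of_nonneg_left _ hy0.le
    nlinarith
  have e5 : 48 * |h| / ((M : ℝ) + 1) = 24 * |h| / (M + 1) + 24 * |h| / (M + 1) := by ring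
  rw [e5]
  linarith

theorem up_le {x h : ℝ} (hx : 0 < x) (hx1 : x ≤ 1) (hh : 1 ≤ |h|) {M : ℕ} (hM : 1 ≤ M) (hMh : |h| ≤ M) :
    ‖riemannZeta (1 + x + h * I)‖ ≤ 26 + Real.log (M + 1) := by
  set s : ℂ := 1 + x + h * I with hs
  have hM0 : (0 : ℝ) < (M : ℝ) + 1 := by positivity
  have t1 := zeta_tail (s := s) (by rw [hs, re_s]; linarith) hM
  have n1 : ‖s‖ ≤ 3 * |h| := norm_s hx hx1 hh
  have m1 : |h| ≤ ‖1 - s‖ := norm_s1 x h
  have u1 : 8 * ‖s‖ / (M + 1) ≤ 24 := by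
    rw [div_le_iff₀ hM0]
    linarith
  have hA : ‖∑ n ∈ range M, (((n : ℝ) + 1 : ℝ) : ℂ) ^ (-s)‖ ≤ 1 + Real.log (M + 1) := by
    refine le_trans ?_ (harm M hM)
    refine norm_sum_le_of_le _ (fun n _ => ?_)
    have hp : (0 : ℝ) < (n : ℝ) + 1 := by positivity
    rw [norm_cpow_eq_rpow_re_of_pos hp, ← Real.rpow_neg_one]
    apply Real.rpow_le_rpow_of_exponent_le
    · linarith [Nat.cast_nonneg (α := ℝ) n]
    · rw [neg_re, hs, re_s]
      linarith
  have hB : ‖((((M + 1 : ℕ) : ℝ)) : ℂ) ^ (1 - s) / (1 - s)‖ ≤ 1 := by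
    have hm : (1 : ℝ) ≤ ((M + 1 : ℕ) : ℝ) := by
      push_cast
      linarith [Nat.cast_nonneg (α := ℝ) M]
    rw [norm_div, norm_cpow_eq_rpow_re_of_pos (by linarith), div_le_one (by linarith)]
    refine le_trans ?_ (hh.trans m1)
    apply Real.rpow_le_one_of_one_le_of_nonpos hm
    rw [hs]
    simp
    exact hx.le
  set Z := riemannZeta s with hZ
  set A := ∑ n ∈ range M, (((n : ℝ) + 1 : ℝ) : ℂ) ^ (-s) with hAA
  set G := ((((M + 1 : ℕ) : ℝ)) : ℂ) ^ (1 - s) / (1 - s) with hG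
  have e4 : Z = (Z - (A - G)) + A - G := by ring
  have v1 := norm_sub_le ((Z - (A - G)) + A) G
  have v2 := norm_add_le (Z - (A - G)) A
  rw [e4]
  linarith

theorem real_le {x : ℝ} (hx : 0 < x) (hx1 : x ≤ 1) : ‖riemannZeta (1 + x)‖ ≤ 10 / x := by
  set s : ℂ := 1 + x with hs
  have hre : s.re = 1 + x := by rw [hs]; simp
  have t1 := zeta_tail (s := s) (by rw [hre]; linarith) (le_refl 1)
  have n1 : ‖s‖ ≤ 2 := by
    have : s = ((1 + x : ℝ) : ℂ) := by rw [hs]; push_cast; ring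
    rw [this, Complex.norm_real, Real.norm_of_nonneg (by linarith)]
    linarith
  have n2 : ‖1 - s‖ = x := by
    have : 1 - s = ((-x : ℝ) : ℂ) := by rw [hs]; push_cast; ring
    rw [this, Complex.norm_real, norm_neg, Real.norm_of_nonneg hx.le]
  have hB : ‖((((1 + 1 : ℕ) : ℝ)) : ℂ) ^ (1 - s) / (1 - s)‖ ≤ 1 / x := by
    rw [norm_div, norm_cpow_eq_rpow_re_of_pos (by norm_num), n2]
    apply div_le_div_of_nonneg_right _ hx.le
    apply Real.rpow_le_one_of_one_le_of_nonpos (by norm_num)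
    rw [sub_re, hre]
    simp
    exact hx.le
  have hA : ‖∑ n ∈ range 1, (((n : ℝ) + 1 : ℝ) : ℂ) ^ (-s)‖ ≤ 1 := by
    simp
  set Z := riemannZeta s with hZ
  set A := ∑ n ∈ range 1, (((n : ℝ) + 1 : ℝ) : ℂ) ^ (-s) with hAA
  set G := ((((1 + 1 : ℕ) : ℝ)) : ℂ) ^ (1 - s) / (1 - s) with hG
  have e4 : Z = (Z - (A - G)) + A - G := by ring
  have v1 := norm_sub_le ((Z - (A - G)) + A) G
  have v2 := norm_add_le (Z - (A - G)) A
  have u1 : 8 * ‖s‖ / (((1 : ℕ) : ℝ) + 1) ≤ 8 := by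
    rw [Nat.cast_one, div_le_iff₀ (by norm_num)]
    linarith
  have h1 : 1 ≤ 1 / x := by rw [le_div_iff₀ hx]; linarith
  have h2 : 10 / x = 10 * (1 / x) := by ring
  rw [e4, h2]
  linarith

theorem lower {y h B : ℝ} (hy : 0 < y) (hy1 : y ≤ 1) (hB : ‖riemannZeta (1 + y + (2 * h : ℝ) * I)‖ ≤ B) :
    y ^ 3 ≤ 10 ^ 3 * B * ‖riemannZeta (1 + y + h * I)‖ ^ 4 := by
  have h1 := pointwise_lower (q := 1) (χ := (1 : DirichletCharacter ℂ 1)) (x := y) (t := h) (A := 10) (B := B) hy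
    (by
      rw [DirichletCharacter.LFunction_modOne_eq]
      exact real_le hy hy1)
    (by
      rw [DirichletCharacter.LFunction_modOne_eq]
      refine le_trans (le_of_eq ?_) hB
      congr 2
      push_cast
      ring)
  rw [DirichletCharacter.LFunction_modOne_eq] at h1
  have e : (1 : ℂ) + y + I * h = 1 + y + h * I := by ring
  rw [e] at h1
  exact h1

theorem t : S_ZCMP := by
  intro θ hθ ε hε
  set C1 : ℝ := 4 * (θ + 2) ^ 2 + 50 with hC1
  set K : ℝ := C1 ^ 4 * (1000 * (θ + 2)) / (8 * ε ^ 4) + 100 with hK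
  have hC10 : 0 < C1 := by positivity
  have hK0 : 0 < K := by positivity
  have hlimL : Tendsto (fun d : ℝ => Real.log (1 / (2 * d))) (𝓝[>] 0) atTop := by
    apply Real.tendsto_log_atTop.comp
    have h1 : Tendsto (fun d : ℝ => (1 / 2) * d⁻¹) (𝓝[>] 0) atTop :=
      tendsto_inv_nhdsGT_zero.const_mul_atTop (by norm_num)
    refine h1.congr fun d => ?_
    rw [one_div, one_div, mul_inv]
  have hE1 : ∀ᶠ L : ℝ in atTop, 12 * Real.log L ≤ L / 2 := by
    have h1 := (Real.isLittleO_log_id_atTop).bound (show (0 : ℝ) < 1 / 24 by norm_num)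
    filter_upwards [h1, eventually_ge_atTop 1] with L hL hL1
    simp only [id] at hL
    rw [Real.norm_of_nonneg (Real.log_nonneg hL1), Real.norm_of_nonneg (by linarith)] at hL
    linarith
  have hE2 : ∀ᶠ L : ℝ in atTop, L ^ 12 * Real.exp (-L) ≤ 1 := by
    have h1 := Real.tendsto_pow_mul_exp_neg_atTop_nhds_zero 12
    exact (h1.eventually (eventually_le_nhds one_pos))
  have hE : ∀ᶠ d : ℝ in 𝓝[>] 0, K ≤ Real.log (1 / (2 * d)) ∧
      12 * Real.log (Real.log (1 / (2 * d))) ≤ Real.log (1 / (2 * d)) / 2 ∧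
      Real.log (1 / (2 * d)) ^ 12 * Real.exp (-Real.log (1 / (2 * d))) ≤ 1 ∧ 0 < d := by
    filter_upwards [hlimL.eventually_ge_atTop K, hlimL.eventually hE1, hlimL.eventually hE2,
      self_mem_nhdsWithin] with d h1 h2 h3 h4
    exact ⟨h1, h2, h3, h4⟩
  filter_upwards [hE] with d hd h hh1 hh2
  obtain ⟨d1, d2, d3, d0⟩ := hd
  set L := Real.log (1 / (2 * d)) with hL
  have hL100 : 100 ≤ L := by
    have : 0 ≤ C1 ^ 4 * (1000 * (θ + 2)) / (8 * ε ^ 4) := by positivity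
    linarith
  have hL0 : 0 < L := by linarith
  have hL1 : 1 ≤ L := by linarith
  have hexp : Real.exp (-L) = 2 * d := by
    rw [hL, ← Real.log_inv, Real.exp_log (by positivity)]
    rw [one_div, inv_inv]
  rw [hexp] at d3
  have hL12 : (0 : ℝ) < L ^ 12 := by positivity
  have hL12' : (1 : ℝ) ≤ L ^ 12 := one_le_pow₀ hL1
  set y : ℝ := 2 * e12 d with hy
  have hye : y = 2 / L ^ 12 := by
    rw [hy]
    unfold e12
    rw [← hL]
    ring
  have hy0 : 0 < y := by rw [hye]; positivity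
  have hy1 : y ≤ 1 := by
    rw [hye, div_le_one hL12]
    calc (2 : ℝ) ≤ L := by linarith
      _ = L ^ 1 := (pow_one L).symm
      _ ≤ L ^ 12 := pow_le_pow_right₀ hL1 (by norm_num)
  have hxy : 2 * d ≤ y := by
    rw [hye, le_div_iff₀ hL12]
    linarith
  have hx0 : 0 < 2 * d := by positivity
  set M : ℕ := ⌈|h| * L ^ 12⌉₊ with hM
  have hMl : |h| * L ^ 12 ≤ M := Nat.le_ceil _
  have hMu : (M : ℝ) ≤ |h| * L ^ 12 + 1 := (Nat.ceil_lt_add_one (by positivity)).le
  have hhL : 1 ≤ |h| * L ^ 12 := by nlinarith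
  have hM1 : 1 ≤ M := by
    have : (1 : ℝ) ≤ M := by linarith
    exact_mod_cast this
  have hlog : Real.log (M + 1) ≤ (θ + 1) * L := by
    have h1 : (M : ℝ) + 1 ≤ 3 * (|h| * L ^ 12) := by linarith
    have h2 : Real.log ((M : ℝ) + 1) ≤ Real.log (3 * (|h| * L ^ 12)) := Real.log_le_log (by positivity) h1
    rw [Real.log_mul (by norm_num) (by positivity), Real.log_mul (by positivity) (by positivity),
      Real.log_pow] at h2
    have h3 : Real.log |h| ≤ θ * L := by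
      have h4 := Real.log_le_log (by linarith) hh2
      rw [Real.log_rpow hx0] at h4
      have h5 : Real.log (2 * d) = -L := by
        rw [hL, one_div, Real.log_inv, neg_neg]
      rw [h5] at h4
      linarith
    have h6 : Real.log 3 ≤ 2 := by
      have := Real.log_le_sub_one_of_pos (show (0 : ℝ) < 3 by norm_num)
      linarith
    push_cast at h2
    nlinarith
  have hlog0 : 0 ≤ Real.log (M + 1) := Real.log_nonneg (by
    have : (0 : ℝ) ≤ M := Nat.cast_nonneg _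
    linarith)
  -- the difference
  have hdiff := diff_le hx0 hxy hy1 hh1 hM1
  have hdiff2 : ‖riemannZeta (1 + (2 * d : ℝ) + h * I) - riemannZeta (1 + y + h * I)‖ ≤ C1 / L ^ 10 := by
    refine hdiff.trans ?_
    have h1 : (1 + Real.log (M + 1)) ^ 2 ≤ ((θ + 2) * L) ^ 2 := by
      apply pow_le_pow_left₀ (by positivity)
      nlinarith
    have h2 : 48 * |h| / ((M : ℝ) + 1) ≤ 48 / L ^ 12 := by
      rw [div_le_div_iff₀ (by positivity) hL12]
      nlinarith
    have h3 : 48 / L ^ 12 ≤ 48 / L ^ 10 := by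
      apply div_le_div_of_nonneg_left (by norm_num) (by positivity)
      exact pow_le_pow_right₀ hL1 (by norm_num)
    have h4 : y ≤ 2 / L ^ 10 := by
      rw [hye]
      apply div_le_div_of_nonneg_left (by norm_num) (by positivity)
      exact pow_le_pow_right₀ hL1 (by norm_num)
    have h5 : 2 * y * (1 + Real.log (M + 1)) ^ 2 ≤ 4 * (θ + 2) ^ 2 / L ^ 10 := by
      calc 2 * y * (1 + Real.log (M + 1)) ^ 2 ≤ 2 * y * ((θ + 2) * L) ^ 2 :=
            mul_le_mul_of_nonneg_left h1 (by positivity)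
        _ = 4 * (θ + 2) ^ 2 / L ^ 10 := by
            rw [hye, show (12 : ℕ) = 10 + 2 by norm_num, pow_add L 10 2]
            field_simp
            ring
    have h6 : C1 / L ^ 10 = 4 * (θ + 2) ^ 2 / L ^ 10 + 2 / L ^ 10 + 48 / L ^ 10 := by
      rw [hC1]
      ring
    rw [h6]
    linarith
  -- the lower bound
  have hupB := up_le (x := y) (h := 2 * h) hy0 hy1 (by rw [abs_mul, abs_two]; linarith) hM1 (by
    rw [abs_mul, abs_two]
    have h2 : (2 : ℝ) ≤ L ^ 12 := by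
      calc (2 : ℝ) ≤ L := by linarith
        _ = L ^ 1 := (pow_one L).symm
        _ ≤ L ^ 12 := pow_le_pow_right₀ hL1 (by norm_num)
    nlinarith [abs_nonneg h])
  have hlow := lower hy0 hy1 hupB
  have hB2 : 26 + Real.log ((M : ℝ) + 1) ≤ (θ + 2) * L := by nlinarith
  set Z : ℝ := ‖riemannZeta (1 + y + h * I)‖ with hZ
  have hZ0 : 0 ≤ Z := norm_nonneg _
  have hlow2 : 8 / L ^ 36 ≤ 1000 * ((θ + 2) * L) * Z ^ 4 := by
    have h1 : y ^ 3 = 8 / L ^ 36 := by
      rw [hye, div_pow, ← pow_mul]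
      norm_num
    rw [← h1]
    refine hlow.trans ?_
    apply mul_le_mul_of_nonneg_right _ (by positivity)
    norm_num
    exact hB2
  have hfin : C1 / L ^ 10 ≤ ε * Z := by
    have h1 : (C1 / L ^ 10) ^ 4 ≤ (ε * Z) ^ 4 := by
      rw [div_pow, ← pow_mul, mul_pow]
      have h2 : C1 ^ 4 * (1000 * (θ + 2)) ≤ L ^ 3 * (8 * ε ^ 4) := by
        have h3 : C1 ^ 4 * (1000 * (θ + 2)) / (8 * ε ^ 4) ≤ L := by linarith
        rw [div_le_iff₀ (by positivity)] at h3
        refine h3.trans ?_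
        apply mul_le_mul_of_nonneg_right _ (by positivity)
        calc L = L ^ 1 := (pow_one L).symm
          _ ≤ L ^ 3 := pow_le_pow_right₀ hL1 (by norm_num)
      have h4 : 8 ≤ 1000 * (θ + 2) * (L ^ 37 * Z ^ 4) := by
        rw [div_le_iff₀ (by positivity)] at hlow2
        calc (8 : ℝ) ≤ 1000 * ((θ + 2) * L) * Z ^ 4 * L ^ 36 := hlow2
          _ = 1000 * (θ + 2) * (L ^ 37 * Z ^ 4) := by ring
      rw [div_le_iff₀ (by positivity)]
      have h5 : C1 ^ 4 * (1000 * (θ + 2)) * 8 ≤ L ^ 3 * (8 * ε ^ 4) * (1000 * (θ + 2) * (L ^ 37 * Z ^ 4)) :=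
        mul_le_mul h2 h4 (by norm_num) (by positivity)
      have h6 : L ^ 3 * (8 * ε ^ 4) * (1000 * (θ + 2) * (L ^ 37 * Z ^ 4)) =
          (ε ^ 4 * Z ^ 4 * L ^ (10 * 4)) * (1000 * (θ + 2) * 8) := by ring
      have h7 : C1 ^ 4 * (1000 * (θ + 2)) * 8 = C1 ^ 4 * (1000 * (θ + 2) * 8) := by ring
      rw [h6, h7] at h5
      exact le_of_mul_le_mul_right h5 (by positivity)
    exact (pow_le_pow_iff_left₀ (by positivity) (by positivity) (by norm_num)).1 h1
  have e1 : zl d h = ‖riemannZeta (1 + (2 * d : ℝ) + h * I)‖ := by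
    unfold zl
    congr 2
    push_cast
    ring
  have e2 : zl (e12 d) h = Z := by
    unfold zl
    rw [hZ]
    congr 2
    rw [hy]
    push_cast
    ring
  rw [e1, e2]
  have h8 := norm_sub_norm_le (riemannZeta (1 + (2 * d : ℝ) + h * I)) (riemannZeta (1 + y + h * I))
  rw [← hZ] at h8
  linarith

end Pool.Agent.H6F.ZCMP
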