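import Pool.Agent.H6F.Known
import Pool.Agent.H6F.CONVO
import Pool.Agent.H6F.DASY
import Pool.Agent.H6F.DB
import Pool.Agent.H6F.DIAG
import Pool.Agent.H6F.EXPO
import Pool.Agent.H6F.FAR
import Pool.Agent.H6F.FUB
import Pool.Agent.H6F.GCDP
import Pool.Agent.H6F.NEARP
import Pool.Agent.H6F.ONE
import Pool.Agent.H6F.SUB
import Pool.Agent.H6F.SUP
import Pool.Agent.H6F.SUPA
import Pool.Agent.H6F.SUPB
import Pool.Agent.H6F.UNI
import Pool.Agent.H6F.ZCMP

set_option autoImplicit false

/-! Short intervals near the critical line: the theorems used by both parts. -/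

namespace Pool.Agent.H6F

open Filter MeasureTheory Topology Complex
open Pool.Agent.N748.MG Pool.Agent.N748.MJ

theorem dia2vF : S_DIA2V := DIA2V.main bndF gvbF LZB.main

theorem oneF : S_ONE := ONE.t tm1F aposF

theorem subF : S_SUB := SUB.t tm3F aposF

theorem uniF : S_UNI := UNI.t smF posF

theorem fubF : S_FUB := FUB.t

theorem diagF : S_DIAG := DIAG.t DB.t GCDP.t

theorem dasyF : S_DASY := DASY.t dia2vF posF LZB.main av0F CONVO.t aposF

theorem farF : S_FAR := FAR.t ZCMP.t diagF dasyF aposF posF DB.t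

theorem nearpF : S_NEARP := NEARP.t uniF posF

theorem supF : S_SUP := SUP.t SUPA.t (SUPB.t tm1F fourF)

end Pool.Agent.H6F
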