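import Pool.Agent.H6F.Stm
import Pool.Agent.N748.MG.Ev
import Pool.Agent.N748.MG.TMA

set_option autoImplicit false

/-!
# Project H6F, stub LLN (helper93): the law of large numbers for the averages over short intervals
-/

namespace Pool.Agent.H6F.LLN

open Filter MeasureTheory Topology Complex
open Pool.Agent.N748.MG Pool.Agent.N748.MJ Pool.Agent.H6F

/-! ### Truncated powers -/

lemma F_nn {k V d u : ℝ} : 0 ≤ F k V d u := by
  unfold F
  split_ifs
  · exact Real.rpow_nonneg (norm_nonneg _) _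
  · exact le_rfl

lemma F_le {k V d u : ℝ} (hk : 0 ≤ k) (hd : 0 < d) : F k V d u ≤ ((2 * d) ^ (-V)) ^ (2 * k) := by
  unfold F
  split_ifs with h
  · exact Real.rpow_le_rpow (norm_nonneg _) h (by linarith)
  · exact Real.rpow_nonneg (Real.rpow_nonneg (by linarith) _) _

lemma F_meas {k V d : ℝ} (hd : d ≤ 1 / 16) : Measurable (F k V d) := by
  have h1 : Measurable fun u : ℝ => mz d u := (TMA.cont hd).measurable
  unfold F
  exact Measurable.ite (measurableSet_le h1 measurable_const) (h1.pow_const _) measurable_const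

lemma F_mono {k V V' d u : ℝ} (hd : 0 < d) (h2 : 2 * d ≤ 1) (hV : V ≤ V') :
    F k V d u ≤ F k V' d u := by
  have h1 : (2 * d) ^ (-V) ≤ (2 * d) ^ (-V') :=
    Real.rpow_le_rpow_of_exponent_ge (by linarith) h2 (by linarith)
  unfold F
  split_ifs with h3 h4 h4
  · exact le_rfl
  · exact absurd (h3.trans h1) h4
  · exact Real.rpow_nonneg (norm_nonneg _) _
  · exact le_rfl

/-! ### Averages of bounded functions -/

lemma ii {g : ℝ → ℝ} {B : ℝ} (hg : Measurable g) (hB : ∀ u, 0 ≤ g u ∧ g u ≤ B) (a b : ℝ) :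
    IntervalIntegrable g volume a b := by
  rw [intervalIntegrable_iff]
  refine Measure.integrableOn_of_bounded (M := B) (by simp) hg.aestronglyMeasurable ?_
  refine Eventually.of_forall fun u => ?_
  rw [Real.norm_of_nonneg (hB u).1]
  exact (hB u).2

lemma cont_prim {g : ℝ → ℝ} {B : ℝ} (hg : Measurable g) (hB : ∀ u, 0 ≤ g u ∧ g u ≤ B) (H : ℝ) :
    Continuous fun t : ℝ => ∫ u in t..(t + H), g u := by
  have h1 : Continuous fun b : ℝ => ∫ u in (0:ℝ)..b, g u :=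
    intervalIntegral.continuous_primitive (ii hg hB) 0
  have h2 : (fun t : ℝ => ∫ u in t..(t + H), g u) =
      fun t : ℝ => (∫ u in (0:ℝ)..(t + H), g u) - ∫ u in (0:ℝ)..t, g u := by
    funext t
    rw [intervalIntegral.integral_interval_sub_left (ii hg hB _ _) (ii hg hB _ _)]
  rw [h2]
  exact (h1.comp (continuous_id.add continuous_const)).sub h1

lemma cont_av {g : ℝ → ℝ} {B : ℝ} (hg : Measurable g) (hB : ∀ u, 0 ≤ g u ∧ g u ≤ B) (H : ℝ) :
    Continuous fun t : ℝ => (1 / H) * ∫ u in t..(t + H), g u :=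
  continuous_const.mul (cont_prim hg hB H)

lemma cont_sh {g : ℝ → ℝ} {B : ℝ} (hg : Measurable g) (hB : ∀ u, 0 ≤ g u ∧ g u ≤ B) (T : ℝ) :
    Continuous fun x : ℝ => (1 / T) * ∫ t in (0:ℝ)..T, g (t + x) := by
  have h2 : (fun x : ℝ => (1 / T) * ∫ t in (0:ℝ)..T, g (t + x)) =
      fun x : ℝ => (1 / T) * ∫ u in x..(x + T), g u := by
    funext x
    rw [intervalIntegral.integral_comp_add_right, zero_add, add_comm T x]
  rw [h2]
  exact cont_av hg hB T |>.congr fun x => rfl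

lemma av_mono {f g : ℝ → ℝ} {B : ℝ} (hf : Measurable f) (hg : Measurable g)
    (hBf : ∀ u, 0 ≤ f u ∧ f u ≤ B) (hBg : ∀ u, 0 ≤ g u ∧ g u ≤ B) (h : ∀ u, f u ≤ g u) {t H : ℝ}
    (hH : 0 < H) : (1 / H) * (∫ u in t..(t + H), f u) ≤ (1 / H) * ∫ u in t..(t + H), g u := by
  refine mul_le_mul_of_nonneg_left ?_ (by positivity)
  exact intervalIntegral.integral_mono_on (by linarith) (ii hf hBf _ _) (ii hg hBg _ _)
    fun u _ => h u

lemma avg_close {G : ℝ → ℝ} (hG : Continuous G) {H m e : ℝ} (hH : 0 < H)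
    (h : ∀ x, 0 ≤ x → x ≤ H → |G x - m| ≤ e) : |(1 / H) * (∫ x in (0:ℝ)..H, G x) - m| ≤ e := by
  have h1 : (1 / H) * (∫ x in (0:ℝ)..H, G x) - m = (1 / H) * ∫ x in (0:ℝ)..H, (G x - m) := by
    rw [intervalIntegral.integral_sub (hG.intervalIntegrable _ _) (by simp)]
    simp only [intervalIntegral.integral_const, sub_zero, smul_eq_mul]
    field_simp
  have h2 : ‖∫ x in (0:ℝ)..H, (G x - m)‖ ≤ e * |H - 0| := by
    refine intervalIntegral.norm_integral_le_of_norm_le_const fun x hx => ?_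
    rw [Set.uIoc_of_le hH.le] at hx
    exact h x hx.1.le hx.2
  rw [h1, abs_mul, abs_of_nonneg (by positivity : (0:ℝ) ≤ 1 / H)]
  rw [sub_zero, abs_of_pos hH, Real.norm_eq_abs] at h2
  calc 1 / H * |∫ x in (0:ℝ)..H, (G x - m)| ≤ 1 / H * (e * H) :=
        mul_le_mul_of_nonneg_left h2 (by positivity)
    _ = e := by field_simp

/-- Markov's inequality -/
lemma markov {f : ℝ → ℝ} (hf : Continuous f) (h0 : ∀ t, 0 ≤ f t) {T c m : ℝ} (hT : 0 < T)
    (hc : 0 < c) (h : (1 / T) * (∫ t in (0:ℝ)..T, f t) ≤ m) :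
    volume {t : ℝ | 0 ≤ t ∧ t ≤ T ∧ c < f t} ≤ ENNReal.ofReal (m * T / c) := by
  have h1 : IntegrableOn f (Set.Icc 0 T) := hf.integrableOn_Icc
  have h2 := mul_meas_ge_le_integral_of_nonneg (μ := volume.restrict (Set.Icc 0 T)) (f := f)
    (Eventually.of_forall h0) h1 c
  have h3 : ∫ t in Set.Icc 0 T, f t = ∫ t in (0:ℝ)..T, f t := by
    rw [intervalIntegral.integral_of_le hT.le, integral_Icc_eq_integral_Ioc]
  rw [h3] at h2
  have h4 : (∫ t in (0:ℝ)..T, f t) ≤ m * T := by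
    have h5 : (1 / T) * (∫ t in (0:ℝ)..T, f t) * T ≤ m * T := mul_le_mul_of_nonneg_right h hT.le
    have h6 : (1 / T) * (∫ t in (0:ℝ)..T, f t) * T = ∫ t in (0:ℝ)..T, f t := by field_simp
    rwa [h6] at h5
  have h5 : (volume.restrict (Set.Icc 0 T)).real {t | c ≤ f t} ≤ m * T / c := by
    rw [le_div_iff₀ hc, mul_comm]
    exact h2.trans h4
  have hfin : (volume.restrict (Set.Icc 0 T)) {t | c ≤ f t} ≠ ⊤ := measure_ne_top _ _
  have h6 : (volume.restrict (Set.Icc 0 T)) {t | c ≤ f t} ≤ ENNReal.ofReal (m * T / c) := by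
    rw [← ENNReal.ofReal_toReal hfin]
    exact ENNReal.ofReal_le_ofReal h5
  refine le_trans ?_ h6
  rw [Measure.restrict_apply (measurableSet_le measurable_const hf.measurable)]
  refine measure_mono fun t ht => ?_
  exact ⟨ht.2.2.le, ht.1, ht.2.1⟩

/-! ### Large `T` -/

/-- everything needed for large `T` -/
lemma large {d : ℝ → ℝ} (hd : Ad d) (θ : ℝ) : ∀ᶠ T : ℝ in atTop, 0 < T ∧ 0 < d T ∧ d T ≤ 1 / 16 ∧
    (2 * d T) ^ (-θ) ≤ T ^ ((1:ℝ) / 2) := by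
  have h1 := Ev.app (Ev.win (D := θ) (c := 1 / 2 ^ (-θ)) (e := 1 / 2) (by positivity) (by norm_num)) hd
  have h2 : ∀ᶠ T : ℝ in atTop, d T ≤ 1 / 16 := hd.t0.eventually_le_const (by norm_num)
  filter_upwards [h1, h2, hd.pos, eventually_gt_atTop 0] with T g1 g2 g3 g4
  refine ⟨g4, g3, g2, ?_⟩
  have g1' : (d T) ^ (-θ) ≤ 1 / 2 ^ (-θ) * T ^ ((1:ℝ) / 2) := g1
  rw [Real.mul_rpow (by norm_num) g3.le]
  have h3 : (0:ℝ) < 2 ^ (-θ) := by positivity
  calc (2:ℝ) ^ (-θ) * (d T) ^ (-θ) ≤ 2 ^ (-θ) * (1 / 2 ^ (-θ) * T ^ ((1:ℝ) / 2)) :=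
        mul_le_mul_of_nonneg_left g1' h3.le
    _ = T ^ ((1:ℝ) / 2) := by field_simp

lemma M_pos (h5 : S_APOS) {k d : ℝ} (hd : 0 < d) : 0 < M k d :=
  mul_pos (h5 k).1 (Real.rpow_pos_of_pos (by linarith) _)

/-- **LLN.** -/
theorem t (h1 : S_VAR) (h2 : S_ONE) (h3 : S_SUP) (h4 : S_FUB) (h5 : S_APOS) : S_LLN := by
  intro d hd k θ ε hk hθ hkθ hε
  obtain ⟨V, hkV, hV⟩ := h1 d hd k θ hk hθ hkθ
  obtain ⟨V', hV'⟩ : ∃ V' : ℝ, V' = max V (√(1 + θ)) + 1 := ⟨_, rfl⟩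
  have hVV' : V ≤ V' := by
    rw [hV']
    linarith [le_max_left V (√(1 + θ))]
  have hV'0 : 0 < V' := by linarith
  have hV'2 : 1 + θ < V' ^ 2 := by
    have a1 : √(1 + θ) < V' := by
      rw [hV']
      linarith [le_max_right V (√(1 + θ))]
    calc 1 + θ = √(1 + θ) ^ 2 := (Real.sq_sqrt (by linarith)).symm
      _ < V' ^ 2 := pow_lt_pow_left₀ a1 (Real.sqrt_nonneg _) two_ne_zero
  have e1 : 0 < ε ^ 3 / 12 := by positivity
  have e2 : 0 < ε ^ 2 / 12 := by positivity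
  have e3 : 0 < ε / 3 := by positivity
  filter_upwards [large hd θ, hV _ e1, h2 d hd k V _ hk hkV e2, h2 d hd k V' _ hk (by linarith) e2,
    h3 d hd V' θ _ (by linarith) hV'0 hV'2 e3] with T hT hT1 hT2 hT3 hT4
  obtain ⟨hT0, hd0, hd1, hH1⟩ := hT
  obtain ⟨H, hH⟩ : ∃ H : ℝ, H = (2 * d T) ^ (-θ) := ⟨_, rfl⟩
  have hH0 : 0 < H := by
    rw [hH]
    exact Real.rpow_pos_of_pos (by linarith) _
  obtain ⟨D, hD⟩ : ∃ D : ℝ, D = d T := ⟨_, rfl⟩
  rw [← hH] at hT1 hT4 hH1 ⊢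
  rw [← hD] at hT1 hT2 hT3 hT4 hd0 hd1 ⊢
  have hM : 0 < M k D := M_pos h5 hd0
  obtain ⟨m, hm⟩ : ∃ m : ℝ, m = M k D := ⟨_, rfl⟩
  rw [← hm] at hT1 hT2 hT3 hM ⊢
  -- the truncated powers
  obtain ⟨g, hg⟩ : ∃ g : ℝ → ℝ, g = F k V D := ⟨_, rfl⟩
  obtain ⟨g', hg'⟩ : ∃ g' : ℝ → ℝ, g' = F k V' D := ⟨_, rfl⟩
  obtain ⟨B, hB⟩ : ∃ B : ℝ, B = ((2 * D) ^ (-V')) ^ (2 * k) := ⟨_, rfl⟩
  have gm : Measurable g := by rw [hg]; exact F_meas hd1
  have gm' : Measurable g' := by rw [hg']; exact F_meas hd1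
  have gle : ∀ u, g u ≤ g' u := fun u => by
    rw [hg, hg']
    exact F_mono hd0 (by linarith) hVV'
  have gB' : ∀ u, 0 ≤ g' u ∧ g' u ≤ B := fun u => by
    rw [hg', hB]
    exact ⟨F_nn, F_le hk.le hd0⟩
  have gB : ∀ u, 0 ≤ g u ∧ g u ≤ B := fun u =>
    ⟨by rw [hg]; exact F_nn, (gle u).trans (gB' u).2⟩
  obtain ⟨A, hA⟩ : ∃ A : ℝ → ℝ, A = fun t => (1 / H) * ∫ u in t..(t + H), g u := ⟨_, rfl⟩
  obtain ⟨A', hA'⟩ : ∃ A' : ℝ → ℝ, A' = fun t => (1 / H) * ∫ u in t..(t + H), g' u := ⟨_, rfl⟩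
  have Ac : Continuous A := by rw [hA]; exact cont_av gm gB H
  have Ac' : Continuous A' := by rw [hA']; exact cont_av gm' gB' H
  have Ale : ∀ t, A t ≤ A' t := fun t => by
    rw [hA, hA']
    exact av_mono gm gm' gB gB' gle hH0
  -- the mean values
  have hx : ∀ x : ℝ, x ≤ H → x ≤ T ^ ((1:ℝ) / 2) := fun x hx => hx.trans hH1
  have m1 : |(1 / T) * (∫ t in (0:ℝ)..T, A t) - m| ≤ ε ^ 2 / 12 * m := by
    rw [hA, (h4 g B T H gm gB hT0 hH0).1]
    refine avg_close (cont_sh gm gB T) hH0 fun x hx0 hx1 => ?_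
    rw [hg]
    exact hT2 x hx0 (hx x hx1)
  have m2 : |(1 / T) * (∫ t in (0:ℝ)..T, A' t) - m| ≤ ε ^ 2 / 12 * m := by
    rw [hA', (h4 g' B T H gm' gB' hT0 hH0).1]
    refine avg_close (cont_sh gm' gB' T) hH0 fun x hx0 hx1 => ?_
    rw [hg']
    exact hT3 x hx0 (hx x hx1)
  have m3 : (1 / T) * (∫ t in (0:ℝ)..T, (A' t - A t)) ≤ ε ^ 2 / 6 * m := by
    rw [intervalIntegral.integral_sub (Ac'.intervalIntegrable _ _) (Ac.intervalIntegrable _ _),
      mul_sub]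
    have a1 := (abs_le.1 m1).1
    have a2 := (abs_le.1 m2).2
    linarith
  -- the exceptional sets
  have s1 : volume {t : ℝ | 0 ≤ t ∧ t ≤ T ∧ (ε / 2 * m) ^ 2 < (A t - m) ^ 2} ≤
      ENNReal.ofReal (ε / 3 * T) := by
    refine (markov ((Ac.sub continuous_const).pow 2) (fun t => sq_nonneg _) hT0 (by positivity)
      (m := ε ^ 3 / 12 * m ^ 2) ?_).trans (le_of_eq ?_)
    · rw [hA, hg]
      exact hT1
    · congr 1
      field_simp
      ring
  have s2 : volume {t : ℝ | 0 ≤ t ∧ t ≤ T ∧ ε / 2 * m < A' t - A t} ≤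
      ENNReal.ofReal (ε / 3 * T) := by
    refine (markov (Ac'.sub Ac) (fun t => sub_nonneg.2 (Ale t)) hT0 (by positivity) m3).trans
      (le_of_eq ?_)
    congr 1
    field_simp
    ring
  -- the union
  have hsub : {t : ℝ | 0 ≤ t ∧ t ≤ T ∧ ε * m < |av k D H t - m|} ⊆
      ({t : ℝ | 0 ≤ t ∧ t ≤ T ∧ (ε / 2 * m) ^ 2 < (A t - m) ^ 2} ∪
        {t : ℝ | 0 ≤ t ∧ t ≤ T ∧ ε / 2 * m < A' t - A t}) ∪
      {t : ℝ | 0 ≤ t ∧ t ≤ T ∧ ∃ u : ℝ, t ≤ u ∧ u ≤ t + H ∧ (2 * D) ^ (-V') < mz D u} := by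
    rintro t ⟨ht0, ht1, ht2⟩
    by_contra hcon
    rw [Set.mem_union, Set.mem_union, not_or, not_or] at hcon
    obtain ⟨⟨c1, c2⟩, c3⟩ := hcon
    have b1 : |A t - m| ≤ ε / 2 * m := by
      by_contra hc
      push Not at hc
      refine c1 ⟨ht0, ht1, ?_⟩
      rw [← sq_abs (A t - m)]
      exact pow_lt_pow_left₀ hc (by positivity) two_ne_zero
    have b2 : A' t - A t ≤ ε / 2 * m := by
      by_contra hc
      push Not at hc
      exact c2 ⟨ht0, ht1, hc⟩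
    have b3 : ∀ u : ℝ, t ≤ u → u ≤ t + H → mz D u ≤ (2 * D) ^ (-V') := by
      intro u hu1 hu2
      by_contra hc
      push Not at hc
      exact c3 ⟨ht0, ht1, u, hu1, hu2, hc⟩
    have b4 : av k D H t = A' t := by
      rw [hA', hg']
      unfold av
      congr 1
      refine intervalIntegral.integral_congr fun u hu => ?_
      rw [Set.uIcc_of_le (by linarith)] at hu
      show mz D u ^ (2 * k) = F k V' D u
      unfold F
      rw [if_pos (b3 u hu.1 hu.2)]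
    rw [b4] at ht2
    have b5 := abs_le.1 b1
    have b6 := Ale t
    have b7 : |A' t - m| ≤ ε * m := by
      rw [abs_le]
      constructor
      · linarith [b5.1]
      · linarith [b5.2]
    exact absurd ht2 (not_lt.2 b7)
  refine (measure_mono hsub).trans ((measure_union_le _ _).trans ?_)
  refine (add_le_add (measure_union_le _ _) hT4).trans ?_
  refine (add_le_add (add_le_add s1 s2) le_rfl).trans ?_
  rw [← ENNReal.ofReal_add (by positivity) (by positivity),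
    ← ENNReal.ofReal_add (by positivity) (by positivity)]
  refine ENNReal.ofReal_le_ofReal (le_of_eq ?_)
  ring

end Pool.Agent.H6F.LLN
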