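import Pool.Agent.H6F.Stm
import Pool.Agent.N748.MG.TMA

set_option autoImplicit false

/-! Stub VAR of project H6F (helper77). -/

namespace Pool.Agent.H6F.VAR

open Filter MeasureTheory Topology Complex
open Pool.Agent.N748.MG Pool.Agent.N748.MJ

/-! ### measure theory -/

lemma ion {H C : ℝ} {f : ℝ × ℝ → ℝ} (hf : Measurable f)
    (hb : ∀ x ∈ Set.Icc (0 : ℝ) H, ∀ y ∈ Set.Icc (0 : ℝ) H, |f (x, y)| ≤ C) :
    IntegrableOn f (Set.Ioc (0 : ℝ) H ×ˢ Set.Ioc (0 : ℝ) H) := by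
  have hfin : volume (Set.Ioc (0 : ℝ) H ×ˢ Set.Ioc (0 : ℝ) H) < ⊤ := by
    rw [Measure.volume_eq_prod, Measure.prod_prod]
    exact ENNReal.mul_lt_top measure_Ioc_lt_top measure_Ioc_lt_top
  refine Measure.integrableOn_of_bounded (M := C) hfin.ne hf.aestronglyMeasurable ?_
  refine (ae_restrict_iff' (measurableSet_Ioc.prod measurableSet_Ioc)).2 (Eventually.of_forall fun z hz => ?_)
  exact hb z.1 (Set.Ioc_subset_Icc_self hz.1) z.2 (Set.Ioc_subset_Icc_self hz.2)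

lemma it_eq {H : ℝ} (hH : 0 ≤ H) {f : ℝ × ℝ → ℝ}
    (hf : IntegrableOn f (Set.Ioc (0 : ℝ) H ×ˢ Set.Ioc (0 : ℝ) H)) :
    ∫ x in (0 : ℝ)..H, ∫ y in (0 : ℝ)..H, f (x, y) = ∫ z in Set.Ioc (0 : ℝ) H ×ˢ Set.Ioc (0 : ℝ) H, f z := by
  rw [intervalIntegral.integral_of_le hH]
  simp_rw [intervalIntegral.integral_of_le hH]
  rw [Measure.volume_eq_prod] at hf ⊢
  exact (setIntegral_prod f hf).symm

lemma it_mono {H : ℝ} (hH : 0 ≤ H) {f g : ℝ × ℝ → ℝ}
    (hf : IntegrableOn f (Set.Ioc (0 : ℝ) H ×ˢ Set.Ioc (0 : ℝ) H))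
    (hg : IntegrableOn g (Set.Ioc (0 : ℝ) H ×ˢ Set.Ioc (0 : ℝ) H))
    (hle : ∀ x ∈ Set.Icc (0 : ℝ) H, ∀ y ∈ Set.Icc (0 : ℝ) H, f (x, y) ≤ g (x, y)) :
    ∫ x in (0 : ℝ)..H, ∫ y in (0 : ℝ)..H, f (x, y) ≤ ∫ x in (0 : ℝ)..H, ∫ y in (0 : ℝ)..H, g (x, y) := by
  rw [it_eq hH hf, it_eq hH hg]
  refine setIntegral_mono_on hf hg (measurableSet_Ioc.prod measurableSet_Ioc) fun z hz => ?_
  exact hle z.1 (Set.Ioc_subset_Icc_self hz.1) z.2 (Set.Ioc_subset_Icc_self hz.2)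

/-- the correlation -/
noncomputable def Q (g : ℝ → ℝ) (T : ℝ) (z : ℝ × ℝ) : ℝ := (1 / T) * ∫ t in (0:ℝ)..T, g (t + z.1) * g (t + z.2)

lemma Q_meas {g : ℝ → ℝ} (hg : Measurable g) {T : ℝ} (hT : 0 ≤ T) : Measurable (Q g T) := by
  unfold Q
  simp_rw [intervalIntegral.integral_of_le hT]
  refine Measurable.const_mul ?_ _
  have h1 : StronglyMeasurable (fun p : (ℝ × ℝ) × ℝ => g (p.2 + p.1.1) * g (p.2 + p.1.2)) := by
    apply Measurable.stronglyMeasurable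
    exact (hg.comp (by fun_prop)).mul (hg.comp (by fun_prop))
  exact (h1.integral_prod_right' (ν := volume.restrict (Set.Ioc (0:ℝ) T))).measurable

lemma q_meas {g : ℝ → ℝ} (hg : Measurable g) {T : ℝ} (hT : 0 ≤ T) :
    Measurable fun x => (1 / T) * ∫ t in (0:ℝ)..T, g (t + x) := by
  simp_rw [intervalIntegral.integral_of_le hT]
  refine Measurable.const_mul ?_ _
  have h1 : StronglyMeasurable (fun p : ℝ × ℝ => g (p.2 + p.1)) := by
    apply Measurable.stronglyMeasurable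
    exact hg.comp (by fun_prop)
  exact (h1.integral_prod_right' (ν := volume.restrict (Set.Ioc (0:ℝ) T))).measurable

lemma ii {g : ℝ → ℝ} {B : ℝ} (hg : Measurable g) (hb : ∀ u, |g u| ≤ B) (a b : ℝ) :
    IntervalIntegrable g volume a b := by
  rw [intervalIntegrable_iff]
  refine Measure.integrableOn_of_bounded (M := B) ?_ hg.aestronglyMeasurable ?_
  · rw [Set.uIoc]
    exact measure_Ioc_lt_top.ne
  · exact Eventually.of_forall fun t => hb t

lemma avg_le {T : ℝ} (hT : 0 < T) {g : ℝ → ℝ} {B : ℝ} (hg : Measurable g) (hb : ∀ u, |g u| ≤ B) :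
    |(1 / T) * ∫ t in (0:ℝ)..T, g t| ≤ B := by
  have h1 := intervalIntegral.norm_integral_le_of_norm_le_const (a := (0:ℝ)) (b := T) (f := g) (C := B)
    fun t _ => hb t
  rw [sub_zero, abs_of_pos hT, Real.norm_eq_abs] at h1
  rw [abs_mul, abs_of_pos (by positivity : 0 < 1 / T)]
  calc 1 / T * |∫ t in (0:ℝ)..T, g t| ≤ 1 / T * (B * T) := mul_le_mul_of_nonneg_left h1 (by positivity)
    _ = B := by field_simp

/-- the general inequality -/
theorem gen {g : ℝ → ℝ} {B T H M e : ℝ} {W : ℝ × ℝ → ℝ} (hg : Measurable g) (hb : ∀ u, 0 ≤ g u ∧ g u ≤ B)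
    (hT : 0 < T) (hH : 0 < H) (hM : 0 < M) (he : 0 < e) (he1 : e ≤ 1)
    (hF : (1 / T) * (∫ t in (0:ℝ)..T, (1 / H) * ∫ u in t..(t + H), g u) =
      (1 / H) * (∫ x in (0:ℝ)..H, (1 / T) * ∫ t in (0:ℝ)..T, g (t + x)))
    (hF2 : (1 / T) * (∫ t in (0:ℝ)..T, ((1 / H) * ∫ u in t..(t + H), g u) ^ 2) =
      (1 / H ^ 2) * (∫ x in (0:ℝ)..H, ∫ y in (0:ℝ)..H, (1 / T) * ∫ t in (0:ℝ)..T, g (t + x) * g (t + y)))
    (h1 : ∀ x : ℝ, 0 ≤ x → x ≤ H → (1 - e) * M ≤ (1 / T) * ∫ t in (0:ℝ)..T, g (t + x))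
    (hW : IntegrableOn W (Set.Ioc (0 : ℝ) H ×ˢ Set.Ioc (0 : ℝ) H))
    (h2 : ∀ x ∈ Set.Icc (0:ℝ) H, ∀ y ∈ Set.Icc (0:ℝ) H, 1 ≤ |y - x| →
      (1 / T) * (∫ t in (0:ℝ)..T, g (t + x) * g (t + y)) ≤ (1 + e) * W (x, y))
    (h20 : ∀ x ∈ Set.Icc (0:ℝ) H, ∀ y ∈ Set.Icc (0:ℝ) H, ¬ 1 ≤ |y - x| → W (x, y) = 0)
    (h3 : (1 / H ^ 2) * (∫ x in (0:ℝ)..H, ∫ y in (0:ℝ)..H, W (x, y)) ≤ (1 + e) * M ^ 2)
    (h4 : (1 / H ^ 2) * (∫ x in (0:ℝ)..H, ∫ y in (0:ℝ)..H,
      (if 1 ≤ |y - x| then 0 else (1 / T) * ∫ t in (0:ℝ)..T, g (t + x) * g (t + y))) ≤ e * M ^ 2) :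
    (1 / T) * (∫ t in (0:ℝ)..T, ((1 / H) * (∫ u in t..(t + H), g u) - M) ^ 2) ≤ 6 * e * M ^ 2 := by
  have hB : 0 ≤ B := (hb 0).1.trans (hb 0).2
  have hgb : ∀ u, |g u| ≤ B := fun u => by rw [abs_of_nonneg (hb u).1]; exact (hb u).2
  have hQb : ∀ z, |Q g T z| ≤ B ^ 2 := by
    intro z
    refine avg_le hT ((hg.comp (by fun_prop)).mul (hg.comp (by fun_prop))) fun u => ?_
    rw [abs_mul, sq]
    exact mul_le_mul (hgb _) (hgb _) (abs_nonneg _) hB
  have hQm := Q_meas hg hT.le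
  have hS : MeasurableSet {z : ℝ × ℝ | 1 ≤ |z.2 - z.1|} :=
    measurableSet_le measurable_const (by fun_prop)
  -- near part
  set N : ℝ × ℝ → ℝ := fun z => if 1 ≤ |z.2 - z.1| then 0 else Q g T z with hN
  have hNm : Measurable N := Measurable.ite hS measurable_const hQm
  have hNb : ∀ x ∈ Set.Icc (0 : ℝ) H, ∀ y ∈ Set.Icc (0 : ℝ) H, |N (x, y)| ≤ B ^ 2 := by
    intro x _ y _
    simp only [hN]
    split_ifs
    · rw [abs_zero]; positivity
    · exact hQb _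
  have hNi := ion hNm hNb
  have hQi : IntegrableOn (Q g T) (Set.Ioc (0 : ℝ) H ×ˢ Set.Ioc (0 : ℝ) H) :=
    ion (C := B ^ 2) hQm (fun x _ y _ => hQb (x, y))
  -- second moment
  have e1 : ∫ x in (0:ℝ)..H, ∫ y in (0:ℝ)..H, (1 / T) * ∫ t in (0:ℝ)..T, g (t + x) * g (t + y) ≤
      (∫ x in (0:ℝ)..H, ∫ y in (0:ℝ)..H, N (x, y)) + (1 + e) * ∫ x in (0:ℝ)..H, ∫ y in (0:ℝ)..H, W (x, y) := by
    have e2 : ∫ x in (0:ℝ)..H, ∫ y in (0:ℝ)..H, Q g T (x, y) ≤
        ∫ x in (0:ℝ)..H, ∫ y in (0:ℝ)..H, (fun z => N z + (1 + e) * W z) (x, y) := by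
      refine it_mono hH.le hQi (g := fun z => N z + (1 + e) * W z) (hNi.add (hW.const_mul _)) fun x hx y hy => ?_
      show Q g T (x, y) ≤ (if 1 ≤ |y - x| then 0 else Q g T (x, y)) + (1 + e) * W (x, y)
      by_cases hxy : 1 ≤ |y - x|
      · rw [if_pos hxy, zero_add]
        exact h2 x hx y hy hxy
      · rw [if_neg hxy, h20 x hx y hy hxy, mul_zero, add_zero]
    refine e2.trans (le_of_eq ?_)
    rw [it_eq hH.le (f := fun z => N z + (1 + e) * W z) (hNi.add (hW.const_mul _)), it_eq hH.le hNi,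
      it_eq hH.le hW, ← integral_const_mul, ← integral_add hNi (hW.const_mul _)]
  have e3 : (1 / H ^ 2) * (∫ x in (0:ℝ)..H, ∫ y in (0:ℝ)..H, (1 / T) * ∫ t in (0:ℝ)..T, g (t + x) * g (t + y)) ≤
      e * M ^ 2 + (1 + e) * ((1 + e) * M ^ 2) := by
    have hH2 : 0 ≤ 1 / H ^ 2 := by positivity
    have h4' : (1 / H ^ 2) * (∫ x in (0:ℝ)..H, ∫ y in (0:ℝ)..H, N (x, y)) ≤ e * M ^ 2 := h4
    have h5 := mul_le_mul_of_nonneg_left e1 hH2
    have h6 := mul_le_mul_of_nonneg_left h3 (by linarith : 0 ≤ 1 + e)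
    calc _ ≤ _ := h5
      _ = (1 / H ^ 2) * (∫ x in (0:ℝ)..H, ∫ y in (0:ℝ)..H, N (x, y)) +
          (1 + e) * ((1 / H ^ 2) * ∫ x in (0:ℝ)..H, ∫ y in (0:ℝ)..H, W (x, y)) := by ring
      _ ≤ _ := add_le_add h4' h6
  -- first moment
  have e4 : (1 - e) * M ≤ (1 / H) * (∫ x in (0:ℝ)..H, (1 / T) * ∫ t in (0:ℝ)..T, g (t + x)) := by
    have hqm := q_meas hg hT.le
    have hqb : ∀ x, |(1 / T) * ∫ t in (0:ℝ)..T, g (t + x)| ≤ B := fun x =>
      avg_le hT (hg.comp (by fun_prop)) fun u => hgb _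
    have h5 : ∫ x in (0:ℝ)..H, (1 - e) * M ≤ ∫ x in (0:ℝ)..H, (1 / T) * ∫ t in (0:ℝ)..T, g (t + x) := by
      refine intervalIntegral.integral_mono_on hH.le intervalIntegrable_const (ii hqm hqb 0 H) fun x hx => ?_
      exact h1 x hx.1 hx.2
    rw [intervalIntegral.integral_const, sub_zero, smul_eq_mul] at h5
    have h6 := mul_le_mul_of_nonneg_left h5 (by positivity : 0 ≤ 1 / H)
    refine le_trans (le_of_eq ?_) h6
    field_simp
  -- the average is continuous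
  set A : ℝ → ℝ := fun t => (1 / H) * ∫ u in t..(t + H), g u with hA
  have hAc : Continuous A := by
    have hG : Continuous fun x => ∫ u in (0:ℝ)..x, g u :=
      intervalIntegral.continuous_primitive (fun a b => ii hg hgb a b) 0
    have h5 : A = fun t => (1 / H) * ((∫ u in (0:ℝ)..(t + H), g u) - ∫ u in (0:ℝ)..t, g u) := by
      funext t
      simp only [hA]
      rw [intervalIntegral.integral_interval_sub_left (ii hg hgb _ _) (ii hg hgb _ _)]
    rw [h5]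
    exact ((hG.comp (continuous_id.add continuous_const)).sub hG).const_mul _
  have i1 : IntervalIntegrable (fun t => A t ^ 2) volume 0 T := (hAc.pow 2).intervalIntegrable _ _
  have i2 : IntervalIntegrable A volume 0 T := hAc.intervalIntegrable _ _
  have e5 : ∫ t in (0:ℝ)..T, (A t - M) ^ 2 = (∫ t in (0:ℝ)..T, A t ^ 2) - 2 * M * (∫ t in (0:ℝ)..T, A t) + T * M ^ 2 := by
    have h5 : (fun t => (A t - M) ^ 2) = fun t => (A t ^ 2 - 2 * M * A t) + M ^ 2 := by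
      funext t
      ring
    rw [h5, intervalIntegral.integral_add (i1.sub (i2.const_mul _)) intervalIntegrable_const,
      intervalIntegral.integral_sub i1 (i2.const_mul _), intervalIntegral.integral_const_mul,
      intervalIntegral.integral_const, sub_zero, smul_eq_mul]
  have e6 : (1 / T) * (∫ t in (0:ℝ)..T, (A t - M) ^ 2) =
      (1 / T) * (∫ t in (0:ℝ)..T, A t ^ 2) - 2 * M * ((1 / T) * ∫ t in (0:ℝ)..T, A t) + M ^ 2 := by
    rw [e5]
    field_simp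
  have e7 : (1 / T) * (∫ t in (0:ℝ)..T, A t ^ 2) ≤ e * M ^ 2 + (1 + e) * ((1 + e) * M ^ 2) := by
    rw [hF2]
    exact e3
  have e8 : (1 - e) * M ≤ (1 / T) * ∫ t in (0:ℝ)..T, A t := by
    rw [hF]
    exact e4
  show (1 / T) * (∫ t in (0:ℝ)..T, (A t - M) ^ 2) ≤ 6 * e * M ^ 2
  rw [e6]
  have e9 : 2 * M * ((1 - e) * M) ≤ 2 * M * ((1 / T) * ∫ t in (0:ℝ)..T, A t) :=
    mul_le_mul_of_nonneg_left e8 (by positivity)
  have e10 : e * e ≤ e * 1 := mul_le_mul_of_nonneg_left he1 he.le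
  have hM2 : 0 ≤ M ^ 2 := by positivity
  nlinarith

/-! ### the truncated power -/

lemma F_meas {k V d : ℝ} (hd : d ≤ 1 / 16) : Measurable (F k V d) := by
  have h1 : Measurable fun u => mz d u := (TMA.cont hd).measurable
  unfold F
  exact Measurable.ite (measurableSet_le h1 measurable_const) (h1.pow_const _) measurable_const

lemma F_nn (k V d u : ℝ) : 0 ≤ F k V d u := by
  unfold F
  split_ifs
  · exact Real.rpow_nonneg (norm_nonneg _) _
  · exact le_rfl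

lemma F_le {k V d : ℝ} (hk : 0 ≤ k) (u : ℝ) (hd : 0 < d) : F k V d u ≤ ((2 * d) ^ (-V)) ^ (2 * k) := by
  unfold F
  split_ifs with h
  · exact Real.rpow_le_rpow (norm_nonneg _) h (by positivity)
  · positivity

lemma F_mono {k V V' d : ℝ} (hd : 0 < d) (hd1 : d ≤ 1 / 16) (hV : V ≤ V') (u : ℝ) : F k V d u ≤ F k V' d u := by
  unfold F
  have h1 : (2 * d) ^ (-V) ≤ (2 * d) ^ (-V') :=
    Real.rpow_le_rpow_of_exponent_ge (by positivity) (by linarith) (by linarith)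
  split_ifs with h h'
  · exact le_rfl
  · exact absurd (h.trans h1) h'
  · exact Real.rpow_nonneg (norm_nonneg _) _
  · exact le_rfl

/-! ### the main term -/

lemma zl_cont {d : ℝ} (hd : 0 < d) : Continuous fun h : ℝ => zl d h := by
  unfold zl
  apply Continuous.norm
  rw [continuous_iff_continuousAt]
  intro t
  have hne : (1 + 2 * (d : ℂ) + (t : ℂ) * I) ≠ 1 := by
    intro h
    have h1 := congrArg Complex.re h
    simp at h1
    linarith
  have h1 : ContinuousAt riemannZeta (1 + 2 * (d : ℂ) + (t : ℂ) * I) := (differentiableAt_riemannZeta hne).continuousAt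
  have h2 : Continuous fun t : ℝ => (1 + 2 * (d : ℂ) + (t : ℂ) * I) := by fun_prop
  exact ContinuousAt.comp (f := fun t : ℝ => (1 + 2 * (d : ℂ) + (t : ℂ) * I)) h1 h2.continuousAt

lemma R_cont (hC : S_CONV) {k d : ℝ} (hd : 0 < d) : Continuous fun h : ℝ => R k h d := by
  have h1 : Continuous fun h : ℝ => aR k h := by
    unfold aR
    refine Complex.continuous_re.comp ?_
    refine (hC 2).comp (g := fun q : (Fin 2 → ℂ) × (Fin 2 → ℂ) × (Fin 2 → ℝ) => aV q.1 q.2.1 q.2.2)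
      (f := fun h : ℝ => ((fun _ => (k : ℂ)), (fun _ => (k : ℂ)), ![0, h])) ?_
    refine continuous_const.prodMk (continuous_const.prodMk ?_)
    refine continuous_pi fun i => ?_
    fin_cases i
    · exact continuous_const
    · exact continuous_id
  unfold R
  refine (h1.mul continuous_const).mul ?_
  exact (zl_cont hd).rpow_const fun x => Or.inr (by positivity)

theorem t (h1 : S_ONE) (h2 : S_UNI) (h3 : S_FUB) (h4 : S_FAR) (h5 : S_NEAR) (h6 : S_APOS) (h7 : S_CONV) : S_VAR := by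
  intro d hd k θ hk hθ hkθ
  obtain ⟨V, δ, hkV, hδ, hnear⟩ := h5 d hd k θ hk hθ hkθ
  refine ⟨V, hkV, fun ε hε => ?_⟩
  obtain ⟨ha, -⟩ := h6 k
  set a : ℝ := (aC (k : ℂ)).re with hadef
  set e : ℝ := min 1 (ε / 6) with he
  have he0 : 0 < e := lt_min one_pos (by positivity)
  have he1 : e ≤ 1 := min_le_left _ _
  have he2 : 6 * e ≤ ε := by
    have := min_le_right (1 : ℝ) (ε / 6)
    rw [← he] at this
    linarith
  set V' : ℝ := max V (2 * k + 1) with hV'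
  have g1 := h1 d hd k V e hk hkV he0
  have g2 := h2 d hd k V' e hk (lt_of_lt_of_le (by linarith) (le_max_right _ _)) he0
  have htend : Tendsto d atTop (𝓝[>] 0) :=
    tendsto_nhdsWithin_iff.2 ⟨hd.t0, hd.pos.mono fun T hT => hT⟩
  have g4 := htend.eventually (h4 k θ e hk (by linarith) he0)
  have g7 := (Ev.win (D := θ) (c := 1) (e := 1 / 2) one_pos (by norm_num)).app hd
  have g8 := (Ev.small (C := 2 ^ δ) (c := δ) (e := e * a ^ 2) hδ (by positivity)).app hd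
  have g9 := (Ev.of_le (d := 1 / 16) (by norm_num)).app hd
  filter_upwards [g1, g2, g4, hnear, g7, g8, g9, hd.pos, eventually_gt_atTop 0] with T g1 g2 g4 g5 g7 g8 g9 g10 hT
  set δ' : ℝ := d T with hδ'
  set H : ℝ := (2 * δ') ^ (-θ) with hH
  have h2d : 0 < 2 * δ' := by positivity
  have hH0 : 0 < H := Real.rpow_pos_of_pos h2d _
  have hHT : H ≤ T ^ ((1 : ℝ) / 2) := by
    refine le_trans ?_ (g7.trans (le_of_eq (one_mul _)))
    rw [hH]
    exact Real.rpow_le_rpow_of_nonpos g10 (by linarith) (by linarith)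
  have hM0 : 0 < M k δ' := by
    unfold M
    exact mul_pos ha (Real.rpow_pos_of_pos h2d _)
  have hM2 : M k δ' ^ 2 = a ^ 2 * (2 * δ') ^ (-(2 * k ^ 2)) := by
    unfold M
    rw [mul_pow, ← Real.rpow_natCast ((2 * δ') ^ (-(k ^ 2))) 2, ← Real.rpow_mul h2d.le]
    congr 2
    push_cast
    ring
  have hfb : ∀ u, 0 ≤ F k V δ' u ∧ F k V δ' u ≤ ((2 * δ') ^ (-V)) ^ (2 * k) := fun u =>
    ⟨F_nn _ _ _ _, F_le hk.le u g10⟩
  have hfb' : ∀ u, |F k V δ' u| ≤ ((2 * δ') ^ (-V)) ^ (2 * k) := fun u => by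
    rw [abs_of_nonneg (hfb u).1]
    exact (hfb u).2
  have hfb2 : ∀ u, |F k V' δ' u| ≤ ((2 * δ') ^ (-V')) ^ (2 * k) := fun u => by
    rw [abs_of_nonneg (F_nn _ _ _ _)]
    exact F_le hk.le u g10
  have hfm : Measurable (F k V δ') := F_meas g9
  have hfm' : Measurable (F k V' δ') := F_meas g9
  obtain ⟨f1, f2⟩ := h3 (F k V δ') (((2 * δ') ^ (-V)) ^ (2 * k)) T H hfm hfb hT hH0
  -- the far part
  set W : ℝ × ℝ → ℝ := fun z => if 1 ≤ |z.2 - z.1| then R k (z.2 - z.1) δ' else 0 with hW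
  have hRc := R_cont h7 (k := k) g10
  have hS : MeasurableSet {z : ℝ × ℝ | 1 ≤ |z.2 - z.1|} :=
    measurableSet_le measurable_const (by fun_prop)
  have hWm : Measurable W := by
    refine Measurable.ite hS ?_ measurable_const
    exact (hRc.comp (by fun_prop : Continuous fun z : ℝ × ℝ => z.2 - z.1)).measurable
  obtain ⟨C, hC⟩ := (isCompact_Icc (a := -H) (b := H)).exists_bound_of_continuousOn hRc.continuousOn
  have hWi : IntegrableOn W (Set.Ioc (0 : ℝ) H ×ˢ Set.Ioc (0 : ℝ) H) := by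
    refine ion (C := max C 0) hWm fun x hx y hy => ?_
    simp only [hW]
    split_ifs
    · refine le_trans ?_ (le_max_left _ _)
      exact hC (y - x) ⟨by linarith [hx.1, hx.2, hy.1, hy.2], by linarith [hx.1, hx.2, hy.1, hy.2]⟩
    · rw [abs_zero]
      exact le_max_right _ _
  have key := gen (g := F k V δ') (T := T) (H := H) (M := M k δ') (e := e) (W := W) hfm hfb hT hH0 hM0 he0 he1 f1 f2
    ?_ hWi ?_ ?_ g4 ?_
  · refine le_trans (le_of_eq ?_) (key.trans (mul_le_mul_of_nonneg_right he2 (sq_nonneg _)))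
    rfl
  · intro x hx0 hxH
    have h8 := (abs_le.1 (g1 x hx0 (hxH.trans hHT))).1
    linarith
  · intro x hx y hy hxy
    have hx' : |x| ≤ T ^ ((1 : ℝ) / 2) := by
      rw [abs_of_nonneg hx.1]
      exact hx.2.trans hHT
    have hy' : |y| ≤ T ^ ((1 : ℝ) / 2) := by
      rw [abs_of_nonneg hy.1]
      exact hy.2.trans hHT
    have h8 := g2 x y hx' hy'
    simp only [hW]
    rw [if_pos hxy]
    refine le_trans ?_ h8
    refine mul_le_mul_of_nonneg_left ?_ (by positivity)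
    refine intervalIntegral.integral_mono_on hT.le ?_ ?_ fun t _ => ?_
    · refine ii (B := ((2 * δ') ^ (-V)) ^ (2 * k) * ((2 * δ') ^ (-V)) ^ (2 * k))
        ((hfm.comp (by fun_prop)).mul (hfm.comp (by fun_prop))) (fun u => ?_) _ _
      show |F k V δ' (u + x) * F k V δ' (u + y)| ≤ _
      rw [abs_mul]
      exact mul_le_mul (hfb' _) (hfb' _) (abs_nonneg _) (by positivity)
    · refine ii (B := ((2 * δ') ^ (-V')) ^ (2 * k) * ((2 * δ') ^ (-V')) ^ (2 * k))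
        ((hfm'.comp (by fun_prop)).mul (hfm'.comp (by fun_prop))) (fun u => ?_) _ _
      show |F k V' δ' (u + x) * F k V' δ' (u + y)| ≤ _
      rw [abs_mul]
      exact mul_le_mul (hfb2 _) (hfb2 _) (abs_nonneg _) (by positivity)
    · exact mul_le_mul (F_mono g10 g9 (le_max_left _ _) _) (F_mono g10 g9 (le_max_left _ _) _) (F_nn _ _ _ _)
        (F_nn _ _ _ _)
  · intro x _ y _ hxy
    simp only [hW]
    rw [if_neg hxy]
  · refine g5.trans ?_
    rw [hM2, show -(2 * k ^ 2) + δ = δ + -(2 * k ^ 2) by ring, Real.rpow_add h2d,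
      Real.mul_rpow (by norm_num) g10.le (z := δ), ← mul_assoc]
    exact mul_le_mul_of_nonneg_right g8 (by positivity)

end Pool.Agent.H6F.VAR
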