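import Pool.Agent.H6F.Stm
import Pool.Agent.N748.MG.Ev

/-!
# Stub NEAR of project H6F: the near part of the second moment of the truncated averages
-/

set_option autoImplicit false

namespace Pool.Agent.H6F.NEAR

open Filter MeasureTheory Topology
open Pool.Agent.N748.MG Pool.Agent.N748.MJ Pool.Agent.H6F

theorem one_ball (x ρ K H : ℝ) (hρ : 0 ≤ ρ) (hK : 0 ≤ K) :
    IntegrableOn (fun y : ℝ => if |y - x| ≤ ρ then K else 0) (Set.Ioc 0 H) ∧
    ∫ y in Set.Ioc 0 H, (if |y - x| ≤ ρ then K else 0) ≤ 2 * K * ρ := by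
  have e : (fun y : ℝ => if |y - x| ≤ ρ then K else 0) =
      (Metric.closedBall x ρ).indicator (fun _ => K) := by
    funext y
    by_cases h : |y - x| ≤ ρ
    · rw [if_pos h, Set.indicator_of_mem]
      rw [Metric.mem_closedBall, Real.dist_eq]
      exact h
    · rw [if_neg h, Set.indicator_of_notMem]
      rw [Metric.mem_closedBall, Real.dist_eq]
      exact h
  rw [e]
  have hi : Integrable ((Metric.closedBall x ρ).indicator (fun _ => K)) := by
    refine (integrable_indicator_iff Metric.isClosed_closedBall.measurableSet).2 ?_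
    exact integrableOn_const (measure_closedBall_lt_top.ne)
  refine ⟨hi.integrableOn, ?_⟩
  refine (setIntegral_le_integral hi (Eventually.of_forall fun y =>
    Set.indicator_nonneg (fun _ _ => hK) y)).trans ?_
  rw [integral_indicator_const K Metric.isClosed_closedBall.measurableSet, smul_eq_mul,
    measureReal_def, Real.volume_closedBall, ENNReal.toReal_ofReal (by linarith)]
  linarith

/-- integration of a bound by a step function of `|y - x|` -/
theorem step {Q : ℝ → ℝ → ℝ} {H : ℝ} (hH : 0 ≤ H) {n : ℕ} {K ρ : ℕ → ℝ} (hK : ∀ i, 0 ≤ K i)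
    (hρ : ∀ i, 0 ≤ ρ i) (hQ0 : ∀ x y, 0 ≤ Q x y)
    (hQ : ∀ x y, 0 < x → x ≤ H → 0 < y → y ≤ H →
      Q x y ≤ ∑ i ∈ Finset.range (n + 1), if |y - x| ≤ ρ i then K i else 0) :
    ∫ x in (0:ℝ)..H, ∫ y in (0:ℝ)..H, Q x y ≤
      H * ∑ i ∈ Finset.range (n + 1), 2 * K i * ρ i := by
  have inner : ∀ x, 0 < x → x ≤ H → ∫ y in (0:ℝ)..H, Q x y ≤
      ∑ i ∈ Finset.range (n + 1), 2 * K i * ρ i := by
    intro x hx hxH
    rw [intervalIntegral.integral_of_le hH]
    have h1 : ∫ y in Set.Ioc 0 H, Q x y ≤ ∫ y in Set.Ioc 0 H,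
        ∑ i ∈ Finset.range (n + 1), (if |y - x| ≤ ρ i then K i else 0) := by
      refine integral_mono_of_nonneg (Eventually.of_forall fun y => hQ0 x y) ?_ ?_
      · exact integrable_finsetSum _ fun i _ => (one_ball x (ρ i) (K i) H (hρ i) (hK i)).1
      · refine (ae_restrict_iff' measurableSet_Ioc).2 (Eventually.of_forall fun y hy => ?_)
        exact hQ x y hx hxH hy.1 hy.2
    refine h1.trans ?_
    rw [integral_finsetSum _ fun i _ => (one_ball x (ρ i) (K i) H (hρ i) (hK i)).1]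
    exact Finset.sum_le_sum fun i _ => (one_ball x (ρ i) (K i) H (hρ i) (hK i)).2
  rw [intervalIntegral.integral_of_le hH]
  have h2 : ∫ x in Set.Ioc 0 H, ∫ y in (0:ℝ)..H, Q x y ≤
      ∫ x in Set.Ioc 0 H, ∑ i ∈ Finset.range (n + 1), 2 * K i * ρ i := by
    refine integral_mono_of_nonneg (Eventually.of_forall fun x => ?_) ?_ ?_
    · show 0 ≤ ∫ y in (0:ℝ)..H, Q x y
      exact intervalIntegral.integral_nonneg hH fun y _ => hQ0 x y
    · exact integrableOn_const (by rw [Real.volume_Ioc]; exact ENNReal.ofReal_ne_top)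
    · refine (ae_restrict_iff' measurableSet_Ioc).2 (Eventually.of_forall fun x hx => ?_)
      exact inner x hx.1 hx.2
  refine h2.trans (le_of_eq ?_)
  rw [setIntegral_const, measureReal_def, Real.volume_Ioc, sub_zero, ENNReal.toReal_ofReal hH,
    smul_eq_mul]

theorem F_nonneg (k V d u : ℝ) : 0 ≤ F k V d u := by
  unfold F
  split_ifs
  · exact Real.rpow_nonneg (norm_nonneg _) _
  · exact le_rfl

/-- the choice of `i` -/
theorem choice {N r : ℝ} (hr1 : r ≤ 1) {n : ℕ} (hn : 0 < n) :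
    (r ≤ N ^ (-((n:ℝ) / n))) ∨ ∃ i : ℕ, i < n ∧ r ≤ N ^ (-((i:ℝ) / n)) ∧
      N ^ (-(((i:ℝ) + 1) / n)) < r := by
  classical
  by_cases h : r ≤ N ^ (-((n:ℝ) / n))
  · exact Or.inl h
  · right
    have hex : ∃ j : ℕ, ¬ r ≤ N ^ (-((j:ℝ) / n)) := ⟨n, h⟩
    obtain ⟨m, hm⟩ : ∃ m, m = Nat.find hex := ⟨_, rfl⟩
    have hm1 : ¬ r ≤ N ^ (-((m:ℝ) / n)) := by rw [hm]; exact Nat.find_spec hex
    have hm0 : m ≠ 0 := by
      rintro rfl
      apply hm1
      simpa using hr1
    have hmn : m ≤ n := by rw [hm]; exact Nat.find_min' hex h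
    have hm2 : r ≤ N ^ (-(((m - 1 : ℕ):ℝ) / n)) := by
      have := Nat.find_min hex (m := m - 1) (by omega)
      push Not at this
      exact this
    refine ⟨m - 1, by omega, hm2, ?_⟩
    have e : ((m - 1 : ℕ):ℝ) + 1 = m := by
      rw [Nat.cast_sub (by omega)]
      push_cast
      ring
    rw [e]
    exact not_le.1 hm1

theorem t (h : S_NEARP) (h' : S_EXPO) : S_NEAR := by
  intro d hd k θ hk hθ hkθ
  obtain ⟨δ₀, hδ₀, V, hV, n, hn, hE⟩ := h' k θ hk hθ hkθ
  refine ⟨V, δ₀ / 2, hV, by positivity, ?_⟩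
  have hnr : (0:ℝ) < n := by exact_mod_cast hn
  obtain ⟨c, hc⟩ : ∃ c : ℕ → ℝ, c = fun i : ℕ => k / (1 + (i:ℝ) / n) := ⟨_, rfl⟩
  have hc0 : ∀ i, 0 < c i := by
    intro i
    rw [hc]
    positivity
  have hck : ∀ i, c i ≤ k := by
    intro i
    rw [hc]
    refine div_le_self hk.le ?_
    have : (0:ℝ) ≤ (i:ℝ) / n := by positivity
    linarith
  have hP := fun i => h d hd k V (c i) (hc0 i) (hck i) (hk.trans hV)
  choose C hC hCe using hP
  obtain ⟨S, hS⟩ : ∃ S, S = ∑ i ∈ Finset.range (n + 1), 2 * C i := ⟨_, rfl⟩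
  have hS0 : 0 ≤ S := by
    rw [hS]
    exact Finset.sum_nonneg fun i _ => by linarith [hC i]
  have hall : ∀ᶠ T : ℝ in atTop, ∀ i ∈ Finset.range (n + 1), ∀ x y : ℝ, |x| ≤ T ^ ((1:ℝ) / 2) →
      |y| ≤ T ^ ((1:ℝ) / 2) → |y - x| ≤ 1 →
      (1 / T) * (∫ t in (0:ℝ)..T, F k V (d T) (t + x) * F k V (d T) (t + y)) ≤
        C i * (2 * d T) ^ (-(4 * (k - c i) * V + 4 * (c i) ^ 2)) ∧
      (x ≠ y → (1 / T) * (∫ t in (0:ℝ)..T, F k V (d T) (t + x) * F k V (d T) (t + y)) ≤
        C i * (2 * d T) ^ (-(4 * (k - c i) * V + 2 * (c i) ^ 2)) * |y - x| ^ (-(2 * (c i) ^ 2))) := by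
    rw [Filter.eventually_all_finset]
    exact fun i _ => hCe i
  have ev1 : ∀ᶠ T : ℝ in atTop, (d T) ^ (-θ) ≤ 1 * T ^ ((1:ℝ) / 2) :=
    (Ev.win (D := θ) (c := 1) (e := 1 / 2) one_pos (by norm_num)).app hd
  have ev2 : ∀ᶠ T : ℝ in atTop, (S * 2 ^ (δ₀ / 2)) * (d T) ^ (δ₀ / 2) ≤ 1 :=
    (Ev.small (C := S * 2 ^ (δ₀ / 2)) (c := δ₀ / 2) (e := 1) (by positivity) one_pos).app hd
  have ev3 : ∀ᶠ T : ℝ in atTop, d T ≤ 1 / 16 := hd.t0.eventually_le_const (by norm_num)
  filter_upwards [hall, ev1, ev2, ev3, hd.pos, eventually_gt_atTop 0] with T hall e1 e2 e3 hdp hT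
  obtain ⟨N, hN⟩ : ∃ N, N = (2 * d T)⁻¹ := ⟨_, rfl⟩
  have h2d : 0 < 2 * d T := by positivity
  have hN0 : 0 < N := by rw [hN]; positivity
  have hN1 : 1 ≤ N := by
    rw [hN]
    exact (one_le_inv₀ h2d).2 (by linarith)
  have hpow : ∀ a : ℝ, (2 * d T) ^ (-a) = N ^ a := by
    intro a
    rw [hN, Real.inv_rpow h2d.le, Real.rpow_neg h2d.le]
  obtain ⟨H, hH⟩ : ∃ H, H = (2 * d T) ^ (-θ) := ⟨_, rfl⟩
  have hH0 : 0 < H := by rw [hH]; positivity
  have hHT : H ≤ T ^ ((1:ℝ) / 2) := by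
    have : H ≤ (d T) ^ (-θ) := by
      rw [hH]
      exact Real.rpow_le_rpow_of_nonpos hdp (by linarith) (by linarith)
    linarith
  rw [← hH]
  obtain ⟨a, ha⟩ : ∃ a : ℕ → ℝ, a = fun i : ℕ => 4 * (k - c i) * V + 2 * (c i) ^ 2 *
    (1 + ((i:ℝ) + 1) / n) := ⟨_, rfl⟩
  have hst := step (Q := fun x y => if 1 ≤ |y - x| then 0 else
      (1 / T) * ∫ t in (0:ℝ)..T, F k V (d T) (t + x) * F k V (d T) (t + y)) (H := H) hH0.le
    (n := n) (K := fun i => C i * N ^ (a i)) (ρ := fun i => N ^ (-((i:ℝ) / n)))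
    (fun i => mul_nonneg (hC i).le (Real.rpow_nonneg hN0.le _))
    (fun i => Real.rpow_nonneg hN0.le _)
    (by
      intro x y
      split_ifs
      · exact le_rfl
      · refine mul_nonneg (by positivity) ?_
        exact intervalIntegral.integral_nonneg hT.le fun t _ =>
          mul_nonneg (F_nonneg _ _ _ _) (F_nonneg _ _ _ _))
    (by
      intro x y hx hxH hy hyH
      have hterm : ∀ i ∈ Finset.range (n + 1),
          0 ≤ (if |y - x| ≤ N ^ (-((i:ℝ) / n)) then C i * N ^ (a i) else 0) := by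
        intro i _
        split_ifs
        · exact mul_nonneg (hC i).le (Real.rpow_nonneg hN0.le _)
        · exact le_rfl
      split_ifs with h1
      · exact Finset.sum_nonneg hterm
      · push Not at h1
        have hxT : |x| ≤ T ^ ((1:ℝ) / 2) := by rw [abs_of_pos hx]; exact hxH.trans hHT
        have hyT : |y| ≤ T ^ ((1:ℝ) / 2) := by rw [abs_of_pos hy]; exact hyH.trans hHT
        rcases choice h1.le hn with h2 | ⟨i, hi, h2, h3⟩
        · have hin : n ∈ Finset.range (n + 1) := Finset.mem_range.2 (Nat.lt_succ_self n)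
          refine le_trans ?_ (Finset.single_le_sum hterm hin)
          rw [if_pos h2]
          refine ((hall n hin x y hxT hyT h1.le).1).trans ?_
          rw [hpow]
          refine mul_le_mul_of_nonneg_left ?_ (hC n).le
          refine Real.rpow_le_rpow_of_exponent_le hN1 ?_
          rw [ha]
          have e4 : (1:ℝ) ≤ ((n:ℝ) + 1) / n := by
            rw [le_div_iff₀ hnr]
            linarith
          nlinarith [sq_nonneg (c n)]
        · have hin : i ∈ Finset.range (n + 1) := Finset.mem_range.2 (by omega)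
          refine le_trans ?_ (Finset.single_le_sum hterm hin)
          rw [if_pos h2]
          have hr0 : 0 < |y - x| := (Real.rpow_pos_of_pos hN0 _).trans h3
          have hxy : x ≠ y := by
            rintro rfl
            simp at hr0
          refine ((hall i hin x y hxT hyT h1.le).2 hxy).trans ?_
          rw [hpow, mul_assoc]
          refine mul_le_mul_of_nonneg_left ?_ (hC i).le
          have e5 : |y - x| ^ (-(2 * c i ^ 2)) ≤ N ^ (2 * c i ^ 2 * (((i:ℝ) + 1) / n)) := by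
            calc |y - x| ^ (-(2 * c i ^ 2)) ≤ (N ^ (-(((i:ℝ) + 1) / n))) ^ (-(2 * c i ^ 2)) :=
                  Real.rpow_le_rpow_of_nonpos (Real.rpow_pos_of_pos hN0 _) h3.le (by
                    have := sq_nonneg (c i)
                    linarith)
              _ = N ^ (2 * c i ^ 2 * (((i:ℝ) + 1) / n)) := by
                  rw [← Real.rpow_mul hN0.le]
                  congr 1
                  ring
          calc N ^ (4 * (k - c i) * V + 2 * c i ^ 2) * |y - x| ^ (-(2 * c i ^ 2)) ≤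
              N ^ (4 * (k - c i) * V + 2 * c i ^ 2) * N ^ (2 * c i ^ 2 * (((i:ℝ) + 1) / n)) :=
                mul_le_mul_of_nonneg_left e5 (Real.rpow_nonneg hN0.le _)
            _ = N ^ (a i) := by
                rw [← Real.rpow_add hN0, ha]
                congr 1
                ring)
  have hfin : H * ∑ i ∈ Finset.range (n + 1), 2 * (C i * N ^ (a i)) * N ^ (-((i:ℝ) / n)) ≤
      H * (S * (N ^ (2 * k ^ 2 - δ₀) * H)) := by
    refine mul_le_mul_of_nonneg_left ?_ hH0.le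
    rw [hS, Finset.sum_mul]
    refine Finset.sum_le_sum fun i hi => ?_
    have hi' : i ≤ n := Nat.lt_succ_iff.1 (Finset.mem_range.1 hi)
    have hEi := hE i hi'
    have e6 : N ^ (a i) * N ^ (-((i:ℝ) / n)) ≤ N ^ (2 * k ^ 2 - δ₀) * H := by
      rw [hH, hpow, ← Real.rpow_add hN0, ← Real.rpow_add hN0]
      refine Real.rpow_le_rpow_of_exponent_le hN1 ?_
      rw [ha, hc]
      dsimp only
      linarith
    calc 2 * (C i * N ^ (a i)) * N ^ (-((i:ℝ) / n)) = 2 * C i * (N ^ (a i) * N ^ (-((i:ℝ) / n))) := by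
          ring
      _ ≤ 2 * C i * (N ^ (2 * k ^ 2 - δ₀) * H) :=
          mul_le_mul_of_nonneg_left e6 (by linarith [hC i])
  have hS1 : S * N ^ (-(δ₀ / 2)) ≤ 1 := by
    have : N ^ (-(δ₀ / 2)) = 2 ^ (δ₀ / 2) * (d T) ^ (δ₀ / 2) := by
      rw [← Real.mul_rpow (by norm_num) hdp.le, hN, Real.inv_rpow h2d.le, Real.rpow_neg h2d.le,
        inv_inv]
    rw [this, ← mul_assoc]
    exact e2
  calc 1 / H ^ 2 * _ ≤ 1 / H ^ 2 * (H * (S * (N ^ (2 * k ^ 2 - δ₀) * H))) :=
        mul_le_mul_of_nonneg_left (hst.trans hfin) (by positivity)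
    _ = (S * N ^ (-(δ₀ / 2))) * N ^ (2 * k ^ 2 - δ₀ / 2) := by
        have e7 : N ^ (2 * k ^ 2 - δ₀) = N ^ (-(δ₀ / 2)) * N ^ (2 * k ^ 2 - δ₀ / 2) := by
          rw [← Real.rpow_add hN0]
          congr 1
          ring
        rw [e7]
        field_simp
    _ ≤ 1 * N ^ (2 * k ^ 2 - δ₀ / 2) :=
        mul_le_mul_of_nonneg_right hS1 (Real.rpow_nonneg hN0.le _)
    _ = (2 * d T) ^ (-(2 * k ^ 2) + δ₀ / 2) := by
        rw [one_mul, ← hpow]
        congr 1
        ring

end Pool.Agent.H6F.NEAR
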