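import Pool.Agent.H6F.Stm3

set_option autoImplicit false

namespace Pool.Agent.H6F.CVX

open Filter MeasureTheory Topology

/-- version with zero boundary values -/
lemma zero_case (g : ℝ → ℝ) (a b : ℝ) (hab : a < b) (hg : ContinuousOn g (Set.Icc a b))
    (h : ∀ x r : ℝ, 0 < r → a ≤ x - r → x + r ≤ b →
      g x ≤ (1 / (2 * Real.pi)) * ∫ φ in (0:ℝ)..(2 * Real.pi), g (x + r * Real.cos φ))
    (ha : g a = 0) (hb : g b = 0) (x : ℝ) (hx : a ≤ x) (hx' : x ≤ b) : g x ≤ 0 := by
  have hcpt : IsCompact (Set.Icc a b) := isCompact_Icc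
  obtain ⟨xM, hxM, hmax⟩ := hcpt.exists_isMaxOn ⟨a, ⟨le_refl _, hab.le⟩⟩ hg
  set M := g xM with hM
  by_contra hcon
  push Not at hcon
  have hMpos : 0 < M := lt_of_lt_of_le hcon (hmax ⟨hx, hx'⟩)
  -- the set where the maximum is attained
  set S : Set ℝ := Set.Icc a b ∩ g ⁻¹' {M} with hS
  have hSc : IsCompact S := by
    have : IsClosed S := hg.preimage_isClosed_of_isClosed isClosed_Icc isClosed_singleton
    exact hcpt.of_isClosed_subset this Set.inter_subset_left
  have hSne : S.Nonempty := ⟨xM, hxM, rfl⟩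
  obtain ⟨x0, hx0, hmin⟩ := hSc.exists_isLeast hSne
  have hx0M : g x0 = M := hx0.2
  have hx0a : a < x0 := by
    rcases lt_or_eq_of_le hx0.1.1 with h1 | h1
    · exact h1
    · rw [← h1, ha] at hx0M; linarith
  have hx0b : x0 < b := by
    rcases lt_or_eq_of_le hx0.1.2 with h1 | h1
    · exact h1
    · rw [h1, hb] at hx0M; linarith
  set r : ℝ := min (x0 - a) (b - x0) with hr
  have hr0 : 0 < r := lt_min (by linarith) (by linarith)
  have hra : r ≤ x0 - a := min_le_left _ _
  have hrb : r ≤ b - x0 := min_le_right _ _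
  have hmem : ∀ φ : ℝ, x0 + r * Real.cos φ ∈ Set.Icc a b := by
    intro φ
    have h1 := Real.cos_le_one φ
    have h2 := Real.neg_one_le_cos φ
    constructor
    · nlinarith
    · nlinarith
  have hcont : Continuous fun φ : ℝ => g (x0 + r * Real.cos φ) := by
    have h1 : Continuous fun φ : ℝ => x0 + r * Real.cos φ := by fun_prop
    exact hg.comp_continuous h1 hmem
  have hle : ∀ φ : ℝ, g (x0 + r * Real.cos φ) ≤ M := fun φ => hmax (hmem φ)
  have hpi : (0:ℝ) < 2 * Real.pi := by positivity
  have hsub := h x0 r hr0 (by linarith) (by linarith)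
  rw [hx0M] at hsub
  have hlt : g (x0 + r * Real.cos Real.pi) < M := by
    rcases lt_or_eq_of_le (hle Real.pi) with h1 | h1
    · exact h1
    · exfalso
      have h2 : x0 + r * Real.cos Real.pi ∈ S := ⟨hmem _, h1⟩
      have h3 := hmin h2
      rw [Real.cos_pi] at h3
      linarith
  have hint : ∫ φ in (0:ℝ)..(2 * Real.pi), g (x0 + r * Real.cos φ) <
      ∫ _φ in (0:ℝ)..(2 * Real.pi), M := by
    apply intervalIntegral.integral_lt_integral_of_continuousOn_of_le_of_exists_lt hpi
      hcont.continuousOn continuousOn_const (fun φ _ => hle φ)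
    exact ⟨Real.pi, ⟨Real.pi_pos.le, by linarith [Real.pi_pos]⟩, hlt⟩
  rw [intervalIntegral.integral_const, smul_eq_mul, sub_zero] at hint
  have h5 : (1 / (2 * Real.pi)) * ∫ φ in (0:ℝ)..(2 * Real.pi), g (x0 + r * Real.cos φ) <
      (1 / (2 * Real.pi)) * (2 * Real.pi * M) :=
    mul_lt_mul_of_pos_left hint (by positivity)
  have h6 : (1 / (2 * Real.pi)) * (2 * Real.pi * M) = M := by
    field_simp
  linarith

theorem t : S_CVX := by
  intro g a b hab hg h x hx hx'
  set L : ℝ → ℝ := fun x => (b - x) / (b - a) * g a + (x - a) / (b - a) * g b with hL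
  have hba : (b - a) ≠ 0 := (sub_pos.2 hab).ne'
  have hLc : Continuous L := by
    simp only [hL]
    fun_prop
  have key := zero_case (fun x => g x - L x) a b hab (hg.sub hLc.continuousOn) ?_ ?_ ?_ x hx hx'
  · linarith
  · intro x r hr h1 h2
    have h3 := h x r hr h1 h2
    have hmem : ∀ φ : ℝ, x + r * Real.cos φ ∈ Set.Icc a b := by
      intro φ
      have h1 := Real.cos_le_one φ
      have h2 := Real.neg_one_le_cos φ
      constructor
      · nlinarith
      · nlinarith
    have hc1 : Continuous fun φ : ℝ => g (x + r * Real.cos φ) := by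
      have h1 : Continuous fun φ : ℝ => x + r * Real.cos φ := by fun_prop
      exact hg.comp_continuous h1 hmem
    have hc2 : Continuous fun φ : ℝ => L (x + r * Real.cos φ) := by
      exact hLc.comp (by fun_prop)
    have h4 : ∫ φ in (0:ℝ)..(2 * Real.pi), L (x + r * Real.cos φ) = 2 * Real.pi * L x := by
      have h5 : ∀ φ : ℝ, L (x + r * Real.cos φ) =
          L x + (r * (g b - g a) / (b - a)) * Real.cos φ := by
        intro φ
        simp only [hL]
        field_simp
        ring
      simp_rw [h5]
      rw [intervalIntegral.integral_add (by simp) (by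
        apply Continuous.intervalIntegrable; fun_prop),
        intervalIntegral.integral_const_mul, integral_cos]
      simp
    rw [intervalIntegral.integral_sub (hc1.intervalIntegrable _ _) (hc2.intervalIntegrable _ _),
      h4, mul_sub]
    have h6 : (1 / (2 * Real.pi)) * (2 * Real.pi * L x) = L x := by
      field_simp
    rw [h6]
    linarith
  · simp only [hL]
    field_simp
    ring
  · simp only [hL]
    field_simp
    ring

end Pool.Agent.H6F.CVX
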