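import Pool.Agent.H6F.Stm3
import Pool.Agent.H6F.LLN

set_option autoImplicit false

/-!
# Project H6F, stub EDGE (helper94): the average over the shortened intervals
-/

namespace Pool.Agent.H6F.EDGE

open Filter MeasureTheory Topology Complex
open Pool.Agent.N748.MG Pool.Agent.N748.MJ Pool.Agent.H6F Pool.Agent.H6F.LLN

lemma large2 {d : ℝ → ℝ} (hd : Ad d) {θ : ℝ} (hθ : 0 < θ) {K : ℝ} (hK : 0 < K) :
    ∀ᶠ T : ℝ in atTop, K ≤ (2 * d T) ^ (-θ) := by
  have h0 : (0:ℝ) < K ^ (-(1 / θ)) / 2 := by positivity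
  filter_upwards [hd.t0.eventually_le_const h0, hd.pos] with T h1 h2
  have h3 : 2 * d T ≤ K ^ (-(1 / θ)) := by linarith
  have h4 := Real.rpow_le_rpow_of_nonpos (by linarith : 0 < 2 * d T) h3 (by linarith : -θ ≤ 0)
  have h5 : (K ^ (-(1 / θ))) ^ (-θ) = K := by
    rw [← Real.rpow_mul hK.le]
    have : -(1 / θ) * -θ = 1 := by field_simp
    rw [this, Real.rpow_one]
  rwa [h5] at h4

/-- **EDGE.** -/
theorem t (h1 : S_LLN2) (h2 : S_ONE) (h3 : S_SUP) (h4 : S_FUB) (h5 : S_APOS) : S_EDGE := by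
  intro d hd k θ ε hk hθ hkθ hε
  obtain ⟨V', hV'⟩ : ∃ V' : ℝ, V' = max k (√(1 + θ)) + 1 := ⟨_, rfl⟩
  have hkV' : k < V' := by
    rw [hV']
    linarith [le_max_left k (√(1 + θ))]
  have hV'0 : 0 < V' := by linarith
  have hV'2 : 1 + θ < V' ^ 2 := by
    have a1 : √(1 + θ) < V' := by
      rw [hV']
      linarith [le_max_right k (√(1 + θ))]
    calc 1 + θ = √(1 + θ) ^ 2 := (Real.sq_sqrt (by linarith)).symm
      _ < V' ^ 2 := pow_lt_pow_left₀ a1 (Real.sqrt_nonneg _) two_ne_zero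
  have e3 : 0 < ε / 4 := by positivity
  have hK : 0 < max 4 (128 / ε ^ 2) := lt_max_of_lt_left (by norm_num)
  filter_upwards [large hd θ, large2 hd hθ hK, h1 d hd k θ _ hk hθ hkθ e3,
    h2 d hd k V' 1 hk hkV' one_pos, h3 d hd V' θ _ hθ.le hV'0 hV'2 e3] with T hT hT0' hT1 hT3 hT4
  obtain ⟨hT0, hd0, hd1, hH1⟩ := hT
  obtain ⟨H, hH⟩ : ∃ H : ℝ, H = (2 * d T) ^ (-θ) := ⟨_, rfl⟩
  obtain ⟨D, hD⟩ : ∃ D : ℝ, D = d T := ⟨_, rfl⟩
  rw [← hH] at hT1 hT4 hH1 hT0' ⊢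
  rw [← hD] at hT1 hT3 hT4 hd0 hd1 ⊢
  have hH4 : 4 ≤ H := (le_max_left _ _).trans hT0'
  have hHe : 128 / ε ^ 2 ≤ H := (le_max_right _ _).trans hT0'
  have hH0 : 0 < H := by linarith
  have hM : 0 < M k D := M_pos h5 hd0
  obtain ⟨m, hm⟩ : ∃ m : ℝ, m = M k D := ⟨_, rfl⟩
  rw [← hm] at hT1 hT3 hM ⊢
  obtain ⟨g, hg⟩ : ∃ g : ℝ → ℝ, g = F k V' D := ⟨_, rfl⟩
  obtain ⟨g2, hg2⟩ : ∃ g2 : ℝ → ℝ, g2 = fun u => g (u + (H - 2)) := ⟨_, rfl⟩
  obtain ⟨B, hB⟩ : ∃ B : ℝ, B = ((2 * D) ^ (-V')) ^ (2 * k) := ⟨_, rfl⟩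
  have gm : Measurable g := by rw [hg]; exact F_meas hd1
  have gm2 : Measurable g2 := by rw [hg2]; exact gm.comp (measurable_id.add_const _)
  have gB : ∀ u, 0 ≤ g u ∧ g u ≤ B := fun u => by
    rw [hg, hB]
    exact ⟨F_nn, F_le hk.le hd0⟩
  have gB2 : ∀ u, 0 ≤ g2 u ∧ g2 u ≤ B := fun u => by
    rw [hg2]
    exact gB _
  obtain ⟨A1, hA1⟩ : ∃ A1 : ℝ → ℝ, A1 = fun t => (1 / 2) * ∫ u in t..(t + 2), g u := ⟨_, rfl⟩
  obtain ⟨A2, hA2⟩ : ∃ A2 : ℝ → ℝ, A2 = fun t => (1 / 2) * ∫ u in t..(t + 2), g2 u := ⟨_, rfl⟩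
  have Ac1 : Continuous A1 := by rw [hA1]; exact cont_av gm gB 2
  have Ac2 : Continuous A2 := by rw [hA2]; exact cont_av gm2 gB2 2
  have An1 : ∀ t, 0 ≤ A1 t := fun t => by
    rw [hA1]
    refine mul_nonneg (by norm_num) ?_
    exact intervalIntegral.integral_nonneg (by linarith) fun u _ => (gB u).1
  have An2 : ∀ t, 0 ≤ A2 t := fun t => by
    rw [hA2]
    refine mul_nonneg (by norm_num) ?_
    exact intervalIntegral.integral_nonneg (by linarith) fun u _ => (gB2 u).1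
  -- the mean values
  have m1 : |(1 / T) * (∫ t in (0:ℝ)..T, A1 t) - m| ≤ 1 * m := by
    rw [hA1, (h4 g B T 2 gm gB hT0 two_pos).1]
    refine avg_close (cont_sh gm gB T) two_pos fun x hx0 hx1 => ?_
    rw [hg]
    exact hT3 x hx0 (by linarith)
  have m2 : |(1 / T) * (∫ t in (0:ℝ)..T, A2 t) - m| ≤ 1 * m := by
    rw [hA2, (h4 g2 B T 2 gm2 gB2 hT0 two_pos).1]
    refine avg_close (cont_sh gm2 gB2 T) two_pos fun x hx0 hx1 => ?_
    have e : ∀ t : ℝ, g2 (t + x) = F k V' D (t + (x + (H - 2))) := by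
      intro t
      rw [hg2, hg]
      show F k V' D (t + x + (H - 2)) = _
      rw [add_assoc]
    simp only [e]
    exact hT3 (x + (H - 2)) (by linarith) (by linarith)
  have m3 : (1 / T) * (∫ t in (0:ℝ)..T, (A1 t + A2 t)) ≤ 4 * m := by
    rw [intervalIntegral.integral_add (Ac1.intervalIntegrable _ _) (Ac2.intervalIntegrable _ _),
      mul_add]
    have a1 := (abs_le.1 m1).2
    have a2 := (abs_le.1 m2).2
    linarith
  have s1 : volume {t : ℝ | 0 ≤ t ∧ t ≤ T ∧ ε * H / 8 * m < A1 t + A2 t} ≤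
      ENNReal.ofReal (ε / 4 * T) := by
    refine (markov (Ac1.add Ac2) (fun t => add_nonneg (An1 t) (An2 t)) hT0 (by positivity)
      m3).trans ?_
    refine ENNReal.ofReal_le_ofReal ?_
    rw [div_le_iff₀ (by positivity)]
    have a1 : 128 ≤ H * ε ^ 2 := by
      rw [div_le_iff₀ (by positivity)] at hHe
      exact hHe
    have a2 : 0 ≤ m * T := by positivity
    nlinarith [mul_le_mul_of_nonneg_right a1 a2]
  -- the union
  have hsub : {t : ℝ | 0 ≤ t ∧ t ≤ T ∧ (1 / H) * (∫ u in (t + 2)..(t + H - 2), mz D u ^ (2 * k)) <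
        (1 - ε) * m} ⊆
      ({t : ℝ | 0 ≤ t ∧ t ≤ T ∧ ε / 4 * m < |av k D H t - m|} ∪
        {t : ℝ | 0 ≤ t ∧ t ≤ T ∧ ε * H / 8 * m < A1 t + A2 t}) ∪
      {t : ℝ | 0 ≤ t ∧ t ≤ T ∧ ∃ u : ℝ, t ≤ u ∧ u ≤ t + H ∧ (2 * D) ^ (-V') < mz D u} := by
    rintro t ⟨ht0, ht1, ht2⟩
    by_contra hcon
    rw [Set.mem_union, Set.mem_union, not_or, not_or] at hcon
    obtain ⟨⟨c1, c2⟩, c3⟩ := hcon
    have b1 : |av k D H t - m| ≤ ε / 4 * m := by
      by_contra hc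
      push Not at hc
      exact c1 ⟨ht0, ht1, hc⟩
    have b2 : A1 t + A2 t ≤ ε * H / 8 * m := by
      by_contra hc
      push Not at hc
      exact c2 ⟨ht0, ht1, hc⟩
    have b3 : ∀ u : ℝ, t ≤ u → u ≤ t + H → mz D u ^ (2 * k) = g u := by
      intro u hu1 hu2
      have hle : mz D u ≤ (2 * D) ^ (-V') := by
        by_contra hc
        push Not at hc
        exact c3 ⟨ht0, ht1, u, hu1, hu2, hc⟩
      rw [hg]
      unfold F
      rw [if_pos hle]
    have b4 : av k D H t = (1 / H) * ∫ u in t..(t + H), g u := by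
      unfold av
      congr 1
      refine intervalIntegral.integral_congr fun u hu => ?_
      rw [Set.uIcc_of_le (by linarith)] at hu
      exact b3 u hu.1 hu.2
    have b5 : (∫ u in (t + 2)..(t + H - 2), mz D u ^ (2 * k)) =
        ∫ u in (t + 2)..(t + H - 2), g u := by
      refine intervalIntegral.integral_congr fun u hu => ?_
      rw [Set.uIcc_of_le (by linarith)] at hu
      exact b3 u (by linarith [hu.1]) (by linarith [hu.2])
    have b6 : (∫ u in t..(t + H), g u) = (∫ u in t..(t + 2), g u) +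
        (∫ u in (t + 2)..(t + H - 2), g u) + ∫ u in (t + H - 2)..(t + H), g u := by
      rw [intervalIntegral.integral_add_adjacent_intervals (ii gm gB _ _) (ii gm gB _ _),
        intervalIntegral.integral_add_adjacent_intervals (ii gm gB _ _) (ii gm gB _ _)]
    have b7 : (∫ u in (t + H - 2)..(t + H), g u) = ∫ u in t..(t + 2), g2 u := by
      rw [hg2, intervalIntegral.integral_comp_add_right]
      congr 1 <;> ring
    have b8 : A1 t = (1 / 2) * ∫ u in t..(t + 2), g u := by rw [hA1]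
    have b9 : A2 t = (1 / 2) * ∫ u in t..(t + 2), g2 u := by rw [hA2]
    rw [b4, b6, b7] at b1
    rw [b5] at ht2
    obtain ⟨I1, hI1⟩ : ∃ I1 : ℝ, I1 = ∫ u in t..(t + 2), g u := ⟨_, rfl⟩
    obtain ⟨I2, hI2⟩ : ∃ I2 : ℝ, I2 = ∫ u in t..(t + 2), g2 u := ⟨_, rfl⟩
    obtain ⟨I0, hI0⟩ : ∃ I0 : ℝ, I0 = ∫ u in (t + 2)..(t + H - 2), g u := ⟨_, rfl⟩
    rw [← hI1] at b1 b8
    rw [← hI2] at b1 b9
    rw [← hI0] at b1 ht2
    have c5 := (abs_le.1 b1).1
    have c6 : (1 / H) * (I1 + I0 + I2) = (1 / H) * I0 + (2 / H) * (A1 t + A2 t) := by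
      rw [b8, b9]
      ring
    have c7 : (2 / H) * (A1 t + A2 t) ≤ (2 / H) * (ε * H / 8 * m) :=
      mul_le_mul_of_nonneg_left b2 (by positivity)
    have c8 : (2 / H) * (ε * H / 8 * m) = ε / 4 * m := by
      field_simp
      ring
    rw [c6] at c5
    nlinarith
  refine (measure_mono hsub).trans ((measure_union_le _ _).trans ?_)
  refine (add_le_add (measure_union_le _ _) hT4).trans ?_
  refine (add_le_add (add_le_add hT1 s1) le_rfl).trans ?_
  rw [← ENNReal.ofReal_add (by positivity) (by positivity),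
    ← ENNReal.ofReal_add (by positivity) (by positivity)]
  refine ENNReal.ofReal_le_ofReal ?_
  nlinarith

end Pool.Agent.H6F.EDGE
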