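import Pool.Agent.H6F.Stm2

/-!
# Project H6F, part FROZ: the frozen phase and the maximum
-/

set_option autoImplicit false
set_option linter.all false

namespace Pool.Agent.H6F.FROZ2

open Filter MeasureTheory Topology Complex
open Pool.Agent.N748.MG Pool.Agent.N748.MJ Pool.Agent.H6F

theorem mz_cont {δ : ℝ} (h : δ < 1 / 2) : Continuous (mz δ) := by
  unfold mz
  refine continuous_norm.comp ?_
  rw [continuous_iff_continuousAt]
  intro u
  have hne : pw δ u ≠ 1 := by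
    intro h1
    have h2 := congrArg Complex.re h1
    simp [pw] at h2
    linarith
  have h2 : ContinuousAt (fun u : ℝ => pw δ u) u := by
    unfold pw
    fun_prop
  exact ContinuousAt.comp (f := fun u : ℝ => pw δ u) (g := riemannZeta)
    (differentiableAt_riemannZeta hne).continuousAt h2

theorem mz_nn (δ u : ℝ) : 0 ≤ mz δ u := norm_nonneg _

theorem F_nn (k V δ u : ℝ) : 0 ≤ F k V δ u := by
  unfold F
  split_ifs
  · exact Real.rpow_nonneg (mz_nn _ _) _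
  · exact le_rfl

theorem F_le {k V δ : ℝ} (hk : 0 ≤ k) (hδ : 0 < δ) (u : ℝ) :
    F k V δ u ≤ ((2 * δ) ^ (-V)) ^ (2 * k) := by
  unfold F
  split_ifs with h
  · exact Real.rpow_le_rpow (mz_nn _ _) h (by positivity)
  · positivity

theorem F_meas {k V δ : ℝ} (h : δ < 1 / 2) : Measurable (F k V δ) := by
  have hc := (mz_cont h).measurable
  show Measurable fun u => if mz δ u ≤ (2 * δ) ^ (-V) then mz δ u ^ (2 * k) else 0
  exact Measurable.ite (measurableSet_le hc measurable_const) (hc.pow_const _) measurable_const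

theorem int_of {g : ℝ → ℝ} {B : ℝ} (hm : Measurable g) (hb : ∀ u, 0 ≤ g u ∧ g u ≤ B) (a b : ℝ) :
    IntervalIntegrable g volume a b := by
  refine (intervalIntegrable_const (c := B)).mono_fun' hm.aestronglyMeasurable ?_
  refine Eventually.of_forall fun u => ?_
  show ‖g u‖ ≤ B
  rw [Real.norm_of_nonneg (hb u).1]
  exact (hb u).2

/-- moving averages are continuous -/
theorem av_cont {g : ℝ → ℝ} {B : ℝ} (hm : Measurable g) (hb : ∀ u, 0 ≤ g u ∧ g u ≤ B) (H : ℝ) :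
    Continuous fun t : ℝ => ∫ u in t..(t + H), g u := by
  have h1 : Continuous fun b : ℝ => ∫ u in (0:ℝ)..b, g u :=
    intervalIntegral.continuous_primitive (fun a b => int_of hm hb a b) 0
  have h2 : (fun t : ℝ => ∫ u in t..(t + H), g u) =
      fun t => (∫ u in (0:ℝ)..(t + H), g u) - ∫ u in (0:ℝ)..t, g u := by
    funext t
    rw [intervalIntegral.integral_interval_sub_left (int_of hm hb _ _) (int_of hm hb _ _)]
  rw [h2]
  exact (h1.comp (continuous_id.add continuous_const)).sub h1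

theorem av_nn {g : ℝ → ℝ} {B : ℝ} (hb : ∀ u, 0 ≤ g u ∧ g u ≤ B) {H : ℝ} (hH : 0 < H) (t : ℝ) :
    0 ≤ (1 / H) * ∫ u in t..(t + H), g u :=
  mul_nonneg (by positivity) (intervalIntegral.integral_nonneg (by linarith) fun u _ => (hb u).1)

/-- Markov -/
theorem markov {g : ℝ → ℝ} {B T H A c : ℝ} (hm : Measurable g) (hb : ∀ u, 0 ≤ g u ∧ g u ≤ B)
    (hT : 0 < T) (hH : 0 < H) (hc : 0 < c)
    (hA : (1 / T) * (∫ t in (0:ℝ)..T, (1 / H) * ∫ u in t..(t + H), g u) ≤ A) :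
    volume {t : ℝ | 0 ≤ t ∧ t ≤ T ∧ c < (1 / H) * ∫ u in t..(t + H), g u} ≤
      ENNReal.ofReal (T * A / c) := by
  set f : ℝ → ℝ := fun t => (1 / H) * ∫ u in t..(t + H), g u with hf
  have hfc : Continuous f := continuous_const.mul (av_cont hm hb H)
  have hf0 : ∀ t, 0 ≤ f t := fun t => av_nn hb hH t
  set μ : Measure ℝ := volume.restrict (Set.Icc 0 T) with hμ
  have hfi : Integrable f μ := hfc.integrableOn_Icc
  have h1 := mul_meas_ge_le_integral_of_nonneg (μ := μ) (Eventually.of_forall hf0) hfi c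
  have h2 : ∫ x, f x ∂μ = ∫ t in (0:ℝ)..T, f t := by
    rw [intervalIntegral.integral_of_le hT.le, hμ, integral_Icc_eq_integral_Ioc]
  have h3 : ∫ t in (0:ℝ)..T, f t ≤ T * A := by
    have : (1 / T) * (∫ t in (0:ℝ)..T, f t) ≤ A := hA
    rw [one_div, inv_mul_le_iff₀ hT] at this
    exact this
  have h4 : μ.real {x | c ≤ f x} ≤ T * A / c := by
    rw [le_div_iff₀ hc]
    linarith
  have h5 : volume {t : ℝ | 0 ≤ t ∧ t ≤ T ∧ c < f t} ≤ μ {x | c ≤ f x} := by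
    rw [hμ, Measure.restrict_apply' measurableSet_Icc]
    refine measure_mono ?_
    rintro t ⟨a, b, e⟩
    exact ⟨e.le, a, b⟩
  refine h5.trans ?_
  rw [← ENNReal.ofReal_toReal (measure_ne_top μ {x | c ≤ f x})]
  exact ENNReal.ofReal_le_ofReal h4

/-- the mean value of the moving average -/
theorem mean_le (hF : S_FUB) {g : ℝ → ℝ} {B T H A : ℝ} (hm : Measurable g)
    (hb : ∀ u, 0 ≤ g u ∧ g u ≤ B) (hT : 0 < T) (hH : 0 < H)
    (hA : ∀ x, 0 ≤ x → x ≤ H → (1 / T) * (∫ t in (0:ℝ)..T, g (t + x)) ≤ A) :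
    (1 / T) * (∫ t in (0:ℝ)..T, (1 / H) * ∫ u in t..(t + H), g u) ≤ A := by
  rw [(hF g B T H hm hb hT hH).1]
  have hc : Continuous fun x : ℝ => (1 / T) * ∫ t in (0:ℝ)..T, g (t + x) := by
    have e : (fun x : ℝ => (1 / T) * ∫ t in (0:ℝ)..T, g (t + x)) =
        fun x => (1 / T) * ∫ u in x..(x + T), g u := by
      funext x
      rw [intervalIntegral.integral_comp_add_right (fun u => g u), zero_add, add_comm T x]
    rw [e]
    exact continuous_const.mul (av_cont hm hb T)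
  have h1 : ∫ x in (0:ℝ)..H, (1 / T) * (∫ t in (0:ℝ)..T, g (t + x)) ≤ ∫ x in (0:ℝ)..H, A :=
    intervalIntegral.integral_mono_on hH.le (hc.intervalIntegrable _ _) intervalIntegrable_const
      fun x hx => hA x hx.1 hx.2
  rw [intervalIntegral.integral_const, smul_eq_mul, sub_zero] at h1
  rw [one_div, inv_mul_le_iff₀ hH]
  exact h1

theorem rp_mono {δ x y : ℝ} (h0 : 0 < δ) (h1 : 2 * δ ≤ 1) (h : x ≤ y) :
    (2 * δ) ^ (-x) ≤ (2 * δ) ^ (-y) :=
  Real.rpow_le_rpow_of_exponent_ge (by linarith) h1 (by linarith)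

theorem large {d : ℝ → ℝ} (hd : Ad d) {c : ℝ} (hc : 0 < c) (K : ℝ) :
    ∀ᶠ T : ℝ in atTop, K ≤ (2 * d T) ^ (-c) := by
  have h1 : Tendsto (fun T => 2 * d T) atTop (𝓝[>] 0) := by
    rw [tendsto_nhdsWithin_iff]
    constructor
    · simpa using hd.t0.const_mul 2
    · filter_upwards [hd.pos] with T hT
      exact Set.mem_Ioi.2 (by linarith)
  exact ((tendsto_rpow_neg_nhdsGT_zero (by linarith : -c < 0)).comp h1).eventually_ge_atTop K

theorem facts {d : ℝ → ℝ} (hd : Ad d) {θ : ℝ} (hθ : 0 ≤ θ) : ∀ᶠ T : ℝ in atTop, 0 < d T ∧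
    d T ≤ 1 / 16 ∧ 0 < T ∧ (2 * d T) ^ (-θ) ≤ T ^ ((1:ℝ) / 2) := by
  have h1 : ∀ᶠ T : ℝ in atTop, d T < Real.exp (-1) :=
    hd.t0.eventually_lt_const (Real.exp_pos _)
  have h2 : ∀ᶠ T : ℝ in atTop, d T < 1 / 16 := hd.t0.eventually_lt_const (by norm_num)
  have h3 : ∀ᶠ T : ℝ in atTop, (1:ℝ) ≤ d T * Real.log T / Real.log (1 / d T) ^ 2 :=
    hd.tL.eventually_ge_atTop 1
  have h4 : ∀ᶠ T : ℝ in atTop, ‖Real.log T ^ θ‖ ≤ 1 * ‖T ^ ((1:ℝ) / 2)‖ :=
    (isLittleO_log_rpow_rpow_atTop θ (by norm_num : (0:ℝ) < 1 / 2)).bound one_pos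
  filter_upwards [hd.pos, h1, h2, h3, h4, eventually_gt_atTop (1:ℝ)] with T a1 a2 a3 a4 a5 a6
  have hl1 : 1 ≤ Real.log (1 / d T) := by
    rw [Real.le_log_iff_exp_le (by positivity), le_div_iff₀ a1]
    have : Real.exp 1 * d T ≤ Real.exp 1 * Real.exp (-1) :=
      mul_le_mul_of_nonneg_left a2.le (Real.exp_pos _).le
    rwa [← Real.exp_add, add_neg_cancel, Real.exp_zero] at this
  have hl2 : 1 ≤ d T * Real.log T := by
    rw [le_div_iff₀ (by positivity)] at a4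
    nlinarith
  have hlog : 0 < Real.log T := Real.log_pos a6
  refine ⟨a1, a3.le, by linarith, ?_⟩
  have h5 : (2 * d T) ^ (-θ) ≤ Real.log T ^ θ := by
    rw [Real.rpow_neg (by linarith), ← Real.inv_rpow (by linarith)]
    refine Real.rpow_le_rpow (by positivity) ?_ hθ
    rw [inv_le_comm₀ (by linarith) hlog, inv_le_iff_one_le_mul₀ hlog]
    linarith
  rw [one_mul, Real.norm_of_nonneg (by positivity), Real.norm_of_nonneg (by positivity)] at a5
  exact h5.trans a5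

theorem M_pos (h5 : S_APOS) (k : ℝ) {δ : ℝ} (hδ : 0 < δ) : 0 < M k δ :=
  mul_pos (h5 k).1 (by positivity)

/-- the mean value of the truncated power above the critical level -/
theorem up (h2 : S_SUB) (h5 : S_APOS) (h6 : S_ONE) {d : ℝ → ℝ} (hd : Ad d) {κ k ε : ℝ}
    (hκ : 0 < κ) (hk : κ ≤ k) (hε : 0 < ε) : ∃ V C : ℝ, κ < V ∧ 0 < C ∧ ∀ᶠ T : ℝ in atTop,
    ∀ x : ℝ, 0 ≤ x → x ≤ T ^ ((1:ℝ) / 2) → (1 / T) * (∫ t in (0:ℝ)..T, F k V (d T) (t + x)) ≤
      C * (2 * d T) ^ (-(2 * k * κ - κ ^ 2 + ε / 2)) := by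
  rcases hk.lt_or_eq with hk | hk
  · have hk0 : 0 < k := hκ.trans hk
    set η : ℝ := min (ε / (4 * k + 2)) ((k - κ) / 2) with hη
    have hη0 : 0 < η := lt_min (by positivity) (by linarith)
    have hη1 : η ≤ ε / (4 * k + 2) := min_le_left _ _
    have hη2 : η ≤ (k - κ) / 2 := min_le_right _ _
    rw [le_div_iff₀ (by positivity)] at hη1
    refine ⟨κ + η, 1, by linarith, one_pos, ?_⟩
    filter_upwards [h2 d hd k (κ + η) (by linarith) (by linarith), facts hd le_rfl] with T hT hf x hx0 hx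
    refine (hT x hx0 hx).trans ?_
    rw [one_mul]
    refine Real.rpow_le_rpow_of_exponent_ge (by linarith [hf.1]) (by linarith [hf.2.1]) ?_
    nlinarith
  · subst hk
    refine ⟨κ + 1, 2 * (aC (κ : ℂ)).re, by linarith, by have := (h5 κ).1; positivity, ?_⟩
    filter_upwards [h6 d hd κ (κ + 1) 1 hκ (by linarith) one_pos, facts hd le_rfl] with T hT hf x hx0 hx
    have h1 := (abs_le.1 (hT x hx0 hx)).2
    have h3 : (2 * d T) ^ (-(κ ^ 2)) ≤ (2 * d T) ^ (-(2 * κ * κ - κ ^ 2 + ε / 2)) :=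
      rp_mono hf.1 (by linarith [hf.2.1]) (by nlinarith)
    have h4 : M κ (d T) ≤ (aC (κ : ℂ)).re * (2 * d T) ^ (-(2 * κ * κ - κ ^ 2 + ε / 2)) :=
      mul_le_mul_of_nonneg_left h3 (h5 κ).1.le
    linarith

/-- upper bound of the average -/
theorem upper (h2 : S_SUB) (h3 : S_SUP) (h4 : S_FUB) (h5 : S_APOS) (h6 : S_ONE) {d : ℝ → ℝ}
    (hd : Ad d) {κ k θ ε : ℝ} (hκ : 0 < κ) (hk : κ ≤ k) (hε : 0 < ε) (hθ : 0 ≤ θ)
    (hκθ : 1 + θ = κ ^ 2) : ∀ᶠ T : ℝ in atTop, volume {t : ℝ | 0 ≤ t ∧ t ≤ T ∧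
      (2 * d T) ^ (-(2 * k * κ - κ ^ 2 + ε)) < av k (d T) ((2 * d T) ^ (-θ)) t} ≤
      ENNReal.ofReal (ε / 2 * T) := by
  have hk0 : 0 < k := hκ.trans_le hk
  obtain ⟨V, C, hV, hC, hm⟩ := up h2 h5 h6 hd hκ hk hε
  have hV2 : 1 + θ < V ^ 2 := by nlinarith
  filter_upwards [hm, facts hd hθ, h3 d hd V θ (ε / 4) hθ (by linarith) hV2 (by positivity),
    large hd (by positivity : (0:ℝ) < ε / 2) (4 * C / ε)] with T hT ⟨f1, f2, f3, f4⟩ hsup hlar
  have h2d : 0 < 2 * d T := by linarith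
  set H : ℝ := (2 * d T) ^ (-θ) with hH
  have hH0 : 0 < H := Real.rpow_pos_of_pos h2d _
  set E : ℝ := 2 * k * κ - κ ^ 2 with hE
  have hgm : Measurable (F k V (d T)) := F_meas (by linarith)
  have hgb : ∀ u, 0 ≤ F k V (d T) u ∧ F k V (d T) u ≤ ((2 * d T) ^ (-V)) ^ (2 * k) := fun u =>
    ⟨F_nn _ _ _ _, F_le hk0.le f1 u⟩
  have hmean := mean_le h4 hgm hgb f3 hH0 (fun x hx0 hx => hT x hx0 (hx.trans f4))
  have hmk := markov (c := (2 * d T) ^ (-(E + ε))) hgm hgb f3 hH0 (Real.rpow_pos_of_pos h2d _) hmean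
  have hq : C * (2 * d T) ^ (-(E + ε / 2)) / (2 * d T) ^ (-(E + ε)) ≤ ε / 4 := by
    rw [mul_div_assoc, ← Real.rpow_sub h2d]
    have e : -(E + ε / 2) - -(E + ε) = - -(ε / 2) := by ring
    rw [e, Real.rpow_neg h2d.le]
    have h7 : 0 < (2 * d T) ^ (-(ε / 2)) := Real.rpow_pos_of_pos h2d _
    rw [← div_eq_mul_inv, div_le_iff₀ h7]
    have h8 : 4 * C / ε ≤ (2 * d T) ^ (-(ε / 2)) := hlar
    rw [div_le_iff₀ hε] at h8
    linarith
  have hsub : {t : ℝ | 0 ≤ t ∧ t ≤ T ∧ (2 * d T) ^ (-(E + ε)) < av k (d T) H t} ⊆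
      {t : ℝ | 0 ≤ t ∧ t ≤ T ∧ ∃ u : ℝ, t ≤ u ∧ u ≤ t + H ∧ (2 * d T) ^ (-V) < mz (d T) u} ∪
      {t : ℝ | 0 ≤ t ∧ t ≤ T ∧ (2 * d T) ^ (-(E + ε)) <
        (1 / H) * ∫ u in t..(t + H), F k V (d T) u} := by
    rintro t ⟨a, b, hc⟩
    by_cases hex : ∃ u : ℝ, t ≤ u ∧ u ≤ t + H ∧ (2 * d T) ^ (-V) < mz (d T) u
    · exact Or.inl ⟨a, b, hex⟩
    · right
      refine ⟨a, b, ?_⟩
      push Not at hex
      have e : ∫ u in t..(t + H), F k V (d T) u = ∫ u in t..(t + H), mz (d T) u ^ (2 * k) := by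
        refine intervalIntegral.integral_congr fun u hu => ?_
        rw [Set.uIcc_of_le (by linarith)] at hu
        show (if mz (d T) u ≤ (2 * d T) ^ (-V) then mz (d T) u ^ (2 * k) else 0) = _
        rw [if_pos (hex u hu.1 hu.2)]
      rw [e]
      exact hc
  refine (measure_mono hsub).trans ((measure_union_le _ _).trans ((add_le_add hsup hmk).trans ?_))
  rw [← ENNReal.ofReal_add (by positivity) (by positivity)]
  refine ENNReal.ofReal_le_ofReal ?_
  have h9 : T * (C * (2 * d T) ^ (-(E + ε / 2))) / (2 * d T) ^ (-(E + ε)) ≤ T * (ε / 4) := by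
    rw [mul_div_assoc]
    exact mul_le_mul_of_nonneg_left hq f3.le
  linarith

/-- some large value -/
theorem some_large (h1 : S_MAXL2) (h5 : S_APOS) {d : ℝ → ℝ} (hd : Ad d) {k V θ ε : ℝ} (hV : 0 < V)
    (hVk : V < k) (hθ : 0 < θ) (hkθ : k ^ 2 < 1 + θ) (hε : 0 < ε) : ∀ᶠ T : ℝ in atTop,
    volume {t : ℝ | 0 ≤ t ∧ t ≤ T ∧ ¬ ∃ u : ℝ, t ≤ u ∧ u ≤ t + (2 * d T) ^ (-θ) ∧
      (2 * d T) ^ (-V) < mz (d T) u} ≤ ENNReal.ofReal (ε * T) := by
  filter_upwards [h1 d hd k V θ ε hV hVk hθ hkθ hε, facts hd (by linarith : (0:ℝ) ≤ θ)] with T hT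
    ⟨f1, f2, f3, f4⟩
  refine (measure_mono ?_).trans hT
  rintro t ⟨a, b, hex⟩
  refine ⟨a, b, ?_⟩
  push Not at hex
  have h2d : 0 < 2 * d T := by linarith
  have hH0 : 0 < (2 * d T) ^ (-θ) := Real.rpow_pos_of_pos h2d _
  have e : ∫ u in t..(t + (2 * d T) ^ (-θ)), (if (2 * d T) ^ (-V) < mz (d T) u then
      mz (d T) u ^ (2 * k) else 0) = ∫ u in t..(t + (2 * d T) ^ (-θ)), (0:ℝ) := by
    refine intervalIntegral.integral_congr fun u hu => ?_
    rw [Set.uIcc_of_le (by linarith)] at hu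
    show (if (2 * d T) ^ (-V) < mz (d T) u then mz (d T) u ^ (2 * k) else 0) = 0
    rw [if_neg (not_lt.2 (hex u hu.1 hu.2))]
  rw [e, intervalIntegral.integral_zero, mul_zero]
  have := M_pos h5 k f1
  linarith

/-- lower bound of the average -/
theorem lower (h1 : S_MAXL2) (h5 : S_APOS) {d : ℝ → ℝ} (hd : Ad d) {κ k θ ε : ℝ} (hκ : 0 < κ)
    (hk : κ ≤ k) (hε : 0 < ε) (hθ : 0 < θ) (hκθ : 1 + θ = κ ^ 2) : ∀ᶠ T : ℝ in atTop,
    volume {t : ℝ | 0 ≤ t ∧ t ≤ T ∧ av k (d T) ((2 * d T) ^ (-θ)) t <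
      (2 * d T) ^ (-(2 * k * κ - κ ^ 2 - ε))} ≤ ENNReal.ofReal (ε / 2 * T) := by
  have hk0 : 0 < k := hκ.trans_le hk
  set s : ℝ := min (κ / 4) (ε / (16 * k + 16)) with hs
  have hs0 : 0 < s := lt_min (by positivity) (by positivity)
  have hs1 : s ≤ κ / 4 := min_le_left _ _
  have hs2 : s ≤ ε / (16 * k + 16) := min_le_right _ _
  rw [le_div_iff₀ (by positivity)] at hs2
  have hV0 : 0 < κ - 2 * s := by linarith
  have hVk : κ - 2 * s < κ - s := by linarith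
  have hkk : (κ - s) ^ 2 < 1 + θ := by nlinarith
  have ha := (h5 (κ - s)).1
  have hexp : 2 * k * κ - κ ^ 2 - ε / 2 ≤ 2 * (κ - 2 * s) * (k - (κ - s)) + (κ - s) ^ 2 := by
    nlinarith
  filter_upwards [h1 d hd (κ - s) (κ - 2 * s) θ (ε / 2) hV0 hVk hθ hkk (by positivity),
    facts hd (by linarith : (0:ℝ) ≤ θ),
    large hd (by positivity : (0:ℝ) < ε / 2) (2 / (aC ((κ - s : ℝ) : ℂ)).re)] with T hT
    ⟨f1, f2, f3, f4⟩ hlar
  refine (measure_mono ?_).trans hT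
  rintro t ⟨a, b, hlt⟩
  refine ⟨a, b, ?_⟩
  by_contra hcon
  rw [not_lt] at hcon
  have h2d : 0 < 2 * d T := by linarith
  have h2d1 : 2 * d T ≤ 1 := by linarith
  set H : ℝ := (2 * d T) ^ (-θ) with hH
  have hH0 : 0 < H := Real.rpow_pos_of_pos h2d _
  set k' : ℝ := κ - s with hk'
  set V : ℝ := κ - 2 * s with hVd
  have hk'0 : 0 < k' := by linarith
  -- comparison of the integrals
  have hcont : Continuous fun u => mz (d T) u ^ (2 * k) :=
    (mz_cont (by linarith)).rpow_const fun u => Or.inr (by positivity)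
  have hint : (2 * d T) ^ (-(2 * V * (k - k'))) * (∫ u in t..(t + H),
      (if (2 * d T) ^ (-V) < mz (d T) u then mz (d T) u ^ (2 * k') else 0)) ≤
      ∫ u in t..(t + H), mz (d T) u ^ (2 * k) := by
    rw [← intervalIntegral.integral_const_mul, intervalIntegral.integral_of_le (by linarith),
      intervalIntegral.integral_of_le (by linarith)]
    refine integral_mono_of_nonneg (Eventually.of_forall fun u => ?_)
      ((hcont.integrableOn_Icc).mono_set Set.Ioc_subset_Icc_self) (Eventually.of_forall fun u => ?_)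
    · show 0 ≤ (2 * d T) ^ (-(2 * V * (k - k'))) *
        (if (2 * d T) ^ (-V) < mz (d T) u then mz (d T) u ^ (2 * k') else 0)
      split_ifs
      · exact mul_nonneg (Real.rpow_nonneg h2d.le _) (Real.rpow_nonneg (mz_nn _ _) _)
      · rw [mul_zero]
    · show (2 * d T) ^ (-(2 * V * (k - k'))) *
        (if (2 * d T) ^ (-V) < mz (d T) u then mz (d T) u ^ (2 * k') else 0) ≤ mz (d T) u ^ (2 * k)
      split_ifs with hz
      · have hz0 : 0 < mz (d T) u := (Real.rpow_pos_of_pos h2d _).trans hz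
        have e1 : mz (d T) u ^ (2 * k) = mz (d T) u ^ (2 * (k - k')) * mz (d T) u ^ (2 * k') := by
          rw [← Real.rpow_add hz0]
          congr 1
          ring
        have e2 : (2 * d T) ^ (-(2 * V * (k - k'))) = ((2 * d T) ^ (-V)) ^ (2 * (k - k')) := by
          rw [← Real.rpow_mul h2d.le]
          congr 1
          ring
        rw [e1, e2]
        refine mul_le_mul_of_nonneg_right ?_ (Real.rpow_nonneg hz0.le _)
        exact Real.rpow_le_rpow (Real.rpow_nonneg h2d.le _) hz.le (by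
          have : k' ≤ k := by linarith
          linarith)
      · rw [mul_zero]
        exact Real.rpow_nonneg (mz_nn _ _) _
  have h7 : (2 * d T) ^ (-(2 * V * (k - k'))) * ((1 / 2) * M k' (d T)) ≤ av k (d T) H t := by
    calc (2 * d T) ^ (-(2 * V * (k - k'))) * ((1 / 2) * M k' (d T)) ≤
        (2 * d T) ^ (-(2 * V * (k - k'))) * ((1 / H) * (∫ u in t..(t + H),
          (if (2 * d T) ^ (-V) < mz (d T) u then mz (d T) u ^ (2 * k') else 0))) :=
          mul_le_mul_of_nonneg_left hcon (Real.rpow_nonneg h2d.le _)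
      _ = (1 / H) * ((2 * d T) ^ (-(2 * V * (k - k'))) * (∫ u in t..(t + H),
          (if (2 * d T) ^ (-V) < mz (d T) u then mz (d T) u ^ (2 * k') else 0))) := by ring
      _ ≤ (1 / H) * ∫ u in t..(t + H), mz (d T) u ^ (2 * k) :=
          mul_le_mul_of_nonneg_left hint (by positivity)
      _ = av k (d T) H t := rfl
  have h8 : (2 * d T) ^ (-(2 * k * κ - κ ^ 2 - ε)) ≤
      (2 * d T) ^ (-(2 * V * (k - k'))) * ((1 / 2) * M k' (d T)) := by
    have e1 : (2 * d T) ^ (-(2 * V * (k - k'))) * ((1 / 2) * M k' (d T)) =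
        (1 / 2) * (aC (k' : ℂ)).re * (2 * d T) ^ (-(2 * V * (k - k') + k' ^ 2)) := by
      have e2 : -(2 * V * (k - k') + k' ^ 2) = -(2 * V * (k - k')) + -(k' ^ 2) := by ring
      rw [e2, Real.rpow_add h2d, M]
      ring
    rw [e1]
    have h9 : (2 * d T) ^ (-(2 * k * κ - κ ^ 2 - ε / 2)) ≤
        (2 * d T) ^ (-(2 * V * (k - k') + k' ^ 2)) := rp_mono f1 h2d1 hexp
    have h10 : (2 * d T) ^ (-(2 * k * κ - κ ^ 2 - ε / 2)) =
        (2 * d T) ^ (-(2 * k * κ - κ ^ 2 - ε)) * (2 * d T) ^ (-(ε / 2)) := by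
      rw [← Real.rpow_add h2d]
      congr 1
      ring
    have h11 : 0 < (2 * d T) ^ (-(2 * k * κ - κ ^ 2 - ε)) := Real.rpow_pos_of_pos h2d _
    have h12 : 2 / (aC (k' : ℂ)).re ≤ (2 * d T) ^ (-(ε / 2)) := hlar
    have h13 : 1 ≤ (1 / 2) * (aC (k' : ℂ)).re * (2 * d T) ^ (-(ε / 2)) := by
      rw [div_le_iff₀ ha] at h12
      linarith
    calc (2 * d T) ^ (-(2 * k * κ - κ ^ 2 - ε)) ≤ (2 * d T) ^ (-(2 * k * κ - κ ^ 2 - ε)) *
          ((1 / 2) * (aC (k' : ℂ)).re * (2 * d T) ^ (-(ε / 2))) := le_mul_of_one_le_right h11.le h13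
      _ = (1 / 2) * (aC (k' : ℂ)).re * (2 * d T) ^ (-(2 * k * κ - κ ^ 2 - ε / 2)) := by
          rw [h10]
          ring
      _ ≤ _ := mul_le_mul_of_nonneg_left h9 (by positivity)
  linarith [h7, h8, hlt]

theorem t (h1 : S_MAXL2) (h2 : S_SUB) (h3 : S_SUP) (h4 : S_FUB) (h5 : S_APOS) (h6 : S_ONE) :
    S_FROZ2 := by
  intro d hd θ ε hθ hε
  set κ : ℝ := √(1 + θ) with hκd
  have hκ2 : 1 + θ = κ ^ 2 := (Real.sq_sqrt (by linarith)).symm
  have hκ : 0 < κ := Real.sqrt_pos.2 (by linarith)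
  constructor
  · -- the maximum
    set s : ℝ := min ε κ / 4 with hs
    have hm0 : 0 < min ε κ := lt_min hε hκ
    have hm1 : min ε κ ≤ ε := min_le_left _ _
    have hm2 : min ε κ ≤ κ := min_le_right _ _
    filter_upwards [h3 d hd (κ + ε) θ (ε / 2) (by linarith) (by linarith) (by nlinarith)
      (by positivity), some_large h1 h5 hd (k := κ - s) (V := κ - 2 * s) (by linarith) (by linarith)
      hθ (by nlinarith) (by positivity : 0 < ε / 2), facts hd (by linarith : (0:ℝ) ≤ θ)] with T hA hB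
      ⟨f1, f2, f3, f4⟩
    have hsub : {t : ℝ | 0 ≤ t ∧ t ≤ T ∧ ¬ ((∀ u : ℝ, t ≤ u → u ≤ t + (2 * d T) ^ (-θ) →
        mz (d T) u ≤ (2 * d T) ^ (-(κ + ε))) ∧
        ∃ u : ℝ, t ≤ u ∧ u ≤ t + (2 * d T) ^ (-θ) ∧ (2 * d T) ^ (-(κ - ε)) ≤ mz (d T) u)} ⊆
        {t : ℝ | 0 ≤ t ∧ t ≤ T ∧ ∃ u : ℝ, t ≤ u ∧ u ≤ t + (2 * d T) ^ (-θ) ∧
          (2 * d T) ^ (-(κ + ε)) < mz (d T) u} ∪
        {t : ℝ | 0 ≤ t ∧ t ≤ T ∧ ¬ ∃ u : ℝ, t ≤ u ∧ u ≤ t + (2 * d T) ^ (-θ) ∧
          (2 * d T) ^ (-(κ - 2 * s)) < mz (d T) u} := by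
      rintro t ⟨a, b, hn⟩
      by_contra hcon
      rw [Set.mem_union, not_or] at hcon
      obtain ⟨c1, c2⟩ := hcon
      apply hn
      constructor
      · intro u hu1 hu2
        by_contra hlt
        rw [not_le] at hlt
        exact c1 ⟨a, b, u, hu1, hu2, hlt⟩
      · by_contra hno
        apply c2
        refine ⟨a, b, ?_⟩
        rintro ⟨u, hu1, hu2, hu3⟩
        refine hno ⟨u, hu1, hu2, le_trans ?_ hu3.le⟩
        exact rp_mono f1 (by linarith) (by linarith)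
    refine (measure_mono hsub).trans ((measure_union_le _ _).trans ((add_le_add hA hB).trans ?_))
    rw [← ENNReal.ofReal_add (by positivity) (by positivity)]
    refine ENNReal.ofReal_le_ofReal ?_
    linarith
  · intro k hk
    filter_upwards [upper h2 h3 h4 h5 h6 hd hκ hk hε (by linarith : (0:ℝ) ≤ θ) hκ2,
      lower h1 h5 hd hκ hk hε hθ hκ2, eventually_gt_atTop (0:ℝ)] with T hA hB f3
    rw [← hκ2] at hA hB
    have hsub : {t : ℝ | 0 ≤ t ∧ t ≤ T ∧
        ¬ ((2 * d T) ^ (-(2 * k * κ - (1 + θ) - ε)) ≤ av k (d T) ((2 * d T) ^ (-θ)) t ∧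
          av k (d T) ((2 * d T) ^ (-θ)) t ≤ (2 * d T) ^ (-(2 * k * κ - (1 + θ) + ε)))} ⊆
        {t : ℝ | 0 ≤ t ∧ t ≤ T ∧ (2 * d T) ^ (-(2 * k * κ - (1 + θ) + ε)) <
          av k (d T) ((2 * d T) ^ (-θ)) t} ∪
        {t : ℝ | 0 ≤ t ∧ t ≤ T ∧ av k (d T) ((2 * d T) ^ (-θ)) t <
          (2 * d T) ^ (-(2 * k * κ - (1 + θ) - ε))} := by
      rintro t ⟨a, b, hn⟩
      rw [not_and_or, not_le, not_le] at hn
      rcases hn with hn | hn
      · exact Or.inr ⟨a, b, hn⟩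
      · exact Or.inl ⟨a, b, hn⟩
    refine (measure_mono hsub).trans ((measure_union_le _ _).trans ((add_le_add hA hB).trans ?_))
    rw [← ENNReal.ofReal_add (by positivity) (by positivity)]
    refine ENNReal.ofReal_le_ofReal ?_
    linarith

end Pool.Agent.H6F.FROZ2
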