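import Pool.Agent.H6F.Base
import Pool.Agent.H6F.NEAR
import Pool.Agent.H6F.VAR
import Pool.Agent.H6F.LLN
import Pool.Agent.H6F.MAXL
import Pool.Agent.H6F.FROZ

set_option autoImplicit false

/-! Short intervals near the critical line, lengths at least `N`: the theorems. -/

namespace Pool.Agent.H6F

open Filter MeasureTheory Topology Complex
open Pool.Agent.N748.MG Pool.Agent.N748.MJ

theorem varF : S_VAR := VAR.t oneF uniF fubF farF (NEAR.t nearpF EXPO.t) aposF conF

theorem llnF : S_LLN := LLN.t varF oneF supF fubF aposF

theorem maxlF : S_MAXL := MAXL.t llnF subF fubF aposF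

theorem frozF : S_FROZ := FROZ.t maxlF subF supF fubF aposF oneF

end Pool.Agent.H6F
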