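import Pool.Agent.H6F.Stm2
import Pool.Agent.N748.MJ.SM

set_option autoImplicit false

/-! (JMU) joint moments with real exponents of any sign, upper bound (helper30, project H6F of helper6) -/

namespace Pool.Agent.H6F.JMU

open Finset Filter MeasureTheory Topology Complex
open Pool.Agent.N748.MG Pool.Agent.N748.MJ

lemma rpow_le_K {x K B β : ℝ} (hx : 0 < x) (hK1 : 1 ≤ K) (hxK : x ≤ K) (hxK' : 1 / K ≤ x) (hβ : |β| ≤ B) :
    x ^ β ≤ K ^ B := by
  have hK0 : 0 < K := by linarith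
  rcases le_total 0 β with h | h
  · rw [abs_of_nonneg h] at hβ
    exact (Real.rpow_le_rpow hx.le hxK h).trans (Real.rpow_le_rpow_of_exponent_le hK1 hβ)
  · rw [abs_of_nonpos h] at hβ
    have h1 : x ^ β ≤ (1 / K) ^ β := Real.rpow_le_rpow_of_nonpos (by positivity) hxK' h
    have h2 : (1 / K) ^ β = K ^ (-β) := by
      rw [one_div, Real.inv_rpow hK0.le, Real.rpow_neg hK0.le]
    rw [h2] at h1
    exact h1.trans (Real.rpow_le_rpow_of_exponent_le hK1 hβ)

theorem t (hJ : S_JM) (hP : S_POSV) (hL : S_LZB) (hZ : S_ZLG) : S_JMU := by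
  intro d hd m B D hB hD
  obtain ⟨c, C0, hc, hC0, hcC⟩ := hP m B hB.le
  obtain ⟨c1, C1, hc1, hC1, hz⟩ := hZ
  set K : ℝ := max (max C1 (1 / c1)) 1 with hK
  have hK1 : 1 ≤ K := le_max_right _ _
  have hK0 : 0 < K := by linarith
  have hKC : C1 ≤ K := (le_max_left _ _).trans (le_max_left _ _)
  have hKc : 1 / K ≤ c1 := by
    rw [div_le_iff₀ hK0]
    have h1 : 1 / c1 ≤ K := (le_max_right _ _).trans (le_max_left _ _)
    rw [div_le_iff₀ hc1] at h1
    linarith [mul_comm K c1]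
  refine ⟨(∏ _j : Fin m, ∏ _l : Fin m, K ^ (B ^ 2)) * (C0 + c), by positivity, ?_⟩
  have g1 := (hJ m B D hB hD (c / 2) (by positivity)).app hd
  have g4 := (Ev.of_le (d := 1 / 16) (by norm_num)).app hd
  filter_upwards [g1, g4, hd.pos, eventually_gt_atTop 0] with T g1 g4 g5 hT
  intro h hh hh2
  obtain ⟨S, n1, n2, n3, n4, n5⟩ := g1 h hh
  set δ : ℝ := d T with hδ
  refine ⟨S, n1, n2, n3, fun t ht j => norm_pos_iff.2 (n4 t ht j), fun b hb => ?_⟩
  obtain ⟨hCu, hcl⟩ := hcC h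
  obtain ⟨a, ha1, ha2⟩ := hcl b hb
  have hn : ∀ j, ‖SM.cc b j‖ ≤ B := by
    intro j
    unfold SM.cc
    rw [Complex.norm_real, Real.norm_eq_abs]
    exact hb j
  have ha3 : a ≤ C0 := by
    have h1 := hCu (SM.cc b) (SM.cc b) hn hn
    have h2 : aV (SM.cc b) (SM.cc b) h = a := ha2
    rw [h2, Complex.norm_real, Real.norm_of_nonneg (hc.le.trans ha1)] at h1
    exact h1
  have hf := SM.real_form (k := b) hT (hc.le.trans ha1) ha2
    (n5 (SM.cc b) (fun _ => 0) hn (fun j => by simpa using hB.le))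
  have hint : IntegrableOn (fun t => SM.G b h δ t) S := by
    by_contra hcon
    have h0 : ∫ t in S, SM.G b h δ t = 0 := integral_undef hcon
    rw [h0, mul_zero, zero_sub, abs_neg] at hf
    have h1 := le_abs_self (T * a)
    nlinarith
  refine ⟨hint, ?_⟩
  have hup : ∫ t in S, SM.G b h δ t ≤ Real.exp (SM.Lr b h δ) * ((C0 + c) * T) := by
    have h1 := (abs_le.1 hf).2
    have h2 : Real.exp (-(SM.Lr b h δ)) * (∫ t in S, SM.G b h δ t) ≤ (C0 + c) * T := by
      nlinarith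
    have h3 : Real.exp (SM.Lr b h δ) * (Real.exp (-(SM.Lr b h δ)) * (∫ t in S, SM.G b h δ t)) =
        ∫ t in S, SM.G b h δ t := by
      rw [← mul_assoc, ← Real.exp_add]
      simp
    rw [← h3]
    exact mul_le_mul_of_nonneg_left h2 (Real.exp_pos _).le
  have hG0 : ∀ u : ℝ, 0 < G δ u := by
    intro u
    unfold G
    have := abs_nonneg u
    linarith
  have hexp : Real.exp (SM.Lr b h δ) ≤ (∏ _j : Fin m, ∏ _l : Fin m, K ^ (B ^ 2)) *
      ∏ j, ∏ l, G δ (h j - h l) ^ (-(b j * b l)) := by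
    unfold SM.Lr
    rw [Real.exp_sum, ← Finset.prod_mul_distrib]
    refine Finset.prod_le_prod (fun j _ => (Real.exp_pos _).le) fun j _ => ?_
    rw [Real.exp_sum, ← Finset.prod_mul_distrib]
    refine Finset.prod_le_prod (fun l _ => (Real.exp_pos _).le) fun l _ => ?_
    obtain ⟨hz1, hz2⟩ := hz δ (h j - h l) g5 g4 (hh2 j l)
    have e1 : Real.exp ((LZ (1 + 2 * δ) (h j - h l)).re) = zl δ (h j - h l) := by
      have h1 := (hL δ g5 g4 (h j - h l)).2
      have h2 := congrArg norm h1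
      rw [Complex.norm_exp] at h2
      rw [h2]
      unfold zl
      push_cast
      rfl
    have hGp := hG0 (h j - h l)
    have hzp : 0 < zl δ (h j - h l) := lt_of_lt_of_le (by positivity) hz1
    have e2 : Real.exp (b j * b l * (LZ (1 + 2 * δ) (h j - h l)).re) =
        zl δ (h j - h l) ^ (b j * b l) := by
      rw [← e1, ← Real.exp_mul, mul_comm]
    rw [e2]
    have e3 : zl δ (h j - h l) ^ (b j * b l) =
        (zl δ (h j - h l) * G δ (h j - h l)) ^ (b j * b l) * G δ (h j - h l) ^ (-(b j * b l)) := by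
      rw [Real.mul_rpow hzp.le hGp.le, mul_assoc, ← Real.rpow_add hGp]
      simp
    rw [e3]
    refine mul_le_mul_of_nonneg_right ?_ (Real.rpow_nonneg hGp.le _)
    refine rpow_le_K (by positivity) hK1 ?_ ?_ ?_
    · rw [le_div_iff₀ hGp] at hz2
      exact hz2.trans hKC
    · rw [div_le_iff₀ hGp] at hz1
      exact hKc.trans hz1
    · rw [abs_mul, sq]
      exact mul_le_mul (hb j) (hb l) (abs_nonneg _) hB.le
  calc ∫ t in S, ∏ j, mz δ (t + h j) ^ (2 * b j) = ∫ t in S, SM.G b h δ t := rfl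
    _ ≤ Real.exp (SM.Lr b h δ) * ((C0 + c) * T) := hup
    _ ≤ ((∏ _j : Fin m, ∏ _l : Fin m, K ^ (B ^ 2)) *
      ∏ j, ∏ l, G δ (h j - h l) ^ (-(b j * b l))) * ((C0 + c) * T) :=
        mul_le_mul_of_nonneg_right hexp (by positivity)
    _ = (∏ _j : Fin m, ∏ _l : Fin m, K ^ (B ^ 2)) * (C0 + c) * T *
      ∏ j, ∏ l, G δ (h j - h l) ^ (-(b j * b l)) := by ring

end Pool.Agent.H6F.JMU
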