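import Pool.Agent.H6F.Stm2
import Pool.Agent.H6F.LLN

set_option autoImplicit false

/-!
# Project H6F, stub LLN2 (helper93): the law of large numbers, all lengths
-/

namespace Pool.Agent.H6F.LLN2

open Filter MeasureTheory Topology Complex
open Pool.Agent.N748.MG Pool.Agent.N748.MJ Pool.Agent.H6F Pool.Agent.H6F.LLN

lemma yb_cont {b d : ℝ} (hb : 0 ≤ b) (hd : d ≤ 1 / 16) : Continuous fun t : ℝ => yb b d t := by
  unfold yb
  exact continuous_const.max ((TMA.cont hd).rpow_const fun x => Or.inr (by linarith))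

lemma A_cont {b u d : ℝ} (hb : 0 ≤ b) (hd : d ≤ 1 / 16) : Continuous fun t : ℝ => A b u d t := by
  unfold A
  refine continuous_const.mul ?_
  refine intervalIntegral.continuous_parametric_intervalIntegral_of_continuous' ?_ _ _
  exact (yb_cont hb hd).comp (continuous_fst.add continuous_snd)

lemma Bar_meas {k : ℝ} {n m : ℕ} {η d : ℝ} (hk : 0 ≤ k) (hd : d ≤ 1 / 16) :
    MeasurableSet {t : ℝ | Bar k n m η d t} := by
  have e : {t : ℝ | Bar k n m η d t} = ⋂ i ∈ {i : ℕ | 1 ≤ i ∧ i ≤ n},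
      {t : ℝ | A (k / m) ((i:ℝ) / n) d t ≤ X k (k / m) ((i:ℝ) / n) η d} := by
    ext t
    simp only [Set.mem_setOf_eq, Set.mem_iInter, Bar]
    constructor
    · intro h i hi
      exact h i hi.1 hi.2
    · intro h i h1 h2
      exact h i ⟨h1, h2⟩
  rw [e]
  refine MeasurableSet.biInter (Set.to_countable _) fun i _ => ?_
  exact measurableSet_le (A_cont (by positivity) hd).measurable measurable_const

lemma Fb_meas {k V : ℝ} {n m : ℕ} {η d : ℝ} (hk : 0 ≤ k) (hd : d ≤ 1 / 16) :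
    Measurable (Fb k V n m η d) := by
  have h1 := F_meas (k := k) (V := V) hd
  unfold Fb
  exact Measurable.ite (Bar_meas hk hd) h1 measurable_const

lemma Fb_nn {k V : ℝ} {n m : ℕ} {η d t : ℝ} : 0 ≤ Fb k V n m η d t := by
  unfold Fb
  split_ifs
  · exact F_nn
  · exact le_rfl

lemma Fb_le {k V : ℝ} {n m : ℕ} {η d t : ℝ} : Fb k V n m η d t ≤ F k V d t := by
  unfold Fb
  split_ifs
  · exact le_rfl
  · exact F_nn

/-- **LLN2.** -/
theorem t (h1 : S_VAR2) (h2 : S_ONE) (h3 : S_SUP) (h4 : S_FUB) (h5 : S_APOS) : S_LLN2 := by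
  intro d hd k θ ε hk hθ hkθ hε
  obtain ⟨n, m', η, hV⟩ := h1 d hd k θ hk hθ hkθ
  obtain ⟨V, hVd⟩ : ∃ V : ℝ, V = 2 * k + 1 := ⟨_, rfl⟩
  rw [← hVd] at hV
  have hkV : k < V := by rw [hVd]; linarith
  obtain ⟨V', hV'⟩ : ∃ V' : ℝ, V' = max V (√(1 + θ)) + 1 := ⟨_, rfl⟩
  have hVV' : V ≤ V' := by
    rw [hV']
    linarith [le_max_left V (√(1 + θ))]
  have hV'0 : 0 < V' := by linarith
  have hV'2 : 1 + θ < V' ^ 2 := by
    have a1 : √(1 + θ) < V' := by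
      rw [hV']
      linarith [le_max_right V (√(1 + θ))]
    calc 1 + θ = √(1 + θ) ^ 2 := (Real.sq_sqrt (by linarith)).symm
      _ < V' ^ 2 := pow_lt_pow_left₀ a1 (Real.sqrt_nonneg _) two_ne_zero
  obtain ⟨ε₁, hε₁⟩ : ∃ ε₁ : ℝ, ε₁ = min (ε ^ 3 / 64) (ε ^ 2 / 16) := ⟨_, rfl⟩
  have e1 : 0 < ε₁ := by
    rw [hε₁]
    exact lt_min (by positivity) (by positivity)
  have e1a : ε₁ ≤ ε ^ 3 / 64 := by rw [hε₁]; exact min_le_left _ _
  have e1b : ε₁ ≤ ε ^ 2 / 16 := by rw [hε₁]; exact min_le_right _ _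
  have e2 : 0 < ε ^ 2 / 16 := by positivity
  have e3 : 0 < ε / 4 := by positivity
  filter_upwards [large hd θ, hV _ e1, h2 d hd k V _ hk hkV e2, h2 d hd k V' _ hk (by linarith) e2,
    h3 d hd V' θ _ hθ.le hV'0 hV'2 e3] with T hT hT1 hT2 hT3 hT4
  obtain ⟨hT0, hd0, hd1, hH1⟩ := hT
  obtain ⟨hTa, hTb⟩ := hT1
  obtain ⟨H, hH⟩ : ∃ H : ℝ, H = (2 * d T) ^ (-θ) := ⟨_, rfl⟩
  have hH0 : 0 < H := by
    rw [hH]
    exact Real.rpow_pos_of_pos (by linarith) _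
  obtain ⟨D, hD⟩ : ∃ D : ℝ, D = d T := ⟨_, rfl⟩
  rw [← hH] at hTa hTb hT4 hH1 ⊢
  rw [← hD] at hTa hTb hT2 hT3 hT4 hd0 hd1 ⊢
  have hM : 0 < M k D := M_pos h5 hd0
  obtain ⟨m, hm⟩ : ∃ m : ℝ, m = M k D := ⟨_, rfl⟩
  rw [← hm] at hTa hTb hT2 hT3 hM ⊢
  -- the truncated powers
  obtain ⟨g₀, hg₀⟩ : ∃ g₀ : ℝ → ℝ, g₀ = Fb k V n m' η D := ⟨_, rfl⟩
  obtain ⟨g, hg⟩ : ∃ g : ℝ → ℝ, g = F k V D := ⟨_, rfl⟩
  obtain ⟨g', hg'⟩ : ∃ g' : ℝ → ℝ, g' = F k V' D := ⟨_, rfl⟩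
  obtain ⟨B, hB⟩ : ∃ B : ℝ, B = ((2 * D) ^ (-V')) ^ (2 * k) := ⟨_, rfl⟩
  have gm₀ : Measurable g₀ := by rw [hg₀]; exact Fb_meas hk.le hd1
  have gm : Measurable g := by rw [hg]; exact F_meas hd1
  have gm' : Measurable g' := by rw [hg']; exact F_meas hd1
  have gle₀ : ∀ u, g₀ u ≤ g u := fun u => by
    rw [hg, hg₀]
    exact Fb_le
  have gle : ∀ u, g u ≤ g' u := fun u => by
    rw [hg, hg']
    exact F_mono hd0 (by linarith) hVV'
  have gB' : ∀ u, 0 ≤ g' u ∧ g' u ≤ B := fun u => by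
    rw [hg', hB]
    exact ⟨F_nn, F_le hk.le hd0⟩
  have gB : ∀ u, 0 ≤ g u ∧ g u ≤ B := fun u =>
    ⟨by rw [hg]; exact F_nn, (gle u).trans (gB' u).2⟩
  have gB₀ : ∀ u, 0 ≤ g₀ u ∧ g₀ u ≤ B := fun u =>
    ⟨by rw [hg₀]; exact Fb_nn, (gle₀ u).trans (gB u).2⟩
  have gmd : Measurable fun u => g u - g₀ u := gm.sub gm₀
  have gBd : ∀ u, 0 ≤ g u - g₀ u ∧ g u - g₀ u ≤ B := fun u =>
    ⟨sub_nonneg.2 (gle₀ u), by linarith [(gB u).2, (gB₀ u).1]⟩
  obtain ⟨A₀, hA₀⟩ : ∃ A₀ : ℝ → ℝ, A₀ = fun t => (1 / H) * ∫ u in t..(t + H), g₀ u := ⟨_, rfl⟩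
  obtain ⟨Ad, hAd⟩ : ∃ Ad : ℝ → ℝ, Ad = fun t => (1 / H) * ∫ u in t..(t + H), (g u - g₀ u) :=
    ⟨_, rfl⟩
  obtain ⟨A, hA⟩ : ∃ A : ℝ → ℝ, A = fun t => (1 / H) * ∫ u in t..(t + H), g u := ⟨_, rfl⟩
  obtain ⟨A', hA'⟩ : ∃ A' : ℝ → ℝ, A' = fun t => (1 / H) * ∫ u in t..(t + H), g' u := ⟨_, rfl⟩
  have Ac₀ : Continuous A₀ := by rw [hA₀]; exact cont_av gm₀ gB₀ H
  have Acd : Continuous Ad := by rw [hAd]; exact cont_av gmd gBd H
  have Ac : Continuous A := by rw [hA]; exact cont_av gm gB H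
  have Ac' : Continuous A' := by rw [hA']; exact cont_av gm' gB' H
  have Ale : ∀ t, A t ≤ A' t := fun t => by
    rw [hA, hA']
    exact av_mono gm gm' gB gB' gle hH0
  have Adn : ∀ t, 0 ≤ Ad t := fun t => by
    rw [hAd]
    refine mul_nonneg (by positivity) ?_
    exact intervalIntegral.integral_nonneg (by linarith) fun u _ => (gBd u).1
  have Ade : ∀ t, A t = A₀ t + Ad t := fun t => by
    rw [hA, hA₀, hAd]
    show (1 / H) * (∫ u in t..(t + H), g u) = (1 / H) * (∫ u in t..(t + H), g₀ u) +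
      (1 / H) * ∫ u in t..(t + H), (g u - g₀ u)
    rw [intervalIntegral.integral_sub (ii gm gB _ _) (ii gm₀ gB₀ _ _)]
    ring
  -- the mean values
  have hx : ∀ x : ℝ, x ≤ H → x ≤ T ^ ((1:ℝ) / 2) := fun x hx => hx.trans hH1
  have m1 : |(1 / T) * (∫ t in (0:ℝ)..T, A t) - m| ≤ ε ^ 2 / 16 * m := by
    rw [hA, (h4 g B T H gm gB hT0 hH0).1]
    refine avg_close (cont_sh gm gB T) hH0 fun x hx0 hx1 => ?_
    rw [hg]
    exact hT2 x hx0 (hx x hx1)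
  have m2 : |(1 / T) * (∫ t in (0:ℝ)..T, A' t) - m| ≤ ε ^ 2 / 16 * m := by
    rw [hA', (h4 g' B T H gm' gB' hT0 hH0).1]
    refine avg_close (cont_sh gm' gB' T) hH0 fun x hx0 hx1 => ?_
    rw [hg']
    exact hT3 x hx0 (hx x hx1)
  have m3 : (1 / T) * (∫ t in (0:ℝ)..T, (A' t - A t)) ≤ ε ^ 2 / 8 * m := by
    rw [intervalIntegral.integral_sub (Ac'.intervalIntegrable _ _) (Ac.intervalIntegrable _ _),
      mul_sub]
    have a1 := (abs_le.1 m1).1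
    have a2 := (abs_le.1 m2).2
    linarith
  -- the exceptional sets
  have s1 : volume {t : ℝ | 0 ≤ t ∧ t ≤ T ∧ (ε / 4 * m) ^ 2 < (A₀ t - m) ^ 2} ≤
      ENNReal.ofReal (ε / 4 * T) := by
    refine (markov ((Ac₀.sub continuous_const).pow 2) (fun t => sq_nonneg _) hT0 (by positivity)
      (m := ε ^ 3 / 64 * m ^ 2) ?_).trans (le_of_eq ?_)
    · rw [hA₀, hg₀]
      exact hTa.trans (mul_le_mul_of_nonneg_right e1a (sq_nonneg _))
    · congr 1
      field_simp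
      ring
  have s0 : volume {t : ℝ | 0 ≤ t ∧ t ≤ T ∧ ε / 4 * m < Ad t} ≤
      ENNReal.ofReal (ε / 4 * T) := by
    refine (markov Acd Adn hT0 (by positivity) (m := ε ^ 2 / 16 * m) ?_).trans (le_of_eq ?_)
    · rw [hAd, hg, hg₀]
      exact hTb.trans (mul_le_mul_of_nonneg_right e1b hM.le)
    · congr 1
      field_simp
      ring
  have s2 : volume {t : ℝ | 0 ≤ t ∧ t ≤ T ∧ ε / 2 * m < A' t - A t} ≤
      ENNReal.ofReal (ε / 4 * T) := by
    refine (markov (Ac'.sub Ac) (fun t => sub_nonneg.2 (Ale t)) hT0 (by positivity) m3).trans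
      (le_of_eq ?_)
    congr 1
    field_simp
    ring
  -- the union
  have hsub : {t : ℝ | 0 ≤ t ∧ t ≤ T ∧ ε * m < |av k D H t - m|} ⊆
      (({t : ℝ | 0 ≤ t ∧ t ≤ T ∧ (ε / 4 * m) ^ 2 < (A₀ t - m) ^ 2} ∪
        {t : ℝ | 0 ≤ t ∧ t ≤ T ∧ ε / 4 * m < Ad t}) ∪
        {t : ℝ | 0 ≤ t ∧ t ≤ T ∧ ε / 2 * m < A' t - A t}) ∪
      {t : ℝ | 0 ≤ t ∧ t ≤ T ∧ ∃ u : ℝ, t ≤ u ∧ u ≤ t + H ∧ (2 * D) ^ (-V') < mz D u} := by
    rintro t ⟨ht0, ht1, ht2⟩
    by_contra hcon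
    rw [Set.mem_union, Set.mem_union, Set.mem_union, not_or, not_or, not_or] at hcon
    obtain ⟨⟨⟨c1, c0⟩, c2⟩, c3⟩ := hcon
    have b1 : |A₀ t - m| ≤ ε / 4 * m := by
      by_contra hc
      push Not at hc
      refine c1 ⟨ht0, ht1, ?_⟩
      rw [← sq_abs (A₀ t - m)]
      exact pow_lt_pow_left₀ hc (by positivity) two_ne_zero
    have b0 : Ad t ≤ ε / 4 * m := by
      by_contra hc
      push Not at hc
      exact c0 ⟨ht0, ht1, hc⟩
    have b2 : A' t - A t ≤ ε / 2 * m := by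
      by_contra hc
      push Not at hc
      exact c2 ⟨ht0, ht1, hc⟩
    have b3 : ∀ u : ℝ, t ≤ u → u ≤ t + H → mz D u ≤ (2 * D) ^ (-V') := by
      intro u hu1 hu2
      by_contra hc
      push Not at hc
      exact c3 ⟨ht0, ht1, u, hu1, hu2, hc⟩
    have b4 : av k D H t = A' t := by
      rw [hA', hg']
      unfold av
      congr 1
      refine intervalIntegral.integral_congr fun u hu => ?_
      rw [Set.uIcc_of_le (by linarith)] at hu
      show mz D u ^ (2 * k) = F k V' D u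
      unfold F
      rw [if_pos (b3 u hu.1 hu.2)]
    rw [b4] at ht2
    have b5 := abs_le.1 b1
    have b6 := Ale t
    have b8 := Ade t
    have b9 := Adn t
    have b7 : |A' t - m| ≤ ε * m := by
      rw [abs_le]
      constructor
      · linarith [b5.1]
      · linarith [b5.2]
    exact absurd ht2 (not_lt.2 b7)
  refine (measure_mono hsub).trans ((measure_union_le _ _).trans ?_)
  refine (add_le_add ((measure_union_le _ _).trans (add_le_add (measure_union_le _ _) le_rfl))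
    hT4).trans ?_
  refine (add_le_add (add_le_add (add_le_add s1 s0) s2) le_rfl).trans ?_
  rw [← ENNReal.ofReal_add (by positivity) (by positivity),
    ← ENNReal.ofReal_add (by positivity) (by positivity),
    ← ENNReal.ofReal_add (by positivity) (by positivity)]
  refine ENNReal.ofReal_le_ofReal (le_of_eq ?_)
  ring

end Pool.Agent.H6F.LLN2
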