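import Pool.Agent.H6F.Stm2
import Pool.Agent.N748.MG.Ev
import Pool.Agent.N748.MG.TMA

/-! Project H6F (helper6), stub MAXL2, copy of MAXL: the large part above a subcritical level (helper92). -/

set_option autoImplicit false

open Filter MeasureTheory Topology Complex
open Pool.Agent.N748.MG Pool.Agent.N748.MJ

namespace Pool.Agent.H6F.MAXL2

lemma F_meas {k V d : ℝ} (hd : d ≤ 1 / 16) : Measurable (F k V d) := by
  unfold F
  refine Measurable.ite (measurableSet_le (TMA.cont hd).measurable measurable_const) ?_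
    measurable_const
  exact (TMA.cont hd).measurable.pow_const _

lemma F_bd {k V d : ℝ} (hk : 0 < k) (hd : 0 < d) (u : ℝ) :
    0 ≤ F k V d u ∧ F k V d u ≤ (2 * d) ^ (-(2 * k * V)) := by
  unfold F
  split_ifs with h
  · refine ⟨Real.rpow_nonneg (TMA.mz_nn _ _) _, ?_⟩
    calc mz d u ^ (2 * k) ≤ ((2 * d) ^ (-V)) ^ (2 * k) :=
          Real.rpow_le_rpow (TMA.mz_nn _ _) h (by positivity)
      _ = (2 * d) ^ (-(2 * k * V)) := by
          rw [← Real.rpow_mul (by positivity)]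
          congr 1
          ring
  · exact ⟨le_rfl, by positivity⟩

lemma F_ii {k V d : ℝ} (hk : 0 < k) (hd : 0 < d) (hd1 : d ≤ 1 / 16) (a b : ℝ) :
    IntervalIntegrable (F k V d) volume a b := by
  refine IntervalIntegrable.mono_fun' (g := fun _ => (2 * d) ^ (-(2 * k * V)))
    intervalIntegrable_const (F_meas hd1).aestronglyMeasurable
    (Eventually.of_forall fun x => ?_)
  obtain ⟨h1, h2⟩ := F_bd (V := V) hk hd x
  show ‖F k V d x‖ ≤ _
  rw [Real.norm_of_nonneg h1]
  exact h2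

lemma avT_cont {k V d H : ℝ} (hk : 0 < k) (hd : 0 < d) (hd1 : d ≤ 1 / 16) :
    Continuous (avT k V d H) := by
  have e : (fun t => avT k V d H t) = fun t => (1 / H) * ((∫ u in (0 : ℝ)..(t + H), F k V d u) -
      ∫ u in (0 : ℝ)..t, F k V d u) := by
    funext t
    unfold avT
    rw [intervalIntegral.integral_interval_sub_left (F_ii hk hd hd1 _ _) (F_ii hk hd hd1 _ _)]
  show Continuous fun t => avT k V d H t
  rw [e]
  have h1 : Continuous fun b => ∫ u in (0 : ℝ)..b, F k V d u :=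
    intervalIntegral.continuous_primitive (fun a b => F_ii hk hd hd1 a b) 0
  exact continuous_const.mul ((h1.comp (continuous_id.add continuous_const)).sub h1)

lemma avT_nn {k V d H : ℝ} (hk : 0 < k) (hd : 0 < d) (hH : 0 < H) (t : ℝ) : 0 ≤ avT k V d H t := by
  unfold avT
  refine mul_nonneg (by positivity) (intervalIntegral.integral_nonneg (by linarith) fun u _ => ?_)
  exact (F_bd hk hd u).1

/-- the averages split -/
lemma split {k V d H : ℝ} (hk : 0 < k) (hd : 0 < d) (hd1 : d ≤ 1 / 16) (t : ℝ) :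
    (1 / H) * (∫ u in t..(t + H), (if (2 * d) ^ (-V) < mz d u then mz d u ^ (2 * k) else 0)) =
      av k d H t - avT k V d H t := by
  unfold av avT
  rw [← mul_sub, ← intervalIntegral.integral_sub]
  · congr 1
    refine intervalIntegral.integral_congr fun u _ => ?_
    show (if (2 * d) ^ (-V) < mz d u then mz d u ^ (2 * k) else 0) = mz d u ^ (2 * k) - F k V d u
    unfold F
    by_cases h : mz d u ≤ (2 * d) ^ (-V)
    · rw [if_neg (not_lt.2 h), if_pos h, sub_self]
    · rw [if_pos (not_le.1 h), if_neg h, sub_zero]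
  · exact ((TMA.cont hd1).rpow_const fun _ => Or.inr (by positivity)).intervalIntegrable _ _
  · exact F_ii hk hd hd1 _ _

theorem t (hL : S_LLN2) (hS : S_SUB) (hF : S_FUB) (hA : S_APOS) : Pool.Agent.H6F.S_MAXL2 := by
  intro d hd k V θ ε hV hVk hθ hk2 hε
  have hk : 0 < k := hV.trans hVk
  obtain ⟨ha, -⟩ := hA k
  obtain ⟨ε', hε'⟩ : ∃ ε', ε' = min (ε / 2) (1 / 4) := ⟨_, rfl⟩
  have hε'0 : 0 < ε' := by rw [hε']; positivity
  have hε'1 : ε' ≤ ε / 2 := by rw [hε']; exact min_le_left _ _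
  have hε'2 : ε' ≤ 1 / 4 := by rw [hε']; exact min_le_right _ _
  have hsq : 0 < (k - V) ^ 2 := by
    have : 0 < k - V := by linarith
    positivity
  have ev1 := hL d hd k θ ε' hk hθ hk2 hε'0
  have ev2 := hS d hd k V hV hVk
  have ev3 := (Ev.win (D := θ) (c := 1) (e := 1 / 2) one_pos (by norm_num)).app hd
  have ev4 := (Ev.small (C := 2 ^ ((k - V) ^ 2)) (c := (k - V) ^ 2) (e := ε / 8 * (aC (k : ℂ)).re)
    hsq (by positivity)).app hd
  have ev5 := (Ev.of_le (d := 1 / 16) (by norm_num)).app hd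
  filter_upwards [ev1, ev2, ev3, ev4, ev5, hd.pos, eventually_gt_atTop 0] with T h1 h2 h3 h4 h5 h6 hT
  obtain ⟨δ, hδ⟩ : ∃ δ, δ = d T := ⟨_, rfl⟩
  rw [← hδ] at h1 h2 h3 h4 h5 h6 ⊢
  obtain ⟨H, hH⟩ : ∃ H, H = (2 * δ) ^ (-θ) := ⟨_, rfl⟩
  rw [← hH] at h1 ⊢
  have hH0 : 0 < H := by rw [hH]; positivity
  have hHT : H ≤ T ^ ((1 : ℝ) / 2) := by
    rw [one_mul] at h3
    refine le_trans ?_ h3
    rw [hH]
    exact Real.rpow_le_rpow_of_nonpos h6 (by linarith) (by linarith)
  have hM : 0 < M k δ := by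
    unfold M
    positivity
  -- the mean value of the truncated average
  have hmean : (1 / T) * (∫ t in (0 : ℝ)..T, avT k V δ H t) ≤ (2 * δ) ^ (V ^ 2 - 2 * k * V) := by
    have e1 := (hF (F k V δ) ((2 * δ) ^ (-(2 * k * V))) T H (F_meas h5)
      (fun u => F_bd hk h6 u) hT hH0).1
    have e2 : (1 / T) * (∫ t in (0 : ℝ)..T, avT k V δ H t) =
        (1 / H) * (∫ x in (0 : ℝ)..H, (1 / T) * ∫ t in (0 : ℝ)..T, F k V δ (t + x)) := e1
    rw [e2]
    have e3 : ‖∫ x in (0 : ℝ)..H, (1 / T) * ∫ t in (0 : ℝ)..T, F k V δ (t + x)‖ ≤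
        (2 * δ) ^ (V ^ 2 - 2 * k * V) * |H - 0| := by
      refine intervalIntegral.norm_integral_le_of_norm_le_const fun x hx => ?_
      rw [Set.uIoc_of_le hH0.le] at hx
      have e4 : 0 ≤ (1 / T) * ∫ t in (0 : ℝ)..T, F k V δ (t + x) :=
        mul_nonneg (by positivity)
          (intervalIntegral.integral_nonneg hT.le fun u _ => (F_bd hk h6 _).1)
      rw [Real.norm_of_nonneg e4]
      exact h2 x hx.1.le (hx.2.trans hHT)
    rw [sub_zero, abs_of_pos hH0] at e3
    have e5 := (le_abs_self _).trans e3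
    calc (1 / H) * (∫ x in (0 : ℝ)..H, (1 / T) * ∫ t in (0 : ℝ)..T, F k V δ (t + x))
        ≤ (1 / H) * ((2 * δ) ^ (V ^ 2 - 2 * k * V) * H) :=
          mul_le_mul_of_nonneg_left e5 (by positivity)
      _ = (2 * δ) ^ (V ^ 2 - 2 * k * V) := by field_simp
  -- it is small
  have hsmall : (2 * δ) ^ (V ^ 2 - 2 * k * V) ≤ ε / 8 * M k δ := by
    have e1 : (2 * δ) ^ ((k - V) ^ 2) ≤ ε / 8 * (aC (k : ℂ)).re := by
      rw [Real.mul_rpow (by norm_num) h6.le]
      exact h4
    have e2 : (2 * δ) ^ (V ^ 2 - 2 * k * V) = (2 * δ) ^ ((k - V) ^ 2) * (2 * δ) ^ (-(k ^ 2)) := by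
      rw [← Real.rpow_add (by positivity)]
      congr 1
      ring
    rw [e2]
    unfold M
    calc (2 * δ) ^ ((k - V) ^ 2) * (2 * δ) ^ (-(k ^ 2)) ≤
          (ε / 8 * (aC (k : ℂ)).re) * (2 * δ) ^ (-(k ^ 2)) :=
          mul_le_mul_of_nonneg_right e1 (by positivity)
      _ = ε / 8 * ((aC (k : ℂ)).re * (2 * δ) ^ (-(k ^ 2))) := by ring
  -- Markov
  have hcont := avT_cont (H := H) (V := V) hk h6 h5
  have hmark : volume {t : ℝ | 0 ≤ t ∧ t ≤ T ∧ M k δ / 4 ≤ avT k V δ H t} ≤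
      ENNReal.ofReal (ε / 2 * T) := by
    have e1 := mul_meas_ge_le_integral_of_nonneg (μ := volume.restrict (Set.Icc 0 T))
      (f := avT k V δ H) (Eventually.of_forall fun t => avT_nn hk h6 hH0 t)
      (hcont.continuousOn.integrableOn_compact isCompact_Icc) (M k δ / 4)
    have e2 : ∫ t in Set.Icc 0 T, avT k V δ H t = ∫ t in (0 : ℝ)..T, avT k V δ H t := by
      rw [integral_Icc_eq_integral_Ioc, intervalIntegral.integral_of_le hT.le]
    rw [e2] at e1
    have e3 : ∫ t in (0 : ℝ)..T, avT k V δ H t ≤ ε / 8 * M k δ * T := by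
      have := hmean.trans hsmall
      rw [one_div, inv_mul_le_iff₀ hT] at this
      linarith
    have e4 : (volume.restrict (Set.Icc 0 T)).real {t | M k δ / 4 ≤ avT k V δ H t} ≤ ε / 2 * T := by
      have := e1.trans e3
      have h7 : M k δ / 4 * (volume.restrict (Set.Icc 0 T)).real {t | M k δ / 4 ≤ avT k V δ H t} ≤
          M k δ / 4 * (ε / 2 * T) := by
        refine this.trans (le_of_eq ?_)
        ring
      exact le_of_mul_le_mul_left h7 (by positivity)
    have e5 : volume {t : ℝ | 0 ≤ t ∧ t ≤ T ∧ M k δ / 4 ≤ avT k V δ H t} =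
        (volume.restrict (Set.Icc 0 T)) {t | M k δ / 4 ≤ avT k V δ H t} := by
      rw [Measure.restrict_apply (measurableSet_le measurable_const hcont.measurable)]
      congr 1
      ext t
      simp only [Set.mem_setOf_eq, Set.mem_inter_iff, Set.mem_Icc]
      tauto
    rw [e5, ← ENNReal.ofReal_toReal (measure_ne_top _ _)]
    exact ENNReal.ofReal_le_ofReal e4
  -- the union
  have hsub : {t : ℝ | 0 ≤ t ∧ t ≤ T ∧ (1 / H) * (∫ u in t..(t + H),
      (if (2 * δ) ^ (-V) < mz δ u then mz δ u ^ (2 * k) else 0)) < (1 / 2) * M k δ} ⊆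
      {t : ℝ | 0 ≤ t ∧ t ≤ T ∧ ε' * M k δ < |av k δ H t - M k δ|} ∪
      {t : ℝ | 0 ≤ t ∧ t ≤ T ∧ M k δ / 4 ≤ avT k V δ H t} := by
    rintro t ⟨t0, tT, ht⟩
    rw [split hk h6 h5] at ht
    by_contra hcon
    rw [Set.mem_union, not_or] at hcon
    obtain ⟨c1, c2⟩ := hcon
    have c1' : |av k δ H t - M k δ| ≤ ε' * M k δ := by
      by_contra hc
      exact c1 ⟨t0, tT, not_le.1 hc⟩
    have c2' : avT k V δ H t < M k δ / 4 := by
      by_contra hc
      exact c2 ⟨t0, tT, not_lt.1 hc⟩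
    have c3 := (abs_le.1 c1').1
    have c4 : ε' * M k δ ≤ 1 / 4 * M k δ := mul_le_mul_of_nonneg_right hε'2 hM.le
    linarith
  calc _ ≤ _ := measure_mono hsub
    _ ≤ _ := measure_union_le _ _
    _ ≤ ENNReal.ofReal (ε' * T) + ENNReal.ofReal (ε / 2 * T) := add_le_add h1 hmark
    _ = ENNReal.ofReal (ε' * T + ε / 2 * T) :=
        (ENNReal.ofReal_add (by positivity) (by positivity)).symm
    _ ≤ ENNReal.ofReal (ε * T) := by
        refine ENNReal.ofReal_le_ofReal ?_
        have := mul_le_mul_of_nonneg_right hε'1 hT.le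
        linarith

end Pool.Agent.H6F.MAXL2
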