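import Pool.Agent.H6F.Stm2
import Pool.Agent.H6F.NEAR
import Pool.Agent.N748.MG.TMA

/-!
# Stub NEAR2 of project H6F: the near part of the second moment of the truncated averages with barriers
-/

set_option autoImplicit false

namespace Pool.Agent.H6F.NEAR2

open Filter MeasureTheory Topology
open Pool.Agent.N748.MG Pool.Agent.N748.MJ Pool.Agent.H6F

lemma F_le {k V d u : ℝ} (hk : 0 ≤ k) (hd : 0 < d) : F k V d u ≤ ((2 * d) ^ (-V)) ^ (2 * k) := by
  unfold F
  split_ifs with h
  · exact Real.rpow_le_rpow (norm_nonneg _) h (by linarith)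
  · exact Real.rpow_nonneg (Real.rpow_nonneg (by linarith) _) _

lemma F_meas {k V d : ℝ} (hd : d ≤ 1 / 16) : Measurable (F k V d) := by
  have h1 : Measurable fun u : ℝ => mz d u := (TMA.cont hd).measurable
  unfold F
  exact Measurable.ite (measurableSet_le h1 measurable_const) (h1.pow_const _) measurable_const

lemma A_cont {b u d : ℝ} (hb : 0 ≤ b) (hd : d ≤ 1 / 16) : Continuous fun t => A b u d t := by
  have h1 : Continuous (fun t : ℝ => yb b d t) := by
    unfold yb
    exact continuous_const.max ((TMA.cont hd).rpow_const fun _ => Or.inr (by linarith))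
  unfold A
  refine continuous_const.mul ?_
  refine intervalIntegral.continuous_parametric_intervalIntegral_of_continuous' (f := fun t v => yb b d (t + v)) ?_ _ _
  exact h1.comp (continuous_fst.add continuous_snd)

lemma iiB {g : ℝ → ℝ} {B : ℝ} (hg : Measurable g) (hB : ∀ u, 0 ≤ g u ∧ g u ≤ B) (a b : ℝ) :
    IntervalIntegrable g volume a b := by
  rw [intervalIntegrable_iff]
  refine Measure.integrableOn_of_bounded (M := B) (by simp) hg.aestronglyMeasurable ?_
  refine Eventually.of_forall fun u => ?_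
  rw [Real.norm_of_nonneg (hB u).1]
  exact (hB u).2

lemma avg_mono {T : ℝ} (hT : 0 < T) {f g : ℝ → ℝ} (hf : ∀ t, 0 ≤ f t) (hfg : ∀ t, f t ≤ g t)
    (hg : IntervalIntegrable g volume 0 T) :
    (1 / T) * (∫ t in (0:ℝ)..T, f t) ≤ (1 / T) * ∫ t in (0:ℝ)..T, g t := by
  refine mul_le_mul_of_nonneg_left ?_ (by positivity)
  rw [intervalIntegral.integral_of_le hT.le, intervalIntegral.integral_of_le hT.le]
  exact integral_mono_of_nonneg (Eventually.of_forall hf) hg.1 (Eventually.of_forall hfg)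

lemma Fb_nonneg (k V : ℝ) (n m : ℕ) (η d t : ℝ) : 0 ≤ Fb k V n m η d t := by
  unfold Fb
  split_ifs
  · exact NEAR.F_nonneg _ _ _ _
  · exact le_rfl

lemma Fb_le (k V : ℝ) (n m : ℕ) (η d t : ℝ) : Fb k V n m η d t ≤ F k V d t := by
  unfold Fb
  split_ifs
  · exact le_rfl
  · exact NEAR.F_nonneg _ _ _ _

/-- the pair with barriers, by one barrier -/
lemma pair_le {k V : ℝ} {n m : ℕ} {η d s t : ℝ} {i : ℕ} (hi : 1 ≤ i) (hin : i ≤ n) :
    Fb k V n m η d s * Fb k V n m η d t ≤
      if A (k / m) ((i:ℝ) / n) d s ≤ X k (k / m) ((i:ℝ) / n) η d then F k V d s * F k V d t else 0 := by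
  split_ifs with h
  · exact mul_le_mul (Fb_le _ _ _ _ _ _ _) (Fb_le _ _ _ _ _ _ _) (Fb_nonneg _ _ _ _ _ _ _) (NEAR.F_nonneg _ _ _ _)
  · have h0 : Fb k V n m η d s = 0 := by
      unfold Fb
      rw [if_neg]
      intro hb
      exact h (hb i hi hin)
    rw [h0, zero_mul]

/-- the difference, by the sum over the barriers -/
lemma diff_le {k V : ℝ} {n m : ℕ} {η d t : ℝ} :
    F k V d t - Fb k V n m η d t ≤ ∑ i ∈ Finset.Icc 1 n,
      (if A (k / m) ((i:ℝ) / n) d t ≤ X k (k / m) ((i:ℝ) / n) η d then 0 else F k V d t) := by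
  have h0 : ∀ i ∈ Finset.Icc 1 n,
      0 ≤ (if A (k / m) ((i:ℝ) / n) d t ≤ X k (k / m) ((i:ℝ) / n) η d then 0 else F k V d t) := by
    intro i _
    split_ifs
    · exact le_rfl
    · exact NEAR.F_nonneg _ _ _ _
  by_cases hb : Bar k n m η d t
  · have e : Fb k V n m η d t = F k V d t := by
      unfold Fb
      rw [if_pos hb]
    rw [e, sub_self]
    exact Finset.sum_nonneg h0
  · have e : Fb k V n m η d t = 0 := by
      unfold Fb
      rw [if_neg hb]
    rw [e, sub_zero]
    unfold Bar at hb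
    push Not at hb
    obtain ⟨i, hi1, hi2, hi3⟩ := hb
    refine le_trans ?_ (Finset.single_le_sum h0 (Finset.mem_Icc.2 ⟨hi1, hi2⟩))
    rw [if_neg (not_le.2 hi3)]

theorem t (h1 : S_BAR2) (h2 : S_NEARP) (h3 : S_BAR1) : S_NEAR2 := by
  intro d hd k V θ hk hV hθ hkθ
  obtain ⟨κ, hκ⟩ : ∃ κ, κ = min θ (1 + θ - k ^ 2) := ⟨_, rfl⟩
  have hκ0 : 0 < κ := by
    rw [hκ]
    exact lt_min hθ (by linarith)
  have hκ1 : κ ≤ θ := by
    rw [hκ]
    exact min_le_left _ _
  have hκ2 : κ ≤ 1 + θ - k ^ 2 := by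
    rw [hκ]
    exact min_le_right _ _
  obtain ⟨n, hn⟩ := exists_nat_gt (16 * k ^ 2 / κ + 1)
  obtain ⟨m, hm⟩ := exists_nat_gt (16 * k ^ 2 / κ + k ^ 2 + 4 * k ^ 2 + k + 1)
  have hq : 0 < 16 * k ^ 2 / κ := by positivity
  have hnr : (0:ℝ) < n := by linarith
  have hk2 : 0 < k ^ 2 := by positivity
  have hmr : (0:ℝ) < m := by linarith
  have hn0 : 0 < n := by exact_mod_cast hnr
  have hm0 : 1 ≤ m := by exact_mod_cast hmr
  have hn1 : 2 * k ^ 2 / n ≤ κ / 8 := by
    rw [div_le_iff₀ hnr]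
    have h4 : 16 * k ^ 2 / κ ≤ n := by linarith
    rw [div_le_iff₀ hκ0] at h4
    linarith
  have hm1 : 2 * k ^ 2 / m ≤ κ / 8 := by
    rw [div_le_iff₀ hmr]
    have h4 : 16 * k ^ 2 / κ ≤ m := by linarith
    rw [div_le_iff₀ hκ0] at h4
    linarith
  have hm2 : k ^ 2 < m := by linarith
  have hm3 : 4 * k * (k / m) ≤ 1 := by
    rw [← mul_div_assoc, div_le_one hmr]
    linarith
  have hm4 : k / m ≤ 1 := by
    rw [div_le_one hmr]
    linarith
  have hm5 : 0 < k / m := by positivity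
  obtain ⟨η, hη⟩ : ∃ η, η = κ / (8 * m) := ⟨_, rfl⟩
  have hη0 : 0 < η := by
    rw [hη]
    positivity
  have hη1 : m * η = κ / 8 := by
    rw [hη]
    field_simp
  obtain ⟨δ, hδ⟩ : ∃ δ, δ = min (κ / 4) (η / 4) := ⟨_, rfl⟩
  have hδ0 : 0 < δ := by
    rw [hδ]
    positivity
  have hδ1 : δ ≤ κ / 4 := by
    rw [hδ]
    exact min_le_left _ _
  have hδ2 : δ ≤ η / 4 := by
    rw [hδ]
    exact min_le_right _ _
  refine ⟨n, m, η, δ, hδ0, ?_⟩
  have hu : ∀ i : ℕ, i ≤ n → (0:ℝ) ≤ (i:ℝ) / n ∧ (i:ℝ) / n ≤ 1 := by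
    intro i hi
    refine ⟨by positivity, ?_⟩
    rw [div_le_one hnr]
    exact_mod_cast hi
  -- the constants
  have hP : ∀ i : ℕ, ∃ C : ℝ, 0 < C ∧ ∀ᶠ T : ℝ in atTop, i ≤ n → ∀ x y : ℝ, 0 ≤ x → x ≤ T ^ ((1:ℝ) / 4) → 0 ≤ y →
      y ≤ T ^ ((1:ℝ) / 4) → |y - x| ≤ (2 * d T) ^ ((i:ℝ) / n) →
      (1 / T) * (∫ t in (0:ℝ)..T, (if A (k / m) ((i:ℝ) / n) (d T) (t + x) ≤ X k (k / m) ((i:ℝ) / n) η (d T) then
        F k V (d T) (t + x) * F k V (d T) (t + y) else 0)) ≤
      C * (2 * d T) ^ (-(2 * k ^ 2 - k ^ 2 * ((i:ℝ) / n) + 2 * k ^ 2 / m + m * η)) *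
        G (d T) (y - x) ^ (-(2 * k ^ 2)) := by
    intro i
    by_cases hi : i ≤ n
    · obtain ⟨C, hC, hCe⟩ := h1 d hd k V ((i:ℝ) / n) η m hk hV (hu i hi).1 (hu i hi).2 hη0 hm0 hm2
      exact ⟨C, hC, hCe.mono fun T hT _ => hT⟩
    · exact ⟨1, one_pos, Eventually.of_forall fun T h => absurd h hi⟩
  choose C hC hCe using hP
  obtain ⟨C0, hC0, hC0e⟩ := h2 d hd k V k hk le_rfl hV
  obtain ⟨S, hS⟩ : ∃ S, S = ∑ i ∈ Finset.range (n + 1), 2 * (C i + C0) := ⟨_, rfl⟩
  have hS0 : 0 ≤ S := by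
    rw [hS]
    exact Finset.sum_nonneg fun i _ => by linarith [hC i]
  have hall := (Filter.eventually_all_finset (Finset.range (n + 1))).2 fun i _ => hCe i
  have hB1 : ∀ᶠ T : ℝ in atTop, ∀ i ∈ Finset.Icc 1 n, ∀ x : ℝ, 0 ≤ x → x ≤ T ^ ((1:ℝ) / 4) →
      (1 / T) * (∫ t in (0:ℝ)..T, (if A (k / m) ((i:ℝ) / n) (d T) (t + x) ≤ X k (k / m) ((i:ℝ) / n) η (d T) then 0
        else F k V (d T) (t + x))) ≤ (2 * d T) ^ (-(k ^ 2) + η / 2) := by
    rw [Filter.eventually_all_finset]
    intro i hi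
    have hi' := Finset.mem_Icc.1 hi
    exact h3 d hd k V (k / m) ((i:ℝ) / n) η hk hV hm5 hm4 hm3 (hu i hi'.2).1 (hu i hi'.2).2 hη0
  have ev1 : ∀ᶠ T : ℝ in atTop, (d T) ^ (-θ) ≤ 1 * T ^ ((1:ℝ) / 4) :=
    (Ev.win (D := θ) (c := 1) (e := 1 / 4) one_pos (by norm_num)).app hd
  have ev2 : ∀ᶠ T : ℝ in atTop, (S * 2 ^ (κ / 4)) * (d T) ^ (κ / 4) ≤ 1 :=
    (Ev.small (C := S * 2 ^ (κ / 4)) (c := κ / 4) (e := 1) (by positivity) one_pos).app hd
  have ev4 : ∀ᶠ T : ℝ in atTop, ((n:ℝ) * 2 ^ (η / 4)) * (d T) ^ (η / 4) ≤ 1 :=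
    (Ev.small (C := (n:ℝ) * 2 ^ (η / 4)) (c := η / 4) (e := 1) (by positivity) one_pos).app hd
  have ev3 : ∀ᶠ T : ℝ in atTop, d T ≤ 1 / 16 := hd.t0.eventually_le_const (by norm_num)
  filter_upwards [hall, hB1, hC0e, ev1, ev2, ev3, ev4, hd.pos, eventually_gt_atTop 0, eventually_ge_atTop 1] with
    T hall hB1 hC0e e1 e2 e3 e4 hdp hT hT1
  obtain ⟨N, hN⟩ : ∃ N, N = (2 * d T)⁻¹ := ⟨_, rfl⟩
  have h2d : 0 < 2 * d T := by positivity
  have h2d1 : 2 * d T ≤ 1 := by linarith
  have hN0 : 0 < N := by rw [hN]; positivity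
  have hN1 : 1 ≤ N := by
    rw [hN]
    exact (one_le_inv₀ h2d).2 (by linarith)
  have hpow : ∀ a : ℝ, (2 * d T) ^ (-a) = N ^ a := by
    intro a
    rw [hN, Real.inv_rpow h2d.le, Real.rpow_neg h2d.le]
  have hpow' : ∀ a : ℝ, (2 * d T) ^ a = N ^ (-a) := by
    intro a
    rw [← hpow, neg_neg]
  obtain ⟨H, hH⟩ : ∃ H, H = (2 * d T) ^ (-θ) := ⟨_, rfl⟩
  have hH0 : 0 < H := by rw [hH]; positivity
  have hHT : H ≤ T ^ ((1:ℝ) / 4) := by
    have : H ≤ (d T) ^ (-θ) := by
      rw [hH]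
      exact Real.rpow_le_rpow_of_nonpos hdp (by linarith) (by linarith)
    linarith
  have hHT2 : H ≤ T ^ ((1:ℝ) / 2) :=
    hHT.trans (Real.rpow_le_rpow_of_exponent_le hT1 (by norm_num))
  rw [← hH]
  have hFm : Measurable (F k V (d T)) := F_meas e3
  obtain ⟨B, hB⟩ : ∃ B : ℝ, B = ((2 * d T) ^ (-V)) ^ (2 * k) := ⟨_, rfl⟩
  have hFB : ∀ u, F k V (d T) u ≤ B := by
    intro u
    rw [hB]
    exact F_le hk.le hdp
  have hF0 : ∀ u, 0 ≤ F k V (d T) u := fun u => NEAR.F_nonneg _ _ _ _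
  have hB0 : 0 ≤ B := (hF0 0).trans (hFB 0)
  have hAs : ∀ (i : ℕ) (x : ℝ), MeasurableSet {t : ℝ | A (k / m) ((i:ℝ) / n) (d T) (t + x) ≤
      X k (k / m) ((i:ℝ) / n) η (d T)} := by
    intro i x
    refine measurableSet_le ?_ measurable_const
    exact ((A_cont hm5.le e3).comp (continuous_id.add continuous_const)).measurable
  constructor
  · obtain ⟨a, ha⟩ : ∃ a : ℕ → ℝ, a = fun i : ℕ => 2 * k ^ 2 + k ^ 2 * ((i:ℝ) / n) + 3 * κ / 8 := ⟨_, rfl⟩
    have hFF : ∀ x y : ℝ, IntervalIntegrable (fun t => F k V (d T) (t + x) * F k V (d T) (t + y)) volume 0 T := by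
      intro x y
      refine iiB (B := B * B) ?_ ?_ _ _
      · exact (hFm.comp (measurable_id.add_const x)).mul (hFm.comp (measurable_id.add_const y))
      · intro u
        exact ⟨mul_nonneg (hF0 _) (hF0 _), mul_le_mul (hFB _) (hFB _) (hF0 _) hB0⟩
    have hst := NEAR.step (Q := fun x y => if 1 ≤ |y - x| then 0 else
        (1 / T) * ∫ t in (0:ℝ)..T, Fb k V n m η (d T) (t + x) * Fb k V n m η (d T) (t + y)) (H := H) hH0.le
      (n := n) (K := fun i => (C i + C0) * N ^ (a i)) (ρ := fun i => N ^ (-((i:ℝ) / n)))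
      (fun i => mul_nonneg (by linarith [hC i]) (Real.rpow_nonneg hN0.le _))
      (fun i => Real.rpow_nonneg hN0.le _)
      (by
        intro x y
        split_ifs
        · exact le_rfl
        · refine mul_nonneg (by positivity) ?_
          exact intervalIntegral.integral_nonneg hT.le fun t _ =>
            mul_nonneg (Fb_nonneg _ _ _ _ _ _ _) (Fb_nonneg _ _ _ _ _ _ _))
      (by
        intro x y hx hxH hy hyH
        have hterm : ∀ i ∈ Finset.range (n + 1),
            0 ≤ (if |y - x| ≤ N ^ (-((i:ℝ) / n)) then (C i + C0) * N ^ (a i) else 0) := by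
          intro i _
          split_ifs
          · exact mul_nonneg (by linarith [hC i]) (Real.rpow_nonneg hN0.le _)
          · exact le_rfl
        split_ifs with h1
        · exact Finset.sum_nonneg hterm
        · push Not at h1
          -- one barrier
          have hone : ∀ i : ℕ, 1 ≤ i → i ≤ n → |y - x| ≤ N ^ (-((i:ℝ) / n)) →
              (1 / T) * (∫ t in (0:ℝ)..T, Fb k V n m η (d T) (t + x) * Fb k V n m η (d T) (t + y)) ≤
              C i * N ^ (2 * k ^ 2 - k ^ 2 * ((i:ℝ) / n) + 2 * k ^ 2 / m + m * η) *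
                G (d T) (y - x) ^ (-(2 * k ^ 2)) := by
            intro i hi1 hi2 hr
            have h5 := hall i (Finset.mem_range.2 (by omega)) hi2 x y hx.le (hxH.trans hHT) hy.le (hyH.trans hHT)
              (by rw [hpow']; exact hr)
            rw [hpow] at h5
            refine le_trans (avg_mono hT (fun t => mul_nonneg (Fb_nonneg _ _ _ _ _ _ _) (Fb_nonneg _ _ _ _ _ _ _))
              (fun t => pair_le hi1 hi2) ?_) h5
            refine iiB (B := B * B) ?_ ?_ _ _
            · exact Measurable.ite (hAs i x)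
                ((hFm.comp (measurable_id.add_const x)).mul (hFm.comp (measurable_id.add_const y))) measurable_const
            · intro u
              split_ifs
              · exact ⟨mul_nonneg (hF0 _) (hF0 _), mul_le_mul (hFB _) (hFB _) (hF0 _) hB0⟩
              · exact ⟨le_rfl, mul_nonneg hB0 hB0⟩
          rcases NEAR.choice h1.le hn0 with h2 | ⟨i, hi, h2, h3⟩
          · have hin : n ∈ Finset.range (n + 1) := Finset.mem_range.2 (Nat.lt_succ_self n)
            refine le_trans ?_ (Finset.single_le_sum hterm hin)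
            rw [if_pos h2]
            refine (hone n hn0 le_rfl h2).trans ?_
            have hG : G (d T) (y - x) ^ (-(2 * k ^ 2)) ≤ N ^ (2 * k ^ 2) := by
              rw [← hpow]
              refine Real.rpow_le_rpow_of_nonpos h2d ?_ (by linarith)
              unfold G
              linarith [abs_nonneg (y - x)]
            calc C n * N ^ (2 * k ^ 2 - k ^ 2 * ((n:ℝ) / n) + 2 * k ^ 2 / m + m * η) * G (d T) (y - x) ^ (-(2 * k ^ 2))
                ≤ C n * N ^ (2 * k ^ 2 - k ^ 2 * ((n:ℝ) / n) + 2 * k ^ 2 / m + m * η) * N ^ (2 * k ^ 2) :=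
                  mul_le_mul_of_nonneg_left hG (mul_nonneg (hC n).le (Real.rpow_nonneg hN0.le _))
              _ = C n * N ^ (2 * k ^ 2 - k ^ 2 * ((n:ℝ) / n) + 2 * k ^ 2 / m + m * η + 2 * k ^ 2) := by
                  rw [mul_assoc, ← Real.rpow_add hN0]
              _ ≤ (C n + C0) * N ^ (a n) := by
                  refine mul_le_mul (by linarith) ?_ (Real.rpow_nonneg hN0.le _) (by linarith [hC n])
                  refine Real.rpow_le_rpow_of_exponent_le hN1 ?_
                  rw [ha]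
                  dsimp only
                  rw [div_self hnr.ne', hη1]
                  linarith
          · have hin : i ∈ Finset.range (n + 1) := Finset.mem_range.2 (by omega)
            refine le_trans ?_ (Finset.single_le_sum hterm hin)
            rw [if_pos h2]
            have hr0 : 0 < |y - x| := (Real.rpow_pos_of_pos hN0 _).trans h3
            have hxy : x ≠ y := by
              rintro rfl
              simp at hr0
            have e5 : |y - x| ^ (-(2 * k ^ 2)) ≤ N ^ (2 * k ^ 2 * (((i:ℝ) + 1) / n)) := by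
              calc |y - x| ^ (-(2 * k ^ 2)) ≤ (N ^ (-(((i:ℝ) + 1) / n))) ^ (-(2 * k ^ 2)) :=
                    Real.rpow_le_rpow_of_nonpos (Real.rpow_pos_of_pos hN0 _) h3.le (by linarith)
                _ = N ^ (2 * k ^ 2 * (((i:ℝ) + 1) / n)) := by
                    rw [← Real.rpow_mul hN0.le]
                    congr 1
                    ring
            have e7 : 2 * k ^ 2 * (((i:ℝ) + 1) / n) = 2 * k ^ 2 * ((i:ℝ) / n) + 2 * k ^ 2 / n := by
              ring
            rcases Nat.eq_zero_or_pos i with hi0 | hi0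
            · have h5 := (hC0e x y (by rw [abs_of_pos hx]; exact hxH.trans hHT2)
                (by rw [abs_of_pos hy]; exact hyH.trans hHT2) h1.le).2 hxy
              rw [hpow, sub_self, mul_zero, zero_mul, zero_add] at h5
              have h6 : (1 / T) * (∫ t in (0:ℝ)..T, Fb k V n m η (d T) (t + x) * Fb k V n m η (d T) (t + y)) ≤
                  (1 / T) * (∫ t in (0:ℝ)..T, F k V (d T) (t + x) * F k V (d T) (t + y)) :=
                avg_mono hT (fun t => mul_nonneg (Fb_nonneg _ _ _ _ _ _ _) (Fb_nonneg _ _ _ _ _ _ _))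
                  (fun t => mul_le_mul (Fb_le _ _ _ _ _ _ _) (Fb_le _ _ _ _ _ _ _) (Fb_nonneg _ _ _ _ _ _ _)
                    (hF0 _)) (hFF x y)
              refine (h6.trans h5).trans ?_
              calc C0 * N ^ (2 * k ^ 2) * |y - x| ^ (-(2 * k ^ 2)) ≤
                  C0 * N ^ (2 * k ^ 2) * N ^ (2 * k ^ 2 * (((i:ℝ) + 1) / n)) :=
                    mul_le_mul_of_nonneg_left e5 (mul_nonneg hC0.le (Real.rpow_nonneg hN0.le _))
                _ = C0 * N ^ (2 * k ^ 2 + 2 * k ^ 2 * (((i:ℝ) + 1) / n)) := by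
                    rw [mul_assoc, ← Real.rpow_add hN0]
                _ ≤ (C i + C0) * N ^ (a i) := by
                    refine mul_le_mul (by linarith [hC i]) ?_ (Real.rpow_nonneg hN0.le _) (by linarith [hC i])
                    refine Real.rpow_le_rpow_of_exponent_le hN1 ?_
                    rw [ha, e7, hi0]
                    dsimp only
                    rw [Nat.cast_zero, zero_div]
                    linarith
            · refine (hone i hi0 hi.le h2).trans ?_
              have hG : G (d T) (y - x) ^ (-(2 * k ^ 2)) ≤ N ^ (2 * k ^ 2 * (((i:ℝ) + 1) / n)) := by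
                refine le_trans ?_ e5
                refine Real.rpow_le_rpow_of_nonpos hr0 ?_ (by linarith)
                unfold G
                linarith
              calc C i * N ^ (2 * k ^ 2 - k ^ 2 * ((i:ℝ) / n) + 2 * k ^ 2 / m + m * η) *
                    G (d T) (y - x) ^ (-(2 * k ^ 2))
                  ≤ C i * N ^ (2 * k ^ 2 - k ^ 2 * ((i:ℝ) / n) + 2 * k ^ 2 / m + m * η) *
                    N ^ (2 * k ^ 2 * (((i:ℝ) + 1) / n)) :=
                    mul_le_mul_of_nonneg_left hG (mul_nonneg (hC i).le (Real.rpow_nonneg hN0.le _))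
                _ = C i * N ^ (2 * k ^ 2 - k ^ 2 * ((i:ℝ) / n) + 2 * k ^ 2 / m + m * η +
                    2 * k ^ 2 * (((i:ℝ) + 1) / n)) := by
                    rw [mul_assoc, ← Real.rpow_add hN0]
                _ ≤ (C i + C0) * N ^ (a i) := by
                    refine mul_le_mul (by linarith) ?_ (Real.rpow_nonneg hN0.le _) (by linarith [hC i])
                    refine Real.rpow_le_rpow_of_exponent_le hN1 ?_
                    rw [ha, e7, hη1]
                    dsimp only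
                    linarith)
    have hfin : H * ∑ i ∈ Finset.range (n + 1), 2 * ((C i + C0) * N ^ (a i)) * N ^ (-((i:ℝ) / n)) ≤
        H * (S * (N ^ (2 * k ^ 2 - 5 * κ / 8) * H)) := by
      refine mul_le_mul_of_nonneg_left ?_ hH0.le
      rw [hS, Finset.sum_mul]
      refine Finset.sum_le_sum fun i hi => ?_
      have hi' : i ≤ n := Nat.lt_succ_iff.1 (Finset.mem_range.1 hi)
      have hui := hu i hi'
      have e6 : N ^ (a i) * N ^ (-((i:ℝ) / n)) ≤ N ^ (2 * k ^ 2 - 5 * κ / 8) * H := by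
        rw [hH, hpow, ← Real.rpow_add hN0, ← Real.rpow_add hN0]
        refine Real.rpow_le_rpow_of_exponent_le hN1 ?_
        rw [ha]
        dsimp only
        nlinarith [mul_nonneg hui.1 (by linarith : 0 ≤ 1 + θ - k ^ 2 - κ),
          mul_nonneg (by linarith [hui.2] : 0 ≤ 1 - (i:ℝ) / n) (by linarith : 0 ≤ θ - κ)]
      calc 2 * ((C i + C0) * N ^ (a i)) * N ^ (-((i:ℝ) / n)) =
            2 * (C i + C0) * (N ^ (a i) * N ^ (-((i:ℝ) / n))) := by
            ring
        _ ≤ 2 * (C i + C0) * (N ^ (2 * k ^ 2 - 5 * κ / 8) * H) :=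
            mul_le_mul_of_nonneg_left e6 (by linarith [hC i])
    have hS1 : S * N ^ (-(κ / 4)) ≤ 1 := by
      have : N ^ (-(κ / 4)) = 2 ^ (κ / 4) * (d T) ^ (κ / 4) := by
        rw [← Real.mul_rpow (by norm_num) hdp.le, hpow']
      rw [this, ← mul_assoc]
      exact e2
    calc 1 / H ^ 2 * _ ≤ 1 / H ^ 2 * (H * (S * (N ^ (2 * k ^ 2 - 5 * κ / 8) * H))) :=
          mul_le_mul_of_nonneg_left (hst.trans hfin) (by positivity)
      _ = (S * N ^ (-(κ / 4))) * N ^ (2 * k ^ 2 - 3 * κ / 8) := by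
          have e7 : N ^ (2 * k ^ 2 - 5 * κ / 8) = N ^ (-(κ / 4)) * N ^ (2 * k ^ 2 - 3 * κ / 8) := by
            rw [← Real.rpow_add hN0]
            congr 1
            ring
          rw [e7]
          field_simp
      _ ≤ 1 * N ^ (2 * k ^ 2 - 3 * κ / 8) :=
          mul_le_mul_of_nonneg_right hS1 (Real.rpow_nonneg hN0.le _)
      _ ≤ (2 * d T) ^ (-(2 * k ^ 2) + δ) := by
          rw [one_mul, hpow']
          refine Real.rpow_le_rpow_of_exponent_le hN1 ?_
          linarith
  · intro x hx hxH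
    have hxT := hxH.trans hHT
    have hi : ∀ i : ℕ, IntervalIntegrable (fun t => if A (k / m) ((i:ℝ) / n) (d T) (t + x) ≤
        X k (k / m) ((i:ℝ) / n) η (d T) then 0 else F k V (d T) (t + x)) volume 0 T := by
      intro i
      refine iiB (B := B) ?_ ?_ _ _
      · exact Measurable.ite (hAs i x) measurable_const (hFm.comp (measurable_id.add_const x))
      · intro u
        split_ifs
        · exact ⟨le_rfl, hB0⟩
        · exact ⟨hF0 _, hFB _⟩
    have h5 : (1 / T) * (∫ t in (0:ℝ)..T, (F k V (d T) (t + x) - Fb k V n m η (d T) (t + x))) ≤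
        (1 / T) * (∫ t in (0:ℝ)..T, ∑ i ∈ Finset.Icc 1 n, (if A (k / m) ((i:ℝ) / n) (d T) (t + x) ≤
        X k (k / m) ((i:ℝ) / n) η (d T) then 0 else F k V (d T) (t + x))) := by
      refine avg_mono hT (fun t => sub_nonneg.2 (Fb_le _ _ _ _ _ _ _)) (fun t => diff_le) ?_
      exact ⟨integrable_finsetSum _ fun i _ => (hi i).1, integrable_finsetSum _ fun i _ => (hi i).2⟩
    rw [intervalIntegral.integral_finsetSum fun i _ => hi i, Finset.mul_sum] at h5
    have h7 : ∑ i ∈ Finset.Icc 1 n, (1 / T) * (∫ t in (0:ℝ)..T, (if A (k / m) ((i:ℝ) / n) (d T) (t + x) ≤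
        X k (k / m) ((i:ℝ) / n) η (d T) then 0 else F k V (d T) (t + x))) ≤
        ∑ _i ∈ Finset.Icc 1 n, (2 * d T) ^ (-(k ^ 2) + η / 2) :=
      Finset.sum_le_sum fun i hi => hB1 i hi x hx hxT
    rw [Finset.sum_const, Nat.card_Icc, Nat.add_sub_cancel, nsmul_eq_mul] at h7
    refine (h5.trans h7).trans ?_
    have h8 : (n:ℝ) * (2 * d T) ^ (η / 4) ≤ 1 := by
      rw [Real.mul_rpow (by norm_num) hdp.le, ← mul_assoc]
      exact e4
    calc (n:ℝ) * (2 * d T) ^ (-(k ^ 2) + η / 2) = ((n:ℝ) * (2 * d T) ^ (η / 4)) * (2 * d T) ^ (-(k ^ 2) + η / 4) := by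
          rw [mul_assoc, ← Real.rpow_add h2d]
          congr 2
          ring
      _ ≤ 1 * (2 * d T) ^ (-(k ^ 2) + η / 4) := mul_le_mul_of_nonneg_right h8 (Real.rpow_nonneg h2d.le _)
      _ ≤ (2 * d T) ^ (-(k ^ 2) + δ) := by
          rw [one_mul]
          exact Real.rpow_le_rpow_of_exponent_ge h2d h2d1 (by linarith)

end Pool.Agent.H6F.NEAR2
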