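import Pool.Agent.H6F.Stm2

set_option autoImplicit false

/-! Proof of `S_STAR`. -/

namespace Pool.Agent.H6F.STAR

open MeasureTheory Filter Topology
open Pool.Agent.H6F

/-- the box -/
def Bx (n : ℕ) (w : ℝ) : Set (Fin n → ℝ) := Set.univ.pi fun _ => Set.Icc (-w) w

lemma bx_mem {n : ℕ} {w : ℝ} {h : Fin n → ℝ} : h ∈ Bx n w ↔ ∀ j, -w ≤ h j ∧ h j ≤ w := by
  constructor
  · intro hh j
    exact hh j (Set.mem_univ j)
  · intro hh j _
    exact hh j

lemma bx_compact (n : ℕ) (w : ℝ) : IsCompact (Bx n w) := isCompact_univ_pi fun _ => isCompact_Icc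

lemma bx_restrict (n : ℕ) (w : ℝ) : (volume : Measure (Fin n → ℝ)).restrict (Bx n w) =
    Measure.pi fun _ : Fin n => (volume : Measure ℝ).restrict (Set.Icc (-w) w) := by
  unfold Bx
  rw [volume_pi, Measure.restrict_pi_pi]

lemma G_pos {d : ℝ} (hd : 0 < d) (h : ℝ) : 0 < G d h := by unfold G; positivity

lemma G_cont (d : ℝ) : Continuous (G d) := by unfold G; fun_prop

lemma Gp_cont {d : ℝ} (hd : 0 < d) (s : ℝ) : Continuous fun h => G d h ^ (-s) :=
  (G_cont d).rpow_const fun h => Or.inl (G_pos hd h).ne'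

lemma G_even (d v : ℝ) : G d (-v) = G d v := by unfold G; rw [abs_neg]

lemma half {d s a : ℝ} (hd : 0 < d) (hs0 : 0 ≤ s) (hs : s < 1) (ha : 0 ≤ a) :
    ∫ v in (0:ℝ)..a, G d v ^ (-s) ≤ a ^ (1 - s) / (1 - s) := by
  have h1 : ∫ v in (0:ℝ)..a, G d v ^ (-s) ≤ ∫ v in (0:ℝ)..a, v ^ (-s) := by
    refine intervalIntegral.integral_mono_on_of_le_Ioo ha ((Gp_cont hd s).intervalIntegrable _ _)
      (intervalIntegral.intervalIntegrable_rpow' (by linarith)) ?_
    intro v hv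
    refine Real.rpow_le_rpow_of_nonpos hv.1 ?_ (by linarith)
    unfold G
    rw [abs_of_pos hv.1]
    linarith
  refine h1.trans_eq ?_
  rw [integral_rpow (Or.inl (by linarith)), Real.zero_rpow (by linarith)]
  rw [sub_zero, show -s + 1 = 1 - s by ring]

lemma full {d s a : ℝ} (hd : 0 < d) (hs0 : 0 ≤ s) (hs : s < 1) (ha : 0 ≤ a) :
    ∫ v in (-a)..a, G d v ^ (-s) ≤ 2 * (a ^ (1 - s) / (1 - s)) := by
  have h1 : ∫ v in (-a)..a, G d v ^ (-s) = (∫ v in (-a)..0, G d v ^ (-s)) + ∫ v in (0:ℝ)..a, G d v ^ (-s) :=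
    (intervalIntegral.integral_add_adjacent_intervals ((Gp_cont hd s).intervalIntegrable _ _)
      ((Gp_cont hd s).intervalIntegrable _ _)).symm
  have h2 : ∫ v in (-a)..0, G d v ^ (-s) = ∫ v in (0:ℝ)..a, G d v ^ (-s) := by
    have := intervalIntegral.integral_comp_neg (a := 0) (b := a) (fun v => G d v ^ (-s))
    simp only [G_even, neg_zero] at this
    exact this.symm
  rw [h1, h2]
  have := half hd hs0 hs ha
  linarith

lemma sec_nonneg {d : ℝ} (hd : 0 < d) (s w x : ℝ) : 0 ≤ ∫ u in Set.Icc (-w) w, G d (x - u) ^ (-s) :=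
  integral_nonneg fun _ => Real.rpow_nonneg (G_pos hd _).le _

lemma sec_le {d s w : ℝ} (hd : 0 < d) (hs0 : 0 ≤ s) (hs : s < 1) (hw : 0 < w) {x : ℝ} (hx : x ∈ Set.Icc (-w) w) :
    ∫ u in Set.Icc (-w) w, G d (x - u) ^ (-s) ≤ 2 * ((2 * w) ^ (1 - s) / (1 - s)) := by
  rw [integral_Icc_eq_integral_Ioc, ← intervalIntegral.integral_of_le (by linarith)]
  have e : ∫ u in (-w)..w, G d (x - u) ^ (-s) = ∫ v in (x - w)..(x - -w), G d v ^ (-s) :=
    intervalIntegral.integral_comp_sub_left (fun v => G d v ^ (-s)) x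
  rw [e]
  refine le_trans ?_ (full hd hs0 hs (a := 2 * w) (by linarith))
  refine intervalIntegral.integral_mono_interval (by linarith [hx.1]) (by linarith) (by linarith [hx.2])
    (Eventually.of_forall fun v => ?_) ((Gp_cont hd s).intervalIntegrable _ _)
  exact Real.rpow_nonneg (G_pos hd _).le _

/-- the star with centre `j` -/
noncomputable def star {n : ℕ} (d s : ℝ) (j : Fin n) (h : Fin n → ℝ) : ℝ :=
  ∏ l, if j = l then 1 else G d (h j - h l) ^ (-s)

lemma star_succ {n : ℕ} (d s : ℝ) (j : Fin (n + 1)) (h : Fin (n + 1) → ℝ) :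
    star d s j h = ∏ i : Fin n, G d (h j - h (j.succAbove i)) ^ (-s) := by
  unfold star
  rw [Fin.prod_univ_succAbove _ j, if_pos rfl, one_mul]
  refine Finset.prod_congr rfl fun i _ => ?_
  rw [if_neg (Fin.succAbove_ne j i).symm]

lemma star_cont {n : ℕ} {d : ℝ} (hd : 0 < d) (s : ℝ) (j : Fin n) : Continuous (star (n := n) d s j) := by
  unfold star
  refine continuous_finsetProd _ fun l _ => ?_
  split_ifs
  · exact continuous_const
  · exact (Gp_cont hd s).comp ((continuous_apply j).sub (continuous_apply l))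

lemma star_nonneg {n : ℕ} {d : ℝ} (hd : 0 < d) (s : ℝ) (j : Fin n) (h : Fin n → ℝ) : 0 ≤ star d s j h := by
  unfold star
  refine Finset.prod_nonneg fun l _ => ?_
  split_ifs
  · exact zero_le_one
  · exact Real.rpow_nonneg (G_pos hd _).le _

lemma star_int {n : ℕ} {d s w : ℝ} (hd : 0 < d) (hs0 : 0 ≤ s) (hs : s < 1) (hw : 0 < w) (j : Fin (n + 1)) :
    ∫ v in Bx (n + 1) w, star d s j v ≤ 2 * w * (2 * ((2 * w) ^ (1 - s) / (1 - s))) ^ n := by
  have he := volume_preserving_piFinSuccAbove (fun _ : Fin (n + 1) => ℝ) j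
  have e1 : (MeasurableEquiv.piFinSuccAbove (fun _ : Fin (n + 1) => ℝ) j) ⁻¹' (Set.Icc (-w) w ×ˢ Bx n w) =
      Bx (n + 1) w := by
    ext h
    rw [Set.mem_preimage, Set.mem_prod, bx_mem, bx_mem]
    constructor
    · rintro ⟨a1, a2⟩ l
      rcases eq_or_ne l j with rfl | hl
      · exact a1
      · obtain ⟨i, rfl⟩ := Fin.exists_succAbove_eq hl
        exact a2 i
    · intro a
      exact ⟨a j, fun i => a _⟩
  have e2 : ∫ v in Bx (n + 1) w, star d s j v =
      ∫ q in Set.Icc (-w) w ×ˢ Bx n w, ∏ i, G d (q.1 - q.2 i) ^ (-s) := by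
    rw [← e1, ← he.setIntegral_preimage_emb (MeasurableEquiv.measurableEmbedding _)]
    refine integral_congr_ae (Eventually.of_forall fun v => ?_)
    simp only
    rw [star_succ]
    rfl
  have hc : Continuous (fun q : ℝ × (Fin n → ℝ) => ∏ i, G d (q.1 - q.2 i) ^ (-s)) := by
    refine continuous_finsetProd _ fun i _ => ?_
    exact (Gp_cont hd s).comp (continuous_fst.sub ((continuous_apply i).comp continuous_snd))
  have hI : IntegrableOn (fun q : ℝ × (Fin n → ℝ) => ∏ i, G d (q.1 - q.2 i) ^ (-s)) (Set.Icc (-w) w ×ˢ Bx n w)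
      (volume.prod volume) :=
    hc.continuousOn.integrableOn_compact (isCompact_Icc.prod (bx_compact n w))
  have e3 : ∫ q in Set.Icc (-w) w ×ˢ Bx n w, ∏ i, G d (q.1 - q.2 i) ^ (-s) =
      ∫ x in Set.Icc (-w) w, ∫ y in Bx n w, ∏ i, G d (x - y i) ^ (-s) := setIntegral_prod _ hI
  have e4 : ∀ x : ℝ, ∫ y in Bx n w, ∏ i, G d (x - y i) ^ (-s) =
      (∫ u in Set.Icc (-w) w, G d (x - u) ^ (-s)) ^ n := by
    intro x
    rw [bx_restrict, integral_fintype_prod_eq_pow (fun u => G d (x - u) ^ (-s)), Fintype.card_fin]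
  rw [e2, e3]
  simp_rw [e4]
  obtain ⟨K, hK⟩ : ∃ K : ℝ, K = 2 * ((2 * w) ^ (1 - s) / (1 - s)) := ⟨_, rfl⟩
  rw [← hK]
  have hK0 : 0 ≤ K := by
    rw [hK]
    have : 0 < 1 - s := by linarith
    positivity
  have hb : ∫ x in Set.Icc (-w) w, (∫ u in Set.Icc (-w) w, G d (x - u) ^ (-s)) ^ n ≤
      ∫ x in Set.Icc (-w) w, K ^ n := by
    refine integral_mono_of_nonneg (Eventually.of_forall fun x => pow_nonneg (sec_nonneg hd s w x) n) ?_ ?_
    · exact integrable_const _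
    · filter_upwards [ae_restrict_mem measurableSet_Icc] with x hx
      exact pow_le_pow_left₀ (sec_nonneg hd s w x) (hK ▸ sec_le hd hs0 hs hw hx) n
  refine hb.trans_eq ?_
  rw [setIntegral_const, smul_eq_mul]
  congr 1
  rw [measureReal_def, Real.volume_Icc, ENNReal.toReal_ofReal (by linarith)]
  ring

/-- a product of `m` nonnegative numbers is at most the sum of their `m`-th powers -/
lemma prod_le_sum {m : ℕ} (hm : 1 ≤ m) (f : Fin m → ℝ) (hf : ∀ i, 0 ≤ f i) : ∏ i, f i ≤ ∑ i, f i ^ m := by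
  have : Nonempty (Fin m) := ⟨⟨0, hm⟩⟩
  obtain ⟨i, hi⟩ := Finite.exists_max f
  have h1 : ∏ j, f j ≤ ∏ _j : Fin m, f i := Finset.prod_le_prod (fun j _ => hf j) fun j _ => hi j
  rw [Finset.prod_const, Finset.card_univ, Fintype.card_fin] at h1
  exact h1.trans (Finset.single_le_sum (f := fun i => f i ^ m) (fun j _ => pow_nonneg (hf j) m) (Finset.mem_univ i))

end Pool.Agent.H6F.STAR

namespace Pool.Agent.H6F.STAR

open MeasureTheory Filter Topology
open Pool.Agent.H6F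

/-- proof of `S_STAR` -/
theorem t : S_STAR := by
  intro m γ hm hγ hγm
  obtain ⟨n, rfl⟩ : ∃ n, m = n + 1 := ⟨m - 1, by omega⟩
  obtain ⟨s, hs⟩ : ∃ s : ℝ, s = γ * ((n + 1 : ℕ) : ℝ) := ⟨_, rfl⟩
  have hs0 : 0 ≤ s := by rw [hs]; positivity
  have hs1 : s < 1 := by rw [hs]; exact hγm
  have h1s : 0 < 1 - s := by linarith
  refine ⟨((n + 1 : ℕ) : ℝ) * (2 / (1 - s)) ^ n, by positivity, ?_⟩
  intro d w hd hw hw1
  have hc : Continuous (fun v : Fin (n + 1) → ℝ => ∏ i, ∏ j, (if i = j then 1 else G d (v i - v j) ^ (-γ))) :=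
    continuous_finsetProd _ fun i _ => star_cont hd γ i
  have hI : IntegrableOn (fun v : Fin (n + 1) → ℝ => ∏ i, ∏ j, (if i = j then 1 else G d (v i - v j) ^ (-γ)))
      (Bx (n + 1) w) := hc.continuousOn.integrableOn_compact (bx_compact _ w)
  refine ⟨hI, ?_⟩
  have hpt : ∀ v : Fin (n + 1) → ℝ, ∏ i, ∏ j, (if i = j then 1 else G d (v i - v j) ^ (-γ)) ≤
      ∑ i, star d s i v := by
    intro v
    refine (prod_le_sum hm (fun i => star d γ i v) fun i => star_nonneg hd γ i v).trans_eq ?_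
    refine Finset.sum_congr rfl fun i _ => ?_
    unfold star
    rw [← Finset.prod_pow]
    refine Finset.prod_congr rfl fun l _ => ?_
    split_ifs
    · exact one_pow _
    · rw [← Real.rpow_natCast, ← Real.rpow_mul (G_pos hd _).le, hs, neg_mul]
  have hsi : ∀ i : Fin (n + 1), IntegrableOn (fun v => star d s i v) (Bx (n + 1) w) := fun i =>
    (star_cont hd s i).continuousOn.integrableOn_compact (bx_compact _ w)
  have h2 : ∫ v in Bx (n + 1) w, ∏ i, ∏ j, (if i = j then 1 else G d (v i - v j) ^ (-γ)) ≤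
      ((n + 1 : ℕ) : ℝ) * (2 * w * (2 * ((2 * w) ^ (1 - s) / (1 - s))) ^ n) := by
    calc ∫ v in Bx (n + 1) w, ∏ i, ∏ j, (if i = j then 1 else G d (v i - v j) ^ (-γ))
        ≤ ∫ v in Bx (n + 1) w, ∑ i, star d s i v :=
          integral_mono hI (integrable_finsetSum _ fun i _ => hsi i) hpt
      _ = ∑ i, ∫ v in Bx (n + 1) w, star d s i v := integral_finsetSum _ fun i _ => hsi i
      _ ≤ ∑ _i : Fin (n + 1), 2 * w * (2 * ((2 * w) ^ (1 - s) / (1 - s))) ^ n :=
          Finset.sum_le_sum fun i _ => star_int hd hs0 hs1 hw i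
      _ = _ := by rw [Finset.sum_const, Finset.card_univ, Fintype.card_fin, nsmul_eq_mul]
  have h3 : (1 / (2 * w)) ^ (n + 1) * (((n + 1 : ℕ) : ℝ) * (2 * w * (2 * ((2 * w) ^ (1 - s) / (1 - s))) ^ n)) =
      ((n + 1 : ℕ) : ℝ) * (2 / (1 - s)) ^ n * ((2 * w) ^ (-s)) ^ n := by
    have e1 : (2 * w) ^ (1 - s) = 2 * w * (2 * w) ^ (-s) := by
      rw [show (1:ℝ) - s = 1 + -s by ring, Real.rpow_add (by positivity), Real.rpow_one]
    rw [e1]
    have hw' : (2 * w) ≠ 0 := by positivity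
    have h1s' : 1 - s ≠ 0 := h1s.ne'
    obtain ⟨y, hy⟩ : ∃ y : ℝ, y = (2 * w) ^ (-s) := ⟨_, rfl⟩
    rw [← hy]
    rw [pow_succ, one_div, inv_pow]
    have e2 : (2 * (2 * w * y / (1 - s))) ^ n = (2 / (1 - s)) ^ n * (2 * w) ^ n * y ^ n := by
      rw [← mul_pow, ← mul_pow]
      congr 1
      field_simp
    rw [e2]
    field_simp
  have h4 : ((2 * w) ^ (-s)) ^ n ≤ w ^ (-(γ * ((n + 1 : ℕ) : ℝ) * (((n + 1 : ℕ) : ℝ) - 1))) := by
    have e1 : w ^ (-(γ * ((n + 1 : ℕ) : ℝ) * (((n + 1 : ℕ) : ℝ) - 1))) = (w ^ (-s)) ^ n := by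
      rw [← Real.rpow_natCast (w ^ (-s)), ← Real.rpow_mul hw.le, ← hs]
      congr 1
      push_cast
      ring
    rw [e1]
    refine pow_le_pow_left₀ (Real.rpow_nonneg (by positivity) _) ?_ n
    exact Real.rpow_le_rpow_of_nonpos hw (by linarith) (by linarith)
  calc (1 / (2 * w)) ^ (n + 1) * ∫ v in Set.univ.pi (fun _ : Fin (n + 1) => Set.Icc (-w) w),
        ∏ i, ∏ j, (if i = j then 1 else G d (v i - v j) ^ (-γ))
      ≤ (1 / (2 * w)) ^ (n + 1) * (((n + 1 : ℕ) : ℝ) * (2 * w * (2 * ((2 * w) ^ (1 - s) / (1 - s))) ^ n)) :=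
        mul_le_mul_of_nonneg_left h2 (by positivity)
    _ = ((n + 1 : ℕ) : ℝ) * (2 / (1 - s)) ^ n * ((2 * w) ^ (-s)) ^ n := h3
    _ ≤ _ := mul_le_mul_of_nonneg_left h4 (by positivity)

end Pool.Agent.H6F.STAR
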