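import Pool.Agent.H6F.Stm2
import Pool.Agent.H6F.VAR

/-! Stub VAR2 of project H6F (adapted from VAR). -/

set_option autoImplicit false

namespace Pool.Agent.H6F.VAR2

open Filter MeasureTheory Topology Complex
open Pool.Agent.N748.MG Pool.Agent.N748.MJ
open Pool.Agent.H6F.VAR

lemma yb_cont {b d : ℝ} (hd : d ≤ 1 / 16) (hb : 0 ≤ b) : Continuous (yb b d) := by
  unfold yb
  exact continuous_const.max ((TMA.cont hd).rpow_const fun x => Or.inr (by positivity))

lemma A_meas {b u d : ℝ} (hd : 0 < d) (hd1 : d ≤ 1 / 16) (hb : 0 ≤ b) : Measurable (A b u d) := by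
  have hr : -(2 * d) ^ u ≤ (2 * d) ^ u := by
    have := Real.rpow_nonneg (by positivity : 0 ≤ 2 * d) u
    linarith
  unfold A
  simp_rw [intervalIntegral.integral_of_le hr]
  refine Measurable.const_mul ?_ _
  have h1 : StronglyMeasurable (fun p : ℝ × ℝ => yb b d (p.1 + p.2)) :=
    ((yb_cont hd1 hb).measurable.comp (by fun_prop)).stronglyMeasurable
  exact (h1.integral_prod_right' (ν := volume.restrict (Set.Ioc (-(2 * d) ^ u) ((2 * d) ^ u)))).measurable

lemma Bar_meas {k : ℝ} {n m : ℕ} {η d : ℝ} (hk : 0 ≤ k) (hd : 0 < d) (hd1 : d ≤ 1 / 16) :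
    MeasurableSet {t | Bar k n m η d t} := by
  have h1 : {t | Bar k n m η d t} = ⋂ i : ℕ, ⋂ _ : 1 ≤ i, ⋂ _ : i ≤ n,
      {t | A (k / m) ((i:ℝ) / n) d t ≤ X k (k / m) ((i:ℝ) / n) η d} := by
    ext t
    simp only [Set.mem_iInter, Set.mem_setOf_eq]
    rfl
  rw [h1]
  refine MeasurableSet.iInter fun i => MeasurableSet.iInter fun _ => MeasurableSet.iInter fun _ => ?_
  exact measurableSet_le (A_meas hd hd1 (by positivity)) measurable_const

lemma Fb_meas {k V : ℝ} {n m : ℕ} {η d : ℝ} (hk : 0 ≤ k) (hd : 0 < d) (hd1 : d ≤ 1 / 16) :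
    Measurable (Fb k V n m η d) := by
  classical
  have h2 : Fb k V n m η d = fun t => Set.indicator {t | Bar k n m η d t} (F k V d) t := by
    funext t
    unfold Fb
    by_cases h : Bar k n m η d t
    · rw [if_pos h, Set.indicator_of_mem (show t ∈ {t | Bar k n m η d t} from h)]
    · rw [if_neg h, Set.indicator_of_notMem (show t ∉ {t | Bar k n m η d t} from h)]
  rw [h2]
  exact (F_meas hd1).indicator (Bar_meas hk hd hd1)

lemma Fb_nn (k V : ℝ) (n m : ℕ) (η d u : ℝ) : 0 ≤ Fb k V n m η d u := by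
  unfold Fb
  split_ifs
  · exact F_nn _ _ _ _
  · exact le_rfl

lemma Fb_le (k V : ℝ) (n m : ℕ) (η d u : ℝ) : Fb k V n m η d u ≤ F k V d u := by
  unfold Fb
  split_ifs
  · exact le_rfl
  · exact F_nn _ _ _ _

theorem t (h1 : S_ONE) (h2 : S_UNI) (h3 : S_FUB) (h4 : S_FAR) (h5 : S_NEAR2) (h6 : S_APOS) (h7 : S_CONV) :
    S_VAR2 := by
  intro d hd k θ hk hθ hkθ
  obtain ⟨n, m, η, δ, hδ, hnear⟩ := h5 d hd k (2 * k + 1) θ hk (by linarith) hθ hkθ
  refine ⟨n, m, η, fun ε hε => ?_⟩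
  obtain ⟨ha, -⟩ := h6 k
  set a : ℝ := (aC (k : ℂ)).re with hadef
  set e : ℝ := min 1 (ε / 6) with he
  have he0 : 0 < e := lt_min one_pos (by positivity)
  have he1 : e ≤ 1 := min_le_left _ _
  have he2 : 6 * e ≤ ε := by
    have := min_le_right (1 : ℝ) (ε / 6)
    rw [← he] at this
    linarith
  set V : ℝ := 2 * k + 1 with hV
  have g1 := h1 d hd k V (e / 2) hk (by linarith) (by positivity)
  have g2 := h2 d hd k V e hk (by linarith) he0
  have htend : Tendsto d atTop (𝓝[>] 0) :=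
    tendsto_nhdsWithin_iff.2 ⟨hd.t0, hd.pos.mono fun T hT => hT⟩
  have g4 := htend.eventually (h4 k θ e hk hθ he0)
  have g7 := (Ev.win (D := θ) (c := 1) (e := 1 / 2) one_pos (by norm_num)).app hd
  have g8 := (Ev.small (C := 2 ^ δ) (c := δ) (e := e * a ^ 2) hδ (by positivity)).app hd
  have g8' := (Ev.small (C := 2 ^ δ) (c := δ) (e := e / 2 * a) hδ (by positivity)).app hd
  have g9 := (Ev.of_le (d := 1 / 16) (by norm_num)).app hd
  filter_upwards [g1, g2, g4, hnear, g7, g8, g8', g9, hd.pos, eventually_gt_atTop 0] with T g1 g2 g4 g5 g7 g8 g8' g9 g10 hT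
  obtain ⟨g5, g6⟩ := g5
  set δ' : ℝ := d T with hδ'
  set H : ℝ := (2 * δ') ^ (-θ) with hH
  have h2d : 0 < 2 * δ' := by positivity
  have hH0 : 0 < H := Real.rpow_pos_of_pos h2d _
  have hHT : H ≤ T ^ ((1 : ℝ) / 2) := by
    refine le_trans ?_ (g7.trans (le_of_eq (one_mul _)))
    rw [hH]
    exact Real.rpow_le_rpow_of_nonpos g10 (by linarith) (by linarith)
  have hM0 : 0 < M k δ' := by
    unfold M
    exact mul_pos ha (Real.rpow_pos_of_pos h2d _)
  have hM2 : M k δ' ^ 2 = a ^ 2 * (2 * δ') ^ (-(2 * k ^ 2)) := by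
    unfold M
    rw [mul_pow, ← Real.rpow_natCast ((2 * δ') ^ (-(k ^ 2))) 2, ← Real.rpow_mul h2d.le]
    congr 2
    push_cast
    ring
  -- the small term
  have hsm : (2 * δ') ^ (-(k ^ 2) + δ) ≤ e / 2 * M k δ' := by
    unfold M
    rw [show -(k ^ 2) + δ = δ + -(k ^ 2) by ring, Real.rpow_add h2d,
      Real.mul_rpow (by norm_num) g10.le (z := δ), ← mul_assoc]
    exact mul_le_mul_of_nonneg_right g8' (by positivity)
  set B : ℝ := ((2 * δ') ^ (-V)) ^ (2 * k) with hB
  have hB0 : 0 ≤ B := by positivity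
  have hFb : ∀ u, |F k V δ' u| ≤ B := fun u => by
    rw [abs_of_nonneg (F_nn _ _ _ _)]
    exact F_le hk.le u g10
  set g : ℝ → ℝ := Fb k V n m η δ' with hg
  have hgm : Measurable g := Fb_meas hk.le g10 g9
  have hFm : Measurable (F k V δ') := F_meas g9
  have hgn : ∀ u, 0 ≤ g u := fun u => Fb_nn _ _ _ _ _ _ _
  have hgF : ∀ u, g u ≤ F k V δ' u := fun u => Fb_le _ _ _ _ _ _ _
  have hgb : ∀ u, 0 ≤ g u ∧ g u ≤ B := fun u => ⟨hgn u, (hgF u).trans (F_le hk.le u g10)⟩
  have hgb' : ∀ u, |g u| ≤ B := fun u => by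
    rw [abs_of_nonneg (hgn u)]
    exact (hgb u).2
  have hdm : Measurable fun u => F k V δ' u - g u := hFm.sub hgm
  have hdb : ∀ u, 0 ≤ F k V δ' u - g u ∧ F k V δ' u - g u ≤ B := fun u =>
    ⟨sub_nonneg.2 (hgF u), by linarith [hgn u, F_le (k := k) (V := V) (d := δ') hk.le u g10]⟩
  have hdb' : ∀ u, |F k V δ' u - g u| ≤ B := fun u => by
    rw [abs_of_nonneg (hdb u).1]
    exact (hdb u).2
  obtain ⟨f1, f2⟩ := h3 g B T H hgm hgb hT hH0
  -- the far part
  set W : ℝ × ℝ → ℝ := fun z => if 1 ≤ |z.2 - z.1| then R k (z.2 - z.1) δ' else 0 with hW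
  have hRc := R_cont h7 (k := k) g10
  have hS : MeasurableSet {z : ℝ × ℝ | 1 ≤ |z.2 - z.1|} :=
    measurableSet_le measurable_const (by fun_prop)
  have hWm : Measurable W := by
    refine Measurable.ite hS ?_ measurable_const
    exact (hRc.comp (by fun_prop : Continuous fun z : ℝ × ℝ => z.2 - z.1)).measurable
  obtain ⟨C, hC⟩ := (isCompact_Icc (a := -H) (b := H)).exists_bound_of_continuousOn hRc.continuousOn
  have hWi : IntegrableOn W (Set.Ioc (0 : ℝ) H ×ˢ Set.Ioc (0 : ℝ) H) := by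
    refine ion (C := max C 0) hWm fun x hx y hy => ?_
    simp only [hW]
    split_ifs
    · refine le_trans ?_ (le_max_left _ _)
      exact hC (y - x) ⟨by linarith [hx.1, hx.2, hy.1, hy.2], by linarith [hx.1, hx.2, hy.1, hy.2]⟩
    · rw [abs_zero]
      exact le_max_right _ _
  have key := gen (g := g) (T := T) (H := H) (M := M k δ') (e := e) (W := W) hgm hgb hT hH0 hM0 he0 he1 f1 f2
    ?_ hWi ?_ ?_ g4 ?_
  · constructor
    · exact key.trans (mul_le_mul_of_nonneg_right he2 (sq_nonneg _))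
    · -- the second statement
      obtain ⟨f3, -⟩ := h3 (fun u => F k V δ' u - g u) B T H hdm hdb hT hH0
      rw [f3]
      have hqm := q_meas hdm hT.le
      have hqb : ∀ x, |(1 / T) * ∫ t in (0:ℝ)..T, (fun u => F k V δ' u - g u) (t + x)| ≤ B := fun x =>
        avg_le hT (hdm.comp (by fun_prop)) fun u => hdb' _
      have h8 : ∫ x in (0:ℝ)..H, (1 / T) * ∫ t in (0:ℝ)..T, (fun u => F k V δ' u - g u) (t + x) ≤
          ∫ x in (0:ℝ)..H, e / 2 * M k δ' := by
        refine intervalIntegral.integral_mono_on hH0.le (ii hqm hqb 0 H) intervalIntegrable_const fun x hx => ?_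
        exact (g6 x hx.1 hx.2).trans hsm
      rw [intervalIntegral.integral_const, sub_zero, smul_eq_mul] at h8
      have h9 := mul_le_mul_of_nonneg_left h8 (by positivity : 0 ≤ 1 / H)
      refine h9.trans ?_
      have h10 : 1 / H * (H * (e / 2 * M k δ')) = e / 2 * M k δ' := by
        field_simp
      rw [h10]
      refine mul_le_mul_of_nonneg_right ?_ hM0.le
      linarith
  · intro x hx0 hxH
    have h8 := (abs_le.1 (g1 x hx0 (hxH.trans hHT))).1
    have h9 := (g6 x hx0 hxH).trans hsm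
    have i1 : IntervalIntegrable (fun t => F k V δ' (t + x)) volume 0 T :=
      ii (hFm.comp (by fun_prop)) (fun u => hFb _) 0 T
    have i2 : IntervalIntegrable (fun t => g (t + x)) volume 0 T :=
      ii (hgm.comp (by fun_prop)) (fun u => hgb' _) 0 T
    rw [intervalIntegral.integral_sub i1 i2, mul_sub] at h9
    linarith
  · intro x hx y hy hxy
    have hx' : |x| ≤ T ^ ((1 : ℝ) / 2) := by
      rw [abs_of_nonneg hx.1]
      exact hx.2.trans hHT
    have hy' : |y| ≤ T ^ ((1 : ℝ) / 2) := by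
      rw [abs_of_nonneg hy.1]
      exact hy.2.trans hHT
    have h8 := g2 x y hx' hy'
    simp only [hW]
    rw [if_pos hxy]
    refine le_trans ?_ h8
    refine mul_le_mul_of_nonneg_left ?_ (by positivity)
    refine intervalIntegral.integral_mono_on hT.le ?_ ?_ fun t _ => ?_
    · refine ii (B := B * B) ((hgm.comp (by fun_prop)).mul (hgm.comp (by fun_prop))) (fun u => ?_) _ _
      show |g (u + x) * g (u + y)| ≤ _
      rw [abs_mul]
      exact mul_le_mul (hgb' _) (hgb' _) (abs_nonneg _) hB0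
    · refine ii (B := B * B) ((hFm.comp (by fun_prop)).mul (hFm.comp (by fun_prop))) (fun u => ?_) _ _
      show |F k V δ' (u + x) * F k V δ' (u + y)| ≤ _
      rw [abs_mul]
      exact mul_le_mul (hFb _) (hFb _) (abs_nonneg _) hB0
    · exact mul_le_mul (hgF _) (hgF _) (hgn _) (F_nn _ _ _ _)
  · intro x _ y _ hxy
    simp only [hW]
    rw [if_neg hxy]
  · refine g5.trans ?_
    rw [hM2, show -(2 * k ^ 2) + δ = δ + -(2 * k ^ 2) by ring, Real.rpow_add h2d,
      Real.mul_rpow (by norm_num) g10.le (z := δ), ← mul_assoc]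
    exact mul_le_mul_of_nonneg_right g8 (by positivity)

end Pool.Agent.H6F.VAR2
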