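import Pool.Agent.H6F.Stm2

/-!
# ZLG: zeta near the line `re s = 1` from both sides
-/

set_option autoImplicit false

namespace Pool.Agent.H6F.ZLG

open Filter MeasureTheory Topology Complex
open Pool.Agent.H6F

noncomputable def gz : ℂ → ℂ := Function.update (fun s => (s - 1) * riemannZeta s) 1 1

lemma gz_ne {s : ℂ} (hs : s ≠ 1) : gz s = (s - 1) * riemannZeta s := Function.update_of_ne hs _ _

lemma gz_one : gz 1 = 1 := Function.update_self _ _ _

lemma gz_cont : Continuous gz := by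
  rw [continuous_iff_continuousAt]
  intro s
  by_cases hs : s = 1
  · subst hs
    unfold gz
    rw [continuousAt_update_same]
    exact riemannZeta_residue_one
  · have h1 : ContinuousAt (fun s : ℂ => (s - 1) * riemannZeta s) s :=
      (continuousAt_id.sub continuousAt_const).mul (differentiableAt_riemannZeta hs).continuousAt
    refine h1.congr ?_
    filter_upwards [isOpen_ne.mem_nhds hs] with w hw
    exact (gz_ne hw).symm

lemma gz_pos {s : ℂ} (hs : 1 ≤ s.re) : 0 < ‖gz s‖ := by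
  rw [norm_pos_iff]
  by_cases h : s = 1
  · rw [h, gz_one]
    exact one_ne_zero
  · rw [gz_ne h]
    exact mul_ne_zero (sub_ne_zero.2 h) (riemannZeta_ne_zero_of_one_le_re hs)

theorem t : S_ZLG := by
  have hc : Continuous fun q : ℝ × ℝ => ‖gz (1 + 2 * q.1 + q.2 * I)‖ :=
    (gz_cont.comp (by fun_prop)).norm
  have hK : IsCompact (Set.Icc (0:ℝ) (1 / 16) ×ˢ Set.Icc (-2:ℝ) 2) := isCompact_Icc.prod isCompact_Icc
  have hne : (Set.Icc (0:ℝ) (1 / 16) ×ˢ Set.Icc (-2:ℝ) 2).Nonempty :=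
    ⟨(0, 0), ⟨by norm_num, by norm_num⟩, ⟨by norm_num, by norm_num⟩⟩
  obtain ⟨x, hx, hmin⟩ := hK.exists_isMinOn hne hc.continuousOn
  obtain ⟨y, hy, hmax⟩ := hK.exists_isMaxOn hne hc.continuousOn
  have hpos : ∀ q ∈ (Set.Icc (0:ℝ) (1 / 16) ×ˢ Set.Icc (-2:ℝ) 2), 0 < ‖gz (1 + 2 * q.1 + q.2 * I)‖ := by
    intro q hq
    apply gz_pos
    have h1 : 0 ≤ q.1 := hq.1.1
    simp
    exact h1
  refine ⟨‖gz (1 + 2 * x.1 + x.2 * I)‖, 2 * ‖gz (1 + 2 * y.1 + y.2 * I)‖, hpos x hx,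
    by linarith [hpos y hy], fun d h hd hd2 hh => ?_⟩
  have hq : (d, h) ∈ (Set.Icc (0:ℝ) (1 / 16) ×ˢ Set.Icc (-2:ℝ) 2) := ⟨⟨hd.le, hd2⟩, abs_le.1 hh⟩
  have e1 : ‖gz (1 + 2 * x.1 + x.2 * I)‖ ≤ ‖gz (1 + 2 * d + h * I)‖ := hmin hq
  have e2 : ‖gz (1 + 2 * d + h * I)‖ ≤ ‖gz (1 + 2 * y.1 + y.2 * I)‖ := hmax hq
  have hne1 : (1 + 2 * (d:ℂ) + h * I) ≠ 1 := by
    intro he
    have h1 := congrArg Complex.re he
    simp at h1
    exact hd.ne' h1
  have e3 : ‖gz (1 + 2 * d + h * I)‖ = ‖(2 * d + h * I : ℂ)‖ * zl d h := by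
    rw [gz_ne hne1, norm_mul]
    unfold zl
    congr 2
    ring
  have hG : 0 < G d h := by
    unfold G
    linarith [abs_nonneg h]
  have n1 : ‖(2 * d + h * I : ℂ)‖ ≤ G d h := by
    have h1 := norm_add_le (2 * d : ℂ) (h * I)
    have h2 : ‖(2 * d : ℂ)‖ = 2 * d := by
      rw [norm_mul, Complex.norm_real, Real.norm_eq_abs, abs_of_pos hd]
      norm_num
    have h3 : ‖(h * I : ℂ)‖ = |h| := by
      rw [norm_mul, Complex.norm_real, Real.norm_eq_abs, norm_I, mul_one]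
    rw [h2, h3] at h1
    exact h1
  have n2 : G d h ≤ 2 * ‖(2 * d + h * I : ℂ)‖ := by
    have h1 := Complex.abs_im_le_norm (2 * d + h * I : ℂ)
    have h2 := Complex.abs_re_le_norm (2 * d + h * I : ℂ)
    simp at h1 h2
    rw [abs_of_pos hd] at h2
    unfold G
    linarith
  have hz : 0 ≤ zl d h := norm_nonneg _
  constructor
  · rw [div_le_iff₀ hG]
    calc _ ≤ _ := e1
      _ = ‖(2 * d + h * I : ℂ)‖ * zl d h := e3
      _ ≤ G d h * zl d h := mul_le_mul_of_nonneg_right n1 hz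
      _ = _ := mul_comm _ _
  · rw [le_div_iff₀ hG]
    calc zl d h * G d h ≤ zl d h * (2 * ‖(2 * d + h * I : ℂ)‖) := mul_le_mul_of_nonneg_left n2 hz
      _ = 2 * (‖(2 * d + h * I : ℂ)‖ * zl d h) := by ring
      _ = 2 * ‖gz (1 + 2 * d + h * I)‖ := by rw [e3]
      _ ≤ _ := by linarith

end Pool.Agent.H6F.ZLG
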