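import Pool.Agent.H6F.Base
import Pool.Agent.H6F.ZLG
import Pool.Agent.H6F.JMU
import Pool.Agent.H6F.STAR
import Pool.Agent.H6F.BAR1
import Pool.Agent.H6F.BAR2A
import Pool.Agent.H6F.BAR2B
import Pool.Agent.H6F.BAR2
import Pool.Agent.H6F.NEAR2
import Pool.Agent.H6F.VAR2
import Pool.Agent.H6F.LLN2
import Pool.Agent.H6F.MAXL2
import Pool.Agent.H6F.FROZ2

set_option autoImplicit false

/-! Short intervals near the critical line, all lengths `N^θ`, `θ > 0`: the theorems. -/

namespace Pool.Agent.H6F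

open Filter MeasureTheory Topology Complex
open Pool.Agent.N748.MG Pool.Agent.N748.MJ

theorem jmuF : S_JMU := JMU.t jmF posF LZB.main ZLG.t

theorem bar1F : S_BAR1 := BAR1.t jmuF fourF oneF

theorem bar2F : S_BAR2 := BAR2.t BAR2A.t (BAR2B.t jmuF) STAR.t

theorem near2F : S_NEAR2 := NEAR2.t bar2F nearpF bar1F

theorem var2F : S_VAR2 := VAR2.t oneF uniF fubF farF near2F aposF conF

theorem lln2F : S_LLN2 := LLN2.t var2F oneF supF fubF aposF

theorem maxl2F : S_MAXL2 := MAXL2.t lln2F subF fubF aposF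

theorem froz2F : S_FROZ2 := FROZ2.t maxl2F subF supF fubF aposF oneF

end Pool.Agent.H6F
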