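import Pool.Agent.H6F.Stm3

set_option autoImplicit false

/-!
# Project H6F, stub GAU: the Gaussian averages near the critical line
-/

namespace Pool.Agent.H6F.GAU

open Filter MeasureTheory Topology Complex
open Pool.Agent.N748.MG Pool.Agent.N748.MJ

/-- the function to which HIP is applied -/
noncomputable def ff (h y₀ : ℝ) (s : ℂ) : ℂ :=
  riemannZeta s * cexp (((s - 1 / 2 - y₀ * I) / h) ^ 2)

lemma norm_gauss (h x y y₀ : ℝ) :
    ‖cexp (((((1 / 2 + x : ℝ) : ℂ) + y * I - 1 / 2 - y₀ * I) / h) ^ 2)‖ =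
      Real.exp ((x ^ 2 - (y - y₀) ^ 2) / h ^ 2) := by
  rw [Complex.norm_exp]
  congr 1
  have h1 : ((((1 / 2 + x : ℝ) : ℂ) + y * I - 1 / 2 - y₀ * I) / h) ^ 2 =
      (((x ^ 2 - (y - y₀) ^ 2) / h ^ 2 : ℝ) : ℂ) + ((2 * x * (y - y₀) / h ^ 2 : ℝ) : ℂ) * I := by
    push_cast
    rw [div_pow]
    have h2 : ((1 / 2 : ℂ) + x + y * I - 1 / 2 - y₀ * I) ^ 2 =
        ((x : ℂ) ^ 2 - (y - y₀) ^ 2) + (2 * x * (y - y₀)) * I := by
      have h3 : I ^ 2 = -1 := I_sq
      linear_combination ((y : ℂ) - y₀) ^ 2 * h3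
    rw [h2]
    ring
  rw [h1, Complex.add_re, Complex.ofReal_re, Complex.re_ofReal_mul, Complex.I_re, mul_zero, add_zero]

lemma norm_ff (h x y y₀ : ℝ) :
    ‖ff h y₀ (((1 / 2 + x : ℝ) : ℂ) + y * I)‖ = mz x y * Real.exp ((x ^ 2 - (y - y₀) ^ 2) / h ^ 2) := by
  unfold ff
  rw [norm_mul, norm_gauss]
  congr 1
  unfold mz pw
  push_cast
  rfl

lemma mz_nonneg (x y : ℝ) : 0 ≤ mz x y := norm_nonneg _

lemma Ga_nonneg (k h x y₀ : ℝ) : 0 ≤ Ga k h x y₀ := by
  unfold Ga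
  apply integral_nonneg
  intro y
  exact mul_nonneg (Real.rpow_nonneg (mz_nonneg _ _) _) (Real.exp_pos _).le

lemma int_ff (k h x y₀ : ℝ) :
    ∫ y : ℝ, ‖ff h y₀ (((1 / 2 + x : ℝ) : ℂ) + y * I)‖ ^ (2 * k) =
      Real.exp (2 * k * x ^ 2 / h ^ 2) * Ga k h x y₀ := by
  unfold Ga
  rw [← integral_const_mul]
  congr 1
  ext y
  rw [norm_ff, Real.mul_rpow (mz_nonneg _ _) (Real.exp_pos _).le, ← Real.exp_mul]
  have h1 : Real.exp ((x ^ 2 - (y - y₀) ^ 2) / h ^ 2 * (2 * k)) =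
      Real.exp (2 * k * x ^ 2 / h ^ 2) * Real.exp (-(2 * k * (y - y₀) ^ 2 / h ^ 2)) := by
    rw [← Real.exp_add]
    congr 1
    ring
  rw [h1]
  ring

lemma an_ff (h y₀ : ℝ) (s : ℂ) (hs : s ≠ 1) : AnalyticAt ℂ (ff h y₀) s := by
  have h1 : AnalyticAt ℂ riemannZeta s := by
    have h2 : DifferentiableOn ℂ riemannZeta {1}ᶜ := by
      intro z hz
      exact (differentiableAt_riemannZeta hz).differentiableWithinAt
    exact h2.analyticAt (isOpen_compl_singleton.mem_nhds hs)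
  have h3 : AnalyticAt ℂ (fun s : ℂ => cexp (((s - 1 / 2 - y₀ * I) / h) ^ 2)) s := by
    have h4 : Differentiable ℂ (fun s : ℂ => cexp (((s - 1 / 2 - y₀ * I) / h) ^ 2)) := by
      fun_prop
    exact h4.analyticAt s
  exact h1.mul h3

theorem t (h1 : S_HIP) (h2 : S_ZPB) : S_GAU := by
  intro k d h y₀ hk hd hdh hh
  obtain ⟨C, hC, hz⟩ := h2
  have hh0 : 0 < h := lt_of_lt_of_le hd hdh
  have key := h1 (ff h y₀) (1 / 2) (1 / 2 + h) (2 * k)
    (C * Real.exp (1 + (C + 1) ^ 2 / 4 + (C + 1) * |y₀|)) 1 (by linarith) (by linarith) one_pos ?_ ?_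
    (1 / 2 + d) (by linarith) (by linarith)
  · have e1 := int_ff k h d y₀
    have e2 := int_ff k h 0 y₀
    have e3 := int_ff k h h y₀
    rw [e1, e3] at key
    rw [add_zero] at e2
    rw [e2] at key
    have f0 : Real.exp (2 * k * 0 ^ 2 / h ^ 2) = 1 := by simp
    have f1 : Real.exp (2 * k * h ^ 2 / h ^ 2) = Real.exp (2 * k) := by
      congr 1
      field_simp
    have f2 : 1 ≤ Real.exp (2 * k * d ^ 2 / h ^ 2) := Real.one_le_exp (by positivity)
    rw [f0, f1] at key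
    have g1 : (1 / 2 + h - (1 / 2 + d)) / (1 / 2 + h - 1 / 2) = (h - d) / h := by
      congr 1 <;> ring
    have g2 : (1 / 2 + d - 1 / 2) / (1 / 2 + h - 1 / 2) = d / h := by
      congr 1 <;> ring
    rw [g1, g2] at key
    have g3 : (h - d) / h ≤ 1 := by
      rw [div_le_one hh0]
      linarith
    have p0 := Ga_nonneg k h 0 y₀
    have pd := Ga_nonneg k h d y₀
    have g4 : Ga k h d y₀ ≤ Real.exp (2 * k * d ^ 2 / h ^ 2) * Ga k h d y₀ :=
      le_mul_of_one_le_left pd f2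
    have g5 : (h - d) / h * (1 * Ga k h 0 y₀) ≤ Ga k h 0 y₀ := by
      rw [one_mul]
      exact mul_le_of_le_one_left p0 g3
    calc Ga k h d y₀ ≤ Real.exp (2 * k * d ^ 2 / h ^ 2) * Ga k h d y₀ := g4
      _ ≤ _ := key
      _ ≤ _ := by
        rw [mul_assoc (d / h)]
        gcongr
  · intro s hs1 hs2
    apply an_ff
    intro h0
    rw [h0, Complex.one_re] at hs2
    linarith
  · intro s hs1 hs2
    obtain ⟨x, hx⟩ : ∃ x : ℝ, x = s.re - 1 / 2 := ⟨_, rfl⟩
    obtain ⟨y, hy⟩ : ∃ y : ℝ, y = s.im := ⟨_, rfl⟩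
    have hs : s = ((1 / 2 + x : ℝ) : ℂ) + y * I := by
      apply Complex.ext
      · simp [hx]
      · simp [hy]
    have hx0 : 0 ≤ x := by rw [hx]; linarith
    have hxh : x ≤ h := by rw [hx]; linarith
    rw [hs, norm_ff]
    have him : (((1 / 2 + x : ℝ) : ℂ) + y * I).im = y := by simp
    rw [him]
    have b1 : mz x y ≤ C * Real.exp (C * |y|) := by
      refine (hz x y hx0 (by linarith)).trans ?_
      apply mul_le_mul_of_nonneg_left _ hC.le
      have b2 : 1 + |y| ≤ Real.exp |y| := by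
        have := Real.add_one_le_exp |y|
        linarith
      calc (1 + |y|) ^ C ≤ (Real.exp |y|) ^ C :=
            Real.rpow_le_rpow (by positivity) b2 hC.le
        _ = Real.exp (C * |y|) := by
            rw [← Real.exp_mul, mul_comm]
    have b3 : (x ^ 2 - (y - y₀) ^ 2) / h ^ 2 ≤ 1 - (y - y₀) ^ 2 := by
      rw [div_le_iff₀ (by positivity)]
      have c1 : x ^ 2 ≤ h ^ 2 := by nlinarith
      have c2 : h ^ 2 ≤ 1 := by nlinarith
      nlinarith [mul_nonneg (sq_nonneg (y - y₀)) (sub_nonneg.2 c2)]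
    have b4 : (C + 1) * |y| ≤ (y - y₀) ^ 2 + (C + 1) ^ 2 / 4 + (C + 1) * |y₀| := by
      have c1 : |y| ≤ |y - y₀| + |y₀| := by
        have := abs_add_le (y - y₀) y₀
        rwa [sub_add_cancel] at this
      have c2 : (C + 1) * |y| ≤ (C + 1) * (|y - y₀| + |y₀|) :=
        mul_le_mul_of_nonneg_left c1 (by linarith)
      have c3 : (C + 1) * |y - y₀| ≤ |y - y₀| ^ 2 + (C + 1) ^ 2 / 4 := by
        nlinarith [sq_nonneg (|y - y₀| - (C + 1) / 2)]
      rw [sq_abs] at c3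
      linarith
    calc mz x y * Real.exp ((x ^ 2 - (y - y₀) ^ 2) / h ^ 2)
        ≤ (C * Real.exp (C * |y|)) * Real.exp (1 - (y - y₀) ^ 2) := by
          apply mul_le_mul b1 (Real.exp_le_exp.2 b3) (Real.exp_pos _).le (by positivity)
      _ = C * Real.exp (C * |y| + (1 - (y - y₀) ^ 2)) := by
          rw [mul_assoc, ← Real.exp_add]
      _ ≤ C * Real.exp (1 + (C + 1) ^ 2 / 4 + (C + 1) * |y₀| + -(1 * |y|)) := by
          apply mul_le_mul_of_nonneg_left _ hC.le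
          apply Real.exp_le_exp.2
          linarith
      _ = C * Real.exp (1 + (C + 1) ^ 2 / 4 + (C + 1) * |y₀|) * Real.exp (-(1 * |y|)) := by
          rw [Real.exp_add, mul_assoc]

end Pool.Agent.H6F.GAU
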