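import Pool.Agent.H6F.Stm3

set_option autoImplicit false

namespace Pool.Agent.H6F.HIP

open Filter MeasureTheory Topology Complex

/-- clamp to `[a, b]` -/
noncomputable def cl (a b x : ℝ) : ℝ := max a (min b x)

lemma cl_ge (a b x : ℝ) : a ≤ cl a b x := le_max_left _ _

lemma cl_le (a b x : ℝ) (h : a ≤ b) : cl a b x ≤ b := max_le h (min_le_left _ _)

lemma cl_eq (a b x : ℝ) (h1 : a ≤ x) (h2 : x ≤ b) : cl a b x = x := by
  unfold cl
  rw [min_eq_right h2, max_eq_right h1]

lemma cl_cont (a b : ℝ) : Continuous (cl a b) := by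
  unfold cl
  exact continuous_const.max (continuous_const.min continuous_id)

/-- the clamped function -/
noncomputable def G (f : ℂ → ℂ) (a b p : ℝ) (x y : ℝ) : ℝ := ‖f (((cl a b x : ℝ) : ℂ) + (y : ℂ) * I)‖ ^ p

lemma re_im (x y : ℝ) : ((x : ℂ) + (y : ℂ) * I).re = x ∧ ((x : ℂ) + (y : ℂ) * I).im = y := by
  constructor <;> simp

lemma G_eq (f : ℂ → ℂ) (a b p x y : ℝ) (h1 : a ≤ x) (h2 : x ≤ b) :
    G f a b p x y = ‖f ((x : ℂ) + (y : ℂ) * I)‖ ^ p := by
  unfold G
  rw [cl_eq a b x h1 h2]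

lemma G_nonneg (f : ℂ → ℂ) (a b p x y : ℝ) : 0 ≤ G f a b p x y := by
  unfold G
  positivity

lemma G_cont (f : ℂ → ℂ) (a b p : ℝ) (hab : a < b) (hp : 0 < p)
    (hf : ∀ s : ℂ, a ≤ s.re → s.re ≤ b → AnalyticAt ℂ f s) :
    Continuous (fun z : ℝ × ℝ => G f a b p z.1 z.2) := by
  have h1 : ContinuousOn f {s : ℂ | a ≤ s.re ∧ s.re ≤ b} := fun s hs =>
    (hf s hs.1 hs.2).continuousAt.continuousWithinAt
  have h2 : Continuous (fun z : ℝ × ℝ => (((cl a b z.1 : ℝ) : ℂ) + (z.2 : ℂ) * I)) := by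
    have := (cl_cont a b).comp (continuous_fst (X := ℝ) (Y := ℝ))
    have h3 : Continuous (fun z : ℝ × ℝ => ((cl a b z.1 : ℝ) : ℂ)) := continuous_ofReal.comp this
    have h4 : Continuous (fun z : ℝ × ℝ => ((z.2 : ℝ) : ℂ)) := continuous_ofReal.comp continuous_snd
    exact h3.add (h4.mul continuous_const)
  have h3 : Continuous (fun z : ℝ × ℝ => f (((cl a b z.1 : ℝ) : ℂ) + (z.2 : ℂ) * I)) :=
    h1.comp_continuous h2 (fun z => by
      rw [Set.mem_ofPred_eq, (re_im _ _).1]
      exact ⟨cl_ge _ _ _, cl_le _ _ _ hab.le⟩)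
  exact h3.norm.rpow_const (fun z => Or.inr hp.le)

lemma G_bound (f : ℂ → ℂ) (a b p A q : ℝ) (hab : a < b) (hp : 0 < p)
    (hb : ∀ s : ℂ, a ≤ s.re → s.re ≤ b → ‖f s‖ ≤ A * Real.exp (-(q * |s.im|))) (x y : ℝ) :
    G f a b p x y ≤ A ^ p * Real.exp (-(p * q * |y|)) := by
  have hA : 0 ≤ A := by
    have h := hb (a : ℂ) (by simp) (by simpa using hab.le)
    have h2 := (norm_nonneg _).trans h
    exact nonneg_of_mul_nonneg_left h2 (Real.exp_pos _)
  unfold G
  have h := hb (((cl a b x : ℝ) : ℂ) + (y : ℂ) * I) (by rw [(re_im _ _).1]; exact cl_ge _ _ _)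
    (by rw [(re_im _ _).1]; exact cl_le _ _ _ hab.le)
  rw [(re_im _ _).2] at h
  refine (Real.rpow_le_rpow (norm_nonneg _) h hp.le).trans (le_of_eq ?_)
  rw [Real.mul_rpow hA (Real.exp_pos _).le, ← Real.exp_mul]
  congr 2
  ring

lemma exp_abs_int (c : ℝ) (hc : 0 < c) : Integrable (fun y : ℝ => Real.exp (-(c * |y|))) := by
  have h1 : IntegrableOn (fun y : ℝ => Real.exp (-(c * |y|))) (Set.Ioi 0) := by
    refine (exp_neg_integrableOn_Ioi 0 hc).congr_fun ?_ measurableSet_Ioi
    intro y hy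
    have : |y| = y := abs_of_pos hy
    simp only [this]
    congr 1
    ring
  have h2 : IntegrableOn (fun y : ℝ => Real.exp (-(c * |y|))) (Set.Iic 0) := by
    refine (integrableOn_exp_mul_Iic hc 0).congr_fun ?_ measurableSet_Iic
    intro y hy
    have : |y| = -y := abs_of_nonpos hy
    simp only [this]
    congr 1
    ring
  have h3 := h2.union h1
  rwa [Set.Iic_union_Ioi, integrableOn_univ] at h3

lemma g_cont (f : ℂ → ℂ) (a b p A q : ℝ) (hab : a < b) (hp : 0 < p) (hq : 0 < q)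
    (hf : ∀ s : ℂ, a ≤ s.re → s.re ≤ b → AnalyticAt ℂ f s)
    (hb : ∀ s : ℂ, a ≤ s.re → s.re ≤ b → ‖f s‖ ≤ A * Real.exp (-(q * |s.im|))) :
    Continuous (fun x : ℝ => ∫ y : ℝ, G f a b p x y) := by
  have hG := G_cont f a b p hab hp hf
  refine continuous_of_dominated (bound := fun y => A ^ p * Real.exp (-(p * q * |y|))) ?_ ?_ ?_ ?_
  · intro x
    exact (hG.comp (Continuous.prodMk continuous_const continuous_id)).aestronglyMeasurable
  · intro x
    refine Eventually.of_forall fun y => ?_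
    rw [Real.norm_of_nonneg (G_nonneg _ _ _ _ _ _)]
    exact G_bound f a b p A q hab hp hb x y
  · exact (exp_abs_int (p * q) (by positivity)).const_mul _
  · refine Eventually.of_forall fun y => ?_
    exact hG.comp (Continuous.prodMk continuous_id continuous_const)

lemma circle (x y r φ : ℝ) : circleMap ((x : ℂ) + (y : ℂ) * I) r φ =
    ((x + r * Real.cos φ : ℝ) : ℂ) + ((y + r * Real.sin φ : ℝ) : ℂ) * I := by
  unfold circleMap
  rw [Complex.exp_mul_I]
  push_cast
  ring

lemma smv (f : ℂ → ℂ) (a b p A q : ℝ) (hab : a < b) (hp : 0 < p) (hq : 0 < q) (h1 : S_SMV)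
    (hf : ∀ s : ℂ, a ≤ s.re → s.re ≤ b → AnalyticAt ℂ f s)
    (hb : ∀ s : ℂ, a ≤ s.re → s.re ≤ b → ‖f s‖ ≤ A * Real.exp (-(q * |s.im|)))
    (x r : ℝ) (hr : 0 < r) (hx1 : a ≤ x - r) (hx2 : x + r ≤ b) :
    (∫ y : ℝ, G f a b p x y) ≤
      (1 / (2 * Real.pi)) * ∫ φ in (0:ℝ)..(2 * Real.pi), ∫ y : ℝ, G f a b p (x + r * Real.cos φ) y := by
  have hG := G_cont f a b p hab hp hf
  have hA : 0 ≤ A := by
    have h := hb (a : ℂ) (by simp) (by simpa using hab.le)
    have h2 := (norm_nonneg _).trans h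
    exact nonneg_of_mul_nonneg_left h2 (Real.exp_pos _)
  have hAp : 0 ≤ A ^ p := Real.rpow_nonneg hA p
  have hpq : 0 < p * q := by positivity
  have hpi : 0 < 2 * Real.pi := by positivity
  have hcos : ∀ φ : ℝ, a ≤ x + r * Real.cos φ ∧ x + r * Real.cos φ ≤ b := fun φ => by
    have h3 := Real.neg_one_le_cos φ
    have h4 := Real.cos_le_one φ
    constructor <;> nlinarith
  -- the joint function
  set K : ℝ → ℝ → ℝ := fun φ y => G f a b p (x + r * Real.cos φ) (y + r * Real.sin φ) with hK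
  have hKc : Continuous (fun z : ℝ × ℝ => K z.1 z.2) := by
    have h3 : Continuous (fun z : ℝ × ℝ => ((x + r * Real.cos z.1, z.2 + r * Real.sin z.1) : ℝ × ℝ)) := by
      fun_prop
    exact hG.comp h3
  have hKb : ∀ φ y : ℝ, K φ y ≤ (A ^ p * Real.exp (p * q * r)) * Real.exp (-(p * q * |y|)) := by
    intro φ y
    refine (G_bound f a b p A q hab hp hb _ _).trans ?_
    rw [mul_assoc (A ^ p), ← Real.exp_add]
    refine mul_le_mul_of_nonneg_left (Real.exp_le_exp.2 ?_) hAp
    have h3 : |y| ≤ |y + r * Real.sin φ| + r := by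
      have h4 : |y| ≤ |y + r * Real.sin φ| + |r * Real.sin φ| := by
        have := abs_sub (y + r * Real.sin φ) (r * Real.sin φ)
        simpa using this
      have h5 : |r * Real.sin φ| ≤ r := by
        rw [abs_mul, abs_of_pos hr]
        have := Real.abs_sin_le_one φ
        nlinarith
      linarith
    nlinarith
  have hint : Integrable (Function.uncurry K) ((volume.restrict (Set.Ioc 0 (2 * Real.pi))).prod volume) := by
    have hbd : Integrable (fun z : ℝ × ℝ => (1 : ℝ) * ((A ^ p * Real.exp (p * q * r)) * Real.exp (-(p * q * |z.2|))))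
        ((volume.restrict (Set.Ioc 0 (2 * Real.pi))).prod volume) := by
      apply Integrable.mul_prod (f := fun _ : ℝ => (1:ℝ))
        (g := fun y : ℝ => (A ^ p * Real.exp (p * q * r)) * Real.exp (-(p * q * |y|)))
      · exact integrable_const _
      · exact (exp_abs_int (p * q) hpq).const_mul _
    refine hbd.mono' hKc.aestronglyMeasurable (Eventually.of_forall fun z => ?_)
    change ‖K z.1 z.2‖ ≤ _
    rw [Real.norm_of_nonneg (G_nonneg _ _ _ _ _ _), one_mul]
    exact hKb z.1 z.2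
  have hswap := integral_integral_swap hint
  -- pointwise
  have hpt : ∀ y : ℝ, G f a b p x y ≤ (1 / (2 * Real.pi)) * ∫ φ in Set.Ioc 0 (2 * Real.pi), K φ y := by
    intro y
    have h3 := h1 f ((x : ℂ) + (y : ℂ) * I) r p hp hr (fun s hs => by
      rw [Metric.mem_closedBall, dist_eq_norm] at hs
      have h4 : |s.re - x| ≤ r := by
        have h5 := Complex.abs_re_le_norm (s - ((x : ℂ) + (y : ℂ) * I))
        rw [Complex.sub_re, (re_im _ _).1] at h5
        exact h5.trans hs
      rw [abs_le] at h4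
      exact hf s (by linarith [h4.1]) (by linarith [h4.2]))
    rw [← G_eq f a b p x y (by linarith) (by linarith)] at h3
    refine h3.trans (le_of_eq ?_)
    rw [intervalIntegral.integral_of_le hpi.le]
    congr 1
    refine integral_congr_ae (Eventually.of_forall fun φ => ?_)
    change ‖f (circleMap ((x : ℂ) + (y : ℂ) * I) r φ)‖ ^ p = K φ y
    rw [circle, hK]
    change _ = G f a b p (x + r * Real.cos φ) (y + r * Real.sin φ)
    rw [G_eq f a b p _ _ (hcos φ).1 (hcos φ).2]
  have hIx : Integrable (fun y : ℝ => G f a b p x y) := by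
    refine ((exp_abs_int (p * q) hpq).const_mul (A ^ p)).mono'
      (hG.comp (Continuous.prodMk continuous_const continuous_id)).aestronglyMeasurable
      (Eventually.of_forall fun y => ?_)
    rw [Real.norm_of_nonneg (G_nonneg _ _ _ _ _ _)]
    exact G_bound f a b p A q hab hp hb x y
  have hIK : Integrable (fun y : ℝ => ∫ φ in Set.Ioc 0 (2 * Real.pi), K φ y) := hint.integral_prod_right
  have h4 := integral_mono hIx (hIK.const_mul (1 / (2 * Real.pi))) hpt
  refine h4.trans (le_of_eq ?_)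
  rw [integral_const_mul, ← hswap, intervalIntegral.integral_of_le hpi.le]
  congr 1
  refine integral_congr_ae (Eventually.of_forall fun φ => ?_)
  change ∫ y : ℝ, G f a b p (x + r * Real.cos φ) (y + r * Real.sin φ) = ∫ y : ℝ, G f a b p (x + r * Real.cos φ) y
  exact integral_add_right_eq_self (fun y => G f a b p (x + r * Real.cos φ) y) (r * Real.sin φ)

theorem t (h1 : S_SMV) (h2 : S_CVX) : S_HIP := by
  intro f a b p A q hab hp hq hf hb x hx1 hx2
  have hc := g_cont f a b p A q hab hp hq hf hb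
  have h := h2 (fun x => ∫ y : ℝ, G f a b p x y) a b hab hc.continuousOn
    (fun x r hr h3 h4 => smv f a b p A q hab hp hq h1 hf hb x r hr h3 h4) x hx1 hx2
  have e : ∀ x : ℝ, a ≤ x → x ≤ b → (∫ y : ℝ, G f a b p x y) = ∫ y : ℝ, ‖f ((x : ℂ) + (y : ℂ) * I)‖ ^ p := by
    intro x h3 h4
    refine integral_congr_ae (Eventually.of_forall fun y => ?_)
    exact G_eq f a b p x y h3 h4
  rw [e x hx1 hx2, e a le_rfl hab.le, e b hab.le le_rfl] at h
  exact h

end Pool.Agent.H6F.HIP
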