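import Pool.Agent.H6F.Stm3

set_option autoImplicit false

namespace Pool.Agent.H6F.INTGaux
open MeasureTheory

/-- the Gaussian weight -/
noncomputable def gs (k h v : ℝ) : ℝ := Real.exp (-(2 * k * v ^ 2 / h ^ 2))

lemma gs_eq (k h v : ℝ) : gs k h v = Real.exp (-(2 * k / h ^ 2) * v ^ 2) := by
  unfold gs
  congr 1
  ring

lemma gs_nn (k h v : ℝ) : 0 ≤ gs k h v := (Real.exp_pos _).le

lemma gs_cont (k h : ℝ) : Continuous (gs k h) := by
  unfold gs
  fun_prop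

lemma poly (k B : ℝ) (hk : 0 < k) (hB : 0 ≤ B) (y y₀ : ℝ) :
    (1 + |y|) ^ B ≤ (1 + |y₀|) ^ B * (Real.exp (B ^ 2 / (2 * k)) * Real.exp (k / 2 * (y - y₀) ^ 2)) := by
  have h1 : 1 + |y| ≤ (1 + |y₀|) * (1 + |y - y₀|) := by
    have h := abs_add_le (y - y₀) y₀
    rw [sub_add_cancel] at h
    have h' := mul_nonneg (abs_nonneg y₀) (abs_nonneg (y - y₀))
    have e : (1 + |y₀|) * (1 + |y - y₀|) = 1 + |y₀| + |y - y₀| + |y₀| * |y - y₀| := by ring
    rw [e]
    linarith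
  have h2 : (1 + |y|) ^ B ≤ ((1 + |y₀|) * (1 + |y - y₀|)) ^ B := Real.rpow_le_rpow (by positivity) h1 hB
  rw [Real.mul_rpow (by positivity) (by positivity)] at h2
  refine h2.trans (mul_le_mul_of_nonneg_left ?_ (by positivity))
  have h3 : 1 + |y - y₀| ≤ Real.exp |y - y₀| := by linarith [Real.add_one_le_exp |y - y₀|]
  have h4 : (1 + |y - y₀|) ^ B ≤ Real.exp (B * |y - y₀|) := by
    calc (1 + |y - y₀|) ^ B ≤ (Real.exp |y - y₀|) ^ B := Real.rpow_le_rpow (by positivity) h3 hB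
      _ = Real.exp (|y - y₀| * B) := by rw [← Real.exp_mul]
      _ = _ := by rw [mul_comm]
  refine h4.trans ?_
  rw [← Real.exp_add]
  apply Real.exp_le_exp.mpr
  have h5 : (y - y₀) ^ 2 = |y - y₀| ^ 2 := (sq_abs _).symm
  rw [h5]
  have h6 : B ^ 2 / (2 * k) + k / 2 * |y - y₀| ^ 2 - B * |y - y₀| = (k / 2) * (|y - y₀| - B / k) ^ 2 := by
    field_simp
    ring
  have h7 : 0 ≤ (k / 2) * (|y - y₀| - B / k) ^ 2 := by positivity
  linarith

/-- the constant in the bounds -/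
noncomputable def A1 (k A B y₀ : ℝ) : ℝ := A * (1 + |y₀|) ^ B * Real.exp (B ^ 2 / (2 * k))

lemma A1_nn (k A B y₀ : ℝ) (hA : 0 ≤ A) : 0 ≤ A1 k A B y₀ := by unfold A1; positivity

lemma f_le (k A B : ℝ) (hk : 0 < k) (hA : 0 ≤ A) (hB : 0 ≤ B) (f : ℝ → ℝ)
    (hfb : ∀ y, f y ≤ A * (1 + |y|) ^ B) (y y₀ : ℝ) :
    f y ≤ A1 k A B y₀ * Real.exp (k / 2 * (y - y₀) ^ 2) := by
  refine (hfb y).trans ((mul_le_mul_of_nonneg_left (poly k B hk hB y y₀) hA).trans (le_of_eq ?_))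
  unfold A1
  ring

lemma sq_div (h v : ℝ) (hh : 0 < h) (hh1 : h ≤ 1) : v ^ 2 ≤ v ^ 2 / h ^ 2 := by
  rw [le_div_iff₀ (by positivity)]
  have : h ^ 2 ≤ 1 := by nlinarith
  nlinarith [sq_nonneg v]

lemma dom1 (k h A B : ℝ) (hk : 0 < k) (hh : 0 < h) (hh1 : h ≤ 1) (hA : 0 ≤ A) (hB : 0 ≤ B) (f : ℝ → ℝ)
    (hfb : ∀ y, f y ≤ A * (1 + |y|) ^ B) (y y₀ : ℝ) :
    f y * gs k h (y - y₀) ≤ A1 k A B y₀ * Real.exp (-(k / 2) * (y - y₀) ^ 2) := by
  refine (mul_le_mul_of_nonneg_right (f_le k A B hk hA hB f hfb y y₀) (gs_nn _ _ _)).trans ?_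
  rw [mul_assoc]
  refine mul_le_mul_of_nonneg_left ?_ (A1_nn _ _ _ _ hA)
  unfold gs
  rw [← Real.exp_add]
  apply Real.exp_le_exp.mpr
  have h1 := mul_le_mul_of_nonneg_left (sq_div h (y - y₀) hh hh1) hk.le
  have h2 : 2 * k * (y - y₀) ^ 2 / h ^ 2 = 2 * (k * ((y - y₀) ^ 2 / h ^ 2)) := by ring
  rw [h2]
  have h3 : 0 ≤ k * (y - y₀) ^ 2 := by positivity
  linarith

lemma dom2 (k h A B : ℝ) (hk : 0 < k) (hh : 0 < h) (hh1 : h ≤ 1) (hA : 0 ≤ A) (hB : 0 ≤ B) (f : ℝ → ℝ)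
    (hfb : ∀ y, f y ≤ A * (1 + |y|) ^ B) (y y₀ : ℝ) (h1 : 1 ≤ |y - y₀|) :
    f y * gs k h (y - y₀) ≤ A1 k A B y₀ * Real.exp (-(k / h ^ 2)) * Real.exp (-(k / 2) * (y - y₀) ^ 2) := by
  refine (mul_le_mul_of_nonneg_right (f_le k A B hk hA hB f hfb y y₀) (gs_nn _ _ _)).trans ?_
  rw [mul_assoc, mul_assoc]
  refine mul_le_mul_of_nonneg_left ?_ (A1_nn _ _ _ _ hA)
  unfold gs
  rw [← Real.exp_add, ← Real.exp_add]
  apply Real.exp_le_exp.mpr
  have h2 := mul_le_mul_of_nonneg_left (sq_div h (y - y₀) hh hh1) hk.le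
  have h3 : 2 * k * (y - y₀) ^ 2 / h ^ 2 = 2 * (k * ((y - y₀) ^ 2 / h ^ 2)) := by ring
  have h4 : 1 ≤ (y - y₀) ^ 2 := by
    rw [← sq_abs]
    nlinarith
  have h5 : k / h ^ 2 ≤ k * ((y - y₀) ^ 2 / h ^ 2) := by
    rw [← mul_div_assoc]
    apply div_le_div_of_nonneg_right _ (by positivity)
    nlinarith
  rw [h3]
  linarith

lemma gint (b y₀ : ℝ) (hb : 0 < b) : Integrable (fun y : ℝ => Real.exp (-b * (y - y₀) ^ 2)) :=
  (integrable_exp_neg_mul_sq hb).comp_sub_right y₀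

lemma gval (b y₀ : ℝ) : ∫ y : ℝ, Real.exp (-b * (y - y₀) ^ 2) = √(Real.pi / b) := by
  rw [integral_sub_right_eq_self (fun y : ℝ => Real.exp (-b * y ^ 2)) y₀]
  exact integral_gaussian b

lemma gint' (b y : ℝ) (hb : 0 < b) : Integrable (fun y₀ : ℝ => Real.exp (-b * (y - y₀) ^ 2)) :=
  (integrable_exp_neg_mul_sq hb).comp_sub_left y

lemma gval' (b y : ℝ) : ∫ y₀ : ℝ, Real.exp (-b * (y - y₀) ^ 2) = √(Real.pi / b) := by
  rw [integral_sub_left_eq_self (fun y : ℝ => Real.exp (-b * y ^ 2)) volume y]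
  exact integral_gaussian b

lemma fint (k h A B : ℝ) (hk : 0 < k) (hh : 0 < h) (hh1 : h ≤ 1) (hA : 0 ≤ A) (hB : 0 ≤ B) (f : ℝ → ℝ)
    (hf : Continuous f) (hf0 : ∀ y, 0 ≤ f y) (hfb : ∀ y, f y ≤ A * (1 + |y|) ^ B) (y₀ : ℝ) :
    Integrable (fun y : ℝ => f y * gs k h (y - y₀)) := by
  refine Integrable.mono' ((gint (k / 2) y₀ (by positivity)).const_mul (A1 k A B y₀)) ?_ ?_
  · apply Continuous.aestronglyMeasurable
    exact hf.mul ((gs_cont k h).comp (by fun_prop))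
  · refine Filter.Eventually.of_forall fun y => ?_
    rw [Real.norm_of_nonneg (mul_nonneg (hf0 y) (gs_nn _ _ _))]
    exact dom1 k h A B hk hh hh1 hA hB f hfb y y₀

lemma upper (k h A B : ℝ) (hk : 0 < k) (hh : 0 < h) (hh1 : h ≤ 1) (hA : 0 ≤ A) (hB : 0 ≤ B) (f : ℝ → ℝ)
    (hf : Continuous f) (hf0 : ∀ y, 0 ≤ f y) (hfb : ∀ y, f y ≤ A * (1 + |y|) ^ B) (t H y₀ : ℝ) (hH : 4 ≤ H)
    (h1 : t + 1 ≤ y₀) (h2 : y₀ ≤ t + H - 1) :
    ∫ y, f y * gs k h (y - y₀) ≤ (∫ y in t..(t + H), f y * gs k h (y - y₀)) +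
      A1 k A B y₀ * Real.exp (-(k / h ^ 2)) * √(Real.pi / (k / 2)) := by
  have hint := fint k h A B hk hh hh1 hA hB f hf hf0 hfb y₀
  rw [← integral_add_compl (measurableSet_Ioc : MeasurableSet (Set.Ioc t (t + H))) hint,
    intervalIntegral.integral_of_le (by linarith)]
  refine add_le_add le_rfl ?_
  have hg := ((gint (k / 2) y₀ (by positivity)).const_mul (A1 k A B y₀ * Real.exp (-(k / h ^ 2))))
  calc ∫ y in (Set.Ioc t (t + H))ᶜ, f y * gs k h (y - y₀)
      ≤ ∫ y in (Set.Ioc t (t + H))ᶜ, A1 k A B y₀ * Real.exp (-(k / h ^ 2)) *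
          Real.exp (-(k / 2) * (y - y₀) ^ 2) := by
        refine setIntegral_mono_on hint.integrableOn hg.integrableOn measurableSet_Ioc.compl ?_
        intro y hy
        apply dom2 k h A B hk hh hh1 hA hB f hfb y y₀
        rw [Set.mem_compl_iff, Set.mem_Ioc, not_and_or, not_lt, not_le] at hy
        rcases hy with hy | hy
        · rw [abs_of_nonpos (by linarith)]; linarith
        · rw [abs_of_nonneg (by linarith)]; linarith
    _ ≤ ∫ y, A1 k A B y₀ * Real.exp (-(k / h ^ 2)) * Real.exp (-(k / 2) * (y - y₀) ^ 2) := by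
        refine setIntegral_le_integral hg (Filter.Eventually.of_forall fun y => ?_)
        have := A1_nn k A B y₀ hA
        show 0 ≤ A1 k A B y₀ * Real.exp (-(k / h ^ 2)) * Real.exp (-(k / 2) * (y - y₀) ^ 2)
        positivity
    _ = _ := by
        rw [integral_const_mul, gval]

lemma lower (k h A B : ℝ) (hk : 0 < k) (hh : 0 < h) (hh1 : h ≤ 1) (hA : 0 ≤ A) (hB : 0 ≤ B) (f : ℝ → ℝ)
    (hf : Continuous f) (hf0 : ∀ y, 0 ≤ f y) (hfb : ∀ y, f y ≤ A * (1 + |y|) ^ B) (t H y₀ : ℝ) (hH : 4 ≤ H) :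
    ∫ y in (t + 2)..(t + H - 2), f y * gs k h (y - y₀) ≤ ∫ y, f y * gs k h (y - y₀) := by
  have hint := fint k h A B hk hh hh1 hA hB f hf hf0 hfb y₀
  rw [intervalIntegral.integral_of_le (by linarith)]
  exact setIntegral_le_integral hint (Filter.Eventually.of_forall fun y => mul_nonneg (hf0 y) (gs_nn _ _ _))

lemma w_upper (k h : ℝ) (hk : 0 < k) (hh : 0 < h) (t H y : ℝ) (hH : 4 ≤ H) :
    ∫ y₀ in (t + 1)..(t + H - 1), gs k h (y - y₀) ≤ √(Real.pi / (2 * k / h ^ 2)) := by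
  rw [intervalIntegral.integral_of_le (by linarith)]
  simp_rw [gs_eq]
  have hb : 0 < 2 * k / h ^ 2 := by positivity
  refine (setIntegral_le_integral (gint' _ y hb) (Filter.Eventually.of_forall fun y => (Real.exp_pos _).le)).trans ?_
  rw [gval']

lemma w_lower (k h : ℝ) (hk : 0 < k) (hh : 0 < h) (t H y : ℝ) (hH : 4 ≤ H) (h1 : t + 2 ≤ y)
    (h2 : y ≤ t + H - 2) :
    (1 - √2 * Real.exp (-(k / h ^ 2))) * √(Real.pi / (2 * k / h ^ 2)) ≤
      ∫ y₀ in (t + 1)..(t + H - 1), gs k h (y - y₀) := by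
  rw [intervalIntegral.integral_of_le (by linarith)]
  simp_rw [gs_eq]
  have hb : 0 < 2 * k / h ^ 2 := by positivity
  have hb' : 0 < k / h ^ 2 := by positivity
  have hi := gint' _ y hb
  have hg := (gint' _ y hb').const_mul (Real.exp (-(k / h ^ 2)))
  have hsplit := integral_add_compl (measurableSet_Ioc : MeasurableSet (Set.Ioc (t + 1) (t + H - 1))) hi
  rw [gval'] at hsplit
  have htail : ∫ y₀ in (Set.Ioc (t + 1) (t + H - 1))ᶜ, Real.exp (-(2 * k / h ^ 2) * (y - y₀) ^ 2) ≤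
      Real.exp (-(k / h ^ 2)) * √(Real.pi / (k / h ^ 2)) := by
    calc _ ≤ ∫ y₀ in (Set.Ioc (t + 1) (t + H - 1))ᶜ, Real.exp (-(k / h ^ 2)) *
          Real.exp (-(k / h ^ 2) * (y - y₀) ^ 2) := by
          refine setIntegral_mono_on hi.integrableOn hg.integrableOn measurableSet_Ioc.compl ?_
          intro y₀ hy
          rw [← Real.exp_add]
          apply Real.exp_le_exp.mpr
          rw [Set.mem_compl_iff, Set.mem_Ioc, not_and_or, not_lt, not_le] at hy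
          have h3 : 1 ≤ |y - y₀| := by
            rcases hy with hy | hy
            · rw [abs_of_nonneg (by linarith)]; linarith
            · rw [abs_of_nonpos (by linarith)]; linarith
          have h4 : 1 ≤ (y - y₀) ^ 2 := by
            rw [← sq_abs]
            nlinarith
          have h5 : 2 * k / h ^ 2 = 2 * (k / h ^ 2) := by ring
          rw [h5]
          nlinarith
      _ ≤ ∫ y₀, Real.exp (-(k / h ^ 2)) * Real.exp (-(k / h ^ 2) * (y - y₀) ^ 2) :=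
          setIntegral_le_integral hg (Filter.Eventually.of_forall fun y => by positivity)
      _ = _ := by rw [integral_const_mul, gval']
  have h6 : √(Real.pi / (k / h ^ 2)) = √2 * √(Real.pi / (2 * k / h ^ 2)) := by
    rw [← Real.sqrt_mul (by norm_num)]
    congr 1
    field_simp
  rw [h6] at htail
  have e : (1 - √2 * Real.exp (-(k / h ^ 2))) * √(Real.pi / (2 * k / h ^ 2)) =
    √(Real.pi / (2 * k / h ^ 2)) - Real.exp (-(k / h ^ 2)) * (√2 * √(Real.pi / (2 * k / h ^ 2))) := by ring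
  rw [e]
  linarith

lemma swap (k h : ℝ) (f : ℝ → ℝ) (hf : Continuous f) (a b c d : ℝ) :
    ∫ y₀ in a..b, ∫ y in c..d, f y * gs k h (y - y₀) = ∫ y in c..d, f y * ∫ y₀ in a..b, gs k h (y - y₀) := by
  rw [intervalIntegral_intervalIntegral_swap]
  · refine intervalIntegral.integral_congr fun y _ => ?_
    exact intervalIntegral.integral_const_mul _ _
  · have hc : Continuous (Function.uncurry fun y₀ y : ℝ => f y * gs k h (y - y₀)) := by
      have h1 := gs_cont k h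
      show Continuous fun p : ℝ × ℝ => f p.2 * gs k h (p.2 - p.1)
      exact (hf.comp continuous_snd).mul (h1.comp (continuous_snd.sub continuous_fst))
    have hK : IsCompact (Set.uIcc a b ×ˢ Set.uIcc c d) := isCompact_uIcc.prod isCompact_uIcc
    exact (hc.continuousOn.integrableOn_compact hK).mono_set
      (Set.prod_mono Set.uIoc_subset_uIcc Set.uIoc_subset_uIcc)

lemma par_cont (k h : ℝ) (f : ℝ → ℝ) (hf : Continuous f) (c d : ℝ) :
    Continuous fun y₀ : ℝ => ∫ y in c..d, f y * gs k h (y - y₀) := by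
  apply intervalIntegral.continuous_parametric_intervalIntegral_of_continuous'
  show Continuous fun p : ℝ × ℝ => f p.2 * gs k h (p.2 - p.1)
  exact (hf.comp continuous_snd).mul ((gs_cont k h).comp (continuous_snd.sub continuous_fst))

lemma w_cont (k h : ℝ) (a b : ℝ) : Continuous fun y : ℝ => ∫ y₀ in a..b, gs k h (y - y₀) := by
  apply intervalIntegral.continuous_parametric_intervalIntegral_of_continuous'
  show Continuous fun p : ℝ × ℝ => gs k h (p.1 - p.2)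
  exact (gs_cont k h).comp (continuous_fst.sub continuous_snd)

lemma exp_small (x : ℝ) (hx : 0 < x) : Real.exp (-x) ≤ 1 / x := by
  rw [Real.exp_neg, ← one_div]
  apply one_div_le_one_div_of_le hx
  linarith [Real.add_one_le_exp x]

lemma comb (k h A B : ℝ) (hk : 0 < k) (hh : 0 < h) (hh4 : h ≤ 1 / 4) (hA : 0 ≤ A) (hB : 0 ≤ B)
    (f1 f0 f2 : ℝ → ℝ) (c1 : Continuous f1) (c0 : Continuous f0) (c2 : Continuous f2)
    (n1 : ∀ y, 0 ≤ f1 y) (n0 : ∀ y, 0 ≤ f0 y) (n2 : ∀ y, 0 ≤ f2 y)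
    (b1 : ∀ y, f1 y ≤ A * (1 + |y|) ^ B) (b0 : ∀ y, f0 y ≤ A * (1 + |y|) ^ B)
    (b2 : ∀ y, f2 y ≤ A * (1 + |y|) ^ B) (r : ℝ) (hr : 0 ≤ r)
    (hyp : ∀ y₀, ∫ y, f1 y * gs k h (y - y₀) ≤ (∫ y, f0 y * gs k h (y - y₀)) + r * ∫ y, f2 y * gs k h (y - y₀))
    (t H : ℝ) (ht : 0 ≤ t) (hH : 4 ≤ H) :
    (1 - √2 * Real.exp (-(k / h ^ 2))) * √(Real.pi / (2 * k / h ^ 2)) * (∫ u in (t + 2)..(t + H - 2), f1 u) ≤
      √(Real.pi / (2 * k / h ^ 2)) * (∫ u in t..(t + H), f0 u) +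
        r * (√(Real.pi / (2 * k / h ^ 2)) * (∫ u in t..(t + H), f2 u)) +
        (1 + r) * ((H - 2) * (A * (1 + t + H) ^ B * Real.exp (B ^ 2 / (2 * k)) *
          Real.exp (-(k / h ^ 2)) * √(Real.pi / (k / 2)))) := by
  have hh1 : h ≤ 1 := by linarith
  obtain ⟨E, hE⟩ : ∃ E, E = A * (1 + t + H) ^ B * Real.exp (B ^ 2 / (2 * k)) *
          Real.exp (-(k / h ^ 2)) * √(Real.pi / (k / 2)) := ⟨_, rfl⟩
  obtain ⟨S, hS⟩ : ∃ S, S = √(Real.pi / (2 * k / h ^ 2)) := ⟨_, rfl⟩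
  rw [← hE, ← hS]
  have hEb : ∀ y₀, t + 1 ≤ y₀ → y₀ ≤ t + H - 1 →
      A1 k A B y₀ * Real.exp (-(k / h ^ 2)) * √(Real.pi / (k / 2)) ≤ E := by
    intro y₀ h1 h2
    rw [hE]
    unfold A1
    have h3 : (1 + |y₀|) ^ B ≤ (1 + t + H) ^ B := by
      apply Real.rpow_le_rpow (by positivity) _ hB
      rw [abs_of_nonneg (by linarith)]
      linarith
    gcongr
  have hpt : ∀ y₀ ∈ Set.Icc (t + 1) (t + H - 1), (∫ y in (t + 2)..(t + H - 2), f1 y * gs k h (y - y₀)) ≤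
      ((∫ y in t..(t + H), f0 y * gs k h (y - y₀)) + r * (∫ y in t..(t + H), f2 y * gs k h (y - y₀))) +
        (1 + r) * E := by
    intro y₀ hy
    have u0 := upper k h A B hk hh hh1 hA hB f0 c0 n0 b0 t H y₀ hH hy.1 hy.2
    have u2 := upper k h A B hk hh hh1 hA hB f2 c2 n2 b2 t H y₀ hH hy.1 hy.2
    have l1 := lower k h A B hk hh hh1 hA hB f1 c1 n1 b1 t H y₀ hH
    have h3 := hyp y₀
    have h4 := hEb y₀ hy.1 hy.2
    have h5 : r * ∫ y, f2 y * gs k h (y - y₀) ≤ r * ((∫ y in t..(t + H), f2 y * gs k h (y - y₀)) + E) :=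
      mul_le_mul_of_nonneg_left (by linarith) hr
    linarith
  have I1 : IntervalIntegrable (fun y₀ => ∫ y in (t + 2)..(t + H - 2), f1 y * gs k h (y - y₀)) volume
      (t + 1) (t + H - 1) := (par_cont k h f1 c1 (t + 2) (t + H - 2)).intervalIntegrable _ _
  have I0 : IntervalIntegrable (fun y₀ => ∫ y in t..(t + H), f0 y * gs k h (y - y₀)) volume
      (t + 1) (t + H - 1) := (par_cont k h f0 c0 t (t + H)).intervalIntegrable _ _
  have I2 : IntervalIntegrable (fun y₀ => ∫ y in t..(t + H), f2 y * gs k h (y - y₀)) volume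
      (t + 1) (t + H - 1) := (par_cont k h f2 c2 t (t + H)).intervalIntegrable _ _
  have I2' : IntervalIntegrable (fun y₀ => r * ∫ y in t..(t + H), f2 y * gs k h (y - y₀)) volume
      (t + 1) (t + H - 1) := I2.const_mul r
  have Ic : IntervalIntegrable (fun _ : ℝ => (1 + r) * E) volume (t + 1) (t + H - 1) :=
    continuous_const.intervalIntegrable _ _
  have hint := intervalIntegral.integral_mono_on (by linarith : t + 1 ≤ t + H - 1) I1
    ((I0.add I2').add Ic) hpt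
  have e2 : ∫ y₀ in (t + 1)..(t + H - 1), (((∫ y in t..(t + H), f0 y * gs k h (y - y₀)) +
      r * (∫ y in t..(t + H), f2 y * gs k h (y - y₀))) + (1 + r) * E) =
      (∫ y₀ in (t + 1)..(t + H - 1), ∫ y in t..(t + H), f0 y * gs k h (y - y₀)) +
        r * (∫ y₀ in (t + 1)..(t + H - 1), ∫ y in t..(t + H), f2 y * gs k h (y - y₀)) +
        (t + H - 1 - (t + 1)) * ((1 + r) * E) := by
    rw [intervalIntegral.integral_add (I0.add I2') Ic, intervalIntegral.integral_add I0 I2',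
      intervalIntegral.integral_const_mul, intervalIntegral.integral_const, smul_eq_mul]
  rw [e2, swap k h f1 c1, swap k h f0 c0, swap k h f2 c2] at hint
  have hw := w_cont k h (t + 1) (t + H - 1)
  have hlow : (1 - √2 * Real.exp (-(k / h ^ 2))) * S * (∫ u in (t + 2)..(t + H - 2), f1 u) ≤
      ∫ y in (t + 2)..(t + H - 2), f1 y * ∫ y₀ in (t + 1)..(t + H - 1), gs k h (y - y₀) := by
    rw [← intervalIntegral.integral_const_mul]
    apply intervalIntegral.integral_mono_on (by linarith)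
      ((continuous_const.mul c1).intervalIntegrable _ _) ((c1.mul hw).intervalIntegrable _ _)
    intro y hy
    have h3 := w_lower k h hk hh t H y hH hy.1 hy.2
    rw [← hS] at h3
    have h4 := mul_le_mul_of_nonneg_left h3 (n1 y)
    show (1 - √2 * Real.exp (-(k / h ^ 2))) * S * f1 y ≤
      f1 y * ∫ y₀ in (t + 1)..(t + H - 1), gs k h (y - y₀)
    linarith
  have hup : ∀ f : ℝ → ℝ, Continuous f → (∀ y, 0 ≤ f y) →
      ∫ y in t..(t + H), f y * ∫ y₀ in (t + 1)..(t + H - 1), gs k h (y - y₀) ≤ S * ∫ u in t..(t + H), f u := by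
    intro f hf hn
    rw [← intervalIntegral.integral_const_mul]
    apply intervalIntegral.integral_mono_on (by linarith)
      ((hf.mul hw).intervalIntegrable _ _) ((continuous_const.mul hf).intervalIntegrable _ _)
    intro y _
    have h3 := w_upper k h hk hh t H y hH
    rw [← hS] at h3
    have h4 := mul_le_mul_of_nonneg_left h3 (hn y)
    show f y * ∫ y₀ in (t + 1)..(t + H - 1), gs k h (y - y₀) ≤ S * f y
    linarith
  have h6 := hup f0 c0 n0
  have h7 := mul_le_mul_of_nonneg_left (hup f2 c2 n2) hr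
  have e1 : (t + H - 1 - (t + 1)) * ((1 + r) * E) = (1 + r) * ((H - 2) * E) := by ring
  rw [e1] at hint
  linarith

lemma final (k A B : ℝ) (hk : 0 < k) (hA : 0 ≤ A) (hB : 0 ≤ B) : ∃ C : ℝ, 0 < C ∧
    ∀ (h : ℝ), 0 < h → h ≤ 1 / 4 → ∀ (f1 f0 f2 : ℝ → ℝ), Continuous f1 → Continuous f0 → Continuous f2 →
    (∀ y, 0 ≤ f1 y) → (∀ y, 0 ≤ f0 y) → (∀ y, 0 ≤ f2 y) →
    (∀ y, f1 y ≤ A * (1 + |y|) ^ B) → (∀ y, f0 y ≤ A * (1 + |y|) ^ B) →
    (∀ y, f2 y ≤ A * (1 + |y|) ^ B) → ∀ r : ℝ, 0 ≤ r → r ≤ Real.exp (2 * k) →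
    (∀ y₀, ∫ y, f1 y * gs k h (y - y₀) ≤ (∫ y, f0 y * gs k h (y - y₀)) + r * ∫ y, f2 y * gs k h (y - y₀)) →
    ∀ t H : ℝ, 0 ≤ t → 4 ≤ H →
    (1 - C * h) * (∫ u in (t + 2)..(t + H - 2), f1 u) ≤
      (∫ u in t..(t + H), f0 u) + r * (∫ u in t..(t + H), f2 u) +
        C * (t + H) ^ C * Real.exp (-(k / (2 * h ^ 2))) := by
  obtain ⟨D, hD⟩ : ∃ D, D = (1 + Real.exp (2 * k)) * (2 * A * Real.exp (B ^ 2 / (2 * k)) * 2 ^ B * (1 / (2 * k))) :=
    ⟨_, rfl⟩
  have hD0 : 0 ≤ D := by rw [hD]; positivity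
  refine ⟨D + (B + 1) + 1 / (2 * k), by positivity, ?_⟩
  intro h hh hh4 f1 f0 f2 c1 c0 c2 n1 n0 n2 b1 b0 b2 r hr hr2 hyp t H ht hH
  obtain ⟨C, hC⟩ : ∃ C, C = D + (B + 1) + 1 / (2 * k) := ⟨_, rfl⟩
  rw [← hC]
  have hk2 : 0 < 1 / (2 * k) := by positivity
  have hCD : D ≤ C := by rw [hC]; linarith
  have hCB : B + 1 ≤ C := by rw [hC]; linarith
  have hCk : 1 / (2 * k) ≤ C := by rw [hC]; linarith
  have hC0 : 0 < C := by linarith
  have hc := comb k h A B hk hh hh4 hA hB f1 f0 f2 c1 c0 c2 n1 n0 n2 b1 b0 b2 r hr hyp t H ht hH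
  obtain ⟨P, hP⟩ : ∃ P, P = ∫ u in (t + 2)..(t + H - 2), f1 u := ⟨_, rfl⟩
  obtain ⟨Q0, hQ0⟩ : ∃ Q, Q = ∫ u in t..(t + H), f0 u := ⟨_, rfl⟩
  obtain ⟨Q2, hQ2⟩ : ∃ Q, Q = ∫ u in t..(t + H), f2 u := ⟨_, rfl⟩
  rw [← hP, ← hQ0, ← hQ2] at hc ⊢
  have hP0 : 0 ≤ P := by
    rw [hP]
    exact intervalIntegral.integral_nonneg (by linarith) fun u _ => n1 u
  obtain ⟨s, hs⟩ : ∃ s, s = √(Real.pi / (2 * k)) := ⟨_, rfl⟩
  have hs0 : 0 < s := by rw [hs]; exact Real.sqrt_pos.mpr (by positivity)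
  have hS : √(Real.pi / (2 * k / h ^ 2)) = h * s := by
    rw [hs, show Real.pi / (2 * k / h ^ 2) = h ^ 2 * (Real.pi / (2 * k)) by field_simp,
      Real.sqrt_mul (by positivity), Real.sqrt_sq hh.le]
  have hS2 : √(Real.pi / (k / 2)) = 2 * s := by
    rw [hs, show Real.pi / (k / 2) = 2 ^ 2 * (Real.pi / (2 * k)) by field_simp,
      Real.sqrt_mul (by positivity), Real.sqrt_sq (by norm_num)]
  rw [hS, hS2] at hc
  obtain ⟨x, hx⟩ : ∃ x, x = k / (2 * h ^ 2) := ⟨_, rfl⟩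
  have hx0 : 0 < x := by rw [hx]; positivity
  have hkx : k / h ^ 2 = x + x := by rw [hx]; field_simp; ring
  have hxs : Real.exp (-x) ≤ 2 * h ^ 2 / k := by
    refine (exp_small x hx0).trans (le_of_eq ?_)
    rw [hx]
    field_simp
  have hx4 : 2 * h ^ 2 / k ≤ h * (1 / (2 * k)) := by
    rw [div_le_iff₀ hk]
    have e : h * (1 / (2 * k)) * k = h / 2 := by field_simp
    rw [e]
    nlinarith
  have hexp : Real.exp (-(k / h ^ 2)) = Real.exp (-x) * Real.exp (-x) := by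
    rw [hkx, ← Real.exp_add]
    congr 1
    ring
  have hex1 : Real.exp (-x) ≤ 1 := by
    rw [Real.exp_le_one_iff]
    linarith
  have hexn := (Real.exp_pos (-x)).le
  rw [← hx]
  have hdiv : (1 - √2 * Real.exp (-(k / h ^ 2))) * P ≤ Q0 + r * Q2 +
      (1 + r) * ((H - 2) * (2 * A * (1 + t + H) ^ B * Real.exp (B ^ 2 / (2 * k)) *
        (Real.exp (-(k / h ^ 2)) / h))) := by
    have hpos : 0 < h * s := by positivity
    refine le_of_mul_le_mul_left ?_ hpos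
    refine le_trans (le_of_eq ?_) (hc.trans (le_of_eq ?_))
    · ring
    · field_simp
  have hT : 0 < t + H := by linarith
  have h1T : 1 ≤ t + H := by linarith
  have hbig : (1 + t + H) ^ B ≤ 2 ^ B * (t + H) ^ B := by
    rw [← Real.mul_rpow (by norm_num) hT.le]
    exact Real.rpow_le_rpow (by positivity) (by linarith) hB
  have hq : Real.exp (-(k / h ^ 2)) / h ≤ Real.exp (-x) * (1 / (2 * k)) := by
    rw [div_le_iff₀ hh, hexp, mul_assoc]
    apply mul_le_mul_of_nonneg_left _ hexn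
    linarith
  have htail : (1 + r) * ((H - 2) * (2 * A * (1 + t + H) ^ B * Real.exp (B ^ 2 / (2 * k)) *
        (Real.exp (-(k / h ^ 2)) / h))) ≤ C * (t + H) ^ C * Real.exp (-x) := by
    calc (1 + r) * ((H - 2) * (2 * A * (1 + t + H) ^ B * Real.exp (B ^ 2 / (2 * k)) *
          (Real.exp (-(k / h ^ 2)) / h)))
        ≤ (1 + Real.exp (2 * k)) * ((t + H) * (2 * A * (2 ^ B * (t + H) ^ B) * Real.exp (B ^ 2 / (2 * k)) *
          (Real.exp (-x) * (1 / (2 * k))))) := by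
          have hX0 : 0 ≤ 2 * A * (1 + t + H) ^ B * Real.exp (B ^ 2 / (2 * k)) *
              (Real.exp (-(k / h ^ 2)) / h) := by positivity
          have hX : 2 * A * (1 + t + H) ^ B * Real.exp (B ^ 2 / (2 * k)) *
              (Real.exp (-(k / h ^ 2)) / h) ≤ 2 * A * (2 ^ B * (t + H) ^ B) * Real.exp (B ^ 2 / (2 * k)) *
                (Real.exp (-x) * (1 / (2 * k))) := by
            gcongr
          exact mul_le_mul (by linarith) (mul_le_mul (by linarith) hX hX0 hT.le)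
            (mul_nonneg (by linarith) hX0) (by positivity)
      _ = D * ((t + H) * (t + H) ^ B) * Real.exp (-x) := by rw [hD]; ring
      _ = D * (t + H) ^ (B + 1) * Real.exp (-x) := by
          rw [Real.rpow_add hT, Real.rpow_one, mul_comm (t + H)]
      _ ≤ C * (t + H) ^ C * Real.exp (-x) := by
          apply mul_le_mul_of_nonneg_right _ hexn
          apply mul_le_mul hCD (Real.rpow_le_rpow_of_exponent_le h1T hCB) (by positivity) hC0.le
  have hsm : √2 * Real.exp (-(k / h ^ 2)) ≤ C * h := by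
    have h2 : √2 ≤ 2 := by
      rw [Real.sqrt_le_left (by norm_num)]
      norm_num
    have h3 : Real.exp (-(k / h ^ 2)) ≤ h ^ 2 / k := by
      refine (exp_small (k / h ^ 2) (by positivity)).trans (le_of_eq ?_)
      field_simp
    have h4 : √2 * Real.exp (-(k / h ^ 2)) ≤ 2 * (h ^ 2 / k) :=
      mul_le_mul h2 h3 (Real.exp_pos _).le (by norm_num)
    have h5 : 2 * (h ^ 2 / k) = 2 * h ^ 2 / k := by ring
    have h6 : h * (1 / (2 * k)) ≤ h * C := mul_le_mul_of_nonneg_left hCk hh.le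
    linarith
  have hfin : (1 - C * h) * P ≤ (1 - √2 * Real.exp (-(k / h ^ 2))) * P :=
    mul_le_mul_of_nonneg_right (by linarith) hP0
  linarith

end Pool.Agent.H6F.INTGaux

namespace Pool.Agent.H6F.INTG

open Filter MeasureTheory Topology Complex
open Pool.Agent.N748.MG Pool.Agent.N748.MJ
open Pool.Agent.H6F.INTGaux

lemma mz_cont {x : ℝ} (hx : x ≤ 1 / 4) : Continuous fun t : ℝ => mz x t := by
  have : Continuous fun t : ℝ => riemannZeta (pw x t) := by
    rw [continuous_iff_continuousAt]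
    intro t
    have hne : pw x t ≠ 1 := by
      intro h
      have h1 := congrArg Complex.re h
      unfold pw at h1
      simp at h1
      linarith
    have h1 : ContinuousAt riemannZeta (pw x t) := (differentiableAt_riemannZeta hne).continuousAt
    have h2 : Continuous (pw x) := by
      unfold pw
      fun_prop
    exact ContinuousAt.comp (f := fun t : ℝ => pw x t) h1 h2.continuousAt
  exact this.norm

theorem t (h1 : S_GAU) (h2 : S_ZPB) : S_INTG := by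
  intro k hk
  obtain ⟨C0, hC0, hb⟩ := h2
  obtain ⟨C, hC, hmain⟩ := final k (C0 ^ (2 * k)) (C0 * (2 * k)) hk (by positivity) (by positivity)
  refine ⟨C, hC, ?_⟩
  intro d h t H hd hdh hh4 ht hH
  have hh : 0 < h := by linarith
  have hmz : ∀ x y : ℝ, 0 ≤ mz x y := fun x y => norm_nonneg _
  have hbound : ∀ x : ℝ, 0 ≤ x → x ≤ 1 / 4 → ∀ y : ℝ,
      mz x y ^ (2 * k) ≤ C0 ^ (2 * k) * (1 + |y|) ^ (C0 * (2 * k)) := by
    intro x hx0 hx4 y
    calc mz x y ^ (2 * k) ≤ (C0 * (1 + |y|) ^ C0) ^ (2 * k) :=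
          Real.rpow_le_rpow (hmz x y) (hb x y hx0 hx4) (by positivity)
      _ = C0 ^ (2 * k) * (1 + |y|) ^ (C0 * (2 * k)) := by
          rw [Real.mul_rpow hC0.le (by positivity), ← Real.rpow_mul (by positivity)]
  have hcont : ∀ x : ℝ, x ≤ 1 / 4 → Continuous fun y : ℝ => mz x y ^ (2 * k) := by
    intro x hx
    exact (mz_cont hx).rpow_const fun y => Or.inr (by positivity)
  have hr2 : d / h * Real.exp (2 * k) ≤ Real.exp (2 * k) := by
    have h3 : d / h ≤ 1 := by rw [div_le_one hh]; exact hdh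
    have h4 := mul_le_mul_of_nonneg_right h3 (Real.exp_pos (2 * k)).le
    linarith
  exact hmain h hh hh4 (fun y => mz d y ^ (2 * k)) (fun y => mz 0 y ^ (2 * k)) (fun y => mz h y ^ (2 * k))
    (hcont d (by linarith)) (hcont 0 (by norm_num)) (hcont h hh4)
    (fun y => Real.rpow_nonneg (hmz d y) _) (fun y => Real.rpow_nonneg (hmz 0 y) _)
    (fun y => Real.rpow_nonneg (hmz h y) _)
    (hbound d hd.le (by linarith)) (hbound 0 le_rfl (by norm_num)) (hbound h hh.le hh4)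
    (d / h * Real.exp (2 * k)) (by positivity) hr2
    (fun y₀ => h1 k d h y₀ hk hd hdh hh4) t H ht hH

end Pool.Agent.H6F.INTG
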