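import Pool.Agent.H6F.Stm3
import Pool.Agent.N748.MG.Ev

set_option autoImplicit false

/-!
# Stub LINE: the lower bound on the critical line
-/

namespace Pool.Agent.H6F.LINE

open Filter MeasureTheory Topology Complex
open Pool.Agent.N748.MG Pool.Agent.N748.MJ Pool.Agent.H6F

/-- the larger distance -/
noncomputable def hh (d : ℝ → ℝ) (T : ℝ) : ℝ := (2 * d T) ^ (3 / 4 : ℝ) / 2

lemma tend_rpow {d : ℝ → ℝ} (hd : Ad d) {a : ℝ} (ha : 0 < a) :
    Tendsto (fun T => (2 * d T) ^ a) atTop (𝓝 0) := by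
  have h1 : Tendsto (fun T => 2 * d T) atTop (𝓝 (2 * 0)) := hd.t0.const_mul 2
  rw [mul_zero] at h1
  have h2 := h1.rpow_const (p := a) (Or.inr ha.le)
  rwa [Real.zero_rpow ha.ne'] at h2

lemma le_hh {x : ℝ} (h0 : 0 < x) (h1 : x ≤ 1 / 2) : x ≤ (2 * x) ^ (3 / 4 : ℝ) / 2 := by
  have h2 : (2 * x) ^ (1 : ℝ) ≤ (2 * x) ^ (3 / 4 : ℝ) :=
    Real.rpow_le_rpow_of_exponent_ge (by linarith) (by linarith) (by norm_num)
  rw [Real.rpow_one] at h2
  linarith

lemma hh_t0 {d : ℝ → ℝ} (hd : Ad d) : Tendsto (hh d) atTop (𝓝 0) := by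
  have := (tend_rpow hd (by norm_num : (0:ℝ) < 3 / 4)).div_const 2
  rw [zero_div] at this
  exact this

lemma hh_Ad {d : ℝ → ℝ} (hd : Ad d) : Ad (hh d) := by
  refine ⟨?_, hh_t0 hd, ?_⟩
  · filter_upwards [hd.pos] with T hT
    unfold hh
    have : 0 < (2 * d T) ^ (3 / 4 : ℝ) := Real.rpow_pos_of_pos (by linarith) _
    linarith
  · refine tendsto_atTop_mono' _ ?_ hd.tL
    filter_upwards [hd.pos, hd.t0.eventually_le_const (by norm_num : (0:ℝ) < 1 / 16),
      (hh_t0 hd).eventually_le_const (by norm_num : (0:ℝ) < 1 / 2), eventually_ge_atTop 1]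
      with T h0 h1 h2 h3
    have h4 : d T ≤ hh d T := le_hh h0 (by linarith)
    have h5 : 0 < hh d T := by linarith
    have hL : 0 ≤ Real.log T := Real.log_nonneg h3
    have h6 : 1 / hh d T ≤ 1 / d T := one_div_le_one_div_of_le h0 h4
    have h7 : 0 < Real.log (1 / hh d T) := by
      apply Real.log_pos
      rw [lt_div_iff₀ h5]
      linarith
    have h8 : Real.log (1 / hh d T) ≤ Real.log (1 / d T) := Real.log_le_log (by positivity) h6
    have h9 : Real.log (1 / hh d T) ^ 2 ≤ Real.log (1 / d T) ^ 2 := by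
      apply pow_le_pow_left₀ h7.le h8
    have h10 : 0 < Real.log (1 / hh d T) ^ 2 := by positivity
    exact div_le_div₀ (mul_nonneg h5.le hL) (mul_le_mul_of_nonneg_right h4 hL) h10 h9

lemma M_pos (h5 : S_APOS) {k d : ℝ} (hd : 0 < d) : 0 < M k d := by
  unfold M
  exact mul_pos (h5 k).1 (Real.rpow_pos_of_pos (by linarith) _)

lemma two_hh (d : ℝ → ℝ) (T : ℝ) : 2 * hh d T = (2 * d T) ^ (3 / 4 : ℝ) := by
  unfold hh
  ring

lemma H_eq {d : ℝ → ℝ} {T : ℝ} (h0 : 0 < d T) (θ : ℝ) :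
    (2 * hh d T) ^ (-(4 * θ / 3)) = (2 * d T) ^ (-θ) := by
  rw [two_hh, ← Real.rpow_mul (by linarith)]
  congr 1
  ring

lemma M_le (h5 : S_APOS) {d : ℝ → ℝ} {T k : ℝ} (h0 : 0 < d T) (h1 : d T ≤ 1 / 16) :
    M k (hh d T) ≤ M k (d T) := by
  unfold M
  refine mul_le_mul_of_nonneg_left ?_ (h5 k).1.le
  rw [two_hh, ← Real.rpow_mul (by linarith)]
  refine Real.rpow_le_rpow_of_exponent_ge (by linarith) (by linarith) ?_
  nlinarith [sq_nonneg k]

lemma M_ge (h5 : S_APOS) {x k : ℝ} (h0 : 0 < x) (h1 : x ≤ 1 / 16) :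
    (aC (k : ℂ)).re ≤ M k x := by
  unfold M
  have h2 : 1 ≤ (2 * x) ^ (-(k ^ 2)) := by
    apply Real.one_le_rpow_of_pos_of_le_one_of_nonpos (by linarith) (by linarith)
    nlinarith [sq_nonneg k]
  exact le_mul_of_one_le_right (h5 k).1.le h2

/-- the last term of INTG -/
lemma last {d : ℝ → ℝ} (hd : Ad d) (hsm : ∀ᶠ T : ℝ in atTop, d T ≤ Real.log T ^ (-(3 / 4 : ℝ)))
    {k C e : ℝ} (hk : 0 < k) (hC : 0 < C) (he : 0 < e) :
    ∀ᶠ T : ℝ in atTop, C * (2 * T) ^ C * Real.exp (-(k / (2 * hh d T ^ 2))) ≤ e := by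
  have hL : Tendsto Real.log atTop atTop := Real.tendsto_log_atTop
  have hL8 : Tendsto (fun T => Real.log T ^ (1 / 8 : ℝ)) atTop atTop :=
    (tendsto_rpow_atTop (by norm_num : (0:ℝ) < 1 / 8)).comp hL
  filter_upwards [hd.pos, hsm, hL8.eventually_ge_atTop (2 / k * (2 * C + 1)),
    eventually_ge_atTop 2, eventually_ge_atTop (C / e), hL.eventually_gt_atTop 0,
    (hh_t0 hd).eventually_le_const (by norm_num : (0:ℝ) < 1 / 2),
    hd.t0.eventually_le_const (by norm_num : (0:ℝ) < 1 / 16)] with T h0 h1 h2 h3 h4 h5 h6 h7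
  set L := Real.log T with hLd
  have hT0 : 0 < T := by linarith
  have hh0 : 0 < hh d T := by
    have := le_hh h0 (by linarith)
    unfold hh
    linarith
  -- `h^2 ≤ L^(-9/8)`
  have a1 : hh d T ^ 2 ≤ L ^ (-(9 / 8) : ℝ) := by
    have b1 : 2 * d T ≤ 2 * L ^ (-(3 / 4 : ℝ)) := by linarith
    have b2 : (2 * d T) ^ (3 / 2 : ℝ) ≤ (2 * L ^ (-(3 / 4 : ℝ))) ^ (3 / 2 : ℝ) :=
      Real.rpow_le_rpow (by linarith) b1 (by norm_num)
    have b3 : hh d T ^ 2 = (2 * d T) ^ (3 / 2 : ℝ) / 4 := by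
      unfold hh
      rw [div_pow, ← Real.rpow_natCast, ← Real.rpow_mul (by linarith)]
      norm_num
    have b4 : (2 * L ^ (-(3 / 4 : ℝ))) ^ (3 / 2 : ℝ) = 2 ^ (3 / 2 : ℝ) * L ^ (-(9 / 8) : ℝ) := by
      rw [Real.mul_rpow (by norm_num) (Real.rpow_nonneg h5.le _), ← Real.rpow_mul h5.le]
      norm_num
    have b5 : (2 : ℝ) ^ (3 / 2 : ℝ) ≤ 4 := by
      calc (2 : ℝ) ^ (3 / 2 : ℝ) ≤ 2 ^ (2 : ℝ) :=
            Real.rpow_le_rpow_of_exponent_le (by norm_num) (by norm_num)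
        _ = 4 := by norm_num
    have b6 : 0 ≤ L ^ (-(9 / 8) : ℝ) := Real.rpow_nonneg h5.le _
    rw [b3]
    rw [b4] at b2
    have b7 : (2 : ℝ) ^ (3 / 2 : ℝ) * L ^ (-(9 / 8) : ℝ) ≤ 4 * L ^ (-(9 / 8) : ℝ) :=
      mul_le_mul_of_nonneg_right b5 b6
    linarith
  have a2 : L ^ (9 / 8 : ℝ) ≤ 1 / hh d T ^ 2 := by
    rw [le_div_iff₀ (by positivity)]
    calc L ^ (9 / 8 : ℝ) * hh d T ^ 2 ≤ L ^ (9 / 8 : ℝ) * L ^ (-(9 / 8) : ℝ) :=
          mul_le_mul_of_nonneg_left a1 (Real.rpow_nonneg h5.le _)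
      _ = 1 := by rw [← Real.rpow_add h5]; norm_num
  have a3 : L ^ (9 / 8 : ℝ) = L * L ^ (1 / 8 : ℝ) := by
    rw [← Real.rpow_one_add' h5.le (by norm_num)]
    norm_num
  have a4 : (2 * C + 1) * L ≤ k / (2 * hh d T ^ 2) := by
    have b1 : 2 / k * (2 * C + 1) * L ≤ L * L ^ (1 / 8 : ℝ) := by
      rw [mul_comm L]
      exact mul_le_mul_of_nonneg_right h2 h5.le
    have b2 : k / (2 * hh d T ^ 2) = k / 2 * (1 / hh d T ^ 2) := by
      field_simp
    rw [b2]
    calc (2 * C + 1) * L = k / 2 * (2 / k * (2 * C + 1) * L) := by field_simp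
      _ ≤ k / 2 * (L * L ^ (1 / 8 : ℝ)) := mul_le_mul_of_nonneg_left b1 (by positivity)
      _ ≤ k / 2 * (1 / hh d T ^ 2) := by
          rw [← a3]
          exact mul_le_mul_of_nonneg_left a2 (by positivity)
  have a5 : (2 * T) ^ C ≤ Real.exp (2 * C * L) := by
    rw [Real.rpow_def_of_pos (by linarith)]
    apply Real.exp_le_exp.mpr
    have b1 : Real.log (2 * T) ≤ 2 * L := by
      rw [Real.log_mul (by norm_num) hT0.ne']
      have : Real.log 2 ≤ Real.log T := Real.log_le_log (by norm_num) h3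
      linarith
    nlinarith
  calc C * (2 * T) ^ C * Real.exp (-(k / (2 * hh d T ^ 2)))
      ≤ C * Real.exp (2 * C * L) * Real.exp (-((2 * C + 1) * L)) := by
        gcongr
    _ = C * Real.exp (-L) := by
        rw [mul_assoc, ← Real.exp_add]
        congr 2
        ring
    _ = C / T := by
        rw [Real.exp_neg, Real.exp_log hT0, div_eq_mul_inv]
    _ ≤ e := by
        rw [div_le_iff₀ hT0]
        rw [div_le_iff₀ he] at h4
        linarith

/-- **LINE.** -/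
theorem t (h1 : S_INTG) (h2 : S_EDGE) (h3 : S_LLN2) (h4 : S_APOS) : S_LINE := by
  intro d hd hsm k θ ε hk hθ hkθ hε
  obtain ⟨C, hC, hI⟩ := h1 k hk
  obtain ⟨e, he⟩ : ∃ e : ℝ, e = min ε 1 := ⟨_, rfl⟩
  have he0 : 0 < e := by rw [he]; exact lt_min hε one_pos
  have he1 : e ≤ 1 := by rw [he]; exact min_le_right _ _
  have heε : e ≤ ε := by rw [he]; exact min_le_left _ _
  have ha : 0 < (aC (k : ℂ)).re := (h4 k).1
  have hE := h2 d hd k θ (e / 4) hk hθ hkθ (by positivity)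
  have hN := h3 (hh d) (hh_Ad hd) k (4 * θ / 3) (e / 4) hk (by positivity)
    (by nlinarith) (by positivity)
  have g1 : ∀ᶠ T : ℝ in atTop, (2 * d T) ^ θ ≤ 1 / 4 :=
    (tend_rpow hd hθ).eventually_le_const (by norm_num)
  have g2 : ∀ᶠ T : ℝ in atTop, hh d T ≤ e / (4 * C) :=
    (hh_t0 hd).eventually_le_const (by positivity)
  have g3 : ∀ᶠ T : ℝ in atTop, (2 * d T) ^ (1 / 4 : ℝ) ≤ e / (8 * Real.exp (2 * k)) :=
    (tend_rpow hd (by norm_num)).eventually_le_const (by positivity)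
  have g4 := last hd hsm hk hC (mul_pos (by positivity : (0:ℝ) < e / 4) ha)
  have g5 : ∀ᶠ T : ℝ in atTop, (d T) ^ (-θ) ≤ 1 / 2 ^ (-θ) * T ^ ((1:ℝ)) :=
    Ev.app (Ev.win (D := θ) (c := 1 / 2 ^ (-θ)) (e := 1) (by positivity) one_pos) hd
  filter_upwards [hE, hN, g1, g2, g3, g4, g5, hd.pos,
    hd.t0.eventually_le_const (by norm_num : (0:ℝ) < 1 / 16),
    (hh_t0 hd).eventually_le_const (by norm_num : (0:ℝ) < 1 / 4), eventually_ge_atTop 1]
    with T kE kN k1 k2 k3 k4 k5 k6 k7 k8 k9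
  have hT0 : 0 < T := by linarith
  obtain ⟨H, hH⟩ : ∃ H : ℝ, H = (2 * d T) ^ (-θ) := ⟨_, rfl⟩
  rw [H_eq k6] at kN
  rw [← hH] at kE kN ⊢
  have hH4 : 4 ≤ H := by
    rw [hH, Real.rpow_neg (by linarith)]
    have : 0 < (2 * d T) ^ θ := Real.rpow_pos_of_pos (by linarith) _
    rw [le_inv_comm₀ (by norm_num) this]
    linarith
  have hH0 : 0 < H := by linarith
  have hHT : H ≤ T := by
    rw [hH, Real.mul_rpow (by norm_num) k6.le]
    have b1 : (0:ℝ) < 2 ^ (-θ) := by positivity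
    rw [Real.rpow_one] at k5
    calc (2:ℝ) ^ (-θ) * (d T) ^ (-θ) ≤ 2 ^ (-θ) * (1 / 2 ^ (-θ) * T) :=
          mul_le_mul_of_nonneg_left k5 b1.le
      _ = T := by field_simp
  have hdh : d T ≤ hh d T := le_hh k6 (by linarith)
  have hh0 : 0 < hh d T := by linarith
  have hM0 : 0 < M k (d T) := M_pos h4 k6
  have hMh0 : 0 < M k (hh d T) := M_pos h4 hh0
  have hMh : M k (hh d T) ≤ M k (d T) := M_le h4 k6 k7
  have hMa : (aC (k : ℂ)).re ≤ M k (d T) := M_ge h4 k6 k7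
  have hCh : C * hh d T ≤ e / 4 := by
    calc C * hh d T ≤ C * (e / (4 * C)) := mul_le_mul_of_nonneg_left k2 hC.le
      _ = e / 4 := by field_simp
  have hratio : d T / hh d T = (2 * d T) ^ (1 / 4 : ℝ) := by
    rw [div_eq_iff hh0.ne']
    unfold hh
    rw [← mul_div_assoc, ← Real.rpow_add (by linarith)]
    norm_num
  -- the inclusion
  have hsub : {t : ℝ | 0 ≤ t ∧ t ≤ T ∧ (1 / H) * (∫ u in t..(t + H), mz 0 u ^ (2 * k)) <
      (1 - ε) * M k (d T)} ⊆
      {t : ℝ | 0 ≤ t ∧ t ≤ T ∧ (1 / H) * (∫ u in (t + 2)..(t + H - 2), mz (d T) u ^ (2 * k)) <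
        (1 - e / 4) * M k (d T)} ∪
      {t : ℝ | 0 ≤ t ∧ t ≤ T ∧ e / 4 * M k (hh d T) < |av k (hh d T) H t - M k (hh d T)|} := by
    rintro t ⟨ht0, htT, hlt⟩
    by_contra hcon
    rw [Set.mem_union, not_or] at hcon
    obtain ⟨c1, c2⟩ := hcon
    have c1' : (1 - e / 4) * M k (d T) ≤
        (1 / H) * (∫ u in (t + 2)..(t + H - 2), mz (d T) u ^ (2 * k)) := by
      by_contra hx
      exact c1 ⟨ht0, htT, not_le.mp hx⟩
    have c2' : |av k (hh d T) H t - M k (hh d T)| ≤ e / 4 * M k (hh d T) := by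
      by_contra hx
      exact c2 ⟨ht0, htT, not_le.mp hx⟩
    have c3 : (1 / H) * ∫ u in t..(t + H), mz (hh d T) u ^ (2 * k) ≤ 2 * M k (d T) := by
      have b1 := (abs_le.mp c2').2
      have b2 : av k (hh d T) H t = (1 / H) * ∫ u in t..(t + H), mz (hh d T) u ^ (2 * k) := rfl
      rw [← b2]
      nlinarith
    have hint := hI (d T) (hh d T) t H k6 hdh k8 ht0 hH4
    obtain ⟨I0, hI0⟩ : ∃ x : ℝ, x = ∫ u in t..(t + H), mz 0 u ^ (2 * k) := ⟨_, rfl⟩
    obtain ⟨Id, hId⟩ : ∃ x : ℝ, x = ∫ u in (t + 2)..(t + H - 2), mz (d T) u ^ (2 * k) := ⟨_, rfl⟩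
    obtain ⟨Ih, hIh⟩ : ∃ x : ℝ, x = ∫ u in t..(t + H), mz (hh d T) u ^ (2 * k) := ⟨_, rfl⟩
    obtain ⟨Ex, hEx⟩ : ∃ x : ℝ, x = C * (t + H) ^ C * Real.exp (-(k / (2 * hh d T ^ 2))) :=
      ⟨_, rfl⟩
    rw [← hI0, ← hId, ← hIh, ← hEx] at hint
    rw [← hI0] at hlt
    rw [← hId] at c1'
    rw [← hIh] at c3
    -- the last term
    have d1 : (1 / H) * Ex ≤ e / 4 * M k (d T) := by
      have b1 : (t + H) ^ C ≤ (2 * T) ^ C :=
        Real.rpow_le_rpow (by linarith) (by linarith) hC.le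
      have b2 : Ex ≤ e / 4 * (aC (k : ℂ)).re := by
        refine le_trans ?_ k4
        rw [hEx]
        gcongr
      have b3 : 0 ≤ Ex := by
        rw [hEx]
        have : 0 ≤ (t + H) ^ C := Real.rpow_nonneg (by linarith) _
        positivity
      have b4 : (1 / H) * Ex ≤ 1 * Ex := by
        apply mul_le_mul_of_nonneg_right _ b3
        rw [div_le_one hH0]
        linarith
      calc (1 / H) * Ex ≤ 1 * Ex := b4
        _ = Ex := one_mul _
        _ ≤ e / 4 * (aC (k : ℂ)).re := b2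
        _ ≤ e / 4 * M k (d T) := mul_le_mul_of_nonneg_left hMa (by positivity)
    -- the middle term
    have d2 : (1 / H) * (d T / hh d T * Real.exp (2 * k) * Ih) ≤ e / 4 * M k (d T) := by
      have b1 : 0 ≤ d T / hh d T * Real.exp (2 * k) := by positivity
      have b2 : d T / hh d T * Real.exp (2 * k) ≤ e / 8 := by
        rw [hratio]
        calc (2 * d T) ^ (1 / 4 : ℝ) * Real.exp (2 * k)
            ≤ e / (8 * Real.exp (2 * k)) * Real.exp (2 * k) :=
              mul_le_mul_of_nonneg_right k3 (Real.exp_pos _).le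
          _ = e / 8 := by
              have := Real.exp_pos (2 * k)
              field_simp
      calc (1 / H) * (d T / hh d T * Real.exp (2 * k) * Ih)
          = d T / hh d T * Real.exp (2 * k) * ((1 / H) * Ih) := by ring
        _ ≤ d T / hh d T * Real.exp (2 * k) * (2 * M k (d T)) :=
            mul_le_mul_of_nonneg_left c3 b1
        _ ≤ e / 8 * (2 * M k (d T)) := mul_le_mul_of_nonneg_right b2 (by positivity)
        _ = e / 4 * M k (d T) := by ring
    -- the main term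
    have d3 : (1 - e / 2) * M k (d T) ≤ (1 - C * hh d T) * ((1 / H) * Id) := by
      have b1 : 1 - e / 4 ≤ 1 - C * hh d T := by linarith
      have b2 : 0 ≤ (1 / H) * Id := le_trans (mul_nonneg (by linarith) hM0.le) c1'
      calc (1 - e / 2) * M k (d T) ≤ (1 - e / 4) * ((1 - e / 4) * M k (d T)) := by
            nlinarith [mul_nonneg (sq_nonneg e) hM0.le]
        _ ≤ (1 - e / 4) * ((1 / H) * Id) := mul_le_mul_of_nonneg_left c1' (by linarith)
        _ ≤ (1 - C * hh d T) * ((1 / H) * Id) := mul_le_mul_of_nonneg_right b1 b2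
    have d4 : (1 / H) * ((1 - C * hh d T) * Id) ≤
        (1 / H) * (I0 + d T / hh d T * Real.exp (2 * k) * Ih + Ex) :=
      mul_le_mul_of_nonneg_left hint (by positivity)
    have d5 : (1 / H) * ((1 - C * hh d T) * Id) = (1 - C * hh d T) * ((1 / H) * Id) := by ring
    rw [d5, mul_add, mul_add] at d4
    have d6 : (1 - ε) * M k (d T) ≤ (1 - e) * M k (d T) :=
      mul_le_mul_of_nonneg_right (by linarith) hM0.le
    linarith
  refine (measure_mono hsub).trans ((measure_union_le _ _).trans ?_)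
  refine (add_le_add kE kN).trans ?_
  rw [← ENNReal.ofReal_add (by positivity) (by positivity)]
  apply ENNReal.ofReal_le_ofReal
  have f1 := mul_le_mul_of_nonneg_right heε hT0.le
  have f2 := mul_pos he0 hT0
  linarith

end Pool.Agent.H6F.LINE
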