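import Pool.Agent.H6F.Stm4
import Pool.Agent.N748.MG.TMA

set_option autoImplicit false

/-!
# Stub LONG: all lengths
-/

namespace Pool.Agent.H6F.LONG

open Filter MeasureTheory Topology Complex
open Pool.Agent.N748.MG Pool.Agent.N748.MJ Pool.Agent.H6F

/-- the average of averages -/
lemma avg {f : ℝ → ℝ} (hc : Continuous f) (h0 : ∀ u, 0 ≤ f u) {H₀ H t : ℝ} (h1 : 0 < H₀) (h2 : H₀ ≤ H) :
    ∫ v in t..(t + H - H₀), (1 / H₀) * ∫ u in v..(v + H₀), f u ≤ ∫ u in t..(t + H), f u := by
  have e1 : ∀ v, ∫ u in v..(v + H₀), f u = ∫ x in (0:ℝ)..H₀, f (v + x) := by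
    intro v
    rw [intervalIntegral.integral_comp_add_left (fun u => f u) v, add_zero]
  have e2 : ∫ v in t..(t + H - H₀), ∫ x in (0:ℝ)..H₀, f (v + x) =
      ∫ x in (0:ℝ)..H₀, ∫ v in t..(t + H - H₀), f (v + x) := by
    apply intervalIntegral_intervalIntegral_swap
    have h3 : Continuous (Function.uncurry fun v x : ℝ => f (v + x)) := by
      unfold Function.uncurry
      exact hc.comp (by fun_prop)
    have h4 : IntegrableOn (Function.uncurry fun v x : ℝ => f (v + x)) (Set.uIcc t (t + H - H₀) ×ˢ Set.uIcc 0 H₀) :=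
      h3.continuousOn.integrableOn_compact (isCompact_uIcc.prod isCompact_uIcc)
    exact h4.mono_set (Set.prod_mono Set.uIoc_subset_uIcc Set.uIoc_subset_uIcc)
  have e3 : ∀ x ∈ Set.Icc (0:ℝ) H₀, ∫ v in t..(t + H - H₀), f (v + x) ≤ ∫ u in t..(t + H), f u := by
    intro x hx
    rw [intervalIntegral.integral_comp_add_right (fun u => f u) x]
    exact intervalIntegral.integral_mono_interval (by linarith [hx.1]) (by linarith) (by linarith [hx.2])
      (ae_of_all _ h0) (hc.intervalIntegrable _ _)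
  have e4 : ∫ x in (0:ℝ)..H₀, ∫ v in t..(t + H - H₀), f (v + x) ≤ ∫ x in (0:ℝ)..H₀, ∫ u in t..(t + H), f u := by
    apply intervalIntegral.integral_mono_on h1.le _ (continuous_const.intervalIntegrable _ _) e3
    apply Continuous.intervalIntegrable
    apply intervalIntegral.continuous_parametric_intervalIntegral_of_continuous'
    unfold Function.uncurry
    exact hc.comp (by fun_prop)
  rw [intervalIntegral.integral_const, sub_zero, smul_eq_mul] at e4
  have e5 : ∫ v in t..(t + H - H₀), (1 / H₀) * ∫ u in v..(v + H₀), f u =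
      (1 / H₀) * ∫ v in t..(t + H - H₀), ∫ x in (0:ℝ)..H₀, f (v + x) := by
    rw [← intervalIntegral.integral_const_mul]
    simp only [e1]
  rw [e5, e2]
  calc (1 / H₀) * ∫ x in (0:ℝ)..H₀, ∫ v in t..(t + H - H₀), f (v + x)
      ≤ (1 / H₀) * (H₀ * ∫ u in t..(t + H), f u) := mul_le_mul_of_nonneg_left e4 (by positivity)
    _ = ∫ u in t..(t + H), f u := by field_simp

/-- the part of the window outside a small set -/
lemma low {g : ℝ → ℝ} (hg : Continuous g) (g0 : ∀ u, 0 ≤ g u) {B : Set ℝ} (hB : MeasurableSet B) {a b m : ℝ}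
    (hab : a ≤ b) (h1 : ∀ v, a ≤ v → v ≤ b → v ∉ B → m ≤ g v) :
    m * (b - a - volume.real (B ∩ Set.Ioc a b)) ≤ ∫ v in a..b, g v := by
  have i1 : IntervalIntegrable (fun v => B.indicator (1 : ℝ → ℝ) v) volume a b := by
    rw [intervalIntegrable_iff]
    exact (intervalIntegrable_iff.mp ((continuous_const (y := (1:ℝ))).intervalIntegrable a b)).indicator hB
  have e1 : ∫ v in a..b, m * (1 - B.indicator (1 : ℝ → ℝ) v) = m * (b - a - volume.real (B ∩ Set.Ioc a b)) := by
    rw [intervalIntegral.integral_const_mul, intervalIntegral.integral_sub (continuous_const.intervalIntegrable _ _) i1,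
      intervalIntegral.integral_const, smul_eq_mul, mul_one]
    congr 2
    rw [intervalIntegral.integral_of_le hab, integral_indicator_one hB, measureReal_restrict_apply hB]
  rw [← e1]
  apply intervalIntegral.integral_mono_on hab _ (hg.intervalIntegrable _ _)
  · intro v hv
    by_cases h : v ∈ B
    · rw [Set.indicator_of_mem h]
      simp only [Pi.one_apply, sub_self, mul_zero]
      exact g0 v
    · rw [Set.indicator_of_notMem h, sub_zero, mul_one]
      exact h1 v hv.1 hv.2 h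
  · exact ((continuous_const.intervalIntegrable _ _).sub i1).const_mul m

/-- Fubini for the windows -/
lemma fub {B : Set ℝ} (hB : MeasurableSet B) {H : ℝ} :
    (Measurable fun t : ℝ => volume (B ∩ Set.Icc t (t + H))) ∧
    ∫⁻ t : ℝ, volume (B ∩ Set.Icc t (t + H)) = ENNReal.ofReal H * volume B := by
  let S : Set (ℝ × ℝ) := {p | p.2 ∈ B ∧ p.1 ≤ p.2 ∧ p.2 ≤ p.1 + H}
  have hS : MeasurableSet S := by
    refine (measurable_snd hB).inter (MeasurableSet.inter ?_ ?_)
    · exact measurableSet_le measurable_fst measurable_snd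
    · exact measurableSet_le measurable_snd (measurable_fst.add_const H)
  have e1 : ∀ t : ℝ, Prod.mk t ⁻¹' S = B ∩ Set.Icc t (t + H) := fun t => rfl
  have e2 : ∀ v : ℝ, volume ((fun t : ℝ => (t, v)) ⁻¹' S) = B.indicator (fun _ => ENNReal.ofReal H) v := by
    intro v
    by_cases h : v ∈ B
    · rw [Set.indicator_of_mem h]
      have : (fun t : ℝ => (t, v)) ⁻¹' S = Set.Icc (v - H) v := by
        ext t
        simp only [S, Set.mem_preimage, Set.mem_ofPred_eq, Set.mem_Icc]
        constructor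
        · rintro ⟨_, h1, h2⟩
          exact ⟨by linarith, h1⟩
        · rintro ⟨h1, h2⟩
          exact ⟨h, h2, by linarith⟩
      rw [this, Real.volume_Icc]
      congr 1
      ring
    · rw [Set.indicator_of_notMem h]
      have : (fun t : ℝ => (t, v)) ⁻¹' S = ∅ := by
        ext t
        simp only [S, Set.mem_preimage, Set.mem_ofPred_eq, Set.mem_empty_iff_false, iff_false]
        rintro ⟨h1, _⟩
        exact h h1
      rw [this, measure_empty]
  refine ⟨?_, ?_⟩
  · have := measurable_measure_prodMk_left (ν := (volume : Measure ℝ)) hS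
    simpa only [e1] using this
  · have h1 := Measure.prod_apply (μ := (volume : Measure ℝ)) (ν := (volume : Measure ℝ)) hS
    have h2 := Measure.prod_apply_symm (μ := (volume : Measure ℝ)) (ν := (volume : Measure ℝ)) hS
    simp only [e1] at h1
    simp only [e2] at h2
    rw [← h1, h2, lintegral_indicator hB, setLIntegral_const]

lemma core {f : ℝ → ℝ} (hc : Continuous f) (h0 : ∀ u, 0 ≤ f u) {H₀ H T m δ e : ℝ} (h1 : 0 < H₀) (h2 : H₀ ≤ H)
    (hT : 0 < T) (hm : 0 ≤ m) (hδ : 0 < δ) (he : 0 ≤ e)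
    (hB : volume {v : ℝ | 0 ≤ v ∧ v ≤ T ∧ (1 / H₀) * (∫ u in v..(v + H₀), f u) < m} ≤ ENNReal.ofReal (e * T)) :
    volume {t : ℝ | 0 ≤ t ∧ t ≤ T ∧ (1 / H) * (∫ u in t..(t + H), f u) < m * (1 - H₀ / H - δ)} ≤
      ENNReal.ofReal (e / δ * T + H) := by
  have hH : 0 < H := h1.trans_le h2
  set B : Set ℝ := {v : ℝ | 0 ≤ v ∧ v ≤ T ∧ (1 / H₀) * (∫ u in v..(v + H₀), f u) < m} with hBd
  have cg : Continuous fun v : ℝ => (1 / H₀) * ∫ u in v..(v + H₀), f u := by
    have e1 : ∀ v, ∫ u in v..(v + H₀), f u = ∫ x in (0:ℝ)..H₀, f (v + x) := by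
      intro v
      rw [intervalIntegral.integral_comp_add_left (fun u => f u) v, add_zero]
    simp only [e1]
    refine continuous_const.mul ?_
    apply intervalIntegral.continuous_parametric_intervalIntegral_of_continuous'
    unfold Function.uncurry
    exact hc.comp (by fun_prop)
  have g0 : ∀ v : ℝ, 0 ≤ (1 / H₀) * ∫ u in v..(v + H₀), f u := fun v =>
    mul_nonneg (by positivity) (intervalIntegral.integral_nonneg (by linarith) fun u _ => h0 u)
  have mB : MeasurableSet B :=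
    (measurableSet_le measurable_const measurable_id).inter
      ((measurableSet_le measurable_id measurable_const).inter (measurableSet_lt cg.measurable measurable_const))
  obtain ⟨mF, iF⟩ := fub mB (H := H)
  have sub : {t : ℝ | 0 ≤ t ∧ t ≤ T ∧ (1 / H) * (∫ u in t..(t + H), f u) < m * (1 - H₀ / H - δ)} ⊆
      {t : ℝ | ENNReal.ofReal (δ * H) ≤ volume (B ∩ Set.Icc t (t + H))} ∪ Set.Icc (T - H) T := by
    rintro t ⟨t0, t1, t2⟩
    by_contra hcon
    rw [Set.mem_union, not_or] at hcon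
    obtain ⟨c1, c2⟩ := hcon
    rw [Set.mem_ofPred_eq, not_le] at c1
    have c3 : t < T - H := by
      by_contra h
      exact c2 ⟨not_lt.mp h, t1⟩
    have c4 : volume.real (B ∩ Set.Ioc t (t + H - H₀)) ≤ δ * H := by
      have : volume (B ∩ Set.Ioc t (t + H - H₀)) ≤ ENNReal.ofReal (δ * H) :=
        (measure_mono (Set.inter_subset_inter_right B (show Set.Ioc t (t + H - H₀) ⊆ Set.Icc t (t + H) from
          fun v hv => ⟨hv.1.le, by linarith [hv.2]⟩))).trans c1.le
      exact ENNReal.toReal_le_of_le_ofReal (by positivity) this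
    have c5 := low cg g0 mB (a := t) (b := t + H - H₀) (m := m) (by linarith) (by
      intro v v1 v2 v3
      by_contra h
      exact v3 ⟨by linarith, by linarith, not_le.mp h⟩)
    have c6 := avg hc h0 (t := t) h1 h2
    have c7 : m * (H - H₀ - δ * H) ≤ ∫ u in t..(t + H), f u := by
      refine le_trans ?_ (c5.trans c6)
      apply mul_le_mul_of_nonneg_left _ hm
      linarith
    have c8 : m * (1 - H₀ / H - δ) = (1 / H) * (m * (H - H₀ - δ * H)) := by
      field_simp
    rw [c8] at t2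
    exact absurd t2 (not_lt.mpr (mul_le_mul_of_nonneg_left c7 (by positivity)))
  have mk : volume {t : ℝ | ENNReal.ofReal (δ * H) ≤ volume (B ∩ Set.Icc t (t + H))} ≤ ENNReal.ofReal (e / δ * T) := by
    refine (meas_ge_le_lintegral_div mF.aemeasurable ?_ ENNReal.ofReal_ne_top).trans ?_
    · rw [ne_eq, ENNReal.ofReal_eq_zero, not_le]
      positivity
    · rw [iF]
      apply ENNReal.div_le_of_le_mul
      rw [← ENNReal.ofReal_mul (by positivity)]
      calc ENNReal.ofReal H * volume B ≤ ENNReal.ofReal H * ENNReal.ofReal (e * T) := mul_le_mul_right hB _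
        _ = ENNReal.ofReal (e / δ * T * (δ * H)) := by
            rw [← ENNReal.ofReal_mul hH.le]
            congr 1
            field_simp
  calc volume {t : ℝ | 0 ≤ t ∧ t ≤ T ∧ (1 / H) * (∫ u in t..(t + H), f u) < m * (1 - H₀ / H - δ)}
      ≤ volume {t : ℝ | ENNReal.ofReal (δ * H) ≤ volume (B ∩ Set.Icc t (t + H))} + volume (Set.Icc (T - H) T) :=
        (measure_mono sub).trans (measure_union_le _ _)
    _ ≤ ENNReal.ofReal (e / δ * T) + ENNReal.ofReal H := by
        refine add_le_add mk ?_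
        rw [Real.volume_Icc]
        exact ENNReal.ofReal_le_ofReal (by linarith)
    _ = ENNReal.ofReal (e / δ * T + H) := (ENNReal.ofReal_add (by positivity) hH.le).symm

theorem t (h1 : S_LINE) (h2 : S_APOS) : S_LONG := by
  intro d hd hd2 k θ ε hk hθ hkθ hε H hH hHT
  -- the smaller exponent
  obtain ⟨θ₀, a1, a2, a3⟩ : ∃ θ₀ : ℝ, 0 < θ₀ ∧ θ₀ < θ ∧ k ^ 2 < 1 + θ₀ := by
    refine ⟨(θ + max 0 (k ^ 2 - 1)) / 2, ?_, ?_, ?_⟩
    · have := le_max_left 0 (k ^ 2 - 1)
      linarith
    · have : max 0 (k ^ 2 - 1) < θ := max_lt hθ (by linarith)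
      linarith
    · have := le_max_right 0 (k ^ 2 - 1)
      linarith
  set ε₁ : ℝ := min ε 1 with hε₁
  have b1 : 0 < ε₁ := lt_min hε one_pos
  have b2 : ε₁ ≤ 1 := min_le_right _ _
  have b3 : ε₁ ≤ ε := min_le_left _ _
  have L := h1 d hd hd2 k θ₀ ((ε₁ / 4) ^ 2) hk a1 a3 (by positivity)
  have t1 : Tendsto (fun T => (2 * d T) ^ (θ - θ₀)) atTop (𝓝 0) := by
    have h3 : Tendsto (fun T => 2 * d T) atTop (𝓝 (2 * 0)) := hd.t0.const_mul 2
    rw [mul_zero] at h3
    have h4 := h3.rpow_const (p := θ - θ₀) (Or.inr (by linarith))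
    rwa [Real.zero_rpow (by linarith)] at h4
  have t2 : ∀ᶠ T : ℝ in atTop, d T ≤ 1 / 16 := hd.t0.eventually_le_const (by norm_num)
  filter_upwards [L, hH, hd.pos, t2, t1.eventually_le_const (show (0:ℝ) < ε₁ / 4 by positivity),
    hHT.eventually_le_const (show (0:ℝ) < ε₁ / 4 by positivity), eventually_gt_atTop 0] with T c1 c2 c3 c4 c5 c6 c7
  have p0 : (0:ℝ) < 2 * d T := by linarith
  have p1 : (0:ℝ) < (2 * d T) ^ (-θ₀) := Real.rpow_pos_of_pos p0 _
  have p2 : (0:ℝ) < (2 * d T) ^ (-θ) := Real.rpow_pos_of_pos p0 _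
  have pH : 0 < H T := p2.trans_le c2
  have q1 : (2 * d T) ^ (-θ₀) / H T ≤ ε₁ / 4 := by
    have e1 : (2 * d T) ^ (-θ₀) = (2 * d T) ^ (θ - θ₀) * (2 * d T) ^ (-θ) := by
      rw [← Real.rpow_add p0]
      congr 1
      ring
    rw [div_le_iff₀ pH, e1]
    exact mul_le_mul c5 c2 p2.le (by positivity)
  have q2 : (2 * d T) ^ (-θ₀) ≤ H T := by
    rw [div_le_iff₀ pH] at q1
    nlinarith
  have pM : 0 < M k (d T) := by
    unfold M
    exact mul_pos (h2 k).1 (Real.rpow_pos_of_pos p0 _)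
  have cf : Continuous fun u : ℝ => mz 0 u ^ (2 * k) :=
    (TMA.cont (δ := 0) (by norm_num)).rpow_const fun u => Or.inr (by positivity)
  have f0 : ∀ u : ℝ, 0 ≤ mz 0 u ^ (2 * k) := fun u => Real.rpow_nonneg (TMA.mz_nn _ _) _
  have r1 : (ε₁ / 4) ^ 2 ≤ ε₁ / 4 := by nlinarith
  have K := core cf f0 p1 q2 c7 (m := (1 - (ε₁ / 4) ^ 2) * M k (d T)) (mul_nonneg (by linarith) pM.le)
    (show (0:ℝ) < ε₁ / 4 by positivity) (sq_nonneg _) c1
  refine (measure_mono ?_).trans (K.trans (ENNReal.ofReal_le_ofReal ?_))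
  · rintro t ⟨s1, s2, s3⟩
    refine ⟨s1, s2, s3.trans_le ?_⟩
    have s4 : (1 - ε) ≤ (1 - (ε₁ / 4) ^ 2) * (1 - (2 * d T) ^ (-θ₀) / H T - ε₁ / 4) := by
      have s5 : 0 ≤ (2 * d T) ^ (-θ₀) / H T := by positivity
      nlinarith [mul_nonneg (sq_nonneg (ε₁ / 4)) s5, mul_nonneg (sq_nonneg (ε₁ / 4)) b1.le]
    calc (1 - ε) * M k (d T) ≤ ((1 - (ε₁ / 4) ^ 2) * (1 - (2 * d T) ^ (-θ₀) / H T - ε₁ / 4)) * M k (d T) :=
          mul_le_mul_of_nonneg_right s4 pM.le
      _ = _ := by ring
  · rw [div_le_iff₀ c7] at c6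
    have e1 : (ε₁ / 4) ^ 2 / (ε₁ / 4) * T = ε₁ / 4 * T := by
      field_simp
    rw [e1]
    nlinarith

end Pool.Agent.H6F.LONG
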