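import Pool.Agent.H6F.Stm4

set_option autoImplicit false

/-!
# Stub ONL of the project H6F (part 4): choice of the distance `d`
-/

namespace Pool.Agent.H6F.ONL

open Filter MeasureTheory Topology Complex
open Pool.Agent.N748.MG Pool.Agent.N748.MJ

theorem t (h1 : S_LONG) (h2 : S_APOS) : S_ONL := by
  intro k θ ε hk hθ hkθ hε ω H hω hH hHT
  have tL1 : Tendsto (fun T : ℝ => Real.log T) atTop atTop := Real.tendsto_log_atTop
  have tL2 : Tendsto (fun T : ℝ => Real.log (Real.log T)) atTop atTop := Real.tendsto_log_atTop.comp tL1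
  have tsq : Tendsto (fun T : ℝ => √(ω T)) atTop atTop := Real.tendsto_sqrt_atTop.comp hω
  obtain ⟨w, hw⟩ : ∃ w : ℝ → ℝ, ∀ T, w T = min (√(ω T)) (Real.log (Real.log T)) := ⟨_, fun _ => rfl⟩
  obtain ⟨d, hd⟩ : ∃ d : ℝ → ℝ, ∀ T, d T = w T * Real.log (Real.log T) ^ 2 / Real.log T := ⟨_, fun _ => rfl⟩
  have tw : Tendsto w atTop atTop := by
    refine tendsto_atTop.2 fun b => ?_
    filter_upwards [tsq.eventually_ge_atTop b, tL2.eventually_ge_atTop b] with T ha hb
    rw [hw]
    exact le_min ha hb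
  have e1 : ∀ᶠ T : ℝ in atTop, 1 ≤ w T := tw.eventually_ge_atTop 1
  have e2 : ∀ᶠ T : ℝ in atTop, 1 ≤ Real.log (Real.log T) := tL2.eventually_ge_atTop 1
  have e3 : ∀ᶠ T : ℝ in atTop, 1 < Real.log T := tL1.eventually_gt_atTop 1
  have e4 : ∀ᶠ T : ℝ in atTop, Real.log (Real.log T) ≤ Real.log T ^ (1 / 12 : ℝ) := by
    have h := (isLittleO_log_rpow_atTop (r := 1 / 12) (by norm_num)).bound (c := 1) one_pos
    filter_upwards [tL1.eventually h, e3, e2] with T hT h3 h2
    have h5 : 0 ≤ Real.log T ^ (1 / 12 : ℝ) := Real.rpow_nonneg (by linarith) _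
    rw [Real.norm_of_nonneg (by linarith), Real.norm_of_nonneg h5, one_mul] at hT
    exact hT
  have e5 : ∀ᶠ T : ℝ in atTop, d T ≤ Real.log T ^ (-(3 / 4 : ℝ)) := by
    filter_upwards [e1, e2, e3, e4] with T a1 a2 a3 a4
    have hL : 0 < Real.log T := by linarith
    have b1 : w T ≤ Real.log (Real.log T) := by rw [hw]; exact min_le_right _ _
    have b2 : w T * Real.log (Real.log T) ^ 2 ≤ (Real.log T ^ (1 / 12 : ℝ)) ^ 3 := by
      calc w T * Real.log (Real.log T) ^ 2 ≤ Real.log (Real.log T) * Real.log (Real.log T) ^ 2 :=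
            mul_le_mul_of_nonneg_right b1 (by positivity)
        _ = Real.log (Real.log T) ^ 3 := by ring
        _ ≤ _ := pow_le_pow_left₀ (by linarith) a4 3
    have b3 : (Real.log T ^ (1 / 12 : ℝ)) ^ 3 = Real.log T ^ (1 / 4 : ℝ) := by
      rw [← Real.rpow_natCast, ← Real.rpow_mul hL.le]
      norm_num
    rw [hd, div_le_iff₀ hL]
    calc w T * Real.log (Real.log T) ^ 2 ≤ Real.log T ^ (1 / 4 : ℝ) := b2.trans b3.le
      _ = Real.log T ^ (-(3 / 4 : ℝ)) * Real.log T := by
        nth_rw 3 [← Real.rpow_one (Real.log T)]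
        rw [← Real.rpow_add hL]
        norm_num
  have e6 : ∀ᶠ T : ℝ in atTop, 0 < d T := by
    filter_upwards [e1, e2, e3] with T a1 a2 a3
    rw [hd]
    have : 0 < w T := by linarith
    have : 0 < Real.log (Real.log T) := by linarith
    have : 0 < Real.log T := by linarith
    positivity
  have tz : Tendsto (fun T : ℝ => Real.log T ^ (-(3 / 4 : ℝ))) atTop (𝓝 0) :=
    (tendsto_rpow_neg_atTop (by norm_num)).comp tL1
  have t0 : Tendsto d atTop (𝓝 0) :=
    tendsto_of_tendsto_of_tendsto_of_le_of_le' tendsto_const_nhds tz (e6.mono fun T h => h.le) e5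
  have hA : Ad d := by
    refine ⟨e6, t0, ?_⟩
    refine tendsto_atTop_mono' _ ?_ tw
    filter_upwards [e1, e2, e3, e6, t0.eventually (gt_mem_nhds one_pos)] with T a1 a2 a3 a6 a7
    have hL : 0 < Real.log T := by linarith
    have b1 : 1 ≤ w T * Real.log (Real.log T) ^ 2 := by nlinarith [one_le_pow₀ a2 (n := 2)]
    have b2 : d T * Real.log T = w T * Real.log (Real.log T) ^ 2 := by
      rw [hd]; field_simp
    have b3 : Real.log (1 / d T) ≤ Real.log (Real.log T) := by
      refine Real.log_le_log (by positivity) ?_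
      rw [div_le_iff₀ a6]
      nlinarith
    have b4 : 0 < Real.log (1 / d T) := Real.log_pos (by rw [lt_div_iff₀ a6]; linarith)
    rw [b2, le_div_iff₀ (by positivity)]
    exact mul_le_mul_of_nonneg_left (pow_le_pow_left₀ b4.le b3 2) (by linarith)
  have e8 : ∀ᶠ T : ℝ in atTop, (2 * d T) ^ (-θ) ≤ H T := by
    filter_upwards [e1, e2, e3, e6, hH] with T a1 a2 a3 a6 a8
    have hL : 0 < Real.log T := by linarith
    refine le_trans ?_ a8
    have b1 : 1 ≤ w T * Real.log (Real.log T) ^ 2 := by nlinarith [one_le_pow₀ a2 (n := 2)]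
    have b2 : (Real.log T)⁻¹ ≤ 2 * d T := by
      rw [hd, ← one_div, div_le_iff₀ hL]
      field_simp
      linarith
    calc (2 * d T) ^ (-θ) ≤ ((Real.log T)⁻¹) ^ (-θ) :=
          Real.rpow_le_rpow_of_nonpos (by positivity) b2 (by linarith)
      _ = Real.log T ^ θ := by
        rw [Real.inv_rpow hL.le, Real.rpow_neg hL.le, inv_inv]
  have hε' : 0 < min ε (1 / 2) := lt_min hε (by norm_num)
  have hmain := h1 d hA e5 k θ (min ε (1 / 2)) hk hθ hkθ hε' H e8 hHT
  have ha : 0 < (aC (k : ℂ)).re := (h2 k).1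
  have tq : Tendsto (fun T : ℝ => (2 / √(ω T)) ^ (k ^ 2)) atTop (𝓝 0) := by
    have t1 : Tendsto (fun T : ℝ => 2 / √(ω T)) atTop (𝓝 0) := tendsto_const_nhds.div_atTop tsq
    have t2 := t1.rpow_const (p := k ^ 2) (Or.inr (by positivity))
    rwa [Real.zero_rpow (by positivity)] at t2
  filter_upwards [hmain, e1, e2, e3, e6, eventually_gt_atTop 0, tq.eventually (ge_mem_nhds (half_pos ha)),
    hω.eventually_gt_atTop 0] with T hT a1 a2 a3 a6 hT0 a9 hω0
  refine (measure_mono ?_).trans (hT.trans (ENNReal.ofReal_le_ofReal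
    (mul_le_mul_of_nonneg_right (min_le_left _ _) hT0.le)))
  rintro t ⟨ht0, ht1, ht2⟩
  refine ⟨ht0, ht1, ht2.trans_le ?_⟩
  have hL : 0 < Real.log T := by linarith
  have hL2 : 0 < Real.log (Real.log T) := by linarith
  have hw0 : 0 < w T := by linarith
  have hsq : 0 < √(ω T) := Real.sqrt_pos.2 hω0
  have b1 : w T ≤ √(ω T) := by rw [hw]; exact min_le_left _ _
  have b2 : (2 * d T) ^ (-(k ^ 2)) = (Real.log T / (2 * w T * Real.log (Real.log T) ^ 2)) ^ (k ^ 2) := by
    rw [Real.rpow_neg (by positivity), ← Real.inv_rpow (by positivity), hd]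
    congr 1
    field_simp
  have b3 : Real.log T / (ω T * Real.log (Real.log T) ^ 2) ≤
      (2 / √(ω T)) * (Real.log T / (2 * w T * Real.log (Real.log T) ^ 2)) := by
    have b4 : √(ω T) * √(ω T) = ω T := Real.mul_self_sqrt hω0.le
    rw [div_mul_div_comm, div_le_div_iff₀ (by positivity) (by positivity)]
    have b5 : √(ω T) * w T ≤ ω T := by nlinarith
    have b6 : 0 ≤ Real.log T * Real.log (Real.log T) ^ 2 := by positivity
    nlinarith [mul_le_mul_of_nonneg_left b5 b6]
  have b7 : (Real.log T / (ω T * Real.log (Real.log T) ^ 2)) ^ (k ^ 2) ≤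
      (aC (k : ℂ)).re / 2 * (2 * d T) ^ (-(k ^ 2)) := by
    calc (Real.log T / (ω T * Real.log (Real.log T) ^ 2)) ^ (k ^ 2) ≤
          ((2 / √(ω T)) * (Real.log T / (2 * w T * Real.log (Real.log T) ^ 2))) ^ (k ^ 2) :=
          Real.rpow_le_rpow (by positivity) b3 (by positivity)
      _ = (2 / √(ω T)) ^ (k ^ 2) * (2 * d T) ^ (-(k ^ 2)) := by
        rw [Real.mul_rpow (by positivity) (by positivity), b2]
      _ ≤ _ := mul_le_mul_of_nonneg_right a9 (Real.rpow_nonneg (by positivity) _)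
  refine b7.trans ?_
  unfold M
  have b8 : 0 ≤ (aC (k : ℂ)).re * (2 * d T) ^ (-(k ^ 2)) :=
    mul_nonneg ha.le (Real.rpow_nonneg (by positivity) _)
  have b9 : min ε (1 / 2) ≤ 1 / 2 := min_le_right _ _
  nlinarith

end Pool.Agent.H6F.ONL
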