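import Pool.Agent.H6F.Stm3

set_option autoImplicit false

/-!
# Project H6F, stub SMV (helper73): subharmonicity of `|f|^p`
-/

namespace Pool.Agent.H6F.SMV

open Filter MeasureTheory Topology Complex Metric

theorem log_le {f : ℂ → ℂ} {c : ℂ} {r : ℝ} (hr : 0 < r) (hf : AnalyticOnNhd ℂ f (closedBall c r)) (h0 : f c ≠ 0) :
    Real.log ‖f c‖ ≤ Real.circleAverage (fun z => Real.log ‖f z‖) c r := by
  have hf' : AnalyticOnNhd ℂ f (closedBall c |r|) := by rwa [abs_of_pos hr]
  rw [AnalyticOnNhd.circleAverage_log_norm hr.ne' hf' h0]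
  have h1 : 0 ≤ ∑ᶠ u, (MeromorphicOn.divisor f (closedBall c |r|) u : ℝ) * Real.log (r * ‖c - u‖⁻¹) := by
    refine finsum_nonneg fun u => ?_
    by_cases hu : u ∈ closedBall c |r|
    · refine mul_nonneg (by exact_mod_cast MeromorphicOn.AnalyticOnNhd.divisor_nonneg hf' u) ?_
      rcases eq_or_ne c u with rfl | hcu
      · simp
      · have h2 : 0 < ‖c - u‖ := norm_pos_iff.2 (sub_ne_zero.2 hcu)
        have h3 : ‖c - u‖ ≤ r := by
          rw [abs_of_pos hr, mem_closedBall, dist_eq_norm, norm_sub_rev] at hu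
          exact hu
        refine Real.log_nonneg ?_
        rw [← div_eq_mul_inv, one_le_div h2]
        exact h3
    · rw [Function.locallyFinsuppWithin.apply_eq_zero_of_notMem _ hu]
      simp
  linarith

theorem t : Pool.Agent.H6F.S_SMV := by
  intro f c r p hp hr hf
  have hL : (1 / (2 * Real.pi)) * ∫ φ in (0:ℝ)..(2 * Real.pi), ‖f (circleMap c r φ)‖ ^ p =
      Real.circleAverage (fun z => ‖f z‖ ^ p) c r := by
    rw [Real.circleAverage_def, smul_eq_mul, one_div]
  rw [hL]
  rcases eq_or_ne (f c) 0 with h0 | h0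
  · rw [h0, norm_zero, Real.zero_rpow hp.ne']
    exact Real.circleAverage_nonneg_of_nonneg fun z _ => Real.rpow_nonneg (norm_nonneg _) _
  set m : ℝ := p * Real.log ‖f c‖ with hm
  have hem : Real.exp m = ‖f c‖ ^ p := by
    rw [Real.rpow_def_of_pos (norm_pos_iff.2 h0), hm, mul_comm]
  set g : ℂ → ℝ := fun z => Real.exp m * (1 - m) + Real.exp m * p * Real.log ‖f z‖ with hg
  set F : ℂ → ℝ := fun z => max (‖f z‖ ^ p) (g z) with hF
  have hs : sphere c |r| ⊆ closedBall c r := by
    rw [abs_of_pos hr]
    exact sphere_subset_closedBall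
  have hne : ∀ᶠ z in codiscreteWithin (sphere c |r|), f z ≠ 0 := by
    have h1 := hf.preimage_zero_mem_codiscreteWithin h0 (mem_closedBall_self hr.le)
      ⟨⟨c, mem_closedBall_self hr.le⟩, (convex_closedBall c r).isPreconnected⟩
    exact codiscreteWithin_mono hs h1
  have hFe : (fun z => ‖f z‖ ^ p) =ᶠ[codiscreteWithin (sphere c |r|)] F := by
    filter_upwards [hne] with z hz
    have hz0 : 0 < ‖f z‖ := norm_pos_iff.2 hz
    have h1 : g z ≤ ‖f z‖ ^ p := by
      have h2 := Real.add_one_le_exp (p * Real.log ‖f z‖ - m)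
      have h3 : ‖f z‖ ^ p = Real.exp m * Real.exp (p * Real.log ‖f z‖ - m) := by
        rw [← Real.exp_add, Real.rpow_def_of_pos hz0]
        congr 1
        ring
      rw [h3]
      calc g z = Real.exp m * (p * Real.log ‖f z‖ - m + 1) := by rw [hg]; ring
        _ ≤ _ := mul_le_mul_of_nonneg_left h2 (Real.exp_pos _).le
    rw [hF]
    exact (max_eq_left h1).symm
  have hlog : CircleIntegrable (fun z => Real.log ‖f z‖) c r :=
    MeromorphicOn.circleIntegrable_log_norm (hf.mono hs).meromorphicOn
  have hpc : CircleIntegrable (fun z => ‖f z‖ ^ p) c r := by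
    refine ContinuousOn.circleIntegrable' ?_
    exact ((hf.mono hs).continuousOn.norm).rpow_const fun z _ => Or.inr hp.le
  have hFi : CircleIntegrable F c r := hpc.congr_codiscreteWithin hFe
  have hc1 : CircleIntegrable (fun _ : ℂ => Real.exp m * (1 - m)) c r := circleIntegrable_const _ _ _
  have hl1 : CircleIntegrable (fun z => (Real.exp m * p) • Real.log ‖f z‖) c r := hlog.const_fun_smul
  have hgi : CircleIntegrable g c r := hc1.add hl1
  have hga : Real.circleAverage g c r =
      Real.exp m * (1 - m) + Real.exp m * p * Real.circleAverage (fun z => Real.log ‖f z‖) c r := by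
    have : Real.circleAverage g c r = Real.circleAverage (fun _ : ℂ => Real.exp m * (1 - m)) c r +
        Real.circleAverage (fun z => (Real.exp m * p) • Real.log ‖f z‖) c r := Real.circleAverage_fun_add hc1 hl1
    rw [this, Real.circleAverage_const, Real.circleAverage_fun_smul, smul_eq_mul]
  rw [Real.circleAverage_congr_codiscreteWithin hFe hr.ne']
  have h1 : Real.circleAverage g c r ≤ Real.circleAverage F c r :=
    Real.circleAverage_mono hgi hFi fun z _ => le_max_right _ _
  have h2 := log_le hr hf h0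
  calc ‖f c‖ ^ p = Real.exp m * (1 - m) + Real.exp m * m := by rw [← hem]; ring
    _ ≤ Real.exp m * (1 - m) + Real.exp m * p * Real.circleAverage (fun z => Real.log ‖f z‖) c r := by
        have : Real.exp m * m ≤ Real.exp m * p * Real.circleAverage (fun z => Real.log ‖f z‖) c r := by
          rw [mul_assoc]
          exact mul_le_mul_of_nonneg_left (mul_le_mul_of_nonneg_left h2 hp.le) (Real.exp_pos _).le
        linarith
    _ = Real.circleAverage g c r := hga.symm
    _ ≤ _ := h1

end Pool.Agent.H6F.SMV
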