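import Pool.Agent.H6F.Stm3
import Pool.Agent.H306R2.ZetaGrowth

set_option autoImplicit false

/-! Stub ZPB: polynomial bound of zeta in the strip. -/

namespace Pool.Agent.H6F.ZPB

open Filter MeasureTheory Topology Complex
open Pool.Agent.N748.MG Pool.Agent.N748.MJ Pool.Agent.H6F

theorem t : S_ZPB := by
  refine ⟨48, by norm_num, fun x y hx0 hx1 => ?_⟩
  unfold mz pw
  set s : ℂ := 1 / 2 + x + y * I with hs
  have hre : s.re = 1 / 2 + x := by simp [hs]
  have him : s.im = y := by simp [hs]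
  have h1 : (1 : ℝ) / 4 ≤ ‖s - 1‖ := by
    have h2 := Complex.abs_re_le_norm (s - 1)
    have h3 : (s - 1).re = x - 1 / 2 := by simp [hre]; ring
    rw [h3, abs_of_nonpos (by linarith)] at h2
    linarith
  have hs1 : s ≠ 1 := by
    intro h
    rw [h, sub_self, norm_zero] at h1
    norm_num at h1
  have h2 := Pool.Agent.H306R2.zeta_eq_pos (s := s) (by rw [hre]; linarith) hs1
  have h3 := Pool.Agent.H306R2.Zt_norm_le (s := s) (by rw [hre]; linarith)
  rw [← h2, norm_mul] at h3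
  have h4 : ‖s‖ ≤ 3 / 4 + |y| := by
    refine (Complex.norm_le_abs_re_add_abs_im s).trans ?_
    rw [hre, him, abs_of_nonneg (by linarith)]
    linarith
  have hy := abs_nonneg y
  have h5 : 3 * (‖s‖ + 1) ^ 2 ≤ 12 * (1 + |y|) ^ 2 := by
    have h6 : ‖s‖ + 1 ≤ 2 * (1 + |y|) := by linarith
    have h7 : (‖s‖ + 1) ^ 2 ≤ (2 * (1 + |y|)) ^ 2 :=
      pow_le_pow_left₀ (by positivity) h6 2
    nlinarith
  have h8 : (1 + |y|) ^ 2 ≤ (1 + |y|) ^ (48 : ℝ) := by
    rw [← Real.rpow_natCast]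
    exact Real.rpow_le_rpow_of_exponent_le (by linarith) (by norm_num)
  have h9 := norm_nonneg (riemannZeta s)
  have h10 : 1 / 4 * ‖riemannZeta s‖ ≤ ‖s - 1‖ * ‖riemannZeta s‖ :=
    mul_le_mul_of_nonneg_right h1 h9
  linarith

end Pool.Agent.H6F.ZPB
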