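import Pool.Agent.H6F.Fin2
import Pool.Agent.H6F.SMV
import Pool.Agent.H6F.CVX
import Pool.Agent.H6F.HIP
import Pool.Agent.H6F.ZPB
import Pool.Agent.H6F.GAU
import Pool.Agent.H6F.INTG
import Pool.Agent.H6F.EDGE
import Pool.Agent.H6F.LINE
import Pool.Agent.H6F.LONG
import Pool.Agent.H6F.ONL

set_option autoImplicit false

/-! Short intervals of the critical line itself: the theorems. -/

namespace Pool.Agent.H6F

open Filter MeasureTheory Topology Complex
open Pool.Agent.N748.MG Pool.Agent.N748.MJ

theorem hipF : S_HIP := HIP.t SMV.t CVX.t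

theorem gauF : S_GAU := GAU.t hipF ZPB.t

theorem intgF : S_INTG := INTG.t gauF ZPB.t

theorem edgeF : S_EDGE := EDGE.t lln2F oneF supF fubF aposF

theorem lineF : S_LINE := LINE.t intgF edgeF lln2F aposF

theorem longF : S_LONG := LONG.t lineF aposF

theorem onlF : S_ONL := ONL.t longF aposF

end Pool.Agent.H6F
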