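import Pool.Agent.H6F.Stm5

set_option autoImplicit false

/-!
# Project H6F, stub GAUP: the Gaussian averages of the product of the shifted factors
-/

namespace Pool.Agent.H6F.GAUP

open Filter MeasureTheory Topology Complex
open Pool.Agent.N748.MG Pool.Agent.N748.MJ

/-- the functions to which HIPP is applied -/
noncomputable def ff (c h y₀ : ℝ) (s : ℂ) : ℂ :=
  Gq (s + h * I) * cexp ((s - 1 / 2 - y₀ * I) ^ 2 - c * (s - 1 / 2))

lemma norm_gauss (c x y y₀ : ℝ) :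
    ‖cexp ((((1 / 2 + x : ℝ) : ℂ) + y * I - 1 / 2 - y₀ * I) ^ 2 - c * (((1 / 2 + x : ℝ) : ℂ) + y * I - 1 / 2))‖ =
      Real.exp (x ^ 2 - (y - y₀) ^ 2 - c * x) := by
  rw [Complex.norm_exp]
  congr 1
  have h1 : (((1 / 2 + x : ℝ) : ℂ) + y * I - 1 / 2 - y₀ * I) ^ 2 - c * (((1 / 2 + x : ℝ) : ℂ) + y * I - 1 / 2) =
      ((x ^ 2 - (y - y₀) ^ 2 - c * x : ℝ) : ℂ) + ((2 * x * (y - y₀) - c * y : ℝ) : ℂ) * I := by
    push_cast
    have h3 : I ^ 2 = -1 := I_sq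
    linear_combination ((y : ℂ) - y₀) ^ 2 * h3
  rw [h1, Complex.add_re, Complex.ofReal_re, Complex.re_ofReal_mul, Complex.I_re, mul_zero, add_zero]

lemma norm_ff (c h x y y₀ : ℝ) :
    ‖ff c h y₀ (((1 / 2 + x : ℝ) : ℂ) + y * I)‖ =
      ‖Gq (1 / 2 + x + (y + h) * I)‖ * Real.exp (x ^ 2 - (y - y₀) ^ 2 - c * x) := by
  unfold ff
  rw [norm_mul, norm_gauss]
  congr 3
  push_cast
  ring

lemma Gp_nonneg {m : ℕ} (k h : Fin m → ℝ) (x y₀ : ℝ) : 0 ≤ Gp k h x y₀ := by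
  unfold Gp
  apply integral_nonneg
  intro y
  exact mul_nonneg (Finset.prod_nonneg fun j _ => Real.rpow_nonneg (norm_nonneg _) _) (Real.exp_pos _).le

lemma int_ff {m : ℕ} (k h : Fin m → ℝ) (c x y₀ : ℝ) :
    ∫ y : ℝ, ∏ j, ‖ff c (h j) y₀ (((1 / 2 + x : ℝ) : ℂ) + y * I)‖ ^ (2 * k j) =
      Real.exp ((x ^ 2 - c * x) * (2 * ∑ j, k j)) * Gp k h x y₀ := by
  unfold Gp
  rw [← integral_const_mul]
  congr 1
  ext y
  have h0 : ∀ j : Fin m, ‖ff c (h j) y₀ (((1 / 2 + x : ℝ) : ℂ) + y * I)‖ ^ (2 * k j) =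
      ‖Gq (1 / 2 + x + (y + h j) * I)‖ ^ (2 * k j) *
        Real.exp ((x ^ 2 - (y - y₀) ^ 2 - c * x) * (2 * k j)) := by
    intro j
    rw [norm_ff, Real.mul_rpow (norm_nonneg _) (Real.exp_pos _).le, ← Real.exp_mul]
  rw [Finset.prod_congr rfl fun j _ => h0 j, Finset.prod_mul_distrib, ← Real.exp_sum, ← Finset.mul_sum,
    ← Finset.mul_sum]
  have h1 : Real.exp ((x ^ 2 - (y - y₀) ^ 2 - c * x) * (2 * ∑ j, k j)) =
      Real.exp ((x ^ 2 - c * x) * (2 * ∑ j, k j)) * Real.exp (-(2 * (∑ j, k j) * (y - y₀) ^ 2)) := by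
    rw [← Real.exp_add]
    congr 1
    ring
  rw [h1]
  ring

lemma an_ff (h2 : S_ZPB2) (c h y₀ : ℝ) (s : ℂ) (hs : 1 / 2 ≤ s.re) : AnalyticAt ℂ (ff c h y₀) s := by
  have h1 : AnalyticAt ℂ (fun s : ℂ => Gq (s + h * I)) s := by
    have h3 : AnalyticAt ℂ Gq (s + h * I) := by
      apply h2.1
      simpa using hs
    have h4 : AnalyticAt ℂ (fun s : ℂ => s + h * I) s := by fun_prop
    exact AnalyticAt.comp' (g := Gq) (f := fun s : ℂ => s + h * I) h3 h4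
  have h3 : AnalyticAt ℂ (fun s : ℂ => cexp ((s - 1 / 2 - y₀ * I) ^ 2 - c * (s - 1 / 2))) s := by
    have h4 : Differentiable ℂ (fun s : ℂ => cexp ((s - 1 / 2 - y₀ * I) ^ 2 - c * (s - 1 / 2))) := by
      fun_prop
    exact h4.analyticAt s
  exact h1.mul h3

lemma bound_ff {C : ℝ} (hC : 0 < C) (hz : ∀ w : ℂ, 1 / 2 ≤ w.re → w.re ≤ 2 → ‖Gq w‖ ≤ C * (1 + |w.im|) ^ C)
    (c h H y₀ : ℝ) (hc : 0 ≤ c) (hH : |h| ≤ H) (s : ℂ) (hs1 : 1 / 2 ≤ s.re) (hs2 : s.re ≤ 2) :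
    ‖ff c h y₀ s‖ ≤ C * Real.exp (C * H + 9 / 4 + (C + 1) ^ 2 / 4 + (C + 1) * |y₀|) * Real.exp (-(1 * |s.im|)) := by
  obtain ⟨x, hx⟩ : ∃ x : ℝ, x = s.re - 1 / 2 := ⟨_, rfl⟩
  obtain ⟨y, hy⟩ : ∃ y : ℝ, y = s.im := ⟨_, rfl⟩
  have hs : s = ((1 / 2 + x : ℝ) : ℂ) + y * I := by
    apply Complex.ext
    · simp [hx]
    · simp [hy]
  have hx0 : 0 ≤ x := by rw [hx]; linarith
  have hxh : x ≤ 3 / 2 := by rw [hx]; linarith
  rw [hs, norm_ff]
  have him : (((1 / 2 + x : ℝ) : ℂ) + y * I).im = y := by simp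
  rw [him]
  have b1 : ‖Gq (1 / 2 + x + (y + h) * I)‖ ≤ C * Real.exp (C * (|y| + H)) := by
    have r1 : ((1 / 2 : ℂ) + x + (y + h) * I).re = 1 / 2 + x := by
      simp
    have r2 : ((1 / 2 : ℂ) + x + (y + h) * I).im = y + h := by
      simp
    refine (hz _ (by rw [r1]; linarith) (by rw [r1]; linarith)).trans ?_
    rw [r2]
    apply mul_le_mul_of_nonneg_left _ hC.le
    have b2 : 1 + |y + h| ≤ Real.exp (|y| + H) := by
      have h1 := Real.add_one_le_exp (|y| + H)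
      have h2 := abs_add_le y h
      linarith
    calc (1 + |y + h|) ^ C ≤ (Real.exp (|y| + H)) ^ C :=
          Real.rpow_le_rpow (by positivity) b2 hC.le
      _ = Real.exp (C * (|y| + H)) := by
          rw [← Real.exp_mul, mul_comm]
  have b3 : x ^ 2 - (y - y₀) ^ 2 - c * x ≤ 9 / 4 - (y - y₀) ^ 2 := by
    have c1 : x ^ 2 ≤ 9 / 4 := by nlinarith
    have c2 : 0 ≤ c * x := mul_nonneg hc hx0
    linarith
  have b4 : (C + 1) * |y| ≤ (y - y₀) ^ 2 + (C + 1) ^ 2 / 4 + (C + 1) * |y₀| := by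
    have c1 : |y| ≤ |y - y₀| + |y₀| := by
      have := abs_add_le (y - y₀) y₀
      rwa [sub_add_cancel] at this
    have c2 : (C + 1) * |y| ≤ (C + 1) * (|y - y₀| + |y₀|) :=
      mul_le_mul_of_nonneg_left c1 (by linarith)
    have c3 : (C + 1) * |y - y₀| ≤ |y - y₀| ^ 2 + (C + 1) ^ 2 / 4 := by
      nlinarith [sq_nonneg (|y - y₀| - (C + 1) / 2)]
    rw [sq_abs] at c3
    linarith
  calc ‖Gq (1 / 2 + x + (y + h) * I)‖ * Real.exp (x ^ 2 - (y - y₀) ^ 2 - c * x)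
      ≤ (C * Real.exp (C * (|y| + H))) * Real.exp (9 / 4 - (y - y₀) ^ 2) := by
        apply mul_le_mul b1 (Real.exp_le_exp.2 b3) (Real.exp_pos _).le (by positivity)
    _ = C * Real.exp (C * (|y| + H) + (9 / 4 - (y - y₀) ^ 2)) := by
        rw [mul_assoc, ← Real.exp_add]
    _ ≤ C * Real.exp (C * H + 9 / 4 + (C + 1) ^ 2 / 4 + (C + 1) * |y₀| + -(1 * |y|)) := by
        apply mul_le_mul_of_nonneg_left _ hC.le
        apply Real.exp_le_exp.2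
        linarith
    _ = C * Real.exp (C * H + 9 / 4 + (C + 1) ^ 2 / 4 + (C + 1) * |y₀|) * Real.exp (-(1 * |y|)) := by
        rw [Real.exp_add, mul_assoc]

theorem t (h1 : S_HIPP) (h2 : S_ZPB2) : S_GAUP := by
  intro m k h d Λ y₀ hm hk hd hd4 hΛ
  obtain ⟨C, hC, hz⟩ := h2.2.2.1
  obtain ⟨K, hK⟩ : ∃ K : ℝ, K = ∑ j, k j := ⟨_, rfl⟩
  have hK0 : 0 < K := by
    rw [hK]
    have : Nonempty (Fin m) := ⟨⟨0, hm⟩⟩
    exact Finset.sum_pos (fun j _ => hk j) Finset.univ_nonempty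
  obtain ⟨c, hcdef⟩ : ∃ c : ℝ, c = Λ / (2 * K) := ⟨_, rfl⟩
  have hc : 0 ≤ c := by rw [hcdef]; positivity
  have hcK : c * (2 * K) = Λ := by
    rw [hcdef]
    field_simp
  have key := h1 m (fun j => ff c (h j) y₀) (fun j => 2 * k j) (1 / 2) 2
    (C * Real.exp (C * (∑ j, |h j|) + 9 / 4 + (C + 1) ^ 2 / 4 + (C + 1) * |y₀|)) 1 hm (by norm_num)
    (fun j => by have := hk j; positivity) one_pos
    (fun j s hs1 _ => an_ff h2 c (h j) y₀ s hs1)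
    (fun j s hs1 hs2 => bound_ff hC hz c (h j) _ y₀ hc
      (Finset.single_le_sum (f := fun j => |h j|) (fun j _ => abs_nonneg (h j)) (Finset.mem_univ j)) s hs1 hs2)
    (1 / 2 + d) (by linarith) (by linarith)
  have e1 := int_ff k h c d y₀
  have e2 := int_ff k h c 0 y₀
  have e3 := int_ff k h c (3 / 2) y₀
  have t3 : ((1 / 2 + 3 / 2 : ℝ) : ℂ) = ((2 : ℝ) : ℂ) := by norm_num
  rw [t3] at e3
  rw [add_zero] at e2
  rw [e1, e2, e3, ← hK] at key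
  have f0 : Real.exp (((0:ℝ) ^ 2 - c * 0) * (2 * K)) = 1 := by simp
  have f1 : Real.exp ((((3:ℝ) / 2) ^ 2 - c * (3 / 2)) * (2 * K)) = Real.exp (-(3 / 2 * Λ)) * Real.exp (9 / 2 * K) := by
    rw [← Real.exp_add]
    congr 1
    rw [← hcK]
    ring
  have f2 : Real.exp (-(Λ * d)) ≤ Real.exp ((d ^ 2 - c * d) * (2 * K)) := by
    apply Real.exp_le_exp.2
    have : (d ^ 2 - c * d) * (2 * K) = 2 * K * d ^ 2 - c * (2 * K) * d := by ring
    rw [this, hcK]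
    have : 0 ≤ 2 * K * d ^ 2 := by positivity
    linarith
  rw [f0, f1, one_mul] at key
  have p0 := Gp_nonneg k h 0 y₀
  have pd := Gp_nonneg k h d y₀
  have p3 := Gp_nonneg k h (3 / 2) y₀
  have g1 : (2 - (1 / 2 + d)) / (2 - 1 / 2) * Gp k h 0 y₀ ≤ Gp k h 0 y₀ := by
    apply mul_le_of_le_one_left p0
    rw [div_le_one (by norm_num)]
    linarith
  have g2 : (1 / 2 + d - 1 / 2) / (2 - 1 / 2) * (Real.exp (-(3 / 2 * Λ)) * Real.exp (9 / 2 * K) * Gp k h (3 / 2) y₀) ≤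
      d * (Real.exp (-(3 / 2 * Λ)) * Real.exp (9 / 2 * K) * Gp k h (3 / 2) y₀) := by
    apply mul_le_mul_of_nonneg_right _ (by positivity)
    rw [div_le_iff₀ (by norm_num)]
    linarith
  have g3 : Real.exp (-(Λ * d)) * Gp k h d y₀ ≤
      Gp k h 0 y₀ + d * (Real.exp (-(3 / 2 * Λ)) * Real.exp (9 / 2 * K) * Gp k h (3 / 2) y₀) := by
    calc Real.exp (-(Λ * d)) * Gp k h d y₀ ≤ Real.exp ((d ^ 2 - c * d) * (2 * K)) * Gp k h d y₀ :=
          mul_le_mul_of_nonneg_right f2 pd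
      _ ≤ _ := key
      _ ≤ _ := add_le_add g1 g2
  have g4 : Real.exp (Λ * d) * Real.exp (-(Λ * d)) = 1 := by
    rw [← Real.exp_add]
    simp
  have g5 : Real.exp (Λ * d - 3 / 2 * Λ) = Real.exp (Λ * d) * Real.exp (-(3 / 2 * Λ)) := by
    rw [← Real.exp_add]
    congr 1
  rw [← hK, g5]
  calc Gp k h d y₀ = Real.exp (Λ * d) * (Real.exp (-(Λ * d)) * Gp k h d y₀) := by
        rw [← mul_assoc, g4, one_mul]
    _ ≤ Real.exp (Λ * d) *
        (Gp k h 0 y₀ + d * (Real.exp (-(3 / 2 * Λ)) * Real.exp (9 / 2 * K) * Gp k h (3 / 2) y₀)) :=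
        mul_le_mul_of_nonneg_left g3 (Real.exp_pos _).le
    _ = _ := by ring

end Pool.Agent.H6F.GAUP
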