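import Mathlib

set_option autoImplicit false

/-!
# Auxiliary lemmas for INTG2: Gaussian averages (the first part is copied from INTG.lean of helper9)
-/

namespace Pool.Agent.H6F.INTG2aux
open MeasureTheory

/-- the Gaussian weight -/
noncomputable def gs (k h v : ℝ) : ℝ := Real.exp (-(2 * k * v ^ 2 / h ^ 2))

lemma gs_eq (k h v : ℝ) : gs k h v = Real.exp (-(2 * k / h ^ 2) * v ^ 2) := by
  unfold gs
  congr 1
  ring

lemma gs_nn (k h v : ℝ) : 0 ≤ gs k h v := (Real.exp_pos _).le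

lemma gs_cont (k h : ℝ) : Continuous (gs k h) := by
  unfold gs
  fun_prop

lemma poly (k B : ℝ) (hk : 0 < k) (hB : 0 ≤ B) (y y₀ : ℝ) :
    (1 + |y|) ^ B ≤ (1 + |y₀|) ^ B * (Real.exp (B ^ 2 / (2 * k)) * Real.exp (k / 2 * (y - y₀) ^ 2)) := by
  have h1 : 1 + |y| ≤ (1 + |y₀|) * (1 + |y - y₀|) := by
    have h := abs_add_le (y - y₀) y₀
    rw [sub_add_cancel] at h
    have h' := mul_nonneg (abs_nonneg y₀) (abs_nonneg (y - y₀))
    have e : (1 + |y₀|) * (1 + |y - y₀|) = 1 + |y₀| + |y - y₀| + |y₀| * |y - y₀| := by ring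
    rw [e]
    linarith
  have h2 : (1 + |y|) ^ B ≤ ((1 + |y₀|) * (1 + |y - y₀|)) ^ B := Real.rpow_le_rpow (by positivity) h1 hB
  rw [Real.mul_rpow (by positivity) (by positivity)] at h2
  refine h2.trans (mul_le_mul_of_nonneg_left ?_ (by positivity))
  have h3 : 1 + |y - y₀| ≤ Real.exp |y - y₀| := by linarith [Real.add_one_le_exp |y - y₀|]
  have h4 : (1 + |y - y₀|) ^ B ≤ Real.exp (B * |y - y₀|) := by
    calc (1 + |y - y₀|) ^ B ≤ (Real.exp |y - y₀|) ^ B := Real.rpow_le_rpow (by positivity) h3 hB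
      _ = Real.exp (|y - y₀| * B) := by rw [← Real.exp_mul]
      _ = _ := by rw [mul_comm]
  refine h4.trans ?_
  rw [← Real.exp_add]
  apply Real.exp_le_exp.mpr
  have h5 : (y - y₀) ^ 2 = |y - y₀| ^ 2 := (sq_abs _).symm
  rw [h5]
  have h6 : B ^ 2 / (2 * k) + k / 2 * |y - y₀| ^ 2 - B * |y - y₀| = (k / 2) * (|y - y₀| - B / k) ^ 2 := by
    field_simp
    ring
  have h7 : 0 ≤ (k / 2) * (|y - y₀| - B / k) ^ 2 := by positivity
  linarith

/-- the constant in the bounds -/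
noncomputable def A1 (k A B y₀ : ℝ) : ℝ := A * (1 + |y₀|) ^ B * Real.exp (B ^ 2 / (2 * k))

lemma A1_nn (k A B y₀ : ℝ) (hA : 0 ≤ A) : 0 ≤ A1 k A B y₀ := by unfold A1; positivity

lemma f_le (k A B : ℝ) (hk : 0 < k) (hA : 0 ≤ A) (hB : 0 ≤ B) (f : ℝ → ℝ)
    (hfb : ∀ y, f y ≤ A * (1 + |y|) ^ B) (y y₀ : ℝ) :
    f y ≤ A1 k A B y₀ * Real.exp (k / 2 * (y - y₀) ^ 2) := by
  refine (hfb y).trans ((mul_le_mul_of_nonneg_left (poly k B hk hB y y₀) hA).trans (le_of_eq ?_))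
  unfold A1
  ring

lemma sq_div (h v : ℝ) (hh : 0 < h) (hh1 : h ≤ 1) : v ^ 2 ≤ v ^ 2 / h ^ 2 := by
  rw [le_div_iff₀ (by positivity)]
  have : h ^ 2 ≤ 1 := by nlinarith
  nlinarith [sq_nonneg v]

lemma dom1 (k h A B : ℝ) (hk : 0 < k) (hh : 0 < h) (hh1 : h ≤ 1) (hA : 0 ≤ A) (hB : 0 ≤ B) (f : ℝ → ℝ)
    (hfb : ∀ y, f y ≤ A * (1 + |y|) ^ B) (y y₀ : ℝ) :
    f y * gs k h (y - y₀) ≤ A1 k A B y₀ * Real.exp (-(k / 2) * (y - y₀) ^ 2) := by
  refine (mul_le_mul_of_nonneg_right (f_le k A B hk hA hB f hfb y y₀) (gs_nn _ _ _)).trans ?_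
  rw [mul_assoc]
  refine mul_le_mul_of_nonneg_left ?_ (A1_nn _ _ _ _ hA)
  unfold gs
  rw [← Real.exp_add]
  apply Real.exp_le_exp.mpr
  have h1 := mul_le_mul_of_nonneg_left (sq_div h (y - y₀) hh hh1) hk.le
  have h2 : 2 * k * (y - y₀) ^ 2 / h ^ 2 = 2 * (k * ((y - y₀) ^ 2 / h ^ 2)) := by ring
  rw [h2]
  have h3 : 0 ≤ k * (y - y₀) ^ 2 := by positivity
  linarith

lemma dom2 (k h A B : ℝ) (hk : 0 < k) (hh : 0 < h) (hh1 : h ≤ 1) (hA : 0 ≤ A) (hB : 0 ≤ B) (f : ℝ → ℝ)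
    (hfb : ∀ y, f y ≤ A * (1 + |y|) ^ B) (y y₀ : ℝ) (h1 : 1 ≤ |y - y₀|) :
    f y * gs k h (y - y₀) ≤ A1 k A B y₀ * Real.exp (-(k / h ^ 2)) * Real.exp (-(k / 2) * (y - y₀) ^ 2) := by
  refine (mul_le_mul_of_nonneg_right (f_le k A B hk hA hB f hfb y y₀) (gs_nn _ _ _)).trans ?_
  rw [mul_assoc, mul_assoc]
  refine mul_le_mul_of_nonneg_left ?_ (A1_nn _ _ _ _ hA)
  unfold gs
  rw [← Real.exp_add, ← Real.exp_add]
  apply Real.exp_le_exp.mpr
  have h2 := mul_le_mul_of_nonneg_left (sq_div h (y - y₀) hh hh1) hk.le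
  have h3 : 2 * k * (y - y₀) ^ 2 / h ^ 2 = 2 * (k * ((y - y₀) ^ 2 / h ^ 2)) := by ring
  have h4 : 1 ≤ (y - y₀) ^ 2 := by
    rw [← sq_abs]
    nlinarith
  have h5 : k / h ^ 2 ≤ k * ((y - y₀) ^ 2 / h ^ 2) := by
    rw [← mul_div_assoc]
    apply div_le_div_of_nonneg_right _ (by positivity)
    nlinarith
  rw [h3]
  linarith

lemma gint (b y₀ : ℝ) (hb : 0 < b) : Integrable (fun y : ℝ => Real.exp (-b * (y - y₀) ^ 2)) :=
  (integrable_exp_neg_mul_sq hb).comp_sub_right y₀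

lemma gval (b y₀ : ℝ) : ∫ y : ℝ, Real.exp (-b * (y - y₀) ^ 2) = √(Real.pi / b) := by
  rw [integral_sub_right_eq_self (fun y : ℝ => Real.exp (-b * y ^ 2)) y₀]
  exact integral_gaussian b

lemma gint' (b y : ℝ) (hb : 0 < b) : Integrable (fun y₀ : ℝ => Real.exp (-b * (y - y₀) ^ 2)) :=
  (integrable_exp_neg_mul_sq hb).comp_sub_left y

lemma gval' (b y : ℝ) : ∫ y₀ : ℝ, Real.exp (-b * (y - y₀) ^ 2) = √(Real.pi / b) := by
  rw [integral_sub_left_eq_self (fun y : ℝ => Real.exp (-b * y ^ 2)) volume y]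
  exact integral_gaussian b

lemma fint (k h A B : ℝ) (hk : 0 < k) (hh : 0 < h) (hh1 : h ≤ 1) (hA : 0 ≤ A) (hB : 0 ≤ B) (f : ℝ → ℝ)
    (hf : Continuous f) (hf0 : ∀ y, 0 ≤ f y) (hfb : ∀ y, f y ≤ A * (1 + |y|) ^ B) (y₀ : ℝ) :
    Integrable (fun y : ℝ => f y * gs k h (y - y₀)) := by
  refine Integrable.mono' ((gint (k / 2) y₀ (by positivity)).const_mul (A1 k A B y₀)) ?_ ?_
  · apply Continuous.aestronglyMeasurable
    exact hf.mul ((gs_cont k h).comp (by fun_prop))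
  · refine Filter.Eventually.of_forall fun y => ?_
    rw [Real.norm_of_nonneg (mul_nonneg (hf0 y) (gs_nn _ _ _))]
    exact dom1 k h A B hk hh hh1 hA hB f hfb y y₀

lemma upper (k h A B : ℝ) (hk : 0 < k) (hh : 0 < h) (hh1 : h ≤ 1) (hA : 0 ≤ A) (hB : 0 ≤ B) (f : ℝ → ℝ)
    (hf : Continuous f) (hf0 : ∀ y, 0 ≤ f y) (hfb : ∀ y, f y ≤ A * (1 + |y|) ^ B) (t H y₀ : ℝ) (hH : 4 ≤ H)
    (h1 : t + 1 ≤ y₀) (h2 : y₀ ≤ t + H - 1) :
    ∫ y, f y * gs k h (y - y₀) ≤ (∫ y in t..(t + H), f y * gs k h (y - y₀)) +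
      A1 k A B y₀ * Real.exp (-(k / h ^ 2)) * √(Real.pi / (k / 2)) := by
  have hint := fint k h A B hk hh hh1 hA hB f hf hf0 hfb y₀
  rw [← integral_add_compl (measurableSet_Ioc : MeasurableSet (Set.Ioc t (t + H))) hint,
    intervalIntegral.integral_of_le (by linarith)]
  refine add_le_add le_rfl ?_
  have hg := ((gint (k / 2) y₀ (by positivity)).const_mul (A1 k A B y₀ * Real.exp (-(k / h ^ 2))))
  calc ∫ y in (Set.Ioc t (t + H))ᶜ, f y * gs k h (y - y₀)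
      ≤ ∫ y in (Set.Ioc t (t + H))ᶜ, A1 k A B y₀ * Real.exp (-(k / h ^ 2)) *
          Real.exp (-(k / 2) * (y - y₀) ^ 2) := by
        refine setIntegral_mono_on hint.integrableOn hg.integrableOn measurableSet_Ioc.compl ?_
        intro y hy
        apply dom2 k h A B hk hh hh1 hA hB f hfb y y₀
        rw [Set.mem_compl_iff, Set.mem_Ioc, not_and_or, not_lt, not_le] at hy
        rcases hy with hy | hy
        · rw [abs_of_nonpos (by linarith)]; linarith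
        · rw [abs_of_nonneg (by linarith)]; linarith
    _ ≤ ∫ y, A1 k A B y₀ * Real.exp (-(k / h ^ 2)) * Real.exp (-(k / 2) * (y - y₀) ^ 2) := by
        refine setIntegral_le_integral hg (Filter.Eventually.of_forall fun y => ?_)
        have := A1_nn k A B y₀ hA
        show 0 ≤ A1 k A B y₀ * Real.exp (-(k / h ^ 2)) * Real.exp (-(k / 2) * (y - y₀) ^ 2)
        positivity
    _ = _ := by
        rw [integral_const_mul, gval]

lemma lower (k h A B : ℝ) (hk : 0 < k) (hh : 0 < h) (hh1 : h ≤ 1) (hA : 0 ≤ A) (hB : 0 ≤ B) (f : ℝ → ℝ)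
    (hf : Continuous f) (hf0 : ∀ y, 0 ≤ f y) (hfb : ∀ y, f y ≤ A * (1 + |y|) ^ B) (t H y₀ : ℝ) (hH : 4 ≤ H) :
    ∫ y in (t + 2)..(t + H - 2), f y * gs k h (y - y₀) ≤ ∫ y, f y * gs k h (y - y₀) := by
  have hint := fint k h A B hk hh hh1 hA hB f hf hf0 hfb y₀
  rw [intervalIntegral.integral_of_le (by linarith)]
  exact setIntegral_le_integral hint (Filter.Eventually.of_forall fun y => mul_nonneg (hf0 y) (gs_nn _ _ _))

lemma w_upper (k h : ℝ) (hk : 0 < k) (hh : 0 < h) (t H y : ℝ) (hH : 4 ≤ H) :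
    ∫ y₀ in (t + 1)..(t + H - 1), gs k h (y - y₀) ≤ √(Real.pi / (2 * k / h ^ 2)) := by
  rw [intervalIntegral.integral_of_le (by linarith)]
  simp_rw [gs_eq]
  have hb : 0 < 2 * k / h ^ 2 := by positivity
  refine (setIntegral_le_integral (gint' _ y hb) (Filter.Eventually.of_forall fun y => (Real.exp_pos _).le)).trans ?_
  rw [gval']

lemma w_lower (k h : ℝ) (hk : 0 < k) (hh : 0 < h) (t H y : ℝ) (hH : 4 ≤ H) (h1 : t + 2 ≤ y)
    (h2 : y ≤ t + H - 2) :
    (1 - √2 * Real.exp (-(k / h ^ 2))) * √(Real.pi / (2 * k / h ^ 2)) ≤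
      ∫ y₀ in (t + 1)..(t + H - 1), gs k h (y - y₀) := by
  rw [intervalIntegral.integral_of_le (by linarith)]
  simp_rw [gs_eq]
  have hb : 0 < 2 * k / h ^ 2 := by positivity
  have hb' : 0 < k / h ^ 2 := by positivity
  have hi := gint' _ y hb
  have hg := (gint' _ y hb').const_mul (Real.exp (-(k / h ^ 2)))
  have hsplit := integral_add_compl (measurableSet_Ioc : MeasurableSet (Set.Ioc (t + 1) (t + H - 1))) hi
  rw [gval'] at hsplit
  have htail : ∫ y₀ in (Set.Ioc (t + 1) (t + H - 1))ᶜ, Real.exp (-(2 * k / h ^ 2) * (y - y₀) ^ 2) ≤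
      Real.exp (-(k / h ^ 2)) * √(Real.pi / (k / h ^ 2)) := by
    calc _ ≤ ∫ y₀ in (Set.Ioc (t + 1) (t + H - 1))ᶜ, Real.exp (-(k / h ^ 2)) *
          Real.exp (-(k / h ^ 2) * (y - y₀) ^ 2) := by
          refine setIntegral_mono_on hi.integrableOn hg.integrableOn measurableSet_Ioc.compl ?_
          intro y₀ hy
          rw [← Real.exp_add]
          apply Real.exp_le_exp.mpr
          rw [Set.mem_compl_iff, Set.mem_Ioc, not_and_or, not_lt, not_le] at hy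
          have h3 : 1 ≤ |y - y₀| := by
            rcases hy with hy | hy
            · rw [abs_of_nonneg (by linarith)]; linarith
            · rw [abs_of_nonpos (by linarith)]; linarith
          have h4 : 1 ≤ (y - y₀) ^ 2 := by
            rw [← sq_abs]
            nlinarith
          have h5 : 2 * k / h ^ 2 = 2 * (k / h ^ 2) := by ring
          rw [h5]
          nlinarith
      _ ≤ ∫ y₀, Real.exp (-(k / h ^ 2)) * Real.exp (-(k / h ^ 2) * (y - y₀) ^ 2) :=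
          setIntegral_le_integral hg (Filter.Eventually.of_forall fun y => by positivity)
      _ = _ := by rw [integral_const_mul, gval']
  have h6 : √(Real.pi / (k / h ^ 2)) = √2 * √(Real.pi / (2 * k / h ^ 2)) := by
    rw [← Real.sqrt_mul (by norm_num)]
    congr 1
    field_simp
  rw [h6] at htail
  have e : (1 - √2 * Real.exp (-(k / h ^ 2))) * √(Real.pi / (2 * k / h ^ 2)) =
    √(Real.pi / (2 * k / h ^ 2)) - Real.exp (-(k / h ^ 2)) * (√2 * √(Real.pi / (2 * k / h ^ 2))) := by ring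
  rw [e]
  linarith

lemma swap (k h : ℝ) (f : ℝ → ℝ) (hf : Continuous f) (a b c d : ℝ) :
    ∫ y₀ in a..b, ∫ y in c..d, f y * gs k h (y - y₀) = ∫ y in c..d, f y * ∫ y₀ in a..b, gs k h (y - y₀) := by
  rw [intervalIntegral_intervalIntegral_swap]
  · refine intervalIntegral.integral_congr fun y _ => ?_
    exact intervalIntegral.integral_const_mul _ _
  · have hc : Continuous (Function.uncurry fun y₀ y : ℝ => f y * gs k h (y - y₀)) := by
      have h1 := gs_cont k h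
      show Continuous fun p : ℝ × ℝ => f p.2 * gs k h (p.2 - p.1)
      exact (hf.comp continuous_snd).mul (h1.comp (continuous_snd.sub continuous_fst))
    have hK : IsCompact (Set.uIcc a b ×ˢ Set.uIcc c d) := isCompact_uIcc.prod isCompact_uIcc
    exact (hc.continuousOn.integrableOn_compact hK).mono_set
      (Set.prod_mono Set.uIoc_subset_uIcc Set.uIoc_subset_uIcc)

lemma par_cont (k h : ℝ) (f : ℝ → ℝ) (hf : Continuous f) (c d : ℝ) :
    Continuous fun y₀ : ℝ => ∫ y in c..d, f y * gs k h (y - y₀) := by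
  apply intervalIntegral.continuous_parametric_intervalIntegral_of_continuous'
  show Continuous fun p : ℝ × ℝ => f p.2 * gs k h (p.2 - p.1)
  exact (hf.comp continuous_snd).mul ((gs_cont k h).comp (continuous_snd.sub continuous_fst))

lemma w_cont (k h : ℝ) (a b : ℝ) : Continuous fun y : ℝ => ∫ y₀ in a..b, gs k h (y - y₀) := by
  apply intervalIntegral.continuous_parametric_intervalIntegral_of_continuous'
  show Continuous fun p : ℝ × ℝ => gs k h (p.1 - p.2)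
  exact (gs_cont k h).comp (continuous_fst.sub continuous_snd)

lemma exp_small (x : ℝ) (hx : 0 < x) : Real.exp (-x) ≤ 1 / x := by
  rw [Real.exp_neg, ← one_div]
  apply one_div_le_one_div_of_le hx
  linarith [Real.add_one_le_exp x]

lemma comb (k h A B : ℝ) (hk : 0 < k) (hh : 0 < h) (hh4 : h ≤ 1 / 4) (hA : 0 ≤ A) (hB : 0 ≤ B)
    (f1 f0 f2 : ℝ → ℝ) (c1 : Continuous f1) (c0 : Continuous f0) (c2 : Continuous f2)
    (n1 : ∀ y, 0 ≤ f1 y) (n0 : ∀ y, 0 ≤ f0 y) (n2 : ∀ y, 0 ≤ f2 y)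
    (b1 : ∀ y, f1 y ≤ A * (1 + |y|) ^ B) (b0 : ∀ y, f0 y ≤ A * (1 + |y|) ^ B)
    (b2 : ∀ y, f2 y ≤ A * (1 + |y|) ^ B) (r : ℝ) (hr : 0 ≤ r)
    (hyp : ∀ y₀, ∫ y, f1 y * gs k h (y - y₀) ≤ (∫ y, f0 y * gs k h (y - y₀)) + r * ∫ y, f2 y * gs k h (y - y₀))
    (t H : ℝ) (ht : 0 ≤ t) (hH : 4 ≤ H) :
    (1 - √2 * Real.exp (-(k / h ^ 2))) * √(Real.pi / (2 * k / h ^ 2)) * (∫ u in (t + 2)..(t + H - 2), f1 u) ≤
      √(Real.pi / (2 * k / h ^ 2)) * (∫ u in t..(t + H), f0 u) +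
        r * (√(Real.pi / (2 * k / h ^ 2)) * (∫ u in t..(t + H), f2 u)) +
        (1 + r) * ((H - 2) * (A * (1 + t + H) ^ B * Real.exp (B ^ 2 / (2 * k)) *
          Real.exp (-(k / h ^ 2)) * √(Real.pi / (k / 2)))) := by
  have hh1 : h ≤ 1 := by linarith
  obtain ⟨E, hE⟩ : ∃ E, E = A * (1 + t + H) ^ B * Real.exp (B ^ 2 / (2 * k)) *
          Real.exp (-(k / h ^ 2)) * √(Real.pi / (k / 2)) := ⟨_, rfl⟩
  obtain ⟨S, hS⟩ : ∃ S, S = √(Real.pi / (2 * k / h ^ 2)) := ⟨_, rfl⟩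
  rw [← hE, ← hS]
  have hEb : ∀ y₀, t + 1 ≤ y₀ → y₀ ≤ t + H - 1 →
      A1 k A B y₀ * Real.exp (-(k / h ^ 2)) * √(Real.pi / (k / 2)) ≤ E := by
    intro y₀ h1 h2
    rw [hE]
    unfold A1
    have h3 : (1 + |y₀|) ^ B ≤ (1 + t + H) ^ B := by
      apply Real.rpow_le_rpow (by positivity) _ hB
      rw [abs_of_nonneg (by linarith)]
      linarith
    gcongr
  have hpt : ∀ y₀ ∈ Set.Icc (t + 1) (t + H - 1), (∫ y in (t + 2)..(t + H - 2), f1 y * gs k h (y - y₀)) ≤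
      ((∫ y in t..(t + H), f0 y * gs k h (y - y₀)) + r * (∫ y in t..(t + H), f2 y * gs k h (y - y₀))) +
        (1 + r) * E := by
    intro y₀ hy
    have u0 := upper k h A B hk hh hh1 hA hB f0 c0 n0 b0 t H y₀ hH hy.1 hy.2
    have u2 := upper k h A B hk hh hh1 hA hB f2 c2 n2 b2 t H y₀ hH hy.1 hy.2
    have l1 := lower k h A B hk hh hh1 hA hB f1 c1 n1 b1 t H y₀ hH
    have h3 := hyp y₀
    have h4 := hEb y₀ hy.1 hy.2
    have h5 : r * ∫ y, f2 y * gs k h (y - y₀) ≤ r * ((∫ y in t..(t + H), f2 y * gs k h (y - y₀)) + E) :=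
      mul_le_mul_of_nonneg_left (by linarith) hr
    linarith
  have I1 : IntervalIntegrable (fun y₀ => ∫ y in (t + 2)..(t + H - 2), f1 y * gs k h (y - y₀)) volume
      (t + 1) (t + H - 1) := (par_cont k h f1 c1 (t + 2) (t + H - 2)).intervalIntegrable _ _
  have I0 : IntervalIntegrable (fun y₀ => ∫ y in t..(t + H), f0 y * gs k h (y - y₀)) volume
      (t + 1) (t + H - 1) := (par_cont k h f0 c0 t (t + H)).intervalIntegrable _ _
  have I2 : IntervalIntegrable (fun y₀ => ∫ y in t..(t + H), f2 y * gs k h (y - y₀)) volume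
      (t + 1) (t + H - 1) := (par_cont k h f2 c2 t (t + H)).intervalIntegrable _ _
  have I2' : IntervalIntegrable (fun y₀ => r * ∫ y in t..(t + H), f2 y * gs k h (y - y₀)) volume
      (t + 1) (t + H - 1) := I2.const_mul r
  have Ic : IntervalIntegrable (fun _ : ℝ => (1 + r) * E) volume (t + 1) (t + H - 1) :=
    continuous_const.intervalIntegrable _ _
  have hint := intervalIntegral.integral_mono_on (by linarith : t + 1 ≤ t + H - 1) I1
    ((I0.add I2').add Ic) hpt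
  have e2 : ∫ y₀ in (t + 1)..(t + H - 1), (((∫ y in t..(t + H), f0 y * gs k h (y - y₀)) +
      r * (∫ y in t..(t + H), f2 y * gs k h (y - y₀))) + (1 + r) * E) =
      (∫ y₀ in (t + 1)..(t + H - 1), ∫ y in t..(t + H), f0 y * gs k h (y - y₀)) +
        r * (∫ y₀ in (t + 1)..(t + H - 1), ∫ y in t..(t + H), f2 y * gs k h (y - y₀)) +
        (t + H - 1 - (t + 1)) * ((1 + r) * E) := by
    rw [intervalIntegral.integral_add (I0.add I2') Ic, intervalIntegral.integral_add I0 I2',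
      intervalIntegral.integral_const_mul, intervalIntegral.integral_const, smul_eq_mul]
  rw [e2, swap k h f1 c1, swap k h f0 c0, swap k h f2 c2] at hint
  have hw := w_cont k h (t + 1) (t + H - 1)
  have hlow : (1 - √2 * Real.exp (-(k / h ^ 2))) * S * (∫ u in (t + 2)..(t + H - 2), f1 u) ≤
      ∫ y in (t + 2)..(t + H - 2), f1 y * ∫ y₀ in (t + 1)..(t + H - 1), gs k h (y - y₀) := by
    rw [← intervalIntegral.integral_const_mul]
    apply intervalIntegral.integral_mono_on (by linarith)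
      ((continuous_const.mul c1).intervalIntegrable _ _) ((c1.mul hw).intervalIntegrable _ _)
    intro y hy
    have h3 := w_lower k h hk hh t H y hH hy.1 hy.2
    rw [← hS] at h3
    have h4 := mul_le_mul_of_nonneg_left h3 (n1 y)
    show (1 - √2 * Real.exp (-(k / h ^ 2))) * S * f1 y ≤
      f1 y * ∫ y₀ in (t + 1)..(t + H - 1), gs k h (y - y₀)
    linarith
  have hup : ∀ f : ℝ → ℝ, Continuous f → (∀ y, 0 ≤ f y) →
      ∫ y in t..(t + H), f y * ∫ y₀ in (t + 1)..(t + H - 1), gs k h (y - y₀) ≤ S * ∫ u in t..(t + H), f u := by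
    intro f hf hn
    rw [← intervalIntegral.integral_const_mul]
    apply intervalIntegral.integral_mono_on (by linarith)
      ((hf.mul hw).intervalIntegrable _ _) ((continuous_const.mul hf).intervalIntegrable _ _)
    intro y _
    have h3 := w_upper k h hk hh t H y hH
    rw [← hS] at h3
    have h4 := mul_le_mul_of_nonneg_left h3 (hn y)
    show f y * ∫ y₀ in (t + 1)..(t + H - 1), gs k h (y - y₀) ≤ S * f y
    linarith
  have h6 := hup f0 c0 n0
  have h7 := mul_le_mul_of_nonneg_left (hup f2 c2 n2) hr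
  have e1 : (t + H - 1 - (t + 1)) * ((1 + r) * E) = (1 + r) * ((H - 2) * E) := by ring
  rw [e1] at hint
  linarith


lemma core (K A P : ℝ) (hK : 0 < K) (hA : 0 ≤ A) (hP : 0 ≤ P) (f1 f0 f2 : ℝ → ℝ)
    (c1 : Continuous f1) (c0 : Continuous f0) (c2 : Continuous f2)
    (n1 : ∀ y, 0 ≤ f1 y) (n0 : ∀ y, 0 ≤ f0 y) (n2 : ∀ y, 0 ≤ f2 y)
    (b1 : ∀ y, f1 y ≤ A * (1 + |y|) ^ P) (b0 : ∀ y, f0 y ≤ A * (1 + |y|) ^ P)
    (b2 : ∀ y, f2 y ≤ A * (1 + |y|) ^ P) (r : ℝ) (hr : 0 ≤ r)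
    (hyp : ∀ y₀, ∫ y, f1 y * Real.exp (-(2 * K * (y - y₀) ^ 2)) ≤
      (∫ y, f0 y * Real.exp (-(2 * K * (y - y₀) ^ 2))) + r * ∫ y, f2 y * Real.exp (-(2 * K * (y - y₀) ^ 2)))
    (B T : ℝ) (hB : 4 ≤ B) (hT : 4 * B ≤ T) :
    (1 - √2 * Real.exp (-(K * B ^ 2))) * (∫ u in (2 * B)..(T - 2 * B), f1 u) ≤
      (∫ u in (0:ℝ)..T, f0 u) + r * (∫ u in (0:ℝ)..T, f2 u) +
        (1 + r) * (2 * B * T * (A * (B + T) ^ P * Real.exp (P ^ 2 / (2 * K)) * Real.exp (-(K * B ^ 2)))) := by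
  have hB0 : 0 < B := by linarith
  have hT0 : 0 < T := by linarith
  have hBn : B ≠ 0 := hB0.ne'
  have hb : ∀ f : ℝ → ℝ, (∀ y, f y ≤ A * (1 + |y|) ^ P) → ∀ u, f (B * u) ≤ (A * B ^ P) * (1 + |u|) ^ P := by
    intro f hf u
    refine (hf (B * u)).trans ?_
    rw [mul_assoc, ← Real.mul_rpow hB0.le (by positivity)]
    apply mul_le_mul_of_nonneg_left _ hA
    apply Real.rpow_le_rpow (by positivity) _ hP
    rw [abs_mul, abs_of_pos hB0]
    linarith
  have sc : ∀ (f : ℝ → ℝ) (y₀ : ℝ), ∫ y, f (B * y) * gs K (1 / B) (y - y₀) =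
      B⁻¹ * ∫ x, f x * Real.exp (-(2 * K * (x - B * y₀) ^ 2)) := by
    intro f y₀
    have h1 := Measure.integral_comp_mul_left (fun x => f x * Real.exp (-(2 * K * (x - B * y₀) ^ 2))) B
    rw [abs_of_pos (by positivity), smul_eq_mul] at h1
    rw [← h1]
    congr 1
    funext y
    unfold gs
    congr 2
    field_simp
  have si : ∀ (f : ℝ → ℝ) (a b : ℝ), ∫ u in a..b, f (B * u) = B⁻¹ * ∫ x in (B * a)..(B * b), f x := by
    intro f a b
    rw [intervalIntegral.integral_comp_mul_left f hBn, smul_eq_mul]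
  have hc := comb K (1 / B) (A * B ^ P) P hK (by positivity)
    (by rw [div_le_iff₀ hB0]; linarith) (by positivity) hP
    (fun u => f1 (B * u)) (fun u => f0 (B * u)) (fun u => f2 (B * u))
    (c1.comp (continuous_const.mul continuous_id)) (c0.comp (continuous_const.mul continuous_id))
    (c2.comp (continuous_const.mul continuous_id))
    (fun u => n1 _) (fun u => n0 _) (fun u => n2 _) (hb f1 b1) (hb f0 b0) (hb f2 b2) r hr
    (by
      intro y₀
      rw [sc, sc, sc]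
      have h2 := mul_le_mul_of_nonneg_left (hyp (B * y₀)) (by positivity : 0 ≤ B⁻¹)
      linarith) 0 (T / B) le_rfl (by rw [le_div_iff₀ hB0]; linarith)
  rw [si, si, si] at hc
  have e1 : B * (0 + 2) = 2 * B := by ring
  have e2 : B * (0 + T / B - 2) = T - 2 * B := by field_simp; ring
  have e3 : B * (0 : ℝ) = 0 := by ring
  have e4 : B * (0 + T / B) = T := by field_simp; ring
  rw [e1, e2, e3, e4] at hc
  have e5 : K / (1 / B) ^ 2 = K * B ^ 2 := by field_simp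
  have e6 : 2 * K / (1 / B) ^ 2 = 2 * K * B ^ 2 := by field_simp
  rw [e5, e6] at hc
  obtain ⟨s, hs⟩ : ∃ s, s = √(Real.pi / (2 * K)) := ⟨_, rfl⟩
  have hs0 : 0 < s := by rw [hs]; exact Real.sqrt_pos.mpr (by positivity)
  have hS : √(Real.pi / (2 * K * B ^ 2)) = s * B⁻¹ := by
    rw [hs, show Real.pi / (2 * K * B ^ 2) = (Real.pi / (2 * K)) * (B⁻¹) ^ 2 by field_simp,
      Real.sqrt_mul (by positivity), Real.sqrt_sq (by positivity)]
  have hS2 : √(Real.pi / (K / 2)) = 2 * s := by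
    rw [hs, show Real.pi / (K / 2) = 2 ^ 2 * (Real.pi / (2 * K)) by field_simp,
      Real.sqrt_mul (by positivity), Real.sqrt_sq (by norm_num)]
  rw [hS, hS2] at hc
  obtain ⟨I1, hI1⟩ : ∃ I, I = ∫ u in (2 * B)..(T - 2 * B), f1 u := ⟨_, rfl⟩
  obtain ⟨I0, hI0⟩ : ∃ I, I = ∫ u in (0:ℝ)..T, f0 u := ⟨_, rfl⟩
  obtain ⟨I2, hI2⟩ : ∃ I, I = ∫ u in (0:ℝ)..T, f2 u := ⟨_, rfl⟩
  rw [← hI1, ← hI0, ← hI2] at hc ⊢
  obtain ⟨E, hE⟩ : ∃ E, E = Real.exp (-(K * B ^ 2)) := ⟨_, rfl⟩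
  rw [← hE] at hc ⊢
  have hE0 : 0 < E := by rw [hE]; exact Real.exp_pos _
  obtain ⟨Q, hQ⟩ : ∃ Q, Q = Real.exp (P ^ 2 / (2 * K)) := ⟨_, rfl⟩
  rw [← hQ] at hc ⊢
  have hQ0 : 0 < Q := by rw [hQ]; exact Real.exp_pos _
  have hpw : B ^ P * (1 + 0 + T / B) ^ P = (B + T) ^ P := by
    rw [← Real.mul_rpow hB0.le (by positivity)]
    congr 1
    field_simp
    ring
  have hpos : 0 < s * B⁻¹ * B⁻¹ := by positivity
  refine le_of_mul_le_mul_left ?_ hpos
  have hl : s * B⁻¹ * B⁻¹ * ((1 - √2 * E) * I1) = (1 - √2 * E) * (s * B⁻¹) * (B⁻¹ * I1) := by ring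
  rw [hl]
  refine hc.trans ?_
  have hr' : (1 + r) * ((T / B - 2) * (A * B ^ P * (1 + 0 + T / B) ^ P * Q * E * (2 * s))) ≤
      s * B⁻¹ * B⁻¹ * ((1 + r) * (2 * B * T * (A * (B + T) ^ P * Q * E))) := by
    have h3 : A * B ^ P * (1 + 0 + T / B) ^ P = A * (B + T) ^ P := by
      rw [mul_assoc, hpw]
    rw [h3]
    have h4 : s * B⁻¹ * B⁻¹ * ((1 + r) * (2 * B * T * (A * (B + T) ^ P * Q * E))) =
        (1 + r) * ((T / B) * (A * (B + T) ^ P * Q * E * (2 * s))) := by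
      field_simp
    rw [h4]
    have h5 : 0 ≤ A * (B + T) ^ P * Q * E * (2 * s) := by positivity
    apply mul_le_mul_of_nonneg_left _ (by linarith)
    apply mul_le_mul_of_nonneg_right _ h5
    linarith
  have h6 : s * B⁻¹ * (B⁻¹ * I0) + r * (s * B⁻¹ * (B⁻¹ * I2)) = s * B⁻¹ * B⁻¹ * (I0 + r * I2) := by ring
  have h7 : s * B⁻¹ * B⁻¹ * (I0 + r * I2 + (1 + r) * (2 * B * T * (A * (B + T) ^ P * Q * E))) =
    s * B⁻¹ * B⁻¹ * (I0 + r * I2) + s * B⁻¹ * B⁻¹ * ((1 + r) * (2 * B * T * (A * (B + T) ^ P * Q * E))) := by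
    ring
  rw [h7, ← h6]
  linarith

/-- the error term is small -/
lemma tail (K P A M : ℝ) (hK : 0 < K) (hP : 0 ≤ P) (hA : 0 ≤ A) (hM : 0 ≤ M) : ∃ T₀ : ℝ, 3 ≤ T₀ ∧
    ∀ T : ℝ, T₀ ≤ T → (1 + M) * (2 * Real.log T * T * ((A * (1 + T) ^ P) * (Real.log T + T) ^ P *
      Real.exp (P ^ 2 / (2 * K)) * Real.exp (-(K * Real.log T ^ 2)))) ≤ 1 := by
  obtain ⟨D, hD⟩ : ∃ D, D = (1 + M) * (2 * (A * Real.exp (P ^ 2 / (2 * K)))) := ⟨_, rfl⟩
  have hD0 : 0 ≤ D := by rw [hD]; positivity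
  refine ⟨Real.exp (max 2 (max ((3 + 4 * P) / K) D)), ?_, ?_⟩
  · have h1 : (2:ℝ) ≤ max 2 (max ((3 + 4 * P) / K) D) := le_max_left _ _
    have h2 := Real.add_one_le_exp (max 2 (max ((3 + 4 * P) / K) D))
    linarith
  · intro T hT
    have hT0 : 0 < T := lt_of_lt_of_le (Real.exp_pos _) hT
    have hu : max 2 (max ((3 + 4 * P) / K) D) ≤ Real.log T := by
      rw [Real.le_log_iff_exp_le hT0]; exact hT
    obtain ⟨u, hu'⟩ : ∃ u, u = Real.log T := ⟨_, rfl⟩
    rw [← hu'] at hu ⊢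
    have hu2 : 2 ≤ u := (le_max_left _ _).trans hu
    have hu3 : (3 + 4 * P) / K ≤ u := (le_max_left _ _).trans ((le_max_right _ _).trans hu)
    have hu4 : D ≤ u := (le_max_right _ _).trans ((le_max_right _ _).trans hu)
    have hTu : T = Real.exp u := by rw [hu', Real.exp_log hT0]
    have huT : u ≤ T := by
      rw [hTu]; linarith [Real.add_one_le_exp u]
    have hT2 : 2 ≤ T := by linarith
    have hpow : ∀ x : ℝ, 0 ≤ x → x ≤ 2 * T → x ^ P ≤ T ^ (2 * P) := by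
      intro x hx hx2
      rw [Real.rpow_mul hT0.le, Real.rpow_two]
      apply Real.rpow_le_rpow hx _ hP
      nlinarith
    have p1 := hpow (1 + T) (by linarith) (by linarith)
    have p2 := hpow (u + T) (by linarith) (by linarith)
    calc (1 + M) * (2 * u * T * ((A * (1 + T) ^ P) * (u + T) ^ P *
          Real.exp (P ^ 2 / (2 * K)) * Real.exp (-(K * u ^ 2))))
        ≤ (1 + M) * (2 * T * T * ((A * T ^ (2 * P)) * T ^ (2 * P) *
          Real.exp (P ^ 2 / (2 * K)) * Real.exp (-(K * u ^ 2)))) := by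
          have h0 : 0 ≤ u := by linarith
          gcongr
      _ = D * (T * T * (T ^ (2 * P) * T ^ (2 * P)) * Real.exp (-(K * u ^ 2))) := by rw [hD]; ring
      _ = D * Real.exp ((2 + 4 * P) * u - K * u ^ 2) := by
          have h1 : T * T = Real.exp (2 * u) := by
            rw [hTu, ← Real.exp_add]; ring_nf
          have h2 : T ^ (2 * P) = Real.exp (2 * P * u) := by
            rw [hTu, ← Real.exp_mul]; ring_nf
          rw [h1, h2, ← Real.exp_add, ← Real.exp_add, ← Real.exp_add]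
          congr 2
          ring
      _ ≤ u * Real.exp (-u) := by
          apply mul_le_mul hu4 _ (Real.exp_pos _).le (by linarith)
          apply Real.exp_le_exp.mpr
          rw [div_le_iff₀ hK] at hu3
          nlinarith
      _ ≤ 1 := by
          rw [Real.exp_neg, ← div_eq_mul_inv, div_le_one (Real.exp_pos _)]
          linarith [Real.add_one_le_exp u]

/-- the factor tends to one -/
lemma fac (K ε : ℝ) (hK : 0 < K) (hε : 0 < ε) : ∃ T₀ : ℝ, 3 ≤ T₀ ∧ ∀ T : ℝ, T₀ ≤ T →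
    4 ≤ Real.log T ∧ 4 * Real.log T ≤ T ∧ 0 ≤ 1 - √2 * Real.exp (-(K * Real.log T ^ 2)) ∧
    1 - ε ≤ (1 - √2 * Real.exp (-(K * Real.log T ^ 2))) * (1 - 8 / Real.log T ^ 2) ^ (2 * K) := by
  have h1 : Filter.Tendsto (fun u : ℝ => 1 - √2 * Real.exp (-(K * u ^ 2))) Filter.atTop (nhds 1) := by
    have h2 : Filter.Tendsto (fun u : ℝ => K * u ^ 2) Filter.atTop Filter.atTop :=
      (Filter.tendsto_pow_atTop (by norm_num)).const_mul_atTop hK
    have h3 : Filter.Tendsto (fun u : ℝ => Real.exp (-(K * u ^ 2))) Filter.atTop (nhds 0) :=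
      Real.tendsto_exp_neg_atTop_nhds_zero.comp h2
    have h4 := (h3.const_mul (√2)).const_sub 1
    simpa using h4
  have h2 : Filter.Tendsto (fun u : ℝ => (1 - 8 / u ^ 2) ^ (2 * K)) Filter.atTop (nhds 1) := by
    have h3 : Filter.Tendsto (fun u : ℝ => 8 / u ^ 2) Filter.atTop (nhds 0) :=
      Filter.Tendsto.const_div_atTop (Filter.tendsto_pow_atTop (by norm_num)) 8
    have h4 := h3.const_sub (1:ℝ)
    rw [sub_zero] at h4
    have h5 := h4.rpow_const (p := 2 * K) (Or.inr (by positivity))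
    rwa [Real.one_rpow] at h5
  have h3 := h1.mul h2
  rw [mul_one] at h3
  have h4 := (h3.eventually (lt_mem_nhds (by linarith : 1 - ε < 1))).and
    ((h1.eventually (lt_mem_nhds (by norm_num : (0:ℝ) < 1))).and (Filter.eventually_ge_atTop (4:ℝ)))
  obtain ⟨u₀, hu₀⟩ := Filter.eventually_atTop.1 h4
  have hexp : ∀ u : ℝ, 4 ≤ u → 4 * u ≤ Real.exp u := by
    intro u hu
    have h5 := Real.add_one_le_exp (u / 2)
    have h6 : Real.exp u = Real.exp (u / 2) * Real.exp (u / 2) := by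
      rw [← Real.exp_add]; congr 1; ring
    have h7 := Real.quadratic_le_exp_of_nonneg (x := u / 2) (by linarith)
    rw [h6]
    nlinarith [Real.exp_pos (u / 2)]
  refine ⟨Real.exp (max u₀ 4), ?_, ?_⟩
  · have h5 : (4:ℝ) ≤ max u₀ 4 := le_max_right _ _
    have h6 := Real.add_one_le_exp (max u₀ 4)
    linarith
  · intro T hT
    have hT0 : 0 < T := lt_of_lt_of_le (Real.exp_pos _) hT
    have hu : max u₀ 4 ≤ Real.log T := by
      rw [Real.le_log_iff_exp_le hT0]; exact hT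
    obtain ⟨a1, a2, a3⟩ := hu₀ (Real.log T) ((le_max_left _ _).trans hu)
    refine ⟨a3, ?_, a2.le, a1.le⟩
    have := hexp (Real.log T) a3
    rwa [Real.exp_log hT0] at this

end Pool.Agent.H6F.INTG2aux
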