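import Pool.Agent.H6F.Stm5
import Pool.Agent.H6F.INTG2aux

set_option autoImplicit false

/-!
# INTG2: integration of GAUP over the centre of the Gaussian weight
-/

namespace Pool.Agent.H6F.INTG2

open Filter MeasureTheory Topology Complex
open Pool.Agent.N748.MG Pool.Agent.N748.MJ
open Pool.Agent.H6F.INTG2aux

/-- the product of the shifted factors -/
noncomputable def pr {m : ℕ} (k h : Fin m → ℝ) (x y : ℝ) : ℝ :=
  ∏ j, ‖Gq (1 / 2 + x + (y + h j) * I)‖ ^ (2 * k j)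

lemma Gp_eq {m : ℕ} (k h : Fin m → ℝ) (x y₀ : ℝ) :
    Gp k h x y₀ = ∫ y : ℝ, pr k h x y * Real.exp (-(2 * (∑ j, k j) * (y - y₀) ^ 2)) := rfl

lemma pr_nn {m : ℕ} (k h : Fin m → ℝ) (x y : ℝ) : 0 ≤ pr k h x y :=
  Finset.prod_nonneg fun _ _ => Real.rpow_nonneg (norm_nonneg _) _

lemma re_eq (x y a : ℝ) : (1 / 2 + (x : ℂ) + ((y : ℂ) + (a : ℂ)) * I).re = 1 / 2 + x := by
  simp

lemma im_eq (x y a : ℝ) : (1 / 2 + (x : ℂ) + ((y : ℂ) + (a : ℂ)) * I).im = y + a := by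
  simp

lemma pr_cont {m : ℕ} (han : ∀ w : ℂ, 1 / 2 ≤ w.re → AnalyticAt ℂ Gq w) (k h : Fin m → ℝ)
    (hk : ∀ j, 0 < k j) (x : ℝ) (hx : 0 ≤ x) : Continuous fun y : ℝ => pr k h x y := by
  unfold pr
  refine continuous_finsetProd _ fun j _ => ?_
  refine Continuous.rpow_const ?_ fun y => Or.inr (by have := hk j; positivity)
  refine Continuous.norm ?_
  rw [continuous_iff_continuousAt]
  intro y
  have h1 : ContinuousAt Gq (1 / 2 + (x : ℂ) + ((y : ℂ) + (h j : ℂ)) * I) :=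
    (han _ (by rw [re_eq]; linarith)).continuousAt
  have h2 : Continuous fun y : ℝ => (1 / 2 + (x : ℂ) + ((y : ℂ) + (h j : ℂ)) * I) := by fun_prop
  exact ContinuousAt.comp (f := fun y : ℝ => (1 / 2 + (x : ℂ) + ((y : ℂ) + (h j : ℂ)) * I)) h1
    h2.continuousAt

lemma mz_cont {x : ℝ} (hx : x ≤ 1 / 4) : Continuous fun t : ℝ => mz x t := by
  have : Continuous fun t : ℝ => riemannZeta (pw x t) := by
    rw [continuous_iff_continuousAt]
    intro t
    have hne : pw x t ≠ 1 := by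
      intro h
      have h1 := congrArg Complex.re h
      unfold pw at h1
      simp at h1
      linarith
    have h1 : ContinuousAt riemannZeta (pw x t) := (differentiableAt_riemannZeta hne).continuousAt
    have h2 : Continuous (pw x) := by
      unfold pw
      fun_prop
    exact ContinuousAt.comp (f := fun t : ℝ => pw x t) h1 h2.continuousAt
  exact this.norm

lemma prod_rpow {m : ℕ} (k : Fin m → ℝ) (z : ℝ) (hz : 0 < z) :
    ∏ j, z ^ (2 * k j) = z ^ (2 * ∑ j, k j) := by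
  rw [← Real.rpow_sum_of_pos hz, ← Finset.mul_sum]

lemma pr_le {m : ℕ} (k h : Fin m → ℝ) (hk : ∀ j, 0 < k j) (x y z : ℝ) (hz : 0 < z)
    (hb : ∀ j, ‖Gq (1 / 2 + x + (y + h j) * I)‖ ≤ z) : pr k h x y ≤ z ^ (2 * ∑ j, k j) := by
  rw [← prod_rpow k z hz]
  unfold pr
  refine Finset.prod_le_prod (fun j _ => Real.rpow_nonneg (norm_nonneg _) _) fun j _ => ?_
  exact Real.rpow_le_rpow (norm_nonneg _) (hb j) (by have := hk j; positivity)

lemma pr_poly {m : ℕ} (k h : Fin m → ℝ) (hk : ∀ j, 0 < k j) (C0 : ℝ) (hC0 : 0 < C0)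
    (hpoly : ∀ w : ℂ, 1 / 2 ≤ w.re → w.re ≤ 2 → ‖Gq w‖ ≤ C0 * (1 + |w.im|) ^ C0) (T : ℝ) (hT : 0 ≤ T)
    (hh : ∀ j, |h j| ≤ T) (x y : ℝ) (hx : 0 ≤ x) (hx2 : x ≤ 3 / 2) :
    pr k h x y ≤ C0 ^ (2 * ∑ j, k j) * (1 + T) ^ (C0 * (2 * ∑ j, k j)) *
      (1 + |y|) ^ (C0 * (2 * ∑ j, k j)) := by
  have h1 : pr k h x y ≤ (C0 * ((1 + T) * (1 + |y|)) ^ C0) ^ (2 * ∑ j, k j) := by
    apply pr_le k h hk x y _ (by positivity)
    intro j
    have h2 := hpoly (1 / 2 + (x : ℂ) + ((y : ℂ) + (h j : ℂ)) * I) (by rw [re_eq]; linarith)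
      (by rw [re_eq]; linarith)
    refine h2.trans ?_
    apply mul_le_mul_of_nonneg_left _ hC0.le
    apply Real.rpow_le_rpow (by positivity) _ hC0.le
    rw [im_eq]
    have h3 := abs_add_le y (h j)
    have h4 := hh j
    have h5 : 0 ≤ T * |y| := by positivity
    have h6 : (1 + T) * (1 + |y|) = 1 + T + |y| + T * |y| := by ring
    rw [h6]
    linarith
  refine h1.trans (le_of_eq ?_)
  rw [Real.mul_rpow hC0.le (by positivity), ← Real.rpow_mul (by positivity),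
    Real.mul_rpow (by positivity) (by positivity), mul_assoc]

/-- the set of the statement -/
def ST {m : ℕ} (h : Fin m → ℝ) (T : ℝ) : Set ℝ :=
  {t : ℝ | 2 * Real.log T ≤ t ∧ t ≤ T - 2 * Real.log T ∧ ∀ j, Real.log T ≤ |t + h j|}

lemma ST_meas {m : ℕ} (h : Fin m → ℝ) (T : ℝ) : MeasurableSet (ST h T) := by
  have e : ST h T = {t : ℝ | 2 * Real.log T ≤ t} ∩ ({t : ℝ | t ≤ T - 2 * Real.log T} ∩
      ⋂ j, {t : ℝ | Real.log T ≤ |t + h j|}) := by
    ext t
    simp [ST]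
  rw [e]
  refine ((isClosed_le continuous_const continuous_id).inter
    ((isClosed_le continuous_id continuous_const).inter
      (isClosed_iInter fun j => isClosed_le continuous_const ?_))).measurableSet
  fun_prop

theorem t (h1 : S_GAUP) (h2 : S_ZPB2) : S_INTG2 := by
  intro m k ε hm hk hε
  obtain ⟨han, htwo, ⟨C0, hC0, hpoly⟩, hcmp⟩ := h2
  obtain ⟨K, hKd⟩ : ∃ K, K = ∑ j, k j := ⟨_, rfl⟩
  have hK : 0 < K := by
    rw [hKd]
    exact Finset.sum_pos (fun j _ => hk j) ⟨⟨0, hm⟩, Finset.mem_univ _⟩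
  obtain ⟨P, hP⟩ : ∃ P, P = C0 * (2 * K) := ⟨_, rfl⟩
  have hP0 : 0 ≤ P := by rw [hP]; positivity
  obtain ⟨T1, hT1, ht1⟩ := tail K P (C0 ^ (2 * K)) (Real.exp (9 / 2 * K)) hK hP0 (by positivity)
    (Real.exp_pos _).le
  obtain ⟨T2, hT2, ht2⟩ := fac K ε hK hε
  refine ⟨Real.exp (9 / 2 * K) * 2 ^ (2 * K), max T1 T2, by positivity, le_max_of_le_left hT1, ?_⟩
  intro T d Λ h hT hh hd hd4 hΛ
  have hT3 : 3 ≤ T := hT1.trans ((le_max_left _ _).trans hT)
  have hT0 : 0 < T := by linarith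
  obtain ⟨hB4, hBT, hfac0, hfac⟩ := ht2 T ((le_max_right _ _).trans hT)
  have htl := ht1 T ((le_max_left _ _).trans hT)
  obtain ⟨B, hB⟩ : ∃ B, B = Real.log T := ⟨_, rfl⟩
  rw [← hB] at hB4 hBT hfac0 hfac htl
  obtain ⟨A, hA⟩ : ∃ A, A = C0 ^ (2 * K) * (1 + T) ^ P := ⟨_, rfl⟩
  have hA0 : 0 ≤ A := by rw [hA]; positivity
  rw [← hA] at htl
  obtain ⟨r, hr⟩ : ∃ r, r = d * Real.exp (-(3 / 2 * Λ)) * Real.exp (9 / 2 * K) := ⟨_, rfl⟩
  have hr0 : 0 ≤ r := by rw [hr]; positivity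
  have hr1 : r ≤ Real.exp (9 / 2 * K) := by
    have h3 : Real.exp (-(3 / 2 * Λ)) ≤ 1 := by
      rw [Real.exp_le_one_iff]; linarith
    have h4 : d * Real.exp (-(3 / 2 * Λ)) ≤ 1 := by
      have := Real.exp_pos (-(3 / 2 * Λ))
      nlinarith
    rw [hr]
    have := mul_le_mul_of_nonneg_right h4 (Real.exp_pos (9 / 2 * K)).le
    linarith
  have hbd : ∀ x : ℝ, 0 ≤ x → x ≤ 3 / 2 → ∀ y, pr k h x y ≤ A * (1 + |y|) ^ P := by
    intro x hx hx2 y
    have h3 := pr_poly k h hk C0 hC0 hpoly T hT0.le hh x y hx hx2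
    rw [← hKd, ← hP, ← hA] at h3
    exact h3
  have hE1 : Real.exp (-(Λ * d)) ≤ 1 := by
    rw [Real.exp_le_one_iff]
    have : 0 ≤ Λ * d := by positivity
    linarith
  have hcore := core K A P hK hA0 hP0 (fun y => Real.exp (-(Λ * d)) * pr k h d y)
    (fun y => pr k h 0 y) (fun y => pr k h (3 / 2) y)
    (continuous_const.mul (pr_cont han k h hk d hd.le)) (pr_cont han k h hk 0 le_rfl)
    (pr_cont han k h hk (3 / 2) (by norm_num))
    (fun y => mul_nonneg (Real.exp_pos _).le (pr_nn _ _ _ _)) (fun y => pr_nn _ _ _ _)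
    (fun y => pr_nn _ _ _ _)
    (fun y => by
      have h3 := hbd d hd.le (by linarith) y
      have h4 := mul_le_mul_of_nonneg_right hE1 (pr_nn k h d y)
      linarith)
    (hbd 0 le_rfl (by norm_num)) (hbd (3 / 2) (by norm_num) le_rfl) r hr0
    (by
      intro y₀
      have h3 := h1 m k h d Λ y₀ hm hk hd hd4 hΛ
      rw [Gp_eq, Gp_eq, Gp_eq, ← hKd] at h3
      have e1 : ∫ y : ℝ, Real.exp (-(Λ * d)) * pr k h d y * Real.exp (-(2 * K * (y - y₀) ^ 2)) =
          Real.exp (-(Λ * d)) * ∫ y : ℝ, pr k h d y * Real.exp (-(2 * K * (y - y₀) ^ 2)) := by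
        rw [← integral_const_mul]
        congr 1
        funext y
        ring
      rw [e1]
      have h4 := mul_le_mul_of_nonneg_left h3 (Real.exp_pos (-(Λ * d))).le
      refine h4.trans (le_of_eq ?_)
      have e2 : Real.exp (-(Λ * d)) * Real.exp (Λ * d) = 1 := by
        rw [← Real.exp_add]; simp
      have e3 : Real.exp (-(Λ * d)) * Real.exp (Λ * d - 3 / 2 * Λ) = Real.exp (-(3 / 2 * Λ)) := by
        rw [← Real.exp_add]; congr 1; ring
      rw [hr, ← e3]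
      linear_combination (∫ y : ℝ, pr k h 0 y * Real.exp (-(2 * K * (y - y₀) ^ 2))) * e2)
    B T hB4 hBT
  -- the integral on the left
  have hF : Continuous fun t : ℝ => ∏ j, mz d (t + h j) ^ (2 * k j) := by
    refine continuous_finsetProd _ fun j _ => ?_
    exact ((mz_cont hd4).comp (continuous_id.add continuous_const)).rpow_const
      fun y => Or.inr (by have := hk j; positivity)
  have hF0 : Continuous fun t : ℝ => ∏ j, mz 0 (t + h j) ^ (2 * k j) := by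
    refine continuous_finsetProd _ fun j _ => ?_
    exact ((mz_cont (by norm_num)).comp (continuous_id.add continuous_const)).rpow_const
      fun y => Or.inr (by have := hk j; positivity)
  have hmz : ∀ x y : ℝ, 0 ≤ mz x y := fun x y => norm_nonneg _
  have hFn : ∀ t : ℝ, 0 ≤ ∏ j, mz d (t + h j) ^ (2 * k j) := fun t =>
    Finset.prod_nonneg fun _ _ => Real.rpow_nonneg (hmz _ _) _
  have hsub : ST h T ⊆ Set.Icc (2 * B) (T - 2 * B) := by
    intro t ht
    rw [hB]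
    exact ⟨ht.1, ht.2.1⟩
  have hi1 : IntegrableOn (fun t : ℝ => ∏ j, mz d (t + h j) ^ (2 * k j)) (ST h T) :=
    (hF.continuousOn.integrableOn_Icc (a := 2 * B) (b := T - 2 * B)).mono_set hsub
  have hpc := pr_cont han k h hk d hd.le
  have hi2 : IntegrableOn (fun t : ℝ => pr k h d t) (Set.Icc (2 * B) (T - 2 * B)) :=
    hpc.continuousOn.integrableOn_Icc
  obtain ⟨q, hq⟩ : ∃ q, q = 1 - 8 / B ^ 2 := ⟨_, rfl⟩
  have hq0 : 0 < q := by
    rw [hq, sub_pos, div_lt_one (by positivity)]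
    nlinarith
  rw [← hq] at hfac
  have hpt : ∀ t ∈ ST h T, q ^ (2 * K) * ∏ j, mz d (t + h j) ^ (2 * k j) ≤ pr k h d t := by
    intro t ht
    rw [hKd, ← prod_rpow k q hq0, ← Finset.prod_mul_distrib]
    unfold pr
    refine Finset.prod_le_prod (fun j _ => mul_nonneg (Real.rpow_nonneg hq0.le _)
      (Real.rpow_nonneg (hmz _ _) _)) fun j _ => ?_
    rw [← Real.mul_rpow hq0.le (hmz _ _)]
    refine Real.rpow_le_rpow (mul_nonneg hq0.le (hmz _ _)) ?_ (by have := hk j; positivity)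
    have h3 := ht.2.2 j
    rw [← hB] at h3
    have h4 := (hcmp d (t + h j) hd.le hd4).2 (by linarith)
    rw [Complex.ofReal_add] at h4
    refine le_trans (mul_le_mul_of_nonneg_right ?_ (hmz _ _)) h4
    rw [hq]
    have h5 : B ^ 2 ≤ (t + h j) ^ 2 := by
      rw [← sq_abs (t + h j)]
      exact pow_le_pow_left₀ (by linarith) h3 2
    have h6 : 8 / (t + h j) ^ 2 ≤ 8 / B ^ 2 :=
      div_le_div_of_nonneg_left (by norm_num) (by positivity) h5
    linarith
  obtain ⟨J, hJ⟩ : ∃ J, J = ∫ t in ST h T, ∏ j, mz d (t + h j) ^ (2 * k j) := ⟨_, rfl⟩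
  have hJ0 : 0 ≤ J := by
    rw [hJ]
    exact setIntegral_nonneg (ST_meas h T) fun t _ => hFn t
  have hL1 : q ^ (2 * K) * J ≤ ∫ u in (2 * B)..(T - 2 * B), pr k h d u := by
    rw [hJ, ← integral_const_mul, intervalIntegral.integral_of_le (by linarith),
      ← integral_Icc_eq_integral_Ioc]
    refine (setIntegral_mono_on (hi1.const_mul _) (hi2.mono_set hsub) (ST_meas h T) hpt).trans ?_
    exact setIntegral_mono_set hi2 (Eventually.of_forall fun t => pr_nn _ _ _ _)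
      (LE.le.eventuallyLE hsub)
  -- the integrals on the right
  have hR0 : ∫ u in (0:ℝ)..T, pr k h 0 u ≤ ∫ t in (0:ℝ)..T, ∏ j, mz 0 (t + h j) ^ (2 * k j) := by
    apply intervalIntegral.integral_mono_on hT0.le
      ((pr_cont han k h hk 0 le_rfl).intervalIntegrable _ _) (hF0.intervalIntegrable _ _)
    intro t _
    unfold pr
    refine Finset.prod_le_prod (fun j _ => Real.rpow_nonneg (norm_nonneg _) _) fun j _ => ?_
    refine Real.rpow_le_rpow (norm_nonneg _) ?_ (by have := hk j; positivity)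
    have h4 := (hcmp 0 (t + h j) le_rfl (by norm_num)).1
    rw [Complex.ofReal_add] at h4
    exact h4
  have hR2 : ∫ u in (0:ℝ)..T, pr k h (3 / 2) u ≤ 2 ^ (2 * K) * T := by
    have i1 : IntervalIntegrable (fun u : ℝ => pr k h (3 / 2) u) volume 0 T :=
      (pr_cont han k h hk (3 / 2) (by norm_num)).intervalIntegrable _ _
    have i2 : IntervalIntegrable (fun _ : ℝ => (2:ℝ) ^ (2 * K)) volume 0 T :=
      continuous_const.intervalIntegrable _ _
    have h3 := intervalIntegral.integral_mono_on hT0.le i1 i2 (by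
        intro t _
        rw [hKd]
        apply pr_le k h hk _ _ _ (by norm_num)
        intro j
        have h4 := htwo (t + h j)
        have e : (1 / 2 + ((3 / 2 : ℝ) : ℂ) + ((t : ℂ) + (h j : ℂ)) * I) =
            2 + ((t + h j : ℝ) : ℂ) * I := by
          push_cast
          ring
        rw [e]
        exact h4)
    rw [intervalIntegral.integral_const, smul_eq_mul, sub_zero, mul_comm] at h3
    exact h3
  -- conclusion
  have hcm : (1 - ε) * J ≤ (1 - √2 * Real.exp (-(K * B ^ 2))) *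
      ∫ u in (2 * B)..(T - 2 * B), pr k h d u := by
    calc (1 - ε) * J ≤ ((1 - √2 * Real.exp (-(K * B ^ 2))) * q ^ (2 * K)) * J :=
          mul_le_mul_of_nonneg_right hfac hJ0
      _ = (1 - √2 * Real.exp (-(K * B ^ 2))) * (q ^ (2 * K) * J) := by ring
      _ ≤ _ := mul_le_mul_of_nonneg_left hL1 hfac0
  rw [intervalIntegral.integral_const_mul] at hcore
  obtain ⟨I1, hI1⟩ : ∃ X, X = ∫ u in (2 * B)..(T - 2 * B), pr k h d u := ⟨_, rfl⟩
  obtain ⟨I0, hI0⟩ : ∃ X, X = ∫ u in (0:ℝ)..T, pr k h 0 u := ⟨_, rfl⟩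
  obtain ⟨I2, hI2⟩ : ∃ X, X = ∫ u in (0:ℝ)..T, pr k h (3 / 2) u := ⟨_, rfl⟩
  obtain ⟨F0, hF0'⟩ : ∃ X, X = ∫ t in (0:ℝ)..T, ∏ j, mz 0 (t + h j) ^ (2 * k j) := ⟨_, rfl⟩
  rw [← hI1, ← hI0, ← hI2] at hcore
  rw [← hI1] at hcm
  rw [← hI0, ← hF0'] at hR0
  rw [← hI2] at hR2
  have herr : (1 + r) * (2 * B * T * (A * (B + T) ^ P * Real.exp (P ^ 2 / (2 * K)) *
      Real.exp (-(K * B ^ 2)))) ≤ 1 := by
    refine le_trans (mul_le_mul_of_nonneg_right (by linarith) ?_) htl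
    positivity
  have hexp : 0 < Real.exp (Λ * d) := Real.exp_pos _
  have e2 : Real.exp (Λ * d) * Real.exp (-(Λ * d)) = 1 := by
    rw [← Real.exp_add]; simp
  have e3 : Real.exp (Λ * d) * r = Real.exp (9 / 2 * K) * d * Real.exp (Λ * d - 3 / 2 * Λ) := by
    have : Real.exp (Λ * d - 3 / 2 * Λ) = Real.exp (Λ * d) * Real.exp (-(3 / 2 * Λ)) := by
      rw [← Real.exp_add]; congr 1
    rw [hr, this]; ring
  have h5 : (1 - √2 * Real.exp (-(K * B ^ 2))) * (Real.exp (-(Λ * d)) * I1) ≤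
      F0 + 1 + r * (2 ^ (2 * K) * T) := by
    have := mul_le_mul_of_nonneg_left hR2 hr0
    linarith
  have h6 := mul_le_mul_of_nonneg_left h5 hexp.le
  have h7 : Real.exp (Λ * d) * ((1 - √2 * Real.exp (-(K * B ^ 2))) * (Real.exp (-(Λ * d)) * I1)) =
      (1 - √2 * Real.exp (-(K * B ^ 2))) * I1 := by
    linear_combination ((1 - √2 * Real.exp (-(K * B ^ 2))) * I1) * e2
  rw [h7] at h6
  have h8 : (1 - ε) * J ≤ Real.exp (Λ * d) * (F0 + 1) +
      Real.exp (9 / 2 * K) * 2 ^ (2 * K) * d * Real.exp (Λ * d - 3 / 2 * Λ) * T := by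
    refine hcm.trans (h6.trans (le_of_eq ?_))
    linear_combination (2 ^ (2 * K) * T) * e3
  rw [hJ, hF0'] at h8
  exact h8

end Pool.Agent.H6F.INTG2
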