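import Pool.Agent.H6F.Stm5
import Pool.Agent.N748.MG.TMA

set_option autoImplicit false

/-!
# Stub SHL: lower bounds of the shifted moments on the critical line
-/

namespace Pool.Agent.H6F.SHL

open Filter MeasureTheory Topology Complex
open Pool.Agent.N748.MG Pool.Agent.N748.MJ Pool.Agent.H6F

/-- the set of INTG2 -/
def As {m : ℕ} (T L : ℝ) (h : Fin m → ℝ) : Set ℝ :=
  {t : ℝ | 2 * L ≤ t ∧ t ≤ T - 2 * L ∧ ∀ j, L ≤ |t + h j|}

lemma As_meas {m : ℕ} (T L : ℝ) (h : Fin m → ℝ) : MeasurableSet (As T L h) := by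
  have e : As T L h = {t : ℝ | 2 * L ≤ t} ∩ ({t : ℝ | t ≤ T - 2 * L} ∩ ⋂ j, {t : ℝ | L ≤ |t + h j|}) := by
    ext t
    simp [As]
  rw [e]
  refine (measurableSet_le measurable_const measurable_id).inter
    ((measurableSet_le measurable_id measurable_const).inter (MeasurableSet.iInter fun j => ?_))
  exact measurableSet_le measurable_const (measurable_id.add_const _).abs

lemma As_vol {m : ℕ} (T L : ℝ) (hL : 0 ≤ L) (h : Fin m → ℝ) :
    volume.real (Set.Icc 0 T \ As T L h) ≤ (4 + 2 * m) * L := by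
  have hsub : Set.Icc 0 T \ As T L h ⊆
      (Set.Icc 0 (2 * L) ∪ Set.Icc (T - 2 * L) T) ∪ ⋃ j, Set.Icc (-(h j) - L) (-(h j) + L) := by
    rintro t ⟨⟨h1, h2⟩, h3⟩
    by_contra hc
    simp only [Set.mem_union, Set.mem_iUnion, Set.mem_Icc, not_or, not_exists, not_and, not_le] at hc
    obtain ⟨⟨h4, h5⟩, h6⟩ := hc
    apply h3
    refine ⟨?_, ?_, fun j => ?_⟩
    · by_contra hh
      push Not at hh
      have := h4 h1
      linarith
    · by_contra hh
      push Not at hh
      have := h5 hh.le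
      linarith
    · by_contra hh
      push Not at hh
      rw [abs_lt] at hh
      have := h6 j (by linarith [hh.1])
      linarith [hh.2]
  have hv : volume (Set.Icc 0 T \ As T L h) ≤ ENNReal.ofReal ((4 + 2 * m) * L) := by
    refine (measure_mono hsub).trans ((measure_union_le _ _).trans ?_)
    have h1 : volume (Set.Icc 0 (2 * L) ∪ Set.Icc (T - 2 * L) T) ≤ ENNReal.ofReal (4 * L) := by
      refine (measure_union_le _ _).trans ?_
      rw [Real.volume_Icc, Real.volume_Icc, ← ENNReal.ofReal_add (by linarith) (by linarith)]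
      apply ENNReal.ofReal_le_ofReal
      linarith
    have h2 : volume (⋃ j, Set.Icc (-(h j) - L) (-(h j) + L)) ≤ ENNReal.ofReal (2 * m * L) := by
      refine (measure_iUnion_fintype_le _ _).trans ?_
      have h3 : ∀ j : Fin m, volume (Set.Icc (-(h j) - L) (-(h j) + L)) = ENNReal.ofReal (2 * L) := by
        intro j
        rw [Real.volume_Icc]
        congr 1
        ring
      simp only [h3]
      rw [Finset.sum_const, Finset.card_univ, Fintype.card_fin, nsmul_eq_mul,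
        ← ENNReal.ofReal_natCast, ← ENNReal.ofReal_mul (by positivity)]
      apply ENNReal.ofReal_le_ofReal
      linarith
    calc volume (Set.Icc 0 (2 * L) ∪ Set.Icc (T - 2 * L) T) + volume (⋃ j, Set.Icc (-(h j) - L) (-(h j) + L))
        ≤ ENNReal.ofReal (4 * L) + ENNReal.ofReal (2 * m * L) := add_le_add h1 h2
      _ = ENNReal.ofReal ((4 + 2 * m) * L) := by
          rw [← ENNReal.ofReal_add (by linarith) (by positivity)]
          congr 1
          ring
  unfold Measure.real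
  exact ENNReal.toReal_le_of_le_ofReal (by positivity) hv

lemma split {f : ℝ → ℝ} (hf : Continuous f) (hf0 : ∀ t, 0 ≤ f t) {S A : Set ℝ} {T B : ℝ}
    (hS : MeasurableSet S) (hA : MeasurableSet A) (hST : S ⊆ Set.Icc 0 T) (hAT : A ⊆ Set.Icc 0 T)
    (hB : 0 ≤ B) (hfB : ∀ t ∈ S, f t ≤ B) :
    ∫ t in S, f t ≤ (∫ t in A, f t) + B * volume.real (Set.Icc 0 T \ A) := by
  have hi : IntegrableOn f (Set.Icc 0 T) := hf.continuousOn.integrableOn_Icc
  have hiS : IntegrableOn f S := hi.mono_set hST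
  have hiA : IntegrableOn f A := hi.mono_set hAT
  rw [← integral_inter_add_diff hA hiS]
  have h1 : ∫ t in S ∩ A, f t ≤ ∫ t in A, f t := by
    apply setIntegral_mono_set hiA
    · exact Eventually.of_forall fun t => hf0 t
    · exact HasSubset.Subset.eventuallyLE Set.inter_subset_right
  have hfin : volume (Set.Icc (0:ℝ) T \ A) < ⊤ :=
    (measure_mono Set.sdiff_subset).trans_lt measure_Icc_lt_top
  have h2 : ∫ t in S \ A, f t ≤ B * volume.real (Set.Icc 0 T \ A) := by
    have hsub : S \ A ⊆ Set.Icc 0 T \ A := Set.sdiff_subset_sdiff_left hST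
    have hfin2 : volume (S \ A) < ⊤ := (measure_mono hsub).trans_lt hfin
    have h3 : ∫ t in S \ A, f t ≤ ∫ _t in S \ A, B := by
      apply setIntegral_mono_on (hiS.mono_set Set.sdiff_subset)
        (integrableOn_const hfin2.ne) (hS.diff hA)
      intro t ht
      exact hfB t ht.1
    rw [setIntegral_const, smul_eq_mul] at h3
    refine h3.trans ?_
    rw [mul_comm]
    apply mul_le_mul_of_nonneg_left _ hB
    exact measureReal_mono hsub hfin.ne
  linarith

lemma R_ge (h3 : S_POSV) (h4 : S_LZB) {m : ℕ} (k : Fin m → ℝ) (hk : ∀ j, 0 < k j) :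
    ∃ c : ℝ, 0 < c ∧ ∀ (d : ℝ) (h : Fin m → ℝ), 0 < d → d ≤ 1 / 16 →
      c * d ^ ((∑ j, k j) ^ 2) ≤ (aV (fun j => (k j : ℂ)) (fun j => (k j : ℂ)) h).re *
        ∏ j, ∏ l, ‖riemannZeta (((1 + 2 * d : ℝ) : ℂ) + ((h j - h l : ℝ) : ℂ) * I)‖ ^ (k j * k l) := by
  have hK : 0 ≤ ∑ j, k j := Finset.sum_nonneg fun j _ => (hk j).le
  obtain ⟨c, C, hc, -, H⟩ := h3 m (∑ j, k j) hK
  refine ⟨c, hc, fun d h hd hd1 => ?_⟩
  obtain ⟨a, ha, hae⟩ := (H h).2 k (fun j => by
    rw [abs_of_pos (hk j)]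
    exact Finset.single_le_sum (fun i _ => (hk i).le) (Finset.mem_univ j))
  rw [hae, Complex.ofReal_re]
  have hz : ∀ u : ℝ, d ≤ ‖riemannZeta (((1 + 2 * d : ℝ) : ℂ) + (u : ℂ) * I)‖ := by
    intro u
    obtain ⟨e1, e2⟩ := h4 d hd hd1 u
    rw [← e2, Complex.norm_exp]
    have e3 : -Real.log (1 / d) ≤ (LZ (1 + 2 * d) u).re := by
      have := Complex.abs_re_le_norm (LZ (1 + 2 * d) u)
      have := (abs_le.1 this).1
      linarith
    calc d = Real.exp (-Real.log (1 / d)) := by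
          rw [one_div, Real.log_inv, neg_neg, Real.exp_log hd]
      _ ≤ _ := Real.exp_le_exp.2 e3
  have hp : d ^ ((∑ j, k j) ^ 2) ≤
      ∏ j, ∏ l, ‖riemannZeta (((1 + 2 * d : ℝ) : ℂ) + ((h j - h l : ℝ) : ℂ) * I)‖ ^ (k j * k l) := by
    have e : (∑ j, k j) ^ 2 = ∑ j, ∑ l, k j * k l := by
      rw [sq, Finset.sum_mul_sum]
    rw [e, Real.rpow_sum_of_pos hd]
    apply Finset.prod_le_prod
    · intro j _
      exact (Real.rpow_pos_of_pos hd _).le
    · intro j _
      rw [Real.rpow_sum_of_pos hd]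
      apply Finset.prod_le_prod
      · intro l _
        exact (Real.rpow_pos_of_pos hd _).le
      · intro l _
        exact Real.rpow_le_rpow hd.le (hz _) (mul_pos (hk j) (hk l)).le
  exact mul_le_mul ha hp (Real.rpow_pos_of_pos hd _).le (hc.le.trans ha)

lemma log_pow_le (a e : ℝ) (he : 0 < e) : ∀ᶠ T : ℝ in atTop, Real.log T ^ a ≤ e * T := by
  have h1 := (isLittleO_log_rpow_rpow_atTop a (zero_lt_one' ℝ)).bound he
  filter_upwards [h1, eventually_ge_atTop 1] with T h2 h3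
  rw [Real.rpow_one] at h2
  have h4 : ‖T‖ = T := by rw [Real.norm_eq_abs, abs_of_nonneg (by linarith)]
  rw [h4] at h2
  exact (le_abs_self _).trans h2

lemma dlog {x : ℝ} (hx : 0 < x) : x * Real.log (1 / x) ≤ 2 * x ^ (1 / 2 : ℝ) := by
  have h1 := Real.log_le_rpow_div (x := 1 / x) (ε := 1 / 2) (by positivity) (by norm_num)
  have h2 := mul_le_mul_of_nonneg_left h1 hx.le
  refine h2.trans (le_of_eq ?_)
  rw [one_div x, Real.inv_rpow hx.le]
  have h3 : x = x ^ (1 / 2 : ℝ) * x ^ (1 / 2 : ℝ) := by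
    rw [← Real.rpow_add hx]; norm_num
  have h4 : 0 < x ^ (1 / 2 : ℝ) := Real.rpow_pos_of_pos hx _
  field_simp
  nlinarith [h3]

lemma final {e X I J P R' E : ℝ} (he : 0 < e) (he1 : e ≤ 1 / 16) (hX : 0 < X) 
    (hP : (1 - e) * X ≤ P) (hPJ : P ≤ J + e * X) (hE1 : E ≤ 1 + e) (hE0 : 0 ≤ E) (hI : 0 ≤ I)
    (hJ : (1 - e) * J ≤ E * (I + 1) + R') (hR : R' ≤ e * X) (h1 : 1 ≤ e * X) :
    (1 - 6 * e) * X ≤ I := by
  have h2 : (1 - 2 * e) * X ≤ J := by linarith
  have h3 : (1 - e) * ((1 - 2 * e) * X) ≤ (1 - e) * J := mul_le_mul_of_nonneg_left h2 (by linarith)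
  have h4 : E * (I + 1) ≤ (1 + e) * (I + e * X) := by
    calc E * (I + 1) ≤ (1 + e) * (I + 1) := mul_le_mul_of_nonneg_right hE1 (by linarith)
      _ ≤ _ := mul_le_mul_of_nonneg_left (by linarith) (by linarith)
  have h5 : (1 - e) * ((1 - 2 * e) * X) ≤ (1 + e) * (I + e * X) + e * X := by linarith
  have h6 : (1 + e) * ((1 - 6 * e) * X) ≤ (1 + e) * I := by
    have e1 : (1 - e) * ((1 - 2 * e) * X) = X - 3 * e * X + 2 * e ^ 2 * X := by ring
    have e2 : (1 + e) * (I + e * X) = (1 + e) * I + e * X + e ^ 2 * X := by ring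
    have e3 : (1 + e) * ((1 - 6 * e) * X) = X - 5 * e * X - 6 * e ^ 2 * X := by ring
    rw [e1, e2] at h5
    rw [e3]
    have : 0 ≤ e ^ 2 * X := by positivity
    linarith
  exact le_of_mul_le_mul_left h6 (by linarith)

theorem t (h1 : S_INTG2) (h2 : S_SM) (h3 : S_POSV) (h4 : S_LZB) : S_SHL := by
  intro d hd m k ε hm hk hε h hh
  set K : ℝ := ∑ j, k j with hKdef
  have hK0 : 0 ≤ K := Finset.sum_nonneg fun j _ => (hk j).le
  set V : ℝ := K + 1 with hV
  obtain ⟨c, hc, hR⟩ := R_ge h3 h4 k hk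
  set e : ℝ := min ε 1 / 16 with he
  have hm0 : 0 < min ε 1 := lt_min hε one_pos
  have he0 : 0 < e := by positivity
  have he1 : e ≤ 1 / 16 := by
    have : min ε 1 ≤ 1 := min_le_right _ _
    linarith
  have he6 : 6 * e ≤ ε := by
    have : min ε 1 ≤ ε := min_le_left _ _
    linarith
  obtain ⟨C, T₀, hC, hT₀, H⟩ := h1 m k e hm hk he0
  have hSM := h2 d hd m k V hk (by rw [hV]; linarith) h hh
  have hd0 : Tendsto (fun T => d T ^ (1 / 2 : ℝ)) atTop (𝓝 0) := by
    have := hd.t0.rpow_const (p := (1 / 2 : ℝ)) (Or.inr (by norm_num))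
    rwa [Real.zero_rpow (by norm_num)] at this
  have ev1 := hSM.eventually_const_le (show 1 - e < 1 by linarith)
  have ev2 := hd.t0.eventually_le_const (show (0:ℝ) < 1 / 16 by norm_num)
  have ev3 := Ev.linv.app hd
  have ev4 := hd0.eventually_le_const (show (0:ℝ) < e / (4 * (K ^ 2 + 2)) by positivity)
  have ev5 := hd.t0.eventually_le_const (show (0:ℝ) < e * c / (2 * C) by positivity)
  have ev6 := log_pow_le (K ^ 2) (e * c) (by positivity)
  have ev7 := log_pow_le (1 + 2 * K * V + K ^ 2) (e * c / (4 + 2 * m)) (by positivity)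
  filter_upwards [ev1, ev2, ev3, ev4, ev5, ev6, ev7, hd.pos, hh, eventually_ge_atTop T₀,
    eventually_ge_atTop 3] with T a1 a2 a3 a4 a5 a6 a7 a8 a9 a10 a11
  have hT0 : 0 < T := by linarith
  set L : ℝ := Real.log T with hL
  have hL1 : 1 ≤ L := by
    have : 1 ≤ 1 / d T := by
      rw [le_div_iff₀ a8]
      linarith
    linarith
  have hL0 : 0 < L := by linarith
  set δ : ℝ := d T with hδ
  set Rr : ℝ := (aV (fun j => (k j : ℂ)) (fun j => (k j : ℂ)) (h T)).re *
    ∏ j, ∏ l, ‖riemannZeta (((1 + 2 * δ : ℝ) : ℂ) + ((h T j - h T l : ℝ) : ℂ) * I)‖ ^ (k j * k l) with hRr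
  have hRge : c * δ ^ (K ^ 2) ≤ Rr := hR δ (h T) a8 a2
  have hpow : 0 < δ ^ (K ^ 2) := Real.rpow_pos_of_pos a8 _
  have hR0 : 0 < Rr := lt_of_lt_of_le (by positivity) hRge
  -- `δ ≥ 1 / L`
  have hδL : 1 / L ≤ δ := by
    rw [div_le_iff₀ hL0]
    rwa [div_le_iff₀ a8, mul_comm] at a3
  have hδpow : L ^ (-(K ^ 2)) ≤ δ ^ (K ^ 2) := by
    rw [Real.rpow_neg hL0.le, ← Real.inv_rpow hL0.le, ← one_div]
    exact Real.rpow_le_rpow (by positivity) hδL (by positivity)
  -- the function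
  set f : ℝ → ℝ := fun t => ∏ j, mz δ (t + h T j) ^ (2 * k j) with hf
  have hfc : Continuous f := by
    refine continuous_finsetProd _ fun j _ => ?_
    exact ((TMA.cont a2).comp (continuous_id.add continuous_const)).rpow_const
      (fun _ => Or.inr (by have := hk j; positivity))
  have hf0 : ∀ t, 0 ≤ f t := fun t => Finset.prod_nonneg fun j _ => Real.rpow_nonneg (norm_nonneg _) _
  set S : Set ℝ := {t : ℝ | t ∈ Set.Icc 0 T ∧ ∀ j, mz δ (t + h T j) ≤ (2 * δ) ^ (-V)} with hS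
  have hSm : MeasurableSet S := by
    have e1 : S = Set.Icc 0 T ∩ ⋂ j, {t : ℝ | mz δ (t + h T j) ≤ (2 * δ) ^ (-V)} := by
      ext t
      simp [hS]
    rw [e1]
    refine measurableSet_Icc.inter (MeasurableSet.iInter fun j => ?_)
    exact measurableSet_le ((TMA.cont a2).comp (continuous_id.add continuous_const)).measurable
      measurable_const
  have hST : S ⊆ Set.Icc 0 T := fun t ht => ht.1
  have hAT : As T L (h T) ⊆ Set.Icc 0 T := by
    rintro t ⟨b1, b2, -⟩
    exact ⟨by linarith, by linarith⟩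
  set B : ℝ := (2 * δ) ^ (-(2 * K * V)) with hB
  have h2δ : 0 < 2 * δ := by linarith
  have hB0 : 0 < B := Real.rpow_pos_of_pos h2δ _
  have hfB : ∀ t ∈ S, f t ≤ B := by
    intro t ht
    have b1 : f t ≤ ∏ j, ((2 * δ) ^ (-V)) ^ (2 * k j) := by
      apply Finset.prod_le_prod
      · intro j _
        exact Real.rpow_nonneg (norm_nonneg _) _
      · intro j _
        exact Real.rpow_le_rpow (norm_nonneg _) (ht.2 j) (by have := hk j; positivity)
    refine b1.trans (le_of_eq ?_)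
    rw [← Real.rpow_sum_of_pos (Real.rpow_pos_of_pos h2δ _), ← Real.rpow_mul h2δ.le, hB]
    congr 1
    rw [← Finset.mul_sum]
    ring
  have hsplit := split hfc hf0 hSm (As_meas T L (h T)) hST hAT hB0.le hfB
  have hvol := As_vol T L hL0.le (h T)
  -- the exceptional part
  have hBle : B ≤ L ^ (2 * K * V) := by
    rw [hB, Real.rpow_neg h2δ.le, ← Real.inv_rpow h2δ.le]
    apply Real.rpow_le_rpow (by positivity) _ (by positivity)
    rw [inv_le_comm₀ h2δ hL0, ← one_div]
    linarith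
  have hexc : B * volume.real (Set.Icc 0 T \ As T L (h T)) ≤ e * (T * Rr) := by
    have b1 : B * volume.real (Set.Icc 0 T \ As T L (h T)) ≤ L ^ (2 * K * V) * ((4 + 2 * m) * L) :=
      mul_le_mul hBle hvol (by positivity) (by positivity)
    have b2 : L ^ (2 * K * V) * ((4 + 2 * m) * L) =
        (4 + 2 * m) * L ^ (1 + 2 * K * V + K ^ 2) * L ^ (-(K ^ 2)) := by
      have c1 : L ^ (1 + 2 * K * V + K ^ 2) = L * L ^ (2 * K * V) * L ^ (K ^ 2) := by
        rw [Real.rpow_add hL0, Real.rpow_add hL0, Real.rpow_one]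
      have c2 : L ^ (K ^ 2) * L ^ (-(K ^ 2)) = 1 := by
        rw [← Real.rpow_add hL0, add_neg_cancel, Real.rpow_zero]
      rw [c1]
      calc L ^ (2 * K * V) * ((4 + 2 * m) * L) = (4 + 2 * m) * (L * L ^ (2 * K * V)) * 1 := by ring
        _ = (4 + 2 * m) * (L * L ^ (2 * K * V)) * (L ^ (K ^ 2) * L ^ (-(K ^ 2))) := by rw [c2]
        _ = _ := by ring
    have b3 : (4 + 2 * (m:ℝ)) * L ^ (1 + 2 * K * V + K ^ 2) ≤ e * c * T := by
      have := mul_le_mul_of_nonneg_left a7 (show (0:ℝ) ≤ 4 + 2 * m by positivity)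
      refine this.trans (le_of_eq ?_)
      field_simp
    have b4 : (4 + 2 * (m:ℝ)) * L ^ (1 + 2 * K * V + K ^ 2) * L ^ (-(K ^ 2)) ≤
        (e * c * T) * δ ^ (K ^ 2) :=
      mul_le_mul b3 hδpow (Real.rpow_nonneg hL0.le _) (by positivity)
    have b5 : (e * c * T) * δ ^ (K ^ 2) ≤ e * (T * Rr) := by
      have := mul_le_mul_of_nonneg_left hRge (show (0:ℝ) ≤ e * T by positivity)
      calc (e * c * T) * δ ^ (K ^ 2) = e * T * (c * δ ^ (K ^ 2)) := by ring
        _ ≤ e * T * Rr := this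
        _ = _ := by ring
    rw [b2] at b1
    linarith
  -- one is small
  have hone : 1 ≤ e * (T * Rr) := by
    have b1 : L ^ (K ^ 2) * L ^ (-(K ^ 2)) = 1 := by
      rw [← Real.rpow_add hL0, add_neg_cancel, Real.rpow_zero]
    have b2 : L ^ (K ^ 2) * L ^ (-(K ^ 2)) ≤ (e * c * T) * δ ^ (K ^ 2) :=
      mul_le_mul a6 hδpow (Real.rpow_nonneg hL0.le _) (by positivity)
    have b5 : (e * c * T) * δ ^ (K ^ 2) ≤ e * (T * Rr) := by
      have := mul_le_mul_of_nonneg_left hRge (show (0:ℝ) ≤ e * T by positivity)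
      calc (e * c * T) * δ ^ (K ^ 2) = e * T * (c * δ ^ (K ^ 2)) := by ring
        _ ≤ e * T * Rr := this
        _ = _ := by ring
    linarith
  -- the exponential
  set Λ : ℝ := (K ^ 2 + 2) * Real.log (1 / δ) with hΛ
  have hlog0 : 0 ≤ Real.log (1 / δ) := by
    apply Real.log_nonneg
    rw [le_div_iff₀ a8]
    linarith
  have hΛ0 : 0 ≤ Λ := by positivity
  have hΛd : Λ * δ ≤ e / 2 := by
    have b1 := dlog a8
    have b2 : Λ * δ = (K ^ 2 + 2) * (δ * Real.log (1 / δ)) := by rw [hΛ]; ring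
    rw [b2]
    have b3 := mul_le_mul_of_nonneg_left (b1.trans (mul_le_mul_of_nonneg_left a4 (by norm_num)))
      (show (0:ℝ) ≤ K ^ 2 + 2 by positivity)
    refine b3.trans (le_of_eq ?_)
    field_simp
    norm_num
  have hexp : Real.exp (Λ * δ) ≤ 1 + e := by
    have b1 : Real.exp (Λ * δ) ≤ Real.exp (e / 2) := Real.exp_le_exp.2 hΛd
    have b2 := Real.abs_exp_sub_one_le (x := e / 2) (by rw [abs_of_pos (by positivity)]; linarith)
    rw [abs_of_pos (show 0 < e / 2 by positivity)] at b2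
    have b3 := (abs_le.1 b2).2
    linarith
  have hexp2 : Real.exp (Λ * δ) ≤ 2 := by linarith
  -- the last term
  have hlast : C * δ * Real.exp (Λ * δ - 3 / 2 * Λ) * T ≤ e * (T * Rr) := by
    have b1 : Real.exp (-(3 / 2 * Λ)) ≤ δ ^ (K ^ 2) := by
      rw [Real.rpow_def_of_pos a8]
      apply Real.exp_le_exp.2
      have c1 : Real.log δ = -Real.log (1 / δ) := by rw [one_div, Real.log_inv, neg_neg]
      rw [c1, hΛ]
      have : 0 ≤ K ^ 2 * Real.log (1 / δ) := by positivity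
      nlinarith
    have b2 : Real.exp (Λ * δ - 3 / 2 * Λ) ≤ 2 * δ ^ (K ^ 2) := by
      rw [sub_eq_add_neg, Real.exp_add]
      exact mul_le_mul hexp2 b1 (Real.exp_pos _).le (by norm_num)
    have b3 : C * δ ≤ e * c / 2 := by
      have := mul_le_mul_of_nonneg_left a5 hC.le
      refine this.trans (le_of_eq ?_)
      field_simp
    calc C * δ * Real.exp (Λ * δ - 3 / 2 * Λ) * T ≤ (e * c / 2) * (2 * δ ^ (K ^ 2)) * T := by
          apply mul_le_mul_of_nonneg_right _ hT0.le
          exact mul_le_mul b3 b2 (Real.exp_pos _).le (by positivity)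
      _ = e * T * (c * δ ^ (K ^ 2)) := by ring
      _ ≤ e * T * Rr := mul_le_mul_of_nonneg_left hRge (by positivity)
      _ = _ := by ring
  -- INTG2
  have hhT : ∀ j, |h T j| ≤ T := by
    intro j
    refine (a9 j).trans ?_
    calc T ^ ((1:ℝ) / 2) ≤ T ^ (1:ℝ) :=
          Real.rpow_le_rpow_of_exponent_le (by linarith) (by norm_num)
      _ = T := Real.rpow_one T
  have hI2 := H T δ Λ (h T) a10 hhT a8 (by linarith) hΛ0
  have hI0 : 0 ≤ ∫ t in (0:ℝ)..T, ∏ j, mz 0 (t + h T j) ^ (2 * k j) := by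
    apply intervalIntegral.integral_nonneg hT0.le
    intro t _
    exact Finset.prod_nonneg fun j _ => Real.rpow_nonneg (norm_nonneg _) _
  -- SM
  have hP : (1 - e) * (T * Rr) ≤ ∫ t in S, f t := by
    rw [le_div_iff₀ hR0] at a1
    have := mul_le_mul_of_nonneg_left a1 hT0.le
    calc (1 - e) * (T * Rr) = T * ((1 - e) * Rr) := by ring
      _ ≤ T * ((1 / T) * ∫ t in S, f t) := this
      _ = _ := by field_simp
  have hfin := final he0 he1 (by positivity : 0 < T * Rr) hP
    (hsplit.trans (add_le_add_right hexc _)) hexp (Real.exp_pos _).le hI0 hI2 hlast hone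
  calc (1 - ε) * Rr ≤ (1 - 6 * e) * Rr := mul_le_mul_of_nonneg_right (by linarith) hR0.le
    _ = (1 / T) * ((1 - 6 * e) * (T * Rr)) := by field_simp
    _ ≤ _ := mul_le_mul_of_nonneg_left hfin (by positivity)

end Pool.Agent.H6F.SHL
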