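import Pool.Agent.H6F.Stm5
import Pool.Agent.H6F.SMV

set_option autoImplicit false

namespace Pool.Agent.H6F.SMVP

open Filter MeasureTheory Topology Complex Metric

theorem t : Pool.Agent.H6F.S_SMVP := by
  intro n f p c r hp hr hf
  have hL : (1 / (2 * Real.pi)) * ∫ φ in (0:ℝ)..(2 * Real.pi), ∏ j, ‖f j (circleMap c r φ)‖ ^ p j =
      Real.circleAverage (fun z => ∏ j, ‖f j z‖ ^ p j) c r := by
    rw [Real.circleAverage_def, smul_eq_mul, one_div]
  rw [hL]
  by_cases h0' : ∃ j, f j c = 0
  · obtain ⟨j, hj⟩ := h0'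
    have : ∏ j, ‖f j c‖ ^ p j = 0 :=
      Finset.prod_eq_zero (Finset.mem_univ j) (by rw [hj, norm_zero, Real.zero_rpow (hp j).ne'])
    rw [this]
    exact Real.circleAverage_nonneg_of_nonneg fun z _ =>
      Finset.prod_nonneg fun j _ => Real.rpow_nonneg (norm_nonneg _) _
  push Not at h0'
  have h0 := h0'
  set m : ℝ := ∑ j, p j * Real.log ‖f j c‖ with hm
  have hexp : ∀ z : ℂ, (∀ j, f j z ≠ 0) →
      ∏ j, ‖f j z‖ ^ p j = Real.exp (∑ j, p j * Real.log ‖f j z‖) := by
    intro z hz
    rw [Real.exp_sum]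
    refine Finset.prod_congr rfl fun j _ => ?_
    rw [Real.rpow_def_of_pos (norm_pos_iff.2 (hz j)), mul_comm]
  have hem : Real.exp m = ∏ j, ‖f j c‖ ^ p j := (hexp c h0).symm
  set g : ℂ → ℝ := fun z => Real.exp m * (1 - m) + Real.exp m * ∑ j, p j * Real.log ‖f j z‖ with hg
  set F : ℂ → ℝ := fun z => max (∏ j, ‖f j z‖ ^ p j) (g z) with hF
  have hs : sphere c |r| ⊆ closedBall c r := by
    rw [abs_of_pos hr]
    exact sphere_subset_closedBall
  have hne : ∀ᶠ z in codiscreteWithin (sphere c |r|), ∀ j, f j z ≠ 0 := by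
    rw [Filter.eventually_all]
    intro j
    have h1 := (hf j).preimage_zero_mem_codiscreteWithin (h0 j) (mem_closedBall_self hr.le)
      ⟨⟨c, mem_closedBall_self hr.le⟩, (convex_closedBall c r).isPreconnected⟩
    exact codiscreteWithin_mono hs h1
  have hFe : (fun z => ∏ j, ‖f j z‖ ^ p j) =ᶠ[codiscreteWithin (sphere c |r|)] F := by
    filter_upwards [hne] with z hz
    have h1 : g z ≤ ∏ j, ‖f j z‖ ^ p j := by
      have h2 := Real.add_one_le_exp ((∑ j, p j * Real.log ‖f j z‖) - m)
      have h3 : ∏ j, ‖f j z‖ ^ p j =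
          Real.exp m * Real.exp ((∑ j, p j * Real.log ‖f j z‖) - m) := by
        rw [← Real.exp_add, hexp z hz]
        congr 1
        ring
      rw [h3]
      calc g z = Real.exp m * ((∑ j, p j * Real.log ‖f j z‖) - m + 1) := by rw [hg]; ring
        _ ≤ _ := mul_le_mul_of_nonneg_left h2 (Real.exp_pos _).le
    rw [hF]
    exact (max_eq_left h1).symm
  have hlog : ∀ j, CircleIntegrable (fun z => Real.log ‖f j z‖) c r := fun j =>
    MeromorphicOn.circleIntegrable_log_norm ((hf j).mono hs).meromorphicOn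
  have hpc : CircleIntegrable (fun z => ∏ j, ‖f j z‖ ^ p j) c r := by
    refine ContinuousOn.circleIntegrable' ?_
    exact continuousOn_finsetProd _ fun j _ =>
      (((hf j).mono hs).continuousOn.norm).rpow_const fun z _ => Or.inr (hp j).le
  have hFi : CircleIntegrable F c r := hpc.congr_codiscreteWithin hFe
  have hc1 : CircleIntegrable (fun _ : ℂ => Real.exp m * (1 - m)) c r := circleIntegrable_const _ _ _
  have hj : ∀ j, CircleIntegrable (fun z => p j • Real.log ‖f j z‖) c r := fun j =>
    (hlog j).const_fun_smul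
  have hsum : CircleIntegrable (fun z => ∑ j, p j • Real.log ‖f j z‖) c r := by
    have := CircleIntegrable.sum (Finset.univ) (f := fun j z => p j • Real.log ‖f j z‖)
      (c := c) (R := r) fun j _ => hj j
    convert this using 1
    ext z
    simp
  have hl1 : CircleIntegrable (fun z => Real.exp m • ∑ j, p j • Real.log ‖f j z‖) c r :=
    hsum.const_fun_smul
  have hgi : CircleIntegrable g c r := hc1.add hl1
  have hga : Real.circleAverage g c r =
      Real.exp m * (1 - m) + Real.exp m *
        ∑ j, p j * Real.circleAverage (fun z => Real.log ‖f j z‖) c r := by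
    have : Real.circleAverage g c r = Real.circleAverage (fun _ : ℂ => Real.exp m * (1 - m)) c r +
        Real.circleAverage (fun z => Real.exp m • ∑ j, p j • Real.log ‖f j z‖) c r :=
      Real.circleAverage_fun_add hc1 hl1
    rw [this, Real.circleAverage_const, Real.circleAverage_fun_smul, smul_eq_mul,
      Real.circleAverage_fun_sum (fun j _ => hj j)]
    congr 2
    refine Finset.sum_congr rfl fun j _ => ?_
    rw [Real.circleAverage_fun_smul, smul_eq_mul]
  rw [Real.circleAverage_congr_codiscreteWithin hFe hr.ne']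
  have h1 : Real.circleAverage g c r ≤ Real.circleAverage F c r :=
    Real.circleAverage_mono hgi hFi fun z _ => le_max_right _ _
  have h2 : m ≤ ∑ j, p j * Real.circleAverage (fun z => Real.log ‖f j z‖) c r := by
    rw [hm]
    exact Finset.sum_le_sum fun j _ =>
      mul_le_mul_of_nonneg_left (SMV.log_le hr (hf j) (h0 j)) (hp j).le
  calc ∏ j, ‖f j c‖ ^ p j = Real.exp m * (1 - m) + Real.exp m * m := by rw [← hem]; ring
    _ ≤ Real.exp m * (1 - m) + Real.exp m *
        ∑ j, p j * Real.circleAverage (fun z => Real.log ‖f j z‖) c r := by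
        have := mul_le_mul_of_nonneg_left h2 (Real.exp_pos m).le
        linarith
    _ = Real.circleAverage g c r := hga.symm
    _ ≤ _ := h1

end Pool.Agent.H6F.SMVP
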