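import Pool.Agent.H6F.Stm5
import Pool.Agent.H306R2.ZetaGrowth

set_option autoImplicit false

/-! Stub ZPB2: the function `(w-1) ζ(w) / (w+1)`. -/

namespace Pool.Agent.H6F.ZPB2

open Filter MeasureTheory Topology Complex
open Pool.Agent.N748.MG Pool.Agent.N748.MJ Pool.Agent.H6F

theorem le_of_sq_le_sq {a b : ℝ} (h : a ^ 2 ≤ b ^ 2) (hb : 0 ≤ b) : a ≤ b := by
  by_contra hc
  push Not at hc
  nlinarith

theorem gz_diff : Differentiable ℂ Pool.Agent.H6Z.Mm.gz := by
  have h1 : DifferentiableOn ℂ Pool.Agent.H6Z.Mm.gz (Set.univ \ {1}) := by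
    intro s hs
    have hs1 : s ≠ 1 := fun h => hs.2 h
    have h2 : DifferentiableAt ℂ (fun s => (s - 1) * riemannZeta s) s :=
      (differentiableAt_id.sub_const 1).mul (differentiableAt_riemannZeta hs1)
    have h3 : Pool.Agent.H6Z.Mm.gz =ᶠ[𝓝 s] fun s => (s - 1) * riemannZeta s := by
      filter_upwards [isOpen_ne.mem_nhds hs1] with w hw
      exact Pool.Agent.H6Z.Mm.gz_ne hw
    exact (h2.congr_of_eventuallyEq h3).differentiableWithinAt
  have h2 := (Complex.differentiableOn_compl_singleton_and_continuousAt_iff (c := (1 : ℂ))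
    (s := Set.univ) (f := Pool.Agent.H6Z.Mm.gz) Filter.univ_mem).1
    ⟨h1, Pool.Agent.H6Z.Mm.gz_cont.continuousAt⟩
  exact differentiableOn_univ.1 h2

theorem zeta_two_bd (s : ℂ) (hs : s.re = 2) : ‖riemannZeta s‖ ≤ 2 := by
  have hs1 : 1 < s.re := by rw [hs]; norm_num
  have hterm : ∀ n : ℕ, ‖1 / ((n : ℂ) + 1) ^ s‖ = 1 / ((n : ℝ) + 1) ^ 2 := by
    intro n
    have h1 : (0 : ℝ) < (n : ℝ) + 1 := by positivity
    have h2 : ((n : ℂ) + 1) = (((n : ℝ) + 1 : ℝ) : ℂ) := by push_cast; rfl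
    rw [norm_div, norm_one, h2, Complex.norm_cpow_eq_rpow_re_of_pos h1, hs]
    norm_num
  have hsum : HasSum (fun n : ℕ => 1 / ((n : ℝ) + 1) ^ 2) (Real.pi ^ 2 / 6) := by
    have h1 := (hasSum_nat_add_iff' 1).2 hasSum_zeta_two
    simpa using h1
  rw [zeta_eq_tsum_one_div_nat_add_one_cpow hs1]
  have h3 : Summable (fun n : ℕ => ‖1 / ((n : ℂ) + 1) ^ s‖) := by
    simp only [hterm]
    exact hsum.summable
  refine (norm_tsum_le_tsum_norm h3).trans ?_
  simp only [hterm]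
  rw [hsum.tsum_eq]
  have h4 := Real.pi_lt_d2
  have h5 := Real.pi_pos
  nlinarith

theorem gz_Zt (w : ℂ) (hw : 0 < w.re) : Pool.Agent.H6Z.Mm.gz w = Pool.Agent.H306R2.Zt w := by
  by_cases h : w = 1
  · rw [h, Pool.Agent.H6Z.Mm.gz_one, Pool.Agent.H306R2.Zt_one]
  · rw [Pool.Agent.H6Z.Mm.gz_ne h, Pool.Agent.H306R2.zeta_eq_pos hw h]

theorem nsq (w : ℂ) : ‖w + 1‖ ^ 2 - ‖w - 1‖ ^ 2 = 4 * w.re := by
  rw [← Complex.normSq_eq_norm_sq, ← Complex.normSq_eq_norm_sq, Complex.normSq_apply,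
    Complex.normSq_apply]
  simp
  ring

theorem t : S_ZPB2 := by
  refine ⟨?_, ?_, ?_, ?_⟩
  · intro w hw
    have h1 : AnalyticAt ℂ Pool.Agent.H6Z.Mm.gz w := gz_diff.analyticAt w
    have h2 : AnalyticAt ℂ (fun w : ℂ => w + 1) w := analyticAt_id.add analyticAt_const
    have h3 : w + 1 ≠ 0 := by
      intro h
      have := congrArg Complex.re h
      simp at this
      linarith
    exact h1.div h2 h3
  · intro y
    set w : ℂ := 2 + y * I with hw
    have hre : w.re = 2 := by simp [hw]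
    have hw1 : w ≠ 1 := by
      intro h
      rw [h] at hre
      norm_num at hre
    unfold Gq
    rw [Pool.Agent.H6Z.Mm.gz_ne hw1, norm_div, norm_mul]
    have h1 := zeta_two_bd w hre
    have h2 := nsq w
    rw [hre] at h2
    have h3 : ‖w - 1‖ ≤ ‖w + 1‖ := by
      apply le_of_sq_le_sq _ (norm_nonneg _)
      linarith
    have h4 : 0 < ‖w + 1‖ := by
      rw [norm_pos_iff]
      intro h
      have := congrArg Complex.re h
      simp [hre] at this
      norm_num at this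
    rw [div_le_iff₀ h4]
    have h5 := norm_nonneg (w - 1)
    have h6 := norm_nonneg (riemannZeta w)
    nlinarith
  · refine ⟨27, by norm_num, fun w h1 h2 => ?_⟩
    unfold Gq
    rw [gz_Zt w (by linarith), norm_div]
    have h3 := Pool.Agent.H306R2.Zt_norm_le h1
    have h4 : 1 ≤ ‖w + 1‖ := by
      have h5 := Complex.abs_re_le_norm (w + 1)
      have h6 : (w + 1).re = w.re + 1 := by simp
      rw [h6, abs_of_pos (by linarith)] at h5
      linarith
    have hy := abs_nonneg w.im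
    have h5 : ‖w‖ ≤ 2 + |w.im| := by
      refine (Complex.norm_le_abs_re_add_abs_im w).trans ?_
      rw [abs_of_pos (by linarith : 0 < w.re)]
      linarith
    have h6 : 3 * (‖w‖ + 1) ^ 2 ≤ 27 * (1 + |w.im|) ^ 2 := by
      have h7 : ‖w‖ + 1 ≤ 3 * (1 + |w.im|) := by linarith
      have h8 : (‖w‖ + 1) ^ 2 ≤ (3 * (1 + |w.im|)) ^ 2 :=
        pow_le_pow_left₀ (by positivity) h7 2
      nlinarith
    have h8 : (1 + |w.im|) ^ 2 ≤ (1 + |w.im|) ^ (27 : ℝ) := by
      rw [← Real.rpow_natCast]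
      exact Real.rpow_le_rpow_of_exponent_le (by linarith) (by norm_num)
    calc ‖Pool.Agent.H306R2.Zt w‖ / ‖w + 1‖ ≤ ‖Pool.Agent.H306R2.Zt w‖ :=
          div_le_self (norm_nonneg _) h4
      _ ≤ 27 * (1 + |w.im|) ^ 2 := h3.trans h6
      _ ≤ 27 * (1 + |w.im|) ^ (27 : ℝ) := by linarith
  · intro x y hx0 hx1
    set w : ℂ := 1 / 2 + x + y * I with hw
    have hre : w.re = 1 / 2 + x := by simp [hw]
    have him : w.im = y := by simp [hw]
    have hmz : mz x y = ‖riemannZeta w‖ := by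
      unfold mz pw
      rfl
    have hw1 : w ≠ 1 := by
      intro h
      rw [h] at hre
      simp at hre
      linarith
    unfold Gq
    rw [Pool.Agent.H6Z.Mm.gz_ne hw1, norm_div, norm_mul, hmz]
    have h2 := nsq w
    rw [hre] at h2
    have h4 : 0 < ‖w + 1‖ := by
      rw [norm_pos_iff]
      intro h
      have := congrArg Complex.re h
      simp [hre] at this
      linarith
    have h5 := norm_nonneg (w - 1)
    have h6 := norm_nonneg (riemannZeta w)
    refine ⟨?_, fun hy => ?_⟩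
    · have h3 : ‖w - 1‖ ≤ ‖w + 1‖ := by
        apply le_of_sq_le_sq _ (norm_nonneg _)
        linarith
      rw [div_le_iff₀ h4]
      nlinarith
    · rw [le_div_iff₀ h4]
      have hy2 : 16 ≤ y ^ 2 := by
        rw [← sq_abs]
        nlinarith
      have hu : 8 / y ^ 2 ≤ 1 := by
        rw [div_le_one (by linarith)]
        linarith
      have hu0 : 0 ≤ 8 / y ^ 2 := by positivity
      have h7 : y ^ 2 ≤ ‖w + 1‖ ^ 2 := by
        have h8 := Complex.abs_im_le_norm (w + 1)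
        have h9 : (w + 1).im = y := by simp [him]
        rw [h9] at h8
        rw [← sq_abs y]
        exact pow_le_pow_left₀ (abs_nonneg _) h8 2
      have h8 : 8 ≤ 8 / y ^ 2 * ‖w + 1‖ ^ 2 := by
        have h9 : 8 / y ^ 2 * y ^ 2 = 8 :=
          div_mul_cancel₀ _ (by linarith : (0 : ℝ) < y ^ 2).ne'
        calc (8 : ℝ) = 8 / y ^ 2 * y ^ 2 := h9.symm
          _ ≤ _ := mul_le_mul_of_nonneg_left h7 hu0
      have h10 : (1 - 8 / y ^ 2) * ‖w + 1‖ ≤ ‖w - 1‖ := by
        apply le_of_sq_le_sq _ h5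
        have h11 : (1 - 8 / y ^ 2) ^ 2 ≤ 1 - 8 / y ^ 2 := by nlinarith
        rw [mul_pow]
        have h12 := mul_le_mul_of_nonneg_right h11 (sq_nonneg ‖w + 1‖)
        nlinarith
      calc (1 - 8 / y ^ 2) * ‖riemannZeta w‖ * ‖w + 1‖ =
            ((1 - 8 / y ^ 2) * ‖w + 1‖) * ‖riemannZeta w‖ := by ring
        _ ≤ ‖w - 1‖ * ‖riemannZeta w‖ := mul_le_mul_of_nonneg_right h10 h6

end Pool.Agent.H6F.ZPB2
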