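import Pool.Agent.N748.MJ.Fin
import Pool.Agent.H6F.CVX
import Pool.Agent.H6F.SMVP
import Pool.Agent.H6F.HIPP
import Pool.Agent.H6F.ZPB2
import Pool.Agent.H6F.GAUP
import Pool.Agent.H6F.INTG2
import Pool.Agent.H6F.SHL

set_option autoImplicit false

/-! Shifted moments on the critical line: the lower bound. -/

namespace Pool.Agent.H6F

open Filter MeasureTheory Topology Complex
open Pool.Agent.N748.MG Pool.Agent.N748.MJ

theorem hippF : S_HIPP := HIPP.t SMVP.t CVX.t

theorem gaupF : S_GAUP := GAUP.t hippF ZPB2.t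

theorem intg2F : S_INTG2 := INTG2.t gaupF ZPB2.t

theorem shlF : S_SHL := SHL.t intg2F smF posF LZB.main

end Pool.Agent.H6F
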