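import Pool.Agent.H6F.Stm5
import Pool.Agent.H6F.INTG

set_option autoImplicit false

/-!
# Stub INTG2: the comparison of the means over the long interval
-/

namespace Pool.Agent.H6F.INTG2b

open Filter MeasureTheory Topology Complex
open Pool.Agent.N748.MG Pool.Agent.N748.MJ
open Pool.Agent.H6F.INTGaux

/-- the comparison of the means over the long interval, from the Gaussian comparison -/
lemma comb2 (K A E : ℝ) (hK : 0 < K) (hA : 0 ≤ A) (hE : 0 ≤ E) (F1 F0 F2 : ℝ → ℝ)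
    (c1 : Continuous F1) (c0 : Continuous F0) (c2 : Continuous F2)
    (n1 : ∀ y, 0 ≤ F1 y) (n0 : ∀ y, 0 ≤ F0 y) (n2 : ∀ y, 0 ≤ F2 y)
    (b1 : ∀ y, F1 y ≤ A * (1 + |y|) ^ E) (b0 : ∀ y, F0 y ≤ A * (1 + |y|) ^ E)
    (b2 : ∀ y, F2 y ≤ A * (1 + |y|) ^ E) (r : ℝ) (hr : 0 ≤ r)
    (hyp : ∀ y₀, ∫ y, F1 y * Real.exp (-(2 * K * (y - y₀) ^ 2)) ≤
      (∫ y, F0 y * Real.exp (-(2 * K * (y - y₀) ^ 2))) + r * ∫ y, F2 y * Real.exp (-(2 * K * (y - y₀) ^ 2)))
    (L T : ℝ) (hL : 4 ≤ L) (hT : 4 * L ≤ T) :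
    (1 - √2 * Real.exp (-(K * L ^ 2))) * (∫ u in (2 * L)..(T - 2 * L), F1 u) ≤
      (∫ u in (0:ℝ)..T, F0 u) + r * (∫ u in (0:ℝ)..T, F2 u) +
        (1 + r) * (L / √(Real.pi / (2 * K * L ^ 2)) * (T * (A * L ^ E * (1 + T) ^ E * Real.exp (E ^ 2 / (2 * K)) *
          Real.exp (-(K * L ^ 2)) * √(Real.pi / (K / 2))))) := by
  have hL0 : 0 < L := by linarith
  have hLne : L ≠ 0 := hL0.ne'
  have hgs : ∀ F : ℝ → ℝ, ∀ y₀ : ℝ, ∫ y, F (L * y) * gs K L⁻¹ (y - y₀) =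
      L⁻¹ * ∫ y, F y * Real.exp (-(2 * K * (y - L * y₀) ^ 2)) := by
    intro F y₀
    have h1 := MeasureTheory.Measure.integral_comp_mul_left
      (fun y : ℝ => F y * Real.exp (-(2 * K * (y - L * y₀) ^ 2))) L
    rw [abs_of_pos (inv_pos.mpr hL0), smul_eq_mul] at h1
    rw [← h1]
    refine integral_congr_ae (Filter.Eventually.of_forall fun y => ?_)
    show F (L * y) * gs K L⁻¹ (y - y₀) = F (L * y) * Real.exp (-(2 * K * (L * y - L * y₀) ^ 2))
    unfold gs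
    congr 3
    field_simp
  have hbd : ∀ F : ℝ → ℝ, (∀ y, F y ≤ A * (1 + |y|) ^ E) → ∀ y, F (L * y) ≤ (A * L ^ E) * (1 + |y|) ^ E := by
    intro F hF y
    refine (hF (L * y)).trans ?_
    rw [mul_assoc, ← Real.mul_rpow hL0.le (by positivity)]
    refine mul_le_mul_of_nonneg_left (Real.rpow_le_rpow (by positivity) ?_ hE) hA
    rw [abs_mul, abs_of_pos hL0]
    nlinarith [abs_nonneg y]
  have hLc : Continuous fun y : ℝ => L * y := continuous_const.mul continuous_id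
  have key := comb K L⁻¹ (A * L ^ E) E hK (inv_pos.mpr hL0)
    (by rw [inv_le_comm₀ hL0 (by norm_num)]; norm_num; exact hL) (by positivity) hE
    (fun y => F1 (L * y)) (fun y => F0 (L * y)) (fun y => F2 (L * y)) (c1.comp hLc) (c0.comp hLc) (c2.comp hLc)
    (fun y => n1 _) (fun y => n0 _) (fun y => n2 _) (hbd F1 b1) (hbd F0 b0) (hbd F2 b2) r hr
    (by
      intro y₀
      rw [hgs F1, hgs F0, hgs F2]
      have h1 := mul_le_mul_of_nonneg_left (hyp (L * y₀)) (inv_pos.mpr hL0).le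
      refine h1.trans (le_of_eq ?_)
      ring)
    0 (T / L) le_rfl (by rw [le_div_iff₀ hL0]; exact hT)
  have hint : ∀ F : ℝ → ℝ, ∀ a b : ℝ, ∫ u in a..b, F (L * u) = L⁻¹ * ∫ u in (L * a)..(L * b), F u := by
    intro F a b
    rw [intervalIntegral.integral_comp_mul_left F hLne, smul_eq_mul]
  rw [hint F1, hint F0, hint F2] at key
  have e1 : L * (0 + 2) = 2 * L := by ring
  have e2 : L * (0 + T / L - 2) = T - 2 * L := by field_simp; ring
  have e3 : L * (0 : ℝ) = 0 := mul_zero L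
  have e4 : L * (0 + T / L) = T := by field_simp; ring
  have e5 : K / L⁻¹ ^ 2 = K * L ^ 2 := by field_simp
  have e6 : 2 * K / L⁻¹ ^ 2 = 2 * K * L ^ 2 := by field_simp
  rw [e1, e2, e3, e4, e5, e6] at key
  obtain ⟨S, hS⟩ : ∃ S, S = √(Real.pi / (2 * K * L ^ 2)) := ⟨_, rfl⟩
  have hS0 : 0 < S := by rw [hS]; exact Real.sqrt_pos.mpr (by positivity)
  rw [← hS] at key ⊢
  obtain ⟨P, hP⟩ : ∃ P, P = ∫ u in (2 * L)..(T - 2 * L), F1 u := ⟨_, rfl⟩
  obtain ⟨Q0, hQ0⟩ : ∃ Q, Q = ∫ u in (0:ℝ)..T, F0 u := ⟨_, rfl⟩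
  obtain ⟨Q2, hQ2⟩ : ∃ Q, Q = ∫ u in (0:ℝ)..T, F2 u := ⟨_, rfl⟩
  rw [← hP, ← hQ0, ← hQ2] at key ⊢
  have hT0 : 0 < T := by linarith
  have hTL : T / L ≤ T := div_le_self hT0.le (by linarith)
  have hbig : (T / L - 2) * (A * L ^ E * (1 + 0 + T / L) ^ E * Real.exp (E ^ 2 / (2 * K)) *
      Real.exp (-(K * L ^ 2)) * √(Real.pi / (K / 2))) ≤ T * (A * L ^ E * (1 + T) ^ E * Real.exp (E ^ 2 / (2 * K)) *
      Real.exp (-(K * L ^ 2)) * √(Real.pi / (K / 2))) := by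
    have h1 : (1 + 0 + T / L) ^ E ≤ (1 + T) ^ E :=
      Real.rpow_le_rpow (by positivity) (by linarith) hE
    have h2 : A * L ^ E * (1 + 0 + T / L) ^ E * Real.exp (E ^ 2 / (2 * K)) *
      Real.exp (-(K * L ^ 2)) * √(Real.pi / (K / 2)) ≤ A * L ^ E * (1 + T) ^ E * Real.exp (E ^ 2 / (2 * K)) *
      Real.exp (-(K * L ^ 2)) * √(Real.pi / (K / 2)) := by
      gcongr
    have h3 : 0 ≤ A * L ^ E * (1 + 0 + T / L) ^ E * Real.exp (E ^ 2 / (2 * K)) *
      Real.exp (-(K * L ^ 2)) * √(Real.pi / (K / 2)) := by positivity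
    exact mul_le_mul (by linarith) h2 h3 hT0.le
  have hbig2 := mul_le_mul_of_nonneg_left hbig (by linarith : 0 ≤ 1 + r)
  have key2 := key.trans (add_le_add le_rfl hbig2)
  have hpos : 0 < S / L := by positivity
  refine le_of_mul_le_mul_left ?_ hpos
  refine le_trans (le_of_eq ?_) (key2.trans (le_of_eq ?_))
  · field_simp
  · field_simp

lemma ev_small (c N K : ℝ) (hK : 0 < K) :
    ∀ᶠ T : ℝ in atTop, c * Real.exp (N * Real.log T - K * Real.log T ^ 2) ≤ 1 := by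
  have h1 : Tendsto (fun L : ℝ => L * (N - K * L)) atTop atBot := by
    apply Tendsto.atTop_mul_atBot₀ tendsto_id
    have h2 : Tendsto (fun L : ℝ => K * L) atTop atTop := tendsto_id.const_mul_atTop hK
    exact tendsto_atBot_add_const_left _ N (tendsto_neg_atTop_atBot.comp h2)
  have h3 : Tendsto (fun T : ℝ => c * Real.exp (N * Real.log T - K * Real.log T ^ 2)) atTop (𝓝 (c * 0)) := by
    apply Tendsto.const_mul
    have h4 := Real.tendsto_exp_atBot.comp (h1.comp Real.tendsto_log_atTop)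
    refine h4.congr fun T => ?_
    simp only [Function.comp]
    congr 1
    ring
  rw [mul_zero] at h3
  exact h3.eventually_le_const one_pos

/-- the product of the shifted factors -/
noncomputable def Fx {m : ℕ} (k h : Fin m → ℝ) (x y : ℝ) : ℝ := ∏ j, ‖Gq (1 / 2 + x + (y + h j) * I)‖ ^ (2 * k j)

lemma Fx_nn {m : ℕ} (k h : Fin m → ℝ) (x y : ℝ) : 0 ≤ Fx k h x y :=
  Finset.prod_nonneg fun _ _ => Real.rpow_nonneg (norm_nonneg _) _

lemma re_line (x y h : ℝ) : (1 / 2 + (x : ℂ) + ((y : ℂ) + (h : ℂ)) * I).re = 1 / 2 + x := by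
  simp

lemma im_line (x y h : ℝ) : (1 / 2 + (x : ℂ) + ((y : ℂ) + (h : ℂ)) * I).im = y + h := by
  simp

lemma Fx_cont {m : ℕ} (k h : Fin m → ℝ) (hk : ∀ j, 0 < k j) (x : ℝ) (hx : 0 ≤ x)
    (han : ∀ w : ℂ, 1 / 2 ≤ w.re → AnalyticAt ℂ Gq w) : Continuous (Fx k h x) := by
  unfold Fx
  refine continuous_finsetProd _ fun j _ => ?_
  refine Continuous.rpow_const ?_ fun y => Or.inr (by have := hk j; positivity)
  apply Continuous.norm
  rw [continuous_iff_continuousAt]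
  intro y
  have h1 : ContinuousAt Gq (1 / 2 + (x : ℂ) + ((y : ℂ) + (h j : ℂ)) * I) :=
    (han _ (by rw [re_line]; linarith)).continuousAt
  have h2 : Continuous fun y : ℝ => (1 / 2 + (x : ℂ) + ((y : ℂ) + (h j : ℂ)) * I) := by fun_prop
  exact ContinuousAt.comp (f := fun y : ℝ => (1 / 2 + (x : ℂ) + ((y : ℂ) + (h j : ℂ)) * I)) h1 h2.continuousAt

lemma prod_const {m : ℕ} (k : Fin m → ℝ) (M : ℝ) (hM : 0 < M) : ∏ j, M ^ (2 * k j) = M ^ (2 * ∑ j, k j) := by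
  rw [Finset.mul_sum, Real.rpow_sum_of_pos hM]

lemma Fx_bound {m : ℕ} (k h : Fin m → ℝ) (hk : ∀ j, 0 < k j) (C : ℝ) (hC : 0 < C)
    (hb : ∀ w : ℂ, 1 / 2 ≤ w.re → w.re ≤ 2 → ‖Gq w‖ ≤ C * (1 + |w.im|) ^ C) (x : ℝ) (hx : 0 ≤ x) (hx2 : x ≤ 3 / 2)
    (T : ℝ) (hT : 0 ≤ T) (hh : ∀ j, |h j| ≤ T) (y : ℝ) :
    Fx k h x y ≤ (C ^ (2 * ∑ j, k j) * (1 + T) ^ (C * (2 * ∑ j, k j))) * (1 + |y|) ^ (C * (2 * ∑ j, k j)) := by
  have h1 : Fx k h x y ≤ ∏ j, (C * ((1 + T) * (1 + |y|)) ^ C) ^ (2 * k j) := by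
    unfold Fx
    refine Finset.prod_le_prod (fun j _ => Real.rpow_nonneg (norm_nonneg _) _) fun j _ => ?_
    refine Real.rpow_le_rpow (norm_nonneg _) ?_ (by have := hk j; positivity)
    refine (hb _ (by rw [re_line]; linarith) (by rw [re_line]; linarith)).trans ?_
    rw [im_line]
    refine mul_le_mul_of_nonneg_left (Real.rpow_le_rpow (by positivity) ?_ hC.le) hC.le
    have h2 := abs_add_le y (h j)
    have h3 := hh j
    nlinarith [abs_nonneg y]
  refine h1.trans (le_of_eq ?_)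
  rw [prod_const k _ (by positivity), Real.mul_rpow hC.le (by positivity), ← Real.rpow_mul (by positivity),
    Real.mul_rpow (by positivity) (by positivity), mul_assoc]

theorem t (h1 : S_GAUP) (h2 : S_ZPB2) : S_INTG2 := by
  obtain ⟨han, hz2, ⟨C, hC, hb⟩, hmz⟩ := h2
  intro m k ε hm hk hε
  obtain ⟨K, hKdef⟩ : ∃ K, K = ∑ j, k j := ⟨_, rfl⟩
  have hK : 0 < K := by
    rw [hKdef]
    have : Nonempty (Fin m) := ⟨⟨0, by omega⟩⟩
    exact Finset.sum_pos (fun j _ => hk j) Finset.univ_nonempty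
  obtain ⟨E, hEdef⟩ : ∃ E, E = C * (2 * K) := ⟨_, rfl⟩
  have hE : 0 ≤ E := by rw [hEdef]; positivity
  obtain ⟨R, hR⟩ : ∃ R, R = Real.exp (9 / 2 * K) := ⟨_, rfl⟩
  have hR0 : 0 < R := by rw [hR]; exact Real.exp_pos _
  -- the constant of the tail
  obtain ⟨c, hc⟩ : ∃ c, c = (1 + R) * (√(2 * K / Real.pi) * (C ^ (2 * K) * Real.exp (E ^ 2 / (2 * K)) *
    √(Real.pi / (K / 2)))) := ⟨_, rfl⟩
  have ev1 := ev_small c (3 + 5 * E) K hK
  have ev2 : ∀ᶠ T : ℝ in atTop, 1 - ε ≤ (1 - √2 * Real.exp (-(K * Real.log T ^ 2))) *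
      (1 - 8 / Real.log T ^ 2) ^ (2 * K) := by
    have hlog := Real.tendsto_log_atTop
    have t1 : Tendsto (fun T : ℝ => Real.log T ^ 2) atTop atTop :=
      (tendsto_pow_atTop (two_ne_zero)).comp hlog
    have t2 : Tendsto (fun T : ℝ => Real.exp (-(K * Real.log T ^ 2))) atTop (𝓝 0) :=
      Real.tendsto_exp_neg_atTop_nhds_zero.comp (t1.const_mul_atTop hK)
    have t3 : Tendsto (fun T : ℝ => 8 / Real.log T ^ 2) atTop (𝓝 0) := t1.const_div_atTop 8
    have t4 : Tendsto (fun T : ℝ => (1 - √2 * Real.exp (-(K * Real.log T ^ 2))) *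
      (1 - 8 / Real.log T ^ 2) ^ (2 * K)) atTop (𝓝 ((1 - √2 * 0) * (1 - 0) ^ (2 * K))) := by
      refine Tendsto.mul (tendsto_const_nhds.sub (t2.const_mul _)) ?_
      exact (tendsto_const_nhds.sub t3).rpow_const (Or.inl (by norm_num))
    rw [mul_zero, sub_zero, Real.one_rpow, mul_one] at t4
    exact t4.eventually_const_le (by linarith)
  have ev5 : ∀ᶠ T : ℝ in atTop, 0 ≤ 1 - √2 * Real.exp (-(K * Real.log T ^ 2)) := by
    have t1 : Tendsto (fun T : ℝ => Real.log T ^ 2) atTop atTop :=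
      (tendsto_pow_atTop (two_ne_zero)).comp Real.tendsto_log_atTop
    have t2 : Tendsto (fun T : ℝ => Real.exp (-(K * Real.log T ^ 2))) atTop (𝓝 0) :=
      Real.tendsto_exp_neg_atTop_nhds_zero.comp (t1.const_mul_atTop hK)
    have t4 : Tendsto (fun T : ℝ => 1 - √2 * Real.exp (-(K * Real.log T ^ 2))) atTop (𝓝 (1 - √2 * 0)) :=
      tendsto_const_nhds.sub (t2.const_mul _)
    rw [mul_zero, sub_zero] at t4
    exact t4.eventually_const_le one_pos
  have ev3 : ∀ᶠ T : ℝ in atTop, 4 ≤ Real.log T := Real.tendsto_log_atTop.eventually_ge_atTop 4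
  have ev4 : ∀ᶠ T : ℝ in atTop, 4 * Real.log T ≤ T := by
    have h3 := Real.isLittleO_log_id_atTop.bound (by norm_num : (0:ℝ) < 1 / 4)
    filter_upwards [h3, ev3, eventually_ge_atTop (0:ℝ)] with T hT hT2 hT3
    rw [Real.norm_of_nonneg (by linarith), id, Real.norm_of_nonneg hT3] at hT
    linarith
  obtain ⟨T₀, hT₀⟩ := Filter.eventually_atTop.mp (ev1.and (ev2.and (ev3.and (ev4.and ev5))))
  refine ⟨R * 2 ^ (2 * K), max 3 T₀, by positivity, le_max_left _ _, ?_⟩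
  intro T d Λ h hT hh hd hd4 hΛ
  obtain ⟨g1, g2, g3, g4, g5⟩ := hT₀ T ((le_max_right _ _).trans hT)
  have hT3 : 3 ≤ T := (le_max_left _ _).trans hT
  obtain ⟨L, hL⟩ : ∃ L, L = Real.log T := ⟨_, rfl⟩
  rw [← hL] at g1 g2 g3 g4 g5 ⊢
  have hL0 : 0 < L := by linarith
  have hT0 : 0 < T := by linarith
  have hLT : L ≤ T := by linarith
  -- the factor of the third term
  obtain ⟨r, hr⟩ : ∃ r, r = d * Real.exp (-(3 / 2 * Λ)) * R := ⟨_, rfl⟩
  have hr0 : 0 ≤ r := by rw [hr]; positivity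
  have hrR : r ≤ R := by
    rw [hr]
    have h3 : d * Real.exp (-(3 / 2 * Λ)) ≤ 1 := by
      have h4 : Real.exp (-(3 / 2 * Λ)) ≤ 1 := by
        rw [Real.exp_le_one_iff]
        linarith
      have h5 := mul_le_mul (by linarith : d ≤ 1) h4 (Real.exp_pos _).le zero_le_one
      linarith
    have h6 := mul_le_mul_of_nonneg_right h3 hR0.le
    linarith
  have hfb : ∀ x : ℝ, 0 ≤ x → x ≤ 3 / 2 → ∀ y, Fx k h x y ≤ (C ^ (2 * K) * (1 + T) ^ E) * (1 + |y|) ^ E := by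
    intro x hx hx2 y
    have h3 := Fx_bound k h hk C hC hb x hx hx2 T hT0.le hh y
    rw [← hKdef, ← hEdef] at h3
    exact h3
  have hΛd : Real.exp (-(Λ * d)) ≤ 1 := by
    rw [Real.exp_le_one_iff]
    have := mul_nonneg hΛ hd.le
    linarith
  have key := comb2 K (C ^ (2 * K) * (1 + T) ^ E) E hK (by positivity) hE
    (fun y => Real.exp (-(Λ * d)) * Fx k h d y) (Fx k h 0) (Fx k h (3 / 2))
    (continuous_const.mul (Fx_cont k h hk d hd.le han)) (Fx_cont k h hk 0 le_rfl han)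
    (Fx_cont k h hk (3 / 2) (by norm_num) han)
    (fun y => mul_nonneg (Real.exp_pos _).le (Fx_nn k h d y)) (Fx_nn k h 0) (Fx_nn k h (3 / 2))
    (fun y => by
      have h3 := hfb d hd.le (by linarith) y
      have h4 := mul_le_mul_of_nonneg_right hΛd (Fx_nn k h d y)
      linarith)
    (hfb 0 le_rfl (by norm_num)) (hfb (3 / 2) (by norm_num) le_rfl) r hr0
    (by
      intro y₀
      have h3 := h1 m k h d Λ y₀ hm hk hd hd4 hΛ
      have hG : ∀ x : ℝ, Gp k h x y₀ = ∫ y, Fx k h x y * Real.exp (-(2 * K * (y - y₀) ^ 2)) := by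
        intro x
        unfold Gp Fx
        rw [hKdef]
      rw [hG, hG, hG, ← hKdef, ← hR] at h3
      have h4 := mul_le_mul_of_nonneg_left h3 (Real.exp_pos (-(Λ * d))).le
      have e1 : ∫ y, Real.exp (-(Λ * d)) * Fx k h d y * Real.exp (-(2 * K * (y - y₀) ^ 2)) =
          Real.exp (-(Λ * d)) * ∫ y, Fx k h d y * Real.exp (-(2 * K * (y - y₀) ^ 2)) := by
        rw [← integral_const_mul]
        refine integral_congr_ae (Filter.Eventually.of_forall fun y => ?_)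
        simp only
        ring
      rw [e1]
      refine h4.trans (le_of_eq ?_)
      have e2 : Real.exp (-(Λ * d)) * Real.exp (Λ * d) = 1 := by
        rw [← Real.exp_add, neg_add_cancel, Real.exp_zero]
      have e3 : Real.exp (-(Λ * d)) * Real.exp (Λ * d - 3 / 2 * Λ) = Real.exp (-(3 / 2 * Λ)) := by
        rw [← Real.exp_add]
        congr 1
        ring
      rw [hr, mul_add, ← mul_assoc, e2, one_mul]
      congr 1
      have e4 : Real.exp (-(Λ * d)) * (d * Real.exp (Λ * d - 3 / 2 * Λ) * R *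
          ∫ y, Fx k h (3 / 2) y * Real.exp (-(2 * K * (y - y₀) ^ 2))) =
          (Real.exp (-(Λ * d)) * Real.exp (Λ * d - 3 / 2 * Λ)) * (d * R *
          ∫ y, Fx k h (3 / 2) y * Real.exp (-(2 * K * (y - y₀) ^ 2))) := by ring
      rw [e4, e3]
      ring)
    L T g3 g4
  -- the tail
  have tail : (1 + r) * (L / √(Real.pi / (2 * K * L ^ 2)) * (T * (C ^ (2 * K) * (1 + T) ^ E * L ^ E * (1 + T) ^ E *
      Real.exp (E ^ 2 / (2 * K)) * Real.exp (-(K * L ^ 2)) * √(Real.pi / (K / 2))))) ≤ 1 := by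
    refine le_trans ?_ g1
    have hs : L / √(Real.pi / (2 * K * L ^ 2)) = L ^ 2 * √(2 * K / Real.pi) := by
      have e1 : Real.pi / (2 * K * L ^ 2) = (2 * K / Real.pi)⁻¹ * (L⁻¹) ^ 2 := by field_simp
      rw [e1, Real.sqrt_mul (by positivity), Real.sqrt_sq (by positivity), Real.sqrt_inv]
      have : √(2 * K / Real.pi) ≠ 0 := (Real.sqrt_pos.mpr (by positivity)).ne'
      field_simp
    have e0 : Real.exp ((3 + 5 * E) * L - K * L ^ 2) = T ^ (3 + 5 * E) * Real.exp (-(K * L ^ 2)) := by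
      rw [Real.rpow_def_of_pos hT0, ← hL, ← Real.exp_add]
      congr 1
      ring
    have h3 : T ^ (3 + 5 * E) = T ^ 2 * T * (T ^ 2) ^ E * T ^ E * (T ^ 2) ^ E := by
      have h4 : (T ^ 2) ^ E = T ^ (2 * E) := by
        rw [← Real.rpow_natCast, ← Real.rpow_mul hT0.le]
        norm_num
      have h5 : T ^ 2 * T = T ^ (3:ℝ) := by
        rw [show (3:ℝ) = ((3:ℕ):ℝ) by norm_num, Real.rpow_natCast]
        ring
      rw [h4, h5, ← Real.rpow_add hT0, ← Real.rpow_add hT0, ← Real.rpow_add hT0]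
      congr 1
      ring
    rw [hs, e0, h3, hc]
    have h6 : (1 + T) ^ E ≤ (T ^ 2) ^ E := Real.rpow_le_rpow (by positivity) (by nlinarith) hE
    have h7 : L ^ E ≤ T ^ E := Real.rpow_le_rpow hL0.le hLT hE
    have h8 : L ^ 2 ≤ T ^ 2 := pow_le_pow_left₀ hL0.le hLT 2
    calc (1 + r) * (L ^ 2 * √(2 * K / Real.pi) * (T * (C ^ (2 * K) * (1 + T) ^ E * L ^ E * (1 + T) ^ E *
      Real.exp (E ^ 2 / (2 * K)) * Real.exp (-(K * L ^ 2)) * √(Real.pi / (K / 2)))))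
        ≤ (1 + R) * (T ^ 2 * √(2 * K / Real.pi) * (T * (C ^ (2 * K) * (T ^ 2) ^ E * T ^ E * (T ^ 2) ^ E *
      Real.exp (E ^ 2 / (2 * K)) * Real.exp (-(K * L ^ 2)) * √(Real.pi / (K / 2))))) := by gcongr
      _ = _ := by ring
  have key2 := key.trans (add_le_add le_rfl tail)
  -- the functions on the right
  have hpr : ∀ x y : ℝ, 0 ≤ x → x ≤ 1 / 4 → ∀ j, ‖Gq (1 / 2 + x + (y + h j) * I)‖ ≤ mz x (y + h j) ∧
      (4 ≤ |y + h j| → (1 - 8 / (y + h j) ^ 2) * mz x (y + h j) ≤ ‖Gq (1 / 2 + x + (y + h j) * I)‖) := by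
    intro x y hx hx4 j
    have h3 := hmz x (y + h j) hx hx4
    rw [Complex.ofReal_add] at h3
    exact h3
  have hmz0 : ∀ x y : ℝ, 0 ≤ mz x y := fun x y => norm_nonneg _
  have hGc : ∀ x : ℝ, x ≤ 1 / 4 → Continuous fun y : ℝ => ∏ j, mz x (y + h j) ^ (2 * k j) := by
    intro x hx
    refine continuous_finsetProd _ fun j _ => ?_
    refine Continuous.rpow_const ?_ fun y => Or.inr (by have := hk j; positivity)
    exact (Pool.Agent.H6F.INTG.mz_cont hx).comp (continuous_id.add continuous_const)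
  have hQ0 : ∫ u in (0:ℝ)..T, Fx k h 0 u ≤ ∫ u in (0:ℝ)..T, ∏ j, mz 0 (u + h j) ^ (2 * k j) := by
    apply intervalIntegral.integral_mono_on hT0.le ((Fx_cont k h hk 0 le_rfl han).intervalIntegrable _ _)
      ((hGc 0 (by norm_num)).intervalIntegrable _ _)
    intro y _
    unfold Fx
    refine Finset.prod_le_prod (fun _ _ => Real.rpow_nonneg (norm_nonneg _) _) fun j _ => ?_
    exact Real.rpow_le_rpow (norm_nonneg _) (hpr 0 y le_rfl (by norm_num) j).1 (by have := hk j; positivity)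
  have hQ2 : ∫ u in (0:ℝ)..T, Fx k h (3 / 2) u ≤ 2 ^ (2 * K) * T := by
    have h3 : ∫ u in (0:ℝ)..T, Fx k h (3 / 2) u ≤ ∫ _ in (0:ℝ)..T, (2:ℝ) ^ (2 * K) := by
      apply intervalIntegral.integral_mono_on hT0.le
        ((Fx_cont k h hk (3 / 2) (by norm_num) han).intervalIntegrable _ _)
        (continuous_const.intervalIntegrable _ _)
      intro y _
      rw [hKdef, ← prod_const k 2 two_pos]
      unfold Fx
      refine Finset.prod_le_prod (fun _ _ => Real.rpow_nonneg (norm_nonneg _) _) fun j _ => ?_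
      refine Real.rpow_le_rpow (norm_nonneg _) ?_ (by have := hk j; positivity)
      have h4 := hz2 (y + h j)
      have e : (2 + ((y + h j : ℝ) : ℂ) * I) = 1 / 2 + ((3 / 2 : ℝ) : ℂ) + ((y : ℂ) + (h j : ℂ)) * I := by
        push_cast
        ring
      rw [e] at h4
      exact h4
    rw [intervalIntegral.integral_const, sub_zero, smul_eq_mul, mul_comm] at h3
    exact h3
  -- the left side
  obtain ⟨q, hq⟩ : ∃ q, q = (1 - 8 / L ^ 2) ^ (2 * K) := ⟨_, rfl⟩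
  have h8L : 0 < 1 - 8 / L ^ 2 := by
    rw [sub_pos, div_lt_one (by positivity)]
    nlinarith
  obtain ⟨S, hS⟩ : ∃ S : Set ℝ, S = {t : ℝ | 2 * L ≤ t ∧ t ≤ T - 2 * L ∧ ∀ j, L ≤ |t + h j|} := ⟨_, rfl⟩
  rw [← hS]
  have hSm : MeasurableSet S := by
    rw [hS]
    apply IsClosed.measurableSet
    have e : {t : ℝ | 2 * L ≤ t ∧ t ≤ T - 2 * L ∧ ∀ j, L ≤ |t + h j|} =
        {t : ℝ | 2 * L ≤ t} ∩ ({t : ℝ | t ≤ T - 2 * L} ∩ ⋂ j, {t : ℝ | L ≤ |t + h j|}) := by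
      ext t
      simp only [Set.mem_ofPred_eq, Set.mem_inter_iff, Set.mem_iInter]
    rw [e]
    refine (isClosed_le continuous_const continuous_id).inter ((isClosed_le continuous_id continuous_const).inter
      (isClosed_iInter fun j => isClosed_le continuous_const ?_))
    fun_prop
  have hSs : S ⊆ Set.Icc (2 * L) (T - 2 * L) := by
    intro t ht
    rw [hS] at ht
    exact ⟨ht.1, ht.2.1⟩
  have hFi : IntegrableOn (Fx k h d) (Set.Icc (2 * L) (T - 2 * L)) :=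
    (Fx_cont k h hk d hd.le han).continuousOn.integrableOn_compact isCompact_Icc
  have hGi : IntegrableOn (fun y : ℝ => ∏ j, mz d (y + h j) ^ (2 * k j)) (Set.Icc (2 * L) (T - 2 * L)) :=
    (hGc d hd4).continuousOn.integrableOn_compact isCompact_Icc
  have hS1 : ∫ t in S, q * ∏ j, mz d (t + h j) ^ (2 * k j) ≤ ∫ t in S, Fx k h d t := by
    refine setIntegral_mono_on ((hGi.mono_set hSs).const_mul q) (hFi.mono_set hSs) hSm ?_
    intro t ht
    rw [hS] at ht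
    rw [hq, hKdef, ← prod_const k _ h8L, ← Finset.prod_mul_distrib]
    unfold Fx
    refine Finset.prod_le_prod (fun j _ => mul_nonneg (Real.rpow_nonneg h8L.le _)
      (Real.rpow_nonneg (hmz0 _ _) _)) fun j _ => ?_
    rw [← Real.mul_rpow h8L.le (hmz0 _ _)]
    refine Real.rpow_le_rpow (mul_nonneg h8L.le (hmz0 _ _)) ?_ (by have := hk j; positivity)
    have h3 := ht.2.2 j
    refine le_trans ?_ ((hpr d t hd.le hd4 j).2 (by linarith))
    refine mul_le_mul_of_nonneg_right ?_ (hmz0 _ _)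
    have h4 : L ^ 2 ≤ (t + h j) ^ 2 := by
      rw [← sq_abs (t + h j)]
      exact pow_le_pow_left₀ hL0.le h3 2
    have h5 : 8 / (t + h j) ^ 2 ≤ 8 / L ^ 2 := div_le_div_of_nonneg_left (by norm_num) (by positivity) h4
    linarith
  have hS2 : ∫ t in S, Fx k h d t ≤ ∫ t in Set.Icc (2 * L) (T - 2 * L), Fx k h d t :=
    setIntegral_mono_set hFi (Filter.Eventually.of_forall fun t => Fx_nn k h d t) (LE.le.eventuallyLE hSs)
  have hS3 : ∫ t in Set.Icc (2 * L) (T - 2 * L), Fx k h d t = ∫ u in (2 * L)..(T - 2 * L), Fx k h d u := by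
    rw [intervalIntegral.integral_of_le (by linarith), integral_Icc_eq_integral_Ioc]
  rw [integral_const_mul] at hS1
  obtain ⟨J, hJ⟩ : ∃ J, J = ∫ t in S, ∏ j, mz d (t + h j) ^ (2 * k j) := ⟨_, rfl⟩
  have hJ0 : 0 ≤ J := by
    rw [hJ]
    exact setIntegral_nonneg hSm fun t _ => Finset.prod_nonneg fun j _ => Real.rpow_nonneg (hmz0 _ _) _
  obtain ⟨W, hW⟩ : ∃ W, W = ∫ u in (2 * L)..(T - 2 * L), Fx k h d u := ⟨_, rfl⟩
  rw [intervalIntegral.integral_const_mul, ← hW] at key2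
  rw [← hJ] at hS1 ⊢
  have hqJ : q * J ≤ W := by rw [hW, ← hS3]; exact hS1.trans hS2
  obtain ⟨a0, ha0⟩ : ∃ a0, a0 = 1 - √2 * Real.exp (-(K * L ^ 2)) := ⟨_, rfl⟩
  rw [← ha0] at key2 g5
  rw [← ha0, ← hq] at g2
  have hl1 : (1 - ε) * J ≤ a0 * q * J := mul_le_mul_of_nonneg_right g2 hJ0
  have hl2 : a0 * (q * J) ≤ a0 * W := mul_le_mul_of_nonneg_left hqJ g5
  have hx : Real.exp (Λ * d) * Real.exp (-(Λ * d)) = 1 := by
    rw [← Real.exp_add, add_neg_cancel, Real.exp_zero]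
  have hx2 : Real.exp (Λ * d) * Real.exp (-(3 / 2 * Λ)) = Real.exp (Λ * d - 3 / 2 * Λ) := by
    rw [← Real.exp_add]
    congr 1
  have hm1 := mul_le_mul_of_nonneg_left key2 (Real.exp_pos (Λ * d)).le
  have e1 : Real.exp (Λ * d) * (a0 * (Real.exp (-(Λ * d)) * W)) = a0 * W := by
    calc Real.exp (Λ * d) * (a0 * (Real.exp (-(Λ * d)) * W)) =
        (Real.exp (Λ * d) * Real.exp (-(Λ * d))) * (a0 * W) := by ring
      _ = a0 * W := by rw [hx, one_mul]
  rw [e1] at hm1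
  have hm2 : r * ∫ u in (0:ℝ)..T, Fx k h (3 / 2) u ≤ r * (2 ^ (2 * K) * T) := mul_le_mul_of_nonneg_left hQ2 hr0
  have hm3 : Real.exp (Λ * d) * ((∫ u in (0:ℝ)..T, Fx k h 0 u) + r * (∫ u in (0:ℝ)..T, Fx k h (3 / 2) u) + 1) ≤
      Real.exp (Λ * d) * ((∫ u in (0:ℝ)..T, ∏ j, mz 0 (u + h j) ^ (2 * k j)) + r * (2 ^ (2 * K) * T) + 1) :=
    mul_le_mul_of_nonneg_left (by linarith) (Real.exp_pos _).le
  have e2 : Real.exp (Λ * d) * ((∫ u in (0:ℝ)..T, ∏ j, mz 0 (u + h j) ^ (2 * k j)) + r * (2 ^ (2 * K) * T) + 1) =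
      Real.exp (Λ * d) * ((∫ u in (0:ℝ)..T, ∏ j, mz 0 (u + h j) ^ (2 * k j)) + 1) +
        R * 2 ^ (2 * K) * d * Real.exp (Λ * d - 3 / 2 * Λ) * T := by
    rw [← hx2, hr]
    ring
  have e3 : a0 * q * J = a0 * (q * J) := by ring
  linarith

end Pool.Agent.H6F.INTG2b
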