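import Pool.Agent.H6F.Stm
import Pool.Agent.N748.MJ.Fin
import Pool.Agent.H6Z.Fz

set_option autoImplicit false

/-! The facts taken from the library. -/

namespace Pool.Agent.H6F

open Filter MeasureTheory Topology Complex
open Pool.Agent.N748.MG Pool.Agent.N748.MJ

theorem aposF : S_APOS := by
  intro k
  obtain ⟨h1, h2⟩ := aC_akR k
  have h3 : (aC (k : ℂ)).re = akR k := by rw [h2, Complex.ofReal_re]
  rw [h3]
  exact ⟨h1, h2⟩

theorem fourF : S_FOUR := Pool.Agent.H6Z.Fz.shifted

end Pool.Agent.H6F
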