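import Pool.Agent.N748.MJ.Stm

set_option autoImplicit false

/-!
# Moments of zeta over almost all short intervals near the critical line: statements

`d = d(T)` admissible (`Ad d`: `d → 0`, `d log T / log(1/d)^2 → ∞`), `N = 1/(2d)`, `H = N^θ`, `z = mz d u = |ζ(1/2+d+iu)|`,
`M = a(k) N^(k²)` with `a(k) = (aC k).re`. Aim: for `θ ≥ 1`, `k² < 1 + θ`, the average of `z^(2k)` over `[t, t+H]` is
`(1+o(1)) M` for almost all `t ≤ T`; for `k² ≥ 1 + θ` it is `N^(2kκ-κ²+o(1))`, `κ = √(1+θ)`; the maximum is `N^(κ+o(1))`.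

Frequently used: `d log T → ∞`, so `N ≤ log T` and `N^B ≤ T^(1/4)` for large `T` and every `B`; in particular `H ≤ T^(1/2)`.
`(2d)^(-x) = N^x`. Everything imported: `Pool.Agent.N748.MG.Stm`, `MG.Stm2`, `MJ.Stm` (only Mathlib behind them); proved facts
on `Ev`, `Ad` in `Pool.Agent.N748.MG.Ev`, `Pool.Agent.N748.MG.TMA` (e.g. `TMA.cont`: continuity of `mz`).
-/

namespace Pool.Agent.H6F

open Filter MeasureTheory Topology Complex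
open Pool.Agent.N748.MG Pool.Agent.N748.MJ

/-- the truncated power -/
noncomputable def F (k V d u : ℝ) : ℝ := if mz d u ≤ (2 * d) ^ (-V) then mz d u ^ (2 * k) else 0

/-- `|ζ(1 + 2d + iu)|` -/
noncomputable def zl (d u : ℝ) : ℝ := ‖riemannZeta (1 + 2 * d + u * I)‖

/-- the arithmetic factor of two shifts with difference `h` -/
noncomputable def aR (k h : ℝ) : ℝ := (aV (fun _ : Fin 2 => (k : ℂ)) (fun _ => (k : ℂ)) ![0, h]).re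

/-- the main term for two shifts with difference `h` -/
noncomputable def R (k h d : ℝ) : ℝ := aR k h * zl d 0 ^ (2 * k ^ 2) * zl d h ^ (2 * k ^ 2)

/-- the main term -/
noncomputable def M (k d : ℝ) : ℝ := (aC (k : ℂ)).re * (2 * d) ^ (-(k ^ 2))

/-- a second, larger distance: `1 / log(1/(2d))^12` -/
noncomputable def e12 (d : ℝ) : ℝ := 1 / Real.log (1 / (2 * d)) ^ 12

/-- the coefficients of `ζ(s)^k ζ(s + ih)^k` -/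
noncomputable def cv (k h : ℝ) (n : ℕ) : ℂ :=
  ∑ q ∈ n.divisorsAntidiagonal, dS (k : ℂ) q.1 * (dS (k : ℂ) q.2 * (q.2 : ℂ) ^ (-((h : ℂ) * I)))

/-- the average over `[t, t + H]` -/
noncomputable def av (k d H t : ℝ) : ℝ := (1 / H) * ∫ u in t..(t + H), mz d u ^ (2 * k)

/-- the truncated average over `[t, t + H]` -/
noncomputable def avT (k V d H t : ℝ) : ℝ := (1 / H) * ∫ u in t..(t + H), F k V d u

/-- positivity of the arithmetic factor (known: from `MG.aC_akR`) -/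
def S_APOS : Prop := ∀ k : ℝ, 0 < (aC (k : ℂ)).re ∧ aC (k : ℂ) = ((aC (k : ℂ)).re : ℂ)

/-- the fourth moment (known: `H6Z.Fz.shifted`) -/
def S_FOUR : Prop := ∃ C : ℝ, 0 < C ∧ ∀ᶠ T : ℝ in atTop, ∀ δ h : ℝ, 2 ^ 17 / Real.log T ≤ δ → δ ≤ 1 / 16 →
  |h| ≤ T ^ ((1:ℝ) / 2) → ∫ t in (0:ℝ)..T, mz δ (t + h) ^ 4 ≤ C * (T * (1 / δ) ^ 4)

/-! ### the stubs -/

/-- **(ONE)** hypotheses allowed: `(h : S_TM1) (h' : S_APOS)`. About 100 lines.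

Proof. `S_TM1` says `(2d)^(k²) (1/T) ∫_{t ∈ [0,T], z ≤ N^V} z^(2k) → (aC k).re`; the integral is `∫_0^T F k V (d T) t dt`. For
`0 ≤ x ≤ T^(1/2)`: `∫_0^T F(t+x) dt = ∫_x^(T+x) F` differs from `∫_0^T F` by at most `∫_0^x F + ∫_T^(T+x) F ≤ 2 x N^(2kV)
≤ 2 T^(1/2) N^(2kV)`, since `0 ≤ F ≤ N^(2kV)`; and `N^(2kV) ≤ T^(1/4)` for large `T`. -/
def S_ONE : Prop := ∀ d : ℝ → ℝ, Ad d → ∀ k V ε : ℝ, 0 < k → k < V → 0 < ε → ∀ᶠ T : ℝ in atTop, ∀ x : ℝ, 0 ≤ x →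
  x ≤ T ^ ((1:ℝ) / 2) → |(1 / T) * (∫ t in (0:ℝ)..T, F k V (d T) (t + x)) - M k (d T)| ≤ ε * M k (d T)

/-- **(SUB)** hypotheses allowed: `(h : S_TM3) (h' : S_APOS)`. About 100 lines.

Proof. `S_TM3`: `√(π log N) N^(V²-2kV) (1/T) ∫_0^T F k V (d T) → const`, so `(1/T) ∫_0^T F ≤ (1/2) N^(2kV-V²)` for large `T`. The
shift by `x` costs at most `2 T^(-1/2) N^(2kV)` as in ONE, which is `≤ (1/2) N^(2kV-V²)` for large `T`. -/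
def S_SUB : Prop := ∀ d : ℝ → ℝ, Ad d → ∀ k V : ℝ, 0 < V → V < k → ∀ᶠ T : ℝ in atTop, ∀ x : ℝ, 0 ≤ x →
  x ≤ T ^ ((1:ℝ) / 2) → (1 / T) * (∫ t in (0:ℝ)..T, F k V (d T) (t + x)) ≤ (2 * d T) ^ (V ^ 2 - 2 * k * V)

/-- **(UNI)** hypotheses allowed: `(h : S_SM) (h' : S_POSV)`. About 150 lines.

Proof. Suppose not: then for arbitrarily large `T` there are `x(T), y(T)` violating the bound; put `h T = ![x T, y T]` there and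
`![0, 0]` elsewhere, and apply `S_SM` with `m = 2`, `k = fun _ => c` (`∑ k_j = 2c < V`): the quotient tends to `1`, a contradiction,
as its numerator is the left side (the set integral over `{t ∈ [0,T], all z ≤ N^V}` of the product is `∫_0^T F F`) and its
denominator is `R c (y - x) (d T) > 0`: `∏_j ∏_l ‖ζ(1+2d+i(h_j-h_l))‖^(c²) = zl(0)^(2c²) zl(y-x)^(2c²)`, since
`zl d (-h) = zl d h` (conjugation, `riemannZeta_conj` or the like), and `aV (c,c) (c,c) ![x,y] = aV (c,c) (c,c) ![0,y-x]`: the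
first factor of `gV` depends on `h_j - h_l` only, and `lV s h p k` is multiplied by `p^(-ikx)` (absolute value 1) when all `h_j` are
shifted by `x` (`∑ μ_j = k`), so `lV · conj lV` does not change. (`POSV`: the arithmetic factor is real and `≥ c₀ > 0`.) -/
def S_UNI : Prop := ∀ d : ℝ → ℝ, Ad d → ∀ c V ε : ℝ, 0 < c → 2 * c < V → 0 < ε → ∀ᶠ T : ℝ in atTop, ∀ x y : ℝ,
  |x| ≤ T ^ ((1:ℝ) / 2) → |y| ≤ T ^ ((1:ℝ) / 2) →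
  (1 / T) * (∫ t in (0:ℝ)..T, F c V (d T) (t + x) * F c V (d T) (t + y)) ≤ (1 + ε) * R c (y - x) (d T)

/-- **(FUB)** no hypotheses. Fubini for a bounded measurable function, substitution `u = t + x`. About 80 lines. -/
def S_FUB : Prop := ∀ (g : ℝ → ℝ) (B T H : ℝ), Measurable g → (∀ u, 0 ≤ g u ∧ g u ≤ B) → 0 < T → 0 < H →
  (1 / T) * (∫ t in (0:ℝ)..T, (1 / H) * ∫ u in t..(t + H), g u) =
    (1 / H) * (∫ x in (0:ℝ)..H, (1 / T) * ∫ t in (0:ℝ)..T, g (t + x)) ∧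
  (1 / T) * (∫ t in (0:ℝ)..T, ((1 / H) * ∫ u in t..(t + H), g u) ^ 2) =
    (1 / H ^ 2) * (∫ x in (0:ℝ)..H, ∫ y in (0:ℝ)..H, (1 / T) * ∫ t in (0:ℝ)..T, g (t + x) * g (t + y))

/-- **(ZCMP)** no hypotheses. About 150 lines. With `e = e12 d = L^(-12)`, `L = log(1/(2d))`, `log |h| ≤ θ L`.

Proof. For `0 ≤ x ≤ 1/8`, `|h| ≥ 1`: `|ζ(1+x+ih)| ≤ C log(|h|+3)` and `|ζ'(1+x+ih)| ≤ C log(|h|+3)^2` (classical; search Mathlib and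
the library (search for log bounds for bounds of `riemannZeta` near `1`, e.g. in the files on the prime number theorem), or
from `ζ(s) = ∑_{n≤X} n^(-s) + X^(1-s)/(s-1) + O(|s| X^(-re s))` and Cauchy's formula on a circle of radius `1/log(|h|+3)`). Hence
`|ζ(1+2d+ih) - ζ(1+2e+ih)| ≤ 2 e C log(|h|+3)^2 ≤ C' L^(-10)` (note `d ≤ e` for small `d`). On the other hand (3-4-1, Mathlib:
`DirichletCharacter.norm_LSeries_product_ge_one` or a zeta version) `ζ(1+2e)^3 |ζ(1+2e+ih)|^4 |ζ(1+2e+2ih)| ≥ 1` gives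
`|ζ(1+2e+ih)| ≥ c e^(3/4) (log(2|h|+3))^(-1/4) ≥ c' L^(-9) L^(-1/4)`. The quotient of the difference and of the lower bound is
`≤ C'' L^(-10+9+1/4) → 0`. -/
def S_ZCMP : Prop := ∀ θ : ℝ, 0 < θ → ∀ ε : ℝ, 0 < ε → ∀ᶠ d : ℝ in 𝓝[>] 0, ∀ h : ℝ, 1 ≤ |h| →
  |h| ≤ (2 * d) ^ (-θ) → zl d h ≤ (1 + ε) * zl (e12 d) h

/-- **(CONVO)** no hypotheses. About 100 lines. Both sides are multiplicative in `n` and agree at the prime powers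
(`piAntidiag (univ : Finset (Fin 2)) r` corresponds to `antidiagonal r`, `dS k (p^a) = lC k a`). -/
def S_CONVO : Prop := ∀ (k h : ℝ) (n : ℕ), n ≠ 0 → dV (fun _ : Fin 2 => (k : ℂ)) ![0, h] n = cv k h n

/-- **(DB)** no hypotheses (the library may have it: `Pool.Agent.N748.MG.DIA1`, `SIZ`, ...). About 120 lines.

Proof. Let `K ≥ max(k,1)` be an integer. `0 ≤ dS k n ≤ dS K n` for real `k > 0` (i.e. the value is a nonnegative real number), and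
`(dS K n)^4` is multiplicative with the value `K^4` at primes; `∑ n^(-1-δ) dS(K)(n)^4 ≤ ∏_p (1 + K^4 p^(-1-δ) + C p^(-2)) ≤ C δ^(-K^4)`; or:
`dS K n · dS L n ≤ dS (KL) n` for integers `K, L`, and `∑ dS(L)(n) n^(-s) = ζ(s)^L`, `ζ(1+δ) ≤ 1 + 1/δ`. -/
def S_DB : Prop := ∀ k : ℝ, 0 < k → ∃ B C : ℝ, 0 < B ∧ 0 < C ∧ ∀ δ : ℝ, 0 < δ → δ ≤ 1 →
  Summable (fun n : ℕ => ‖dS (k : ℂ) n‖ ^ 4 * (n:ℝ) ^ (-(1 + δ))) ∧
  ∑' n : ℕ, ‖dS (k : ℂ) n‖ ^ 4 * (n:ℝ) ^ (-(1 + δ)) ≤ C * δ ^ (-B)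

/-- **(GCDP)** no hypotheses (elementary arithmetic). About 80 lines. Bijection between quadruples `(a, b, a', b')` of positive integers with
`a b = a' b'` and `(g, m, β, β')` with `gcd(β, β') = 1`: `g = gcd(b, b')`, `b = g β`, `b' = g β'`, `a = m β'`, `a' = m β`; in the form of
a sum of a nonnegative function over the quadruples with `b ≠ b'`, bounded by the sum over all `(g, m, β, β')` with `β ≠ β'`. -/
def S_GCDP : Prop := ∀ f : ℕ → ℕ → ℕ → ℕ → ENNReal,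
  ∑' q : {q : ℕ × ℕ × ℕ × ℕ // 0 < q.1 ∧ 0 < q.2.1 ∧ 0 < q.2.2.1 ∧ 0 < q.2.2.2 ∧ q.1 * q.2.1 = q.2.2.1 * q.2.2.2 ∧
      q.2.1 ≠ q.2.2.2}, f q.1.1 q.1.2.1 q.1.2.2.1 q.1.2.2.2 ≤
    ∑' r : {r : ℕ × ℕ × ℕ × ℕ // 0 < r.1 ∧ 0 < r.2.1 ∧ 0 < r.2.2.1 ∧ 0 < r.2.2.2 ∧ r.2.2.1 ≠ r.2.2.2},
      f (r.1.2.1 * r.1.2.2.2) (r.1.1 * r.1.2.2.1) (r.1.2.1 * r.1.2.2.1) (r.1.1 * r.1.2.2.2)

/-- **(DIAG)** hypotheses allowed: `(h : S_DB) (h' : S_GCDP)`. About 250 lines. The mean value over the shift `h = y - x` of the diagonal series.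

Proof. `‖cv k h n‖² = ∑_{ab = n} ∑_{a'b' = n} w(a) w(b) w(a') w(b') (b'/b)^(ih)` with `w = dS k ≥ 0`. With `h = y - x` the mean of
`(b'/b)^(i(y-x))` over `[0,H]²` is `|(1/H) ∫_0^H (b'/b)^(ix) dx|²`, which is `1` if `b = b'` and at most
`min(1, 4/(H log(b'/b))²) ≤ 2/(H |log(b'/b)|)` if `b ≠ b'` (exchange of sum and integral: everything converges absolutely).
Diagonal `b = b'`, `a = a'`: `∑_{a,b} w(a)² w(b)² (ab)^(-1-2δ) = (∑ w(n)² n^(-1-2δ))²`, the first term. Off the diagonal use GCDP: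
`a = mβ'`, `b = gβ`, `a' = mβ`, `b' = gβ'`, `n = gmββ'`, `β ≠ β'`. Let `K ≥ max(k, 1)` be an integer, `W = dS K ≥ 1`, `w ≤ W`,
`W(xy) ≤ W(x) W(y)`: the weight is `≤ W(m)² W(g)² W(β)² W(β')²`. So the off-diagonal part is at most
`(2/H) (∑ W(g)² g^(-1-2δ))² ∑_{β≠β'} W(β)² W(β')² (ββ')^(-1-2δ) / |log(β/β')|`. For `β < β'`: `1/log(β'/β) ≤ β'/(β'-β) = 1 + β/(β'-β)`;
the part with `1` is at most `(∑ W(β)² β^(-1-2δ))²`; and `W(β)² W(β')² ≤ W(β)⁴ + W(β')⁴`, where (`σ = 1+2δ`)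
`∑_{β'>β} β'^(-σ) β/(β'-β) ≤ ∑_{β'>β} (1/(β'-β) - 1/β') ≤ 1 + log β` and `∑_{β<β'} β^(1-σ)/(β'-β) ≤ 1 + log β'`; so this part is
`≤ 4 ∑_β W(β)⁴ β^(-1-2δ) (1 + log β)`, and `1 + log β ≤ (2/δ) β^δ`. All sums are `≤ C δ^(-B)` by DB for `K` (exponents `1+δ`, `1+2δ`). -/
def S_DIAG : Prop := ∀ k : ℝ, 0 < k → ∃ B C : ℝ, 0 < B ∧ 0 < C ∧ ∀ δ H : ℝ, 0 < δ → δ ≤ 1 / 16 → 0 < H →
  (1 / H ^ 2) * (∫ x in (0:ℝ)..H, ∫ y in (0:ℝ)..H, ∑' n : ℕ, ‖cv k (y - x) n‖ ^ 2 * (n:ℝ) ^ (-(1 + 2 * δ))) ≤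
    (∑' n : ℕ, ‖dS (k : ℂ) n‖ ^ 2 * (n:ℝ) ^ (-(1 + 2 * δ))) ^ 2 + C * δ ^ (-B) / H

/-- **(DASY)** hypotheses allowed: `(h1 : S_DIA2V) (h2 : S_POSV) (h3 : S_LZB) (h4 : S_AV0) (h5 : S_CONVO) (h6 : S_APOS)`. About 150 lines.
The two diagonal series for small `δ`.

Proof. `S_DIA2V` with `m = 2`, `s = r = (k, k)`, shifts `![0, h]`: the series `∑ dV conj(dV) n^(-1-2δ) = ∑ ‖cv k h n‖² n^(-1-2δ)`
(CONVO; `cj r = r`) times `exp(-LM)` is within `ε'` of `aV ≥ c₀ > 0` (POSV), and `|exp(LM)| = zl δ 0 ^(2k²) zl δ h ^(2k²)` by LZB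
(`exp(Re LZ(u)) = |ζ(1+2δ+iu)|`; `zl δ (-h) = zl δ h`). Take norms: `R k h δ ≤ (1+ε)` times the series. For the second: `m = 1`,
shift `0`: `dV (k) (0) n = dS k n`, `|exp(LM)| = zl δ 0 ^ (k²)`, `aV = aC k` (AV0). -/
def S_DASY : Prop := ∀ k ε : ℝ, 0 < k → 0 < ε → ∀ᶠ δ : ℝ in 𝓝[>] 0,
  (∀ h : ℝ, R k h δ ≤ (1 + ε) * ∑' n : ℕ, ‖cv k h n‖ ^ 2 * (n:ℝ) ^ (-(1 + 2 * δ))) ∧
  ∑' n : ℕ, ‖dS (k : ℂ) n‖ ^ 2 * (n:ℝ) ^ (-(1 + 2 * δ)) ≤ (1 + ε) * ((aC (k : ℂ)).re * zl δ 0 ^ (k ^ 2))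

/-- **(FAR)** hypotheses allowed: `(h1 : S_ZCMP) (h2 : S_DIAG) (h3 : S_DASY) (h4 : S_APOS) (h5 : S_POSV) (h6 : S_DB)`. About 150 lines.

Proof. Let `e = e12 d`, `H = (2d)^(-θ)`. For `1 ≤ |h| ≤ H`: `R k h d = aR zl(d,0)^(2k²) zl(d,h)^(2k²) ≤ (1+ε)^(2k²)
(zl(d,0)/zl(e,0))^(2k²) R k h e ≤ (1+ε)^(2k²+1) (zl(d,0)/zl(e,0))^(2k²) D(h)`, `D(h) = ∑ ‖cv k h n‖² n^(-1-2e)` (ZCMP, DASY at `e → 0`;
`aR ≥ 0` by POSV). Integrate over `x, y ∈ [0,H]` (the integrand `D(y-x) ≥ 0` is continuous and bounded; the left integrand is measurable or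
use `integral_mono` with the integrability of a continuous function times an indicator) and use DIAG, DASY:
`≤ (1+ε)^(2k²+1) (zl(d,0)/zl(e,0))^(2k²) ((1+ε)² (aC k).re² zl(e,0)^(2k²) + C e^(-B)/H)`; `e^(-B)/H = L^(12B) (2d)^θ → 0`,
`zl(e,0) ≥ 1`, and `2d zl(d,0) → 1` (`riemannZeta_residue_one`) turns `zl(d,0)^(2k²)` into `(2d)^(-2k²)`. Rename `ε`. -/
def S_FAR : Prop := ∀ k θ ε : ℝ, 0 < k → 0 < θ → 0 < ε → ∀ᶠ d : ℝ in 𝓝[>] 0,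
  (1 / ((2 * d) ^ (-θ)) ^ 2) * (∫ x in (0:ℝ)..(2 * d) ^ (-θ), ∫ y in (0:ℝ)..(2 * d) ^ (-θ),
    (if 1 ≤ |y - x| then R k (y - x) d else 0)) ≤ (1 + ε) * M k d ^ 2

/-- **(NEARP)** hypotheses allowed: `(h : S_UNI) (h' : S_POSV)`. About 80 lines. Pointwise bound of the pair correlation with a tilt `c ≤ k`.

Proof. If both values are `≤ N^V`, then `z^(2k) z'^(2k) ≤ N^(4(k-c)V) z^(2c) z'^(2c)`. So `F k V F k V ≤ N^(4(k-c)V) F c V' F c V'` with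
`V' = max(V, 2c+1)` (`2d ≤ 1`), and UNI with `ε = 1` gives `≤ 2 N^(4(k-c)V) R c (y-x) d`; `aR c h ≤ C₀` (POSV), `zl d 0 ≤ C N` and, for
`|h| ≤ 1`, `zl d h ≤ C min(N, 1/|h|)` (`(s-1) ζ(s)` is bounded near `s = 1`; see `Pool.Agent.H6Z.zl_bd` in `Pool/Agent/H6Z/Mm2.lean`). -/
def S_NEARP : Prop := ∀ d : ℝ → ℝ, Ad d → ∀ k V c : ℝ, 0 < c → c ≤ k → 0 < V → ∃ C : ℝ, 0 < C ∧ ∀ᶠ T : ℝ in atTop,
  ∀ x y : ℝ, |x| ≤ T ^ ((1:ℝ) / 2) → |y| ≤ T ^ ((1:ℝ) / 2) → |y - x| ≤ 1 →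
  (1 / T) * (∫ t in (0:ℝ)..T, F k V (d T) (t + x) * F k V (d T) (t + y)) ≤
    C * (2 * d T) ^ (-(4 * (k - c) * V + 4 * c ^ 2)) ∧
  (x ≠ y → (1 / T) * (∫ t in (0:ℝ)..T, F k V (d T) (t + x) * F k V (d T) (t + y)) ≤
    C * (2 * d T) ^ (-(4 * (k - c) * V + 2 * c ^ 2)) * |y - x| ^ (-(2 * c ^ 2)))

/-- **(EXPO)** no hypotheses. About 60 lines. The exponents: with `c = k/(1+u)`.

Proof. `4(k-c)k + 2c²(1+u) - u = 4k² - 2k²/(1+u) - u` for `c = k/(1+u)`. With `κ = 1 + θ - k² > 0`: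
`2k² + θ - (4k² - 2k²/(1+u) - u) = θ + u - 2k²u/(1+u) = ((1-u)(θ-u) + 2κu)/(1+u) ≥ ((1-u)² + 2κu)/2 ≥ 2δ₀` for `0 ≤ u ≤ 1`, where
`δ₀ = min(1/16, κ/4)` (`(1-u)² ≥ 1/4` for `u ≤ 1/2`, `2κu ≥ κ` for `u ≥ 1/2`). The remaining terms: `4(k-c)(V-k) ≤ 4k(V-k)` and
`2c²w ≤ 2k²w` are `≤ δ₀/2` each if `V - k` and `w` are small. -/
def S_EXPO : Prop := ∀ k θ : ℝ, 0 < k → 1 ≤ θ → k ^ 2 < 1 + θ → ∃ δ₀ : ℝ, 0 < δ₀ ∧ ∃ V : ℝ, k < V ∧ ∃ n : ℕ, 0 < n ∧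
  ∀ i : ℕ, i ≤ n → 4 * (k - k / (1 + (i:ℝ) / n)) * V + 2 * (k / (1 + (i:ℝ) / n)) ^ 2 * (1 + ((i:ℝ) + 1) / n) - (i:ℝ) / n ≤
    2 * k ^ 2 + θ - δ₀

/-- **(NEAR)** hypotheses allowed: `(h : S_NEARP) (h' : S_EXPO)`. About 150 lines.

Proof. Take `δ₀, V, n` from EXPO, `c_i = k/(1+i/n)`, `H = N^θ`. The inner average is `Q(x,y)`. For `|y-x| ∈ [N^(-(i+1)/n), N^(-i/n)]`, `i < n`,
NEARP with `c = c_i` gives `Q ≤ C N^(4(k-c_i)V + 2c_i² + 2c_i²(i+1)/n)`; for `|y-x| ≤ N^(-1)` the first bound of NEARP with `c = c_n = k/2`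
gives `Q ≤ C N^(4(k-c_n)V + 4c_n²)`. For each `x`, the set of `y` with `|y-x| ≤ N^(-i/n)` has measure `≤ 2 N^(-i/n)`. So
`(1/H²) ∫_0^H ∫_{|y-x|<1} Q ≤ (1/H) ∑_{i≤n} 2 C N^(E_i)` with `E_i ≤ 2k² + θ - δ₀`, i.e. `≤ 2(n+1)C N^(2k²-δ₀) ≤ N^(2k²-δ₀/2)`.
(`Q` is a continuous/measurable function of `(x,y)`: parameter integral of a bounded measurable function; or bound the integrals by those of
step functions with `integral_mono_of_nonneg`, which needs integrability of the upper function only. Use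
`Q ≤ ∑_{i≤n} C N^(...) 1_{|y-x| ≤ N^(-i/n)}`.) -/
def S_NEAR : Prop := ∀ d : ℝ → ℝ, Ad d → ∀ k θ : ℝ, 0 < k → 1 ≤ θ → k ^ 2 < 1 + θ → ∃ V δ : ℝ, k < V ∧ 0 < δ ∧
  ∀ᶠ T : ℝ in atTop, (1 / ((2 * d T) ^ (-θ)) ^ 2) * (∫ x in (0:ℝ)..(2 * d T) ^ (-θ), ∫ y in (0:ℝ)..(2 * d T) ^ (-θ),
    (if 1 ≤ |y - x| then 0 else (1 / T) * ∫ t in (0:ℝ)..T, F k V (d T) (t + x) * F k V (d T) (t + y))) ≤
    (2 * d T) ^ (-(2 * k ^ 2) + δ)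

/-- **(VAR)** hypotheses allowed: `(h1 : S_ONE) (h2 : S_UNI) (h3 : S_FUB) (h4 : S_FAR) (h5 : S_NEAR) (h6 : S_APOS)`. About 150 lines.

Proof. Let `H = N^θ` and `V` from NEAR. By FUB with `g = F k V (d T)` (bounded by `N^(2kV)`), `E avT = (1/H) ∫_0^H (1/T) ∫ F(t+x) ≥ (1-ε) M`
(ONE) and `E avT² = (1/H²) ∫∫ Q(x,y)`, `Q(x,y) = (1/T) ∫ F(t+x) F(t+y)`. Split at `|y-x| < 1`: the near part is `≤ N^(2k²-δ) ≤ ε M²`
(NEAR), in the far part `F k V ≤ F k V'` with `V' = max(V, 2k+1)`, so `Q ≤ (1+ε) R k (y-x) (d T)` by UNI, and FAR gives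
`≤ (1+ε)² M²`. So `E (avT - M)² = E avT² - 2 M E avT + M² ≤ 10 ε M²`. (Here `E g = (1/T) ∫_0^T g(t) dt`.) -/
def S_VAR : Prop := ∀ d : ℝ → ℝ, Ad d → ∀ k θ : ℝ, 0 < k → 1 ≤ θ → k ^ 2 < 1 + θ → ∃ V : ℝ, k < V ∧
  ∀ ε : ℝ, 0 < ε → ∀ᶠ T : ℝ in atTop,
    (1 / T) * (∫ t in (0:ℝ)..T, (avT k V (d T) ((2 * d T) ^ (-θ)) t - M k (d T)) ^ 2) ≤ ε * M k (d T) ^ 2

/-- **(SUPA)** no hypotheses (subharmonicity). About 120 lines.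

Proof. `s₀ = 1/2 + d + iu`, `r = d/2`; `ζ` is holomorphic on the disc `|s - s₀| ≤ r` (`u ≥ 2`). The mean value property on the circles gives
`|ζ(s₀)|² ≤ (1/2π) ∫_0^{2π} |ζ(s₀+ρe^{iφ})|² dφ` (apply it to `ζ²`; Mathlib: `circleAverage` of a holomorphic function, or
`DiffContOnCl.circleIntegral_sub_inv_smul`), and polar coordinates give `π r² |ζ(s₀)|² ≤ ∬_{disc} |ζ|²`. The part of the disc where
`|ζ| ≤ M/2` contributes at most `π r² M²/4`, so the rest contributes at least `(3/4) π (d/2)² M² ≥ d² M²/2` (`3π/16 ≥ 1/2`), and the disc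
is contained in the rectangle on the right side. -/
def S_SUPA : Prop := ∀ (d m u : ℝ), 0 < d → d ≤ 1 / 16 → 2 ≤ u → 0 < m → m < mz d u →
  (1 / 2) * d ^ 2 * m ^ 2 ≤ ∫ σ in (d / 2)..(3 * d / 2), ∫ v in (u - 1)..(u + 1),
    (if m / 2 < mz σ v then mz σ v ^ 2 else 0)

/-- **(SUPB)** hypotheses allowed: `(h : S_TM1) (h' : S_FOUR)`. About 180 lines.

Proof. Suppose not: then there are arbitrarily large `T` and `x(T) ∈ [1/2, 3/2]` violating the bound; `x = 1` elsewhere. Let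
`δ(S) = x(S/2) d(S/2)`, which is admissible (`Ad δ`), and use `S_TM1` for `δ` at `S = 2T` with `k = V`, level `V' > V` (large, to be chosen):
`∫_{v ∈ [0,2T], z ≤ N_x^(V')} z^(2V) ≤ C T N_x^(V²)`, where `z = mz (x d) v`, `N_x = 1/(2xd)`, `N/2 ≤ N_x ≤ 2N`. On `N^V/2 < z` we have
`z² ≤ z^(2V) (N^V/2)^(-(2V-2))`, so the part of the integral over `N^V/2 < z ≤ N_x^(V')` is `≤ C' T N^(V² - 2V² + 2V)`. The part over
`z > N_x^(V')` is at most `N_x^(-2V') ∫_0^{2T} z⁴ ≤ C N_x^(-2V') T (xd)^(-4)` (FOUR), which is smaller for `2V' ≥ V² + 6`. Finally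
`C N^(-V²+2V) ≤ N^(-V²+2V+η)` for large `T`. -/
def S_SUPB : Prop := ∀ d : ℝ → ℝ, Ad d → ∀ V η : ℝ, 1 < V → 0 < η → ∀ᶠ T : ℝ in atTop, ∀ x : ℝ, 1 / 2 ≤ x →
  x ≤ 3 / 2 → ∫ v in (0:ℝ)..(2 * T), (if (2 * d T) ^ (-V) / 2 < mz (x * d T) v then mz (x * d T) v ^ 2 else 0) ≤
    T * (2 * d T) ^ (V ^ 2 - 2 * V - η)

/-- **(SUP)** hypotheses allowed: `(h : S_SUPA) (h' : S_SUPB)`. About 150 lines.

Proof. Let `m = N^V`, `H = N^θ`, `g(σ,v) = mz σ v ^2` if `m/2 < mz σ v`, else `0`. If `t ∈ [3,T]` is bad (some `u ∈ [t,t+H]` has `z > m`), then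
SUPA gives `(1/2) d² m² ≤ ∫_{d/2}^{3d/2} ∫_{t-1}^{t+H+1} g dv dσ`. By Markov's inequality and Fubini the measure of the bad
`t ∈ [3,T]` times `(1/2) d² m²` is `≤ ∫_σ ∫_{v=0}^{2T} g(σ,v) |{t : v-H-1 ≤ t ≤ v+1}| ≤ (H+2) d sup_x ∫_0^{2T} g(xd, v) dv ≤
(H+2) d T N^(-V²+2V+η)` (SUPB, `η` small). So the measure is `≤ 2(H+2) d^(-1) N^(-V²+η) T ≤ 8 N^(1+θ-V²+η) T ≤ (ε/2) T` for large `T`,
if `η < V² - 1 - θ`. The `t ∈ [0,3]` have measure `3 ≤ (ε/2) T`. (The bad set is open relative to a closed set; measurability is not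
needed if one works with the measurable superset `{t : (1/2) d² m² ≤ ∫∫ g}`.) -/
def S_SUP : Prop := ∀ d : ℝ → ℝ, Ad d → ∀ V θ ε : ℝ, 0 ≤ θ → 0 < V → 1 + θ < V ^ 2 → 0 < ε → ∀ᶠ T : ℝ in atTop,
  volume {t : ℝ | 0 ≤ t ∧ t ≤ T ∧ ∃ u : ℝ, t ≤ u ∧ u ≤ t + (2 * d T) ^ (-θ) ∧ (2 * d T) ^ (-V) < mz (d T) u} ≤
    ENNReal.ofReal (ε * T)

/-- **(LLN)** hypotheses allowed: `(h1 : S_VAR) (h2 : S_ONE) (h3 : S_SUP) (h4 : S_FUB) (h5 : S_APOS)`. About 150 lines.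

Proof. Let `V` from VAR, `V' > max(V, √(1+θ))`, `H = N^θ`. (a) Chebyshev and VAR: `|avT k V - M| ≤ (ε/2) M` off a set of measure `≤ (ε/3) T`.
(b) `avT k V' - avT k V ≥ 0` has mean value `≤ ε' M` over `[0,T]` by ONE for `V` and for `V'` and FUB, so it is `≤ (ε/2) M` off a set of measure
`≤ (ε/3) T` (Markov). (c) SUP for `V'`: off a set of measure `≤ (ε/3) T` all `z ≤ N^(V')` on `[t,t+H]`, so `av k = avT k V'`. -/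
def S_LLN : Prop := ∀ d : ℝ → ℝ, Ad d → ∀ k θ ε : ℝ, 0 < k → 1 ≤ θ → k ^ 2 < 1 + θ → 0 < ε → ∀ᶠ T : ℝ in atTop,
  volume {t : ℝ | 0 ≤ t ∧ t ≤ T ∧ ε * M k (d T) < |av k (d T) ((2 * d T) ^ (-θ)) t - M k (d T)|} ≤ ENNReal.ofReal (ε * T)

/-- **(MAXL)** hypotheses allowed: `(h1 : S_LLN) (h2 : S_SUB) (h3 : S_FUB) (h4 : S_APOS)`. About 100 lines. Large part above the level `V < k`.

Proof. Let `0 < V < k`, `k² < 1+θ`. By SUB and FUB the mean value over `t ∈ [0,T]` of `avT k V` is `≤ N^(2kV-V²) = N^(k²-(k-V)²)`, so by Markov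
`avT k V ≤ (1/4) M` off a set of measure `≤ (ε/2) T`; by LLN `av k ≥ (3/4) M` off such a set. Subtract: the average over `[t,t+H]` of
`z^(2k) 1_{z > N^V}` is `≥ M/2`. -/
def S_MAXL : Prop := ∀ d : ℝ → ℝ, Ad d → ∀ k V θ ε : ℝ, 0 < V → V < k → 1 ≤ θ → k ^ 2 < 1 + θ → 0 < ε → ∀ᶠ T : ℝ in atTop,
  volume {t : ℝ | 0 ≤ t ∧ t ≤ T ∧ (1 / (2 * d T) ^ (-θ)) * (∫ u in t..(t + (2 * d T) ^ (-θ)),
    (if (2 * d T) ^ (-V) < mz (d T) u then mz (d T) u ^ (2 * k) else 0)) < (1 / 2) * M k (d T)} ≤ ENNReal.ofReal (ε * T)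

/-- **(FROZ)** hypotheses allowed: `(h1 : S_MAXL) (h2 : S_SUB) (h3 : S_SUP) (h4 : S_FUB) (h5 : S_APOS) (h6 : S_ONE)`. About 200 lines.

Proof. `κ = √(1+θ) ≥ √2`. Upper bounds: for `V = κ + η` SUP gives `z ≤ N^V` on `[t,t+H]` for almost all `t` (the maximum, upper bound); so
`av k = avT k V` there; if `k > κ`, choose `η` with `V < k`: SUB, FUB and Markov give `avT k V ≤ N^(2kV-V²+η)` off a set of measure `≤ N^(-η) T`,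
and `2kV - V² + η ≤ 2kκ - κ² + ε` for small `η`; if `k = κ`, ONE (`V > k`) gives the mean value `≤ 2M = 2 a(k) N^(k²)`, `k² = 2kκ-κ²`, and
Markov as before. Lower bounds: let `V < k' < κ` be close to `κ`; MAXL for `k', V`: the average of `z^(2k') 1_{z>N^V}` over `[t,t+H]` is
`≥ M k'/2`, so some `u ∈ [t,t+H]` has `z > N^V` (the maximum, lower bound), and for `k ≥ κ > k'`, on `z > N^V`,
`z^(2k) ≥ N^(2V(k-k')) z^(2k')`, so `av k ≥ (1/2) a(k') N^(2V(k-k') + k'²)`, whose exponent tends to `2κ(k-κ) + κ² = 2kκ - κ²` as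
`V, k' → κ`. -/
def S_FROZ : Prop := ∀ d : ℝ → ℝ, Ad d → ∀ θ ε : ℝ, 1 ≤ θ → 0 < ε →
  (∀ᶠ T : ℝ in atTop, volume {t : ℝ | 0 ≤ t ∧ t ≤ T ∧ ¬ ((∀ u : ℝ, t ≤ u → u ≤ t + (2 * d T) ^ (-θ) →
      mz (d T) u ≤ (2 * d T) ^ (-(√(1 + θ) + ε))) ∧
    ∃ u : ℝ, t ≤ u ∧ u ≤ t + (2 * d T) ^ (-θ) ∧ (2 * d T) ^ (-(√(1 + θ) - ε)) ≤ mz (d T) u)} ≤ ENNReal.ofReal (ε * T)) ∧
  ∀ k : ℝ, √(1 + θ) ≤ k → ∀ᶠ T : ℝ in atTop, volume {t : ℝ | 0 ≤ t ∧ t ≤ T ∧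
    ¬ ((2 * d T) ^ (-(2 * k * √(1 + θ) - (1 + θ) - ε)) ≤ av k (d T) ((2 * d T) ^ (-θ)) t ∧
      av k (d T) ((2 * d T) ^ (-θ)) t ≤ (2 * d T) ^ (-(2 * k * √(1 + θ) - (1 + θ) + ε)))} ≤ ENNReal.ofReal (ε * T)

end Pool.Agent.H6F
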