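import Pool.Agent.H6F.Stm

set_option autoImplicit false

/-!
# Moments of zeta over almost all short intervals near the critical line, all lengths `H = N^θ`, `θ > 0`: statements

For `0 < θ < 1` the second moment method needs barriers at the intermediate scales: at the scale `u ∈ (0,1]` the average `A` of
`z^(2b)` (`b` small) over the window of radius `(2d)^u` must not exceed its typical size under the `2k`-tilt. (`N = 1/(2d)`.)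
-/

namespace Pool.Agent.H6F

open Filter MeasureTheory Topology Complex
open Pool.Agent.N748.MG Pool.Agent.N748.MJ

/-- the regularised distance -/
noncomputable def G (d h : ℝ) : ℝ := 2 * d + |h|

/-- `z^(2b)`, bounded from below by `1/N` -/
noncomputable def yb (b d t : ℝ) : ℝ := max (2 * d) (mz d t ^ (2 * b))

/-- the average of `yb` over the window of radius `(2d)^u` around `t` -/
noncomputable def A (b u d t : ℝ) : ℝ := (1 / (2 * (2 * d) ^ u)) * ∫ v in (-(2 * d) ^ u)..((2 * d) ^ u), yb b d (t + v)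

/-- the level of the barrier at the scale `u` -/
noncomputable def X (k b u η d : ℝ) : ℝ := (2 * d) ^ (-(b ^ 2 + 2 * k * b * u + η))

/-- the barriers at the scales `i/n`, `1 ≤ i ≤ n`, `b = k/m` -/
def Bar (k : ℝ) (n m : ℕ) (η d t : ℝ) : Prop :=
  ∀ i : ℕ, 1 ≤ i → i ≤ n → A (k / m) ((i:ℝ) / n) d t ≤ X k (k / m) ((i:ℝ) / n) η d

open Classical in
/-- the truncated power with barriers -/
noncomputable def Fb (k V : ℝ) (n m : ℕ) (η d t : ℝ) : ℝ := if Bar k n m η d t then F k V d t else 0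

/-- **(ZLG)** no hypotheses. About 60 lines. `(s-1) ζ(s)` is continuous and nonzero on `1 ≤ re s ≤ 9/8`, `|im s| ≤ 2` (value `1` at `s = 1`,
`ζ ≠ 0` on `re s ≥ 1`), hence bounded from above and below there; `|2d + ih|` is between `G/2` and `G`. See `gz`, `zl_bd` in
`Pool/Agent/H6Z/Mm2.lean` (namespace `Pool.Agent.H6Z.Mm`) for the upper bound. -/
def S_ZLG : Prop := ∃ c C : ℝ, 0 < c ∧ 0 < C ∧ ∀ d h : ℝ, 0 < d → d ≤ 1 / 16 → |h| ≤ 2 →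
  c / G d h ≤ zl d h ∧ zl d h ≤ C / G d h

/-- **(JMU)** hypotheses allowed: `(h1 : S_JM) (h2 : S_POSV) (h3 : S_LZB) (h4 : S_ZLG)`. About 150 lines. Joint moments with real exponents of
any sign on a large set, upper bound.

Proof. Apply `S_JM` (with `n = 0`, real `b`, `ε = 1` resp. small; `Ev.app` of `Pool.Agent.N748.MG.Ev` turns `Ev` into `∀ᶠ T`):
`|e^(-LM) ∫_S ∏ z^(2b_j) - T aV| ≤ ε T`, `|aV| ≤ C` (POSV), `|e^(LM)| = ∏_j ∏_l zl (h_j - h_l)^(b_j b_l)` (LZB: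
`exp(Re LZ(1+2δ)(u)) = zl δ u`), and ZLG turns the `zl` into `1/G` up to constants (depending on `m`, `B`). Integrability: the integrand is
measurable and nonnegative; if it were not integrable the Bochner integral would be `0`, so `T aV ≤ ε T`, which contradicts
`aV ≥ c₀ > ε` (POSV). (`SM.prod_ZZ` in `Pool/Agent/N748/MJ/SM.lean` identifies the product of the `ZZ` with the product of the powers.) -/
def S_JMU : Prop := ∀ d : ℝ → ℝ, Ad d → ∀ (m : ℕ) (B D : ℝ), 0 < B → 0 < D → ∃ C : ℝ, 0 < C ∧ ∀ᶠ T : ℝ in atTop,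
  ∀ h : Fin m → ℝ, (∀ j, |h j| ≤ T ^ ((1:ℝ) / 2)) → (∀ j l, |h j - h l| ≤ 2) →
  ∃ S : Set ℝ, MeasurableSet S ∧ S ⊆ Set.Icc 0 T ∧ volume (Set.Icc 0 T \ S) ≤ ENNReal.ofReal ((d T) ^ D * T) ∧
    (∀ t ∈ S, ∀ j, 0 < mz (d T) (t + h j)) ∧ ∀ b : Fin m → ℝ, (∀ j, |b j| ≤ B) →
      IntegrableOn (fun t => ∏ j, mz (d T) (t + h j) ^ (2 * b j)) S ∧
      ∫ t in S, ∏ j, mz (d T) (t + h j) ^ (2 * b j) ≤ C * T * ∏ j, ∏ l, G (d T) (h j - h l) ^ (-(b j * b l))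

/-- **(STAR)** no hypotheses. About 120 lines. (Compare `star`, `star_int`, `pair_int` in `Pool/Agent/H6Z/Mm.lean`.)

Proof. `∏_{i<j} G_ij^(-β) = ∏_i (∏_{j≠i} G_ij^(-β))^(1/2) ≤ ∑_i ∏_{j≠i} G_ij^(-βm/2)` (AM-GM: a product of `m` nonnegative numbers is at most
the sum of their `m`-th powers). For each `i`, integrate over `v_j`, `j ≠ i`: `(1/2w) ∫_{-w}^{w} G(v_i-v_j)^(-s) dv_j ≤ (1/2w) ∫_{|x|≤2w} |x|^(-s) dx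
≤ C w^(-s)` with `s = βm/2 < 1`. Product of `m-1` of them: `C w^(-βm(m-1)/2)`. The statement is for the product over all ordered pairs
`i ≠ j` with the exponent `β/2`, i.e. `∏_i ∏_{j≠i} G_ij^(-γ)` with `γ = β/2`, `s = γ m < 1`, bound `C w^(-γ m (m-1))`. -/
def S_STAR : Prop := ∀ (m : ℕ) (γ : ℝ), 1 ≤ m → 0 ≤ γ → γ * m < 1 → ∃ C : ℝ, 0 < C ∧ ∀ d w : ℝ, 0 < d → 0 < w → w ≤ 1 →
  IntegrableOn (fun v : Fin m → ℝ => ∏ i, ∏ j, (if i = j then 1 else G d (v i - v j) ^ (-γ)))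
    (Set.univ.pi fun _ => Set.Icc (-w) w) ∧
  (1 / (2 * w)) ^ m * ∫ v in Set.univ.pi (fun _ : Fin m => Set.Icc (-w) w),
    ∏ i, ∏ j, (if i = j then 1 else G d (v i - v j) ^ (-γ)) ≤ C * w ^ (-(γ * m * (m - 1)))

/-- **(BAR1)** hypotheses allowed: `(h1 : S_JMU) (h2 : S_FOUR) (h3 : S_ONE)`. About 200 lines. The barrier is typical under the tilt.

Proof. Let `w = (2d)^u`. Markov: `1_{A > X} ≤ A/X`, so the left side is at most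
`X^(-1) (1/(2w)) ∫_{-w}^{w} E[F(t+x) yb(t+x+v)] dv` (Fubini, everything is measurable and bounded on bounded sets; `E = (1/T) ∫_0^T`). Let `|v| ≤ w ≤ 1`. By
JMU (shifts `x, x+v`, `m = 2`, `D` large) there is `S`; `yb ≤ 2d + z^(2b)` and on `S`: `E[1_S F(t+x) z(t+x+v)^(2b)] ≤
C N^(k²+b²) G(v)^(-2kb)`, as `F ≤ z^(2k)`. The part with `2d`: `≤ 2d E F(t+x) ≤ C N^(k²)` (ONE with level `max(V, k+1)`, `F` is increasing in `V`).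
Off `S`: `F ≤ N^(2kV)`, and by Cauchy-Schwarz and `z^(4b) ≤ 1 + z^4` (`b ≤ 1`), `E[1_{S^c} z(t+x+v)^(2b)] ≤ (d^D)^(1/2) (1 + C d^(-4))^(1/2)`
(FOUR), negligible for large `D`. Integrate over `v`: `(1/2w) ∫_{-w}^{w} G(v)^(-2kb) dv ≤ (1/w) ∫_0^w v^(-2kb) dv ≤ 4 w^(-2kb) = 4 N^(2kbu)`
as `2kb ≤ 1/2`. Total: `≤ C X^(-1) N^(k²+b²+2kbu) = C N^(k²-η) ≤ N^(k²-η/2)`. -/
def S_BAR1 : Prop := ∀ d : ℝ → ℝ, Ad d → ∀ k V b u η : ℝ, 0 < k → 0 < V → 0 < b → b ≤ 1 → 4 * k * b ≤ 1 → 0 ≤ u → u ≤ 1 →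
  0 < η → ∀ᶠ T : ℝ in atTop, ∀ x : ℝ, 0 ≤ x → x ≤ T ^ ((1:ℝ) / 4) →
  (1 / T) * (∫ t in (0:ℝ)..T, (if A b u (d T) (t + x) ≤ X k b u η (d T) then 0 else F k V (d T) (t + x))) ≤
    (2 * d T) ^ (-(k ^ 2) + η / 2)

/-- **(BAR2A)** no hypotheses. About 120 lines. Pointwise: the negative moments of the window average.

Proof. By Cauchy-Schwarz `1 ≤ A b u d t · (1/(2w)) ∫_{-w}^{w} yb(t+v)^(-1) dv`, `w = (2d)^u` (`yb` is continuous, `≥ 2d > 0`); so if `A ≤ X₀` then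
`1 ≤ X₀^m ((1/(2w)) ∫ yb^(-1))^m = X₀^m (1/(2w))^m ∫_{[-w,w]^m} ∏_i yb(t+v_i)^(-1) dv`
(`MeasureTheory.integral_fintype_prod_eq_prod` on the product of the restricted measures; compare `pow_eq` in `Pool/Agent/H6Z/Mm.lean`). -/
def S_BAR2A : Prop := ∀ (b u d t X₀ : ℝ) (m : ℕ), 0 < b → 0 ≤ u → 0 < d → d ≤ 1 / 16 → 0 < X₀ → A b u d t ≤ X₀ →
  1 ≤ X₀ ^ m * ((1 / (2 * (2 * d) ^ u)) ^ m * ∫ v in Set.univ.pi (fun _ : Fin m => Set.Icc (-(2 * d) ^ u) ((2 * d) ^ u)),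
    ∏ i, (yb b d (t + v i))⁻¹)

/-- **(BAR2B)** hypotheses allowed: `(h : S_JMU)`. About 180 lines. The correlations with `m` further points.

Proof. The `m + 2` shifts `x, y, x + v_1, ..., x + v_m` (all differences `≤ 2`, all shifts `≤ T^(1/2)`), exponents `k, k, -b, ..., -b`, `b = k/m`. JMU with `D` large:
on `S`, `F F ∏ yb^(-1) ≤ z(t+x)^(2k) z(t+y)^(2k) ∏ z(t+x+v_i)^(-2b)` (as `yb ≥ z^(2b)`), so this part is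
`≤ C ∏_{j,l} G(h_j-h_l)^(-b_j b_l) = C N^(2k²+mb²) G(y-x)^(-2k²) ∏_i G(v_i)^(2kb) ∏_i G(x+v_i-y)^(2kb) ∏_{i≠j} G(v_i-v_j)^(-b²)`, and
`G(v_i) ≤ 2d + w ≤ 2w`, `G(x+v_i-y) ≤ 2d + 2w ≤ 3w`, `w = (2d)^u ≥ 2d`: the two middle products are `≤ 6^(2k²) w^(4kbm) = C N^(-4k²u)`.
Off `S`: `F F ≤ N^(4kV)`, `yb^(-1) ≤ N`: at most `d^D N^(4kV+m) ≤ N^(-4k²u)` times the other factors, which are all `≥ 1`... (the `G`'s in the final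
bound have `G ≤ 4`, so `G^(-s) ≥ 4^(-s)`; choose `D = 4kV + m + 4k² + 1`). -/
def S_BAR2B : Prop := ∀ d : ℝ → ℝ, Ad d → ∀ (k V u : ℝ) (m : ℕ), 0 < k → 0 < V → 0 ≤ u → u ≤ 1 → 1 ≤ m →
  ∃ C : ℝ, 0 < C ∧ ∀ᶠ T : ℝ in atTop, ∀ (x y : ℝ) (v : Fin m → ℝ), 0 ≤ x → x ≤ T ^ ((1:ℝ) / 4) → 0 ≤ y → y ≤ T ^ ((1:ℝ) / 4) →
  |y - x| ≤ (2 * d T) ^ u → (∀ i, |v i| ≤ (2 * d T) ^ u) →
  (1 / T) * (∫ t in (0:ℝ)..T, F k V (d T) (t + x) * F k V (d T) (t + y) * ∏ i, (yb (k / m) (d T) (t + x + v i))⁻¹) ≤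
    C * (2 * d T) ^ (-(2 * k ^ 2 + k ^ 2 / m - 4 * k ^ 2 * u)) * G (d T) (y - x) ^ (-(2 * k ^ 2)) *
      ∏ i, ∏ j, (if i = j then 1 else G (d T) (v i - v j) ^ (-((k / m) ^ 2)))

/-- **(BAR2)** hypotheses allowed: `(h1 : S_BAR2A) (h2 : S_BAR2B) (h3 : S_STAR)`. About 150 lines. The pair correlation below the barrier.

Proof. If `A b u (t+x) ≤ X` (`b = k/m`), multiply the nonnegative integrand by the right side of BAR2A (with `X₀ = X`, at `t + x`) and use Fubini: the left side is at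
most `X^m (1/(2w))^m ∫_{[-w,w]^m} E[F F ∏ yb(t+x+v_i)^(-1)] dv` (bounded measurable integrands; the indicator is dropped at the end). By BAR2B and STAR (`γ = (k/m)²`,
`γ m = k²/m < 1`) this is `≤ C X^m N^(2k²+k²/m-4k²u) G(y-x)^(-2k²) w^(-γm(m-1))`, `w^(-γm(m-1)) ≤ N^(k²u)` and
`X^m = N^(k²/m + 2k²u + mη)`. Total: `C N^(2k² - k²u + 2k²/m + mη) G(y-x)^(-2k²)`. -/
def S_BAR2 : Prop := ∀ d : ℝ → ℝ, Ad d → ∀ (k V u η : ℝ) (m : ℕ), 0 < k → 0 < V → 0 ≤ u → u ≤ 1 → 0 < η → 1 ≤ m → k ^ 2 < m →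
  ∃ C : ℝ, 0 < C ∧ ∀ᶠ T : ℝ in atTop, ∀ x y : ℝ, 0 ≤ x → x ≤ T ^ ((1:ℝ) / 4) → 0 ≤ y → y ≤ T ^ ((1:ℝ) / 4) →
  |y - x| ≤ (2 * d T) ^ u →
  (1 / T) * (∫ t in (0:ℝ)..T, (if A (k / m) u (d T) (t + x) ≤ X k (k / m) u η (d T) then
      F k V (d T) (t + x) * F k V (d T) (t + y) else 0)) ≤
    C * (2 * d T) ^ (-(2 * k ^ 2 - k ^ 2 * u + 2 * k ^ 2 / m + m * η)) * G (d T) (y - x) ^ (-(2 * k ^ 2))

/-- **(NEAR2)** hypotheses allowed: `(h1 : S_BAR2) (h2 : S_NEARP) (h3 : S_BAR1)`. About 200 lines.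

Proof. Let `κ = min(θ, 1+θ-k²) > 0`. Choose `n`, `m` with `2k²/n ≤ κ/8`, `2k²/m ≤ κ/8`, `k² < m`, `4k²/m ≤ 1`, `k/m ≤ 1`, then `η = κ/(8m)`,
`δ = min(κ/4, η/4)`. Near part: `Fb Fb ≤ F F 1_{A_i(t+x) ≤ X_i}` for each `i`. For `|y-x| ∈ [N^(-(i+1)/n), N^(-i/n)]`, `1 ≤ i ≤ n-1`, and for `|y-x| ≤ N^(-1)`,
`i = n`: BAR2 at `u = i/n` and `G(y-x) ≥ N^(-min((i+1)/n, 1))` give `Q(x,y) ≤ C N^(2k²-k²u+2k²/m+mη) N^(2k²(u+1/n)) = C N^(2k²+k²u+3κ/8)`;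
for `|y-x| ∈ [N^(-1/n), 1]` NEARP with `c = k` (second bound) gives `Q ≤ C N^(2k²+2k²/n) ≤ C N^(2k²+κ/8)`. The `y` with `|y-x| ≤ N^(-u)` have measure `≤ 2 N^(-u)`, so
the double integral divided by `H²` is at most `∑_i C N^(2k²+k²u-u-θ+3κ/8)`, and `θ - (k²-1)u ≥ κ` for `0 ≤ u ≤ 1`. So it is `≤ N^(2k²-κ/2)`.
Second part: `F - Fb ≤ ∑_{i=1}^n F 1_{A_i > X_i}`, BAR1 for each `i`: `≤ n N^(k²-η/2) ≤ N^(k²-η/4)`. -/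
def S_NEAR2 : Prop := ∀ d : ℝ → ℝ, Ad d → ∀ k V θ : ℝ, 0 < k → 0 < V → 0 < θ → k ^ 2 < 1 + θ →
  ∃ (n m : ℕ) (η δ : ℝ), 0 < δ ∧ ∀ᶠ T : ℝ in atTop,
  (1 / ((2 * d T) ^ (-θ)) ^ 2) * (∫ x in (0:ℝ)..(2 * d T) ^ (-θ), ∫ y in (0:ℝ)..(2 * d T) ^ (-θ),
    (if 1 ≤ |y - x| then 0 else (1 / T) * ∫ t in (0:ℝ)..T, Fb k V n m η (d T) (t + x) * Fb k V n m η (d T) (t + y))) ≤
    (2 * d T) ^ (-(2 * k ^ 2) + δ) ∧
  ∀ x : ℝ, 0 ≤ x → x ≤ (2 * d T) ^ (-θ) →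
    (1 / T) * (∫ t in (0:ℝ)..T, (F k V (d T) (t + x) - Fb k V n m η (d T) (t + x))) ≤ (2 * d T) ^ (-(k ^ 2) + δ)

/-- **(VAR2)** hypotheses allowed: `(h1 : S_ONE) (h2 : S_UNI) (h3 : S_FUB) (h4 : S_FAR) (h5 : S_NEAR2) (h6 : S_APOS)`. About 150 lines; compare
`Pool/Agent/H6F/VAR.lean` (VAR with `F` in place of `Fb`, `θ ≥ 1`).

Proof. Fix `V = 2k + 1`, `H = N^θ` and `n, m, η, δ` from NEAR2; `g = Fb k V n m η (d T)` (measurable: `A` is continuous in `t`; `0 ≤ g ≤ F ≤ N^(2kV)`). FUB for `g`. First moment: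
`E g(t+x) ≥ E F(t+x) - N^(k²-δ) ≥ (1-2ε) M` (ONE, NEAR2). Second moment: near part by NEAR2, far part `g g ≤ F F`, UNI (`V > 2k`) and FAR. So
`E (avg g - M)² ≤ C ε M²`. Finally `avg F - avg g ≥ 0` has the mean value `≤ N^(k²-δ)` (FUB, NEAR2). The statement: the two facts for `g`. -/
def S_VAR2 : Prop := ∀ d : ℝ → ℝ, Ad d → ∀ k θ : ℝ, 0 < k → 0 < θ → k ^ 2 < 1 + θ → ∃ (n m : ℕ) (η : ℝ),
  ∀ ε : ℝ, 0 < ε → ∀ᶠ T : ℝ in atTop,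
    (1 / T) * (∫ t in (0:ℝ)..T, ((1 / (2 * d T) ^ (-θ)) * (∫ u in t..(t + (2 * d T) ^ (-θ)), Fb k (2 * k + 1) n m η (d T) u) -
      M k (d T)) ^ 2) ≤ ε * M k (d T) ^ 2 ∧
    (1 / T) * (∫ t in (0:ℝ)..T, (1 / (2 * d T) ^ (-θ)) * (∫ u in t..(t + (2 * d T) ^ (-θ)),
      (F k (2 * k + 1) (d T) u - Fb k (2 * k + 1) n m η (d T) u))) ≤ ε * M k (d T)

/-- **(LLN2)** hypotheses allowed: `(h1 : S_VAR2) (h2 : S_ONE) (h3 : S_SUP) (h4 : S_FUB) (h5 : S_APOS)`. About 150 lines; compare `Pool/Agent/H6F/LLN.lean`.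

Proof. As LLN: Chebyshev for `avg Fb`, Markov for `avg (F - Fb) ≥ 0` (so `avT k (2k+1)` is within `(ε/2) M` of `M`), then the levels `V = 2k+1` and
`V' > max(V, √(1+θ))` exactly as in LLN. -/
def S_LLN2 : Prop := ∀ d : ℝ → ℝ, Ad d → ∀ k θ ε : ℝ, 0 < k → 0 < θ → k ^ 2 < 1 + θ → 0 < ε → ∀ᶠ T : ℝ in atTop,
  volume {t : ℝ | 0 ≤ t ∧ t ≤ T ∧ ε * M k (d T) < |av k (d T) ((2 * d T) ^ (-θ)) t - M k (d T)|} ≤ ENNReal.ofReal (ε * T)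

/-- **(MAXL2)** hypotheses allowed: `(h1 : S_LLN2) (h2 : S_SUB) (h3 : S_FUB) (h4 : S_APOS)`. A copy of `Pool/Agent/H6F/MAXL.lean` with `0 < θ`. -/
def S_MAXL2 : Prop := ∀ d : ℝ → ℝ, Ad d → ∀ k V θ ε : ℝ, 0 < V → V < k → 0 < θ → k ^ 2 < 1 + θ → 0 < ε → ∀ᶠ T : ℝ in atTop,
  volume {t : ℝ | 0 ≤ t ∧ t ≤ T ∧ (1 / (2 * d T) ^ (-θ)) * (∫ u in t..(t + (2 * d T) ^ (-θ)),
    (if (2 * d T) ^ (-V) < mz (d T) u then mz (d T) u ^ (2 * k) else 0)) < (1 / 2) * M k (d T)} ≤ ENNReal.ofReal (ε * T)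

/-- **(FROZ2)** hypotheses allowed: `(h1 : S_MAXL2) (h2 : S_SUB) (h3 : S_SUP) (h4 : S_FUB) (h5 : S_APOS) (h6 : S_ONE)`. A copy of the proof of FROZ with `0 < θ`
(`κ = √(1+θ) > 1`). -/
def S_FROZ2 : Prop := ∀ d : ℝ → ℝ, Ad d → ∀ θ ε : ℝ, 0 < θ → 0 < ε →
  (∀ᶠ T : ℝ in atTop, volume {t : ℝ | 0 ≤ t ∧ t ≤ T ∧ ¬ ((∀ u : ℝ, t ≤ u → u ≤ t + (2 * d T) ^ (-θ) →
      mz (d T) u ≤ (2 * d T) ^ (-(√(1 + θ) + ε))) ∧
    ∃ u : ℝ, t ≤ u ∧ u ≤ t + (2 * d T) ^ (-θ) ∧ (2 * d T) ^ (-(√(1 + θ) - ε)) ≤ mz (d T) u)} ≤ ENNReal.ofReal (ε * T)) ∧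
  ∀ k : ℝ, √(1 + θ) ≤ k → ∀ᶠ T : ℝ in atTop, volume {t : ℝ | 0 ≤ t ∧ t ≤ T ∧
    ¬ ((2 * d T) ^ (-(2 * k * √(1 + θ) - (1 + θ) - ε)) ≤ av k (d T) ((2 * d T) ^ (-θ)) t ∧
      av k (d T) ((2 * d T) ^ (-θ)) t ≤ (2 * d T) ^ (-(2 * k * √(1 + θ) - (1 + θ) + ε)))} ≤ ENNReal.ofReal (ε * T)

end Pool.Agent.H6F
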