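import Pool.Agent.H6F.Stm2

set_option autoImplicit false

/-!
# Short intervals of the critical line itself: the lower bound

For `d ≤ (log T)^(-3/4)` and `k² < 1 + θ` the average of `|ζ(1/2 + iu)|^(2k)` over `[t, t+H]`, `H = (2d)^(-θ)`, is at least `(1-ε) a(k) (2d)^(-k²)`
for almost all `t`: the mean over vertical lines of `|ζ(s) exp(((s-1/2-iy₀)/h)²)|^(2k)` is a convex function of the abscissa.
-/

namespace Pool.Agent.H6F

open Filter MeasureTheory Topology Complex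
open Pool.Agent.N748.MG Pool.Agent.N748.MJ

/-- **(SMV)** no hypotheses. About 80 lines. Subharmonicity of `|f|^p`.

Proof. If `f c = 0` the left side is `0`. Otherwise Jensen's formula (Mathlib: `circleAverage` of `log ‖f ·‖`, file `Mathlib/Analysis/Complex/JensenFormula.lean`,
or `MeromorphicOn.circleAverage_log_norm`; the terms of the zeros are `≥ 0`) gives `log ‖f c‖ ≤ circleAverage (log ‖f ·‖) c r`, and
Jensen's inequality for `exp` (`ConvexOn.map_average_le`, `convexOn_exp`) gives `‖f c‖^p = exp(p log ‖f c‖) ≤` average of `exp(p log ‖f‖) ≤` average of `‖f‖^p`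
(where `f = 0` on the circle `log = 0`, only finitely many points). Integrability of `log ‖f‖` on the circle: `circleIntegrable_log_norm_meromorphicOn`. -/
def S_SMV : Prop := ∀ (f : ℂ → ℂ) (c : ℂ) (r p : ℝ), 0 < p → 0 < r → AnalyticOnNhd ℂ f (Metric.closedBall c r) →
  ‖f c‖ ^ p ≤ (1 / (2 * Real.pi)) * ∫ φ in (0:ℝ)..(2 * Real.pi), ‖f (circleMap c r φ)‖ ^ p

/-- **(CVX)** no hypotheses. About 80 lines. A continuous function with the sub-mean value property is below its chord.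

Proof. Subtract the chord (affine functions have equality, `∫_0^{2π} cos = 0`): `g a = g b = 0`; let `M = max g > 0`, and let `x₀` be the smallest point of `[a,b]` with
`g x₀ = M` (compact set), `r = min(x₀-a, b-x₀) > 0`. The average of `g(x₀ + r cos φ) ≤ M` over `φ` is `≥ M`, so `g(x₀ + r cos φ) = M` for all `φ`
(continuity), at `φ = π`: `g(x₀ - r) = M`, a contradiction to the choice of `x₀`. -/
def S_CVX : Prop := ∀ (g : ℝ → ℝ) (a b : ℝ), a < b → ContinuousOn g (Set.Icc a b) →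
  (∀ x r : ℝ, 0 < r → a ≤ x - r → x + r ≤ b →
    g x ≤ (1 / (2 * Real.pi)) * ∫ φ in (0:ℝ)..(2 * Real.pi), g (x + r * Real.cos φ)) →
  ∀ x : ℝ, a ≤ x → x ≤ b → g x ≤ (b - x) / (b - a) * g a + (x - a) / (b - a) * g b

/-- **(HIP)** hypotheses allowed: `(h1 : S_SMV) (h2 : S_CVX)`. About 120 lines. Hardy, Ingham, Pólya: means over vertical lines.

Proof. `g x = ∫ ‖f(x+iy)‖^p dy` is finite and continuous on `[a,b]` (dominated convergence, `‖f‖^p ≤ A^p exp(-pq|y|)`; `A ≥ 0`). SMV at `x + iy` and Fubini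
(dominated by `A^p exp(-pq(|y|-r))`), and the translation `y → y - r sin φ`, give the sub-mean value property of CVX (`circleMap c r φ = c + r cos φ + i r sin φ`). -/
def S_HIP : Prop := ∀ (f : ℂ → ℂ) (a b p A q : ℝ), a < b → 0 < p → 0 < q →
  (∀ s : ℂ, a ≤ s.re → s.re ≤ b → AnalyticAt ℂ f s) →
  (∀ s : ℂ, a ≤ s.re → s.re ≤ b → ‖f s‖ ≤ A * Real.exp (-(q * |s.im|))) →
  ∀ x : ℝ, a ≤ x → x ≤ b → ∫ y : ℝ, ‖f (x + y * I)‖ ^ p ≤
    (b - x) / (b - a) * (∫ y : ℝ, ‖f (a + y * I)‖ ^ p) + (x - a) / (b - a) * ∫ y : ℝ, ‖f (b + y * I)‖ ^ p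

/-- **(ZPB)** no hypotheses. Polynomial bound of zeta in the strip; take it from the library (search Mathlib and `Pool/Agent` for bounds of
`riemannZeta` in the critical strip: e.g. the inputs of `Pool.Agent.N748`, `Pool.Agent.H6Z.Fz`; or from
`ζ(s) = s/(s-1) - s ∫_1^∞ {x} x^(-s-1) dx` (`re s > 0`), which gives `|ζ(s)| ≤ |s|/|s-1| + 2|s|`). -/
def S_ZPB : Prop := ∃ C : ℝ, 0 < C ∧ ∀ x y : ℝ, 0 ≤ x → x ≤ 1 / 4 → mz x y ≤ C * (1 + |y|) ^ C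

/-- the Gaussian average of width `h` around the height `y₀`, at distance `x` from the critical line -/
noncomputable def Ga (k h x y₀ : ℝ) : ℝ := ∫ y : ℝ, mz x y ^ (2 * k) * Real.exp (-(2 * k * (y - y₀) ^ 2 / h ^ 2))

/-- **(GAU)** hypotheses allowed: `(h1 : S_HIP) (h2 : S_ZPB)`. About 100 lines.

Proof. HIP for `f s = ζ(s) exp(((s-1/2-iy₀)/h)²)`, `p = 2k`, `a = 1/2`, `b = 1/2 + h ≤ 3/4` (so `s = 1` is not in the strip), `q = 1`, at `x = 1/2 + d`. At `s = 1/2 + x + iy`: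
`‖exp(((s-1/2-iy₀)/h)²)‖ = exp((x² - (y-y₀)²)/h²)`, so the three integrals are `e^(2k d²/h²) Ga(d) ≥ Ga(d)`, `Ga(0)` and `e^(2k) Ga(h)`. -/
def S_GAU : Prop := ∀ k d h y₀ : ℝ, 0 < k → 0 < d → d ≤ h → h ≤ 1 / 4 →
  Ga k h d y₀ ≤ Ga k h 0 y₀ + (d / h) * Real.exp (2 * k) * Ga k h h y₀

/-- **(INTG)** hypotheses allowed: `(h1 : S_GAU) (h2 : S_ZPB)`. About 180 lines.

Proof. Integrate GAU over `y₀ ∈ [t+1, t+H-1]` (Fubini; everything nonnegative and integrable by ZPB). Let `w(y) = ∫_{t+1}^{t+H-1} e^(-2k(y-y₀)²/h²) dy₀` and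
`c = ∫_ℝ e^(-2kx²/h²) dx = h √(π/(2k))`. Then `w ≤ c`; `w(y) ≥ c - ∫_{|x|≥1} ≥ (1 - C h) c` for `y ∈ [t+2, t+H-2]`, as
`∫_{|x|≥1} e^(-2kx²/h²) ≤ e^(-k/h²) ∫ e^(-kx²/h²) = √2 e^(-k/h²) c`; and for `y ∉ [t, t+H]`, `w(y) ≤ e^(-k/h²) ∫_{t+1}^{t+H-1} e^(-k(y-y₀)²) dy₀` (`h ≤ 1`), so that by
ZPB the part of `∫ z^(2k) w` outside `[t,t+H]` is at most `C (t+H)^C e^(-k/h²)`. Divide by `c` (`e^(-k/h²)/h ≤ C e^(-k/(2h²))`). -/
def S_INTG : Prop := ∀ k : ℝ, 0 < k → ∃ C : ℝ, 0 < C ∧ ∀ d h t H : ℝ, 0 < d → d ≤ h → h ≤ 1 / 4 → 0 ≤ t → 4 ≤ H →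
  (1 - C * h) * (∫ u in (t + 2)..(t + H - 2), mz d u ^ (2 * k)) ≤
    (∫ u in t..(t + H), mz 0 u ^ (2 * k)) + (d / h) * Real.exp (2 * k) * (∫ u in t..(t + H), mz h u ^ (2 * k)) +
      C * (t + H) ^ C * Real.exp (-(k / (2 * h ^ 2)))

/-- **(EDGE)** hypotheses allowed: `(h1 : S_LLN2) (h2 : S_ONE) (h3 : S_SUP) (h4 : S_FUB) (h5 : S_APOS)`. About 120 lines; compare
`Pool/Agent/H6F/LLN2.lean`, `LLN.lean`.

Proof. `H = N^θ`. For almost all `t`: `(1/H) ∫_t^{t+H} z^(2k) ≥ (1-ε/2) M` (LLN2) and `z ≤ N^V` on `[t,t+H]`, `V = √(1+θ) + k + 1` (SUP), so that the integral over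
`[t,t+2]` and `[t+H-2,t+H]` is the one of `F = F k V`, whose mean over `t ∈ [0,T]` is `≤ 4·2M` (ONE, FUB with `H = 2`; the second one is a shift, `H ≤ T^(1/8)`, by
`H - 2`); Markov: it is `≥ (ε/2) H M` on a set of measure `≤ T·16/(εH)`. -/
def S_EDGE : Prop := ∀ d : ℝ → ℝ, Ad d → ∀ k θ ε : ℝ, 0 < k → 0 < θ → k ^ 2 < 1 + θ → 0 < ε → ∀ᶠ T : ℝ in atTop,
  volume {t : ℝ | 0 ≤ t ∧ t ≤ T ∧ (1 / (2 * d T) ^ (-θ)) *
    (∫ u in (t + 2)..(t + (2 * d T) ^ (-θ) - 2), mz (d T) u ^ (2 * k)) < (1 - ε) * M k (d T)} ≤ ENNReal.ofReal (ε * T)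

/-- **(LINE)** hypotheses allowed: `(h1 : S_INTG) (h2 : S_EDGE) (h3 : S_LLN2) (h4 : S_APOS)`. About 150 lines.

Proof. Let `h(T) = (2 d(T))^(3/4) / 2`: `h ≥ d`, `Ad h` (`h log T/(log 1/h)² ≥ d log T/(log 1/d)²`), `(2h)^(-θ') = (2d)^(-θ) = H` for `θ' = 4θ/3`, `k² < 1 + θ'`. By LLN2 for
`h, θ'` almost all `t` have `(1/H) ∫_t^{t+H} mz h^(2k) ≤ 2 M k h = 2 a (2d)^(-3k²/4) ≤ 2 M k d`; `d/h = (2d)^(1/4) → 0`. EDGE for the left side of INTG. The last term of INTG: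
`h² ≤ (2 (log T)^(-3/4))^(3/2)/4 ≤ (log T)^(-9/8)`, so `C (t+H)^C e^(-k/(2h²)) ≤ C (2T)^C e^(-(k/2) (log T)^(9/8)) → 0`, while `M → ∞`... (`M ≥ a > 0`). -/
def S_LINE : Prop := ∀ d : ℝ → ℝ, Ad d → (∀ᶠ T : ℝ in atTop, d T ≤ Real.log T ^ (-(3 / 4 : ℝ))) →
  ∀ k θ ε : ℝ, 0 < k → 0 < θ → k ^ 2 < 1 + θ → 0 < ε → ∀ᶠ T : ℝ in atTop,
  volume {t : ℝ | 0 ≤ t ∧ t ≤ T ∧ (1 / (2 * d T) ^ (-θ)) *
    (∫ u in t..(t + (2 * d T) ^ (-θ)), mz 0 u ^ (2 * k)) < (1 - ε) * M k (d T)} ≤ ENNReal.ofReal (ε * T)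

end Pool.Agent.H6F
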