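import Pool.Agent.H6F.Stm3

set_option autoImplicit false

/-!
# Short intervals of the critical line itself: the lower bound for all lengths
-/

namespace Pool.Agent.H6F

open Filter MeasureTheory Topology Complex
open Pool.Agent.N748.MG Pool.Agent.N748.MJ

/-- **(LONG)** hypotheses allowed: `(h1 : S_LINE) (h2 : S_APOS)`. About 150 lines.

Proof. Let `0 < θ₀ < θ` with `k² < 1 + θ₀` and `H₀ = (2d)^(-θ₀)`, so `H₀/H ≤ (2d)^(θ-θ₀) → 0`. Let `0 < ε' ≤ 1/4` be small and `B = {v ∈ [0,T] : (1/H₀) ∫_v^{v+H₀} f < (1-ε') M}`,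
`f = mz 0 ^ (2k)` (continuous, nonnegative: `mz 0 u = ‖ζ(1/2 + iu)‖`), `|B| ≤ ε' T` by LINE for `θ₀`. For `t ∈ [0, T-H]` (Fubini and `f ≥ 0`):
`(1/H) ∫_t^{t+H} f ≥ (1/H) ∫_{v ∈ [t, t+H-H₀]} ((1/H₀) ∫_v^{v+H₀} f) dv ≥ (1-ε') M (1 - H₀/H - |B ∩ [t,t+H]|/H)`. Fubini: `∫_0^{T-H} |B ∩ [t,t+H]| dt ≤ H |B| ≤ ε' H T`, so (Markov)
`|B ∩ [t,t+H]| ≤ √ε' H` for all `t ∈ [0,T-H]` but a set of measure `≤ √ε' T`. The `t ∈ [T-H, T]` have measure `H = o(T)`. -/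
def S_LONG : Prop := ∀ d : ℝ → ℝ, Ad d → (∀ᶠ T : ℝ in atTop, d T ≤ Real.log T ^ (-(3 / 4 : ℝ))) →
  ∀ k θ ε : ℝ, 0 < k → 0 < θ → k ^ 2 < 1 + θ → 0 < ε → ∀ H : ℝ → ℝ, (∀ᶠ T : ℝ in atTop, (2 * d T) ^ (-θ) ≤ H T) →
  Tendsto (fun T : ℝ => H T / T) atTop (𝓝 0) → ∀ᶠ T : ℝ in atTop,
  volume {t : ℝ | 0 ≤ t ∧ t ≤ T ∧ (1 / H T) * (∫ u in t..(t + H T), mz 0 u ^ (2 * k)) < (1 - ε) * M k (d T)} ≤
    ENNReal.ofReal (ε * T)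

/-- **(ONL)** hypotheses allowed: `(h1 : S_LONG) (h2 : S_APOS)`. About 120 lines.

Proof. `L₂ = log log T`, `ω₁ = min(√ω, L₂)` (for large `T`, `ω > 0`), `d = ω₁ L₂² / log T`. Then `d → 0`, `d ≤ (log T)^(-3/4)`, and `log(1/d) ≤ L₂` (as `ω₁ L₂² ≥ 1`), so
`d log T/(log 1/d)² ≥ ω₁ → ∞` (`Ad d`; `log (1/d) > 0`). `2d ≥ 1/log T`, so `(2d)^(-θ) ≤ (log T)^θ ≤ H`. LONG with `min ε (1/2)`:
`(1/2) a (2d)^(-k²) = (1/2) a (2ω₁)^(-k²) (log T/L₂²)^(k²) ≥ (log T/(ω L₂²))^(k²)` for large `T`, since `ω/ω₁ ≥ √ω → ∞`. (`M k d = a (2d)^(-k²)`, `a > 0` from APOS.) -/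
def S_ONL : Prop := ∀ k θ ε : ℝ, 0 < k → 0 < θ → k ^ 2 < 1 + θ → 0 < ε → ∀ ω H : ℝ → ℝ, Tendsto ω atTop atTop →
  (∀ᶠ T : ℝ in atTop, Real.log T ^ θ ≤ H T) → Tendsto (fun T : ℝ => H T / T) atTop (𝓝 0) → ∀ᶠ T : ℝ in atTop,
  volume {t : ℝ | 0 ≤ t ∧ t ≤ T ∧ (1 / H T) * (∫ u in t..(t + H T), mz 0 u ^ (2 * k)) <
    (Real.log T / (ω T * Real.log (Real.log T) ^ 2)) ^ (k ^ 2)} ≤ ENNReal.ofReal (ε * T)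

end Pool.Agent.H6F
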