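import Pool.Agent.H6F.Stm3
import Pool.Agent.H6Z.Mm2

set_option autoImplicit false

/-!
# Shifted moments of all orders on the critical line: lower bounds, uniformly in the shifts

`(1/T) ∫_0^T ∏_j |ζ(1/2 + i(t + h_j))|^(2 k_j) dt ≥ (1-ε) a(h) ∏_(j,l) |ζ(1 + 2d + i(h_j - h_l))|^(k_j k_l)` for real `k_j > 0`, `|h_j| ≤ T^(1/2)`. The means over vertical lines of
products of powers of analytic functions are convex functions of the abscissa; between `re s = 1/2` and `re s = 2`.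
-/

namespace Pool.Agent.H6F

open Filter MeasureTheory Topology Complex
open Pool.Agent.N748.MG Pool.Agent.N748.MJ

/-- **(SMVP)** no hypotheses. About 80 lines. Subharmonicity of a product of powers; copy `Pool/Agent/H6F/SMV.lean` (one function).

Proof. If some `f j c = 0` the left side is `0`. Otherwise add up Jensen's inequality `log ‖f j c‖ ≤` circle average of `log ‖f j‖` with the weights `p j`, and use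
Jensen's inequality for `exp`; on the circle `exp(∑ p_j log ‖f_j‖) = ∏ ‖f_j‖^p_j` except at finitely many points. -/
def S_SMVP : Prop := ∀ (m : ℕ) (f : Fin m → ℂ → ℂ) (p : Fin m → ℝ) (c : ℂ) (r : ℝ), (∀ j, 0 < p j) → 0 < r →
  (∀ j, AnalyticOnNhd ℂ (f j) (Metric.closedBall c r)) →
  ∏ j, ‖f j c‖ ^ p j ≤ (1 / (2 * Real.pi)) * ∫ φ in (0:ℝ)..(2 * Real.pi), ∏ j, ‖f j (circleMap c r φ)‖ ^ p j

/-- **(HIPP)** hypotheses allowed: `(h1 : S_SMVP) (h2 : S_CVX)`. About 120 lines; copy `Pool/Agent/H6F/HIP.lean` (one function). -/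
def S_HIPP : Prop := ∀ (m : ℕ) (f : Fin m → ℂ → ℂ) (p : Fin m → ℝ) (a b A q : ℝ), 1 ≤ m → a < b → (∀ j, 0 < p j) → 0 < q →
  (∀ (j : Fin m) (s : ℂ), a ≤ s.re → s.re ≤ b → AnalyticAt ℂ (f j) s) →
  (∀ (j : Fin m) (s : ℂ), a ≤ s.re → s.re ≤ b → ‖f j s‖ ≤ A * Real.exp (-(q * |s.im|))) →
  ∀ x : ℝ, a ≤ x → x ≤ b → ∫ y : ℝ, ∏ j, ‖f j (x + y * I)‖ ^ p j ≤
    (b - x) / (b - a) * (∫ y : ℝ, ∏ j, ‖f j (a + y * I)‖ ^ p j) + (x - a) / (b - a) * ∫ y : ℝ, ∏ j, ‖f j (b + y * I)‖ ^ p j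

/-- `(w-1) ζ(w) / (w+1)`, analytic in `re w > -1` -/
noncomputable def Gq (w : ℂ) : ℂ := Pool.Agent.H6Z.Mm.gz w / (w + 1)

/-- **(ZPB2)** no hypotheses. About 120 lines; the polynomial bound as in `Pool/Agent/H6F/ZPB.lean` (there for `re w ≤ 3/4`).

Proof. `gz w = (w-1) ζ(w)` is continuous (`Pool.Agent.H6Z.Mm.gz_cont`) and differentiable off `1`, hence entire (removable singularity, Mathlib). `|(w-1)/(w+1)|² = 1 - 4 re w/((re w+1)² + y²)`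
is `≤ 1` and `≥ 1 - 8/y²`, `√(1-u) ≥ 1-u`. `|ζ(2+iy)| ≤ ζ(2) ≤ 2`. -/
def S_ZPB2 : Prop := (∀ w : ℂ, 1 / 2 ≤ w.re → AnalyticAt ℂ Gq w) ∧ (∀ y : ℝ, ‖Gq (2 + y * I)‖ ≤ 2) ∧
  (∃ C : ℝ, 0 < C ∧ ∀ w : ℂ, 1 / 2 ≤ w.re → w.re ≤ 2 → ‖Gq w‖ ≤ C * (1 + |w.im|) ^ C) ∧
  ∀ x y : ℝ, 0 ≤ x → x ≤ 1 / 4 → ‖Gq (1 / 2 + x + y * I)‖ ≤ mz x y ∧
    (4 ≤ |y| → (1 - 8 / y ^ 2) * mz x y ≤ ‖Gq (1 / 2 + x + y * I)‖)

/-- the Gaussian average of the product of the shifted factors at distance `x` from the critical line -/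
noncomputable def Gp {m : ℕ} (k h : Fin m → ℝ) (x y₀ : ℝ) : ℝ :=
  ∫ y : ℝ, (∏ j, ‖Gq (1 / 2 + x + (y + h j) * I)‖ ^ (2 * k j)) * Real.exp (-(2 * (∑ j, k j) * (y - y₀) ^ 2))

/-- **(GAUP)** hypotheses allowed: `(h1 : S_HIPP) (h2 : S_ZPB2)`. About 120 lines; compare `Pool/Agent/H6F/GAU.lean`.

Proof. `K = ∑ k_j`. HIPP for `f_j s = Gq(s + i h_j) exp((s-1/2-iy₀)²) exp(-(Λ/(2K)) (s-1/2))`, `p_j = 2 k_j`, `a = 1/2`, `b = 2`, at `x = 1/2 + d`. The integral over the line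
`re s = 1/2 + x` is `e^(-Λx) e^(2Kx²) Gp(x)`; so `e^(-Λd) Gp(d) ≤ Gp(0) + (2d/3) e^(-3Λ/2) e^(9K/2) Gp(3/2)`. -/
def S_GAUP : Prop := ∀ (m : ℕ) (k h : Fin m → ℝ) (d Λ y₀ : ℝ), 1 ≤ m → (∀ j, 0 < k j) → 0 < d → d ≤ 1 / 4 → 0 ≤ Λ →
  Gp k h d y₀ ≤ Real.exp (Λ * d) * Gp k h 0 y₀ +
    d * Real.exp (Λ * d - 3 / 2 * Λ) * Real.exp (9 / 2 * ∑ j, k j) * Gp k h (3 / 2) y₀

/-- **(INTG2)** hypotheses allowed: `(h1 : S_GAUP) (h2 : S_ZPB2)`. About 200 lines; compare `Pool/Agent/H6F/INTG.lean`.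

Proof. `K = ∑ k_j`, `B = log T`. Integrate GAUP over `y₀ ∈ [B, T-B]`; `w(y) = ∫_B^{T-B} e^(-2K(y-y₀)²) dy₀`, `c = ∫_ℝ e^(-2Kx²) dx`. `w ≤ c`; `w ≥ (1-ε/2) c` on `[2B, T-2B]` for large `T`; and
for `y ∉ [0,T]`: `w(y) ≤ e^(-K B²) ∫_B^{T-B} e^(-K(y-y₀)²) dy₀`, so by ZPB2 (and `|h_j| ≤ T`) the part of `∫ ∏ ‖Gq‖^(2k_j) w` outside `[0,T]` is at most
`C T^C e^(-K log² T) ≤ c` for large `T`. On the line `x = 0`: `‖Gq‖ ≤ mz 0`; on the line `x = d`, `|y + h_j| ≥ B`: `‖Gq‖ ≥ (1-8/B²) mz d`; on the line `x = 3/2`: `‖Gq‖ ≤ 2`, so the last term is at most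
`d e^(Λd-3Λ/2) e^(9K/2) 2^(2K) c T`. Divide by `c`. -/
def S_INTG2 : Prop := ∀ (m : ℕ) (k : Fin m → ℝ) (ε : ℝ), 1 ≤ m → (∀ j, 0 < k j) → 0 < ε → ∃ C T₀ : ℝ, 0 < C ∧ 3 ≤ T₀ ∧
  ∀ (T d Λ : ℝ) (h : Fin m → ℝ), T₀ ≤ T → (∀ j, |h j| ≤ T) → 0 < d → d ≤ 1 / 4 → 0 ≤ Λ →
  (1 - ε) * (∫ t in {t : ℝ | 2 * Real.log T ≤ t ∧ t ≤ T - 2 * Real.log T ∧ ∀ j, Real.log T ≤ |t + h j|},
      ∏ j, mz d (t + h j) ^ (2 * k j)) ≤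
    Real.exp (Λ * d) * ((∫ t in (0:ℝ)..T, ∏ j, mz 0 (t + h j) ^ (2 * k j)) + 1) + C * d * Real.exp (Λ * d - 3 / 2 * Λ) * T

/-- **(SHL)** hypotheses allowed: `(h1 : S_INTG2) (h2 : S_SM) (h3 : S_POSV) (h4 : S_LZB)`. About 180 lines.

Proof. Let `R = R(T)` be the main term. By LZB `‖ζ(1+2d+iu)‖ = exp(Re LZ) ≥ d`, and POSV: `R ≥ c d^(C₁)`, `C₁ = ∑_(j,l) k_j k_l`. Let `V = ∑ k_j + 1`. By SM the integral of the product of the `mz d (t+h_j)^(2k_j)` over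
`{t ∈ [0,T] : all mz ≤ (2d)^(-V)}` is `≥ (1-ε') T R` for large `T`; of it the part outside the set of INTG2 is at most `(4+2m) log T (2d)^(-2KV) ≤ ε' T R` (`Ad d`: `d ≥ 1/log T`), the rest is at
most the integral in INTG2. Take `Λ = (C₁+2) log(1/d)`: `Λ d → 0`, `d e^(Λd-3Λ/2) T ≤ 2 d^(C₁+1) T ≤ ε' T R`, `1 ≤ ε' T R`. -/
def S_SHL : Prop := ∀ d : ℝ → ℝ, Ad d → ∀ (m : ℕ) (k : Fin m → ℝ) (ε : ℝ), 1 ≤ m → (∀ j, 0 < k j) → 0 < ε →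
  ∀ h : ℝ → Fin m → ℝ, (∀ᶠ T : ℝ in atTop, ∀ j, |h T j| ≤ T ^ ((1:ℝ) / 2)) → ∀ᶠ T : ℝ in atTop,
  (1 - ε) * ((aV (fun j => (k j : ℂ)) (fun j => (k j : ℂ)) (h T)).re *
    ∏ j, ∏ l, ‖riemannZeta (((1 + 2 * d T : ℝ) : ℂ) + ((h T j - h T l : ℝ) : ℂ) * I)‖ ^ (k j * k l)) ≤
  (1 / T) * ∫ t in (0:ℝ)..T, ∏ j, mz 0 (t + h T j) ^ (2 * k j)

end Pool.Agent.H6F
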